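import Mathlib

set_option autoImplicit false

/-! Locality of connective constants, part L1: this file joins several modules to save build time. -/

section S_H61_SWBase

set_option autoImplicit false

/-! Step lists: a walk from `v` is stored as the list `s` of the vertices after `v`. -/

namespace Pool.Agent.H61.SW

variable {V : Type*}

/-- last vertex of the walk `v :: s` -/
def en : V → List V → V
  | v, [] => v
  | _, a :: s => en a s

/-- consecutive vertices of `v :: s` are adjacent -/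
def ch (G : SimpleGraph V) : V → List V → Prop
  | _, [] => True
  | v, a :: s => G.Adj v a ∧ ch G a s

/-- steps of the reversed walk -/
def rv : V → List V → List V
  | _, [] => []
  | v, a :: s => rv a s ++ [v]

@[simp] lemma en_nil (v : V) : en v [] = v := rfl
@[simp] lemma en_cons (v a : V) (s : List V) : en v (a :: s) = en a s := rfl

lemma en_append (v : V) (s t : List V) : en v (s ++ t) = en (en v s) t := by
  induction s generalizing v with
  | nil => rfl
  | cons a s ih => simpa using ih a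

lemma en_mem (v : V) (s : List V) (hs : s ≠ []) : en v s ∈ s := by
  induction s generalizing v with
  | nil => exact absurd rfl hs
  | cons a s ih =>
    by_cases h : s = []
    · subst h; simp
    · simpa using Or.inr (ih a h)

lemma en_mem_cons (v : V) (s : List V) : en v s ∈ v :: s := by
  by_cases hs : s = []
  · subst hs; simp
  · exact List.mem_cons_of_mem _ (en_mem v s hs)

variable {G : SimpleGraph V}

lemma ch_append (v : V) (s t : List V) : ch G v (s ++ t) ↔ ch G v s ∧ ch G (en v s) t := by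
  induction s generalizing v with
  | nil => simp [ch]
  | cons a s ih => simp [ch, ih a, and_assoc]

lemma cons_rv (v : V) (s : List V) : en v s :: rv v s = (v :: s).reverse := by
  induction s generalizing v with
  | nil => simp [rv]
  | cons a s ih =>
    rw [List.reverse_cons, ← ih a]; simp [rv]

lemma length_rv (v : V) (s : List V) : (rv v s).length = s.length := by
  have := congrArg List.length (cons_rv v s)
  simpa using this

lemma mem_rv {v x : V} {s : List V} : x ∈ en v s :: rv v s ↔ x ∈ v :: s := by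
  rw [cons_rv, List.mem_reverse]

lemma en_rv (v : V) (s : List V) : en (en v s) (rv v s) = v := by
  induction s generalizing v with
  | nil => rfl
  | cons a s ih => simp [rv, en_append]

lemma ch_rv (v : V) (s : List V) (h : ch G v s) : ch G (en v s) (rv v s) := by
  induction s generalizing v with
  | nil => trivial
  | cons a s ih =>
    obtain ⟨h1, h2⟩ := h
    simp only [en_cons, rv, ch_append, en_rv]
    exact ⟨ih a h2, h1.symm, trivial⟩

lemma rv_append (v : V) (s t : List V) : rv v (s ++ t) = rv (en v s) t ++ rv v s := by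
  induction s generalizing v with
  | nil => simp [rv]
  | cons a s ih => simp [rv, ih a]

lemma rv_rv (v : V) (s : List V) : rv (en v s) (rv v s) = s := by
  have h1 := cons_rv (en v s) (rv v s)
  rw [cons_rv v s, List.reverse_reverse, en_rv] at h1
  exact (List.cons.inj h1).2

/-- self-avoiding -/
def sa (G : SimpleGraph V) (v : V) (s : List V) : Prop := ch G v s ∧ (v :: s).Nodup

lemma sa_nil (v : V) : sa G v [] := ⟨trivial, by simp⟩

lemma sa_rv (v : V) (s : List V) (h : sa G v s) : sa G (en v s) (rv v s) := by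
  refine ⟨ch_rv v s h.1, ?_⟩
  rw [cons_rv]; exact List.nodup_reverse.2 h.2

lemma mem_cons_of_split {v x : V} {s t : List V} (h : x ∈ en v s :: t) : x ∈ v :: (s ++ t) := by
  rcases List.mem_cons.1 h with rfl | h
  · rcases List.mem_cons.1 (en_mem_cons v s) with h | h
    · rw [h]; simp
    · exact List.mem_cons_of_mem _ (List.mem_append_left _ h)
  · exact List.mem_cons_of_mem _ (List.mem_append_right _ h)

lemma sa_append_left {v : V} {s t : List V} (h : sa G v (s ++ t)) : sa G v s := by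
  refine ⟨((ch_append v s t).1 h.1).1, ?_⟩
  have := h.2
  rw [← List.cons_append] at this
  exact (List.nodup_append.1 this).1

lemma nodup_en_cons {v : V} {s t : List V} (h : (v :: (s ++ t)).Nodup) : (en v s :: t).Nodup := by
  rw [← List.cons_append, List.nodup_append] at h
  rw [List.nodup_cons]
  exact ⟨fun h2 => h.2.2 _ (en_mem_cons v s) _ h2 rfl, h.2.1⟩

lemma sa_append_right {v : V} {s t : List V} (h : sa G v (s ++ t)) : sa G (en v s) t :=
  ⟨((ch_append v s t).1 h.1).2, nodup_en_cons h.2⟩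

/-- number of step lists of length `n` from `v` with property `P` -/
noncomputable def cnt (P : V → List V → Prop) (v : V) (n : ℕ) : ℕ :=
  Set.ncard {s : List V | s.length = n ∧ P v s}

lemma fin_ch (hlf : ∀ v, (G.neighborSet v).Finite) (n : ℕ) (v : V) :
    {s : List V | s.length = n ∧ ch G v s}.Finite := by
  induction n generalizing v with
  | zero =>
    refine (Set.finite_singleton []).subset ?_
    rintro s ⟨hs, -⟩
    simpa using List.length_eq_zero_iff.1 hs
  | succ n ih =>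
    have : {s : List V | s.length = n + 1 ∧ ch G v s} ⊆
        ⋃ a ∈ G.neighborSet v, (fun s => a :: s) '' {s : List V | s.length = n ∧ ch G a s} := by
      rintro s ⟨hs, hc⟩
      cases s with
      | nil => simp at hs
      | cons a s =>
        simp only [Set.mem_iUnion]
        exact ⟨a, hc.1, s, ⟨by simpa using hs, hc.2⟩, rfl⟩
    exact ((hlf v).biUnion fun a _ => (ih a).image _).subset this

lemma fin_of_imp (hlf : ∀ v, (G.neighborSet v).Finite) {P : V → List V → Prop}
    (hP : ∀ v s, P v s → ch G v s) (n : ℕ) (v : V) :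
    {s : List V | s.length = n ∧ P v s}.Finite :=
  (fin_ch hlf n v).subset fun _ hs => ⟨hs.1, hP _ _ hs.2⟩

/-- product upper bound -/
lemma ncard_split_le (P Q : V → List V → Prop) (v : V) (l m : ℕ) (a b : ℝ) (hb : 0 ≤ b)
    (hfP : {s : List V | s.length = l ∧ P v s}.Finite)
    (hPa : (cnt P v l : ℝ) ≤ a)
    (hQb : ∀ x, (cnt Q x m : ℝ) ≤ b) :
    ((Set.ncard {s : List V | ∃ s1 s2, s = s1 ++ s2 ∧ s1.length = l ∧ P v s1 ∧ s2.length = m ∧
      Q (en v s1) s2} : ℕ) : ℝ) ≤ a * b := by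
  classical
  set F := hfP.toFinset with hF
  have hsub : {s : List V | ∃ s1 s2, s = s1 ++ s2 ∧ s1.length = l ∧ P v s1 ∧ s2.length = m ∧
      Q (en v s1) s2} =
      ⋃ s1 ∈ F, (fun s2 => s1 ++ s2) '' {s2 : List V | s2.length = m ∧ Q (en v s1) s2} := by
    ext s
    simp only [Set.mem_ofPred_eq, Set.mem_iUnion, Set.mem_image, hF, Set.Finite.mem_toFinset]
    constructor
    · rintro ⟨s1, s2, rfl, h1, h2, h3, h4⟩
      exact ⟨s1, ⟨h1, h2⟩, s2, ⟨h3, h4⟩, rfl⟩
    · rintro ⟨s1, ⟨h1, h2⟩, s2, ⟨h3, h4⟩, rfl⟩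
      exact ⟨s1, s2, rfl, h1, h2, h3, h4⟩
  rw [hsub]
  have h1 : (Set.ncard (⋃ s1 ∈ F, (fun s2 => s1 ++ s2) ''
      {s2 : List V | s2.length = m ∧ Q (en v s1) s2}) : ℝ) ≤
      ∑ s1 ∈ F, (cnt Q (en v s1) m : ℝ) := by
    have h2 := Finset.set_ncard_biUnion_le F (fun s1 => (fun s2 => s1 ++ s2) ''
      {s2 : List V | s2.length = m ∧ Q (en v s1) s2})
    calc _ ≤ ((∑ s1 ∈ F, ((fun s2 => s1 ++ s2) ''
      {s2 : List V | s2.length = m ∧ Q (en v s1) s2}).ncard : ℕ) : ℝ) := by exact_mod_cast h2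
      _ = ∑ s1 ∈ F, (cnt Q (en v s1) m : ℝ) := by
        push_cast
        refine Finset.sum_congr rfl fun s1 _ => ?_
        rw [Set.ncard_image_of_injective _ (fun x y hxy => List.append_cancel_left hxy)]
        rfl
  refine h1.trans ?_
  calc ∑ s1 ∈ F, (cnt Q (en v s1) m : ℝ) ≤ ∑ s1 ∈ F, b := Finset.sum_le_sum fun s1 _ => hQb _
    _ = (F.card : ℝ) * b := by simp
    _ ≤ a * b := by
      refine mul_le_mul_of_nonneg_right ?_ hb
      have : F.card = cnt P v l := by
        rw [cnt, Set.ncard_eq_toFinset_card _ hfP]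
      rw [this]; exact hPa

/-- product lower bound -/
lemma cnt_mul_le (P Q R : V → List V → Prop) (v : V) (l m : ℕ) (b : ℕ)
    (hfP : {s : List V | s.length = l ∧ P v s}.Finite)
    (hfR : {s : List V | s.length = l + m ∧ R v s}.Finite)
    (hQb : ∀ s, P v s → cnt Q (en v s) m = b)
    (hR : ∀ s t, P v s → Q (en v s) t → R v (s ++ t)) :
    cnt P v l * b ≤ cnt R v (l + m) := by
  classical
  by_cases hb : b = 0
  · subst hb; simp
  have hfQ : ∀ s, P v s → {t : List V | t.length = m ∧ Q (en v s) t}.Finite := fun s hs =>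
    Set.finite_of_ncard_ne_zero (by rw [show Set.ncard _ = b from hQb s hs]; exact hb)
  let F : List V → Finset (List V) := fun s =>
    if h : P v s then (hfQ s h).toFinset else ∅
  have hFm : ∀ s t, t ∈ F s → P v s → t.length = m ∧ Q (en v s) t := by
    intro s t ht hs
    simp only [F, dif_pos hs, Set.Finite.mem_toFinset, Set.mem_ofPred_eq] at ht
    exact ht
  have h1 : cnt P v l * b = (hfP.toFinset.sigma F).card := by
    rw [Finset.card_sigma]
    have : ∀ s1 ∈ hfP.toFinset, (F s1).card = b := fun s1 hs1 => by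
      have hs1' : P v s1 := ((Set.Finite.mem_toFinset hfP).1 hs1).2
      simp only [F, dif_pos hs1']
      rw [← Set.ncard_eq_toFinset_card _ (hfQ s1 hs1')]; exact hQb _ hs1'
    rw [Finset.sum_congr rfl this]
    simp [cnt, Set.ncard_eq_toFinset_card _ hfP]
  rw [h1, cnt, Set.ncard_eq_toFinset_card _ hfR]
  refine Finset.card_le_card_of_injOn (fun p => p.1 ++ p.2) ?_ ?_
  · rintro ⟨s, t⟩ hst
    simp only [Finset.coe_sigma, Set.mem_sigma_iff, Finset.mem_coe, Set.Finite.mem_toFinset,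
      Set.mem_ofPred_eq] at hst
    obtain ⟨⟨h2, h3⟩, h4⟩ := hst
    have h5 := hFm s t h4 h3
    simp only [Finset.mem_coe, Set.Finite.mem_toFinset, Set.mem_ofPred_eq, List.length_append]
    exact ⟨by rw [h2, h5.1], hR s t h3 h5.2⟩
  · rintro ⟨s, t⟩ hst ⟨s', t'⟩ hst' heq
    simp only [Finset.coe_sigma, Set.mem_sigma_iff, Finset.mem_coe, Set.Finite.mem_toFinset,
      Set.mem_ofPred_eq] at hst hst'
    simp only at heq
    obtain ⟨h1, h2⟩ := List.append_inj heq (by rw [hst.1.1, hst'.1.1])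
    subst h1; subst h2; rfl

/-! automorphisms -/

lemma en_map {W : Type*} (f : V → W) (v : V) (s : List V) : en (f v) (s.map f) = f (en v s) := by
  induction s generalizing v with
  | nil => rfl
  | cons a s ih => simpa using ih a

lemma ch_map (φ : G ≃g G) (v : V) (s : List V) : ch G (φ v) (s.map φ) ↔ ch G v s := by
  induction s generalizing v with
  | nil => simp [ch]
  | cons a s ih => simp [ch, ih a, φ.map_adj_iff]

lemma sa_map (φ : G ≃g G) (v : V) (s : List V) : sa G (φ v) (s.map φ) ↔ sa G v s := by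
  unfold sa
  rw [ch_map, ← List.map_cons, List.nodup_map_iff φ.injective]

lemma cnt_map (P : V → List V → Prop) (φ : G ≃g G) (v : V)
    (hP : ∀ s, P (φ v) (s.map φ) ↔ P v s) (n : ℕ) : cnt P (φ v) n = cnt P v n := by
  unfold cnt
  have : {s : List V | s.length = n ∧ P (φ v) s} =
      (List.map φ) '' {s : List V | s.length = n ∧ P v s} := by
    ext s
    simp only [Set.mem_ofPred_eq, Set.mem_image]
    constructor
    · rintro ⟨h1, h2⟩
      refine ⟨s.map φ.symm, ⟨by simpa using h1, ?_⟩, ?_⟩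
      · rw [← hP]; simpa [Function.comp_def] using h2
      · simp [Function.comp_def]
    · rintro ⟨t, ⟨h1, h2⟩, rfl⟩
      exact ⟨by simpa using h1, (hP t).2 h2⟩
  rw [this, Set.ncard_image_of_injective _ (List.map_injective_iff.2 φ.injective)]

end Pool.Agent.H61.SW

end S_H61_SWBase

section S_H61_SWCore

set_option autoImplicit false

/-! Weak bridges, decomposition of self-avoiding walks into few weak bridges, counting. -/

namespace Pool.Agent.H61.SW

variable {V : Type*} {G : SimpleGraph V}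

/-- weak bridge: the start is lowest, the end is highest -/
def wb (G : SimpleGraph V) (h : V → ℝ) (v : V) (s : List V) : Prop :=
  sa G v s ∧ ∀ x ∈ s, h v ≤ h x ∧ h x ≤ h (en v s)

/-- weak bridge for `h` or for `-h` -/
def br (G : SimpleGraph V) (h : V → ℝ) (v : V) (s : List V) : Prop :=
  wb G h v s ∨ wb G (-h) v s

/-- concatenation of at most `k` weak bridges -/
def dec (G : SimpleGraph V) (h : V → ℝ) : ℕ → V → List V → Prop
  | 0, _, s => s = []
  | k + 1, v, s => ∃ s1 s2, s = s1 ++ s2 ∧ br G h v s1 ∧ dec G h k (en v s1) s2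

lemma br_nil (h : V → ℝ) (v : V) : br G h v [] := Or.inl ⟨sa_nil v, by simp⟩

lemma dec_nil (h : V → ℝ) (k : ℕ) (v : V) : dec G h k v [] := by
  induction k generalizing v with
  | zero => rfl
  | succ k ih => exact ⟨[], [], rfl, br_nil h v, ih _⟩

lemma dec_succ {h : V → ℝ} {k : ℕ} {v : V} {s : List V} (hd : dec G h k v s) :
    dec G h (k + 1) v s := ⟨[], s, rfl, br_nil h v, hd⟩

lemma dec_mono {h : V → ℝ} {k m : ℕ} (hkm : k ≤ m) {v : V} {s : List V} (hd : dec G h k v s) :
    dec G h m v s := by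
  induction hkm with
  | refl => exact hd
  | step _ ih => exact dec_succ ih

lemma dec_append {h : V → ℝ} {k m : ℕ} {v : V} {s t : List V} (hs : dec G h k v s)
    (ht : dec G h m (en v s) t) : dec G h (k + m) v (s ++ t) := by
  induction k generalizing v s with
  | zero =>
    have : s = [] := hs
    subst this
    simpa using ht
  | succ k ih =>
    obtain ⟨s1, s2, rfl, h1, h2⟩ := hs
    rw [en_append] at ht
    rw [show k + 1 + m = (k + m) + 1 by ring, List.append_assoc]
    exact ⟨s1, s2 ++ t, rfl, h1, ih h2 ht⟩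

lemma wb_rv {h : V → ℝ} {v : V} {s : List V} (hs : wb G h v s) :
    wb G (-h) (en v s) (rv v s) := by
  refine ⟨sa_rv v s hs.1, fun x hx => ?_⟩
  rw [en_rv]
  have hx' : x ∈ v :: s := mem_rv.1 (List.mem_cons_of_mem _ hx)
  have hve : h v ≤ h (en v s) := by
    rcases List.mem_cons.1 (en_mem_cons v s) with h1 | h1
    · rw [h1]
    · exact (hs.2 _ h1).1
  simp only [Pi.neg_apply, neg_le_neg_iff]
  rcases List.mem_cons.1 hx' with rfl | h1
  · exact ⟨hve, le_rfl⟩
  · exact ⟨(hs.2 x h1).2, (hs.2 x h1).1⟩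

lemma br_rv {h : V → ℝ} {v : V} {s : List V} (hs : br G h v s) :
    br G h (en v s) (rv v s) := by
  rcases hs with h1 | h1
  · exact Or.inr (wb_rv h1)
  · left; simpa using wb_rv h1

lemma dec_rv {h : V → ℝ} {k : ℕ} {v : V} {s : List V} (hs : dec G h k v s) :
    dec G h k (en v s) (rv v s) := by
  induction k generalizing v s with
  | zero =>
    have : s = [] := hs
    subst this
    rfl
  | succ k ih =>
    obtain ⟨s1, s2, rfl, h1, h2⟩ := hs
    rw [rv_append, en_append]
    refine dec_append (ih h2) ?_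
    rw [en_rv]
    exact ⟨rv v s1, [], by simp, br_rv h1, rfl⟩

lemma br_neg {h : V → ℝ} {v : V} {s : List V} : br G (-h) v s ↔ br G h v s := by
  unfold br; rw [neg_neg]; exact or_comm

lemma dec_neg {h : V → ℝ} {k : ℕ} {v : V} {s : List V} : dec G (-h) k v s ↔ dec G h k v s := by
  induction k generalizing v s with
  | zero => exact Iff.rfl
  | succ k ih => simp only [dec, br_neg, ih]

/-- split at the last maximum -/
lemma last_max (h : V → ℝ) (v : V) (s : List V) (hs : s ≠ []) :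
    ∃ s1 s2, s = s1 ++ s2 ∧ s1 ≠ [] ∧ (∀ x ∈ s1, h x ≤ h (en v s1)) ∧
      ∀ x ∈ s2, h x < h (en v s1) := by
  induction s generalizing v with
  | nil => exact absurd rfl hs
  | cons a s ih =>
    by_cases hs' : s = []
    · subst hs'
      exact ⟨[a], [], rfl, by simp, by simp, by simp⟩
    obtain ⟨s1, s2, rfl, h1, h2, h3⟩ := ih a hs'
    by_cases hc : h a ≤ h (en a s1)
    · refine ⟨a :: s1, s2, rfl, by simp, ?_, ?_⟩
      · intro x hx
        rcases List.mem_cons.1 hx with rfl | hx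
        · exact hc
        · exact h2 x hx
      · exact h3
    · push Not at hc
      refine ⟨[a], s1 ++ s2, rfl, by simp, by simp, ?_⟩
      intro x hx
      simp only [en_cons, en_nil]
      rcases List.mem_append.1 hx with hx | hx
      · exact (h2 x hx).trans_lt hc
      · exact (h3 x hx).trans hc

/-- split at a minimum -/
lemma some_min (h : V → ℝ) (v : V) (s : List V) :
    ∃ s1 s2, s = s1 ++ s2 ∧ ∀ x ∈ v :: s, h (en v s1) ≤ h x := by
  induction s generalizing v with
  | nil => exact ⟨[], [], rfl, by simp⟩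
  | cons a s ih =>
    obtain ⟨s1, s2, rfl, h1⟩ := ih a
    by_cases hc : h (en a s1) ≤ h v
    · refine ⟨a :: s1, s2, rfl, fun x hx => ?_⟩
      rcases List.mem_cons.1 hx with rfl | hx
      · exact hc
      · exact h1 x hx
    · push Not at hc
      refine ⟨[], a :: (s1 ++ s2), rfl, fun x hx => ?_⟩
      rcases List.mem_cons.1 hx with rfl | hx
      · exact le_rfl
      · exact hc.le.trans (h1 x hx)

section decomposition

variable {h : V → ℝ} {T : Finset ℝ} {L : ℕ}

lemma strict_dec (hL : 0 < L)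
    (hT : ∀ v s, ch G v s → s.length < L → |h (en v s) - h v| ∈ T) :
    ∀ n : ℕ, ∀ g : V → ℝ, (g = h ∨ g = -h) → ∀ v s, s.length = n → sa G v s → ∀ S : ℝ,
      (∀ x ∈ s, g v < g x ∧ g x - g v < S) →
      dec G h ((T.filter (· < S)).card + n / L) v s := by
  classical
  intro n
  induction n using Nat.strong_induction_on with
  | _ n ih =>
  intro g hg v s hn hs S hS
  by_cases hs0 : s = []
  · subst hs0; exact dec_nil _ _ _
  obtain ⟨s1, s2, rfl, h1, h2, h3⟩ := last_max g v s hs0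
  have hbr : br G h v s1 := by
    have hw : wb G g v s1 := ⟨sa_append_left hs, fun x hx =>
      ⟨(hS x (List.mem_append_left _ hx)).1.le, h2 x hx⟩⟩
    rcases hg with rfl | rfl
    · exact Or.inl hw
    · exact Or.inr hw
  have hx0 : en v s1 ∈ s1 := en_mem v s1 h1
  have hlen : 0 < s1.length := List.length_pos_iff.2 h1
  have hn' : s1.length + s2.length = n := by simpa using hn
  set S1 : ℝ := g (en v s1) - g v with hS1
  have hS1S : S1 < S := (hS _ (List.mem_append_left _ hx0)).2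
  have hS1pos : 0 < S1 := sub_pos.2 (hS _ (List.mem_append_left _ hx0)).1
  have hrest : dec G h ((T.filter (· < S1)).card + s2.length / L) (en v s1) s2 := by
    refine ih s2.length (by omega) (-g) ?_ (en v s1) s2 rfl (sa_append_right hs) S1 ?_
    · rcases hg with rfl | rfl
      · exact Or.inr rfl
      · left; rw [neg_neg]
    · intro x hx
      have hgx := h3 x hx
      have hvx := (hS x (List.mem_append_right _ hx)).1
      simp only [Pi.neg_apply]
      constructor
      · linarith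
      · rw [hS1]; linarith
  have hstep : dec G h (1 + ((T.filter (· < S1)).card + s2.length / L)) v (s1 ++ s2) := by
    rw [add_comm 1]
    exact ⟨s1, s2, rfl, hbr, hrest⟩
  refine dec_mono ?_ hstep
  by_cases hc : s1.length < L
  · have hmem : S1 ∈ T := by
      have := hT v s1 (sa_append_left hs).1 hc
      have habs : |h (en v s1) - h v| = S1 := by
        rcases hg with rfl | rfl
        · rw [abs_of_pos]; exact hS1pos
        · simp only [Pi.neg_apply] at hS1
          have : h (en v s1) - h v = -S1 := by rw [hS1]; ring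
          rw [this, abs_neg, abs_of_pos hS1pos]
      rwa [habs] at this
    have hlt : (T.filter (· < S1)).card < (T.filter (· < S)).card := by
      apply Finset.card_lt_card
      rw [Finset.ssubset_iff_of_subset]
      · exact ⟨S1, by simp [hmem, hS1S], by simp⟩
      · intro x hx
        simp only [Finset.mem_filter] at hx ⊢
        exact ⟨hx.1, hx.2.trans hS1S⟩
    have hdiv : s2.length / L ≤ n / L := Nat.div_le_div_right (by omega)
    omega
  · push Not at hc
    have hle : (T.filter (· < S1)).card ≤ (T.filter (· < S)).card := by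
      apply Finset.card_le_card
      intro x hx
      simp only [Finset.mem_filter] at hx ⊢
      exact ⟨hx.1, hx.2.trans hS1S⟩
    have hdiv : s2.length / L + 1 ≤ n / L := by
      rw [← Nat.add_div_right _ hL]
      exact Nat.div_le_div_right (by omega)
    omega

lemma weak_dec (hL : 0 < L)
    (hT : ∀ v s, ch G v s → s.length < L → |h (en v s) - h v| ∈ T)
    (v : V) (s : List V) (hs : sa G v s) (hmin : ∀ x ∈ s, h v ≤ h x) :
    dec G h (T.card + s.length / L + 1) v s := by
  classical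
  by_cases hs0 : s = []
  · subst hs0; exact dec_nil _ _ _
  obtain ⟨s1, s2, rfl, h1, h2, h3⟩ := last_max h v s hs0
  have hw : wb G h v s1 := ⟨sa_append_left hs, fun x hx =>
      ⟨hmin x (List.mem_append_left _ hx), h2 x hx⟩⟩
  have hrest := strict_dec hL hT s2.length (-h) (Or.inr rfl) (en v s1) s2 rfl
    (sa_append_right hs) (h (en v s1) - h v + 1) (by
      intro x hx
      have hgx := h3 x hx
      have hvx := hmin x (List.mem_append_right _ hx)
      simp only [Pi.neg_apply]
      constructor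
      · linarith
      · linarith)
  refine dec_mono ?_ (show dec G h (_ + 1) v (s1 ++ s2) from ⟨s1, s2, rfl, Or.inl hw, hrest⟩)
  have h4 : (T.filter (· < h (en v s1) - h v + 1)).card ≤ T.card := Finset.card_filter_le _ _
  have h5 : s2.length / L ≤ (s1 ++ s2).length / L := Nat.div_le_div_right (by simp)
  omega

lemma sa_dec (hL : 0 < L)
    (hT : ∀ v s, ch G v s → s.length < L → |h (en v s) - h v| ∈ T)
    (v : V) (s : List V) (hs : sa G v s) :
    dec G h (2 * T.card + 2 + s.length / L) v s := by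
  obtain ⟨s1, s2, rfl, hmin⟩ := some_min h v s
  have hb := weak_dec hL hT (en v s1) s2 (sa_append_right hs)
    (fun x hx => hmin x (List.mem_cons_of_mem _ (List.mem_append_right _ hx)))
  have ha := weak_dec hL hT (en v s1) (rv v s1) (sa_rv _ _ (sa_append_left hs))
    (fun x hx => by
      have : x ∈ v :: s1 := mem_rv.1 (List.mem_cons_of_mem _ hx)
      apply hmin
      rcases List.mem_cons.1 this with rfl | h1
      · simp
      · exact List.mem_cons_of_mem _ (List.mem_append_left _ h1))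
  have ha' := dec_rv ha
  rw [rv_rv, en_rv, length_rv] at ha'
  refine dec_mono ?_ (dec_append ha' hb)
  have : s1.length / L + s2.length / L ≤ (s1 ++ s2).length / L := by
    rw [List.length_append]
    exact Nat.div_add_div_le_add_div
  omega

end decomposition

section counting

variable {h : V → ℝ}

lemma wb_ch {v : V} {s : List V} (hs : wb G h v s) : ch G v s := hs.1.1

lemma dec_ch {k : ℕ} {v : V} {s : List V} (hs : dec G h k v s) : ch G v s := by
  induction k generalizing v s with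
  | zero =>
    have : s = [] := hs
    subst this; trivial
  | succ k ih =>
    obtain ⟨s1, s2, rfl, h1, h2⟩ := hs
    rw [ch_append]
    refine ⟨?_, ih h2⟩
    rcases h1 with h1 | h1
    · exact h1.1.1
    · exact h1.1.1

lemma cnt_dec (hlf : ∀ v, (G.neighborSet v).Finite) (c m δ : ℝ) (hc : 0 ≤ c) (hm : 0 ≤ m)
    (hδ : 0 < δ) (hδ1 : δ < 1)
    (h1 : ∀ v l, (cnt (wb G h) v l : ℝ) ≤ c * m ^ l)
    (h2 : ∀ v l, (cnt (wb G (-h)) v l : ℝ) ≤ c * m ^ l) (k n : ℕ) (v : V) :
    (cnt (dec G h k) v n : ℝ) ≤ (2 * c / δ) ^ k * (m / (1 - δ)) ^ n := by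
  classical
  have hq : 0 ≤ m / (1 - δ) := div_nonneg hm (by linarith)
  have hp : 0 ≤ 2 * c / δ := by positivity
  induction k generalizing n v with
  | zero =>
    rcases n with _ | n
    · have : cnt (dec G h 0) v 0 ≤ 1 := by
        unfold cnt
        have hsub : {s : List V | s.length = 0 ∧ dec G h 0 v s} ⊆ {[]} := by
          rintro s ⟨hs, -⟩
          simpa using List.length_eq_zero_iff.1 hs
        simpa using Set.ncard_le_ncard hsub
      simpa using (by exact_mod_cast this : (cnt (dec G h 0) v 0 : ℝ) ≤ 1)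
    · have : cnt (dec G h 0) v (n + 1) = 0 := by
        unfold cnt
        have hsub : {s : List V | s.length = n + 1 ∧ dec G h 0 v s} = ∅ := by
          ext s
          simp only [Set.mem_ofPred_eq, Set.mem_empty_iff_false, iff_false, not_and]
          intro hs hd
          have : s = [] := hd
          subst this; simp at hs
        rw [hsub]; simp
      rw [this]
      have := pow_nonneg hq (n + 1)
      simpa using this
  | succ k ih =>
    have hsub : {s : List V | s.length = n ∧ dec G h (k + 1) v s} ⊆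
        ⋃ l ∈ Finset.range (n + 1),
          ({s : List V | ∃ s1 s2, s = s1 ++ s2 ∧ s1.length = l ∧ wb G h v s1 ∧
              s2.length = n - l ∧ dec G h k (en v s1) s2} ∪
           {s : List V | ∃ s1 s2, s = s1 ++ s2 ∧ s1.length = l ∧ wb G (-h) v s1 ∧
              s2.length = n - l ∧ dec G h k (en v s1) s2}) := by
      rintro s ⟨hn, s1, s2, rfl, hb, hd⟩
      have hn' : s1.length + s2.length = n := by simpa using hn
      simp only [Set.mem_iUnion, Finset.mem_range]
      refine ⟨s1.length, by omega, ?_⟩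
      rcases hb with hb | hb
      · exact Or.inl ⟨s1, s2, rfl, rfl, hb, by omega, hd⟩
      · exact Or.inr ⟨s1, s2, rfl, rfl, hb, by omega, hd⟩
    have hfin : (⋃ l ∈ Finset.range (n + 1),
          ({s : List V | ∃ s1 s2, s = s1 ++ s2 ∧ s1.length = l ∧ wb G h v s1 ∧
              s2.length = n - l ∧ dec G h k (en v s1) s2} ∪
           {s : List V | ∃ s1 s2, s = s1 ++ s2 ∧ s1.length = l ∧ wb G (-h) v s1 ∧
              s2.length = n - l ∧ dec G h k (en v s1) s2})).Finite := by
      refine (fin_ch hlf n v).subset ?_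
      intro s hs
      simp only [Set.mem_iUnion, Finset.mem_range] at hs
      obtain ⟨l, hl, hs⟩ := hs
      rcases hs with ⟨s1, s2, rfl, h3, h4, h5, h6⟩ | ⟨s1, s2, rfl, h3, h4, h5, h6⟩
      · refine ⟨by rw [List.length_append, h3, h5]; omega, (ch_append _ _ _).2 ⟨h4.1.1, dec_ch h6⟩⟩
      · refine ⟨by rw [List.length_append, h3, h5]; omega, (ch_append _ _ _).2 ⟨h4.1.1, dec_ch h6⟩⟩
    have hle : (cnt (dec G h (k + 1)) v n : ℝ) ≤ ∑ l ∈ Finset.range (n + 1),
        2 * ((c * m ^ l) * ((2 * c / δ) ^ k * (m / (1 - δ)) ^ (n - l))) := by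
      have e1 := Set.ncard_le_ncard hsub hfin
      have e2 := e1.trans (Finset.set_ncard_biUnion_le _ _)
      have e3 : (cnt (dec G h (k + 1)) v n : ℝ) ≤ ∑ l ∈ Finset.range (n + 1),
          ((({s : List V | ∃ s1 s2, s = s1 ++ s2 ∧ s1.length = l ∧ wb G h v s1 ∧
              s2.length = n - l ∧ dec G h k (en v s1) s2} ∪
           {s : List V | ∃ s1 s2, s = s1 ++ s2 ∧ s1.length = l ∧ wb G (-h) v s1 ∧
              s2.length = n - l ∧ dec G h k (en v s1) s2}).ncard : ℕ) : ℝ) := by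
        exact_mod_cast e2
      refine e3.trans (Finset.sum_le_sum fun l hl => ?_)
      have hb0 : 0 ≤ (2 * c / δ) ^ k * (m / (1 - δ)) ^ (n - l) := by positivity
      have f1 := ncard_split_le (wb G h) (dec G h k) v l (n - l) (c * m ^ l)
        ((2 * c / δ) ^ k * (m / (1 - δ)) ^ (n - l)) hb0
        (fin_of_imp hlf (fun _ _ => wb_ch) l v) (h1 v l) (fun x => ih (n - l) x)
      have f2 := ncard_split_le (wb G (-h)) (dec G h k) v l (n - l) (c * m ^ l)
        ((2 * c / δ) ^ k * (m / (1 - δ)) ^ (n - l)) hb0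
        (fin_of_imp hlf (fun _ _ => wb_ch) l v) (h2 v l) (fun x => ih (n - l) x)
      have f3 : (((({s : List V | ∃ s1 s2, s = s1 ++ s2 ∧ s1.length = l ∧ wb G h v s1 ∧
              s2.length = n - l ∧ dec G h k (en v s1) s2} ∪
           {s : List V | ∃ s1 s2, s = s1 ++ s2 ∧ s1.length = l ∧ wb G (-h) v s1 ∧
              s2.length = n - l ∧ dec G h k (en v s1) s2}).ncard : ℕ)) : ℝ) ≤
          ((({s : List V | ∃ s1 s2, s = s1 ++ s2 ∧ s1.length = l ∧ wb G h v s1 ∧
              s2.length = n - l ∧ dec G h k (en v s1) s2}).ncard : ℕ) : ℝ) +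
          ((({s : List V | ∃ s1 s2, s = s1 ++ s2 ∧ s1.length = l ∧ wb G (-h) v s1 ∧
              s2.length = n - l ∧ dec G h k (en v s1) s2}).ncard : ℕ) : ℝ) := by
        exact_mod_cast Set.ncard_union_le _ _
      linarith
    refine hle.trans ?_
    have hterm : ∀ l ∈ Finset.range (n + 1),
        2 * ((c * m ^ l) * ((2 * c / δ) ^ k * (m / (1 - δ)) ^ (n - l))) =
        (2 * c * ((2 * c / δ) ^ k * (m / (1 - δ)) ^ n)) * (1 - δ) ^ l := by
      intro l hl
      have hl' : l ≤ n := by simpa [Nat.lt_succ_iff] using hl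
      have h1δ : (1 - δ) ≠ 0 := by linarith
      have : (m / (1 - δ)) ^ n = (m / (1 - δ)) ^ (n - l) * (m / (1 - δ)) ^ l := by
        rw [← pow_add]; congr 1; omega
      rw [this, div_pow m _ l]
      field_simp
    rw [Finset.sum_congr rfl hterm, ← Finset.mul_sum]
    have hgeo : ∑ l ∈ Finset.range (n + 1), (1 - δ) ^ l ≤ 1 / δ := by
      have h1δ : (1 - δ) ≠ 1 := by linarith
      rw [geom_sum_eq h1δ, show (1 - δ - 1 : ℝ) = -δ by ring, div_neg, ← neg_div, neg_sub]
      apply div_le_div_of_nonneg_right _ hδ.le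
      have := pow_nonneg (show (0:ℝ) ≤ 1 - δ by linarith) (n + 1)
      linarith
    have hnn : 0 ≤ 2 * c * ((2 * c / δ) ^ k * (m / (1 - δ)) ^ n) := by positivity
    calc (2 * c * ((2 * c / δ) ^ k * (m / (1 - δ)) ^ n)) * ∑ l ∈ Finset.range (n + 1), (1 - δ) ^ l
        ≤ (2 * c * ((2 * c / δ) ^ k * (m / (1 - δ)) ^ n)) * (1 / δ) :=
          mul_le_mul_of_nonneg_left hgeo hnn
      _ = (2 * c / δ) ^ (k + 1) * (m / (1 - δ)) ^ n := by
          rw [pow_succ]; ring

/-- main bound: few weak bridges -/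
theorem sa_count (hlf : ∀ v, (G.neighborSet v).Finite) (c m δ : ℝ) (hc : 0 ≤ c) (hm : 0 ≤ m)
    (hδ : 0 < δ) (hδ1 : δ < 1)
    (h1 : ∀ v l, (cnt (wb G h) v l : ℝ) ≤ c * m ^ l)
    (h2 : ∀ v l, (cnt (wb G (-h)) v l : ℝ) ≤ c * m ^ l)
    (L : ℕ) (hL : 0 < L) (T : Finset ℝ)
    (hT : ∀ v s, ch G v s → s.length < L → |h (en v s) - h v| ∈ T) (n : ℕ) (v : V) :
    (cnt (sa G) v n : ℝ) ≤ (2 * c / δ) ^ (2 * T.card + 2 + n / L) * (m / (1 - δ)) ^ n := by
  refine le_trans ?_ (cnt_dec hlf c m δ hc hm hδ hδ1 h1 h2 (2 * T.card + 2 + n / L) n v)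
  have : cnt (sa G) v n ≤ cnt (dec G h (2 * T.card + 2 + n / L)) v n := by
    unfold cnt
    refine Set.ncard_le_ncard ?_ (fin_of_imp hlf (fun _ _ => dec_ch) n v)
    rintro s ⟨hs, hsa⟩
    refine ⟨hs, ?_⟩
    have := sa_dec hL hT v s hsa
    rwa [hs] at this
  exact_mod_cast this

end counting

end Pool.Agent.H61.SW

end S_H61_SWCore

section S_H61_SWGrowth

set_option autoImplicit false
open Filter Topology

/-! Sub- and supermultiplicativity, bounds by the connective constant. -/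

namespace Pool.Agent.H61.SW

variable {V : Type*} {G : SimpleGraph V}

lemma ch_walk (v : V) (s : List V) (h : ch G v s) :
    ∃ p : G.Walk v (en v s), p.length = s.length ∧ p.support = v :: s := by
  induction s generalizing v with
  | nil => exact ⟨SimpleGraph.Walk.nil, rfl, rfl⟩
  | cons a s ih =>
    obtain ⟨p, h1, h2⟩ := ih a h.2
    exact ⟨SimpleGraph.Walk.cons h.1 p, by simp [h1], by simp [h2]⟩

lemma walk_ch {u v : V} (p : G.Walk u v) :
    ∃ s, p.support = u :: s ∧ ch G u s ∧ en u s = v ∧ s.length = p.length := by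
  induction p with
  | nil => exact ⟨[], rfl, trivial, rfl, rfl⟩
  | @cons a b c h p ih =>
    obtain ⟨s, h1, h2, h3, h4⟩ := ih
    exact ⟨b :: s, by simp [h1], ⟨h, h2⟩, h3, by simp [h4]⟩

lemma dist_en_le (v : V) (s : List V) (h : ch G v s) : G.dist v (en v s) ≤ s.length := by
  obtain ⟨p, h1, -⟩ := ch_walk v s h
  rw [← h1]; exact SimpleGraph.dist_le p

lemma ch_take {v : V} {s : List V} (h : sa G v s) (m : ℕ) :
    sa G v (s.take m) ∧ sa G (en v (s.take m)) (s.drop m) := by
  rw [← List.take_append_drop m s] at h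
  exact ⟨sa_append_left h, sa_append_right h⟩

lemma submul (hlf : ∀ v, (G.neighborSet v).Finite) (o : V)
    (heq : ∀ v n, cnt (sa G) v n = cnt (sa G) o n) (m n : ℕ) :
    cnt (sa G) o (m + n) ≤ cnt (sa G) o m * cnt (sa G) o n := by
  have h1 := ncard_split_le (sa G) (sa G) o m n (cnt (sa G) o m) (cnt (sa G) o n)
    (Nat.cast_nonneg _) (fin_of_imp hlf (fun _ _ h => h.1) m o) le_rfl
    (fun x => by rw [heq])
  have h2 : cnt (sa G) o (m + n) ≤ Set.ncard {s : List V | ∃ s1 s2, s = s1 ++ s2 ∧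
      s1.length = m ∧ sa G o s1 ∧ s2.length = n ∧ sa G (en o s1) s2} := by
    refine Set.ncard_le_ncard ?_ ?_
    · rintro s ⟨hs, hsa⟩
      obtain ⟨h3, h4⟩ := ch_take hsa m
      refine ⟨s.take m, s.drop m, (List.take_append_drop m s).symm, ?_, h3, ?_, h4⟩
      · rw [List.length_take, hs]; omega
      · rw [List.length_drop, hs]; omega
    · refine (fin_ch hlf (m + n) o).subset ?_
      rintro s ⟨s1, s2, rfl, h3, h4, h5, h6⟩
      exact ⟨by rw [List.length_append, h3, h5], (ch_append _ _ _).2 ⟨h4.1, h6.1⟩⟩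
  have h3 : ((cnt (sa G) o (m + n) : ℕ) : ℝ) ≤ ((cnt (sa G) o m * cnt (sa G) o n : ℕ) : ℝ) := by
    push_cast
    refine le_trans ?_ h1
    exact_mod_cast h2
  exact_mod_cast h3

lemma sigma_zero (o : V) : cnt (sa G) o 0 = 1 := by
  unfold cnt
  have : {s : List V | s.length = 0 ∧ sa G o s} = {[]} := by
    ext s
    simp only [Set.mem_ofPred_eq, Set.mem_singleton_iff]
    constructor
    · rintro ⟨h, -⟩; exact List.length_eq_zero_iff.1 h
    · rintro rfl; exact ⟨rfl, sa_nil o⟩
  rw [this]; simp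

lemma sigma_pow (hlf : ∀ v, (G.neighborSet v).Finite) (o : V)
    (heq : ∀ v n, cnt (sa G) v n = cnt (sa G) o n) (n k : ℕ) :
    cnt (sa G) o (k * n) ≤ cnt (sa G) o n ^ k := by
  induction k with
  | zero => simp [sigma_zero]
  | succ k ih =>
    rw [Nat.succ_mul, pow_succ]
    exact (submul hlf o heq _ _).trans (Nat.mul_le_mul_right _ ih)

lemma tendsto_sub {a : ℕ → ℝ} {μ : ℝ} (hμ : Tendsto (fun n : ℕ => a n ^ ((1 : ℝ) / n)) atTop (𝓝 μ))
    (n : ℕ) (hn : 0 < n) :
    Tendsto (fun k : ℕ => (a (k * n) ^ ((1 : ℝ) / n * (1 / k)))) atTop (𝓝 μ) := by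
  have h1 : Tendsto (fun k : ℕ => k * n) atTop atTop :=
    tendsto_atTop_mono (fun k => Nat.le_mul_of_pos_right k hn) tendsto_id
  refine (hμ.comp h1).congr fun k => ?_
  simp only [Function.comp]
  congr 1
  push_cast
  by_cases hk : k = 0
  · subst hk; simp
  have : (k : ℝ) ≠ 0 := by exact_mod_cast hk
  have : (n : ℝ) ≠ 0 := by exact_mod_cast hn.ne'
  field_simp

/-- `μ ^ n ≤ σ_n` -/
lemma mu_pow_le (hlf : ∀ v, (G.neighborSet v).Finite) (o : V)
    (heq : ∀ v n, cnt (sa G) v n = cnt (sa G) o n) {μ : ℝ}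
    (hμ : Tendsto (fun n : ℕ => (cnt (sa G) o n : ℝ) ^ ((1 : ℝ) / n)) atTop (𝓝 μ))
    (n : ℕ) (hn : 0 < n) : μ ≤ (cnt (sa G) o n : ℝ) ^ ((1 : ℝ) / n) := by
  refine le_of_tendsto (tendsto_sub hμ n hn) ?_
  filter_upwards [eventually_gt_atTop 0] with k hk
  have h1 : (cnt (sa G) o (k * n) : ℝ) ≤ (cnt (sa G) o n : ℝ) ^ k := by
    exact_mod_cast sigma_pow hlf o heq n k
  have h2 : (0 : ℝ) ≤ (cnt (sa G) o (k * n) : ℝ) := Nat.cast_nonneg _
  have h3 : (0 : ℝ) ≤ (cnt (sa G) o n : ℝ) := Nat.cast_nonneg _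
  calc (cnt (sa G) o (k * n) : ℝ) ^ ((1 : ℝ) / n * (1 / k))
      ≤ ((cnt (sa G) o n : ℝ) ^ k) ^ ((1 : ℝ) / n * (1 / k)) :=
        Real.rpow_le_rpow h2 h1 (by positivity)
    _ = (cnt (sa G) o n : ℝ) ^ ((1 : ℝ) / n) := by
        rw [← Real.rpow_natCast, ← Real.rpow_mul h3]
        congr 1
        have : (k : ℝ) ≠ 0 := by exact_mod_cast hk.ne'
        field_simp

/-- a supermultiplicative family of self-avoiding walks -/
lemma cnt_le_mu_pow (hlf : ∀ v, (G.neighborSet v).Finite) (o : V)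
    (heq : ∀ v n, cnt (sa G) v n = cnt (sa G) o n) {μ : ℝ}
    (hμ : Tendsto (fun n : ℕ => (cnt (sa G) o n : ℝ) ^ ((1 : ℝ) / n)) atTop (𝓝 μ))
    (P : V → List V → Prop) (hP : ∀ v s, P v s → sa G v s)
    (hcat : ∀ v s t, P v s → P (en v s) t → P v (s ++ t))
    (hcl : ∀ v s, P v s → ∀ n, cnt P (en v s) n = cnt P v n)
    (v : V) (n : ℕ) : (cnt P v n : ℝ) ≤ μ ^ n := by
  have hfin : ∀ n v, {s : List V | s.length = n ∧ P v s}.Finite := fun n v =>
    fin_of_imp hlf (fun v s h => (hP v s h).1) n v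
  have hle : ∀ n, cnt P v n ≤ cnt (sa G) o n := fun n => by
    rw [← heq v n]
    exact Set.ncard_le_ncard (fun s hs => ⟨hs.1, hP _ _ hs.2⟩)
      (fin_of_imp hlf (fun _ _ h => h.1) n v)
  have hpow : ∀ n k : ℕ, 0 < k → cnt P v n ^ k ≤ cnt P v (k * n) := by
    intro n k hk
    induction k with
    | zero => omega
    | succ k ih =>
      rcases Nat.eq_zero_or_pos k with rfl | hk'
      · simp
      · rw [pow_succ, Nat.succ_mul]
        refine (Nat.mul_le_mul_right _ (ih hk')).trans ?_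
        exact cnt_mul_le P P P v (k * n) n (cnt P v n) (hfin _ _) (hfin _ _)
          (fun s hs => hcl v s hs n) (fun s t => hcat v s t)
  have hμ0 : 0 ≤ μ := ge_of_tendsto' hμ fun n => Real.rpow_nonneg (Nat.cast_nonneg _) _
  rcases Nat.eq_zero_or_pos n with rfl | hn
  · have := hle 0
    rw [sigma_zero] at this
    simpa using (by exact_mod_cast this : (cnt P v 0 : ℝ) ≤ 1)
  have key : (cnt P v n : ℝ) ^ ((1 : ℝ) / n) ≤ μ := by
    refine ge_of_tendsto (tendsto_sub hμ n hn) ?_
    filter_upwards [eventually_gt_atTop 0] with k hk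
    have h1 : ((cnt P v n : ℝ)) ^ k ≤ (cnt (sa G) o (k * n) : ℝ) := by
      exact_mod_cast (hpow n k hk).trans (hle _)
    have h3 : (0 : ℝ) ≤ (cnt P v n : ℝ) := Nat.cast_nonneg _
    calc (cnt P v n : ℝ) ^ ((1 : ℝ) / n)
        = ((cnt P v n : ℝ) ^ k) ^ ((1 : ℝ) / n * (1 / k)) := by
          rw [← Real.rpow_natCast, ← Real.rpow_mul h3]
          congr 1
          have : (k : ℝ) ≠ 0 := by exact_mod_cast hk.ne'
          field_simp
      _ ≤ (cnt (sa G) o (k * n) : ℝ) ^ ((1 : ℝ) / n * (1 / k)) :=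
          Real.rpow_le_rpow (pow_nonneg h3 k) h1 (by positivity)
  have h4 : ((cnt P v n : ℝ) ^ ((1 : ℝ) / n)) ^ n ≤ μ ^ n :=
    pow_le_pow_left₀ (Real.rpow_nonneg (Nat.cast_nonneg _) _) key n
  rw [← Real.rpow_natCast ((cnt P v n : ℝ) ^ ((1 : ℝ) / n)) n,
    ← Real.rpow_mul (Nat.cast_nonneg _)] at h4
  have : (1 : ℝ) / n * n = 1 := by
    have : (n : ℝ) ≠ 0 := by exact_mod_cast hn.ne'
    field_simp
  rwa [this, Real.rpow_one] at h4

/-! strict bridges for a transitive height function -/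

/-- strict start, weak end -/
def st (G : SimpleGraph V) (h : V → ℝ) (v : V) (s : List V) : Prop :=
  sa G v s ∧ ∀ x ∈ s, h v < h x ∧ h x ≤ h (en v s)

lemma st_cat {h : V → ℝ} (v : V) (s t : List V) (hs : st G h v s) (ht : st G h (en v s) t) :
    st G h v (s ++ t) := by
  have hve : h v ≤ h (en v s) := by
    rcases List.mem_cons.1 (en_mem_cons v s) with h1 | h1
    · rw [h1]
    · exact (hs.2 _ h1).1.le
  have hle : ∀ x ∈ v :: s, h x ≤ h (en v s) := by
    intro x hx
    rcases List.mem_cons.1 hx with rfl | hx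
    · exact hve
    · exact (hs.2 x hx).2
  refine ⟨⟨(ch_append _ _ _).2 ⟨hs.1.1, ht.1.1⟩, ?_⟩, ?_⟩
  · rw [← List.cons_append, List.nodup_append]
    refine ⟨hs.1.2, (List.nodup_cons.1 ht.1.2).2, ?_⟩
    intro a ha b hb hab
    subst hab
    exact absurd (hle a ha) (not_le.2 (ht.2 a hb).1)
  · intro x hx
    rw [en_append]
    rcases List.mem_append.1 hx with hx | hx
    · refine ⟨(hs.2 x hx).1, (hs.2 x hx).2.trans ?_⟩
      rcases List.mem_cons.1 (en_mem_cons (en v s) t) with h1 | h1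
      · rw [h1]
      · exact (ht.2 _ h1).1.le
    · exact ⟨hve.trans_lt (ht.2 x hx).1, (ht.2 x hx).2⟩

/-- a graph with a height function: nonconstant and difference invariant under a
vertex-transitive set of automorphisms -/
def HasHeight (G : SimpleGraph V) (h : V → ℝ) : Prop :=
  (∃ x y, h x ≠ h y) ∧
    ∀ u v, ∃ φ : G ≃g G, φ u = v ∧ ∀ x y, h (φ x) - h (φ y) = h x - h y

lemma HasHeight.neg {h : V → ℝ} (hh : HasHeight G h) : HasHeight G (-h) := by
  obtain ⟨⟨x, y, hxy⟩, h2⟩ := hh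
  refine ⟨⟨x, y, by simpa using hxy⟩, fun u v => ?_⟩
  obtain ⟨φ, h3, h4⟩ := h2 u v
  refine ⟨φ, h3, fun x y => ?_⟩
  simp only [Pi.neg_apply]
  linarith [h4 x y]

lemma exists_adj_lt (hc : G.Connected) {h : V → ℝ} (hh : ∃ x y, h x ≠ h y) :
    ∃ a b, G.Adj a b ∧ h a < h b := by
  by_contra hcon
  push Not at hcon
  obtain ⟨x, y, hxy⟩ := hh
  apply hxy
  have key : ∀ {x y : V} (p : G.Walk x y), h x = h y := by
    intro x y p
    induction p with
    | nil => rfl
    | cons hadj p ih => rw [← ih]; exact le_antisymm (hcon _ _ hadj.symm) (hcon _ _ hadj)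
  obtain ⟨p⟩ := hc.preconnected x y
  exact key p

lemma lower_nbr (hc : G.Connected) {h : V → ℝ} (hh : HasHeight G h) (v : V) :
    ∃ u, G.Adj u v ∧ h u < h v := by
  obtain ⟨a, b, hab, hlt⟩ := exists_adj_lt hc hh.1
  obtain ⟨φ, h1, h2⟩ := hh.2 b v
  refine ⟨φ a, ?_, ?_⟩
  · rw [← h1]; exact φ.map_adj_iff.2 hab
  · rw [← h1]; linarith [h2 a b]

lemma cnt_st_eq {h : V → ℝ} (hh : HasHeight G h) (u v : V) (n : ℕ) :
    cnt (st G h) u n = cnt (st G h) v n := by
  obtain ⟨φ, h1, h2⟩ := hh.2 v u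
  rw [← h1]
  refine cnt_map (st G h) φ v (fun s => ?_) n
  unfold st
  rw [sa_map]
  refine and_congr_right fun _ => ?_
  rw [en_map]
  simp only [List.mem_map, forall_exists_index, and_imp, forall_apply_eq_imp_iff₂]
  refine forall₂_congr fun x _ => ?_
  have e1 := h2 v x
  have e2 := h2 x (en v s)
  constructor
  · rintro ⟨h3, h4⟩; constructor <;> linarith
  · rintro ⟨h3, h4⟩; constructor <;> linarith

lemma cnt_wb_le (hlf : ∀ v, (G.neighborSet v).Finite) (hc : G.Connected) (o : V)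
    (heq : ∀ v n, cnt (sa G) v n = cnt (sa G) o n) {μ : ℝ}
    (hμ : Tendsto (fun n : ℕ => (cnt (sa G) o n : ℝ) ^ ((1 : ℝ) / n)) atTop (𝓝 μ))
    {h : V → ℝ} (hh : HasHeight G h) (v : V) (l : ℕ) :
    (cnt (wb G h) v l : ℝ) ≤ μ * μ ^ l := by
  obtain ⟨u, hadj, hlt⟩ := lower_nbr hc hh v
  have h1 : (cnt (st G h) u (l + 1) : ℝ) ≤ μ ^ (l + 1) :=
    cnt_le_mu_pow hlf o heq hμ (st G h) (fun _ _ h => h.1) st_cat
      (fun v s _ n => cnt_st_eq hh _ _ n) u (l + 1)
  rw [pow_succ'] at h1
  refine le_trans ?_ h1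
  have h2 : cnt (wb G h) v l ≤ cnt (st G h) u (l + 1) := by
    unfold cnt
    refine Set.ncard_le_ncard_of_injOn (fun s => v :: s) ?_ ?_
      (fin_of_imp hlf (fun _ _ h => h.1.1) (l + 1) u)
    · rintro s ⟨hs, hw⟩
      have hge : ∀ x ∈ v :: s, h v ≤ h x := by
        intro x hx
        rcases List.mem_cons.1 hx with rfl | hx
        · exact le_rfl
        · exact (hw.2 x hx).1
      refine ⟨by simp [hs], ⟨⟨hadj, hw.1.1⟩, ?_⟩, ?_⟩
      · rw [List.nodup_cons]
        exact ⟨fun hmem => absurd (hge u hmem) (not_le.2 hlt), hw.1.2⟩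
      · intro x hx
        refine ⟨hlt.trans_le (hge x hx), ?_⟩
        rw [en_cons]
        rcases List.mem_cons.1 hx with rfl | hx
        · exact hge _ (en_mem_cons _ s)
        · exact (hw.2 x hx).2
    · intro s _ t _ hst
      simpa using hst
  exact_mod_cast h2

end Pool.Agent.H61.SW

end S_H61_SWGrowth

section S_H61_SWLocal

set_option autoImplicit false
open Filter Topology

/-! Transfer of counts through isomorphic balls; counting by walks. -/

namespace Pool.Agent.H61.SW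

variable {V : Type*} {G : SimpleGraph V}

/-- vertices of a step list stay in the ball of radius its length -/
lemma dist_le_of_mem (v : V) (s : List V) (h : ch G v s) :
    ∀ x ∈ v :: s, ∃ t : List V, t.length ≤ s.length ∧ ch G v t ∧ en v t = x := by
  induction s generalizing v with
  | nil =>
    intro x hx
    have : x = v := by simpa using hx
    subst this
    exact ⟨[], by simp, trivial, rfl⟩
  | cons a s ih =>
    intro x hx
    rcases List.mem_cons.1 hx with rfl | hx
    · exact ⟨[], by simp, trivial, rfl⟩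
    · obtain ⟨t, h1, h2, h3⟩ := ih a h.2 x hx
      exact ⟨a :: t, by simpa using h1, ⟨h.1, h2⟩, h3⟩

lemma mem_ball (v : V) (s : List V) (h : ch G v s) (r : ℕ) (hr : s.length ≤ r) :
    ∀ x ∈ v :: s, G.dist v x ≤ r := by
  intro x hx
  obtain ⟨t, h1, h2, h3⟩ := dist_le_of_mem v s h x hx
  rw [← h3]
  exact (dist_en_le v t h2).trans (h1.trans hr)

/-- an adjacency-preserving injection on a ball maps self-avoiding walks to such -/
lemma cnt_sa_le_of_ball {W : Type*} {G' : SimpleGraph W} (o : V) (o' : W) (n : ℕ)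
    (hlf' : ∀ v, (G'.neighborSet v).Finite) (f : V → W) (ho : f o = o')
    (hadj : ∀ x y, G.dist o x ≤ n → G.dist o y ≤ n → G.Adj x y → G'.Adj (f x) (f y))
    (hinj : ∀ x y, G.dist o x ≤ n → G.dist o y ≤ n → f x = f y → x = y) :
    cnt (sa G) o n ≤ cnt (sa G') o' n := by
  unfold cnt
  refine Set.ncard_le_ncard_of_injOn (fun s => s.map f) ?_ ?_
    (fin_of_imp hlf' (fun _ _ h => h.1) n o')
  · rintro s ⟨hs, hsa⟩
    refine ⟨by simpa using hs, ?_, ?_⟩
    · have hb := mem_ball o s hsa.1 n hs.le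
      have key : ∀ (v : V) (s : List V), (∀ x ∈ v :: s, G.dist o x ≤ n) → ch G v s →
          ch G' (f v) (s.map f) := by
        intro v s
        induction s generalizing v with
        | nil => intros; trivial
        | cons a s ih =>
          intro h1 h2
          exact ⟨hadj _ _ (h1 v (by simp)) (h1 a (by simp)) h2.1,
            ih a (fun x hx => h1 x (List.mem_cons_of_mem _ hx)) h2.2⟩
      rw [← ho]
      exact key o s hb hsa.1
    · have hb := mem_ball o s hsa.1 n hs.le
      rw [← ho]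
      show (List.map f (o :: s)).Nodup
      exact List.Nodup.map_on (fun x hx y hy hxy => hinj x y (hb x hx) (hb y hy) hxy) hsa.2
  · rintro s ⟨hs, hsa⟩ t ⟨ht, hta⟩ hst
    have hbs := mem_ball o s hsa.1 n hs.le
    have hbt := mem_ball o t hta.1 n ht.le
    simp only at hst
    have key : ∀ s t : List V, (∀ x ∈ s, G.dist o x ≤ n) → (∀ x ∈ t, G.dist o x ≤ n) →
        s.map f = t.map f → s = t := by
      intro s
      induction s with
      | nil => intro t _ _ h; simpa [eq_comm] using h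
      | cons a s ih =>
        intro t h1 h2 h
        cases t with
        | nil => simp at h
        | cons b t =>
          simp only [List.map_cons, List.cons.injEq] at h
          rw [hinj a b (h1 a (by simp)) (h2 b (by simp)) h.1,
            ih t (fun x hx => h1 x (by simp [hx])) (fun x hx => h2 x (by simp [hx])) h.2]
    exact key s t (fun x hx => hbs x (List.mem_cons_of_mem _ hx))
      (fun x hx => hbt x (List.mem_cons_of_mem _ hx)) hst

/-- isomorphic rooted balls have the same number of self-avoiding walks -/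
lemma cnt_sa_le_of_iso {W : Type*} {G' : SimpleGraph W} (o : V) (o' : W) (n : ℕ)
    (hlf' : ∀ v, (G'.neighborSet v).Finite)
    (φ : G.induce {v | G.dist o v ≤ n} ≃g G'.induce {v | G'.dist o' v ≤ n})
    (hφ : ∀ x : {v | G.dist o v ≤ n}, (x : V) = o → ((φ x : {v | G'.dist o' v ≤ n}) : W) = o') :
    cnt (sa G) o n ≤ cnt (sa G') o' n := by
  classical
  let f : V → W := fun x => if h : G.dist o x ≤ n then (φ ⟨x, h⟩ : W) else o'
  have hf : ∀ x (h : G.dist o x ≤ n), f x = (φ ⟨x, h⟩ : W) := fun x h => by simp [f, h]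
  refine cnt_sa_le_of_ball o o' n hlf' f ?_ ?_ ?_
  · rw [hf o (by simp)]
    exact hφ ⟨o, by simp⟩ rfl
  · intro x y hx hy hxy
    rw [hf x hx, hf y hy]
    have : (G.induce {v | G.dist o v ≤ n}).Adj ⟨x, hx⟩ ⟨y, hy⟩ := hxy
    exact φ.map_adj_iff.2 this
  · intro x y hx hy hxy
    rw [hf x hx, hf y hy] at hxy
    have := φ.injective (Subtype.ext hxy)
    exact congrArg Subtype.val this

lemma iso_symm_root {W : Type*} {G' : SimpleGraph W} (o : V) (o' : W) (n : ℕ)
    (φ : G.induce {v | G.dist o v ≤ n} ≃g G'.induce {v | G'.dist o' v ≤ n})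
    (hφ : ∀ x : {v | G.dist o v ≤ n}, (x : V) = o → ((φ x : {v | G'.dist o' v ≤ n}) : W) = o') :
    ∀ x : {v | G'.dist o' v ≤ n}, (x : W) = o' →
      ((φ.symm x : {v | G.dist o v ≤ n}) : V) = o := by
  intro x hx
  have h1 := hφ ⟨o, by simp⟩ rfl
  have h2 : φ ⟨o, by simp⟩ = x := Subtype.ext (h1.trans hx.symm)
  rw [← h2, φ.symm_apply_apply]

lemma cnt_sa_eq_of_iso {W : Type*} {G' : SimpleGraph W} (o : V) (o' : W) (n : ℕ)
    (hlf : ∀ v, (G.neighborSet v).Finite) (hlf' : ∀ v, (G'.neighborSet v).Finite)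
    (φ : G.induce {v | G.dist o v ≤ n} ≃g G'.induce {v | G'.dist o' v ≤ n})
    (hφ : ∀ x : {v | G.dist o v ≤ n}, (x : V) = o → ((φ x : {v | G'.dist o' v ≤ n}) : W) = o') :
    cnt (sa G) o n = cnt (sa G') o' n :=
  le_antisymm (cnt_sa_le_of_iso o o' n hlf' φ hφ)
    (cnt_sa_le_of_iso o' o n hlf φ.symm (iso_symm_root o o' n φ hφ))

/-- balls are finite -/
lemma ball_finite (hlf : ∀ v, (G.neighborSet v).Finite) (hc : G.Connected) (o : V) (r : ℕ) :
    {v | G.dist o v ≤ r}.Finite := by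
  have h : {v | G.dist o v ≤ r} ⊆ ⋃ n ∈ Finset.range (r + 1),
      (fun s => en o s) '' {s : List V | s.length = n ∧ ch G o s} := by
    intro v hv
    obtain ⟨p, hp⟩ := hc.exists_walk_length_eq_dist o v
    obtain ⟨s, -, h2, h3, h4⟩ := walk_ch p
    simp only [Set.mem_iUnion, Finset.mem_range]
    refine ⟨s.length, ?_, s, ⟨rfl, h2⟩, h3⟩
    have : G.dist o v ≤ r := hv
    omega
  refine Set.Finite.subset ?_ h
  exact Set.Finite.biUnion (Finset.finite_toSet _) fun n _ => (fin_ch hlf n o).image _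

/-- the count through Mathlib walks -/
lemma ncard_walks (o : V) (n : ℕ) :
    Set.ncard {p : Σ v : V, G.Walk o v | p.2.IsPath ∧ p.2.length = n} = cnt (sa G) o n := by
  unfold cnt
  refine Set.ncard_congr (fun p _ => p.2.support.tail) ?_ ?_ ?_
  · rintro ⟨v, p⟩ ⟨h1, h2⟩
    obtain ⟨s, h3, h4, h5, h6⟩ := walk_ch p
    simp only [Set.mem_ofPred_eq] at h1 h2 ⊢
    rw [h3]
    refine ⟨by simpa using h6.trans h2, h4, ?_⟩
    have := p.isPath_def.1 h1
    rwa [h3] at this
  · rintro ⟨v, p⟩ ⟨w, q⟩ ⟨h1, h2⟩ ⟨h3, h4⟩ heq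
    obtain ⟨s, a1, a2, a3, a4⟩ := walk_ch p
    obtain ⟨t, b1, b2, b3, b4⟩ := walk_ch q
    simp only at heq
    have hs : p.support = q.support := by
      rw [a1, b1] at heq ⊢
      simpa using heq
    have hst : s = t := by rw [a1, b1] at hs; simpa using hs
    have hvw : v = w := by rw [← a3, ← b3, hst]
    subst hvw
    have : p = q := SimpleGraph.Walk.ext_support hs
    rw [this]
  · rintro s ⟨h1, h2⟩
    obtain ⟨p, h3, h4⟩ := ch_walk o s h2.1
    refine ⟨⟨en o s, p⟩, ⟨?_, h3.trans h1⟩, by simp [h4]⟩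
    rw [SimpleGraph.Walk.isPath_def, h4]
    exact h2.2

end Pool.Agent.H61.SW

end S_H61_SWLocal

section S_H98_C_Prob

set_option autoImplicit false

/-! Averages over finite types (uniform probability), as elementary as possible. -/

namespace Pool.H98.C

open Finset Classical

/-- average of `f` -/
noncomputable def Ex {Ω : Type*} [Fintype Ω] (f : Ω → ℝ) : ℝ := (∑ ω, f ω) / Fintype.card Ω

/-- probability of `p` under the uniform distribution -/
noncomputable def Pr {Ω : Type*} [Fintype Ω] (p : Ω → Prop) : ℝ := Ex fun ω => if p ω then 1 else 0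

section
variable {Ω Ω' : Type*} [Fintype Ω] [Fintype Ω']

lemma Ex_mono {f g : Ω → ℝ} (h : ∀ ω, f ω ≤ g ω) : Ex f ≤ Ex g :=
  div_le_div_of_nonneg_right (Finset.sum_le_sum fun ω _ => h ω) (Nat.cast_nonneg _)

lemma Ex_nonneg {f : Ω → ℝ} (h : ∀ ω, 0 ≤ f ω) : 0 ≤ Ex f :=
  div_nonneg (Finset.sum_nonneg fun ω _ => h ω) (Nat.cast_nonneg _)

lemma Ex_add (f g : Ω → ℝ) : Ex (fun ω => f ω + g ω) = Ex f + Ex g := by
  unfold Ex; rw [Finset.sum_add_distrib, add_div]

lemma Ex_const_mul (c : ℝ) (f : Ω → ℝ) : Ex (fun ω => c * f ω) = c * Ex f := by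
  unfold Ex; rw [← Finset.mul_sum, mul_div_assoc]

lemma Ex_const [Nonempty Ω] (c : ℝ) : Ex (fun _ : Ω => c) = c := by
  unfold Ex
  have : (Fintype.card Ω : ℝ) ≠ 0 := by exact_mod_cast Fintype.card_ne_zero
  simp [Finset.sum_const, Finset.card_univ]

lemma Ex_const_le (c : ℝ) (hc : 0 ≤ c) : Ex (fun _ : Ω => c) ≤ c := by
  rcases isEmpty_or_nonempty Ω with h | h
  · unfold Ex; simp [hc]
  · rw [Ex_const]

lemma Ex_le_of_le {f : Ω → ℝ} {c : ℝ} (hc : 0 ≤ c) (h : ∀ ω, f ω ≤ c) : Ex f ≤ c :=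
  (Ex_mono h).trans (Ex_const_le c hc)

lemma Ex_list_sum {ι : Type*} (l : List ι) (f : ι → Ω → ℝ) :
    Ex (fun ω => (l.map fun i => f i ω).sum) = (l.map fun i => Ex (f i)).sum := by
  induction l with
  | nil => simp [Ex]
  | cons a l ih =>
    simp only [List.map_cons, List.sum_cons]
    rw [Ex_add, ih]

lemma Ex_sum {ι : Type*} (s : Finset ι) (f : ι → Ω → ℝ) :
    Ex (fun ω => ∑ i ∈ s, f i ω) = ∑ i ∈ s, Ex (f i) := by
  unfold Ex
  rw [Finset.sum_comm, Finset.sum_div]

/-- Fubini -/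
lemma Ex_prod (f : Ω × Ω' → ℝ) : Ex f = Ex fun ω => Ex fun ω' => f (ω, ω') := by
  unfold Ex
  rw [Fintype.sum_prod_type, Fintype.card_prod, ← Finset.sum_div, div_div]
  push_cast
  rw [mul_comm (Fintype.card Ω : ℝ)]

lemma Ex_prod' (f : Ω × Ω' → ℝ) : Ex f = Ex fun ω' => Ex fun ω => f (ω, ω') := by
  unfold Ex
  rw [Fintype.sum_prod_type_right, Fintype.card_prod, ← Finset.sum_div, div_div]
  push_cast
  rfl

lemma Ex_comm (f : Ω → Ω' → ℝ) : Ex (fun ω => Ex fun ω' => f ω ω') =
    Ex (fun ω' => Ex fun ω => f ω ω') := by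
  rw [← Ex_prod (fun p : Ω × Ω' => f p.1 p.2), Ex_prod']

lemma Ex_bij {σ : Ω → Ω} (hσ : Function.Bijective σ) (f : Ω → ℝ) :
    Ex (fun ω => f (σ ω)) = Ex f := by
  unfold Ex
  rw [hσ.sum_comp f]

lemma Ex_bij' {σ : Ω → Ω'} (hσ : Function.Bijective σ) (f : Ω' → ℝ) :
    Ex (fun ω => f (σ ω)) = Ex f := by
  unfold Ex
  rw [hσ.sum_comp f, Fintype.card_of_bijective hσ]

lemma Pr_nonneg (p : Ω → Prop) : 0 ≤ Pr p := Ex_nonneg fun ω => by positivity

lemma Pr_mono {p q : Ω → Prop} (h : ∀ ω, p ω → q ω) : Pr p ≤ Pr q := by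
  refine Ex_mono fun ω => ?_
  by_cases hp : p ω
  · simp [hp, h ω hp]
  · simp only [hp, if_false]; positivity

lemma Pr_le_one (p : Ω → Prop) : Pr p ≤ 1 :=
  Ex_le_of_le zero_le_one fun ω => by split <;> norm_num

lemma Pr_or (p q : Ω → Prop) : Pr (fun ω => p ω ∨ q ω) ≤ Pr p + Pr q := by
  rw [Pr, Pr, Pr, ← Ex_add]
  refine Ex_mono fun ω => ?_
  by_cases hp : p ω <;> by_cases hq : q ω <;> simp [hp, hq]

lemma Pr_exists_list {ι : Type*} (l : List ι) (p : ι → Ω → Prop) :
    Pr (fun ω => ∃ i ∈ l, p i ω) ≤ (l.map fun i => Pr (p i)).sum := by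
  induction l with
  | nil => simp [Pr, Ex]
  | cons a l ih =>
    simp only [List.map_cons, List.sum_cons]
    refine le_trans ?_ ((Pr_or (p a) fun ω => ∃ i ∈ l, p i ω).trans (by linarith))
    refine Pr_mono fun ω => ?_
    rintro ⟨i, hi, h⟩
    rcases List.mem_cons.1 hi with rfl | hi
    · exact Or.inl h
    · exact Or.inr ⟨i, hi, h⟩

lemma Pr_exists_list_le {ι : Type*} (l : List ι) (p : ι → Ω → Prop) (β : ℝ)
    (h : ∀ i ∈ l, Pr (p i) ≤ β) : Pr (fun ω => ∃ i ∈ l, p i ω) ≤ l.length * β := by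
  refine (Pr_exists_list l p).trans ?_
  have := List.sum_le_card_nsmul (l.map fun i => Pr (p i)) β (by
    intro x hx
    obtain ⟨i, hi, rfl⟩ := List.mem_map.1 hx
    exact h i hi)
  simpa [nsmul_eq_mul] using this

/-- Markov -/
lemma Pr_gt_le {f : Ω → ℝ} (hf : ∀ ω, 0 ≤ f ω) {a : ℝ} (ha : 0 < a) :
    Pr (fun ω => a < f ω) ≤ Ex f / a := by
  rw [le_div_iff₀ ha, Pr, mul_comm, ← Ex_const_mul]
  refine Ex_mono fun ω => ?_
  by_cases h : a < f ω
  · simp [h, h.le]
  · simp [h, hf ω]

lemma Pr_not [Nonempty Ω] (p : Ω → Prop) : Pr (fun ω => ¬ p ω) = 1 - Pr p := by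
  have : Pr (fun ω => ¬ p ω) + Pr p = 1 := by
    rw [Pr, Pr, ← Ex_add]
    refine (congrArg Ex (funext fun ω => ?_)).trans (Ex_const (1 : ℝ))
    by_cases h : p ω <;> simp [h]
  linarith

lemma exists_of_Pr_lt_one [Nonempty Ω] {p : Ω → Prop} (h : Pr p < 1) : ∃ ω, ¬ p ω := by
  by_contra hcon
  push Not at hcon
  have : Pr p = 1 := by
    rw [Pr]
    have h1 : (fun ω => (if p ω then (1 : ℝ) else 0)) = fun _ => (1 : ℝ) := by
      ext ω
      simp [hcon ω]
    rw [h1, Ex_const]
  linarith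

lemma exists_le_Ex [Nonempty Ω] (f : Ω → ℝ) : ∃ ω, f ω ≤ Ex f := by
  by_contra hcon
  push Not at hcon
  have h1 : (∑ _ω : Ω, Ex f) < ∑ ω, f ω := Finset.sum_lt_sum_of_nonempty Finset.univ_nonempty fun ω _ => hcon ω
  have : (0 : ℝ) < Fintype.card Ω := by exact_mod_cast Fintype.card_pos
  rw [Finset.sum_const, Finset.card_univ, nsmul_eq_mul] at h1
  have h2 : (Fintype.card Ω : ℝ) * Ex f = ∑ ω, f ω := by
    unfold Ex; field_simp
  linarith

lemma exists_ge_Ex [Nonempty Ω] (f : Ω → ℝ) : ∃ ω, Ex f ≤ f ω := by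
  obtain ⟨ω, h⟩ := exists_le_Ex (fun ω => - f ω)
  refine ⟨ω, ?_⟩
  have : Ex (fun ω => - f ω) = - Ex f := by unfold Ex; rw [Finset.sum_neg_distrib, neg_div]
  linarith

lemma Pr_prod (p : Ω × Ω' → Prop) : Pr p = Ex fun ω => Pr fun ω' => p (ω, ω') := by
  rw [Pr, Ex_prod]; rfl

lemma Pr_prod' (p : Ω × Ω' → Prop) : Pr p = Ex fun ω' => Pr fun ω => p (ω, ω') := by
  rw [Pr, Ex_prod']; rfl

lemma Pr_bij {σ : Ω → Ω} (hσ : Function.Bijective σ) (p : Ω → Prop) :
    Pr (fun ω => p (σ ω)) = Pr p := Ex_bij hσ fun ω => if p ω then (1 : ℝ) else 0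

lemma Pr_bij' {σ : Ω → Ω'} (hσ : Function.Bijective σ) (p : Ω' → Prop) :
    Pr (fun ω => p (σ ω)) = Pr p := Ex_bij' hσ fun ω => if p ω then (1 : ℝ) else 0

lemma Pr_congr {p q : Ω → Prop} (h : ∀ ω, p ω ↔ q ω) : Pr p = Pr q := by
  have : p = q := funext fun ω => propext (h ω)
  rw [this]

lemma Pr_eq_card (p : Ω → Prop) :
    Pr p = ((Finset.univ.filter p).card : ℝ) / Fintype.card Ω := by
  unfold Pr Ex
  rw [Finset.sum_boole]

end

end Pool.H98.C

end S_H98_C_Prob

section S_H98_C_Basic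

set_option autoImplicit false

/-! Transitive graphs: balls, geodesics, distances under automorphisms. -/

namespace Pool.H98.C

open Finset Pool.Agent.H61.SW

variable {V : Type*} {G : SimpleGraph V}

/-- connected, locally finite, vertex transitive -/
structure TG (G : SimpleGraph V) : Prop where
  conn : G.Connected
  lf : ∀ v, (G.neighborSet v).Finite
  tr : ∀ u v, ∃ φ : G ≃g G, φ u = v

lemma TG.tri (hG : TG G) (x y z : V) : G.dist x z ≤ G.dist x y + G.dist y z :=
  hG.conn.dist_triangle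

lemma dist_iso_le {W : Type*} {G' : SimpleGraph W} (hG : G.Connected) (g : G ≃g G') (x y : V) :
    G'.dist (g x) (g y) ≤ G.dist x y := by
  obtain ⟨p, hp⟩ := hG.exists_walk_length_eq_dist x y
  have := SimpleGraph.dist_le (p.map g.toHom)
  rw [SimpleGraph.Walk.length_map, hp] at this
  exact this

/-- distances are preserved by isomorphisms -/
lemma dist_iso {W : Type*} {G' : SimpleGraph W} (hG : G.Connected) (g : G ≃g G') (x y : V) :
    G'.dist (g x) (g y) = G.dist x y := by
  refine le_antisymm (dist_iso_le hG g x y) ?_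
  have hG' : G'.Connected := g.connected_iff.1 hG
  have := dist_iso_le hG' g.symm (g x) (g y)
  simpa using this

/-- ball as a finset -/
noncomputable def bl (hG : TG G) (x : V) (r : ℕ) : Finset V :=
  (ball_finite hG.lf hG.conn x r).toFinset

@[simp] lemma mem_bl (hG : TG G) (x y : V) (r : ℕ) : y ∈ bl hG x r ↔ G.dist x y ≤ r := by
  simp [bl]

lemma self_mem_bl (hG : TG G) (x : V) (r : ℕ) : x ∈ bl hG x r := by simp

lemma bl_nonempty (hG : TG G) (x : V) (r : ℕ) : (bl hG x r).Nonempty := ⟨x, self_mem_bl hG x r⟩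

lemma bl_iso (hG : TG G) (g : G ≃g G) (x : V) (r : ℕ) :
    (bl hG x r).map g.toEquiv.toEmbedding = bl hG (g x) r := by
  ext y
  simp only [Finset.mem_map, mem_bl]
  constructor
  · rintro ⟨z, hz, rfl⟩
    show G.dist (g x) (g z) ≤ r
    rw [dist_iso hG.conn]; exact hz
  · intro hy
    refine ⟨g.symm y, ?_, g.apply_symm_apply y⟩
    rw [← dist_iso hG.conn g, g.apply_symm_apply]; exact hy

lemma card_bl (hG : TG G) (x y : V) (r : ℕ) : (bl hG x r).card = (bl hG y r).card := by
  obtain ⟨g, rfl⟩ := hG.tr x y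
  rw [← bl_iso hG g x r, Finset.card_map]

lemma card_bl_pos (hG : TG G) (x : V) (r : ℕ) : 0 < (bl hG x r).card :=
  Finset.card_pos.2 (bl_nonempty hG x r)

lemma card_bl_ncard (hG : TG G) (x : V) (r : ℕ) :
    (bl hG x r).card = Set.ncard {v | G.dist x v ≤ r} := by
  rw [Set.ncard_eq_toFinset_card _ (ball_finite hG.lf hG.conn x r)]; rfl

/-- a chosen geodesic (list of later vertices) -/
lemma exists_geo (hG : TG G) (x y : V) :
    ∃ s : List V, ch G x s ∧ en x s = y ∧ s.length = G.dist x y ∧ (x :: s).Nodup := by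
  obtain ⟨p, hp, hl⟩ := hG.conn.exists_path_of_dist x y
  obtain ⟨s, h1, h2, h3, h4⟩ := walk_ch p
  refine ⟨s, h2, h3, by omega, ?_⟩
  rw [← h1]
  exact (SimpleGraph.Walk.isPath_def p).1 hp

noncomputable def geo (hG : TG G) (x y : V) : List V := (exists_geo hG x y).choose

lemma ch_geo (hG : TG G) (x y : V) : ch G x (geo hG x y) := (exists_geo hG x y).choose_spec.1

lemma en_geo (hG : TG G) (x y : V) : en x (geo hG x y) = y := (exists_geo hG x y).choose_spec.2.1

lemma length_geo (hG : TG G) (x y : V) : (geo hG x y).length = G.dist x y :=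
  (exists_geo hG x y).choose_spec.2.2.1

lemma nodup_geo (hG : TG G) (x y : V) : (x :: geo hG x y).Nodup :=
  (exists_geo hG x y).choose_spec.2.2.2

lemma mem_geo_dist (hG : TG G) {x y v : V} (h : v ∈ geo hG x y) : G.dist x v ≤ G.dist x y := by
  rw [← length_geo hG x y]
  exact mem_ball x _ (ch_geo hG x y) _ le_rfl v (List.mem_cons_of_mem _ h)

/-- a chosen automorphism taking `x` to `y` -/
noncomputable def tau (hG : TG G) (x y : V) : G ≃g G := (hG.tr x y).choose

@[simp] lemma tau_apply (hG : TG G) (x y : V) : tau hG x y x = y := (hG.tr x y).choose_spec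

/-- vertices of walks are near the start -/
lemma dist_mem_ch {x v : V} {s : List V} (h : ch G x s) (hv : v ∈ x :: s) :
    G.dist x v ≤ s.length := mem_ball x s h _ le_rfl v hv

/-- loop erasure -/
lemma loop_erase (x : V) (s : List V) (h : ch G x s) :
    ∃ s' : List V, sa G x s' ∧ en x s' = en x s ∧ s'.length ≤ s.length ∧ ∀ v ∈ s', v ∈ s := by
  classical
  induction hn : s.length using Nat.strong_induction_on generalizing x s with
  | _ n ih =>
  subst hn
  by_cases hx : x ∈ s
  · obtain ⟨s1, s2, rfl⟩ := List.append_of_mem hx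
    have h1 : ch G x s2 := by
      have := ((ch_append x s1 (x :: s2)).1 h).2
      exact this.2
    obtain ⟨s', a1, a2, a3, a4⟩ := ih s2.length (by simp; omega) x s2 h1 rfl
    refine ⟨s', a1, ?_, by simp; omega, fun v hv => by simp [a4 v hv]⟩
    rw [a2, en_append]; rfl
  · cases s with
    | nil => exact ⟨[], sa_nil x, rfl, le_rfl, by simp⟩
    | cons a s =>
      obtain ⟨s', a1, a2, a3, a4⟩ := ih s.length (by simp) a s h.2 rfl
      refine ⟨a :: s', ⟨⟨h.1, a1.1⟩, ?_⟩, a2, by simpa using a3, ?_⟩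
      · rw [List.nodup_cons]
        refine ⟨fun hx' => hx ?_, a1.2⟩
        rcases List.mem_cons.1 hx' with rfl | hx'
        · simp
        · exact List.mem_cons_of_mem _ (a4 x hx')
      · intro v hv
        rcases List.mem_cons.1 hv with rfl | hv
        · simp
        · exact List.mem_cons_of_mem _ (a4 v hv)

end Pool.H98.C

end S_H98_C_Basic

section S_H98_C_Defs

set_option autoImplicit false

/-! Random transplants, portions (random geodesics), hitting probabilities, blocks, families. -/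

namespace Pool.H98.C

open Finset Pool.Agent.H61.SW

/-- A finite family of automorphisms `T x θ` with `T x θ o = x`; for uniform `θ` it behaves, on the
ball of radius `R`, like a uniformly random automorphism taking `o` to `x`. -/
structure Homog {V : Type} (G : SimpleGraph V) (o : V) (R : ℕ) where
  Θ : Type
  fin : Fintype Θ
  ne : Nonempty Θ
  T : V → Θ → (G ≃g G)
  T_o : ∀ x θ, T x θ o = x
  sp : ∀ c y : V, G.dist o c ≤ R → ∀ X : Finset V, ∑ x ∈ X, Pr (fun θ => T x θ c = y) ≤ 1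
  eq : ∀ (g : G ≃g G) (x : V), ∃ σ : Θ → Θ, Function.Bijective σ ∧
    ∀ θ c, G.dist o c ≤ R → g (T x θ c) = T (g x) (σ θ) c

attribute [instance] Homog.fin Homog.ne

variable {V : Type} {G : SimpleGraph V} {o : V} {R : ℕ} (hG : TG G) (H : Homog G o R)

/-- outcomes of a portion of radius `S` -/
abbrev PO (S : ℕ) : Type := H.Θ × ↥(bl hG o S)

instance (S : ℕ) : Nonempty ↥(bl hG o S) := ⟨⟨o, self_mem_bl hG o S⟩⟩

/-- portion from `x`: transplanted geodesic -/
noncomputable def por {S : ℕ} (x : V) (ω : PO hG H S) : List V :=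
  (geo hG o ω.2).map (H.T x ω.1)

/-- size of balls -/
noncomputable def bb (o : V) (S : ℕ) : ℝ := (bl hG o S).card

/-- probability that the portion of radius `S` from `x` (without `x`) meets `K` -/
noncomputable def hit (S : ℕ) (x : V) (K : List V) : ℝ :=
  Pr fun ω : PO hG H S => ∃ v ∈ por hG H x ω, v ∈ K

/-- probability that independent portions from `x` and `y` meet -/
noncomputable def QQ (S : ℕ) (x y : V) : ℝ :=
  Pr fun ω : PO hG H S × PO hG H S => ∃ v ∈ por hG H x ω.1, v ∈ por hG H y ω.2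

/-- a block: self-avoiding walk from `z` with start arm `a`, core `c`, end arm `b`; both ends are
exposed at scale `S` -/
structure Blk (S : ℕ) (δ : ℝ) (A L : ℕ) (z : V) (a c b : List V) : Prop where
  sa : sa G z (a ++ (c ++ b))
  hs : hit hG H S z (en z a :: (c ++ b)) ≤ δ
  he : hit hG H S (en z (a ++ (c ++ b))) (z :: (a ++ c)) ≤ δ
  qq : QQ hG H S z (en z (a ++ (c ++ b))) ≤ δ
  la : a.length ≤ A
  lb : b.length ≤ A
  ll : (a ++ (c ++ b)).length ≤ L

/-- family of cores `(y, c)` of blocks with root `z` whose full lists satisfy `P` -/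
def Fam (S : ℕ) (δ : ℝ) (A L : ℕ) (z : V) (P : List V → Prop) (F : Finset (V × List V)) : Prop :=
  ∀ p ∈ F, ∃ a b, en z a = p.1 ∧ Blk hG H S δ A L z a p.2 b ∧ P (a ++ (p.2 ++ b))

/-- weight of a family -/
noncomputable def wt (t : ℝ) (F : Finset (V × List V)) : ℝ := ∑ p ∈ F, t ^ p.2.length

/-- outcomes for one side of a connection -/
abbrev OO (S : ℕ) : Type := PO hG H S × H.Θ

/-- the automorphism attached to the end of the portion from `u` -/
noncomputable def XX {S : ℕ} (u : V) (ω : OO hG H S) : G ≃g G :=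
  H.T (en u (por hG H u ω.1)) ω.2

/-- placement `g = X τ Y⁻¹` of the second piece (attached at `w`) behind the first (exit at `u`) -/
noncomputable def gg {S : ℕ} (τ : G ≃g G) (u w : V) (ω : OO hG H S × OO hG H S) : G ≃g G :=
  (XX hG H w ω.2).symm.trans (τ.trans (XX hG H u ω.1))

end Pool.H98.C

end S_H98_C_Defs

section S_H98_C_ExpoDefs

set_option autoImplicit false

/-! Exposed arms, good cores. -/

namespace Pool.H98.C

open Finset Pool.Agent.H61.SW

variable {V : Type} {G : SimpleGraph V} {o : V} {R : ℕ} (hG : TG G) (H : Homog G o R)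

/-- `α` is an exposed arm at `y ∈ M`: a geodesic-like path from `y` avoiding `M`, whose end is
exposed at scale `S` -/
structure Expd (S r : ℕ) (δ : ℝ) (M : Finset V) (y : V) (α : List V) : Prop where
  ch : ch G y α
  nd : (y :: α).Nodup
  len : α.length ≤ r
  av : ∀ v ∈ α, v ∉ M
  hit : hit hG H S (en y α) M.toList ≤ δ

/-- compatible arms -/
structure Cpt (S : ℕ) (δ : ℝ) (y1 : V) (α1 : List V) (y2 : V) (α2 : List V) : Prop where
  dj : ∀ v ∈ α2, v ∉ α1
  h1 : hit hG H S (en y2 α2) α1 ≤ δ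
  h2 : hit hG H S (en y1 α1) α2 ≤ δ
  qq : QQ hG H S (en y1 α1) (en y2 α2) ≤ δ

/-- good core `c` starting at `y` -/
def GC (S : ℕ) (δ : ℝ) (A L : ℕ) (y : V) (c : List V) : Prop :=
  ∃ z a b, en z a = y ∧ Blk hG H S δ A L z a c b

/-- concatenation of `n` cores with property `P` -/
def CP (P : V → List V → Prop) : ℕ → V → List V → Prop
  | 0, _, s => s = []
  | n + 1, v, s => ∃ c t, s = c ++ t ∧ P v c ∧ CP P n (en v c) t

end Pool.H98.C

end S_H98_C_ExpoDefs

section S_H61_SWModular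

set_option autoImplicit false

/-! A vertex-transitive graph which is not unimodular has a height function: the logarithm of the
modular function. -/

namespace Pool.Agent.H61.SW

variable {V : Type*} {G : SimpleGraph V}

/-- the orbit of `v` under the automorphisms fixing `u` -/
def orb (G : SimpleGraph V) (u v : V) : Set V := {w | ∃ φ : G ≃g G, φ u = u ∧ φ v = w}

/-- unimodularity in terms of orbit sizes -/
def Unimod (G : SimpleGraph V) : Prop := ∀ u v, (orb G u v).ncard = (orb G v u).ncard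

/-- the automorphisms fixing `u` -/
def stb (G : SimpleGraph V) (u : V) : Subgroup (G ≃g G) where
  carrier := {φ | φ u = u}
  mul_mem' := by
    intro a b ha hb
    simp only [Set.mem_ofPred_eq] at *
    rw [RelIso.mul_apply, hb, ha]
  one_mem' := by simp
  inv_mem' := by
    intro a ha
    simp only [Set.mem_ofPred_eq] at *
    nth_rewrite 1 [← ha]
    exact RelIso.inv_apply_self a u

lemma mem_stb {u : V} {φ : G ≃g G} : φ ∈ stb G u ↔ φ u = u := Iff.rfl

lemma relIndex_stb (u v : V) : (stb G v).relIndex (stb G u) = (orb G u v).ncard := by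
  have h1 : (stb G v).subgroupOf (stb G u) = MulAction.stabilizer (stb G u) v := by
    ext ⟨φ, hφ⟩
    rw [Subgroup.mem_subgroupOf, MulAction.mem_stabilizer_iff]
    exact Iff.rfl
  have h2 : MulAction.orbit (stb G u) v = orb G u v := by
    ext w
    constructor
    · rintro ⟨⟨φ, hφ⟩, h⟩
      exact ⟨φ, hφ, h⟩
    · rintro ⟨φ, hφ, h⟩
      exact ⟨⟨φ, hφ⟩, h⟩
  rw [Subgroup.relIndex, h1, MulAction.index_stabilizer, h2]

lemma dist_le_map (φ : G ≃g G) (hc : G.Connected) (a b : V) :
    G.dist (φ a) (φ b) ≤ G.dist a b := by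
  obtain ⟨p, hp⟩ := hc.exists_walk_length_eq_dist a b
  rw [← hp]
  have := SimpleGraph.dist_le (p.map φ.toHom)
  simpa using this

lemma orb_finite (hlf : ∀ v, (G.neighborSet v).Finite) (hc : G.Connected) (u v : V) :
    (orb G u v).Finite := by
  have hfin : {w | G.dist u w ≤ G.dist u v}.Finite := by
    have h : {w | G.dist u w ≤ G.dist u v} ⊆ ⋃ n ∈ Finset.range (G.dist u v + 1),
        (fun s => en u s) '' {s : List V | s.length = n ∧ ch G u s} := by
      intro w hw
      obtain ⟨p, hp⟩ := hc.exists_walk_length_eq_dist u w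
      obtain ⟨s, -, h2, h3, h4⟩ := walk_ch p
      simp only [Set.mem_iUnion, Finset.mem_range]
      refine ⟨s.length, ?_, s, ⟨rfl, h2⟩, h3⟩
      have : G.dist u w ≤ G.dist u v := hw
      omega
    refine Set.Finite.subset ?_ h
    exact Set.Finite.biUnion (Finset.finite_toSet _) fun n _ => (fin_ch hlf n u).image _
  refine hfin.subset ?_
  rintro w ⟨φ, h1, rfl⟩
  show G.dist u (φ v) ≤ G.dist u v
  nth_rewrite 1 [← h1]
  exact dist_le_map φ hc u v

lemma orb_pos (hlf : ∀ v, (G.neighborSet v).Finite) (hc : G.Connected) (u v : V) :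
    0 < (orb G u v).ncard := by
  rw [Set.ncard_pos (orb_finite hlf hc u v)]
  exact ⟨v, 1, rfl, rfl⟩

lemma orb_map (φ : G ≃g G) (u v : V) : orb G (φ u) (φ v) = φ '' orb G u v := by
  ext w
  constructor
  · rintro ⟨ψ, h1, h2⟩
    refine ⟨φ⁻¹ (ψ (φ v)), ⟨φ⁻¹ * ψ * φ, ?_, ?_⟩, ?_⟩
    · rw [RelIso.mul_apply, RelIso.mul_apply, h1, RelIso.inv_apply_self]
    · rw [RelIso.mul_apply, RelIso.mul_apply]
    · rw [RelIso.apply_inv_self, h2]
  · rintro ⟨x, ⟨ψ, h1, h2⟩, rfl⟩
    refine ⟨φ * ψ * φ⁻¹, ?_, ?_⟩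
    · rw [RelIso.mul_apply, RelIso.mul_apply, RelIso.inv_apply_self, h1]
    · rw [RelIso.mul_apply, RelIso.mul_apply, RelIso.inv_apply_self, h2]

lemma ncard_orb_map (φ : G ≃g G) (u v : V) :
    (orb G (φ u) (φ v)).ncard = (orb G u v).ncard := by
  rw [orb_map, Set.ncard_image_of_injective _ φ.injective]

/-- the modular ratio -/
noncomputable def mrat (G : SimpleGraph V) (u v : V) : ℝ :=
  ((orb G u v).ncard : ℝ) / (orb G v u).ncard

lemma mrat_map (φ : G ≃g G) (u v : V) : mrat G (φ u) (φ v) = mrat G u v := by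
  unfold mrat; rw [ncard_orb_map, ncard_orb_map]

lemma mrat_pos (hlf : ∀ v, (G.neighborSet v).Finite) (hc : G.Connected) (u v : V) :
    0 < mrat G u v := by
  have h1 := orb_pos hlf hc u v
  have h2 := orb_pos hlf hc v u
  unfold mrat; positivity

lemma group_ratio {Γ : Type*} [Group Γ] (A B J : Subgroup Γ) (hJA : J ≤ A) (hJB : J ≤ B) :
    ((B.relIndex A : ℝ)) * (J.relIndex B) = (A.relIndex B) * (J.relIndex A) := by
  have hJ : J ≤ A ⊓ B := le_inf hJA hJB
  have h1 := Subgroup.relIndex_mul_relIndex J (A ⊓ B) A hJ inf_le_left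
  have h2 := Subgroup.relIndex_mul_relIndex J (A ⊓ B) B hJ inf_le_right
  rw [Subgroup.inf_relIndex_left] at h1
  rw [Subgroup.inf_relIndex_right] at h2
  rw [← h1, ← h2]
  push_cast
  ring

lemma mrat_mul (hlf : ∀ v, (G.neighborSet v).Finite) (hc : G.Connected) (u v w : V) :
    mrat G u v * mrat G v w = mrat G u w := by
  set A := stb G u
  set B := stb G v
  set C := stb G w
  have hpos : ∀ x y, (stb G x).relIndex (stb G y) ≠ 0 := by
    intro x y
    rw [relIndex_stb]
    exact (orb_pos hlf hc y x).ne'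
  set J := A ⊓ B ⊓ C with hJ
  have hJA : J ≤ A := inf_le_left.trans inf_le_left
  have hJB : J ≤ B := inf_le_left.trans inf_le_right
  have hJC : J ≤ C := inf_le_right
  have hJrA : J.relIndex A ≠ 0 :=
    Subgroup.relIndex_inf_ne_zero (Subgroup.relIndex_inf_ne_zero
      (by rw [Subgroup.relIndex_self]; exact one_ne_zero) (hpos v u)) (hpos w u)
  have hJrB : J.relIndex B ≠ 0 :=
    Subgroup.relIndex_inf_ne_zero (Subgroup.relIndex_inf_ne_zero (hpos u v)
      (by rw [Subgroup.relIndex_self]; exact one_ne_zero)) (hpos w v)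
  have hJrC : J.relIndex C ≠ 0 :=
    Subgroup.relIndex_inf_ne_zero (Subgroup.relIndex_inf_ne_zero (hpos u w) (hpos v w))
      (by rw [Subgroup.relIndex_self]; exact one_ne_zero)
  have e1 := group_ratio A B J hJA hJB
  have e2 := group_ratio B C J hJB hJC
  have e3 := group_ratio A C J hJA hJC
  unfold mrat
  rw [← relIndex_stb u v, ← relIndex_stb v u, ← relIndex_stb v w, ← relIndex_stb w v,
    ← relIndex_stb u w, ← relIndex_stb w u]
  have f1 : (A.relIndex B : ℝ) ≠ 0 := by exact_mod_cast hpos u v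
  have f2 : (B.relIndex C : ℝ) ≠ 0 := by exact_mod_cast hpos v w
  have f3 : (A.relIndex C : ℝ) ≠ 0 := by exact_mod_cast hpos u w
  have g1 : (J.relIndex A : ℝ) ≠ 0 := by exact_mod_cast hJrA
  have g2 : (J.relIndex B : ℝ) ≠ 0 := by exact_mod_cast hJrB
  have g3 : (J.relIndex C : ℝ) ≠ 0 := by exact_mod_cast hJrC
  have k1 : (B.relIndex A : ℝ) / A.relIndex B = J.relIndex A / J.relIndex B := by
    rw [div_eq_div_iff f1 g2, e1]; ring
  have k2 : (C.relIndex B : ℝ) / B.relIndex C = J.relIndex B / J.relIndex C := by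
    rw [div_eq_div_iff f2 g3, e2]; ring
  have k3 : (C.relIndex A : ℝ) / A.relIndex C = J.relIndex A / J.relIndex C := by
    rw [div_eq_div_iff f3 g3, e3]; ring
  rw [show ((stb G v).relIndex (stb G u) : ℝ) / (stb G u).relIndex (stb G v) =
      (B.relIndex A : ℝ) / A.relIndex B from rfl,
    show ((stb G w).relIndex (stb G v) : ℝ) / (stb G v).relIndex (stb G w) =
      (C.relIndex B : ℝ) / B.relIndex C from rfl,
    show ((stb G w).relIndex (stb G u) : ℝ) / (stb G u).relIndex (stb G w) =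
      (C.relIndex A : ℝ) / A.relIndex C from rfl, k1, k2, k3]
  field_simp

lemma mrat_symm (u v : V) : mrat G v u = (mrat G u v)⁻¹ := by
  unfold mrat; rw [inv_div]

/-- a transitive graph which is not unimodular has a height function -/
theorem hasHeight_of_not_unimod (hlf : ∀ v, (G.neighborSet v).Finite) (hc : G.Connected)
    (htr : ∀ u v, ∃ φ : G ≃g G, φ u = v) (hnu : ¬ Unimod G) :
    ∃ h : V → ℝ, HasHeight G h := by
  unfold Unimod at hnu
  push Not at hnu
  obtain ⟨o, y, hoy⟩ := hnu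
  refine ⟨fun x => Real.log (mrat G o x), ⟨o, y, ?_⟩, fun u v => ?_⟩
  · have h1 : mrat G o o = 1 := by
      unfold mrat
      have := orb_pos hlf hc o o
      rw [div_self]
      exact_mod_cast this.ne'
    show Real.log (mrat G o o) ≠ Real.log (mrat G o y)
    rw [h1, Real.log_one]
    intro h2
    have h3 := Real.eq_one_of_pos_of_log_eq_zero (mrat_pos hlf hc o y) h2.symm
    unfold mrat at h3
    have h4 := orb_pos hlf hc y o
    rw [div_eq_one_iff_eq (by exact_mod_cast h4.ne')] at h3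
    exact hoy (by exact_mod_cast h3)
  · obtain ⟨φ, hφ⟩ := htr u v
    refine ⟨φ, hφ, fun x z => ?_⟩
    have key : ∀ a b, Real.log (mrat G o a) - Real.log (mrat G o b) =
        Real.log (mrat G b a) := by
      intro a b
      rw [← mrat_mul hlf hc o b a, Real.log_mul (mrat_pos hlf hc o b).ne'
        (mrat_pos hlf hc b a).ne']
      ring
    simp only
    rw [key, key, mrat_map]

end Pool.Agent.H61.SW

end S_H61_SWModular

section S_H61_SWMass

set_option autoImplicit false

/-! Mass transport for unimodular transitive graphs, in the form: an invariant relation has equal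
out- and in-degrees. -/

namespace Pool.Agent.H61.SW

variable {V : Type*} {G : SimpleGraph V}

lemma orb_self_mem (u v : V) : v ∈ orb G u v := ⟨1, rfl, rfl⟩

lemma orb_eq {u v w : V} (h : w ∈ orb G u v) : orb G u w = orb G u v := by
  obtain ⟨φ, h1, rfl⟩ := h
  have := orb_map φ u v
  rw [h1] at this
  rw [this]
  ext w
  constructor
  · rintro ⟨x, ⟨ψ, h2, h3⟩, rfl⟩
    exact ⟨φ * ψ, by rw [RelIso.mul_apply, h2, h1], by rw [RelIso.mul_apply, h3]⟩
  · rintro ⟨ψ, h2, rfl⟩
    refine ⟨φ⁻¹ (ψ v), ⟨φ⁻¹ * ψ, ?_, ?_⟩, ?_⟩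
    · rw [RelIso.mul_apply, h2]
      nth_rewrite 1 [← h1]
      exact RelIso.inv_apply_self φ u
    · rw [RelIso.mul_apply]
    · exact RelIso.apply_inv_self φ _

/-- `(y, o)` and `(o, x)` are in the same orbit of pairs -/
def swp (G : SimpleGraph V) (o x y : V) : Prop := ∃ φ : G ≃g G, φ y = o ∧ φ o = x

lemma swp_left (o y x₀ : V) (h0 : swp G o x₀ y) : {x | swp G o x y} = orb G o x₀ := by
  obtain ⟨φ, h1, h2⟩ := h0
  ext x
  constructor
  · rintro ⟨ψ, h3, h4⟩
    refine ⟨ψ * φ⁻¹, ?_, ?_⟩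
    · rw [RelIso.mul_apply]
      have : φ⁻¹ o = y := by rw [← h1]; exact RelIso.inv_apply_self φ y
      rw [this, h3]
    · rw [RelIso.mul_apply]
      have : φ⁻¹ x₀ = o := by rw [← h2]; exact RelIso.inv_apply_self φ o
      rw [this, h4]
  · rintro ⟨ψ, h3, rfl⟩
    exact ⟨ψ * φ, by rw [RelIso.mul_apply, h1, h3], by rw [RelIso.mul_apply, h2]⟩

lemma swp_right (o x : V) (htr : ∀ u v, ∃ φ : G ≃g G, φ u = v) :
    {y | swp G o x y}.ncard = (orb G x o).ncard := by
  obtain ⟨ψ, hψ⟩ := htr x o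
  have h1 : {y | swp G o x y} = ψ '' orb G x o := by
    ext y
    constructor
    · rintro ⟨φ, h1, h2⟩
      refine ⟨ψ⁻¹ y, ⟨ψ⁻¹ * φ⁻¹, ?_, ?_⟩, RelIso.apply_inv_self ψ y⟩
      · rw [RelIso.mul_apply]
        have : φ⁻¹ x = o := by rw [← h2]; exact RelIso.inv_apply_self φ o
        rw [this, ← hψ]; exact RelIso.inv_apply_self ψ x
      · rw [RelIso.mul_apply]
        have : φ⁻¹ o = y := by rw [← h1]; exact RelIso.inv_apply_self φ y
        rw [this]
    · rintro ⟨z, ⟨χ, h1, h2⟩, rfl⟩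
      refine ⟨χ⁻¹ * ψ⁻¹, ?_, ?_⟩
      · rw [RelIso.mul_apply, RelIso.inv_apply_self, ← h2]
        exact RelIso.inv_apply_self χ o
      · rw [RelIso.mul_apply]
        have e1 : ψ⁻¹ o = x := by rw [← hψ]; exact RelIso.inv_apply_self ψ x
        rw [e1]
        nth_rewrite 1 [← h1]
        exact RelIso.inv_apply_self χ x
  rw [h1, Set.ncard_image_of_injective _ ψ.injective]

/-- an invariant relation on a unimodular transitive graph has equal out- and in-degree -/
theorem mass_transport (hlf : ∀ v, (G.neighborSet v).Finite) (hc : G.Connected)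
    (htr : ∀ u v, ∃ φ : G ≃g G, φ u = v) (hU : Unimod G) (R : V → V → Prop)
    (hR : ∀ (φ : G ≃g G) u v, R (φ u) (φ v) ↔ R u v) (o : V)
    (hA : {x | R o x}.Finite) (hB : {x | R x o}.Finite) :
    {x | R o x}.ncard = {x | R x o}.ncard := by
  classical
  have hRs : ∀ x y, swp G o x y → (R o x ↔ R y o) := by
    rintro x y ⟨φ, h1, h2⟩
    rw [← hR φ y o, h1, h2]
  have key : ((hA.toFinset.card : ℕ) : ℝ) = hB.toFinset.card := by
    have h1 : ∀ x ∈ hA.toFinset, ∑ y ∈ hB.toFinset,
        (if swp G o x y then (1 : ℝ) / (orb G o x).ncard else 0) = 1 := by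
      intro x hx
      rw [← Finset.sum_filter, Finset.sum_const, nsmul_eq_mul]
      have hcard : (hB.toFinset.filter (fun y => swp G o x y)).card = (orb G o x).ncard := by
        rw [hU o x, ← swp_right o x htr, ← Set.ncard_coe_finset]
        congr 1
        ext y
        simp only [Finset.coe_filter, Set.Finite.mem_toFinset, Set.mem_ofPred_eq]
        have hx' : R o x := by simpa using hx
        exact ⟨fun h => h.2, fun h => ⟨(hRs x y h).1 hx', h⟩⟩
      rw [hcard]
      have := orb_pos hlf hc o x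
      field_simp
    have h2 : ∀ y ∈ hB.toFinset, ∑ x ∈ hA.toFinset,
        (if swp G o x y then (1 : ℝ) / (orb G o x).ncard else 0) = 1 := by
      intro y hy
      obtain ⟨φ, hφ⟩ := htr y o
      have h0 : swp G o (φ o) y := ⟨φ, hφ, rfl⟩
      rw [← Finset.sum_filter]
      have hc1 : ∀ x ∈ hA.toFinset.filter (fun x => swp G o x y),
          (1 : ℝ) / (orb G o x).ncard = 1 / (orb G o (φ o)).ncard := by
        intro x hx
        rw [Finset.mem_filter] at hx
        have : x ∈ orb G o (φ o) := by rw [← swp_left o y (φ o) h0]; exact hx.2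
        rw [orb_eq this]
      rw [Finset.sum_congr rfl hc1, Finset.sum_const, nsmul_eq_mul]
      have hcard : (hA.toFinset.filter (fun x => swp G o x y)).card =
          (orb G o (φ o)).ncard := by
        rw [← swp_left o y (φ o) h0, ← Set.ncard_coe_finset]
        congr 1
        ext x
        simp only [Finset.coe_filter, Set.Finite.mem_toFinset, Set.mem_ofPred_eq]
        have hy' : R y o := by simpa using hy
        exact ⟨fun h => h.2, fun h => ⟨(hRs x y h).2 hy', h⟩⟩
      rw [hcard]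
      have := orb_pos hlf hc o (φ o)
      field_simp
    have e1 : ∑ x ∈ hA.toFinset, ∑ y ∈ hB.toFinset,
        (if swp G o x y then (1 : ℝ) / (orb G o x).ncard else 0) = hA.toFinset.card := by
      rw [Finset.sum_congr rfl h1]; simp
    have e2 : ∑ y ∈ hB.toFinset, ∑ x ∈ hA.toFinset,
        (if swp G o x y then (1 : ℝ) / (orb G o x).ncard else 0) = hB.toFinset.card := by
      rw [Finset.sum_congr rfl h2]; simp
    rw [← e1, ← e2, Finset.sum_comm]
  rw [Set.ncard_eq_toFinset_card _ hA, Set.ncard_eq_toFinset_card _ hB]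
  exact_mod_cast key

end Pool.Agent.H61.SW

end S_H61_SWMass

section S_H98_C_Uni

set_option autoImplicit false

/-! Unimodular transitive graphs have the families `Homog`; the others have a height function. -/

namespace Pool.H98.C

open Finset Pool.Agent.H61.SW Classical

variable {V : Type} {G : SimpleGraph V}

/-- orbit of `y` under the stabiliser of `x` -/
def orb (G : SimpleGraph V) (x y : V) : Set V := {z | ∃ φ : G ≃g G, φ x = x ∧ φ y = z}

lemma orb_eq_orb (x y : V) : orb G x y = Pool.Agent.H61.SW.orb G x y := rfl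

/-- nonunimodular graphs have a height function -/
theorem hasHeight_of_not_uni (hG : TG G)
    (huni : ¬ ∀ x y, (orb G x y).ncard = (orb G y x).ncard) :
    ∃ h : V → ℝ, HasHeight G h :=
  hasHeight_of_not_unimod hG.lf hG.conn hG.tr huni

/-- restriction of an automorphism to the ball -/
noncomputable def rst (hG : TG G) (o : V) (R : ℕ) (φ : G ≃g G) : ↥(bl hG o R) → V := fun c => φ c

/-- restrictions of the automorphisms fixing `o` to the ball -/
def Rst (hG : TG G) (o : V) (R : ℕ) : Type :=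
  {f : ↥(bl hG o R) → V // ∃ φ : G ≃g G, φ o = o ∧ rst hG o R φ = f}

namespace Rst

variable {hG : TG G} {o : V} {R : ℕ}

/-- chosen automorphism -/
noncomputable def s (f : Rst hG o R) : G ≃g G := f.2.choose

lemma s_o (f : Rst hG o R) : f.s o = o := f.2.choose_spec.1

lemma s_rst (f : Rst hG o R) : rst hG o R f.s = f.1 := f.2.choose_spec.2

noncomputable def mk' (hG : TG G) (o : V) (R : ℕ) (φ : G ≃g G) (h : φ o = o) : Rst hG o R :=
  ⟨rst hG o R φ, φ, h, rfl⟩

lemma s_mk' (φ : G ≃g G) (h : φ o = o) {c : V} (hc : G.dist o c ≤ R) :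
    (mk' hG o R φ h).s c = φ c := by
  have h1 := (mk' hG o R φ h).s_rst
  exact congrFun h1 ⟨c, (mem_bl hG o c R).2 hc⟩

lemma ext' {f f' : Rst hG o R} (h : ∀ c, G.dist o c ≤ R → f.s c = f'.s c) : f = f' := by
  apply Subtype.ext
  rw [← f.s_rst, ← f'.s_rst]
  ext ⟨c, hc⟩
  exact h c ((mem_bl hG o c R).1 hc)

noncomputable instance : Finite (Rst hG o R) := by
  have : Function.Injective (fun (f : Rst hG o R) (c : ↥(bl hG o R)) =>
      (⟨f.s c, (mem_bl hG o _ R).2 (by
        nth_rewrite 1 [← f.s_o]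
        rw [dist_iso hG.conn]
        exact (mem_bl hG o _ R).1 c.2)⟩ : ↥(bl hG o R))) := by
    intro f f' h
    apply ext'
    intro c hc
    have h1 := congrFun h ⟨c, (mem_bl hG o c R).2 hc⟩
    exact congrArg Subtype.val h1
  exact Finite.of_injective _ this

instance : Nonempty (Rst hG o R) := ⟨mk' hG o R 1 rfl⟩

noncomputable instance : Fintype (Rst hG o R) := Fintype.ofFinite _

/-- left multiplication -/
noncomputable def mul (γ : G ≃g G) (hγ : γ o = o) (f : Rst hG o R) : Rst hG o R :=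
  mk' hG o R (γ * f.s) (by rw [RelIso.mul_apply, f.s_o, hγ])

lemma s_mul (γ : G ≃g G) (hγ : γ o = o) (f : Rst hG o R) {c : V} (hc : G.dist o c ≤ R) :
    (mul γ hγ f).s c = γ (f.s c) := by
  unfold mul
  rw [s_mk' _ _ hc, RelIso.mul_apply]

lemma mul_bij (γ : G ≃g G) (hγ : γ o = o) : Function.Bijective (mul (hG := hG) (R := R) γ hγ) := by
  apply Function.Injective.bijective_of_finite
  intro f f' h
  apply ext'
  intro c hc
  have h1 := s_mul γ hγ f hc
  have h2 := s_mul γ hγ f' hc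
  rw [h, h2] at h1
  exact γ.injective h1.symm

end Rst

lemma Pr_rst_le (hG : TG G) (o : V) (R : ℕ) {c : V} (hc : G.dist o c ≤ R) (w : V) :
    Pr (fun f : Rst hG o R => f.s c = w) ≤
      if w ∈ Pool.Agent.H61.SW.orb G o c then 1 / ((Pool.Agent.H61.SW.orb G o c).ncard : ℝ)
      else 0 := by
  classical
  split_ifs with hw
  · have hpos := orb_pos hG.lf hG.conn o c
    have hfin := orb_finite hG.lf hG.conn o c
    rw [le_div_iff₀ (by exact_mod_cast hpos)]
    obtain ⟨φ, h1, h2⟩ := hw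
    have key : ∀ w' ∈ hfin.toFinset, Pr (fun f : Rst hG o R => f.s c = w) =
        Pr (fun f : Rst hG o R => f.s c = w') := by
      intro w' hw'
      rw [Set.Finite.mem_toFinset] at hw'
      obtain ⟨ψ, h3, h4⟩ := hw'
      have hγ : (φ * ψ⁻¹ : G ≃g G) o = o := by
        rw [RelIso.mul_apply]
        have : ψ⁻¹ o = o := by
          nth_rewrite 1 [← h3]
          exact RelIso.inv_apply_self ψ o
        rw [this, h1]
      rw [← Pr_bij (Rst.mul_bij (hG := hG) (R := R) (φ * ψ⁻¹) hγ)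
        (fun f : Rst hG o R => f.s c = w)]
      refine Pr_congr fun f => ?_
      rw [Rst.s_mul _ _ _ hc, RelIso.mul_apply]
      constructor
      · intro h
        have h5 : ψ⁻¹ (f.s c) = c := φ.injective (h.trans h2.symm)
        have h6 : ψ (ψ⁻¹ (f.s c)) = w' := by rw [h5, h4]
        rw [← h6]
        exact (RelIso.apply_inv_self ψ _).symm
      · intro h
        rw [h, ← h4, ← h2]
        congr 1
        exact RelIso.inv_apply_self ψ c
    have hsum : ∑ w' ∈ hfin.toFinset, Pr (fun f : Rst hG o R => f.s c = w') ≤ 1 := by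
      unfold Pr
      rw [← Ex_sum]
      refine Ex_le_of_le zero_le_one fun f => ?_
      rw [Finset.sum_ite_eq]
      split_ifs <;> norm_num
    rw [← Finset.sum_congr rfl key, Finset.sum_const, nsmul_eq_mul,
      ← Set.ncard_eq_toFinset_card _ hfin] at hsum
    linarith
  · refine le_of_eq ?_
    unfold Pr Ex
    have : ∀ f : Rst hG o R, ¬ f.s c = w := by
      intro f h
      exact hw ⟨f.s, f.s_o, h⟩
    simp [this]

theorem exists_homog (hG : TG G) (o : V) (huni : ∀ x y, (orb G x y).ncard = (orb G y x).ncard)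
    (R : ℕ) : Nonempty (Homog G o R) := by
  classical
  refine ⟨⟨Rst hG o R, inferInstance, inferInstance, fun x f => f.s.trans (tau hG o x),
    ?_, ?_, ?_⟩⟩
  · intro x f
    show tau hG o x (f.s o) = x
    rw [f.s_o, tau_apply]
  · intro c y hc X
    have h1 : ∀ x, Pr (fun f : Rst hG o R => (f.s.trans (tau hG o x)) c = y) =
        Pr (fun f : Rst hG o R => f.s c = (tau hG o x).symm y) := by
      intro x
      refine Pr_congr fun f => ?_
      show tau hG o x (f.s c) = y ↔ _
      constructor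
      · intro h; rw [← h]; exact ((tau hG o x).symm_apply_apply _).symm
      · intro h; rw [h]; exact (tau hG o x).apply_symm_apply _
    simp only [h1]
    -- the invariant relation
    set Rel : V → V → Prop := fun x z => ∃ φ : G ≃g G, φ o = x ∧ φ c = z with hRel
    have hRinv : ∀ (φ : G ≃g G) u v, Rel (φ u) (φ v) ↔ Rel u v := by
      intro φ u v
      constructor
      · rintro ⟨ψ, h2, h3⟩
        refine ⟨φ⁻¹ * ψ, ?_, ?_⟩
        · rw [RelIso.mul_apply, h2]; exact RelIso.inv_apply_self φ u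
        · rw [RelIso.mul_apply, h3]; exact RelIso.inv_apply_self φ v
      · rintro ⟨ψ, h2, h3⟩
        exact ⟨φ * ψ, by rw [RelIso.mul_apply, h2], by rw [RelIso.mul_apply, h3]⟩
    have hdist : ∀ x z, Rel x z → G.dist x z = G.dist o c := by
      rintro x z ⟨φ, rfl, rfl⟩
      exact dist_iso hG.conn φ o c
    have hA : {x | Rel y x}.Finite := by
      refine (ball_finite hG.lf hG.conn y (G.dist o c)).subset ?_
      intro x hx
      exact (hdist y x hx).le
    have hB : {x | Rel x y}.Finite := by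
      refine (ball_finite hG.lf hG.conn y (G.dist o c)).subset ?_
      intro x hx
      have := (hdist x y hx).le
      rw [SimpleGraph.dist_comm] at this
      exact this
    have hmt := mass_transport hG.lf hG.conn hG.tr huni Rel hRinv y hA hB
    have hout : {x | Rel y x}.ncard = (Pool.Agent.H61.SW.orb G o c).ncard := by
      have h2 : {x | Rel y x} = (tau hG o y) '' (Pool.Agent.H61.SW.orb G o c) := by
        ext z
        constructor
        · rintro ⟨φ, h3, h4⟩
          refine ⟨((tau hG o y)⁻¹ * φ : G ≃g G) c, ⟨(tau hG o y)⁻¹ * φ, ?_, rfl⟩, ?_⟩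
          · rw [RelIso.mul_apply, h3]
            nth_rewrite 2 [← tau_apply hG o y]
            exact RelIso.inv_apply_self _ _
          · rw [RelIso.mul_apply, h4]
            exact RelIso.apply_inv_self _ _
        · rintro ⟨w, ⟨φ, h3, h4⟩, rfl⟩
          refine ⟨tau hG o y * φ, ?_, ?_⟩
          · rw [RelIso.mul_apply, h3, tau_apply]
          · rw [RelIso.mul_apply, h4]
      rw [h2, Set.ncard_image_of_injective _ (tau hG o y).injective]
    have hpos := orb_pos hG.lf hG.conn o c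
    have h3 : ∀ x ∈ X, Pr (fun f : Rst hG o R => f.s c = (tau hG o x).symm y) ≤
        if Rel x y then 1 / ((Pool.Agent.H61.SW.orb G o c).ncard : ℝ) else 0 := by
      intro x _
      refine (Pr_rst_le hG o R hc _).trans (le_of_eq ?_)
      have h4 : (tau hG o x).symm y ∈ Pool.Agent.H61.SW.orb G o c ↔ Rel x y := by
        constructor
        · rintro ⟨φ, h5, h6⟩
          refine ⟨tau hG o x * φ, ?_, ?_⟩
          · rw [RelIso.mul_apply, h5, tau_apply]
          · rw [RelIso.mul_apply, h6]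
            exact (tau hG o x).apply_symm_apply _
        · rintro ⟨φ, h5, h6⟩
          refine ⟨(tau hG o x)⁻¹ * φ, ?_, ?_⟩
          · rw [RelIso.mul_apply, h5]
            nth_rewrite 2 [← tau_apply hG o x]
            exact RelIso.inv_apply_self _ _
          · rw [RelIso.mul_apply, h6]; rfl
      by_cases h : Rel x y
      · rw [if_pos h, if_pos (h4.2 h)]
      · rw [if_neg h, if_neg (fun h' => h (h4.1 h'))]
    refine (Finset.sum_le_sum h3).trans ?_
    rw [← Finset.sum_filter, Finset.sum_const, nsmul_eq_mul]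
    have h5 : (X.filter (fun x => Rel x y)).card ≤ (Pool.Agent.H61.SW.orb G o c).ncard := by
      rw [← hout, hmt, ← Set.ncard_coe_finset]
      refine Set.ncard_le_ncard ?_ hB
      intro x hx
      simp only [Finset.coe_filter, Set.mem_ofPred_eq] at hx
      exact hx.2
    have hp' : (0 : ℝ) < ((Pool.Agent.H61.SW.orb G o c).ncard : ℝ) := by exact_mod_cast hpos
    rw [mul_one_div, div_le_one hp']
    exact_mod_cast h5
  · intro g x
    have hγ : ((tau hG o (g x))⁻¹ * (g * tau hG o x) : G ≃g G) o = o := by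
      rw [RelIso.mul_apply, RelIso.mul_apply, tau_apply]
      nth_rewrite 2 [← tau_apply hG o (g x)]
      exact RelIso.inv_apply_self _ _
    refine ⟨Rst.mul _ hγ, Rst.mul_bij _ hγ, ?_⟩
    intro f c hc
    show g (tau hG o x (f.s c)) = tau hG o (g x) ((Rst.mul _ hγ f).s c)
    rw [Rst.s_mul _ _ _ hc, RelIso.mul_apply, RelIso.mul_apply]
    exact (RelIso.apply_inv_self _ _).symm

end Pool.H98.C

end S_H98_C_Uni

section S_H98_C_Count

set_option autoImplicit false

/-! Counting walks through decompositions into cores. -/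

namespace Pool.H98.C

open Finset Pool.Agent.H61.SW Classical

variable {V : Type} {G : SimpleGraph V}

/-- weight of a finite set of step lists -/
noncomputable def lw (t : ℝ) (S : Finset (List V)) : ℝ := ∑ s ∈ S, t ^ s.length

lemma lw_mono {t : ℝ} (ht : 0 ≤ t) {S S' : Finset (List V)} (h : S ⊆ S') : lw t S ≤ lw t S' :=
  Finset.sum_le_sum_of_subset_of_nonneg h fun _ _ _ => pow_nonneg ht _

lemma lw_biUnion {ι : Type*} {t : ℝ} (ht : 0 ≤ t) (I : Finset ι) (S : ι → Finset (List V)) :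
    lw t (I.biUnion S) ≤ ∑ i ∈ I, lw t (S i) := by
  classical
  induction I using Finset.induction_on with
  | empty => simp [lw]
  | insert a I ha ih =>
    rw [Finset.biUnion_insert, Finset.sum_insert ha]
    have h1 : lw t (S a ∪ I.biUnion S) ≤ lw t (S a) + lw t (I.biUnion S) := by
      unfold lw
      rw [← Finset.sum_union_inter]
      have : 0 ≤ ∑ s ∈ S a ∩ I.biUnion S, t ^ s.length :=
        Finset.sum_nonneg fun _ _ => pow_nonneg ht _
      linarith
    linarith

lemma lw_image_append (t : ℝ) (c : List V) (S : Finset (List V)) :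
    lw t (S.image fun s => c ++ s) = t ^ c.length * lw t S := by
  unfold lw
  rw [Finset.sum_image (fun x _ y _ h => List.append_cancel_left h), Finset.mul_sum]
  refine Finset.sum_congr rfl fun s _ => ?_
  rw [List.length_append, pow_add]

lemma lw_union_append {t : ℝ} (ht : 0 ≤ t) (F : Finset (List V)) (S : List V → Finset (List V))
    (W : ℝ) (hW : ∀ c ∈ F, lw t (S c) ≤ W) :
    lw t (F.biUnion fun c => (S c).image fun s => c ++ s) ≤ lw t F * W := by
  refine (lw_biUnion ht F _).trans ?_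
  rw [lw, Finset.sum_mul]
  refine Finset.sum_le_sum fun c hc => ?_
  rw [lw_image_append]
  exact mul_le_mul_of_nonneg_left (hW c hc) (pow_nonneg ht _)

lemma fin_le (hG : TG G) (P : V → List V → Prop) (v : V) (K : ℕ) :
    {s : List V | s.length ≤ K ∧ ch G v s ∧ P v s}.Finite := by
  refine (Set.Finite.biUnion (Finset.finite_toSet (Finset.range (K + 1)))
    fun n _ => fin_ch hG.lf n v).subset ?_
  rintro s ⟨h1, h2, -⟩
  simp only [Finset.coe_range, Set.mem_iUnion]
  exact ⟨s.length, by simpa [Nat.lt_succ_iff] using h1, rfl, h2⟩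

/-- step lists of length at most `K` from `v` with property `P` -/
noncomputable def fm (hG : TG G) (P : V → List V → Prop) (v : V) (K : ℕ) : Finset (List V) :=
  (fin_le hG P v K).toFinset

lemma mem_fm (hG : TG G) (P : V → List V → Prop) (v : V) (K : ℕ) (s : List V) :
    s ∈ fm hG P v K ↔ s.length ≤ K ∧ ch G v s ∧ P v s := by
  simp [fm]

lemma lw_fm (hG : TG G) (t : ℝ) (P : V → List V → Prop) (hP : ∀ v s, P v s → ch G v s)
    (v : V) (K : ℕ) : lw t (fm hG P v K) = ∑ k ∈ Finset.range (K + 1), (cnt P v k : ℝ) * t ^ k := by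
  classical
  unfold lw
  have h1 : ∀ s ∈ fm hG P v K, s.length ∈ Finset.range (K + 1) := by
    intro s hs
    rw [mem_fm] at hs
    rw [Finset.mem_range]; omega
  rw [← Finset.sum_fiberwise_of_maps_to h1]
  refine Finset.sum_congr rfl fun k hk => ?_
  have h2 : ∀ s ∈ (fm hG P v K).filter (fun s => s.length = k), t ^ s.length = t ^ k := by
    intro s hs
    rw [(Finset.mem_filter.1 hs).2]
  rw [Finset.sum_congr rfl h2, Finset.sum_const, nsmul_eq_mul]
  congr 2
  rw [cnt, ← Set.ncard_coe_finset]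
  congr 1
  ext s
  simp only [Finset.coe_filter, mem_fm, Set.mem_ofPred_eq]
  rw [Finset.mem_range] at hk
  constructor
  · rintro ⟨⟨-, -, h⟩, h'⟩; exact ⟨h', h⟩
  · rintro ⟨h, h'⟩; exact ⟨⟨by omega, hP _ _ h', h'⟩, h⟩

lemma CP_ch {P : V → List V → Prop} (hP : ∀ v s, P v s → ch G v s) (n : ℕ) (v : V) (s : List V)
    (h : CP P n v s) : ch G v s := by
  induction n generalizing v s with
  | zero =>
    have : s = [] := h
    rw [this]; trivial
  | succ n ih =>
    obtain ⟨c, t, rfl, h1, h2⟩ := h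
    rw [ch_append]
    exact ⟨hP _ _ h1, ih _ _ h2⟩

lemma lw_CP (hG : TG G) {t : ℝ} (ht : 0 < t) (P : V → List V → Prop) (L : ℕ)
    (hP : ∀ v c, P v c → ch G v c ∧ c.length ≤ L) (W : ℝ) (hW : 1 ≤ W)
    (hPW : ∀ v, lw t (fm hG P v L) ≤ W) (n K : ℕ) (v : V) :
    lw t (fm hG (CP P n) v K) ≤ W ^ n := by
  induction n generalizing v K with
  | zero =>
    have h1 : fm hG (CP P 0) v K ⊆ {[]} := by
      intro s hs
      rw [mem_fm] at hs
      have : s = [] := hs.2.2
      rw [this]; simp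
    refine (lw_mono ht.le h1).trans ?_
    simp [lw]
  | succ n ih =>
    have h1 : fm hG (CP P (n + 1)) v K ⊆ (fm hG P v L).biUnion
        fun c => (fm hG (CP P n) (en v c) K).image fun s => c ++ s := by
      intro s hs
      rw [mem_fm] at hs
      obtain ⟨h2, h3, c, u, rfl, h4, h5⟩ := hs
      rw [Finset.mem_biUnion]
      refine ⟨c, (mem_fm hG P v L c).2 ⟨(hP _ _ h4).2, (hP _ _ h4).1, h4⟩, ?_⟩
      rw [Finset.mem_image]
      refine ⟨u, (mem_fm hG _ _ K u).2 ⟨?_, ((ch_append v c u).1 h3).2, h5⟩, rfl⟩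
      rw [List.length_append] at h2
      omega
    refine (lw_mono ht.le h1).trans ?_
    refine (lw_union_append ht.le _ _ (W ^ n) fun c _ => ih K (en v c)).trans ?_
    rw [pow_succ, mul_comm]
    exact mul_le_mul_of_nonneg_left (hPW v) (by positivity)

/-- weight generating bound for concatenations of cores -/
theorem count_peel (hG : TG G) (o : V) (t : ℝ) (ht : 0 < t) (P : V → List V → Prop) (L : ℕ)
    (hP : ∀ v c, P v c → sa G v c ∧ c.length ≤ L) (W : ℝ) (hW : 1 ≤ W)
    (hPW : ∀ v, ∑ k ∈ Finset.range (L + 1), (cnt P v k : ℝ) * t ^ k ≤ W)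
    (m mlow N : ℕ)
    (hdec : ∀ s, sa G o s → s.length = m → ∃ n ≤ N, ∃ p mid q : List V, s = p ++ (mid ++ q) ∧
      p.length + q.length ≤ mlow ∧ CP P n (en o p) mid) :
    (cnt (sa G) o m : ℝ) * t ^ m ≤
      (N + 1) * (∑ k ∈ Finset.range (mlow + 1), (cnt (sa G) o k : ℝ) * t ^ k) ^ 2 * W ^ N := by
  classical
  have hPc : ∀ v c, P v c → ch G v c := fun v c h => (hP v c h).1.1
  have hPW' : ∀ v, lw t (fm hG P v L) ≤ W := fun v => by
    rw [lw_fm hG t P hPc]; exact hPW v
  set A := ∑ k ∈ Finset.range (mlow + 1), (cnt (sa G) o k : ℝ) * t ^ k with hA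
  have hA' : ∀ v, lw t (fm hG (sa G) v mlow) = A := by
    intro v
    rw [lw_fm hG t (sa G) (fun _ _ h => h.1), hA]
    refine Finset.sum_congr rfl fun k _ => ?_
    obtain ⟨φ, hφ⟩ := hG.tr o v
    rw [← hφ, cnt_map (sa G) φ o (fun s => sa_map φ o s)]
  have hA0 : 0 ≤ A := by rw [hA]; positivity
  -- the set of walks
  have hfin : {s : List V | s.length = m ∧ sa G o s}.Finite :=
    fin_of_imp hG.lf (fun _ _ h => h.1) m o
  have hlhs : (cnt (sa G) o m : ℝ) * t ^ m = lw t hfin.toFinset := by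
    unfold lw
    have h2 : ∀ s ∈ hfin.toFinset, t ^ s.length = t ^ m := by
      intro s hs
      rw [Set.Finite.mem_toFinset] at hs
      rw [hs.1]
    rw [Finset.sum_congr rfl h2, Finset.sum_const, nsmul_eq_mul, cnt,
      Set.ncard_eq_toFinset_card _ hfin]
  have hsub : hfin.toFinset ⊆ (Finset.range (N + 1)).biUnion fun n =>
      (fm hG (sa G) o mlow).biUnion fun p => (((fm hG (CP P n) (en o p) m).biUnion fun mid =>
        (fm hG (sa G) (en (en o p) mid) mlow).image fun q => mid ++ q)).image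
          fun u => p ++ u := by
    intro s hs
    rw [Set.Finite.mem_toFinset] at hs
    obtain ⟨h1, h2⟩ := hs
    obtain ⟨n, hn, p, mid, q, rfl, h3, h4⟩ := hdec s h2 h1
    rw [Finset.mem_biUnion]
    refine ⟨n, by rw [Finset.mem_range]; omega, ?_⟩
    rw [Finset.mem_biUnion]
    have h5 := sa_append_left h2
    have h6 := sa_append_right h2
    refine ⟨p, (mem_fm hG _ _ _ _).2 ⟨by omega, h5.1, h5⟩, ?_⟩
    rw [Finset.mem_image]
    refine ⟨mid ++ q, ?_, rfl⟩
    rw [Finset.mem_biUnion]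
    simp only [List.length_append] at h1
    refine ⟨mid, (mem_fm hG _ _ _ _).2 ⟨by omega, (sa_append_left h6).1, h4⟩, ?_⟩
    rw [Finset.mem_image]
    exact ⟨q, (mem_fm hG _ _ _ _).2 ⟨by omega, (sa_append_right h6).1, sa_append_right h6⟩, rfl⟩
  rw [hlhs]
  refine (lw_mono ht.le hsub).trans ?_
  refine (lw_biUnion ht.le _ _).trans ?_
  have hn : ∀ n ∈ Finset.range (N + 1), lw t ((fm hG (sa G) o mlow).biUnion fun p =>
      (((fm hG (CP P n) (en o p) m).biUnion fun mid =>
        (fm hG (sa G) (en (en o p) mid) mlow).image fun q => mid ++ q)).image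
          fun u => p ++ u) ≤ A ^ 2 * W ^ N := by
    intro n hn
    rw [Finset.mem_range] at hn
    refine (lw_union_append ht.le _ _ (W ^ n * A) fun p _ => ?_).trans ?_
    · refine (lw_union_append ht.le _ _ A fun mid _ => (hA' _).le).trans ?_
      exact mul_le_mul_of_nonneg_right (lw_CP hG ht P L (fun v c h => ⟨(hP v c h).1.1,
        (hP v c h).2⟩) W hW hPW' n m _) hA0
    · rw [hA']
      have h7 : W ^ n ≤ W ^ N := pow_le_pow_right₀ hW (by omega)
      calc A * (W ^ n * A) = A ^ 2 * W ^ n := by ring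
        _ ≤ A ^ 2 * W ^ N := mul_le_mul_of_nonneg_left h7 (sq_nonneg _)
  refine (Finset.sum_le_sum hn).trans (le_of_eq ?_)
  rw [Finset.sum_const, Finset.card_range, nsmul_eq_mul]
  push_cast
  ring

end Pool.H98.C

end S_H98_C_Count

section S_H61_ST_Defs

set_option autoImplicit false

/-! Structure theory of transitive graphs of polynomial growth: definitions. -/

namespace Pool.H61.ST

open Finset Pool.Agent.H61.SW Pool.H98.C

variable {V : Type} {G : SimpleGraph V} (hG : TG G)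

/-- neighbours of a vertex -/
noncomputable def nb (x : V) : Finset V := (hG.lf x).toFinset

@[simp] lemma mem_nb {x y : V} : y ∈ nb hG x ↔ G.Adj x y := by simp [nb]

lemma mem_nb_comm {x y : V} : y ∈ nb hG x ↔ x ∈ nb hG y := by simp [G.adj_comm]

lemma nb_iso (g : G ≃g G) (x : V) : (nb hG x).map g.toEquiv.toEmbedding = nb hG (g x) := by
  ext y
  simp only [Finset.mem_map, mem_nb]
  constructor
  · rintro ⟨z, hz, rfl⟩
    exact g.map_adj_iff.2 hz
  · intro hy
    refine ⟨g.symm y, ?_, g.apply_symm_apply y⟩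
    rw [← g.map_adj_iff, g.apply_symm_apply]; exact hy

lemma sum_nb_iso {M : Type*} [AddCommMonoid M] (g : G ≃g G) (x : V) (f : V → M) :
    ∑ y ∈ nb hG x, f (g y) = ∑ y ∈ nb hG (g x), f y := by
  rw [← nb_iso hG g x, Finset.sum_map]; rfl

/-- the degree -/
noncomputable def dg (x : V) : ℕ := (nb hG x).card

lemma dg_eq (x y : V) : dg hG x = dg hG y := by
  obtain ⟨g, rfl⟩ := hG.tr x y
  unfold dg
  rw [← nb_iso hG g x, Finset.card_map]

/-- the Laplacian -/
noncomputable def lap (u : V → ℝ) (x : V) : ℝ := ∑ y ∈ nb hG x, (u y - u x)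

/-- squared gradient -/
noncomputable def gr (u : V → ℝ) (x : V) : ℝ := ∑ y ∈ nb hG x, (u y - u x) ^ 2

lemma gr_nonneg (u : V → ℝ) (x : V) : 0 ≤ gr hG u x := Finset.sum_nonneg fun _ _ => sq_nonneg _

lemma lap_comp (g : G ≃g G) (u : V → ℝ) (x : V) : lap hG (u ∘ g) x = lap hG u (g x) := by
  unfold lap
  rw [← sum_nb_iso hG g x (fun y => u y - u (g x))]; rfl

lemma gr_comp (g : G ≃g G) (u : V → ℝ) (x : V) : gr hG (u ∘ g) x = gr hG u (g x) := by
  unfold gr
  rw [← sum_nb_iso hG g x (fun y => (u y - u (g x)) ^ 2)]; rfl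

lemma lap_add (u v : V → ℝ) (x : V) : lap hG (u + v) x = lap hG u x + lap hG v x := by
  unfold lap
  rw [← Finset.sum_add_distrib]
  exact Finset.sum_congr rfl fun y _ => by simp only [Pi.add_apply]; ring

lemma lap_smul (c : ℝ) (u : V → ℝ) (x : V) : lap hG (c • u) x = c * lap hG u x := by
  unfold lap
  rw [Finset.mul_sum]
  exact Finset.sum_congr rfl fun y _ => by simp only [Pi.smul_apply, smul_eq_mul]; ring

/-- polynomial growth along a subsequence -/
def PG (o : V) (D : ℕ) : Prop := ∀ N : ℕ, ∃ r ≥ N, ((bl hG o r).card : ℝ) ≤ (r : ℝ) ^ D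

/-- Lipschitz functions -/
def Lip (G : SimpleGraph V) (C : ℝ) (u : V → ℝ) : Prop := ∀ x y, G.Adj x y → |u x - u y| ≤ C

/-- Lipschitz harmonic functions vanishing at `o` -/
noncomputable def LH (o : V) : Submodule ℝ (V → ℝ) where
  carrier := {u | u o = 0 ∧ (∀ x, lap hG u x = 0) ∧ ∃ C, Lip G C u}
  add_mem' := by
    rintro u v ⟨h1, h2, C, h3⟩ ⟨h4, h5, C', h6⟩
    refine ⟨by simp [h1, h4], fun x => by rw [lap_add, h2, h5, add_zero], C + C', fun x y h => ?_⟩
    have h7 := h3 x y h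
    have h8 := h6 x y h
    simp only [Pi.add_apply]
    rw [abs_le] at *
    constructor <;> linarith [h7.1, h7.2, h8.1, h8.2]
  zero_mem' := ⟨rfl, fun x => by simp [lap], 0, fun x y _ => by simp⟩
  smul_mem' := by
    rintro c u ⟨h1, h2, C, h3⟩
    refine ⟨by simp [h1], fun x => by rw [lap_smul, h2, mul_zero], |c| * C, fun x y h => ?_⟩
    simp only [Pi.smul_apply, smul_eq_mul]
    rw [← mul_sub, abs_mul]
    exact mul_le_mul_of_nonneg_left (h3 x y h) (abs_nonneg c)

/-- A height structure: finite index normal subgroup `Γ` of the automorphism group, homomorphism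
`χ` to the integers, height function `u` with exact equivariance, and every vertex has a strictly
higher and a strictly lower neighbour. -/
structure HS (G : SimpleGraph V) where
  Γ : Subgroup (G ≃g G)
  nor : Γ.Normal
  fi : Γ.FiniteIndex
  χ : (G ≃g G) → ℤ
  mul : ∀ g ∈ Γ, ∀ h ∈ Γ, χ (g * h) = χ g + χ h
  ne : ∃ g ∈ Γ, χ g ≠ 0
  u : V → ℝ
  equi : ∀ g ∈ Γ, ∀ x, u (g x) = u x + χ g
  up : ∀ x, ∃ y, G.Adj x y ∧ u x < u y
  dn : ∀ x, ∃ y, G.Adj x y ∧ u y < u x

end Pool.H61.ST

end S_H61_ST_Defs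

section S_H61_ST_Unim

set_option autoImplicit false

/-! Unimodularity and subexponential growth from polynomial growth along a subsequence. -/

namespace Pool.H61.ST

open Finset Pool.Agent.H61.SW Pool.H98.C Filter

variable {V : Type} {G : SimpleGraph V} (hG : TG G)

include hG in
lemma exists_mid (x z : V) (m n : ℕ) (h : G.dist x z ≤ m + n) :
    ∃ y, G.dist x y ≤ m ∧ G.dist y z ≤ n := by
  obtain ⟨p, hp⟩ := hG.conn.exists_walk_length_eq_dist x z
  refine ⟨p.getVert m, ?_, ?_⟩
  · refine (SimpleGraph.dist_le (p.take m)).trans ?_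
    rw [SimpleGraph.Walk.take_length]
    exact min_le_left _ _
  · refine (SimpleGraph.dist_le (p.drop m)).trans ?_
    rw [SimpleGraph.Walk.drop_length]
    omega

lemma card_bl_add (x : V) (m n : ℕ) :
    (bl hG x (m + n)).card ≤ (bl hG x m).card * (bl hG x n).card := by
  classical
  have h1 : bl hG x (m + n) ⊆ (bl hG x m).biUnion (fun y => bl hG y n) := by
    intro z hz
    rw [mem_bl] at hz
    obtain ⟨y, h1, h2⟩ := exists_mid hG x z m n hz
    exact Finset.mem_biUnion.2 ⟨y, (mem_bl hG x y m).2 h1, (mem_bl hG y z n).2 h2⟩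
  refine (Finset.card_le_card h1).trans (Finset.card_biUnion_le.trans ?_)
  rw [Finset.sum_congr rfl fun y _ => card_bl hG y x n, Finset.sum_const, smul_eq_mul]

lemma bl_mono (x : V) {m n : ℕ} (h : m ≤ n) : bl hG x m ⊆ bl hG x n := by
  intro z hz
  rw [mem_bl] at *
  omega

theorem subexp (o : V) (D : ℕ) (hpg : PG hG o D) (q : ℝ) (hq : 1 < q) :
    ∃ C : ℝ, 0 < C ∧ ∀ n : ℕ, ((bl hG o n).card : ℝ) ≤ C * q ^ n := by
  have hq0 : 0 < q := by linarith
  obtain ⟨N, hN⟩ : ∃ N : ℕ, ∀ r ≥ N, (r : ℝ) ^ D ≤ q ^ r := by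
    have h1 := tendsto_pow_const_div_const_pow_of_one_lt D hq
    have h2 := h1.eventually (gt_mem_nhds (zero_lt_one))
    obtain ⟨N, hN⟩ := eventually_atTop.1 h2
    refine ⟨N, fun r hr => ?_⟩
    have h3 := hN r hr
    rw [div_lt_one (by positivity)] at h3
    exact h3.le
  obtain ⟨r, hr1, hr2⟩ := hpg (N + 1)
  have hr : 0 < r := by omega
  have hVr : ((bl hG o r).card : ℝ) ≤ q ^ r := hr2.trans (hN r (by omega))
  have hk : ∀ k s : ℕ, ((bl hG o (k * r + s)).card : ℝ) ≤ (q ^ r) ^ k * (bl hG o s).card := by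
    intro k s
    induction k with
    | zero => simp
    | succ k ih =>
      have h1 := card_bl_add hG o r (k * r + s)
      have e : (k + 1) * r + s = r + (k * r + s) := by ring
      rw [e]
      have h2 : ((bl hG o (r + (k * r + s))).card : ℝ) ≤
          (bl hG o r).card * (bl hG o (k * r + s)).card := by exact_mod_cast h1
      refine h2.trans ?_
      rw [pow_succ', mul_assoc]
      exact mul_le_mul hVr ih (by positivity) (by positivity)
  refine ⟨(bl hG o r).card, by exact_mod_cast card_bl_pos hG o r, fun n => ?_⟩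
  have h1 := hk (n / r) (n % r)
  have e : n / r * r + n % r = n := by rw [mul_comm]; exact Nat.div_add_mod n r
  rw [e] at h1
  have h2 : ((bl hG o (n % r)).card : ℝ) ≤ (bl hG o r).card := by
    exact_mod_cast Finset.card_le_card (bl_mono hG o (Nat.mod_lt n hr).le)
  have h3 : (q ^ r) ^ (n / r) ≤ q ^ n := by
    rw [← pow_mul]
    exact pow_le_pow_right₀ hq.le (Nat.mul_div_le n r)
  calc ((bl hG o n).card : ℝ) ≤ (q ^ r) ^ (n / r) * (bl hG o (n % r)).card := h1
    _ ≤ q ^ n * (bl hG o r).card := mul_le_mul h3 h2 (by positivity) (by positivity)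
    _ = (bl hG o r).card * q ^ n := mul_comm _ _

include hG in
lemma mrat_self' (u : V) : mrat G u u = 1 := by
  unfold mrat
  have := Pool.Agent.H61.SW.orb_pos hG.lf hG.conn u u
  rw [div_self]
  exact_mod_cast this.ne'

include hG in
lemma mrat_eq_one_of_adj (h : ∀ u v, G.Adj u v → mrat G u v = 1) (x y : V) : mrat G x y = 1 := by
  obtain ⟨p⟩ := hG.conn.preconnected x y
  induction p with
  | nil => exact mrat_self' hG _
  | cons hadj p ih => rw [← mrat_mul hG.lf hG.conn _ _ _, h _ _ hadj, ih, one_mul]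

theorem unimod_of_PG (o : V) (D : ℕ) (hpg : PG hG o D) :
    ∀ x y, (Pool.H98.C.orb G x y).ncard = (Pool.H98.C.orb G y x).ncard := by
  -- it suffices that all ratios of adjacent vertices are at most one
  have key : ∀ u v, G.Adj u v → mrat G u v ≤ 1 := by
    intro u v huv
    by_contra hlt
    push Not at hlt
    set lam := mrat G u v with hlam
    have hseq : ∀ n : ℕ, ∃ x, G.dist u x ≤ n ∧ mrat G u x = lam ^ n := by
      intro n
      induction n with
      | zero => exact ⟨u, by simp, by rw [mrat_self' hG, pow_zero]⟩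
      | succ n ih =>
        obtain ⟨x, h1, h2⟩ := ih
        obtain ⟨φ, hφ⟩ := hG.tr u x
        refine ⟨φ v, ?_, ?_⟩
        · have h3 : G.dist x (φ v) = G.dist u v := by rw [← hφ]; exact dist_iso hG.conn φ u v
          have h4 := hG.tri u x (φ v)
          have h5 : G.dist u v = 1 := SimpleGraph.dist_eq_one_iff_adj.2 huv
          omega
        · rw [← mrat_mul hG.lf hG.conn u x (φ v), h2]
          have : mrat G x (φ v) = lam := by rw [← hφ]; exact mrat_map φ u v
          rw [this, pow_succ]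
    have hbd : ∀ n : ℕ, lam ^ n ≤ ((bl hG o n).card : ℝ) := by
      intro n
      obtain ⟨x, h1, h2⟩ := hseq n
      rw [← h2]
      have h3 : (Pool.Agent.H61.SW.orb G u x).ncard ≤ (bl hG u n).card := by
        rw [← Set.ncard_coe_finset]
        apply Set.ncard_le_ncard _ (Finset.finite_toSet _)
        rintro w ⟨φ, h4, rfl⟩
        simp only [Finset.mem_coe, mem_bl]
        calc G.dist u (φ x) = G.dist (φ u) (φ x) := by rw [h4]
          _ = G.dist u x := dist_iso hG.conn φ u x
          _ ≤ n := h1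
      have h5 := Pool.Agent.H61.SW.orb_pos hG.lf hG.conn x u
      have h6 : mrat G u x ≤ (Pool.Agent.H61.SW.orb G u x).ncard := by
        unfold mrat
        apply div_le_self (by positivity)
        exact_mod_cast h5
      refine h6.trans ?_
      rw [card_bl hG o u n]
      exact_mod_cast h3
    set q := (1 + lam) / 2 with hq
    have hq1 : 1 < q := by rw [hq]; linarith
    have hq2 : q < lam := by rw [hq]; linarith
    have hq0 : 0 < q := by linarith
    obtain ⟨C, hC, hsub⟩ := subexp hG o D hpg q hq1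
    obtain ⟨n, hn⟩ := pow_unbounded_of_one_lt C ((one_lt_div hq0).2 hq2)
    have h7 := (hbd n).trans (hsub n)
    rw [div_pow, lt_div_iff₀ (by positivity)] at hn
    linarith
  have key' : ∀ u v, G.Adj u v → mrat G u v = 1 := by
    intro u v huv
    have h1 := key u v huv
    have h2 := key v u huv.symm
    rw [mrat_symm] at h2
    have h3 := mrat_pos hG.lf hG.conn u v
    have h4 := (inv_le_one₀ h3).1 h2
    exact le_antisymm h1 h4
  intro x y
  have h := mrat_eq_one_of_adj hG key' x y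
  unfold mrat at h
  have h4 := Pool.Agent.H61.SW.orb_pos hG.lf hG.conn y x
  rw [div_eq_one_iff_eq (by exact_mod_cast h4.ne')] at h
  rw [orb_eq_orb, orb_eq_orb]
  exact_mod_cast h

end Pool.H61.ST

end S_H61_ST_Unim

section S_H61_ST_Defs2

set_option autoImplicit false

/-! Definitions for the chaining arguments (lines, quasi-lines, superblocks, families of walks). -/

namespace Pool.H61.ST

open Finset Pool.Agent.H61.SW Pool.H98.C

/-- a bi-infinite geodesic -/
def IsLine {V : Type} (G : SimpleGraph V) (γ : ℤ → V) : Prop :=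
  ∀ i j : ℤ, (G.dist (γ i) (γ j) : ℤ) = |i - j|

/-- a geodesic segment with indices in `[-p, p]` -/
def IsSeg {V : Type} (G : SimpleGraph V) (p : ℕ) (σ : ℤ → V) : Prop :=
  ∀ i j : ℤ, |i| ≤ p → |j| ≤ p → (G.dist (σ i) (σ j) : ℤ) = |i - j|

/-- a coarse isometry to the integers -/
def QLn {V : Type} (G : SimpleGraph V) (f : V → ℤ) (C : ℕ) : Prop :=
  ∀ y z : V, |(|f y - f z|) - (G.dist y z : ℤ)| ≤ C

/-- every geodesic segment can be replaced, near its centre, by a heavy family of walks -/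
def Super {V : Type} (G : SimpleGraph V) (t : ℝ) (p ρ : ℕ) : Prop :=
  ∀ σ : ℤ → V, IsSeg G p σ →
    ∃ (τ₁ τ₂ : ℤ) (F : Finset (List V)), -(ρ : ℤ) ≤ τ₁ ∧ τ₁ ≤ τ₂ ∧ τ₂ ≤ ρ ∧
      (∀ s ∈ F, sa G (σ τ₁) s ∧ en (σ τ₁) s = σ τ₂ ∧ (∀ z ∈ s, G.dist (σ 0) z ≤ ρ) ∧
        ∀ i : ℤ, |i| ≤ p → (i < τ₁ ∨ τ₂ < i) → σ i ∉ s) ∧
      2 ≤ (∑ s ∈ F, t ^ s.length) * t ^ (p - (τ₂ - τ₁).toNat)

/-- all walks of `F` run from `x` to `y` inside `A` -/
def Fm {V : Type} (G : SimpleGraph V) (x y : V) (A : Set V) (F : Finset (List V)) : Prop :=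
  ∀ s ∈ F, sa G x s ∧ en x s = y ∧ ∀ z ∈ x :: s, z ∈ A

/-- weight of a family of walks -/
noncomputable def fw {V : Type} (t : ℝ) (F : Finset (List V)) : ℝ := ∑ s ∈ F, t ^ s.length

/-- orbit of `x` under the kernel of the height homomorphism -/
def orbK {V : Type} {G : SimpleGraph V} (hs : HS G) (x : V) : Set V :=
  {y | ∃ l ∈ hs.Γ, hs.χ l = 0 ∧ l x = y}

/-- graph on the kernel orbit: vertices at distance at most `C` are adjacent -/
def slab {V : Type} {G : SimpleGraph V} (hs : HS G) (x : V) (C : ℕ) :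
    SimpleGraph ↥(orbK hs x) where
  Adj y z := y ≠ z ∧ G.dist (y : V) z ≤ C
  symm := ⟨fun y z h => ⟨h.1.symm, by rw [SimpleGraph.dist_comm]; exact h.2⟩⟩
  loopless := ⟨fun y h => h.1 rfl⟩

/-- `(i, j) ↦ s^i g^j x` is a quasi-isometry from the square lattice onto the graph -/
structure LatQI {V : Type} (G : SimpleGraph V) (s g : G ≃g G) (x : V) (C : ℕ) : Prop where
  q1 : ∀ j : ℤ, G.dist ((g ^ j) x) (s ((g ^ j) x)) ≤ C
  q2 : ∀ i j i' j' : ℤ, |i - i'| + |j - j'| ≤
    C * (G.dist ((s ^ i) ((g ^ j) x)) ((s ^ i') ((g ^ j') x)) + 1)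
  q3 : ∀ v, ∃ i j : ℤ, G.dist v ((s ^ i) ((g ^ j) x)) ≤ C

/-- region of a row of tubes: near the lattice rectangle, and everything below height `u x` is near
the bottom connectors -/
def RowReg {V : Type} (G : SimpleGraph V) (u : V → ℝ) (s g : G ≃g G) (x : V)
    (Ce J b iB N : ℕ) : Set V :=
  {v | (∃ i j : ℤ, 0 ≤ i ∧ i ≤ iB ∧ -(J : ℤ) ≤ j ∧ j ≤ N + J ∧
      G.dist v ((s ^ i) ((g ^ j) x)) ≤ Ce) ∧
    (u v < u x → ∃ i j : ℤ, (b : ℤ) ≤ i ∧ i ≤ iB - b ∧ -(J : ℤ) ≤ j ∧ j ≤ 0 ∧
      G.dist v ((s ^ i) ((g ^ j) x)) ≤ Ce)}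

end Pool.H61.ST

end S_H61_ST_Defs2

section S_H61_SWHeight

set_option autoImplicit false
open Filter Topology

/-! Uniform Hammersley-Welsh bound and the limit argument. -/

namespace Pool.Agent.H61.SW

variable {V : Type*} {G : SimpleGraph V}

/-- uniform bound with a transitive height function -/
theorem height_bound (hlf : ∀ v, (G.neighborSet v).Finite) (hc : G.Connected) (o : V)
    {μ : ℝ} (hμ : Tendsto (fun n : ℕ => (cnt (sa G) o n : ℝ) ^ ((1 : ℝ) / n)) atTop (𝓝 μ))
    {h : V → ℝ} (hh : HasHeight G h) (δ : ℝ) (hδ : 0 < δ) (hδ1 : δ < 1) (L : ℕ) (hL : 0 < L)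
    (n : ℕ) :
    ∃ t : ℕ, t ≤ Set.ncard {v | G.dist o v ≤ L} ∧
    (cnt (sa G) o n : ℝ) ≤ (2 * μ / δ) ^ (2 * t + 2 + n / L) * (μ / (1 - δ)) ^ n := by
  classical
  have heq : ∀ v n, cnt (sa G) v n = cnt (sa G) o n := by
    intro v n
    obtain ⟨φ, h1, -⟩ := hh.2 o v
    rw [← h1]
    exact cnt_map (sa G) φ o (fun s => sa_map φ o s) n
  have hμ0 : 0 ≤ μ := ge_of_tendsto' hμ fun n => Real.rpow_nonneg (Nat.cast_nonneg _) _
  have hfin := ball_finite hlf hc o L
  set T : Finset ℝ := hfin.toFinset.image (fun z => |h z - h o|) with hT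
  refine ⟨T.card, ?_, ?_⟩
  · rw [Set.ncard_eq_toFinset_card _ hfin]
    exact Finset.card_image_le
  · refine sa_count hlf μ μ δ hμ0 hμ0 hδ hδ1
      (fun v l => cnt_wb_le hlf hc o heq hμ hh v l)
      (fun v l => cnt_wb_le hlf hc o heq hμ hh.neg v l) L hL T ?_ n o
    intro v s hs hsL
    obtain ⟨φ, h1, h2⟩ := hh.2 v o
    rw [hT, Finset.mem_image]
    refine ⟨φ (en v s), ?_, ?_⟩
    · simp only [Set.Finite.mem_toFinset, Set.mem_ofPred_eq]
      rw [← en_map φ v s, h1]
      have := dist_en_le o (s.map φ) (by rw [← h1]; exact (ch_map φ v s).2 hs)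
      rw [List.length_map] at this
      omega
    · have := h2 (en v s) v
      rw [h1] at this
      rw [this]

/-- limit argument: uniform bounds give lower semicontinuity -/
lemma liminf_arg (μ : ℝ) (D : ℝ) (hD : 1 ≤ D) (hμ : 0 < μ) (VL : ℕ → ℕ) (a : ℝ) (ha : a < μ) :
    ∃ n : ℕ, 0 < n ∧ ∃ L : ℕ, 0 < L ∧ ∃ δ : ℝ, 0 < δ ∧ δ < 1 ∧
      ∀ m : ℝ, 0 ≤ m → m ≤ D → ∀ t : ℕ, t ≤ VL L →
        μ ^ n ≤ (2 * m / δ) ^ (2 * t + 2 + n / L) * (m / (1 - δ)) ^ n → a < m := by
  -- choose δ, then L, then n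
  have h1 : ∃ δ : ℝ, 0 < δ ∧ δ < 1 ∧ a < μ * (1 - δ) := by
    have hlim : Tendsto (fun δ : ℝ => μ * (1 - δ)) (𝓝[>] 0) (𝓝 (μ * (1 - 0))) :=
      ((continuous_const.mul (continuous_const.sub continuous_id)).tendsto 0).mono_left
        nhdsWithin_le_nhds
    have hev : ∀ᶠ δ : ℝ in 𝓝[>] 0, a < μ * (1 - δ) :=
      hlim.eventually (lt_mem_nhds (by simpa using ha))
    have hev2 : ∀ᶠ δ : ℝ in 𝓝[>] 0, δ ∈ Set.Ioo (0 : ℝ) 1 :=
      Ioo_mem_nhdsGT one_pos
    obtain ⟨δ, h2, h3⟩ := (hev.and hev2).exists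
    exact ⟨δ, h3.1, h3.2, h2⟩
  obtain ⟨δ, hδ, hδ1, haδ⟩ := h1
  set A : ℝ := 2 * D / δ with hA
  have hA1 : 1 < A := by rw [hA, lt_div_iff₀ hδ]; nlinarith
  have hA0 : 0 < A := by linarith
  have hb : 0 < μ * (1 - δ) := mul_pos hμ (by linarith)
  -- choose L
  have h2 : ∃ L : ℕ, 0 < L ∧ a * A ^ ((1 : ℝ) / L) < μ * (1 - δ) := by
    have hlim : Tendsto (fun L : ℕ => a * A ^ ((1 : ℝ) / L)) atTop (𝓝 (a * A ^ (0 : ℝ))) := by
      refine Tendsto.const_mul a ?_
      exact (Real.continuous_const_rpow hA0.ne').continuousAt.tendsto.comp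
        (tendsto_one_div_atTop_nhds_zero_nat)
    have haδ' : a * A ^ (0 : ℝ) < μ * (1 - δ) := by simpa using haδ
    have hev := hlim.eventually (gt_mem_nhds haδ')
    obtain ⟨L, h3, h4⟩ := (hev.and (eventually_gt_atTop 0)).exists
    exact ⟨L, h4, h3⟩
  obtain ⟨L, hL, haL⟩ := h2
  -- choose n
  set W : ℕ := 2 * VL L + 2 with hW
  have h3 : ∃ n : ℕ, 0 < n ∧ a * A ^ ((W : ℝ) / n + 1 / L) < μ * (1 - δ) := by
    have hlim : Tendsto (fun n : ℕ => a * A ^ ((W : ℝ) / n + 1 / L)) atTop
        (𝓝 (a * A ^ ((0 : ℝ) + 1 / L))) := by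
      refine Tendsto.const_mul a ?_
      refine (Real.continuous_const_rpow hA0.ne').continuousAt.tendsto.comp ?_
      exact (tendsto_const_div_atTop_nhds_zero_nat (W : ℝ)).add_const _
    have haL' : a * A ^ ((0 : ℝ) + 1 / L) < μ * (1 - δ) := by simpa using haL
    have hev := hlim.eventually (gt_mem_nhds haL')
    obtain ⟨n, h3, h4⟩ := (hev.and (eventually_gt_atTop 0)).exists
    exact ⟨n, h4, h3⟩
  obtain ⟨n, hn, han⟩ := h3
  refine ⟨n, hn, L, hL, δ, hδ, hδ1, ?_⟩
  intro m hm hmD t ht hineq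
  by_contra hcon
  push Not at hcon
  have hn' : (0 : ℝ) < n := by exact_mod_cast hn
  have hL' : (0 : ℝ) < L := by exact_mod_cast hL
  have h4 : (2 * m / δ) ^ (2 * t + 2 + n / L) ≤ A ^ (W + n / L) := by
    calc (2 * m / δ) ^ (2 * t + 2 + n / L) ≤ A ^ (2 * t + 2 + n / L) := by
          apply pow_le_pow_left₀ (by positivity)
          rw [hA]; gcongr
      _ ≤ A ^ (W + n / L) := pow_le_pow_right₀ hA1.le (by omega)
  have h5 : A ^ (W + n / L) ≤ A ^ (((W : ℝ) / n + 1 / L) * n) := by
    rw [← Real.rpow_natCast]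
    apply Real.rpow_le_rpow_of_exponent_le hA1.le
    push_cast
    have h6 : ((n / L : ℕ) : ℝ) ≤ (n : ℝ) / L := Nat.cast_div_le
    have h7 : ((W : ℝ) / n + 1 / L) * n = W + n / L := by field_simp
    rw [h7]; linarith
  have h8 : (m / (1 - δ)) ^ n ≤ (a / (1 - δ)) ^ n := by
    apply pow_le_pow_left₀ (div_nonneg hm (by linarith))
    apply div_le_div_of_nonneg_right hcon (by linarith)
  have ha0 : 0 ≤ a := hm.trans hcon
  have h9 : μ ^ n ≤ A ^ (((W : ℝ) / n + 1 / L) * n) * (a / (1 - δ)) ^ n :=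
    hineq.trans (mul_le_mul (h4.trans h5) h8 (pow_nonneg (div_nonneg hm (by linarith)) _)
      (Real.rpow_nonneg hA0.le _))
  rw [Real.rpow_mul hA0.le, Real.rpow_natCast, ← mul_pow] at h9
  have h10 : μ ≤ A ^ ((W : ℝ) / n + 1 / L) * (a / (1 - δ)) := by
    refine le_of_pow_le_pow_left₀ hn.ne' ?_ h9
    exact mul_nonneg (Real.rpow_nonneg hA0.le _) (div_nonneg ha0 (by linarith))
  have h11 : μ * (1 - δ) ≤ a * A ^ ((W : ℝ) / n + 1 / L) := by
    have h12 : (0 : ℝ) < 1 - δ := by linarith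
    calc μ * (1 - δ) ≤ (A ^ ((W : ℝ) / n + 1 / L) * (a / (1 - δ))) * (1 - δ) :=
          mul_le_mul_of_nonneg_right h10 h12.le
      _ = a * A ^ ((W : ℝ) / n + 1 / L) := by field_simp
  linarith

end Pool.Agent.H61.SW

end S_H61_SWHeight

section S_H98_C_Net

set_option autoImplicit false

/-! Nets, collisions. -/

namespace Pool.H98.C

open Finset Pool.Agent.H61.SW Classical

variable {V : Type} {G : SimpleGraph V} (hG : TG G)

theorem exists_net (o x : V) (D ρ : ℕ) : ∃ N : Finset V, (∀ n ∈ N, G.dist x n ≤ D) ∧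
    (∀ y, G.dist x y ≤ D → ∃ n ∈ N, G.dist n y ≤ ρ) ∧
    N.card * (bl hG o (ρ / 2)).card ≤ (bl hG o (D + ρ / 2)).card := by
  classical
  set 𝓕 : Finset (Finset V) := (bl hG x D).powerset.filter
    (fun N => ∀ a ∈ N, ∀ b ∈ N, a ≠ b → ρ < G.dist a b) with h𝓕
  have hne : 𝓕.Nonempty := ⟨∅, by simp [h𝓕]⟩
  obtain ⟨N, hN, hmax⟩ := Finset.exists_max_image 𝓕 Finset.card hne
  rw [h𝓕, Finset.mem_filter, Finset.mem_powerset] at hN
  obtain ⟨hsub, hsep⟩ := hN
  have hD : ∀ n ∈ N, G.dist x n ≤ D := fun n hn => (mem_bl hG x n D).1 (hsub hn)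
  refine ⟨N, hD, ?_, ?_⟩
  · intro y hy
    by_contra hcon
    push Not at hcon
    have hyN : y ∉ N := by
      intro h
      have := hcon y h
      simp at this
    have h1 : insert y N ∈ 𝓕 := by
      rw [h𝓕, Finset.mem_filter, Finset.mem_powerset]
      refine ⟨?_, ?_⟩
      · intro z hz
        rcases Finset.mem_insert.1 hz with rfl | hz
        · exact (mem_bl hG x z D).2 hy
        · exact hsub hz
      · intro a ha b hb hab
        rcases Finset.mem_insert.1 ha with rfl | ha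
        · rcases Finset.mem_insert.1 hb with rfl | hb
          · exact absurd rfl hab
          · rw [SimpleGraph.dist_comm]; exact hcon b hb
        · rcases Finset.mem_insert.1 hb with hb | hb
          · rw [hb]; exact hcon a ha
          · exact hsep a ha b hb hab
    have h2 := hmax _ h1
    rw [Finset.card_insert_of_notMem hyN] at h2
    omega
  · have hdisj : (N : Set V).PairwiseDisjoint (fun n => bl hG n (ρ / 2)) := by
      intro a ha b hb hab
      rw [Function.onFun, Finset.disjoint_left]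
      intro z hz1 hz2
      rw [mem_bl] at hz1 hz2
      have h1 := hsep a ha b hb hab
      have h2 := hG.tri a z b
      rw [SimpleGraph.dist_comm (u := z) (v := b)] at h2
      omega
    have h1 : (N.biUnion fun n => bl hG n (ρ / 2)).card = N.card * (bl hG o (ρ / 2)).card := by
      rw [Finset.card_biUnion hdisj, Finset.sum_congr rfl (fun n _ => card_bl hG n o (ρ / 2))]
      simp
    rw [← h1, card_bl hG o x (D + ρ / 2)]
    refine Finset.card_le_card ?_
    intro z hz
    obtain ⟨n, hn, hz⟩ := Finset.mem_biUnion.1 hz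
    rw [mem_bl] at hz ⊢
    have := hG.tri x n z
    have := hD n hn
    omega

private lemma net_class (o x : V) (D ρ : ℕ) {Ω : Type} (F : Ω → V)
    (hF : ∀ ω, G.dist x (F ω) ≤ D) :
    ∃ (N : Finset V) (c : Ω → V), (∀ ω, c ω ∈ N) ∧ (∀ n ∈ N, G.dist x n ≤ D) ∧
      (∀ ω, G.dist (c ω) (F ω) ≤ ρ) ∧
      (N.card : ℝ) * bb hG o (ρ / 2) ≤ bb hG o (D + ρ / 2) := by
  obtain ⟨N, h1, h2, h3⟩ := exists_net hG o x D ρ
  choose c hc1 hc2 using fun ω => h2 (F ω) (hF ω)
  refine ⟨N, c, hc1, h1, hc2, ?_⟩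
  unfold bb
  exact_mod_cast h3

private lemma bb_pos' (o : V) (S : ℕ) : 0 < bb hG o S := by
  unfold bb; exact_mod_cast card_bl_pos hG o S

private lemma sum_Pr_class {Ω : Type} [Fintype Ω] [Nonempty Ω] (N : Finset V) (c : Ω → V)
    (hc : ∀ ω, c ω ∈ N) : ∑ n ∈ N, Pr (fun ω => c ω = n) = 1 := by
  classical
  unfold Pr
  rw [← Ex_sum]
  refine (congrArg Ex (funext fun ω => ?_)).trans (Ex_const (Ω := Ω) (1 : ℝ))
  rw [Finset.sum_ite_eq, if_pos (hc ω)]

theorem collision (o x : V) (D ρ : ℕ) {Ω : Type} [Fintype Ω] [Nonempty Ω] (F : Ω → V)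
    (hF : ∀ ω, G.dist x (F ω) ≤ D) :
    bb hG o (ρ / 2 / 2) / bb hG o (D + ρ / 2 / 2) ≤
      Pr (fun p : Ω × Ω => G.dist (F p.1) (F p.2) ≤ ρ) := by
  classical
  obtain ⟨N, c, hcN, hND, hcF, hcard⟩ := net_class hG o x D (ρ / 2) F hF
  have hsum := sum_Pr_class N c hcN
  have h1 : ∑ n ∈ N, Pr (fun ω => c ω = n) ^ 2 ≤
      Pr (fun p : Ω × Ω => G.dist (F p.1) (F p.2) ≤ ρ) := by
    have h2 : ∀ n ∈ N, Pr (fun ω => c ω = n) ^ 2 =
        Pr (fun p : Ω × Ω => c p.1 = n ∧ c p.2 = n) := by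
      intro n _
      rw [Pr_prod, sq]
      have h3 : ∀ ω, Pr (fun ω' => c ω = n ∧ c ω' = n) =
          (Pr fun ω' => c ω' = n) * (if c ω = n then (1 : ℝ) else 0) := by
        intro ω
        by_cases h : c ω = n
        · simp [h]
        · simp only [h, false_and, if_false, mul_zero]
          unfold Pr Ex
          simp
      simp only [h3]
      rw [Ex_const_mul]
      rfl
    rw [Finset.sum_congr rfl h2]
    unfold Pr
    rw [← Ex_sum]
    refine Ex_mono fun p => ?_
    beta_reduce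
    by_cases h : c p.1 = c p.2
    · have h4 : G.dist (F p.1) (F p.2) ≤ ρ := by
        have h5 := hG.tri (F p.1) (c p.1) (F p.2)
        have h6 := hcF p.1
        have h7 := hcF p.2
        rw [SimpleGraph.dist_comm] at h6
        rw [← h] at h7
        omega
      rw [if_pos h4]
      refine (Finset.sum_congr rfl (g := fun n => if c p.1 = n then (1 : ℝ) else 0)
        (fun n _ => ?_)).trans_le ?_
      · rw [← h]
        by_cases h9 : c p.1 = n <;> simp [h9]
      · rw [Finset.sum_ite_eq]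
        split_ifs <;> norm_num
    · refine (Finset.sum_congr rfl (g := fun _ => (0 : ℝ)) (fun n _ => ?_)).trans_le ?_
      · rw [if_neg]
        rintro ⟨a, b⟩
        exact h (a.trans b.symm)
      · simp only [Finset.sum_const_zero]
        positivity
  refine le_trans ?_ h1
  -- Cauchy-Schwarz
  have hNne : N.Nonempty := ⟨_, hcN (Classical.arbitrary Ω)⟩
  have hNpos : (0 : ℝ) < N.card := by exact_mod_cast hNne.card_pos
  have h9 : (∑ n ∈ N, Pr (fun ω => c ω = n)) ^ 2 ≤
      N.card * ∑ n ∈ N, Pr (fun ω => c ω = n) ^ 2 := sq_sum_le_card_mul_sum_sq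
  rw [hsum, one_pow] at h9
  rw [div_le_iff₀ (bb_pos' hG o _)]
  have hb := bb_pos' hG o (ρ / 2 / 2)
  set T := ∑ n ∈ N, Pr (fun ω => c ω = n) ^ 2 with hT
  have hT0 : 0 ≤ T := Finset.sum_nonneg fun n _ => sq_nonneg _
  calc bb hG o (ρ / 2 / 2) = 1 * bb hG o (ρ / 2 / 2) := (one_mul _).symm
    _ ≤ (N.card * T) * bb hG o (ρ / 2 / 2) := mul_le_mul_of_nonneg_right h9 hb.le
    _ = T * (N.card * bb hG o (ρ / 2 / 2)) := by ring
    _ ≤ T * bb hG o (D + ρ / 2 / 2) := mul_le_mul_of_nonneg_left hcard hT0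

theorem exists_center (o x : V) (D ρ : ℕ) {Ω : Type} [Fintype Ω] [Nonempty Ω] (F : Ω → V)
    (hF : ∀ ω, G.dist x (F ω) ≤ D) :
    ∃ v, G.dist x v ≤ D ∧
      bb hG o (ρ / 2) / bb hG o (D + ρ / 2) ≤ Pr (fun ω : Ω => G.dist (F ω) v ≤ ρ) := by
  classical
  obtain ⟨N, c, hcN, hND, hcF, hcard⟩ := net_class hG o x D ρ F hF
  have hsum := sum_Pr_class N c hcN
  have hNne : N.Nonempty := ⟨_, hcN (Classical.arbitrary Ω)⟩
  obtain ⟨n, hn, hmax⟩ := Finset.exists_max_image N (fun n => Pr (fun ω => c ω = n)) hNne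
  refine ⟨n, hND n hn, ?_⟩
  have h1 : Pr (fun ω => c ω = n) ≤ Pr (fun ω : Ω => G.dist (F ω) n ≤ ρ) := by
    refine Pr_mono fun ω h => ?_
    rw [← h, SimpleGraph.dist_comm]
    exact hcF ω
  refine le_trans ?_ h1
  rw [div_le_iff₀ (bb_pos' hG o _)]
  have h2 : (1 : ℝ) ≤ N.card * Pr (fun ω => c ω = n) := by
    rw [← hsum, ← nsmul_eq_mul]
    exact Finset.sum_le_card_nsmul _ _ _ hmax
  have hb := bb_pos' hG o (ρ / 2)
  calc bb hG o (ρ / 2) = 1 * bb hG o (ρ / 2) := (one_mul _).symm
    _ ≤ (N.card * Pr (fun ω => c ω = n)) * bb hG o (ρ / 2) := mul_le_mul_of_nonneg_right h2 hb.le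
    _ = Pr (fun ω => c ω = n) * (N.card * bb hG o (ρ / 2)) := by ring
    _ ≤ Pr (fun ω => c ω = n) * bb hG o (D + ρ / 2) :=
        mul_le_mul_of_nonneg_left hcard (Pr_nonneg _)

end Pool.H98.C

end S_H98_C_Net

section S_H98_C_Join

set_option autoImplicit false

/-! Deterministic concatenations with loop erasure. -/

namespace Pool.H98.C

open Pool.Agent.H61.SW

variable {V : Type} {G : SimpleGraph V}

lemma nodup_three {A B C : List V} (hA : A.Nodup) (hB : B.Nodup) (hC : C.Nodup)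
    (h1 : ∀ x ∈ A, x ∉ B) (h2 : ∀ x ∈ A, x ∉ C) (h3 : ∀ x ∈ B, x ∉ C) :
    (A ++ (B ++ C)).Nodup := by
  rw [List.nodup_append, List.nodup_append]
  refine ⟨hA, ⟨hB, hC, ?_⟩, ?_⟩
  · rintro a ha b hb rfl
    exact h3 a ha hb
  · rintro a ha b hb rfl
    rcases List.mem_append.1 hb with hb | hb
    · exact h1 a ha hb
    · exact h2 a ha hb

theorem join_det {z1 z2 : V} {a1 c1 b1 a2 c2 b2 κ : List V} {g : G ≃g G}
    (h1 : sa G z1 (a1 ++ (c1 ++ b1))) (h2 : sa G z2 (a2 ++ (c2 ++ b2)))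
    (hκ : ch G (en z1 (a1 ++ (c1 ++ b1))) κ)
    (hκe : en (en z1 (a1 ++ (c1 ++ b1))) κ = g z2)
    (D1 : ∀ x ∈ κ, x ∉ z1 :: (a1 ++ c1))
    (D2 : ∀ x ∈ κ, x = g z2 ∨ ∀ y ∈ en z2 a2 :: (c2 ++ b2), x ≠ g y)
    (D3 : ∀ x ∈ z1 :: (a1 ++ (c1 ++ b1)), ∀ y ∈ z2 :: (a2 ++ (c2 ++ b2)), x ≠ g y) :
    ∃ π : List V, π.length ≤ b1.length + κ.length + a2.length ∧
      (∀ x ∈ π, x ∈ b1 ∨ x ∈ κ ∨ ∃ y ∈ a2, x = g y) ∧
      en (en z1 (a1 ++ c1)) π = g (en z2 a2) ∧
      sa G z1 (a1 ++ ((c1 ++ (π ++ c2.map g)) ++ b2.map g)) ∧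
      en z1 (a1 ++ ((c1 ++ (π ++ c2.map g)) ++ b2.map g)) = g (en z2 (a2 ++ (c2 ++ b2))) := by
  have hs1 : a1 ++ (c1 ++ b1) = (a1 ++ c1) ++ b1 := by simp
  have hs2 : a2 ++ (c2 ++ b2) = a2 ++ (c2 ++ b2) := rfl
  set m1 := en z1 (a1 ++ c1) with hm1
  -- the walk to be loop-erased
  have hch1 : ch G m1 b1 := by
    have := h1.1
    rw [hs1, ch_append] at this
    exact this.2
  have hu : en z1 (a1 ++ (c1 ++ b1)) = en m1 b1 := by rw [hs1, en_append]
  have hch2 : ch G z2 a2 := ((ch_append _ _ _).1 h2.1).1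
  have hw : ch G m1 (b1 ++ (κ ++ a2.map g)) := by
    rw [ch_append, ch_append, ← hu, hκe]
    exact ⟨hch1, hκ, (ch_map g z2 a2).2 hch2⟩
  have hwe : en m1 (b1 ++ (κ ++ a2.map g)) = g (en z2 a2) := by
    rw [en_append, en_append, ← hu, hκe, en_map]
  obtain ⟨π, p1, p2, p3, p4⟩ := loop_erase m1 _ hw
  have pmem : ∀ x ∈ π, x ∈ b1 ∨ x ∈ κ ∨ ∃ y ∈ a2, x = g y := by
    intro x hx
    rcases List.mem_append.1 (p4 x hx) with h | h
    · exact Or.inl h
    rcases List.mem_append.1 h with h | h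
    · exact Or.inr (Or.inl h)
    · obtain ⟨y, hy, rfl⟩ := List.mem_map.1 h
      exact Or.inr (Or.inr ⟨y, hy, rfl⟩)
  have hπe : en m1 π = g (en z2 a2) := p2.trans hwe
  have nd1 : ((z1 :: (a1 ++ c1)) ++ b1).Nodup := by
    have := h1.2
    rw [hs1] at this
    simpa using this
  have nd2 : ((z2 :: a2) ++ (c2 ++ b2)).Nodup := by simpa using h2.2
  rw [List.nodup_append] at nd1 nd2
  refine ⟨π, ?_, pmem, hπe, ⟨?_, ?_⟩, ?_⟩
  · have : (b1 ++ (κ ++ a2.map g)).length = b1.length + κ.length + a2.length := by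
      simp; omega
    omega
  · have e : a1 ++ ((c1 ++ (π ++ c2.map g)) ++ b2.map g) =
        (a1 ++ c1) ++ (π ++ (c2 ++ b2).map g) := by simp
    rw [e]
    refine (ch_append _ _ _).2 ⟨?_, (ch_append _ _ _).2 ⟨p1.1, ?_⟩⟩
    · have := h1.1
      rw [hs1, ch_append] at this
      exact this.1
    · rw [← hm1, hπe]
      exact (ch_map g _ _).2 ((ch_append _ _ _).1 h2.1).2
  · have e : z1 :: (a1 ++ ((c1 ++ (π ++ c2.map g)) ++ b2.map g)) =
        (z1 :: (a1 ++ c1)) ++ (π ++ (c2 ++ b2).map g) := by simp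
    rw [e]
    refine nodup_three nd1.1 (List.nodup_cons.1 p1.2).2 (nd2.2.1.map g.injective) ?_ ?_ ?_
    · intro x hx hxπ
      rcases pmem x hxπ with h | h | ⟨y, hy, rfl⟩
      · exact nd1.2.2 x hx x h rfl
      · exact D1 x h hx
      · refine D3 _ ?_ y (by simp [hy]) rfl
        rcases List.mem_cons.1 hx with h | h
        · simp [h]
        · rcases List.mem_append.1 h with h | h <;> simp [h]
    · intro x hx hxc
      obtain ⟨y, hy, rfl⟩ := List.mem_map.1 hxc
      refine D3 _ ?_ y ?_ rfl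
      · rcases List.mem_cons.1 hx with h | h
        · simp [h]
        · rcases List.mem_append.1 h with h | h <;> simp [h]
      · rcases List.mem_append.1 hy with h | h <;> simp [h]
    · intro x hx hxc
      obtain ⟨y, hy, rfl⟩ := List.mem_map.1 hxc
      rcases pmem _ hx with h | h | ⟨y', hy', hyy⟩
      · refine D3 (g y) (by simp [h]) y ?_ rfl
        rcases List.mem_append.1 hy with h | h <;> simp [h]
      · rcases D2 _ h with h | h
        · have hz : y = z2 := g.injective h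
          subst hz
          exact nd2.2.2 y (by simp) y hy rfl
        · exact h y (List.mem_cons_of_mem _ hy) rfl
      · have hz : y = y' := g.injective hyy
        subst hz
        exact nd2.2.2 y (by simp [hy']) y hy rfl
  · have e : a1 ++ ((c1 ++ (π ++ c2.map g)) ++ b2.map g) =
        (a1 ++ c1) ++ (π ++ (c2 ++ b2).map g) := by simp
    rw [e, en_append, en_append, ← hm1, hπe, en_map, en_append z2 a2]

theorem raise_det {z : V} {a c b p q : List V} (h : sa G z (a ++ (c ++ b)))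
    (hp : ch G z p) (hq : ch G (en z (a ++ (c ++ b))) q)
    (D1 : ∀ x ∈ p, x ∉ en z a :: (c ++ b)) (D2 : ∀ x ∈ q, x ∉ z :: (a ++ c))
    (D3 : ∀ x ∈ p, x ∉ q) :
    ∃ a' b' : List V, en (en z p) a' = en z a ∧ a'.length ≤ p.length + a.length ∧
      b'.length ≤ b.length + q.length ∧ sa G (en z p) (a' ++ (c ++ b')) ∧
      en (en z p) (a' ++ (c ++ b')) = en (en z (a ++ (c ++ b))) q ∧
      (∀ x ∈ en z p :: a', x ∈ z :: a ∨ x ∈ p) ∧ (∀ x ∈ b', x ∈ b ∨ x ∈ q) := by
  have hcha : ch G z a := ((ch_append _ _ _).1 h.1).1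
  have hchcb : ch G (en z a) (c ++ b) := ((ch_append _ _ _).1 h.1).2
  have hchc : ch G (en z a) c := ((ch_append _ _ _).1 hchcb).1
  have hchb : ch G (en (en z a) c) b := ((ch_append _ _ _).1 hchcb).2
  have hw1 : ch G (en z p) (rv z p ++ a) := by
    rw [ch_append, en_rv]
    exact ⟨ch_rv z p hp, hcha⟩
  obtain ⟨a', A1, A2, A3, A4⟩ := loop_erase (en z p) _ hw1
  rw [en_append, en_rv] at A2
  have hq' : ch G (en (en (en z a) c) b) q := by
    rw [← en_append, ← en_append]
    exact hq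
  have hw2 : ch G (en (en z a) c) (b ++ q) := by
    rw [ch_append]
    exact ⟨hchb, hq'⟩
  obtain ⟨b', B1, B2, B3, B4⟩ := loop_erase (en (en z a) c) _ hw2
  have memA : ∀ x ∈ en z p :: a', x ∈ z :: a ∨ x ∈ p := by
    have hzp : ∀ x ∈ en z p :: rv z p, x ∈ z :: a ∨ x ∈ p := by
      intro x hx
      rcases List.mem_cons.1 (mem_rv.1 hx) with rfl | hx
      · exact Or.inl (by simp)
      · exact Or.inr hx
    intro x hx
    rcases List.mem_cons.1 hx with rfl | hx
    · exact hzp _ (by simp)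
    · rcases List.mem_append.1 (A4 x hx) with hx | hx
      · exact hzp _ (List.mem_cons_of_mem _ hx)
      · exact Or.inl (List.mem_cons_of_mem _ hx)
  have memB : ∀ x ∈ b', x ∈ b ∨ x ∈ q := fun x hx => List.mem_append.1 (B4 x hx)
  have nd : ((z :: a) ++ (c ++ b)).Nodup := by simpa using h.2
  rw [List.nodup_append, List.nodup_append] at nd
  obtain ⟨n1, ⟨n2, n3, n4⟩, n5⟩ := nd
  refine ⟨a', b', A2, ?_, ?_, ⟨?_, ?_⟩, ?_, memA, memB⟩
  · have := A3
    rw [List.length_append, length_rv] at this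
    exact this
  · simpa using B3
  · rw [ch_append, ch_append, A2]
    exact ⟨A1.1, hchc, B1.1⟩
  · have e : en z p :: (a' ++ (c ++ b')) = (en z p :: a') ++ (c ++ b') := by simp
    rw [e]
    refine nodup_three A1.2 n2 (List.nodup_cons.1 B1.2).2 ?_ ?_ ?_
    · intro x hx hxc
      rcases memA x hx with hx | hx
      · exact n5 x hx x (List.mem_append_left _ hxc) rfl
      · exact D1 x hx (by simp [hxc])
    · intro x hx hxb
      rcases memA x hx with hx | hx
      · rcases memB x hxb with hxb | hxb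
        · exact n5 x hx x (List.mem_append_right _ hxb) rfl
        · refine D2 x hxb ?_
          rcases List.mem_cons.1 hx with h | h <;> simp [h]
      · rcases memB x hxb with hxb | hxb
        · exact D1 x hx (by simp [hxb])
        · exact D3 x hx hxb
    · intro x hx hxb
      rcases memB x hxb with hxb | hxb
      · exact n4 x hx x hxb rfl
      · exact D2 x hxb (by simp [hx])
  · rw [en_append, A2, en_append, B2, en_append, ← en_append (en z a) c b, ← en_append z a (c ++ b)]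

end Pool.H98.C

end S_H98_C_Join

section S_H61_ST_Act

set_option autoImplicit false

/-! The action of the automorphism group on functions vanishing at the base point. -/

namespace Pool.H61.ST

open Finset Pool.Agent.H61.SW Pool.H98.C

variable {V : Type} {G : SimpleGraph V}

/-- action on functions vanishing at `o` -/
def act (o : V) (g : G ≃g G) (u : V → ℝ) : V → ℝ := fun x => u (g.symm x) - u (g.symm o)

end Pool.H61.ST

end S_H61_ST_Act

section S_H61_ST_StrCore

set_option autoImplicit false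

/-! Strict height structures (core: the two statements of module POIS are hypotheses). -/

namespace Pool.H61.ST

open Finset Pool.Agent.H61.SW Pool.H98.C

variable {V : Type} {G : SimpleGraph V} (hG : TG G)

/-- pairs: homomorphism and equivariant harmonic function -/
structure HP (Γ : Subgroup (G ≃g G)) (ψ : (G ≃g G) → ℤ) (u : V → ℝ) : Prop where
  mul : ∀ g ∈ Γ, ∀ h ∈ Γ, ψ (g * h) = ψ g + ψ h
  equi : ∀ g ∈ Γ, ∀ x, u (g x) = u x + ψ g
  harm : ∀ x, lap hG u x = 0

/-- the function is locally constant at `x` -/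
def Bad (G : SimpleGraph V) (u : V → ℝ) (x : V) : Prop := ∀ y, G.Adj x y → u y = u x

variable {hG}

lemma HP.add {Γ : Subgroup (G ≃g G)} {ψ ψ' : (G ≃g G) → ℤ} {u u' : V → ℝ}
    (h : HP hG Γ ψ u) (h' : HP hG Γ ψ' u') (n : ℤ) :
    HP hG Γ (fun g => ψ g + n * ψ' g) (fun x => u x + n * u' x) := by
  refine ⟨fun g hg k hk => ?_, fun g hg x => ?_, fun x => ?_⟩
  · simp only [h.mul g hg k hk, h'.mul g hg k hk]; ring
  · simp only [h.equi g hg x, h'.equi g hg x]; push_cast; ring
  · have : (fun x => u x + n * u' x) = u + (n : ℝ) • u' := by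
      ext x; simp
    rw [this, lap_add, lap_smul, h.harm, h'.harm]; simp

lemma HP.conj {Γ : Subgroup (G ≃g G)} (hn : Γ.Normal) {ψ : (G ≃g G) → ℤ} {u : V → ℝ}
    (h : HP hG Γ ψ u) (k : G ≃g G) :
    HP hG Γ (fun g => ψ (k * g * k⁻¹)) (fun x => u (k x)) := by
  refine ⟨fun g hg g' hg' => ?_, fun g hg x => ?_, fun x => ?_⟩
  · rw [← h.mul _ (hn.conj_mem g hg k) _ (hn.conj_mem g' hg' k)]
    congr 1
    group
  · have h1 := h.equi _ (hn.conj_mem g hg k) (k x)
    have h2 : (k * g * k⁻¹ : G ≃g G) (k x) = k (g x) := by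
      rw [RelIso.mul_apply, RelIso.mul_apply]
      congr 2
      exact RelIso.inv_apply_self k x
    rw [h2] at h1
    exact h1
  · have := lap_comp hG k u x
    rw [h.harm] at this
    exact this

lemma bad_conj (u : V → ℝ) (k : G ≃g G) (x : V) (h : Bad G (fun z => u (k z)) x) :
    Bad G u (k x) := by
  intro y hy
  have h1 := h (k.symm y) (by
    rw [← k.map_adj_iff, k.apply_symm_apply]; exact hy)
  simpa using h1

lemma HP.bad_orbit {Γ : Subgroup (G ≃g G)} {ψ : (G ≃g G) → ℤ} {u : V → ℝ}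
    (h : HP hG Γ ψ u) (g : G ≃g G) (hg : g ∈ Γ) (x : V) (hb : Bad G u (g x)) : Bad G u x := by
  intro y hy
  have h1 := hb (g y) (g.map_adj_iff.2 hy)
  rw [h.equi g hg, h.equi g hg] at h1
  linarith

lemma bad_comb {u u' : V → ℝ} {x : V} {n m : ℤ} (hnm : n ≠ m)
    (h1 : Bad G (fun x => u x + n * u' x) x) (h2 : Bad G (fun x => u x + m * u' x) x) :
    Bad G u x ∧ Bad G u' x := by
  have hne : (n : ℝ) - m ≠ 0 := by
    rw [sub_ne_zero]; exact_mod_cast hnm
  have key : Bad G u' x := by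
    intro y hy
    have a1 := h1 y hy
    have a2 := h2 y hy
    simp only at a1 a2
    have : ((n : ℝ) - m) * (u' y - u' x) = 0 := by linarith
    rcases mul_eq_zero.1 this with h | h
    · exact absurd h hne
    · linarith
  refine ⟨fun y hy => ?_, key⟩
  have a1 := h1 y hy
  have a3 := key y hy
  simp only at a1
  rw [a3] at a1
  linarith

/-- simultaneous avoidance -/
lemma exists_good (Γ : Subgroup (G ≃g G)) (h0 : ∃ ψ u, HP hG Γ ψ u)
    (hx : ∀ x, ∃ ψ u, HP hG Γ ψ u ∧ ¬ Bad G u x) (S : Finset V) :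
    ∃ ψ u, HP hG Γ ψ u ∧ ∀ x ∈ S, ¬ Bad G u x := by
  classical
  induction S using Finset.induction_on with
  | empty =>
    obtain ⟨ψ, u, h⟩ := h0
    exact ⟨ψ, u, h, by simp⟩
  | insert a S ha ih =>
    obtain ⟨ψ, u, h, hS⟩ := ih
    obtain ⟨ψ', u', h', ha'⟩ := hx a
    -- for each `x` at most one bad integer
    have key : ∀ x ∈ insert a S, {n : ℤ | Bad G (fun x => u x + n * u' x) x}.Finite := by
      intro x hxS
      apply Set.Subsingleton.finite
      intro n hn m hm
      by_contra hnm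
      obtain ⟨b1, b2⟩ := bad_comb hnm hn hm
      rcases Finset.mem_insert.1 hxS with rfl | hxS
      · exact ha' b2
      · exact hS x hxS b1
    have hfin : (⋃ x ∈ insert a S, {n : ℤ | Bad G (fun x => u x + n * u' x) x}).Finite :=
      Set.Finite.biUnion (Finset.finite_toSet _) key
    obtain ⟨n, hn⟩ := hfin.exists_notMem
    refine ⟨_, _, h.add h' n, fun x hxS hb => hn ?_⟩
    simp only [Set.mem_iUnion]
    exact ⟨x, hxS, hb⟩

/-- finitely many orbits of a finite index subgroup -/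
lemma exists_orbit_reps (hG : TG G) (o : V) (Γ : Subgroup (G ≃g G)) (hfi : Γ.FiniteIndex) :
    ∃ S : Finset V, ∀ x, ∃ y ∈ S, ∃ g ∈ Γ, g x = y := by
  classical
  have : Finite ((G ≃g G) ⧸ Γ) := Subgroup.finite_quotient_of_finiteIndex
  have := Fintype.ofFinite ((G ≃g G) ⧸ Γ)
  refine ⟨Finset.univ.image fun q : (G ≃g G) ⧸ Γ => (q.out⁻¹ : G ≃g G) o, fun x => ?_⟩
  obtain ⟨k, hk⟩ := hG.tr o x
  -- `k⁻¹ = q.out * g` with `g ∈ Γ`
  let q : (G ≃g G) ⧸ Γ := QuotientGroup.mk (k⁻¹)
  refine ⟨(q.out⁻¹ : G ≃g G) o, Finset.mem_image_of_mem _ (Finset.mem_univ q),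
    (q.out⁻¹ * k⁻¹ : G ≃g G), ?_, ?_⟩
  · exact QuotientGroup.eq.1 (by simp [q])
  · rw [RelIso.mul_apply]
    congr 1
    rw [← hk]
    exact RelIso.inv_apply_self k o

theorem exists_HS_core (hG : TG G) (o : V)
    (hrep : ∀ (Γ₁ : Subgroup (G ≃g G)), Γ₁.Normal → Γ₁.FiniteIndex → ∀ (χ : (G ≃g G) → ℤ),
      (∀ g ∈ Γ₁, ∀ h ∈ Γ₁, χ (g * h) = χ g + χ h) →
      (∀ g ∈ Γ₁, ∀ x, g x = x → χ g = 0) →
      ∃ u : V → ℝ, (∀ g ∈ Γ₁, ∀ x, u (g x) = u x + χ g) ∧ ∀ x, lap hG u x = 0)
    (hconst : ∀ (Γ₁ : Subgroup (G ≃g G)), Γ₁.FiniteIndex → ∀ (u : V → ℝ),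
      (∀ g ∈ Γ₁, ∀ x, u (g x) = u x) → (∀ x, lap hG u x = 0) → ∀ x y, u x = u y)
    (Γ₁ : Subgroup (G ≃g G)) (hfi : Γ₁.FiniteIndex) (χ : (G ≃g G) → ℤ)
    (hmul : ∀ g ∈ Γ₁, ∀ h ∈ Γ₁, χ (g * h) = χ g + χ h) (hne : ∃ g ∈ Γ₁, χ g ≠ 0)
    (hst : ∀ g ∈ Γ₁, ∀ x, g x = x → χ g = 0) : Nonempty (HS G) := by
  classical
  set Γ := Γ₁.normalCore with hΓ
  have hle : Γ ≤ Γ₁ := Subgroup.normalCore_le _
  have hn : Γ.Normal := Subgroup.normalCore_normal _
  have hfi' : Γ.FiniteIndex := Subgroup.finiteIndex_normalCore _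
  -- the restriction is not zero
  obtain ⟨g₀, hg₀, hχ⟩ := hne
  have hone : χ 1 = 0 := by
    have := hmul 1 Γ₁.one_mem 1 Γ₁.one_mem
    rw [mul_one] at this
    linarith
  have hpow : ∀ n : ℕ, χ (g₀ ^ n) = n * χ g₀ := by
    intro n
    induction n with
    | zero => simp [hone]
    | succ n ih =>
      rw [pow_succ, hmul _ (Γ₁.pow_mem hg₀ n) _ hg₀, ih]
      push_cast; ring
  obtain ⟨n, hn0, hnΓ⟩ : ∃ n : ℕ, 0 < n ∧ g₀ ^ n ∈ Γ := by
    obtain ⟨n, h1, -, h2⟩ := Subgroup.exists_pow_mem_of_index_ne_zero hfi'.index_ne_zero g₀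
    exact ⟨n, h1, h2⟩
  obtain ⟨u₀, hu1, hu2⟩ := hrep Γ hn hfi' χ (fun g hg h hh => hmul g (hle hg) h (hle hh))
    (fun g hg x hx => hst g (hle hg) x hx)
  have hp0 : HP hG Γ χ u₀ := ⟨fun g hg h hh => hmul g (hle hg) h (hle hh), hu1, hu2⟩
  -- some vertex is good
  obtain ⟨x₀, hx₀⟩ : ∃ x, ¬ Bad G u₀ x := by
    by_contra hcon
    push Not at hcon
    have hc : ∀ x y, u₀ x = u₀ y := by
      intro x y
      obtain ⟨p⟩ := hG.conn.preconnected x y
      induction p with
      | nil => rfl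
      | cons h p ih => rw [← ih, hcon _ _ h]
    have h1 := hu1 _ hnΓ o
    rw [hc _ o, hpow] at h1
    have h2 : ((n * χ g₀ : ℤ) : ℝ) = 0 := by linarith
    have h3 : (n * χ g₀ : ℤ) = 0 := by exact_mod_cast h2
    rcases mul_eq_zero.1 h3 with h | h
    · have : n = 0 := by exact_mod_cast h
      omega
    · exact hχ h
  have hx : ∀ x, ∃ ψ u, HP hG Γ ψ u ∧ ¬ Bad G u x := by
    intro x
    obtain ⟨k, hk⟩ := hG.tr x x₀
    refine ⟨_, _, hp0.conj hn k, fun hb => hx₀ ?_⟩
    rw [← hk]
    exact bad_conj u₀ k x hb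
  obtain ⟨S, hS⟩ := exists_orbit_reps hG o Γ hfi'
  obtain ⟨ψ, u, hp, hgood⟩ := exists_good Γ ⟨_, _, hp0⟩ hx S
  have hall : ∀ x, ¬ Bad G u x := by
    intro x hb
    obtain ⟨y, hy, g, hg, rfl⟩ := hS x
    apply hgood _ hy
    have h1 : (g⁻¹ : G ≃g G) (g x) = x := RelIso.inv_apply_self g x
    exact hp.bad_orbit g⁻¹ (Γ.inv_mem hg) (g x) (by rw [h1]; exact hb)
  have hex : ∀ x, ∃ y, G.Adj x y ∧ u y - u x ≠ 0 := by
    intro x
    have := hall x
    unfold Bad at this
    push Not at this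
    obtain ⟨y, hy, hne⟩ := this
    exact ⟨y, hy, sub_ne_zero.2 hne⟩
  refine ⟨⟨Γ, hn, hfi', ψ, hp.mul, ?_, u, hp.equi, ?_, ?_⟩⟩
  · by_contra hcon
    push Not at hcon
    have hinv : ∀ g ∈ Γ, ∀ x, u (g x) = u x := by
      intro g hg x
      rw [hp.equi g hg, hcon g hg]; simp
    obtain ⟨y, hy, h⟩ := hex o
    exact h (sub_eq_zero.2 (hconst Γ hfi' u hinv hp.harm y o))
  · intro x
    obtain ⟨y, hy, h⟩ := hex x
    obtain ⟨z, hz, hz0⟩ := Finset.exists_pos_of_sum_zero_of_exists_nonzero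
      (fun y => u y - u x) (hp.harm x) ⟨y, (mem_nb hG).2 hy, h⟩
    exact ⟨z, (mem_nb hG).1 hz, by linarith⟩
  · intro x
    obtain ⟨y, hy, h⟩ := hex x
    obtain ⟨z, hz, hz0⟩ := Finset.exists_pos_of_sum_zero_of_exists_nonzero
      (fun y => -(u y - u x)) (by
        have := hp.harm x
        unfold lap at this
        rw [Finset.sum_neg_distrib, this, neg_zero]) ⟨y, (mem_nb hG).2 hy, neg_ne_zero.2 h⟩
    exact ⟨z, (mem_nb hG).1 hz, by linarith⟩

end Pool.H61.ST

end S_H61_ST_StrCore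

section S_H61_ST_Hwd

set_option autoImplicit false

/-! Hammersley-Welsh decomposition of self-avoiding walks into monotone pieces. -/

namespace Pool.H61.ST

open Finset Pool.Agent.H61.SW Pool.H98.C

variable {V : Type} {G : SimpleGraph V}

/-- monotone pieces: start and end are the extreme heights -/
def Pc (G : SimpleGraph V) (u : V → ℝ) (v : V) (c : List V) : Prop :=
  sa G v c ∧ ((∀ z ∈ v :: c, u v ≤ u z ∧ u z ≤ u (en v c)) ∨
    (∀ z ∈ v :: c, u z ≤ u v ∧ u (en v c) ≤ u z))

lemma Pc_neg (u : V → ℝ) (v : V) (c : List V) : Pc G (-u) v c ↔ Pc G u v c := by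
  unfold Pc
  simp only [Pi.neg_apply, neg_le_neg_iff]
  constructor
  · rintro ⟨h, h1 | h1⟩
    · exact ⟨h, Or.inr h1⟩
    · exact ⟨h, Or.inl h1⟩
  · rintro ⟨h, h1 | h1⟩
    · exact ⟨h, Or.inr h1⟩
    · exact ⟨h, Or.inl h1⟩

lemma Pc_neg_eq (u : V → ℝ) : Pc G (-u) = Pc G u := by
  funext v c
  exact propext (Pc_neg u v c)

lemma Pc_rv {u : V → ℝ} {v : V} {c : List V} (h : Pc G u v c) : Pc G u (en v c) (rv v c) := by
  obtain ⟨h1, h2⟩ := h
  refine ⟨sa_rv v c h1, ?_⟩
  rw [en_rv]
  rcases h2 with h2 | h2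
  · refine Or.inr fun z hz => ?_
    have := h2 z (mem_rv.1 hz)
    exact ⟨this.2, this.1⟩
  · refine Or.inl fun z hz => ?_
    have := h2 z (mem_rv.1 hz)
    exact ⟨this.2, this.1⟩

lemma CP_app {P : V → List V → Prop} (n m : ℕ) (v : V) (s t : List V) (h1 : CP P n v s)
    (h2 : CP P m (en v s) t) : CP P (n + m) v (s ++ t) := by
  induction n generalizing v s with
  | zero =>
    have : s = [] := h1
    subst this
    simpa using h2
  | succ n ih =>
    obtain ⟨c, s', rfl, hc, hs'⟩ := h1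
    rw [show n + 1 + m = (n + m) + 1 by ring]
    refine ⟨c, s' ++ t, by simp, hc, ih _ _ hs' ?_⟩
    rwa [en_append] at h2

lemma CP_rv {P : V → List V → Prop} (hP : ∀ v c, P v c → P (en v c) (rv v c)) (n : ℕ) (v : V)
    (s : List V) (h : CP P n v s) : CP P n (en v s) (rv v s) := by
  induction n generalizing v s with
  | zero =>
    have : s = [] := h
    subst this
    exact rfl
  | succ n ih =>
    obtain ⟨c, s', rfl, hc, hs'⟩ := h
    rw [rv_append, en_append]
    refine CP_app n 1 _ _ _ (ih _ _ hs') ?_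
    rw [en_rv]
    exact ⟨rv v c, [], by simp, hP _ _ hc, rfl⟩

/-- splitting at the last vertex of minimal height -/
lemma split_min (u : V → ℝ) (v : V) (s : List V) :
    ∃ c t, s = c ++ t ∧ (∀ z ∈ v :: s, u (en v c) ≤ u z) ∧ ∀ z ∈ t, u (en v c) < u z := by
  induction s generalizing v with
  | nil => exact ⟨[], [], rfl, by simp, by simp⟩
  | cons a s ih =>
    obtain ⟨c, t, rfl, h1, h2⟩ := ih a
    by_cases h : u (en a c) ≤ u v
    · refine ⟨a :: c, t, rfl, ?_, h2⟩
      intro z hz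
      rcases List.mem_cons.1 hz with rfl | hz
      · exact h
      · exact h1 z hz
    · rw [not_le] at h
      refine ⟨[], a :: (c ++ t), rfl, ?_, ?_⟩
      · intro z hz
        rcases List.mem_cons.1 hz with rfl | hz
        · exact le_refl _
        · exact (h.trans_le (h1 z hz)).le
      · intro z hz
        exact h.trans_le (h1 z hz)

/-- descending decomposition -/
lemma dec_aux (D : Finset ℝ) (H : ℕ) : ∀ (N : ℕ) (w : V → ℝ),
    (∀ x c, ch G x c → c.length < H → |w (en x c) - w x| ∈ D) →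
    ∀ (v : V) (t : List V) (b : ℝ), t.length ≤ N → sa G v t →
    (∀ z ∈ t, w z < w v ∧ w v - w z < b) →
    ∃ n, CP (Pc G w) n v t ∧ n * H ≤ t.length + H * (D.filter (fun d => d < b)).card := by
  intro N
  induction N with
  | zero =>
    intro w hD v t b hN _ _
    have : t = [] := List.length_eq_zero_iff.1 (by omega)
    subst this
    exact ⟨0, rfl, by simp⟩
  | succ N ih =>
    intro w hD v t b hN hsa ht
    by_cases hnil : t = []
    · subst hnil
      exact ⟨0, rfl, by simp⟩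
    obtain ⟨c, t', rfl, h1, h2⟩ := split_min w v t
    -- the minimum is strictly below `w v`
    obtain ⟨a, ha⟩ := List.exists_mem_of_ne_nil _ hnil
    have hlt : w (en v c) < w v := (h1 a (List.mem_cons_of_mem _ ha)).trans_lt (ht a ha).1
    have hc : c ≠ [] := by
      rintro rfl
      simp at hlt
    have hclen : 0 < c.length := List.length_pos_iff.2 hc
    have hmem : en v c ∈ c ++ t' := List.mem_append_left _ (en_mem v c hc)
    set d := w v - w (en v c) with hd
    have hdb : d < b := (ht _ hmem).2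
    have hPc : Pc G w v c := by
      refine ⟨sa_append_left hsa, Or.inr fun z hz => ?_⟩
      rcases List.mem_cons.1 hz with rfl | hz
      · exact ⟨le_refl _, hlt.le⟩
      · exact ⟨(ht z (List.mem_append_left _ hz)).1.le,
          h1 z (List.mem_cons_of_mem _ (List.mem_append_left _ hz))⟩
    have hlen : c.length + t'.length ≤ N + 1 := by simpa using hN
    obtain ⟨n, hn1, hn2⟩ := ih (-w) (fun x c' h h' => by
        have := hD x c' h h'
        simp only [Pi.neg_apply]
        rw [show -w (en x c') - -w x = -(w (en x c') - w x) by ring, abs_neg]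
        exact this) (en v c) t' d (by omega) (sa_append_right hsa) (fun z hz => by
        simp only [Pi.neg_apply]
        refine ⟨by linarith [h2 z hz], ?_⟩
        have := (ht z (List.mem_append_right _ hz)).1
        rw [hd]; linarith)
    rw [Pc_neg_eq] at hn1
    refine ⟨n + 1, ⟨c, t', rfl, hPc, hn1⟩, ?_⟩
    have hsub : D.filter (fun x => x < d) ⊆ D.filter (fun x => x < b) := by
      intro x hx
      rw [Finset.mem_filter] at hx ⊢
      exact ⟨hx.1, hx.2.trans hdb⟩
    rw [List.length_append]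
    by_cases hcH : c.length < H
    · have hdD : d ∈ D := by
        have := hD v c ((ch_append v c t').1 hsa.1).1 hcH
        rw [abs_sub_comm, abs_of_pos (by linarith : 0 < w v - w (en v c))] at this
        exact this
      have hss : insert d (D.filter (fun x => x < d)) ⊆ D.filter (fun x => x < b) := by
        intro x hx
        rcases Finset.mem_insert.1 hx with rfl | hx
        · exact Finset.mem_filter.2 ⟨hdD, hdb⟩
        · exact hsub hx
      have hcard := Finset.card_le_card hss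
      rw [Finset.card_insert_of_notMem (by simp)] at hcard
      calc (n + 1) * H = n * H + H := by ring
        _ ≤ t'.length + H * (D.filter (fun x => x < d)).card + H := by omega
        _ = t'.length + H * ((D.filter (fun x => x < d)).card + 1) := by ring
        _ ≤ t'.length + H * (D.filter (fun x => x < b)).card :=
            Nat.add_le_add_left (Nat.mul_le_mul_left _ hcard) _
        _ ≤ _ := by omega
    · rw [not_lt] at hcH
      have hcard := Finset.card_le_card hsub
      calc (n + 1) * H = n * H + H := by ring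
        _ ≤ t'.length + H * (D.filter (fun x => x < d)).card + c.length := by omega
        _ ≤ t'.length + H * (D.filter (fun x => x < b)).card + c.length := by
            have := Nat.mul_le_mul_left H hcard
            omega
        _ = _ := by ring

/-- decomposition of a walk starting at its maximum -/
lemma dec_half (D : Finset ℝ) (H : ℕ) (w : V → ℝ)
    (hD : ∀ x c, ch G x c → c.length < H → |w (en x c) - w x| ∈ D) (v : V) (t : List V)
    (hsa : sa G v t) (ht : ∀ z ∈ t, w z ≤ w v) :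
    ∃ n, CP (Pc G w) n v t ∧ n * H ≤ t.length + H * (D.card + 1) := by
  obtain ⟨c, t', rfl, h1, h2⟩ := split_min w v t
  have hPc : Pc G w v c := by
    refine ⟨sa_append_left hsa, Or.inr fun z hz => ?_⟩
    rcases List.mem_cons.1 hz with rfl | hz
    · exact ⟨le_refl _, h1 _ (List.mem_cons_self ..)⟩
    · exact ⟨ht z (List.mem_append_left _ hz),
        h1 z (List.mem_cons_of_mem _ (List.mem_append_left _ hz))⟩
  obtain ⟨n, hn1, hn2⟩ := dec_aux (G := G) D H t'.length (-w) (fun x c' h h' => by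
      have := hD x c' h h'
      simp only [Pi.neg_apply]
      rw [show -w (en x c') - -w x = -(w (en x c') - w x) by ring, abs_neg]
      exact this) (en v c) t' (w v - w (en v c) + 1) le_rfl (sa_append_right hsa) (fun z hz => by
      simp only [Pi.neg_apply]
      refine ⟨by linarith [h2 z hz], ?_⟩
      have := ht z (List.mem_append_right _ hz)
      linarith)
  rw [Pc_neg_eq] at hn1
  refine ⟨n + 1, ⟨c, t', rfl, hPc, hn1⟩, ?_⟩
  have hcard := Finset.card_filter_le D (fun d => d < w v - w (en v c) + 1)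
  have := Nat.mul_le_mul_left H hcard
  rw [List.length_append]
  calc (n + 1) * H = n * H + H := by ring
    _ ≤ t'.length + H * D.card + H := by omega
    _ ≤ _ := by ring_nf; omega

/-- decomposition of an arbitrary walk -/
lemma dec_full (D : Finset ℝ) (H : ℕ) (w : V → ℝ)
    (hD : ∀ x c, ch G x c → c.length < H → |w (en x c) - w x| ∈ D) (v : V) (s : List V)
    (hsa : sa G v s) :
    ∃ n, CP (Pc G w) n v s ∧ n * H ≤ s.length + 2 * H * (D.card + 1) := by
  have hD' : ∀ x c, ch G x c → c.length < H → |(-w) (en x c) - (-w) x| ∈ D := by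
    intro x c h h'
    have := hD x c h h'
    simp only [Pi.neg_apply]
    rw [show -w (en x c) - -w x = -(w (en x c) - w x) by ring, abs_neg]
    exact this
  obtain ⟨p, q, rfl, h1, -⟩ := split_min w v s
  -- the second half
  obtain ⟨n2, hn2, hb2⟩ := dec_half D H (-w) hD' (en v p) q (sa_append_right hsa) (fun z hz => by
    simp only [Pi.neg_apply]
    linarith [h1 z (List.mem_cons_of_mem _ (List.mem_append_right _ hz))])
  -- the first half, reversed
  obtain ⟨n1, hn1, hb1⟩ := dec_half D H (-w) hD' (en v p) (rv v p) (sa_rv v p (sa_append_left hsa))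
    (fun z hz => by
      simp only [Pi.neg_apply]
      have hz' : z ∈ v :: p := mem_rv.1 (List.mem_cons_of_mem _ hz)
      have hz'' : z ∈ v :: (p ++ q) := by
        rcases List.mem_cons.1 hz' with rfl | hz'
        · exact List.mem_cons_self ..
        · exact List.mem_cons_of_mem _ (List.mem_append_left _ hz')
      linarith [h1 z hz''])
  rw [Pc_neg_eq] at hn1 hn2
  have hn1' := CP_rv (P := Pc G w) (fun v c h => Pc_rv h) n1 _ _ hn1
  rw [en_rv, rv_rv] at hn1'
  refine ⟨n1 + n2, CP_app n1 n2 v p q hn1' hn2, ?_⟩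
  rw [length_rv] at hb1
  rw [List.length_append]
  calc (n1 + n2) * H = n1 * H + n2 * H := by ring
    _ ≤ (p.length + H * (D.card + 1)) + (q.length + H * (D.card + 1)) := by omega
    _ = _ := by ring

/-- representatives of the orbits of `Γ` -/
lemma exists_reps (hG : TG G) (hs : HS G) : ∃ (ι : Type) (_ : Fintype ι) (r : ι → V),
    ∀ x, ∃ i, ∃ g ∈ hs.Γ, g (r i) = x := by
  classical
  have := hs.fi
  have := hs.nor
  obtain ⟨o⟩ := hG.conn.nonempty
  have : Finite ((G ≃g G) ⧸ hs.Γ) := inferInstance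
  refine ⟨(G ≃g G) ⧸ hs.Γ, Fintype.ofFinite _, fun q => q.out o, fun x => ?_⟩
  obtain ⟨φ, hφ⟩ := hG.tr o x
  refine ⟨(QuotientGroup.mk φ : (G ≃g G) ⧸ hs.Γ), φ * (QuotientGroup.mk φ : (G ≃g G) ⧸ hs.Γ).out⁻¹,
    ?_, ?_⟩
  · have h1 : ((QuotientGroup.mk φ : (G ≃g G) ⧸ hs.Γ).out)⁻¹ * φ ∈ hs.Γ := by
      rw [← QuotientGroup.eq]
      exact Quotient.out_eq _
    have h2 := hs.nor.conj_mem _ h1 (QuotientGroup.mk φ : (G ≃g G) ⧸ hs.Γ).out
    rwa [mul_inv_cancel_left] at h2
  · show φ ((QuotientGroup.mk φ : (G ≃g G) ⧸ hs.Γ).out⁻¹ ((QuotientGroup.mk φ :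
      (G ≃g G) ⧸ hs.Γ).out o)) = x
    rw [← hφ]
    congr 1
    exact RelIso.symm_apply_apply _ _

/-- the height is Lipschitz -/
lemma exists_lip (hG : TG G) (hs : HS G) : ∃ C : ℕ, ∀ x y, G.Adj x y → |hs.u y - hs.u x| ≤ C := by
  classical
  obtain ⟨ι, hι, r, hr⟩ := exists_reps hG hs
  let B : ℝ := ∑ i, ∑ y ∈ nb hG (r i), |hs.u y - hs.u (r i)|
  refine ⟨⌈B⌉₊, fun x y hxy => ?_⟩
  obtain ⟨i, g, hg, rfl⟩ := hr x
  have hy : g (g.symm y) = y := g.apply_symm_apply y
  have hadj : G.Adj (r i) (g.symm y) := by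
    rw [← g.map_adj_iff, hy]; exact hxy
  have h1 := hs.equi g hg (r i)
  have h2 := hs.equi g hg (g.symm y)
  rw [hy] at h2
  rw [h1, h2, add_sub_add_right_eq_sub]
  refine le_trans ?_ (Nat.le_ceil B)
  calc |hs.u (g.symm y) - hs.u (r i)|
      ≤ ∑ y ∈ nb hG (r i), |hs.u y - hs.u (r i)| :=
        Finset.single_le_sum (f := fun y => |hs.u y - hs.u (r i)|) (fun _ _ => abs_nonneg _)
          ((mem_nb hG).2 hadj)
    _ ≤ B := Finset.single_le_sum (f := fun i => ∑ y ∈ nb hG (r i), |hs.u y - hs.u (r i)|)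
          (fun _ _ => Finset.sum_nonneg fun _ _ => abs_nonneg _) (Finset.mem_univ i)

lemma lip_ch {w : V → ℝ} {C : ℕ} (hC : ∀ x y, G.Adj x y → |w y - w x| ≤ C) (x : V) (c : List V)
    (h : ch G x c) : |w (en x c) - w x| ≤ C * c.length := by
  induction c generalizing x with
  | nil => simp
  | cons a c ih =>
    obtain ⟨h1, h2⟩ := h
    have h3 := ih a h2
    have h4 := hC x a h1
    rw [en_cons, List.length_cons]
    push_cast
    calc |w (en a c) - w x| = |(w (en a c) - w a) + (w a - w x)| := by ring_nf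
      _ ≤ |w (en a c) - w a| + |w a - w x| := abs_add_le _ _
      _ ≤ C * c.length + C := add_le_add h3 h4
      _ = _ := by ring

/-- short height differences -/
lemma exists_diffs (hG : TG G) (hs : HS G) : ∃ A₀ : ℕ, ∀ H : ℕ, 1 ≤ H → ∃ D : Finset ℝ,
    D.card ≤ A₀ * H ∧ ∀ x c, ch G x c → c.length < H → |hs.u (en x c) - hs.u x| ∈ D := by
  classical
  obtain ⟨ι, hι, r, hr⟩ := exists_reps hG hs
  obtain ⟨C, hC⟩ := exists_lip hG hs
  let B : ℝ := ∑ p : ι × ι, |hs.u (r p.1) - hs.u (r p.2)|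
  let K : ℕ := ⌈B⌉₊
  have hK : ∀ i j, |hs.u (r i) - hs.u (r j)| ≤ K := fun i j =>
    (Finset.single_le_sum (f := fun p : ι × ι => |hs.u (r p.1) - hs.u (r p.2)|)
      (fun _ _ => abs_nonneg _) (Finset.mem_univ (i, j))).trans (Nat.le_ceil B)
  refine ⟨Fintype.card (ι × ι) * (2 * (C + K) + 1), fun H hH => ?_⟩
  let M : ℤ := ((C * H + K : ℕ) : ℤ)
  refine ⟨((Finset.univ : Finset (ι × ι)) ×ˢ Finset.Icc (-M) M).image
    (fun p => |hs.u (r p.1.1) - hs.u (r p.1.2) + (p.2 : ℝ)|), ?_, ?_⟩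
  · refine Finset.card_image_le.trans ?_
    rw [Finset.card_product, Finset.card_univ, Int.card_Icc, mul_assoc]
    refine Nat.mul_le_mul_left _ ?_
    have h1 : (M + 1 - -M).toNat = 2 * (C * H + K) + 1 := by
      show (((C * H + K : ℕ) : ℤ) + 1 - -((C * H + K : ℕ) : ℤ)).toNat = _
      generalize C * H + K = m
      omega
    rw [h1]
    have h2 : K ≤ K * H := Nat.le_mul_of_pos_right _ hH
    nlinarith
  · intro x c hch hlen
    obtain ⟨i, g, hg, hx⟩ := hr x
    obtain ⟨j, g', hg', hy⟩ := hr (en x c)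
    have h1 := hs.equi g hg (r i)
    have h2 := hs.equi g' hg' (r j)
    rw [hx] at h1
    rw [hy] at h2
    rw [Finset.mem_image]
    refine ⟨((j, i), hs.χ g' - hs.χ g), ?_, ?_⟩
    · rw [Finset.mem_product]
      refine ⟨Finset.mem_univ _, ?_⟩
      have h3 := lip_ch hC x c hch
      have h4 : (c.length : ℝ) ≤ H := by exact_mod_cast hlen.le
      have h5 : (C : ℝ) * c.length ≤ C * H := mul_le_mul_of_nonneg_left h4 (Nat.cast_nonneg _)
      have h6 := hK j i
      have h7 : |((hs.χ g' - hs.χ g : ℤ) : ℝ)| ≤ ((C * H + K : ℕ) : ℝ) := by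
        push_cast
        calc |(hs.χ g' : ℝ) - hs.χ g|
            = |(hs.u (en x c) - hs.u x) - (hs.u (r j) - hs.u (r i))| := by
              rw [h1, h2]; ring_nf
          _ ≤ |hs.u (en x c) - hs.u x| + |hs.u (r j) - hs.u (r i)| := abs_sub _ _
          _ ≤ C * H + K := add_le_add (h3.trans h5) h6
      have h8 : |hs.χ g' - hs.χ g| ≤ M := by exact_mod_cast h7
      rw [Finset.mem_Icc]
      exact abs_le.1 h8
    · show |hs.u (r j) - hs.u (r i) + ((hs.χ g' - hs.χ g : ℤ) : ℝ)| = _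
      rw [h1, h2]
      push_cast
      ring_nf

/-- Hammersley-Welsh decomposition -/
theorem hw_dec (hG : TG G) (hs : HS G) : ∃ A₀ : ℕ, ∀ (v : V) (s : List V), sa G v s →
    ∀ H : ℕ, 1 ≤ H → ∃ n, CP (Pc G hs.u) n v s ∧ n * H ≤ s.length + 2 * H * (A₀ * H + 1) := by
  obtain ⟨A₀, hA⟩ := exists_diffs hG hs
  refine ⟨A₀, fun v s hsa H hH => ?_⟩
  obtain ⟨D, hD1, hD2⟩ := hA H hH
  obtain ⟨n, hn1, hn2⟩ := dec_full D H hs.u hD2 v s hsa
  refine ⟨n, hn1, hn2.trans ?_⟩
  have := Nat.mul_le_mul_left (2 * H) (Nat.add_le_add_right hD1 1)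
  omega

end Pool.H61.ST

end S_H61_ST_Hwd

section S_H61_ST_Kap

set_option autoImplicit false

/-! Module KAP: geodesic lines; thin graphs or quadratic growth. -/

namespace Pool.H61.ST

open Finset Pool.Agent.H61.SW Pool.H98.C Filter

namespace Kap

variable {V : Type} {G : SimpleGraph V} (hG : TG G)

lemma chain_dist (c : ℕ → V) (d : ℕ) (h : ∀ i < d, G.Adj (c i) (c (i + 1))) (hc : G.Connected)
    (i k : ℕ) (hi : i + k ≤ d) : G.dist (c i) (c (i + k)) ≤ k := by
  induction k with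
  | zero => simp
  | succ k ih =>
    have h1 := ih (by omega)
    have h2 := h (i + k) (by omega)
    have h3 := hc.dist_triangle (u := c i) (v := c (i + k)) (w := c (i + k + 1))
    rw [SimpleGraph.dist_eq_one_iff_adj.2 h2] at h3
    rw [← add_assoc]
    omega

include hG in
lemma exists_seg (hinf : Infinite V) (o : V) (n : ℕ) :
    ∃ σ : ℤ → V, IsSeg G n σ ∧ σ 0 = o := by
  obtain ⟨y, hy⟩ : ∃ y, y ∉ bl hG o (2 * n) := by
    by_contra hcon
    push Not at hcon
    exact Set.infinite_univ.not_finite.elim ((bl hG o (2 * n)).finite_toSet.subset fun x _ => hcon x)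
  have hy' : 2 * n < G.dist o y := by
    by_contra h
    exact hy ((mem_bl hG o y _).2 (by omega))
  obtain ⟨p, hp⟩ := hG.conn.exists_walk_length_eq_dist o y
  set d := p.length with hd
  have hch : ∀ i < d, G.Adj (p.getVert i) (p.getVert (i + 1)) := fun i hi =>
    p.adj_getVert_succ hi
  have hexact : ∀ i k : ℕ, i + k ≤ d → G.dist (p.getVert i) (p.getVert (i + k)) = k := by
    intro i k hik
    have h1 := chain_dist p.getVert d hch hG.conn i k hik
    have h2 := chain_dist p.getVert d hch hG.conn 0 i (by omega)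
    have h3 := chain_dist p.getVert d hch hG.conn (i + k) (d - (i + k)) (by omega)
    rw [zero_add, p.getVert_zero] at h2
    rw [show i + k + (d - (i + k)) = d by omega, hd, p.getVert_length] at h3
    have h4 := hG.conn.dist_triangle (u := o) (v := p.getVert i) (w := y)
    have h5 := hG.conn.dist_triangle (u := p.getVert i) (v := p.getVert (i + k)) (w := y)
    omega
  obtain ⟨φ, hφ⟩ := hG.tr (p.getVert n) o
  refine ⟨fun i => φ (p.getVert (n + i).toNat), ?_, ?_⟩
  · intro i j hi hj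
    rw [abs_le] at hi hj
    rw [dist_iso hG.conn]
    rcases le_total i j with hij | hij
    · have := hexact (n + i).toNat (j - i).toNat (by omega)
      rw [show (n + i).toNat + (j - i).toNat = (n + j).toNat by omega] at this
      rw [this, abs_sub_comm, abs_of_nonneg (by omega)]
      omega
    · have := hexact (n + j).toNat (i - j).toNat (by omega)
      rw [show (n + j).toNat + (i - j).toNat = (n + i).toNat by omega] at this
      rw [SimpleGraph.dist_comm, this, abs_of_nonneg (by omega)]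
      omega
  · simpa using hφ

include hG in
/-- limits of geodesic segments -/
lemma exists_limit (o : V) (σ : ℕ → ℤ → V) (h0 : ∀ n, σ n 0 = o) (hs : ∀ n, IsSeg G n (σ n)) :
    ∃ γ : ℤ → V, IsLine G γ ∧ γ 0 = o ∧
      ∀ i, ∀ᶠ n in (Filter.hyperfilter ℕ : Filter ℕ), σ n i = γ i := by
  have h1 : ∀ i : ℤ, ∃ a : V, ∀ᶠ n in (Filter.hyperfilter ℕ : Filter ℕ), σ n i = a := by
    intro i
    have h2 : ∀ᶠ n in (Filter.hyperfilter ℕ : Filter ℕ),
        ∃ a ∈ (bl hG o i.natAbs : Set V), σ n i = a := by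
      have : ∀ᶠ n : ℕ in atTop, ∃ a ∈ (bl hG o i.natAbs : Set V), σ n i = a := by
        filter_upwards [eventually_ge_atTop i.natAbs] with n hn
        refine ⟨σ n i, ?_, rfl⟩
        have h3 := hs n 0 i (by simp) (by rw [Int.abs_eq_natAbs]; exact_mod_cast hn)
        rw [h0, zero_sub, abs_neg, Int.abs_eq_natAbs] at h3
        have h4 : G.dist o (σ n i) = i.natAbs := by exact_mod_cast h3
        exact (mem_bl hG o _ _).2 h4.le
      exact this.filter_mono Nat.hyperfilter_le_atTop
    obtain ⟨a, _, ha⟩ := (Ultrafilter.eventually_exists_mem_iff (bl hG o i.natAbs).finite_toSet).1 h2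
    exact ⟨a, ha⟩
  choose γ hγ using h1
  refine ⟨γ, ?_, ?_, hγ⟩
  · intro i j
    have h2 : ∀ᶠ n in (Filter.hyperfilter ℕ : Filter ℕ), max i.natAbs j.natAbs ≤ n :=
      (eventually_ge_atTop _).filter_mono Nat.hyperfilter_le_atTop
    obtain ⟨n, ⟨h3, h4⟩, h5⟩ := (((hγ i).and (hγ j)).and h2).exists
    rw [← h3, ← h4]
    exact hs n i j (by rw [Int.abs_eq_natAbs]; exact_mod_cast (le_max_left _ _).trans h5)
      (by rw [Int.abs_eq_natAbs]; exact_mod_cast (le_max_right _ _).trans h5)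
  · obtain ⟨n, hn⟩ := (hγ 0).exists
    rw [← hn, h0]

/-! ### Boundaries -/

open Classical

/-- closed neighbourhood -/
noncomputable def nh (Q : Finset V) : Finset V := Q ∪ Q.biUnion (nb hG)

lemma mem_nh {Q : Finset V} {y : V} : y ∈ nh hG Q ↔ y ∈ Q ∨ ∃ x ∈ Q, G.Adj x y := by
  simp [nh]

lemma sub_nh (Q : Finset V) : Q ⊆ nh hG Q := fun _ h => (mem_nh hG).2 (Or.inl h)

/-- size of the outer vertex boundary -/
noncomputable def bd (Q : Finset V) : ℕ := (nh hG Q).card - Q.card

lemma bd_add (Q : Finset V) : bd hG Q + Q.card = (nh hG Q).card := by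
  have := Finset.card_le_card (sub_nh hG Q)
  unfold bd; omega

lemma bd_eq (Q : Finset V) : bd hG Q = (nh hG Q \ Q).card := by
  rw [Finset.card_sdiff_of_subset (sub_nh hG Q)]; rfl

lemma submod (A B : Finset V) : bd hG (A ∪ B) + bd hG (A ∩ B) ≤ bd hG A + bd hG B := by
  have h1 : nh hG (A ∪ B) = nh hG A ∪ nh hG B := by
    ext y
    simp only [mem_nh, Finset.mem_union]
    constructor
    · rintro ((h | h) | ⟨x, h | h, h'⟩)
      · exact Or.inl (Or.inl h)
      · exact Or.inr (Or.inl h)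
      · exact Or.inl (Or.inr ⟨x, h, h'⟩)
      · exact Or.inr (Or.inr ⟨x, h, h'⟩)
    · rintro ((h | ⟨x, h, h'⟩) | (h | ⟨x, h, h'⟩))
      · exact Or.inl (Or.inl h)
      · exact Or.inr ⟨x, Or.inl h, h'⟩
      · exact Or.inl (Or.inr h)
      · exact Or.inr ⟨x, Or.inr h, h'⟩
  have h2 : nh hG (A ∩ B) ⊆ nh hG A ∩ nh hG B := by
    intro y
    simp only [mem_nh, Finset.mem_inter]
    rintro (⟨h, h'⟩ | ⟨x, ⟨h, h'⟩, h''⟩)
    · exact ⟨Or.inl h, Or.inl h'⟩
    · exact ⟨Or.inr ⟨x, h, h''⟩, Or.inr ⟨x, h', h''⟩⟩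
  have h3 := Finset.card_le_card h2
  have h4 := Finset.card_union_add_card_inter (nh hG A) (nh hG B)
  have h5 := Finset.card_union_add_card_inter A B
  have e1 := bd_add hG (A ∪ B)
  have e2 := bd_add hG (A ∩ B)
  have e3 := bd_add hG A
  have e4 := bd_add hG B
  rw [h1] at e1
  omega

lemma bd_map (g : G ≃g G) (Q : Finset V) : bd hG (Q.map g.toEquiv.toEmbedding) = bd hG Q := by
  have h1 : nh hG (Q.map g.toEquiv.toEmbedding) = (nh hG Q).map g.toEquiv.toEmbedding := by
    ext y
    simp only [mem_nh, Finset.mem_map]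
    constructor
    · rintro (⟨x, hx, rfl⟩ | ⟨_, ⟨x, hx, rfl⟩, hy⟩)
      · exact ⟨x, Or.inl hx, rfl⟩
      · refine ⟨g.symm y, Or.inr ⟨x, hx, ?_⟩, g.apply_symm_apply y⟩
        rw [← g.map_adj_iff, g.apply_symm_apply]; exact hy
    · rintro ⟨z, hz | ⟨x, hx, hxz⟩, rfl⟩
      · exact Or.inl ⟨z, hz, rfl⟩
      · exact Or.inr ⟨g x, ⟨x, hx, rfl⟩, g.map_adj_iff.2 hxz⟩
  unfold bd
  rw [h1, Finset.card_map, Finset.card_map]

/-- smallest boundary of a finite set containing the ball -/
noncomputable def kap (o : V) (r : ℕ) : ℕ := sInf {b | ∃ Q : Finset V, bl hG o r ⊆ Q ∧ bd hG Q = b}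

lemma kap_mem (o : V) (r : ℕ) : ∃ Q : Finset V, bl hG o r ⊆ Q ∧ bd hG Q = kap hG o r :=
  Nat.sInf_mem (s := {b | ∃ Q : Finset V, bl hG o r ⊆ Q ∧ bd hG Q = b}) ⟨_, bl hG o r, subset_rfl, rfl⟩

lemma kap_le (o : V) (r : ℕ) (Q : Finset V) (h : bl hG o r ⊆ Q) : kap hG o r ≤ bd hG Q :=
  Nat.sInf_le ⟨Q, h, rfl⟩

lemma kap_le' (o x : V) (r : ℕ) (Q : Finset V) (h : bl hG x r ⊆ Q) : kap hG o r ≤ bd hG Q := by
  rw [← bd_map hG (tau hG x o) Q]
  apply kap_le
  have := bl_iso hG (tau hG x o) x r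
  rw [tau_apply] at this
  rw [← this]
  exact Finset.map_subset_map.2 h

lemma bl_mono (o : V) {r s : ℕ} (h : r ≤ s) : bl hG o r ⊆ bl hG o s := fun x hx =>
  (mem_bl hG o x s).2 (((mem_bl hG o x r).1 hx).trans h)

lemma kap_mono (o : V) (r : ℕ) : kap hG o r ≤ kap hG o (r + 1) := by
  obtain ⟨Q, h1, h2⟩ := kap_mem hG o (r + 1)
  rw [← h2]
  exact kap_le hG o r Q ((bl_mono hG o (Nat.le_succ r)).trans h1)

/-- crossing the boundary -/
lemma cross (U : Finset V) (x y : V) (hx : x ∈ U) (hy : y ∉ U) :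
    ∃ z ∈ nh hG U \ U, G.dist x z ≤ G.dist x y := by
  have key : ∀ (x y : V) (p : G.Walk x y), x ∈ U → y ∉ U →
      ∃ z ∈ nh hG U \ U, G.dist x z ≤ p.length := by
    intro x y p
    induction p with
    | nil => intro h1 h2; exact absurd h1 h2
    | @cons u v w h p ih =>
      intro h1 h2
      by_cases hv : v ∈ U
      · obtain ⟨z, hz, hd⟩ := ih hv h2
        refine ⟨z, hz, ?_⟩
        have h3 := hG.tri u v z
        rw [SimpleGraph.dist_eq_one_iff_adj.2 h] at h3
        rw [SimpleGraph.Walk.length_cons]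
        omega
      · refine ⟨v, Finset.mem_sdiff.2 ⟨(mem_nh hG).2 (Or.inr ⟨u, h1, h⟩), hv⟩, ?_⟩
        rw [SimpleGraph.dist_eq_one_iff_adj.2 h, SimpleGraph.Walk.length_cons]
        omega
  obtain ⟨p, hp⟩ := hG.conn.exists_walk_length_eq_dist x y
  rw [← hp]
  exact key x y p hx hy

lemma kap_pos (hinf : Infinite V) (o : V) (r : ℕ) : 0 < kap hG o r := by
  obtain ⟨Q, h1, h2⟩ := kap_mem hG o r
  rw [← h2, bd_eq, Finset.card_pos]
  obtain ⟨y, hy⟩ : ∃ y, y ∉ Q := by
    by_contra hcon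
    push Not at hcon
    exact Set.infinite_univ.not_finite.elim (Q.finite_toSet.subset fun x _ => hcon x)
  obtain ⟨z, hz, _⟩ := cross hG Q o y (h1 (self_mem_bl hG o r)) hy
  exact ⟨z, hz⟩

lemma nh_bl (o : V) (r : ℕ) : nh hG (bl hG o r) ⊆ bl hG o (r + 1) := by
  intro y hy
  rw [mem_nh] at hy
  rw [mem_bl]
  rcases hy with h | ⟨x, hx, h⟩
  · have := (mem_bl hG o y r).1 h
    omega
  · have h1 := (mem_bl hG o x r).1 hx
    have h2 := hG.tri o x y
    rw [SimpleGraph.dist_eq_one_iff_adj.2 h] at h2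
    omega

/-- first alternative: quadratic growth -/
lemma quad_of_strict (hinf : Infinite V) (o : V) (h : ∀ r, kap hG o r < kap hG o (r + 1)) (R : ℕ) :
    (R : ℝ) ^ 2 / 2 ≤ (bl hG o R).card := by
  have h1 : ∀ r, r + 1 ≤ kap hG o r := by
    intro r
    induction r with
    | zero => exact kap_pos hG hinf o 0
    | succ r ih => have := h r; omega
  have h2 : ∀ r, r * (r + 1) + 2 ≤ 2 * (bl hG o r).card := by
    intro r
    induction r with
    | zero => have := card_bl_pos hG o 0; omega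
    | succ r ih =>
      have e1 := bd_add hG (bl hG o r)
      have e2 := Finset.card_le_card (nh_bl hG o r)
      have e3 := kap_le hG o r _ subset_rfl
      have e4 := h1 r
      nlinarith
  have h3 := h2 R
  have h4 : (R : ℝ) * (R + 1) + 2 ≤ 2 * (bl hG o R).card := by exact_mod_cast h3
  nlinarith [(Nat.cast_nonneg R : (0 : ℝ) ≤ R)]

/-- second alternative: a ball inside a neighbourhood of the line -/
lemma thin_ball (o : V) (r : ℕ) (h : kap hG o (r + 1) = kap hG o r) :
    ∃ K : ℕ, ∀ γ : ℤ → V, IsLine G γ → ∀ R : ℕ, ∃ j : ℤ, ∀ v, G.dist (γ j) v ≤ R →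
      ∃ i : ℤ, G.dist v (γ i) ≤ K := by
  obtain ⟨Q, hQ1, hQ2⟩ := kap_mem hG o (r + 1)
  obtain ⟨K, hK⟩ : ∃ K : ℕ, ∀ x ∈ Q, G.dist o x ≤ K :=
    ⟨Q.sup (fun x => G.dist o x), fun x hx => Finset.le_sup (f := fun x => G.dist o x) hx⟩
  set k := kap hG o r
  refine ⟨K, fun γ hγ R => ?_⟩
  by_contra hcon
  push Not at hcon
  set Qi : ℕ → Finset V := fun i => Q.map (tau hG o (γ i)).toEquiv.toEmbedding with hQi
  have hQi1 : ∀ i : ℕ, bl hG (γ i) (r + 1) ⊆ Qi i := by
    intro i
    have := bl_iso hG (tau hG o (γ i)) o (r + 1)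
    rw [tau_apply] at this
    rw [← this]
    exact Finset.map_subset_map.2 hQ1
  have hQi2 : ∀ i : ℕ, bd hG (Qi i) = k := fun i => by rw [hQi, bd_map, hQ2, h]
  have hQi3 : ∀ i : ℕ, ∀ v ∈ Qi i, G.dist v (γ i) ≤ K := by
    intro i v hv
    obtain ⟨x, hx, rfl⟩ := Finset.mem_map.1 hv
    have h1 : G.dist ((tau hG o (γ i)) x) ((tau hG o (γ i)) o) = G.dist x o := dist_iso hG.conn _ _ _
    rw [tau_apply] at h1
    have h2 := hK x hx
    rw [SimpleGraph.dist_comm] at h2
    exact h1.le.trans h2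
  set U : ℕ → Finset V := fun m => (range (m + 1)).biUnion Qi with hU
  have hUs : ∀ m, U (m + 1) = U m ∪ Qi (m + 1) := by
    intro m
    rw [hU]
    simp only
    rw [Finset.range_add_one (n := m + 1), Finset.biUnion_insert, Finset.union_comm]
  have hUb : ∀ m, bd hG (U m) ≤ k := by
    intro m
    induction m with
    | zero =>
      have : U 0 = Qi 0 := by
        rw [hU]; simp
      rw [this, hQi2]
    | succ m ih =>
      rw [hUs]
      have h1 := submod hG (U m) (Qi (m + 1))
      have h2 : k ≤ bd hG (U m ∩ Qi (m + 1)) := by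
        refine kap_le' hG o (γ m) r _ fun x hx => ?_
        have h3 := (mem_bl hG _ x r).1 hx
        rw [Finset.mem_inter]
        constructor
        · exact Finset.mem_biUnion.2 ⟨m, Finset.mem_range.2 (by omega),
            hQi1 m ((mem_bl hG _ x _).2 (by omega))⟩
        · refine hQi1 (m + 1) ((mem_bl hG _ x _).2 ?_)
          have h4 := hG.tri (γ ((m + 1 : ℕ) : ℤ)) (γ m) x
          have h5 := hγ ((m + 1 : ℕ) : ℤ) m
          have h6 : |((m + 1 : ℕ) : ℤ) - m| = 1 := by push_cast; simp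
          rw [h6] at h5
          omega
      rw [hQi2] at h1
      omega
  -- every centre has a boundary vertex nearby
  set M := (2 * R + 1) * k with hM
  have hb : ∀ j : ℕ, j ≤ M → ∃ z ∈ nh hG (U M) \ U M, G.dist (γ j) z ≤ R := by
    intro j hj
    obtain ⟨v, hv1, hv2⟩ := hcon j
    have hvU : v ∉ U M := by
      intro hv
      obtain ⟨i, _, hi⟩ := Finset.mem_biUnion.1 hv
      have := hQi3 i v hi
      have := hv2 i
      omega
    have hjU : γ j ∈ U M := Finset.mem_biUnion.2 ⟨j, Finset.mem_range.2 (by omega),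
      hQi1 j (self_mem_bl hG _ _)⟩
    obtain ⟨z, hz, hd⟩ := cross hG (U M) _ v hjU hvU
    exact ⟨z, hz, hd.trans hv1⟩
  have hb' : ∀ i ∈ range (k + 1), ∃ z ∈ nh hG (U M) \ U M,
      G.dist (γ (((2 * R + 1) * i : ℕ) : ℤ)) z ≤ R := by
    intro i hi
    refine hb _ ?_
    have := Finset.mem_range.1 hi
    rw [hM]
    exact Nat.mul_le_mul_left _ (by omega)
  have : Nonempty V := ⟨o⟩
  choose! z hz1 hz2 using hb'
  have hcard : (range (k + 1)).card ≤ (nh hG (U M) \ U M).card := by
    refine Finset.card_le_card_of_injOn z (fun i hi => hz1 i hi) ?_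
    intro i hi j hj hij
    have h1 := hz2 i hi
    have h2 := hz2 j hj
    rw [← hij] at h2
    have h3 := hG.tri (γ (((2 * R + 1) * i : ℕ) : ℤ)) (z i) (γ (((2 * R + 1) * j : ℕ) : ℤ))
    rw [SimpleGraph.dist_comm (u := z i)] at h3
    have h4 := hγ (((2 * R + 1) * i : ℕ) : ℤ) (((2 * R + 1) * j : ℕ) : ℤ)
    have h5 : |(((2 * R + 1) * i : ℕ) : ℤ) - (((2 * R + 1) * j : ℕ) : ℤ)| ≤ 2 * R := by
      rw [← h4]; omega
    by_contra hne
    have h6 : (((2 * R + 1) * i : ℕ) : ℤ) - (((2 * R + 1) * j : ℕ) : ℤ) =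
        (2 * R + 1) * ((i : ℤ) - j) := by push_cast; ring
    rw [h6, abs_mul, abs_of_nonneg (by positivity : (0 : ℤ) ≤ 2 * R + 1)] at h5
    have h7 : 1 ≤ |(i : ℤ) - j| := by
      exact Int.one_le_abs (sub_ne_zero.2 (by exact_mod_cast hne))
    nlinarith [(Nat.cast_nonneg R : (0 : ℤ) ≤ R)]
  rw [← bd_eq, Finset.card_range] at hcard
  have := hUb M
  omega

end Kap

section KAP
variable {V : Type} {G : SimpleGraph V} (hG : TG G)

include hG in
theorem exists_line (hinf : Infinite V) (o : V) : ∃ γ : ℤ → V, IsLine G γ ∧ γ 0 = o := by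
  have h := fun n => Kap.exists_seg hG hinf o n
  choose σ h1 h2 using h
  obtain ⟨γ, h3, h4, _⟩ := Kap.exists_limit hG o σ h2 h1
  exact ⟨γ, h3, h4⟩

theorem thin_or_quad (hinf : Infinite V) (o : V) :
    (∃ (f : V → ℤ) (C : ℕ), QLn G f C) ∨ ∀ R : ℕ, (R : ℝ) ^ 2 / 2 ≤ (bl hG o R).card := by
  by_cases hst : ∀ r, Kap.kap hG o r < Kap.kap hG o (r + 1)
  · exact Or.inr (Kap.quad_of_strict hG hinf o hst)
  left
  push Not at hst
  obtain ⟨r, hr⟩ := hst
  obtain ⟨K, hK⟩ := Kap.thin_ball hG o r (le_antisymm hr (Kap.kap_mono hG o r))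
  obtain ⟨γ, hγ, _⟩ := exists_line hG hinf o
  have h1 := hK γ hγ
  choose j hj using h1
  set σ : ℕ → ℤ → V := fun n i => tau hG (γ (j n)) o (γ (i + j n)) with hσ
  have hσd : ∀ n i i', G.dist (σ n i) (σ n i') = G.dist (γ (i + j n)) (γ (i' + j n)) := fun n i i' =>
    dist_iso hG.conn _ _ _
  have hσl : ∀ n, IsLine G (σ n) := by
    intro n i i'
    rw [hσd, hγ]
    congr 1
    ring
  have hσ0 : ∀ n, σ n 0 = o := fun n => by rw [hσ]; simp
  obtain ⟨γ', hl', _, hlim⟩ := Kap.exists_limit hG o σ hσ0 (fun n i i' _ _ => hσl n i i')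
  have hcov : ∀ v, ∃ i : ℤ, G.dist v (γ' i) ≤ K := by
    intro v
    have h2 : ∀ᶠ n in (Filter.hyperfilter ℕ : Filter ℕ),
        ∃ i ∈ Set.Icc (-(G.dist o v + K : ℤ)) (G.dist o v + K), G.dist v (σ n i) ≤ K := by
      have : ∀ᶠ n : ℕ in atTop,
          ∃ i ∈ Set.Icc (-(G.dist o v + K : ℤ)) (G.dist o v + K), G.dist v (σ n i) ≤ K := by
        filter_upwards [eventually_ge_atTop (G.dist o v)] with n hn
        set φ := tau hG (γ (j n)) o
        have h3 : G.dist (γ (j n)) (φ.symm v) ≤ n := by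
          rw [← dist_iso hG.conn φ, φ.apply_symm_apply, tau_apply]
          exact hn
        obtain ⟨i, hi⟩ := hj n _ h3
        have h4 : G.dist v (σ n (i - j n)) ≤ K := by
          rw [hσ]
          simp only [sub_add_cancel]
          rw [← dist_iso hG.conn φ, φ.apply_symm_apply] at hi
          exact hi
        refine ⟨i - j n, ?_, h4⟩
        have h5 := hσl n 0 (i - j n)
        rw [hσ0, zero_sub, abs_neg] at h5
        have h6 := hG.tri o v (σ n (i - j n))
        rw [Set.mem_Icc, ← abs_le, ← h5]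
        exact_mod_cast h6.trans (by omega)
      exact this.filter_mono Nat.hyperfilter_le_atTop
    obtain ⟨i, _, hi⟩ := (Ultrafilter.eventually_exists_mem_iff (Set.finite_Icc _ _)).1 h2
    obtain ⟨n, h3, h4⟩ := (hi.and (hlim i)).exists
    exact ⟨i, by rw [← h4]; exact h3⟩
  choose f hf using hcov
  refine ⟨f, 2 * K, fun y z => ?_⟩
  have e1 := hl' (f y) (f z)
  have e2 := hf y
  have e3 := hf z
  have t1 := hG.tri (γ' (f y)) y (γ' (f z))
  have t2 := hG.tri y z (γ' (f z))
  have t3 := hG.tri y (γ' (f y)) z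
  have t4 := hG.tri (γ' (f y)) (γ' (f z)) z
  rw [SimpleGraph.dist_comm (u := γ' (f y)) (v := y)] at t1
  rw [SimpleGraph.dist_comm (u := γ' (f z)) (v := z)] at t4
  rw [← e1, abs_le]
  push_cast
  constructor <;> omega

end KAP

end Pool.H61.ST

end S_H61_ST_Kap

section S_H61_ST_Coarse

set_option autoImplicit false

/-! Coarse isometries of the integers have a sign. -/

namespace Pool.H61.ST

lemma coarse_key (L A α β K : ℤ) (_hK : 0 ≤ K) (hL : 4 * K < L) (hA : 0 ≤ A)
    (h1 : |(|A| - |L|)| ≤ K) (h2 : |(|α| - |β|)| ≤ K) (h3 : |(|α - A| - |β - L|)| ≤ K) :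
    |α - β| ≤ 4 * K := by
  rw [abs_le] at *
  rw [abs_of_nonneg hA, abs_of_nonneg (by omega : (0 : ℤ) ≤ L)] at h1
  obtain ⟨h2, h2'⟩ := h2
  obtain ⟨h3, h3'⟩ := h3
  obtain ⟨h1, h1'⟩ := h1
  rcases abs_cases α with ⟨e1, f1⟩ | ⟨e1, f1⟩ <;>
  rcases abs_cases β with ⟨e2, f2⟩ | ⟨e2, f2⟩ <;>
  rcases abs_cases (α - A) with ⟨e3, f3⟩ | ⟨e3, f3⟩ <;>
  rcases abs_cases (β - L) with ⟨e4, f4⟩ | ⟨e4, f4⟩ <;>
  rw [e1, e2] at h2 h2' <;> rw [e3, e4] at h3 h3' <;> constructor <;> omega

theorem coarse_sign {S : Type} (a b : S → ℤ) (K : ℕ)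
    (h : ∀ y z, |(|a y - a z|) - (|b y - b z|)| ≤ (K : ℤ)) :
    (∀ y z, |a y - a z - (b y - b z)| ≤ 9 * (K : ℤ)) ∨
      (∀ y z, |a y - a z + (b y - b z)| ≤ 9 * (K : ℤ)) := by
  have hK : (0 : ℤ) ≤ K := by positivity
  by_cases h1 : ∀ y z, |b y - b z| ≤ 4 * (K : ℤ)
  · left
    intro y z
    have h2 := h1 y z
    have h3 := h y z
    rw [abs_le] at h2 h3 ⊢
    rcases abs_cases (a y - a z) with ⟨h4, h5⟩ | ⟨h4, h5⟩ <;>
    rcases abs_cases (b y - b z) with ⟨h6, h7⟩ | ⟨h6, h7⟩ <;>
    rw [h4, h6] at h3 <;> constructor <;> linarith [h2.1, h2.2, h3.1, h3.2]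
  · push Not at h1
    obtain ⟨y1, y0, h1⟩ := h1
    -- choose the order so that b is increasing
    obtain ⟨y1, y0, h1⟩ : ∃ y1 y0, 4 * (K : ℤ) < b y1 - b y0 := by
      rcases abs_cases (b y1 - b y0) with ⟨e, f⟩ | ⟨e, f⟩
      · exact ⟨y1, y0, by rw [e] at h1; exact h1⟩
      · exact ⟨y0, y1, by rw [e] at h1; linarith⟩
    rcases le_total 0 (a y1 - a y0) with hs | hs
    · left
      have key : ∀ y, |a y - a y0 - (b y - b y0)| ≤ 4 * (K : ℤ) := by
        intro y
        refine coarse_key (b y1 - b y0) (a y1 - a y0) _ _ K hK h1 hs (h y1 y0) (h y y0) ?_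
        have e1 : a y - a y0 - (a y1 - a y0) = a y - a y1 := by ring
        have e2 : b y - b y0 - (b y1 - b y0) = b y - b y1 := by ring
        rw [e1, e2]; exact h y y1
      intro y z
      have k1 := key y
      have k2 := key z
      rw [abs_le] at *
      constructor <;> linarith [k1.1, k1.2, k2.1, k2.2]
    · right
      have key : ∀ y, |(-a y) - (-a y0) - (b y - b y0)| ≤ 4 * (K : ℤ) := by
        intro y
        have h' : ∀ y z, |(|(-a y) - (-a z)|) - (|b y - b z|)| ≤ (K : ℤ) := by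
          intro y z
          have e1 : (-a y) - (-a z) = -(a y - a z) := by ring
          rw [e1, abs_neg]; exact h y z
        refine coarse_key (b y1 - b y0) ((-a y1) - (-a y0)) _ _ K hK h1 (by linarith)
          (h' y1 y0) (h' y y0) ?_
        have e1 : -a y - -a y0 - (-a y1 - -a y0) = -a y - -a y1 := by ring
        have e2 : b y - b y0 - (b y1 - b y0) = b y - b y1 := by ring
        rw [e1, e2]; exact h' y y1
      intro y z
      have k1 := key y
      have k2 := key z
      rw [abs_le] at *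
      constructor <;> linarith [k1.1, k1.2, k2.1, k2.2]

end Pool.H61.ST

end S_H61_ST_Coarse

section S_H61_ST_Fms

set_option autoImplicit false

/-! Combining families of walks. -/

namespace Pool.H61.ST

open Finset Pool.Agent.H61.SW Pool.H98.C

section FMS
variable {V : Type} {G : SimpleGraph V}

lemma Fm.mono {x y : V} {A B : Set V} {F : Finset (List V)} (h : Fm G x y A F)
    (hAB : A ⊆ B) : Fm G x y B F :=
  fun s hs => ⟨(h s hs).1, (h s hs).2.1, fun z hz => hAB ((h s hs).2.2 z hz)⟩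

lemma split_unique_aux {x y : V} {s1 s2 s1' s2' : List V} (h1' : sa G x s1')
    (e1 : en x s1 = y) (e1' : en x s1' = y) (h : s1 ++ s2 = s1' ++ s2')
    (hl : s1.length ≤ s1'.length) : s1 = s1' := by
  obtain ⟨r, rfl⟩ : ∃ r, s1' = s1 ++ r := by
    have : s1 <+: s1' ++ s2' := by rw [← h]; exact List.prefix_append _ _
    obtain ⟨r, hr⟩ := List.prefix_of_prefix_length_le this (List.prefix_append s1' s2') hl
    exact ⟨r, hr.symm⟩
  by_cases hr : r = []
  · rw [hr, List.append_nil]
  · exfalso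
    rw [en_append, e1] at e1'
    have h2 : y ∈ r := by
      have := en_mem y r hr
      rwa [e1'] at this
    have h3 : y ∈ x :: s1 := by rw [← e1]; exact en_mem_cons x s1
    have h4 := h1'.2
    rw [← List.cons_append, List.nodup_append] at h4
    exact h4.2.2 _ h3 _ h2 rfl

lemma split_unique {x y : V} {s1 s2 s1' s2' : List V} (h1 : sa G x s1) (h1' : sa G x s1')
    (e1 : en x s1 = y) (e1' : en x s1' = y) (h : s1 ++ s2 = s1' ++ s2') :
    s1 = s1' ∧ s2 = s2' := by
  have h3 : s1 = s1' := by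
    rcases le_total s1.length s1'.length with hl | hl
    · exact split_unique_aux h1' e1 e1' h hl
    · exact (split_unique_aux h1 e1' e1 h.symm hl).symm
  subst h3
  exact ⟨rfl, List.append_cancel_left h⟩

theorem fm_comb {x y z : V} {A B : Set V} {F₁ F₂ : Finset (List V)} (t : ℝ)
    (h1 : Fm G x y A F₁) (h2 : Fm G y z B F₂) (hAB : ∀ v, v ∈ A → v ∈ B → v = y) :
    ∃ F, Fm G x z (A ∪ B) F ∧ fw t F = fw t F₁ * fw t F₂ := by
  classical
  refine ⟨(F₁ ×ˢ F₂).image (fun p => p.1 ++ p.2), ?_, ?_⟩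
  · intro s hs
    obtain ⟨⟨s1, s2⟩, hp, rfl⟩ := Finset.mem_image.1 hs
    obtain ⟨hp1, hp2⟩ := Finset.mem_product.1 hp
    obtain ⟨a1, a2, a3⟩ := h1 s1 hp1
    obtain ⟨b1, b2, b3⟩ := h2 s2 hp2
    refine ⟨⟨?_, ?_⟩, ?_, ?_⟩
    · rw [ch_append, a2]; exact ⟨a1.1, b1.1⟩
    · show (x :: (s1 ++ s2)).Nodup
      rw [← List.cons_append, List.nodup_append]
      refine ⟨a1.2, (List.nodup_cons.1 b1.2).2, ?_⟩
      rintro v hv w hw rfl
      have h4 : v = y := hAB v (a3 v hv) (b3 v (List.mem_cons_of_mem _ hw))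
      rw [h4] at hw
      exact (List.nodup_cons.1 b1.2).1 hw
    · show en x (s1 ++ s2) = z
      rw [en_append, a2, b2]
    · intro v hv
      rcases List.mem_cons.1 hv with rfl | hv
      · exact Or.inl (a3 v (by simp))
      rcases List.mem_append.1 hv with hv | hv
      · exact Or.inl (a3 v (List.mem_cons_of_mem _ hv))
      · exact Or.inr (b3 v (List.mem_cons_of_mem _ hv))
  · unfold fw
    rw [Finset.sum_image, Finset.sum_product, Finset.sum_mul_sum]
    · refine Finset.sum_congr rfl fun s1 _ => Finset.sum_congr rfl fun s2 _ => ?_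
      rw [List.length_append, pow_add]
    · rintro ⟨s1, s2⟩ hp ⟨s1', s2'⟩ hp' heq
      simp only [Finset.coe_product, Set.mem_prod, Finset.mem_coe] at hp hp'
      obtain ⟨e1, e2⟩ := split_unique (h1 s1 hp.1).1 (h1 s1' hp'.1).1 (h1 s1 hp.1).2.1
        (h1 s1' hp'.1).2.1 heq
      exact Prod.ext e1 e2

theorem fm_rev {x y : V} {A : Set V} {F : Finset (List V)} (t : ℝ) (h : Fm G x y A F) :
    ∃ F', Fm G y x A F' ∧ fw t F' = fw t F := by
  classical
  refine ⟨F.image (rv x), ?_, ?_⟩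
  · intro s' hs'
    obtain ⟨s, hs, rfl⟩ := Finset.mem_image.1 hs'
    obtain ⟨a1, a2, a3⟩ := h s hs
    refine ⟨a2 ▸ sa_rv x s a1, ?_, ?_⟩
    · rw [← a2]; exact en_rv x s
    · intro z hz
      rw [← a2, mem_rv] at hz
      exact a3 z hz
  · unfold fw
    rw [Finset.sum_image]
    · exact Finset.sum_congr rfl fun s _ => by rw [length_rv]
    · intro s hs s' hs' heq
      have e1 := rv_rv x s
      have e2 := rv_rv x s'
      rw [(h s hs).2.1] at e1
      rw [(h s' hs').2.1] at e2
      rw [← e1, ← e2]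
      exact congrArg _ heq

theorem fm_map {x y : V} {A : Set V} {F : Finset (List V)} (t : ℝ) (h : Fm G x y A F)
    (g : G ≃g G) : ∃ F', Fm G (g x) (g y) (g '' A) F' ∧ fw t F' = fw t F := by
  classical
  refine ⟨F.image (List.map g), ?_, ?_⟩
  · intro s' hs'
    obtain ⟨s, hs, rfl⟩ := Finset.mem_image.1 hs'
    obtain ⟨a1, a2, a3⟩ := h s hs
    refine ⟨(sa_map g x s).2 a1, by rw [en_map, a2], ?_⟩
    intro z hz
    rw [← List.map_cons, List.mem_map] at hz
    obtain ⟨w, hw, rfl⟩ := hz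
    exact ⟨w, a3 w hw, rfl⟩
  · unfold fw
    rw [Finset.sum_image]
    · exact Finset.sum_congr rfl fun s _ => by rw [List.length_map]
    · intro s _ s' _ heq
      exact List.map_injective_iff.2 g.injective heq

theorem fm_pow {x : V} {A : Set V} {F : Finset (List V)} (t : ℝ) (h : G ≃g G)
    (hF : Fm G x (h x) A F)
    (hA : ∀ k : ℕ, 1 ≤ k → ∀ z ∈ A, ∀ w ∈ A, z = (h ^ k) w → k = 1 ∧ z = h x) (N : ℕ) :
    ∃ F', Fm G x ((h ^ N) x) {z | z = x ∨ ∃ k < N, ∃ w ∈ A, z = (h ^ k) w} F' ∧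
      fw t F' = (fw t F) ^ N := by
  classical
  by_cases hne : F.Nonempty
  swap
  · rw [Finset.not_nonempty_iff_eq_empty] at hne
    subst hne
    rcases Nat.eq_zero_or_pos N with rfl | hN
    · refine ⟨{[]}, ?_, by simp [fw]⟩
      intro s hs
      rw [Finset.mem_singleton.1 hs]
      exact ⟨sa_nil x, rfl, fun z hz => Or.inl (by simpa using hz)⟩
    · exact ⟨∅, fun s hs => absurd hs (Finset.notMem_empty s), by
        simp [fw, Nat.pos_iff_ne_zero.1 hN]⟩
  obtain ⟨s0, hs0⟩ := hne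
  have hxA : x ∈ A := (hF s0 hs0).2.2 x (by simp)
  induction N with
  | zero =>
    refine ⟨{[]}, ?_, by simp [fw]⟩
    intro s hs
    rw [Finset.mem_singleton.1 hs]
    exact ⟨sa_nil x, rfl, fun z hz => Or.inl (by simpa using hz)⟩
  | succ N ih =>
    obtain ⟨F1, h1, h2⟩ := ih
    obtain ⟨F2, h3, h4⟩ := fm_map t hF (h ^ N)
    have e1 : (h ^ N) (h x) = (h ^ (N + 1)) x := by rw [pow_succ]; rfl
    rw [e1] at h3
    obtain ⟨F', h5, h6⟩ := fm_comb t h1 h3 (by
      rintro v hv ⟨w, hw, rfl⟩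
      rcases hv with hv | ⟨k, hk, z', hz', hv⟩
      · rcases Nat.eq_zero_or_pos N with rfl | hN
        · rw [hv]; rfl
        · obtain ⟨e2, e3⟩ := hA N hN x hxA w hw hv.symm
          subst e2
          rw [hv, pow_one]; exact e3
      · have e2 : z' = (h ^ (N - k)) w := by
          have : (h ^ N) w = (h ^ k) ((h ^ (N - k)) w) := by
            rw [← RelIso.mul_apply, ← pow_add]
            congr 2; omega
          rw [this] at hv
          exact (h ^ k).injective hv.symm
        obtain ⟨e3, e4⟩ := hA (N - k) (by omega) z' hz' w hw e2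
        rw [hv, e4]
        rw [← RelIso.mul_apply, ← pow_succ]
        congr 2; omega)
    refine ⟨F', h5.mono ?_, by rw [h6, h2, h4, pow_succ]⟩
    rintro v (hv | ⟨w, hw, rfl⟩)
    · rcases hv with hv | ⟨k, hk, w, hw, hv⟩
      · exact Or.inl hv
      · exact Or.inr ⟨k, by omega, w, hw, hv⟩
    · exact Or.inr ⟨N, by omega, w, hw, rfl⟩

end FMS

end Pool.H61.ST

end S_H61_ST_Fms
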