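import Mathlib
import Pool.Agent.H61.LC.L1

set_option autoImplicit false

/-! Locality of connective constants, part L10: this file joins several modules to save build time. -/

section S_H61_ST_Qpt

set_option autoImplicit false

/-! A point at given distance from a geodesic segment (quadratic case). -/

namespace Pool.H61.ST

open Finset Pool.Agent.H61.SW Pool.H98.C

section QPT
variable {V : Type} {G : SimpleGraph V} (hG : TG G)

include hG in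
lemma dist_pow_le (s : G ≃g G) (y : V) (n : ℕ) :
    G.dist y ((s ^ n) y) ≤ n * G.dist y (s y) := by
  induction n with
  | zero => simp
  | succ n ih =>
    have h1 : (s ^ (n + 1)) y = (s ^ n) (s y) := by
      rw [pow_succ, RelIso.mul_apply]
    have h2 := hG.tri y ((s ^ n) y) ((s ^ (n + 1)) y)
    rw [h1, dist_iso hG.conn] at h2
    rw [h1]
    have h3 : (n + 1) * G.dist y (s y) = n * G.dist y (s y) + G.dist y (s y) := by ring
    omega

/-- upper bound for balls -/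
lemma lat_upper (s g : G ≃g G) (x : V) (C : ℕ) (hL : LatQI G s g x C) (r : ℕ) :
    (bl hG x r).card ≤ (2 * (C * (r + C + 1)) + 1) ^ 2 * (bl hG x C).card := by
  classical
  set M : ℕ := C * (r + C + 1) with hM
  have hsub : bl hG x r ⊆ ((Finset.Icc (-(M : ℤ)) M) ×ˢ (Finset.Icc (-(M : ℤ)) M)).biUnion
      fun q => bl hG ((s ^ q.1) ((g ^ q.2) x)) C := by
    intro v hv
    rw [mem_bl] at hv
    obtain ⟨i, j, hij⟩ := hL.q3 v
    have h1 := hL.q2 i j 0 0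
    simp only [zpow_zero, RelIso.coe_one, id_eq, sub_zero] at h1
    have h2 : G.dist ((s ^ i) ((g ^ j) x)) x ≤ C + r := by
      have := hG.tri ((s ^ i) ((g ^ j) x)) v x
      rw [SimpleGraph.dist_comm, ← SimpleGraph.dist_comm (u := v) (v := (s ^ i) ((g ^ j) x)),
        SimpleGraph.dist_comm (u := v) (v := x)] at this
      rw [SimpleGraph.dist_comm]
      omega
    have h3 : |i| + |j| ≤ (M : ℤ) := by
      refine h1.trans ?_
      have h4 : G.dist ((s ^ i) ((g ^ j) x)) x + 1 ≤ r + C + 1 := by omega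
      have h5 : C * (G.dist ((s ^ i) ((g ^ j) x)) x + 1) ≤ C * (r + C + 1) :=
        Nat.mul_le_mul_left _ h4
      rw [hM]
      exact_mod_cast h5
    rw [Finset.mem_biUnion]
    refine ⟨(i, j), ?_, ?_⟩
    · rw [Finset.mem_product, Finset.mem_Icc, Finset.mem_Icc]
      have h6 := abs_nonneg i
      have h7 := abs_nonneg j
      refine ⟨abs_le.1 (by linarith), abs_le.1 (by linarith)⟩
    · rw [mem_bl, SimpleGraph.dist_comm]
      exact hij
  refine (Finset.card_le_card hsub).trans (Finset.card_biUnion_le.trans ?_)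
  rw [Finset.sum_congr rfl fun q _ => card_bl hG ((s ^ q.1) ((g ^ q.2) x)) x C]
  rw [Finset.sum_const, Finset.card_product, Int.card_Icc, smul_eq_mul]
  have : ((M : ℤ) + 1 - -(M : ℤ)).toNat = 2 * M + 1 := by omega
  rw [this, sq]

/-- lower bound for balls -/
lemma lat_lower (s g : G ≃g G) (x : V) (C : ℕ) (hL : LatQI G s g x C) (m : ℕ) :
    (m + 1) ^ 2 ≤ (bl hG x (((C + 1) * (C + G.dist x (g x))) * m)).card := by
  classical
  set T := G.dist x (g x) with hT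
  have hinj : Set.InjOn (fun q : ℕ × ℕ => (s ^ ((C + 1) * q.1)) ((g ^ ((C + 1) * q.2)) x))
      ((Finset.range (m + 1)) ×ˢ (Finset.range (m + 1)) : Finset (ℕ × ℕ)) := by
    rintro ⟨a, b⟩ _ ⟨a', b'⟩ _ h
    simp only at h
    have h1 := hL.q2 (((C + 1) * a : ℕ) : ℤ) (((C + 1) * b : ℕ) : ℤ) (((C + 1) * a' : ℕ) : ℤ)
      (((C + 1) * b' : ℕ) : ℤ)
    simp only [zpow_natCast] at h1
    rw [h, SimpleGraph.dist_self] at h1
    push_cast at h1
    have h2 : ((C : ℤ) + 1) * a - (C + 1) * a' = (C + 1) * (a - a') := by ring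
    have h3 : ((C : ℤ) + 1) * b - (C + 1) * b' = (C + 1) * (b - b') := by ring
    rw [h2, h3, abs_mul, abs_mul, abs_of_nonneg (by positivity : (0 : ℤ) ≤ (C : ℤ) + 1)] at h1
    have h4 : |(a : ℤ) - a'| + |(b : ℤ) - b'| < 1 := by
      by_contra hcon
      push Not at hcon
      have h5 : ((C : ℤ) + 1) * 1 ≤ (C + 1) * (|(a : ℤ) - a'| + |(b : ℤ) - b'|) :=
        mul_le_mul_of_nonneg_left hcon (by positivity)
      have h6 : ((C : ℤ) + 1) * (|(a : ℤ) - a'| + |(b : ℤ) - b'|) =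
        (C + 1) * |(a : ℤ) - a'| + (C + 1) * |(b : ℤ) - b'| := by ring
      simp only [mul_one] at h1
      linarith
    have h7 := abs_nonneg ((a : ℤ) - a')
    have h8 := abs_nonneg ((b : ℤ) - b')
    have h9 : |(a : ℤ) - a'| = 0 := by omega
    have h10 : |(b : ℤ) - b'| = 0 := by omega
    rw [abs_eq_zero] at h9 h10
    ext
    · simp only; omega
    · simp only; omega
  have hmaps : ∀ q ∈ ((Finset.range (m + 1)) ×ˢ (Finset.range (m + 1)) : Finset (ℕ × ℕ)),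
      (s ^ ((C + 1) * q.1)) ((g ^ ((C + 1) * q.2)) x) ∈ bl hG x (((C + 1) * (C + T)) * m) := by
    rintro ⟨a, b⟩ hq
    rw [Finset.mem_product, Finset.mem_range, Finset.mem_range] at hq
    simp only at hq
    rw [mem_bl]
    simp only
    have h1 := dist_pow_le hG g x ((C + 1) * b)
    rw [← hT] at h1
    have h2 := dist_pow_le hG s ((g ^ ((C + 1) * b)) x) ((C + 1) * a)
    have h3 := hL.q1 (((C + 1) * b : ℕ) : ℤ)
    rw [zpow_natCast] at h3
    have h4 := hG.tri x ((g ^ ((C + 1) * b)) x) ((s ^ ((C + 1) * a)) ((g ^ ((C + 1) * b)) x))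
    have h5 : (C + 1) * a * G.dist ((g ^ ((C + 1) * b)) x) (s ((g ^ ((C + 1) * b)) x)) ≤
        (C + 1) * m * C := Nat.mul_le_mul (Nat.mul_le_mul_left _ (by omega)) h3
    have h6 : (C + 1) * b * T ≤ (C + 1) * m * T :=
      Nat.mul_le_mul_right _ (Nat.mul_le_mul_left _ (by omega))
    have h7 : (C + 1) * (C + T) * m = (C + 1) * m * C + (C + 1) * m * T := by ring
    omega
  have := Finset.card_le_card_of_injOn _ hmaps hinj
  rw [Finset.card_product, Finset.card_range] at this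
  rw [sq]
  exact this

include hG in
theorem exists_point (s g : G ≃g G) (x : V) (C : ℕ) (hL : LatQI G s g x C) :
    ∃ K₀ : ℕ, ∀ D₁ : ℕ, 1 ≤ D₁ → ∀ (p : ℕ) (σ : ℤ → V), IsSeg G p σ → 3 * K₀ * D₁ ≤ p →
      ∃ z, G.dist (σ 0) z ≤ K₀ * D₁ ∧ (∀ i : ℤ, |i| ≤ p → D₁ ≤ G.dist z (σ i)) ∧
        ∃ i : ℤ, |i| ≤ (K₀ + 1) * D₁ ∧ G.dist z (σ i) = D₁ := by
  classical
  set E : ℕ := (C + 1) * (C + G.dist x (g x)) + 1 with hE
  set B : ℕ := (2 * (C * (C + 3)) + 1) ^ 2 * (bl hG x C).card with hB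
  set L : ℕ := (2 * E + 3) * B with hLdef
  have hB1 : 1 ≤ B := by
    have := card_bl_pos hG x C
    rw [hB]
    exact Nat.mul_pos (by positivity) this
  have hL1 : 1 ≤ L := Nat.mul_pos (by positivity) hB1
  refine ⟨E * L, fun D₁ hD p σ hσ hp => ?_⟩
  set K₀ := E * L with hK₀
  have hK1 : 1 ≤ K₀ := Nat.mul_pos (by positivity) hL1
  have hup : (bl hG x (2 * D₁)).card ≤ D₁ ^ 2 * B := by
    refine (lat_upper hG s g x C hL (2 * D₁)).trans ?_
    have h1 : 2 * (C * (2 * D₁ + C + 1)) + 1 ≤ D₁ * (2 * (C * (C + 3)) + 1) := by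
      have h2 : 2 * D₁ + C + 1 ≤ D₁ * (C + 3) := by nlinarith
      have h3 : C * (2 * D₁ + C + 1) ≤ C * (D₁ * (C + 3)) := Nat.mul_le_mul_left _ h2
      have h4 : D₁ * (2 * (C * (C + 3)) + 1) = 2 * (C * (D₁ * (C + 3))) + D₁ := by ring
      omega
    calc (2 * (C * (2 * D₁ + C + 1)) + 1) ^ 2 * (bl hG x C).card
        ≤ (D₁ * (2 * (C * (C + 3)) + 1)) ^ 2 * (bl hG x C).card :=
          Nat.mul_le_mul_right _ (Nat.pow_le_pow_left h1 2)
      _ = D₁ ^ 2 * B := by rw [hB]; ring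
  have hlow : (L * D₁ + 1) ^ 2 ≤ (bl hG x (K₀ * D₁)).card := by
    refine (lat_lower hG s g x C hL (L * D₁)).trans (Finset.card_le_card ?_)
    intro v hv
    rw [mem_bl] at hv ⊢
    refine hv.trans ?_
    rw [hK₀, hE]
    nlinarith [Nat.zero_le ((C + 1) * (C + G.dist x (g x))), Nat.zero_le (L * D₁)]
  have hseg : ∀ i : ℤ, |i| ≤ p → (G.dist (σ 0) (σ i) : ℤ) = |i| := by
    intro i hi
    have := hσ 0 i (by simp) hi
    rw [this, zero_sub, abs_neg]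
  -- a point far from the segment
  have hfar : ∃ w, G.dist (σ 0) w ≤ K₀ * D₁ ∧ ∀ i : ℤ, |i| ≤ p → D₁ ≤ G.dist w (σ i) := by
    by_contra hcon
    push Not at hcon
    have hsub : bl hG (σ 0) (K₀ * D₁) ⊆
        (Finset.Icc (-((K₀ + 1 : ℕ) : ℤ)) ((K₀ + 1 : ℕ) : ℤ)).biUnion
          fun k => bl hG (σ (k * D₁)) (2 * D₁) := by
      intro w hw
      rw [mem_bl] at hw
      obtain ⟨i, hi, hwi⟩ := hcon w hw
      have h1 : |i| ≤ ((K₀ + 1) * D₁ : ℕ) := by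
        rw [← hseg i hi]
        have h2 := hG.tri (σ 0) w (σ i)
        have h3 : (K₀ + 1) * D₁ = K₀ * D₁ + D₁ := by ring
        have h4 : G.dist (σ 0) (σ i) ≤ (K₀ + 1) * D₁ := by omega
        exact_mod_cast h4
      have hD' : (0 : ℤ) < D₁ := by exact_mod_cast hD
      rw [Finset.mem_biUnion]
      refine ⟨i / D₁, ?_, ?_⟩
      · rw [Finset.mem_Icc]
        rw [abs_le] at h1
        push_cast at h1 ⊢
        constructor
        · rw [Int.le_ediv_iff_mul_le hD']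
          linarith [h1.1]
        · have h5 : i / (D₁ : ℤ) ≤ ((K₀ + 1) * D₁ : ℤ) / D₁ :=
            Int.ediv_le_ediv hD' h1.2
          rwa [Int.mul_ediv_cancel _ hD'.ne'] at h5
      · have h6 := Int.emod_nonneg i hD'.ne'
        have h7 := Int.emod_lt_of_pos i hD'
        have h8 := Int.mul_ediv_add_emod i D₁
        have h9 : i - i / D₁ * D₁ = i % D₁ := by linarith
        have h10 : |i / D₁ * D₁| ≤ p := by
          have h11 : |i / (D₁ : ℤ)| ≤ (K₀ + 1 : ℤ) := by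
            rw [abs_le] at h1 ⊢
            push_cast at h1
            constructor
            · rw [Int.le_ediv_iff_mul_le hD']
              linarith [h1.1]
            · have h5 : i / (D₁ : ℤ) ≤ ((K₀ + 1) * D₁ : ℤ) / D₁ :=
                Int.ediv_le_ediv hD' h1.2
              rwa [Int.mul_ediv_cancel _ hD'.ne'] at h5
          rw [abs_mul, abs_of_pos hD']
          have h12 : |i / (D₁ : ℤ)| * D₁ ≤ (K₀ + 1 : ℤ) * D₁ :=
            mul_le_mul_of_nonneg_right h11 hD'.le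
          have h13 : (K₀ + 1) * D₁ ≤ 3 * K₀ * D₁ := Nat.mul_le_mul_right _ (by omega)
          have h14 : ((K₀ + 1) * D₁ : ℤ) ≤ p := by exact_mod_cast h13.trans hp
          linarith
        have h15 := hσ (i / D₁ * D₁) i h10 hi
        have h16 : |i / (D₁ : ℤ) * D₁ - i| = i % D₁ := by
          rw [abs_sub_comm, h9, abs_of_nonneg h6]
        rw [h16] at h15
        have h17 : G.dist (σ (i / D₁ * D₁)) (σ i) < D₁ := by
          have : ((G.dist (σ (i / D₁ * D₁)) (σ i) : ℕ) : ℤ) < (D₁ : ℤ) := by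
            rw [h15]; exact h7
          exact_mod_cast this
        rw [mem_bl]
        have h18 := hG.tri (σ (i / D₁ * D₁)) (σ i) w
        rw [SimpleGraph.dist_comm (u := σ i) (v := w)] at h18
        omega
    have hcard := (Finset.card_le_card hsub).trans Finset.card_biUnion_le
    rw [Finset.sum_congr rfl fun k _ => card_bl hG (σ (k * D₁)) x (2 * D₁), Finset.sum_const,
      Int.card_Icc, smul_eq_mul, card_bl hG (σ 0) x] at hcard
    have h19 : (((K₀ + 1 : ℕ) : ℤ) + 1 - -((K₀ + 1 : ℕ) : ℤ)).toNat = 2 * K₀ + 3 := by omega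
    rw [h19] at hcard
    have h20 : (L * D₁ + 1) ^ 2 ≤ (2 * K₀ + 3) * (D₁ ^ 2 * B) :=
      hlow.trans (hcard.trans (Nat.mul_le_mul_left _ hup))
    have h21 : (2 * K₀ + 3) * B ≤ L * L := by
      have h22 : (2 * K₀ + 3) ≤ (2 * E + 3) * L := by
        rw [hK₀]; nlinarith
      calc (2 * K₀ + 3) * B ≤ (2 * E + 3) * L * B := Nat.mul_le_mul_right _ h22
        _ = L * L := by rw [hLdef]; ring
    have h23 : (2 * K₀ + 3) * (D₁ ^ 2 * B) ≤ (L * D₁) ^ 2 := by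
      calc (2 * K₀ + 3) * (D₁ ^ 2 * B) = (2 * K₀ + 3) * B * D₁ ^ 2 := by ring
        _ ≤ L * L * D₁ ^ 2 := Nat.mul_le_mul_right _ h21
        _ = (L * D₁) ^ 2 := by ring
    have h24 : (L * D₁) ^ 2 < (L * D₁ + 1) ^ 2 := Nat.pow_lt_pow_left (by omega) (by omega)
    omega
  -- take such a point as near as possible to `σ 0`
  obtain ⟨w, hw1, hw2⟩ := hfar
  have hex : ∃ n, ∃ z, G.dist (σ 0) z = n ∧ ∀ i : ℤ, |i| ≤ p → D₁ ≤ G.dist z (σ i) :=
    ⟨_, w, rfl, hw2⟩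
  obtain ⟨z, hz1, hz2⟩ := Nat.find_spec hex
  have hmin : ∀ y, (∀ i : ℤ, |i| ≤ p → D₁ ≤ G.dist y (σ i)) → G.dist (σ 0) z ≤ G.dist (σ 0) y := by
    intro y hy
    rw [hz1]
    exact Nat.find_min' hex ⟨y, rfl, hy⟩
  have hzK : G.dist (σ 0) z ≤ K₀ * D₁ := (hmin w hw2).trans hw1
  refine ⟨z, hzK, hz2, ?_⟩
  -- a neighbour nearer to `σ 0`
  have hpos : 0 < G.dist (σ 0) z := by
    have := hz2 0 (by simp)
    rw [SimpleGraph.dist_comm] at this
    omega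
  obtain ⟨z', hz'1, hz'2⟩ : ∃ z', G.Adj z' z ∧ G.dist (σ 0) z' < G.dist (σ 0) z := by
    obtain ⟨q, hq⟩ := hG.conn.exists_walk_length_eq_dist z (σ 0)
    cases q with
    | nil => simp at hpos
    | cons h q =>
      rename_i v
      refine ⟨v, h.symm, ?_⟩
      have h1 := SimpleGraph.dist_le q
      rw [SimpleGraph.Walk.length_cons] at hq
      rw [SimpleGraph.dist_comm, SimpleGraph.dist_comm (u := σ 0) (v := z)]
      omega
  have hnot : ¬ ∀ i : ℤ, |i| ≤ p → D₁ ≤ G.dist z' (σ i) := fun h => by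
    have := hmin z' h
    omega
  push Not at hnot
  obtain ⟨i, hi, hi2⟩ := hnot
  have h1 : G.dist z z' ≤ 1 := by
    rw [SimpleGraph.dist_comm]
    exact (SimpleGraph.dist_eq_one_iff_adj.2 hz'1).le
  have h2 := hG.tri z z' (σ i)
  have h3 := hz2 i hi
  have h4 : G.dist z (σ i) = D₁ := by omega
  refine ⟨i, ?_, h4⟩
  rw [← hseg i hi]
  have h5 := hG.tri (σ 0) z (σ i)
  have h6 : (K₀ + 1) * D₁ = K₀ * D₁ + D₁ := by ring
  have h7 : G.dist (σ 0) (σ i) ≤ (K₀ + 1) * D₁ := by omega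
  exact_mod_cast h7

end QPT

end Pool.H61.ST

end S_H61_ST_Qpt

section S_H61_ST_QsupCore

set_option autoImplicit false

/-! Module QSUP, core: superblocks from a row family, two legs and a guide. -/

namespace Pool.H61.ST

open Finset Pool.Agent.H61.SW Pool.H98.C

variable {V : Type} {G : SimpleGraph V}

lemma q_dist_mem (x : V) (s : List V) (h : ch G x s) (z : V) (hz : z ∈ x :: s) :
    G.dist x z ≤ s.length := by
  rcases List.mem_cons.1 hz with rfl | hz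
  · simp
  · obtain ⟨l, r, rfl⟩ := List.append_of_mem hz
    have h1 : ch G x (l ++ [z]) := by
      have e : l ++ z :: r = (l ++ [z]) ++ r := by simp
      rw [e, ch_append] at h
      exact h.1
    have h2 := dist_en_le x (l ++ [z]) h1
    rw [en_append] at h2
    simp only [en_cons, en_nil, List.length_append, List.length_cons, List.length_nil] at h2 ⊢
    omega

lemma q_join {x y a₀ b₀ : V} {a b : List V} {R : Set V} {F : Finset (List V)} (t : ℝ)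
    (ha : sa G x a) (hae : en x a = a₀) (hb : sa G y b) (hbe : en y b = b₀)
    (hF : Fm G x y R F) (hdis : ∀ z ∈ x :: a, ∀ z' ∈ y :: b, z ≠ z')
    (haR : ∀ z ∈ a, z ∉ R) (hbR : ∀ z ∈ b, z ∉ R) :
    ∃ F', Fm G a₀ b₀ (({z | z ∈ x :: a} ∪ R) ∪ {z | z ∈ y :: b}) F' ∧
      fw t F' = t ^ a.length * fw t F * t ^ b.length := by
  have h1 : Fm G x a₀ {z | z ∈ x :: a} {a} := by
    intro s hs
    rw [Finset.mem_singleton] at hs
    subst hs
    exact ⟨ha, hae, fun z hz => hz⟩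
  obtain ⟨F₁, hF₁, hw₁⟩ := fm_rev t h1
  obtain ⟨F₂, hF₂, hw₂⟩ := fm_comb t hF₁ hF (by
    intro v hv hvR
    rcases List.mem_cons.1 hv with hv | hv
    · exact hv
    · exact absurd hvR (haR v hv))
  have h3 : Fm G y b₀ {z | z ∈ y :: b} {b} := by
    intro s hs
    rw [Finset.mem_singleton] at hs
    subst hs
    exact ⟨hb, hbe, fun z hz => hz⟩
  obtain ⟨F₃, hF₃, hw₃⟩ := fm_comb t hF₂ h3 (by
    intro v hv hvb
    rcases hv with hv | hv
    · exact absurd rfl (hdis v hv v hvb)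
    · rcases List.mem_cons.1 hvb with hvb | hvb
      · exact hvb
      · exact absurd hv (hbR v hvb))
  refine ⟨F₃, hF₃, ?_⟩
  rw [hw₃, hw₂, hw₁]
  simp only [fw, Finset.sum_singleton]

/-- one segment -/
lemma q_seg (hG : TG G) (t : ℝ) (ht : 0 < t) (ht1 : t ≤ 1) (p ρ : ℕ) (σ : ℤ → V)
    (h : G ≃g G) (x y : V) (R : Set V) (F : Finset (List V)) (hF : Fm G x y R F)
    (hFne : F.Nonempty) (a b : List V) (τA τB : ℤ) (D L K0 : ℕ)
    (hA : |τA| ≤ L) (hB : |τB| ≤ L) (hal : a.length ≤ L) (hbl : b.length ≤ L)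
    (ha : sa G x a) (hae : en x a = h (σ τA)) (hb : sa G y b) (hbe : en y b = h (σ τB))
    (hdis : ∀ z ∈ x :: a, ∀ z' ∈ y :: b, z ≠ z')
    (haR : ∀ z ∈ a, z ∉ R) (hbR : ∀ z ∈ b, z ∉ R)
    (haσ : ∀ z ∈ x :: a, ∀ i : ℤ, |i| ≤ p → z = h (σ i) → i = τA)
    (hbσ : ∀ z ∈ y :: b, ∀ i : ℤ, |i| ≤ p → z = h (σ i) → i = τB)
    (hR : ∀ z ∈ R, G.dist x z < D) (hD : ∀ i : ℤ, |i| ≤ p → D ≤ G.dist x (h (σ i)))
    (h0 : G.dist (h (σ 0)) x ≤ K0) (hρ : K0 + D + L ≤ ρ)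
    (hw : 2 ≤ fw t F * t ^ (2 * L + p)) :
    ∃ (τ₁ τ₂ : ℤ) (F : Finset (List V)), -(ρ : ℤ) ≤ τ₁ ∧ τ₁ ≤ τ₂ ∧ τ₂ ≤ ρ ∧
      (∀ s ∈ F, sa G (σ τ₁) s ∧ en (σ τ₁) s = σ τ₂ ∧ (∀ z ∈ s, G.dist (σ 0) z ≤ ρ) ∧
        ∀ i : ℤ, |i| ≤ p → (i < τ₁ ∨ τ₂ < i) → σ i ∉ s) ∧
      2 ≤ (∑ s ∈ F, t ^ s.length) * t ^ (p - (τ₂ - τ₁).toNat) := by
  obtain ⟨F₁, hF₁, hw₁⟩ := q_join t ha hae hb hbe hF hdis haR hbR
  set A : Set V := (({z | z ∈ x :: a} ∪ R) ∪ {z | z ∈ y :: b}) with hAdef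
  -- the weight
  have hfw0 : 0 ≤ fw t F := Finset.sum_nonneg fun _ _ => by positivity
  have hwt : 2 ≤ fw t F₁ * t ^ p := by
    refine hw.trans ?_
    rw [hw₁]
    have h1 : t ^ L ≤ t ^ a.length := pow_le_pow_of_le_one ht.le ht1 hal
    have h2 : t ^ L ≤ t ^ b.length := pow_le_pow_of_le_one ht.le ht1 hbl
    calc fw t F * t ^ (2 * L + p) = (t ^ L * fw t F * t ^ L) * t ^ p := by ring
      _ ≤ (t ^ a.length * fw t F * t ^ b.length) * t ^ p := by gcongr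
  -- the region
  have hyR : G.dist x y < D := by
    obtain ⟨s, hs⟩ := hFne
    obtain ⟨_, e, m⟩ := hF s hs
    refine hR y (m y ?_)
    rw [← e]; exact en_mem_cons x s
  have hreg : ∀ z ∈ A, G.dist (h (σ 0)) z ≤ ρ := by
    intro z hz
    have h1 := hG.tri (h (σ 0)) x z
    rcases hz with (hz | hz) | hz
    · have h2 := q_dist_mem x a ha.1 z hz
      omega
    · have h2 := hR z hz
      omega
    · have h2 := q_dist_mem y b hb.1 z hz
      have h3 := hG.tri x y z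
      omega
  have havoid : ∀ i : ℤ, |i| ≤ p → h (σ i) ∈ A → i = τA ∨ i = τB := by
    intro i hi hz
    rcases hz with (hz | hz) | hz
    · exact Or.inl (haσ _ hz i hi rfl)
    · have h2 := hR _ hz
      have h3 := hD i hi
      omega
    · exact Or.inr (hbσ _ hz i hi rfl)
  -- finish
  have fin : ∀ (τ₁ τ₂ : ℤ) (F₂ : Finset (List V)), Fm G (h (σ τ₁)) (h (σ τ₂)) A F₂ →
      fw t F₂ = fw t F₁ → τ₁ ≤ τ₂ → (τ₁ = τA ∧ τ₂ = τB ∨ τ₁ = τB ∧ τ₂ = τA) →
      ∃ (τ₁ τ₂ : ℤ) (F : Finset (List V)), -(ρ : ℤ) ≤ τ₁ ∧ τ₁ ≤ τ₂ ∧ τ₂ ≤ ρ ∧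
      (∀ s ∈ F, sa G (σ τ₁) s ∧ en (σ τ₁) s = σ τ₂ ∧ (∀ z ∈ s, G.dist (σ 0) z ≤ ρ) ∧
        ∀ i : ℤ, |i| ≤ p → (i < τ₁ ∨ τ₂ < i) → σ i ∉ s) ∧
      2 ≤ (∑ s ∈ F, t ^ s.length) * t ^ (p - (τ₂ - τ₁).toNat) := by
    intro τ₁ τ₂ F₂ hF₂ hw₂ hle hcase
    obtain ⟨F₃, hF₃, hw₃⟩ := fm_map t hF₂ h.symm
    rw [h.symm_apply_apply, h.symm_apply_apply] at hF₃
    refine ⟨τ₁, τ₂, F₃, ?_, hle, ?_, ?_, ?_⟩
    · rw [abs_le] at hA hB
      rcases hcase with ⟨e, _⟩ | ⟨e, _⟩ <;> rw [e] <;> omega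
    · rw [abs_le] at hA hB
      rcases hcase with ⟨_, e⟩ | ⟨_, e⟩ <;> rw [e] <;> omega
    · intro s hs
      obtain ⟨c1, c2, c3⟩ := hF₃ s hs
      refine ⟨c1, c2, fun z hz => ?_, fun i hi hlt hmem => ?_⟩
      · obtain ⟨w, hw, rfl⟩ := c3 z (List.mem_cons_of_mem _ hz)
        have e : G.dist (σ 0) (h.symm w) = G.dist (h (σ 0)) w := by
          rw [← dist_iso hG.conn h (σ 0) (h.symm w), h.apply_symm_apply]
        rw [e]; exact hreg w hw
      · obtain ⟨w, hw, e⟩ := c3 _ (List.mem_cons_of_mem _ hmem)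
        have e2 : h (σ i) = w := by rw [← e, h.apply_symm_apply]
        have h4 := havoid i hi (by rw [e2]; exact hw)
        rcases hcase with ⟨e3, e4⟩ | ⟨e3, e4⟩ <;> rcases h4 with h4 | h4 <;> omega
    · have e : (∑ s ∈ F₃, t ^ s.length) = fw t F₁ := by
        change fw t F₃ = _
        rw [hw₃, hw₂]
      rw [e]
      refine hwt.trans ?_
      have h5 : 0 ≤ fw t F₁ := Finset.sum_nonneg fun _ _ => by positivity
      exact mul_le_mul_of_nonneg_left (pow_le_pow_of_le_one ht.le ht1 (Nat.sub_le _ _)) h5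
  rcases le_total τA τB with hle | hle
  · exact fin τA τB F₁ hF₁ rfl hle (Or.inl ⟨rfl, rfl⟩)
  · obtain ⟨F₂, hF₂, hw₂⟩ := fm_rev t hF₁
    exact fin τB τA F₂ hF₂ hw₂ hle (Or.inr ⟨rfl, rfl⟩)

/-- arithmetic: choice of `M` -/
lemma q_choose_M (t : ℝ) (ht : 0 < t) (E : ℕ) : ∃ M : ℕ, 1 ≤ M ∧ 2 ≤ (2 : ℝ) ^ (2 * M) * t ^ E := by
  obtain ⟨n, hn⟩ := pow_unbounded_of_one_lt (2 / t ^ E) (one_lt_two (α := ℝ))
  refine ⟨n + 1, by omega, ?_⟩
  have h1 : (0 : ℝ) < t ^ E := by positivity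
  rw [div_lt_iff₀ h1] at hn
  have h2 : (2 : ℝ) ^ n ≤ 2 ^ (2 * (n + 1)) := pow_le_pow_right₀ one_le_two (by omega)
  nlinarith

/-- arithmetic: choice of `N` -/
lemma q_choose_N (t : ℝ) (ht : 0 < t) (c N₀ : ℕ) : ∃ N : ℕ, N₀ ≤ N ∧ 1 ≤ N ∧ 2 ≤ (2 : ℝ) ^ N * t ^ c := by
  obtain ⟨n, hn⟩ := pow_unbounded_of_one_lt (2 / t ^ c) (one_lt_two (α := ℝ))
  refine ⟨n + N₀ + 1, by omega, by omega, ?_⟩
  have h1 : (0 : ℝ) < t ^ c := by positivity
  rw [div_lt_iff₀ h1] at hn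
  have h2 : (2 : ℝ) ^ n ≤ 2 ^ (n + N₀ + 1) := pow_le_pow_right₀ one_le_two (by omega)
  nlinarith

theorem quad_super_of (hG : TG G) (hs : HS G) (s g : G ≃g G) (x : V) (C : ℕ)
    (hL : LatQI G s g x C)
    (F : Finset (List V))
    (hF : Fm G x (g x) {z | z = g x ∨ (hs.u x ≤ hs.u z ∧ hs.u z < hs.u (g x))} F)
    (t : ℝ) (ht : 0 < t) (ht1 : t ≤ 1) (hw : 2 ≤ fw t F)
    (hrow : ∃ Ce J b₀ : ℕ, ∀ b ≥ b₀, ∀ M ≥ 1, ∃ c : ℕ, ∀ N ≥ 1, ∃ F' : Finset (List V),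
      Fm G x ((s ^ ((2 * M - 1) * b : ℕ)) x)
        (RowReg G hs.u s g x Ce J b ((2 * M - 1) * b) N) F' ∧
      (2 : ℝ) ^ (2 * M * N) * t ^ c ≤ fw t F')
    (hlegs : ∀ w₀ : List V,
      Fm G x (g x) {z | z = g x ∨ (hs.u x ≤ hs.u z ∧ hs.u z < hs.u (g x))} {w₀} →
      ∀ Ce J K₀ : ℕ,
    ∃ b₁ K₁ K₂ K₃ : ℕ, ∀ b ≥ b₁, ∀ iB : ℕ, b ≤ iB → ∃ N₀ : ℕ, ∀ N ≥ N₀,
      ∀ (p : ℕ) (σ : ℤ → V), IsSeg G p σ → K₃ * N ≤ p →
      (∀ i : ℤ, |i| ≤ p → K₁ * N ≤ G.dist x (σ i)) →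
      (∃ i₀ : ℤ, |i₀| ≤ K₀ * (K₁ * N) ∧ G.dist x (σ i₀) = K₁ * N) →
      ∃ (τA τB : ℤ) (a b' : List V), |τA| ≤ K₂ * N ∧ |τB| ≤ K₂ * N ∧
        a.length ≤ K₂ * N ∧ b'.length ≤ K₂ * N ∧
        sa G x a ∧ en x a = σ τA ∧ sa G ((s ^ iB) x) b' ∧ en ((s ^ iB) x) b' = σ τB ∧
        (∀ z ∈ x :: a, ∀ z' ∈ (s ^ iB) x :: b', z ≠ z') ∧
        (∀ z ∈ a, z ∉ RowReg G hs.u s g x Ce J b iB N) ∧
        (∀ z ∈ b', z ∉ RowReg G hs.u s g x Ce J b iB N) ∧
        (∀ z ∈ x :: a, ∀ i : ℤ, |i| ≤ p → z = σ i → i = τA) ∧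
        (∀ z ∈ (s ^ iB) x :: b', ∀ i : ℤ, |i| ≤ p → z = σ i → i = τB) ∧
        (∀ z ∈ RowReg G hs.u s g x Ce J b iB N, G.dist x z < K₁ * N)) :
    ∃ p ρ : ℕ, 2 * ρ < p ∧ Super G t p ρ := by
  -- a single walk of the family
  have hFne : F.Nonempty := by
    by_contra hne
    rw [Finset.not_nonempty_iff_eq_empty] at hne
    subst hne
    simp only [fw, Finset.sum_empty] at hw
    linarith
  obtain ⟨w₀, hw₀⟩ := hFne
  obtain ⟨Ce, J, b₀, hrow⟩ := hrow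
  obtain ⟨K₀, hpt⟩ := exists_point hG s g x C hL
  obtain ⟨b₁, K₁, K₂, K₃, hlegs⟩ := hlegs w₀ (fun w hw => by
    rw [Finset.mem_singleton] at hw
    subst hw
    exact hF _ hw₀) Ce J (K₀ + 1)
  set ρ' : ℕ := K₀ * K₁ + K₁ + K₂ with hρ'
  set P : ℕ := K₃ + 3 * K₀ * K₁ + 2 * ρ' + 1 with hP
  obtain ⟨M, hM, hqM⟩ := q_choose_M t ht (2 * K₂ + P)
  set b : ℕ := max b₀ b₁ with hb
  obtain ⟨c, hrow⟩ := hrow b (le_max_left _ _) M hM
  have hiB : b ≤ (2 * M - 1) * b := Nat.le_mul_of_pos_left _ (by omega)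
  obtain ⟨N₀, hlegs⟩ := hlegs b (le_max_right _ _) ((2 * M - 1) * b) hiB
  obtain ⟨N, hN0, hN1, hqN⟩ := q_choose_N t ht c N₀
  obtain ⟨F', hF', hw'⟩ := hrow N hN1
  have hlegs := hlegs N hN0
  have hρp : 2 * (ρ' * N) < P * N := by
    have : 2 * (ρ' * N) + 1 * N ≤ P * N := by
      rw [← mul_assoc, ← add_mul]
      exact Nat.mul_le_mul_right _ (by omega)
    omega
  refine ⟨P * N, ρ' * N, hρp, ?_⟩
  intro σ hσ
  -- placement
  obtain ⟨h, hh0, hhD, i₀, hi₀, hhi⟩ : ∃ h : G ≃g G, G.dist (h (σ 0)) x ≤ K₀ * (K₁ * N) ∧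
      (∀ i : ℤ, |i| ≤ (P * N : ℕ) → K₁ * N ≤ G.dist x (h (σ i))) ∧
      ∃ i₀ : ℤ, |i₀| ≤ (K₀ + 1 : ℕ) * (K₁ * N) ∧ G.dist x (h (σ i₀)) = K₁ * N := by
    rcases Nat.eq_zero_or_pos (K₁ * N) with h0 | h0
    · obtain ⟨h, hh⟩ := hG.tr (σ 0) x
      refine ⟨h, by rw [hh]; simp, fun i _ => by rw [h0]; exact Nat.zero_le _, 0, ?_, ?_⟩
      · rw [abs_zero]; positivity
      · rw [hh, h0]; simp
    · obtain ⟨z, hz0, hz1, i₀, hi₀, hz2⟩ := hpt (K₁ * N) h0 (P * N) σ hσ (by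
        rw [← mul_assoc]
        exact Nat.mul_le_mul_right _ (by omega))
      obtain ⟨h, hh⟩ := hG.tr z x
      have e : ∀ i, G.dist x (h (σ i)) = G.dist z (σ i) := by
        intro i
        rw [← hh, dist_iso hG.conn]
      refine ⟨h, ?_, fun i hi => by rw [e]; exact hz1 i hi, i₀, ?_, by rw [e]; exact hz2⟩
      · rw [← hh, dist_iso hG.conn]; exact hz0
      · push_cast at hi₀ ⊢
        exact hi₀
  have hσ' : IsSeg G (P * N) (fun i => h (σ i)) := by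
    intro i j hi hj
    beta_reduce
    rw [dist_iso hG.conn]
    exact hσ i j hi hj
  obtain ⟨τA, τB, a, b', hA, hB, hal, hbl, ha, hae, hb', hbe, hdis, haR, hbR, haσ, hbσ, hR⟩ :=
    hlegs (P * N) (fun i => h (σ i)) hσ' (Nat.mul_le_mul_right _ (by omega)) hhD ⟨i₀, hi₀, hhi⟩
  have hF'ne : F'.Nonempty := by
    by_contra hne
    rw [Finset.not_nonempty_iff_eq_empty] at hne
    subst hne
    simp only [fw, Finset.sum_empty] at hw'
    have : (0 : ℝ) < 2 ^ (2 * M * N) * t ^ c := by positivity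
    linarith
  refine q_seg hG t ht ht1 (P * N) (ρ' * N) σ h x _ _ F' hF' hF'ne a b' τA τB (K₁ * N) (K₂ * N)
    (K₀ * (K₁ * N)) (by push_cast; exact hA) (by push_cast; exact hB) hal hbl ha hae hb' hbe hdis
    haR hbR haσ hbσ hR hhD hh0 ?_ ?_
  · rw [hρ']
    apply le_of_eq
    ring
  · calc (2 : ℝ) ≤ (2 : ℝ) ^ N * t ^ c := hqN
      _ ≤ ((2 : ℝ) ^ (2 * M) * t ^ (2 * K₂ + P)) ^ N * t ^ c := by gcongr
      _ = (2 : ℝ) ^ (2 * M * N) * t ^ c * t ^ (2 * (K₂ * N) + P * N) := by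
        rw [mul_pow, ← pow_mul, ← pow_mul]; ring
      _ ≤ fw t F' * t ^ (2 * (K₂ * N) + P * N) := by gcongr

end Pool.H61.ST

end S_H61_ST_QsupCore

section S_H61_ST_Leg

set_option autoImplicit false

/-! Module LEG: two disjoint legs from the row of tubes to the guide. -/

namespace Pool.H61.ST

open Finset Pool.Agent.H61.SW Pool.H98.C

namespace Leg

variable {V : Type} {G : SimpleGraph V}

/-- there is a walk from `x` to `y` inside `A` -/
def Wk (G : SimpleGraph V) (A : Set V) (x y : V) : Prop :=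
  ∃ s : List V, ch G x s ∧ en x s = y ∧ ∀ z ∈ x :: s, z ∈ A

lemma Wk.refl {A : Set V} {x : V} (h : x ∈ A) : Wk G A x x :=
  ⟨[], trivial, rfl, by simpa using h⟩

lemma Wk.mono {A B : Set V} (hAB : A ⊆ B) {x y : V} (h : Wk G A x y) : Wk G B x y := by
  obtain ⟨s, h1, h2, h3⟩ := h
  exact ⟨s, h1, h2, fun z hz => hAB (h3 z hz)⟩

lemma Wk.trans {A : Set V} {x y z : V} (h : Wk G A x y) (h' : Wk G A y z) : Wk G A x z := by
  obtain ⟨s, h1, h2, h3⟩ := h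
  obtain ⟨t, h4, h5, h6⟩ := h'
  refine ⟨s ++ t, (ch_append _ _ _).2 ⟨h1, by rw [h2]; exact h4⟩, ?_, ?_⟩
  · rw [en_append, h2, h5]
  · intro w hw
    rw [← List.cons_append, List.mem_append] at hw
    rcases hw with hw | hw
    · exact h3 w hw
    · exact h6 w (List.mem_cons_of_mem _ hw)

lemma Wk.symm {A : Set V} {x y : V} (h : Wk G A x y) : Wk G A y x := by
  obtain ⟨s, h1, h2, h3⟩ := h
  refine ⟨rv x s, ?_, ?_, ?_⟩
  · rw [← h2]; exact ch_rv x s h1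
  · rw [← h2]; exact en_rv x s
  · intro z hz
    rw [← h2] at hz
    exact h3 z (mem_rv.1 hz)

variable (hG : TG G)
include hG

lemma Wk.geo {A : Set V} {x y : V} (h : ∀ z, G.dist x z ≤ G.dist x y → z ∈ A) : Wk G A x y := by
  refine ⟨Pool.H98.C.geo hG x y, ch_geo hG x y, en_geo hG x y, ?_⟩
  intro z hz
  rcases List.mem_cons.1 hz with rfl | hz
  · exact h _ (by simp)
  · exact h z (mem_geo_dist hG hz)

omit hG in
/-- first vertex with a property -/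
lemma first (P : V → Prop) (s : List V) : ∀ x : V, ch G x s → P (en x s) →
    ∃ s1, ch G x s1 ∧ P (en x s1) ∧ ∀ z ∈ x :: s1, z ∈ x :: s ∧ (z = en x s1 ∨ ¬ P z) := by
  classical
  induction s with
  | nil =>
    intro x _ h
    refine ⟨[], trivial, h, ?_⟩
    intro z hz
    have : z = x := by simpa using hz
    subst this; simp
  | cons a s ih =>
    intro x hc h
    by_cases hx : P x
    · refine ⟨[], trivial, hx, ?_⟩
      intro z hz
      have : z = x := by simpa using hz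
      subst this; simp
    · obtain ⟨s1, h1, h2, h3⟩ := ih a hc.2 h
      refine ⟨a :: s1, ⟨hc.1, h1⟩, h2, ?_⟩
      intro z hz
      rcases List.mem_cons.1 hz with rfl | hz
      · exact ⟨by simp, Or.inr hx⟩
      · obtain ⟨h4, h5⟩ := h3 z hz
        exact ⟨List.mem_cons_of_mem _ h4, h5⟩

lemma geo_add {x y z : V} (h : z ∈ x :: Pool.H98.C.geo hG x y) :
    G.dist x z + G.dist z y ≤ G.dist x y := by
  rcases List.mem_cons.1 h with rfl | h
  · simp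
  · obtain ⟨s1, s2, hs⟩ := List.append_of_mem h
    have hc := ch_geo hG x y
    have he := en_geo hG x y
    have hl := length_geo hG x y
    rw [hs] at hc he hl
    have h1 := (ch_append x s1 (z :: s2)).1 hc
    have h2 : ch G x (s1 ++ [z]) := (ch_append x s1 [z]).2 ⟨h1.1, h1.2.1, trivial⟩
    have h3 : G.dist x z ≤ (s1 ++ [z]).length := dist_mem_ch h2 (by simp)
    have h4 : ch G z s2 := h1.2.2
    have h5 : en z s2 = y := by rw [en_append] at he; exact he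
    have h6 : G.dist z y ≤ s2.length := by
      rw [← h5]; exact dist_mem_ch h4 (en_mem_cons z s2)
    simp only [List.length_append, List.length_cons, List.length_nil] at h3 hl
    omega

/-- cut a walk at the first vertex near the segment and go to the nearest vertex of the segment -/
lemma cut {A : Set V} {x y : V} (hA : Wk G A x y) (p : ℕ) (σ : ℤ → V) (hσ : IsSeg G p σ) (D : ℕ)
    (hy : ∃ i : ℤ, |i| ≤ p ∧ G.dist y (σ i) ≤ D) :
    ∃ (τ : ℤ) (a : List V), |τ| ≤ p ∧ sa G x a ∧ en x a = σ τ ∧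
      (∀ z ∈ x :: a, (z ∈ A ∧ ∀ i : ℤ, |i| ≤ p → D < G.dist z (σ i)) ∨
        ((∃ y' ∈ A, G.dist y' z ≤ D) ∧ G.dist z (σ τ) ≤ D)) ∧
      (∀ z ∈ x :: a, ∀ i : ℤ, |i| ≤ p → z = σ i → i = τ) := by
  classical
  obtain ⟨s, h1, h2, h3⟩ := hA
  obtain ⟨s1, h4, h5, h6⟩ := first (G := G) (fun v => ∃ i : ℤ, |i| ≤ p ∧ G.dist v (σ i) ≤ D) s x h1
    (by rw [h2]; exact hy)
  set y' := en x s1 with hy'
  have hy'A : y' ∈ A := h3 y' (h6 y' (en_mem_cons x s1)).1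
  -- nearest point
  have hex : ∃ n : ℕ, ∃ i : ℤ, |i| ≤ p ∧ G.dist y' (σ i) = n := by
    obtain ⟨i, hi, _⟩ := h5
    exact ⟨_, i, hi, rfl⟩
  obtain ⟨τ, hτ, hτd⟩ := Nat.find_spec hex
  have hmin : ∀ i : ℤ, |i| ≤ p → G.dist y' (σ τ) ≤ G.dist y' (σ i) := by
    intro i hi
    rw [hτd]
    exact Nat.find_min' hex ⟨i, hi, rfl⟩
  have hτD : G.dist y' (σ τ) ≤ D := by
    obtain ⟨i, hi, hd⟩ := h5
    exact (hmin i hi).trans hd
  obtain ⟨a, a1, a2, a3, a4⟩ := loop_erase x (s1 ++ Pool.H98.C.geo hG y' (σ τ))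
    ((ch_append _ _ _).2 ⟨h4, ch_geo hG y' (σ τ)⟩)
  have hmem : ∀ z ∈ x :: a, z ∈ x :: s1 ∨ z ∈ y' :: Pool.H98.C.geo hG y' (σ τ) := by
    intro z hz
    rcases List.mem_cons.1 hz with rfl | hz
    · left; simp
    · rcases List.mem_append.1 (a4 z hz) with hz | hz
      · left; exact List.mem_cons_of_mem _ hz
      · right; exact List.mem_cons_of_mem _ hz
  refine ⟨τ, a, hτ, a1, ?_, ?_, ?_⟩
  · rw [a2, en_append]; exact en_geo hG _ _
  · intro z hz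
    have hgeo : z ∈ y' :: Pool.H98.C.geo hG y' (σ τ) →
        ((∃ y' ∈ A, G.dist y' z ≤ D) ∧ G.dist z (σ τ) ≤ D) := by
      intro h
      have := geo_add hG h
      exact ⟨⟨y', hy'A, by omega⟩, by omega⟩
    rcases hmem z hz with h | h
    · obtain ⟨h7, h8⟩ := h6 z h
      rcases h8 with h8 | h8
      · right; exact hgeo (by rw [h8]; simp)
      · left
        refine ⟨h3 z h7, fun i hi => ?_⟩
        by_contra hcon
        exact h8 ⟨i, hi, by omega⟩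
    · right; exact hgeo h
  · intro z hz i hi hzi
    have hgeo : z ∈ y' :: Pool.H98.C.geo hG y' (σ τ) → i = τ := by
      intro h
      have h7 := geo_add hG h
      have h8 := hmin i hi
      rw [← hzi] at h8
      have h9 : G.dist (σ i) (σ τ) = 0 := by rw [← hzi]; omega
      have h10 := hσ i τ hi hτ
      rw [h9] at h10
      have : i - τ = 0 := abs_eq_zero.1 (by simpa using h10.symm)
      omega
    rcases hmem z hz with h | h
    · obtain ⟨h7, h8⟩ := h6 z h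
      rcases h8 with h8 | h8
      · exact hgeo (by rw [h8]; simp)
      · exfalso
        exact h8 ⟨i, hi, by rw [hzi]; simp⟩
    · exact hgeo h

/-! ### lattice points -/

omit hG in
/-- lattice point -/
def ps (s g : G ≃g G) (x : V) (i j : ℤ) : V := (s ^ i) ((g ^ j) x)

omit hG in
lemma zpow_succ_apply (g : G ≃g G) (j : ℤ) (x : V) : (g ^ (j + 1)) x = (g ^ j) (g x) := by
  rw [zpow_add_one]; rfl

omit hG in
lemma ps_zero (s g : G ≃g G) (x : V) : ps s g x 0 0 = x := by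
  simp [ps]

lemma dist_ps_h (s g : G ≃g G) (x : V) (C : ℕ) (hL : LatQI G s g x C) (i j : ℤ) :
    G.dist (ps s g x i j) (ps s g x (i + 1) j) ≤ C := by
  unfold ps
  rw [zpow_succ_apply, dist_iso hG.conn]
  exact hL.q1 j

lemma dist_ps_v (s g : G ≃g G) (x : V) (i j : ℤ) :
    G.dist (ps s g x i j) (ps s g x i (j + 1)) = G.dist x (g x) := by
  unfold ps
  rw [dist_iso hG.conn, zpow_succ_apply, dist_iso hG.conn]

lemma dist_ps_hn (s g : G ≃g G) (x : V) (C L : ℕ) (hL : LatQI G s g x C) (hCL : C ≤ L)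
    (i j : ℤ) (n : ℕ) : G.dist (ps s g x i j) (ps s g x (i + n) j) ≤ L * n := by
  induction n with
  | zero => simp
  | succ n ih =>
    have h1 := hG.tri (ps s g x i j) (ps s g x (i + n) j) (ps s g x (i + n + 1) j)
    have h2 := dist_ps_h hG s g x C hL (i + n) j
    have h3 : i + ((n + 1 : ℕ) : ℤ) = i + n + 1 := by push_cast; ring
    rw [h3]
    calc _ ≤ _ := h1
      _ ≤ L * n + L := by omega
      _ = L * (n + 1) := by ring

lemma dist_ps_vn (s g : G ≃g G) (x : V) (L : ℕ) (hgL : G.dist x (g x) ≤ L)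
    (i j : ℤ) (n : ℕ) : G.dist (ps s g x i j) (ps s g x i (j + n)) ≤ L * n := by
  induction n with
  | zero => simp
  | succ n ih =>
    have h1 := hG.tri (ps s g x i j) (ps s g x i (j + n)) (ps s g x i (j + n + 1))
    have h2 := dist_ps_v hG s g x i (j + n)
    have h3 : j + ((n + 1 : ℕ) : ℤ) = j + n + 1 := by push_cast; ring
    rw [h3]
    calc _ ≤ _ := h1
      _ ≤ L * n + L := by omega
      _ = L * (n + 1) := by ring

lemma dist_ps_le (s g : G ≃g G) (x : V) (C L : ℕ) (hL : LatQI G s g x C) (hCL : C ≤ L)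
    (hgL : G.dist x (g x) ≤ L) (i j i' j' : ℤ) (m : ℕ) (hm : |i - i'| + |j - j'| ≤ m) :
    G.dist (ps s g x i j) (ps s g x i' j') ≤ L * m := by
  have hh : G.dist (ps s g x i j) (ps s g x i' j) ≤ L * (i - i').natAbs := by
    rcases le_total i i' with h | h
    · have := dist_ps_hn hG s g x C L hL hCL i j (i - i').natAbs
      have h2 : i + ((i - i').natAbs : ℤ) = i' := by omega
      rwa [h2] at this
    · have := dist_ps_hn hG s g x C L hL hCL i' j (i - i').natAbs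
      have h2 : i' + ((i - i').natAbs : ℤ) = i := by omega
      rw [h2, SimpleGraph.dist_comm] at this
      exact this
  have hv : G.dist (ps s g x i' j) (ps s g x i' j') ≤ L * (j - j').natAbs := by
    rcases le_total j j' with h | h
    · have := dist_ps_vn hG s g x L hgL i' j (j - j').natAbs
      have h2 : j + ((j - j').natAbs : ℤ) = j' := by omega
      rwa [h2] at this
    · have := dist_ps_vn hG s g x L hgL i' j' (j - j').natAbs
      have h2 : j' + ((j - j').natAbs : ℤ) = j := by omega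
      rw [h2, SimpleGraph.dist_comm] at this
      exact this
  have h1 := hG.tri (ps s g x i j) (ps s g x i' j) (ps s g x i' j')
  rw [Int.abs_eq_natAbs, Int.abs_eq_natAbs] at hm
  calc _ ≤ _ := h1
    _ ≤ L * (i - i').natAbs + L * (j - j').natAbs := by omega
    _ = L * ((i - i').natAbs + (j - j').natAbs) := by ring
    _ ≤ L * m := Nat.mul_le_mul_left _ (by omega)

omit hG in
lemma lat_le (s g : G ≃g G) (x : V) (C : ℕ) (hL : LatQI G s g x C) (i j i' j' : ℤ) (m : ℕ)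
    (h : G.dist (ps s g x i j) (ps s g x i' j') ≤ m) :
    |i - i'| + |j - j'| ≤ C * (m + 1) := by
  have h1 := hL.q2 i j i' j'
  have h2 : (C : ℤ) * (G.dist ((s ^ i) ((g ^ j) x)) ((s ^ i') ((g ^ j') x)) + 1) ≤
      C * (m + 1) := by
    apply mul_le_mul_of_nonneg_left _ (by positivity)
    have : (G.dist ((s ^ i) ((g ^ j) x)) ((s ^ i') ((g ^ j') x)) : ℤ) ≤ m := by exact_mod_cast h
    linarith
  exact h1.trans h2

omit hG in
lemma C_pos (s g : G ≃g G) (x : V) (C : ℕ) (hL : LatQI G s g x C) : 1 ≤ C := by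
  by_contra hcon
  have : C = 0 := by omega
  subst this
  have := hL.q2 0 0 1 0
  simp at this

/-! ### heights -/

omit hG in
lemma height_pow (u : V → ℝ) (h : G ≃g G) (c : ℝ) (hc : ∀ z, u (h z) = u z + c) (n : ℤ) :
    ∀ z, u ((h ^ n) z) = u z + n * c := by
  induction n with
  | zero => intro z; simp
  | succ n ih =>
    intro z
    rw [zpow_succ_apply, ih, hc]; push_cast; ring
  | pred n ih =>
    intro z
    have h1 := ih (h⁻¹ z)
    have h2 := hc (h⁻¹ z)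
    rw [RelIso.apply_inv_self] at h2
    have h3 : (h ^ (-(n : ℤ) - 1)) z = (h ^ (-(n : ℤ))) (h⁻¹ z) := by
      rw [zpow_sub_one]; rfl
    rw [h3, h1]; push_cast; linarith

/-! ### connectivity of lattice regions -/

omit hG in
/-- neighbourhood of a lattice set -/
def Nb (G : SimpleGraph V) (s g : G ≃g G) (x : V) (L : ℕ) (P : ℤ → ℤ → Prop) : Set V :=
  {z | ∃ i j, P i j ∧ G.dist z (ps s g x i j) ≤ L}

lemma seg_h (s g : G ≃g G) (x : V) (C L : ℕ) (hL : LatQI G s g x C) (hCL : C ≤ L)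
    (P : ℤ → ℤ → Prop) (i i' j : ℤ) (hii : i ≤ i') (hP : ∀ k, i ≤ k → k ≤ i' → P k j) :
    Wk G (Nb G s g x L P) (ps s g x i j) (ps s g x i' j) := by
  obtain ⟨n, rfl⟩ : ∃ n : ℕ, i' = i + n := ⟨(i' - i).toNat, by omega⟩
  induction n with
  | zero =>
    have : i + ((0 : ℕ) : ℤ) = i := by simp
    rw [this]
    exact Wk.refl ⟨i, j, hP i le_rfl (by omega), by simp⟩
  | succ n ih =>
    have h1 := ih (by omega) (fun k h1 h2 => hP k h1 (by push_cast; omega))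
    refine h1.trans ?_
    have h3 : i + ((n + 1 : ℕ) : ℤ) = i + n + 1 := by push_cast; ring
    rw [h3]
    refine Wk.geo hG fun z hz => ⟨i + n, j, hP _ (by omega) (by push_cast; omega), ?_⟩
    have := dist_ps_h hG s g x C hL (i + n) j
    rw [SimpleGraph.dist_comm]; omega

lemma seg_v (s g : G ≃g G) (x : V) (L : ℕ) (hgL : G.dist x (g x) ≤ L)
    (P : ℤ → ℤ → Prop) (i j j' : ℤ) (hjj : j ≤ j') (hP : ∀ k, j ≤ k → k ≤ j' → P i k) :
    Wk G (Nb G s g x L P) (ps s g x i j) (ps s g x i j') := by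
  obtain ⟨n, rfl⟩ : ∃ n : ℕ, j' = j + n := ⟨(j' - j).toNat, by omega⟩
  induction n with
  | zero =>
    have : j + ((0 : ℕ) : ℤ) = j := by simp
    rw [this]
    exact Wk.refl ⟨i, j, hP j le_rfl (by omega), by simp⟩
  | succ n ih =>
    have h1 := ih (by omega) (fun k h1 h2 => hP k h1 (by push_cast; omega))
    refine h1.trans ?_
    have h3 : j + ((n + 1 : ℕ) : ℤ) = j + n + 1 := by push_cast; ring
    rw [h3]
    refine Wk.geo hG fun z hz => ⟨i, j + n, hP _ (by omega) (by push_cast; omega), ?_⟩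
    have := dist_ps_v hG s g x i (j + n)
    rw [SimpleGraph.dist_comm]; omega

omit hG in
/-- the ring of radius `ρ` without the part of the bottom side strictly between `c` and `q` -/
def Rg (c q ρ i j : ℤ) : Prop :=
  (-ρ ≤ i ∧ i ≤ ρ ∧ -ρ ≤ j ∧ j ≤ ρ) ∧ (i = ρ ∨ i = -ρ ∨ j = ρ ∨ j = -ρ) ∧
    (j = -ρ → i ≤ c ∨ q ≤ i)

lemma ring_conn (s g : G ≃g G) (x : V) (C L : ℕ) (hL : LatQI G s g x C) (hCL : C ≤ L)
    (hgL : G.dist x (g x) ≤ L) (c q ρ : ℤ) (hc0 : 0 ≤ c) (hcρ : c ≤ ρ) (hqρ : q ≤ ρ) (i j : ℤ)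
    (hij : Rg c q ρ i j) :
    Wk G (Nb G s g x L (Rg c q ρ)) (ps s g x c (-ρ)) (ps s g x i j) := by
  have e1 : ∀ i', -ρ ≤ i' → i' ≤ c → Wk G (Nb G s g x L (Rg c q ρ)) (ps s g x c (-ρ))
      (ps s g x i' (-ρ)) := fun i' h1 h2 =>
    (seg_h hG s g x C L hL hCL (Rg c q ρ) i' c (-ρ) h2
      (fun k h3 h4 => by unfold Rg; omega)).symm
  have e2 : ∀ j', -ρ ≤ j' → j' ≤ ρ → Wk G (Nb G s g x L (Rg c q ρ)) (ps s g x c (-ρ))
      (ps s g x (-ρ) j') := fun j' h1 h2 =>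
    (e1 (-ρ) le_rfl (by omega)).trans
      (seg_v hG s g x L hgL (Rg c q ρ) (-ρ) (-ρ) j' h1 (fun k h3 h4 => by unfold Rg; omega))
  have e3 : ∀ i', -ρ ≤ i' → i' ≤ ρ → Wk G (Nb G s g x L (Rg c q ρ)) (ps s g x c (-ρ))
      (ps s g x i' ρ) := fun i' h1 h2 =>
    (e2 ρ (by omega) le_rfl).trans
      (seg_h hG s g x C L hL hCL (Rg c q ρ) (-ρ) i' ρ h1 (fun k h3 h4 => by unfold Rg; omega))
  have e4 : ∀ j', -ρ ≤ j' → j' ≤ ρ → Wk G (Nb G s g x L (Rg c q ρ)) (ps s g x c (-ρ))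
      (ps s g x ρ j') := fun j' h1 h2 =>
    (e3 ρ (by omega) le_rfl).trans
      (seg_v hG s g x L hgL (Rg c q ρ) ρ j' ρ h2 (fun k h3 h4 => by unfold Rg; omega)).symm
  have e5 : ∀ i', q ≤ i' → -ρ ≤ i' → i' ≤ ρ → Wk G (Nb G s g x L (Rg c q ρ)) (ps s g x c (-ρ))
      (ps s g x i' (-ρ)) := fun i' h0 h1 h2 =>
    (e4 (-ρ) le_rfl (by omega)).trans
      (seg_h hG s g x C L hL hCL (Rg c q ρ) i' ρ (-ρ) h2
        (fun k h3 h4 => by unfold Rg; omega)).symm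
  obtain ⟨⟨h1, h2, h3, h4⟩, h5, h6⟩ := hij
  rcases h5 with h5 | h5 | h5 | h5
  · subst h5; exact e4 j h3 h4
  · subst h5; exact e2 j h3 h4
  · subst h5; exact e3 i h1 h2
  · subst h5
    rcases h6 rfl with h6 | h6
    · exact e1 i h1 h6
    · exact e5 i h6 h1 h2

/-! ### columns -/

omit hG in
/-- vertices below height `u x` near the column `c` -/
def Col (G : SimpleGraph V) (u : V → ℝ) (s g : G ≃g G) (x : V) (L : ℕ) (c ρ : ℤ) : Set V :=
  {z | z = ps s g x c 0 ∨ (u z < u x ∧ ∃ j : ℤ, -ρ ≤ j ∧ j ≤ 0 ∧ G.dist z (ps s g x c j) ≤ L)}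

omit hG in
lemma col_step (u : V → ℝ) (s g : G ≃g G) (x : V) (k : ℝ) (hk : 0 < k)
    (hug : ∀ z, u (g z) = u z + k) (hus : ∀ z, u (s z) = u z) (w₀ : List V)
    (hw0 : Fm G x (g x) {z | z = g x ∨ (u x ≤ u z ∧ u z < u (g x))} {w₀}) (L : ℕ)
    (hwL : w₀.length ≤ L) (c ρ : ℤ) (n : ℕ) (hn : (n : ℤ) + 1 ≤ ρ) :
    Wk G (Col G u s g x L c ρ) (ps s g x c (-(n : ℤ) - 1)) (ps s g x c (-(n : ℤ))) := by
  obtain ⟨h1, h2, h3⟩ := hw0 w₀ (by simp)
  have hus' : ∀ z, u ((s ^ c) z) = u z := fun z => by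
    have := height_pow u s 0 (fun z => by rw [hus, add_zero]) c z
    simpa using this
  have hug' : ∀ (m : ℤ) z, u ((g ^ m) z) = u z + m * k := fun m z => height_pow u g k hug m z
  set h : G ≃g G := s ^ c * g ^ (-(n : ℤ) - 1) with hh
  have hhx : h x = ps s g x c (-(n : ℤ) - 1) := rfl
  have hhg : h (g x) = ps s g x c (-(n : ℤ)) := by
    show (s ^ c) ((g ^ (-(n : ℤ) - 1)) (g x)) = _
    rw [← zpow_succ_apply]
    have : -(n : ℤ) - 1 + 1 = -(n : ℤ) := by ring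
    rw [this]; rfl
  have hhu : ∀ z, u (h z) = u z + ((-(n : ℤ) - 1 : ℤ) : ℝ) * k := fun z => by
    show u ((s ^ c) ((g ^ (-(n : ℤ) - 1)) z)) = _
    rw [hus', hug']
  refine ⟨w₀.map h, ?_, ?_, ?_⟩
  · rw [← hhx]; exact (ch_map h x w₀).2 h1.1
  · rw [← hhx, en_map (fun z => h z) x w₀, h2]; exact hhg
  · intro z hz
    rw [← hhx, ← List.map_cons] at hz
    obtain ⟨y, hy, rfl⟩ := List.mem_map.1 hz
    rcases h3 y hy with h4 | ⟨h4, h5⟩
    · subst h4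
      rw [hhg]
      rcases Nat.eq_zero_or_pos n with hn0 | hn0
      · left; subst hn0; simp
      · right
        refine ⟨?_, -(n : ℤ), by omega, by omega, by simp⟩
        rw [← hhg, hhu, hug]
        push_cast
        have : (1 : ℝ) ≤ n := by exact_mod_cast hn0
        nlinarith
    · right
      refine ⟨?_, -(n : ℤ) - 1, by omega, by omega, ?_⟩
      · rw [hhu]
        rw [hug] at h5
        push_cast
        have : (0 : ℝ) ≤ n := by positivity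
        nlinarith
      · rw [← hhx]
        have h6 : ch G (h x) (w₀.map h) := (ch_map h x w₀).2 h1.1
        have h7 : G.dist (h x) (h y) ≤ (w₀.map h).length := dist_mem_ch h6 hz
        rw [List.length_map] at h7
        rw [SimpleGraph.dist_comm]; omega

omit hG in
lemma col_conn (u : V → ℝ) (s g : G ≃g G) (x : V) (k : ℝ) (hk : 0 < k)
    (hug : ∀ z, u (g z) = u z + k) (hus : ∀ z, u (s z) = u z) (w₀ : List V)
    (hw0 : Fm G x (g x) {z | z = g x ∨ (u x ≤ u z ∧ u z < u (g x))} {w₀}) (L : ℕ)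
    (hwL : w₀.length ≤ L) (c ρ : ℤ) (n : ℕ) (hn : (n : ℤ) ≤ ρ) :
    Wk G (Col G u s g x L c ρ) (ps s g x c 0) (ps s g x c (-(n : ℤ))) := by
  induction n with
  | zero =>
    have : Wk G (Col G u s g x L c ρ) (ps s g x c 0) (ps s g x c 0) := Wk.refl (Or.inl rfl)
    simpa using this
  | succ n ih =>
    have h1 := ih (by push_cast at hn; omega)
    have h2 := (col_step u s g x k hk hug hus w₀ hw0 L hwL c ρ n
      (by push_cast at hn; omega)).symm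
    have h3 : -((n + 1 : ℕ) : ℤ) = -(n : ℤ) - 1 := by push_cast; ring
    rw [h3]
    exact h1.trans h2

/-! ### crossing rings -/

omit hG in
lemma last_true (Q : ℤ → Prop) (i₀ p : ℤ) (h0 : Q i₀) (hp : ¬ Q p) (hip : i₀ ≤ p) :
    ∃ i, i₀ < i ∧ i ≤ p ∧ Q (i - 1) ∧ ¬ Q i := by
  obtain ⟨n, rfl⟩ : ∃ n : ℕ, p = i₀ + n := ⟨(p - i₀).toNat, by omega⟩
  induction n with
  | zero => exact absurd h0 (by simpa using hp)
  | succ n ih =>
    by_cases h : Q (i₀ + n)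
    · refine ⟨i₀ + (n + 1 : ℕ), by push_cast; omega, le_rfl, ?_, hp⟩
      have : i₀ + ((n + 1 : ℕ) : ℤ) - 1 = i₀ + n := by push_cast; ring
      rw [this]; exact h
    · obtain ⟨i, h1, h2, h3, h4⟩ := ih h (by omega)
      exact ⟨i, h1, by push_cast; omega, h3, h4⟩

omit hG in
/-- the ring of radius `ρ` -/
def Rn (ρ i j : ℤ) : Prop :=
  (-ρ ≤ i ∧ i ≤ ρ ∧ -ρ ≤ j ∧ j ≤ ρ) ∧ (i = ρ ∨ i = -ρ ∨ j = ρ ∨ j = -ρ)

lemma cross (s g : G ≃g G) (x : V) (C L : ℕ) (hL : LatQI G s g x C) (hCL : C ≤ L)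
    (hgL : G.dist x (g x) ≤ L) (p : ℕ) (σ : ℤ → V) (hσ : IsSeg G p σ) (i₀ : ℤ) (hi₀ : |i₀| ≤ p)
    (ρ : ℤ) (hρ : 0 ≤ ρ)
    (h0 : ∀ i j, G.dist (σ i₀) (ps s g x i j) ≤ C → |i| < ρ ∧ |j| < ρ)
    (h1 : ∀ i j, G.dist (σ p) (ps s g x i j) ≤ C → ρ ≤ |i| ∨ ρ ≤ |j|) :
    ∃ i₁, i₀ < i₁ ∧ i₁ ≤ p ∧ ∃ i j, Rn ρ i j ∧
      G.dist (σ i₁) (ps s g x i j) ≤ C + L * (2 * (C * (2 * C + 2))) := by
  classical
  obtain ⟨i₁, h2, h3, h4, h5⟩ := last_true
    (fun k => ∀ i j, G.dist (σ k) (ps s g x i j) ≤ C → |i| < ρ ∧ |j| < ρ) i₀ p h0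
    (by
      intro hcon
      obtain ⟨i, j, hij⟩ := hL.q3 (σ p)
      have h6 := hcon i j hij
      have h7 := h1 i j hij
      omega) (by rw [abs_le] at hi₀; omega)
  push Not at h5
  obtain ⟨i, j, h6, h7⟩ := h5
  obtain ⟨i', j', h8⟩ := hL.q3 (σ (i₁ - 1))
  have h8' : G.dist (σ (i₁ - 1)) (ps s g x i' j') ≤ C := h8
  have h9 := h4 i' j' h8'
  have h10 : G.dist (σ i₁) (σ (i₁ - 1)) ≤ 1 := by
    have h11 := hσ i₁ (i₁ - 1) (by rw [abs_le] at hi₀ ⊢; omega) (by rw [abs_le] at hi₀ ⊢; omega)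
    have h12 : i₁ - (i₁ - 1) = 1 := by ring
    rw [h12] at h11
    have : (G.dist (σ i₁) (σ (i₁ - 1)) : ℤ) = 1 := by simpa using h11
    omega
  have h13 : G.dist (ps s g x i j) (ps s g x i' j') ≤ 2 * C + 1 := by
    have a1 := hG.tri (ps s g x i j) (σ i₁) (ps s g x i' j')
    have a2 := hG.tri (σ i₁) (σ (i₁ - 1)) (ps s g x i' j')
    rw [SimpleGraph.dist_comm] at h6
    omega
  have h14 := lat_le s g x C hL i j i' j' (2 * C + 1) h13
  set C1 : ℤ := C * ((2 * C + 1 : ℕ) + 1) with hC1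
  have hC1' : C1 = ((C * (2 * C + 2) : ℕ) : ℤ) := by rw [hC1]; push_cast; ring
  have h15 : |i - i'| ≤ C1 := by have := abs_nonneg (j - j'); linarith
  have h16 : |j - j'| ≤ C1 := by have := abs_nonneg (i - i'); linarith
  refine ⟨i₁, h2, h3, max (-ρ) (min ρ i), max (-ρ) (min ρ j), ?_, ?_⟩
  · unfold Rn
    have h17 : ρ ≤ |i| ∨ ρ ≤ |j| := by
      by_contra hcon
      push Not at hcon
      have := h7 hcon.1
      omega
    rw [le_abs, le_abs] at h17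
    omega
  · have h18 : |i - max (-ρ) (min ρ i)| + |j - max (-ρ) (min ρ j)| ≤
        ((2 * (C * (2 * C + 2)) : ℕ) : ℤ) := by
      have a1 : |i - max (-ρ) (min ρ i)| ≤ C1 := by
        rw [abs_le] at h15 ⊢
        have := abs_lt.1 h9.1
        omega
      have a2 : |j - max (-ρ) (min ρ j)| ≤ C1 := by
        rw [abs_le] at h16 ⊢
        have := abs_lt.1 h9.2
        omega
      rw [hC1'] at a1 a2
      push_cast at a1 a2 ⊢
      linarith
    have h19 := dist_ps_le hG s g x C L hL hCL hgL i j _ _ _ h18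
    have h20 := hG.tri (σ i₁) (ps s g x i j) (ps s g x (max (-ρ) (min ρ i)) (max (-ρ) (min ρ j)))
    omega

/-! ### regions -/

omit hG in
/-- column and ring -/
def CR (c q ρ i j : ℤ) : Prop := (i = c ∧ -ρ ≤ j ∧ j ≤ 0) ∨ Rg c q ρ i j

omit hG in
/-- region of a leg -/
def Reg (G : SimpleGraph V) (u : V → ℝ) (s g : G ≃g G) (x : V) (L : ℕ) (c q ρ : ℤ) : Set V :=
  Col G u s g x L c ρ ∪ Nb G s g x L (Rg c q ρ)

omit hG in
lemma reg_near (u : V → ℝ) (s g : G ≃g G) (x : V) (L : ℕ) (c q ρ : ℤ) (hρ : 0 ≤ ρ) (z : V)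
    (hz : z ∈ Reg G u s g x L c q ρ) : ∃ i j, CR c q ρ i j ∧ G.dist z (ps s g x i j) ≤ L := by
  rcases hz with (hz | ⟨_, j, h1, h2, h3⟩) | ⟨i, j, h1, h2⟩
  · subst hz
    exact ⟨c, 0, Or.inl ⟨rfl, by omega, le_rfl⟩, by simp⟩
  · exact ⟨c, j, Or.inl ⟨rfl, h1, h2⟩, h3⟩
  · exact ⟨i, j, Or.inr h1, h2⟩

lemma leg (u : V → ℝ) (s g : G ≃g G) (x : V) (C L : ℕ) (hL : LatQI G s g x C) (hCL : C ≤ L)
    (hgL : G.dist x (g x) ≤ L) (k : ℝ) (hk : 0 < k)
    (hug : ∀ z, u (g z) = u z + k) (hus : ∀ z, u (s z) = u z) (w₀ : List V)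
    (hw0 : Fm G x (g x) {z | z = g x ∨ (u x ≤ u z ∧ u z < u (g x))} {w₀})
    (hwL : w₀.length ≤ L) (c q : ℤ) (ρ : ℕ) (hc0 : 0 ≤ c) (hcρ : c ≤ ρ) (hqρ : q ≤ ρ)
    (p : ℕ) (σ : ℤ → V) (hσ : IsSeg G p σ) (D : ℕ)
    (hy : ∃ i : ℤ, |i| ≤ p ∧ ∃ i' j', Rg c q ρ i' j' ∧ G.dist (σ i) (ps s g x i' j') ≤ D) :
    ∃ (τ : ℤ) (a : List V), |τ| ≤ p ∧ sa G (ps s g x c 0) a ∧ en (ps s g x c 0) a = σ τ ∧
      (∀ z ∈ ps s g x c 0 :: a, z ∈ Reg G u s g x L c q ρ ∨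
        ((∃ y' ∈ Reg G u s g x L c q ρ, G.dist y' z ≤ D) ∧ G.dist z (σ τ) ≤ D)) ∧
      (∀ z ∈ ps s g x c 0 :: a, ∀ i : ℤ, |i| ≤ p → z = σ i → i = τ) := by
  obtain ⟨i, hi, i', j', hR, hd⟩ := hy
  have h1 := col_conn u s g x k hk hug hus w₀ hw0 L hwL c ρ ρ le_rfl
  have h2 := ring_conn hG s g x C L hL hCL hgL c q ρ hc0 hcρ hqρ i' j' hR
  have h3 : Wk G (Reg G u s g x L c q ρ) (ps s g x c 0) (ps s g x i' j') :=
    (h1.mono (fun z hz => Or.inl hz)).trans (h2.mono (fun z hz => Or.inr hz))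
  obtain ⟨τ, a, h4, h5, h6, h7, h8⟩ := cut hG h3 p σ hσ D
    ⟨i, hi, by rw [SimpleGraph.dist_comm]; exact hd⟩
  refine ⟨τ, a, h4, h5, h6, ?_, h8⟩
  intro z hz
  rcases h7 z hz with h | h
  · exact Or.inl h.1
  · exact Or.inr h

omit hG in
lemma card_Icc' (ρ : ℕ) : (Finset.Icc (-(ρ : ℤ)) ρ).card = 2 * ρ + 1 := by
  rw [Int.card_Icc]; omega

/-- a self-avoiding walk near the column and the ring is short -/
lemma len_le (s g : G ≃g G) (x y : V) (c q : ℤ) (ρ M : ℕ) (a : List V) (ha : sa G y a)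
    (hn : ∀ z ∈ y :: a, ∃ i j, CR c q ρ i j ∧ G.dist z (ps s g x i j) ≤ M) :
    a.length + 1 ≤ 5 * (2 * ρ + 1) * (bl hG x M).card := by
  classical
  set I : Finset ℤ := Finset.Icc (-(ρ : ℤ)) ρ with hI
  set T : Finset (ℤ × ℤ) := (I.image (fun j => ((c : ℤ), j))) ∪ (I.image (fun j => ((ρ : ℤ), j))) ∪
    (I.image (fun j => (-(ρ : ℤ), j))) ∪ (I.image (fun i => (i, (ρ : ℤ)))) ∪
    (I.image (fun i => (i, -(ρ : ℤ)))) with hT
  have hTc : T.card ≤ 5 * (2 * ρ + 1) := by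
    have hc : ∀ f : ℤ → ℤ × ℤ, (I.image f).card ≤ 2 * ρ + 1 := fun f =>
      Finset.card_image_le.trans (by rw [hI, card_Icc'])
    rw [hT]
    refine (Finset.card_union_le _ _).trans ?_
    have h1 := (Finset.card_union_le ((I.image (fun j => ((c : ℤ), j))) ∪
      (I.image (fun j => ((ρ : ℤ), j))) ∪ (I.image (fun j => (-(ρ : ℤ), j))))
      (I.image (fun i => (i, (ρ : ℤ)))))
    have h2 := (Finset.card_union_le ((I.image (fun j => ((c : ℤ), j))) ∪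
      (I.image (fun j => ((ρ : ℤ), j)))) (I.image (fun j => (-(ρ : ℤ), j))))
    have h3 := (Finset.card_union_le (I.image (fun j => ((c : ℤ), j)))
      (I.image (fun j => ((ρ : ℤ), j))))
    have e1 := hc (fun j => ((c : ℤ), j))
    have e2 := hc (fun j => ((ρ : ℤ), j))
    have e3 := hc (fun j => (-(ρ : ℤ), j))
    have e4 := hc (fun i => (i, (ρ : ℤ)))
    have e5 := hc (fun i => (i, -(ρ : ℤ)))
    omega
  have hsub : (y :: a).toFinset ⊆ T.biUnion (fun t => bl hG (ps s g x t.1 t.2) M) := by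
    intro z hz
    rw [List.mem_toFinset] at hz
    obtain ⟨i, j, h1, h2⟩ := hn z hz
    rw [Finset.mem_biUnion]
    refine ⟨(i, j), ?_, ?_⟩
    · rw [hT]
      simp only [Finset.mem_union, Finset.mem_image, hI, Finset.mem_Icc, Prod.mk.injEq]
      rcases h1 with ⟨h1, h3, h4⟩ | ⟨⟨h3, h4, h5, h6⟩, h7, _⟩
      · subst h1
        exact Or.inl (Or.inl (Or.inl (Or.inl ⟨j, ⟨h3, by omega⟩, rfl, rfl⟩)))
      · rcases h7 with h7 | h7 | h7 | h7
        · subst h7; exact Or.inl (Or.inl (Or.inl (Or.inr ⟨j, ⟨h5, h6⟩, rfl, rfl⟩)))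
        · subst h7; exact Or.inl (Or.inl (Or.inr ⟨j, ⟨h5, h6⟩, rfl, rfl⟩))
        · subst h7; exact Or.inl (Or.inr ⟨i, ⟨h3, h4⟩, rfl, rfl⟩)
        · subst h7; exact Or.inr ⟨i, ⟨h3, h4⟩, rfl, rfl⟩
    · rw [mem_bl, SimpleGraph.dist_comm]; exact h2
  have h1 := Finset.card_le_card hsub
  rw [List.toFinset_card_of_nodup ha.2, List.length_cons] at h1
  refine h1.trans (Finset.card_biUnion_le.trans ?_)
  have h2 : ∀ t ∈ T, (bl hG (ps s g x t.1 t.2) M).card ≤ (bl hG x M).card := fun t _ =>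
    (card_bl hG _ _ _).le
  refine (Finset.sum_le_card_nsmul _ _ _ h2).trans ?_
  rw [smul_eq_mul]
  exact Nat.mul_le_mul_right _ hTc

lemma row_dist (u : V → ℝ) (s g : G ≃g G) (x : V) (C L : ℕ) (hL : LatQI G s g x C) (hCL : C ≤ L)
    (hgL : G.dist x (g x) ≤ L) (Ce J b iB N : ℕ) (z : V)
    (hz : z ∈ RowReg G u s g x Ce J b iB N) : G.dist x z ≤ Ce + L * (iB + N + J) := by
  obtain ⟨⟨i, j, h1, h2, h3, h4, h5⟩, _⟩ := hz
  have h6 := dist_ps_le hG s g x C L hL hCL hgL 0 0 i j (iB + N + J) (by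
    have a1 : |0 - i| ≤ iB := by rw [abs_le]; omega
    have a2 : |0 - j| ≤ N + J := by rw [abs_le]; omega
    push_cast; omega)
  rw [ps_zero] at h6
  have h7 := hG.tri x (ps s g x i j) z
  rw [SimpleGraph.dist_comm] at h5
  unfold ps at h6 h7
  omega

/-- a leg avoids the region of the row -/
lemma leg_avoid (u : V → ℝ) (s g : G ≃g G) (x : V) (C L : ℕ) (hL : LatQI G s g x C)
    (c q ρ : ℤ) (Ce J b iB N : ℕ)
    (hb : C * (Ce + L + 1) < b) (hc : c = 0 ∨ c = iB)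
    (h1 : (iB : ℤ) + b ≤ ρ) (h2 : (N : ℤ) + J + b ≤ ρ)
    (z : V) (hz : z ∈ Reg G u s g x L c q ρ) (hne : z ≠ ps s g x c 0) :
    z ∉ RowReg G u s g x Ce J b iB N := by
  intro hzR
  obtain ⟨⟨i, j, h3, h4, h5, h6, h7⟩, hlow⟩ := hzR
  have hb' : ((C * (Ce + L + 1) : ℕ) : ℤ) < b := by exact_mod_cast hb
  have key : ∀ i j i' j' : ℤ, G.dist z (ps s g x i j) ≤ Ce → G.dist z (ps s g x i' j') ≤ L →
      |i - i'| + |j - j'| < b := by
    intro i j i' j' a1 a2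
    have a3 := hG.tri (ps s g x i j) z (ps s g x i' j')
    rw [SimpleGraph.dist_comm] at a1
    have a4 := lat_le s g x C hL i j i' j' (Ce + L) (by omega)
    push_cast at a4 hb'
    linarith
  rcases hz with (hz | ⟨hu, j', h8, h9, h10⟩) | ⟨i', j', h8, h9⟩
  · exact hne hz
  · obtain ⟨i, j, h3, h4, h5, h6, h7⟩ := hlow hu
    have := key i j c j' h7 h10
    have a1 := abs_nonneg (j - j')
    have a2 : |i - c| < b := by linarith
    rw [abs_lt] at a2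
    omega
  · have := key i j i' j' h7 h9
    have a1 := abs_nonneg (j - j')
    have a2 := abs_nonneg (i - i')
    have a3 : |i - i'| < b := by linarith
    have a4 : |j - j'| < b := by linarith
    rw [abs_lt] at a3 a4
    obtain ⟨_, h11, _⟩ := h8
    omega

omit hG in
/-- the two lattice sets are far apart -/
lemma cr_far (b iB : ℤ) (ρ : ℤ) (hbi : b ≤ iB) (hρ : iB + b ≤ ρ) (i j i' j' : ℤ)
    (h1 : CR 0 (iB + b) ρ i j) (h2 : CR iB (iB + 1) (2 * ρ) i' j') :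
    b ≤ |i - i'| + |j - j'| := by
  by_contra hcon
  push Not at hcon
  have a1 := abs_nonneg (j - j')
  have a2 := abs_nonneg (i - i')
  have a3 : |i - i'| < b := by linarith
  have a4 : |j - j'| < b := by linarith
  rw [abs_lt] at a3 a4
  unfold CR Rg at h1 h2
  omega

lemma lower (s g : G ≃g G) (x : V) (C : ℕ) (hL : LatQI G s g x C) (v : V) (i j : ℤ) (D R N : ℕ)
    (hd : G.dist v (ps s g x i j) ≤ D) (hR : C * (R * N) ≤ |i| + |j|) (hC : 1 ≤ C) :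
    R * N ≤ G.dist x v + D + 1 := by
  have h1 := hG.tri x v (ps s g x i j)
  have h2 := lat_le s g x C hL 0 0 i j (G.dist x v + D) (by rw [ps_zero]; omega)
  have h3 : |0 - i| + |0 - j| = |i| + |j| := by simp
  rw [h3] at h2
  have h4 : (C : ℤ) * (R * N) ≤ C * ((G.dist x v + D : ℕ) + 1) := hR.trans h2
  have h5 : ((R : ℤ) * N) ≤ ((G.dist x v + D : ℕ) + 1) := le_of_mul_le_mul_left h4 (by exact_mod_cast hC)
  have h6 : (((R * N : ℕ)) : ℤ) ≤ ((G.dist x v + D + 1 : ℕ) : ℤ) := by push_cast at h5 ⊢; linarith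
  exact_mod_cast h6

lemma ring_in (s g : G ≃g G) (x : V) (C : ℕ) (hL : LatQI G s g x C) (v : V) (D : ℕ)
    (hd : G.dist x v ≤ D) (ρ : ℤ) (hρ : ((C * (D + C + 1) : ℕ) : ℤ) < ρ) (i j : ℤ)
    (hij : G.dist v (ps s g x i j) ≤ C) : |i| < ρ ∧ |j| < ρ := by
  have h1 := hG.tri x v (ps s g x i j)
  have h2 := lat_le s g x C hL 0 0 i j (D + C) (by rw [ps_zero]; omega)
  have h3 : |0 - i| + |0 - j| = |i| + |j| := by simp
  rw [h3] at h2
  have a1 := abs_nonneg i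
  have a2 := abs_nonneg j
  push_cast at h2 hρ
  constructor <;> linarith

lemma ring_out (s g : G ≃g G) (x : V) (C L : ℕ) (hL : LatQI G s g x C) (hCL : C ≤ L)
    (hgL : G.dist x (g x) ≤ L) (v : V) (ρ : ℕ) (hρ : L * (2 * ρ) + C < G.dist x v) (i j : ℤ)
    (hij : G.dist v (ps s g x i j) ≤ C) : (ρ : ℤ) ≤ |i| ∨ (ρ : ℤ) ≤ |j| := by
  by_contra hcon
  push Not at hcon
  have h1 := dist_ps_le hG s g x C L hL hCL hgL 0 0 i j (2 * ρ) (by
    have h3 : |0 - i| + |0 - j| = |i| + |j| := by simp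
    rw [h3]; push_cast; omega)
  rw [ps_zero] at h1
  have h2 := hG.tri x (ps s g x i j) v
  rw [SimpleGraph.dist_comm] at hij
  omega

omit hG in
lemma seg_rev (p : ℕ) (σ : ℤ → V) (hσ : IsSeg G p σ) : IsSeg G p (fun i => σ (-i)) := by
  intro i j hi hj
  have := hσ (-i) (-j) (by rwa [abs_neg]) (by rwa [abs_neg])
  show (G.dist (σ (-i)) (σ (-j)) : ℤ) = |i - j|
  rw [this, ← abs_neg]; congr 1; ring

end Leg

open Leg in
theorem exists_legs {V : Type} {G : SimpleGraph V} (hG : TG G)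
    (hs : HS G) (s g : G ≃g G) (x : V) (C : ℕ) (hL : LatQI G s g x C)
    (hsΓ : s ∈ hs.Γ) (hχs : hs.χ s = 0) (hg : g ∈ hs.Γ) (hχ : 0 < hs.χ g)
    (w₀ : List V) (hw0 : Fm G x (g x) {z | z = g x ∨ (hs.u x ≤ hs.u z ∧ hs.u z < hs.u (g x))}
      {w₀})
    (Ce J K₀ : ℕ) :
    ∃ b₁ K₁ K₂ K₃ : ℕ, ∀ b ≥ b₁, ∀ iB : ℕ, b ≤ iB → ∃ N₀ : ℕ, ∀ N ≥ N₀,
      ∀ (p : ℕ) (σ : ℤ → V), IsSeg G p σ → K₃ * N ≤ p →
      (∀ i : ℤ, |i| ≤ p → K₁ * N ≤ G.dist x (σ i)) →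
      (∃ i₀ : ℤ, |i₀| ≤ K₀ * (K₁ * N) ∧ G.dist x (σ i₀) = K₁ * N) →
      ∃ (τA τB : ℤ) (a b' : List V), |τA| ≤ K₂ * N ∧ |τB| ≤ K₂ * N ∧
        a.length ≤ K₂ * N ∧ b'.length ≤ K₂ * N ∧
        sa G x a ∧ en x a = σ τA ∧ sa G ((s ^ iB) x) b' ∧ en ((s ^ iB) x) b' = σ τB ∧
        (∀ z ∈ x :: a, ∀ z' ∈ (s ^ iB) x :: b', z ≠ z') ∧
        (∀ z ∈ a, z ∉ RowReg G hs.u s g x Ce J b iB N) ∧
        (∀ z ∈ b', z ∉ RowReg G hs.u s g x Ce J b iB N) ∧
        (∀ z ∈ x :: a, ∀ i : ℤ, |i| ≤ p → z = σ i → i = τA) ∧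
        (∀ z ∈ (s ^ iB) x :: b', ∀ i : ℤ, |i| ≤ p → z = σ i → i = τB) ∧
        (∀ z ∈ RowReg G hs.u s g x Ce J b iB N, G.dist x z < K₁ * N) := by
  classical
  have hug : ∀ z, hs.u (g z) = hs.u z + (hs.χ g : ℝ) := fun z => hs.equi g hg z
  have hus : ∀ z, hs.u (s z) = hs.u z := fun z => by rw [hs.equi s hsΓ z, hχs]; simp
  have hk : (0 : ℝ) < (hs.χ g : ℝ) := by exact_mod_cast hχ
  have hC1 := C_pos s g x C hL
  obtain ⟨L, hCL, hgL, hwL⟩ : ∃ L : ℕ, C ≤ L ∧ G.dist x (g x) ≤ L ∧ w₀.length ≤ L :=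
    ⟨max C (max (G.dist x (g x)) w₀.length), le_max_left _ _, by simp, by simp⟩
  obtain ⟨Dp, hDp⟩ : ∃ Dp : ℕ, Dp = C + L * (2 * (C * (2 * C + 2))) := ⟨_, rfl⟩
  obtain ⟨R, hR⟩ : ∃ R : ℕ, R = C * (L + 1 + 1) + 2 := ⟨_, rfl⟩
  obtain ⟨B, hB⟩ : ∃ B : ℕ, B = (bl hG x (L + Dp)).card := ⟨_, rfl⟩
  obtain ⟨M, hM⟩ : ∃ M : ℕ, M = 5 * (4 * R + 1) * B := ⟨_, rfl⟩
  refine ⟨C * (2 * (L + Dp) + 1) + C * (Ce + L + 1) + 1, L + 1, K₀ * (L + 1) + (L + 1) + 1 + M,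
    K₀ * (L + 1) + (L + 1) + L * (4 * R) + 1, ?_⟩
  intro b hb iB hbi
  refine ⟨C + 1 + L * (iB + b) + 4 * Dp + 3 + iB + b + J + Ce + L * (iB + J) + L * iB, ?_⟩
  intro N hN p σ hσ hp hfar hi₀e
  obtain ⟨i₀, hi₀, hdi₀⟩ := hi₀e
  obtain ⟨P, hP⟩ : ∃ P : ℕ, P = R * N := ⟨_, rfl⟩
  have hN1 : C + 1 ≤ N := by omega
  have hi₀' : |i₀| ≤ ((K₀ * ((L + 1) * N) : ℕ) : ℤ) := by
    push_cast at hi₀ ⊢; exact hi₀
  have hpe : K₀ * ((L + 1) * N) + (L + 1) * N + L * (4 * P) + N ≤ p := by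
    have : K₀ * ((L + 1) * N) + (L + 1) * N + L * (4 * P) + N =
      (K₀ * (L + 1) + (L + 1) + L * (4 * R) + 1) * N := by rw [hP]; ring
    rw [this]; exact hp
  have hi₀p : |i₀| ≤ p := by omega
  have hPe : P = C * (L + 1) * N + C * N + 2 * N := by rw [hP, hR]; ring
  have hCN : N ≤ C * N := Nat.le_mul_of_pos_left _ (by omega)
  have hCC : C * (C + 1) ≤ C * N := Nat.mul_le_mul_left _ hN1
  have hP1 : C * ((L + 1) * N + C + 1) < P := by
    have : C * ((L + 1) * N + C + 1) = C * (L + 1) * N + C * (C + 1) := by ring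
    omega
  have hP2 : iB + b ≤ P := by omega
  have hP3 : N + J + b ≤ P := by omega
  have hP4 : C * ((L + 2) * N) ≤ P := by
    have : C * ((L + 2) * N) = C * (L + 1) * N + C * N := by ring
    omega
  -- distances along the segment
  have hseg : ∀ i : ℤ, |i| ≤ p → |i - i₀| ≤ G.dist x (σ i) + ((L + 1) * N : ℕ) := by
    intro i hi
    have h1 := hσ i i₀ hi hi₀p
    have h2 := hG.tri (σ i) x (σ i₀)
    rw [SimpleGraph.dist_comm (u := σ i) (v := x), hdi₀] at h2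
    rw [← h1]
    exact_mod_cast h2
  have hends : ∀ i : ℤ, |i| = p → L * (2 * (2 * P)) + C < G.dist x (σ i) := by
    intro i hi
    have h1 := hseg i hi.le
    have h2 : (p : ℤ) ≤ |i - i₀| + |i₀| := by
      have := abs_add_le (i - i₀) i₀
      rw [sub_add_cancel, hi] at this
      exact this
    have h3 : L * (2 * (2 * P)) = L * (4 * P) := by ring
    omega
  have hp0 : |(p : ℤ)| = p := by simp
  have hpn : |(-(p : ℤ))| = p := by simp
  -- both halves cross every ring between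
  have hcr : ∀ ρ : ℕ, P ≤ ρ → ρ ≤ 2 * P →
      (∃ i₁, i₀ < i₁ ∧ i₁ ≤ p ∧ ∃ i j, Rn ρ i j ∧ G.dist (σ i₁) (ps s g x i j) ≤ Dp) ∧
      (∃ i₁, i₁ < i₀ ∧ -(p : ℤ) ≤ i₁ ∧ ∃ i j, Rn ρ i j ∧ G.dist (σ i₁) (ps s g x i j) ≤ Dp) := by
    intro ρ hρ1 hρ2
    have hin : ∀ i j, G.dist (σ i₀) (ps s g x i j) ≤ C → |i| < (ρ : ℤ) ∧ |j| < (ρ : ℤ) :=
      fun i j hij => ring_in hG s g x C hL (σ i₀) ((L + 1) * N) hdi₀.le ρ
        (by exact_mod_cast (lt_of_lt_of_le hP1 hρ1)) i j hij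
    have hout : ∀ k : ℤ, |k| = p → ∀ i j, G.dist (σ k) (ps s g x i j) ≤ C →
        (ρ : ℤ) ≤ |i| ∨ (ρ : ℤ) ≤ |j| := fun k hk' i j hij =>
      ring_out hG s g x C L hL hCL hgL (σ k) ρ (by
        have h1 := hends k hk'
        have h2 : L * (2 * ρ) ≤ L * (2 * (2 * P)) := Nat.mul_le_mul_left _ (by omega)
        omega) i j hij
    constructor
    · obtain ⟨i₁, h1, h2, i, j, h3, h4⟩ := cross hG s g x C L hL hCL hgL p σ hσ i₀ hi₀p ρ
        (by omega) hin (hout p hp0)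
      exact ⟨i₁, h1, h2, i, j, h3, by rw [hDp]; exact h4⟩
    · obtain ⟨i₁, h1, h2, i, j, h3, h4⟩ := cross hG s g x C L hL hCL hgL p (fun i => σ (-i))
        (seg_rev p σ hσ) (-i₀) (by rwa [abs_neg]) ρ (by omega) (by simpa using hin)
        (hout (-(p : ℤ)) hpn)
      exact ⟨-i₁, by omega, by omega, i, j, h3, by rw [hDp]; exact h4⟩
  -- targets
  have hyA : ∃ i : ℤ, |i| ≤ p ∧ ∃ i' j', Rg 0 (iB + b) (P : ℤ) i' j' ∧
      G.dist (σ i) (ps s g x i' j') ≤ Dp := by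
    obtain ⟨⟨i₁, h1, h2, i, j, h3, h4⟩, ⟨i₂, h5, h6, i', j', h7, h8⟩⟩ := hcr P le_rfl (by omega)
    by_cases hg1 : Rg 0 (iB + b) (P : ℤ) i j
    · exact ⟨i₁, by rw [abs_le] at hi₀p ⊢; omega, i, j, hg1, h4⟩
    by_cases hg2 : Rg 0 (iB + b) (P : ℤ) i' j'
    · exact ⟨i₂, by rw [abs_le] at hi₀p ⊢; omega, i', j', hg2, h8⟩
    exfalso
    have hj : j = -(P : ℤ) ∧ 0 < i ∧ i < iB + b := by unfold Rg Rn at *; omega
    have hj' : j' = -(P : ℤ) ∧ 0 < i' ∧ i' < iB + b := by unfold Rg Rn at *; omega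
    have hi₁p : |i₁| ≤ p := by rw [abs_le] at hi₀p ⊢; omega
    have hi₂p : |i₂| ≤ p := by rw [abs_le] at hi₀p ⊢; omega
    have h9 := dist_ps_le hG s g x C L hL hCL hgL i j i' j' (iB + b) (by
      have a1 : |i - i'| ≤ iB + b := by rw [abs_le]; omega
      have a2 : |j - j'| = 0 := by rw [hj.1, hj'.1]; simp
      push_cast; omega)
    have h10 := hG.tri (σ i₁) (ps s g x i j) (ps s g x i' j')
    have h11 := hG.tri (σ i₁) (ps s g x i' j') (σ i₂)
    rw [SimpleGraph.dist_comm] at h8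
    have h12 : G.dist (σ i₁) (σ i₂) ≤ L * (iB + b) + 2 * Dp := by omega
    have h13 := hσ i₁ i₂ hi₁p hi₂p
    rw [abs_of_nonneg (by omega)] at h13
    have hlow : ∀ (v : V) (i j : ℤ), G.dist v (ps s g x i j) ≤ Dp → Rn P i j →
        (L + 2) * N ≤ G.dist x v + Dp + 1 := fun v i j a1 a2 =>
      lower hG s g x C hL v i j Dp (L + 2) N a1 (by
        have a3 : (P : ℤ) ≤ |i| + |j| := by
          unfold Rn at a2
          have b1 := abs_nonneg i
          have b2 := abs_nonneg j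
          have b3 := le_abs_self i
          have b4 := le_abs_self j
          have b5 := neg_le_abs i
          have b6 := neg_le_abs j
          omega
        have a4 : ((C * ((L + 2) * N) : ℕ) : ℤ) ≤ P := by exact_mod_cast hP4
        push_cast at a4 ⊢
        linarith) hC1
    have h14 := hlow (σ i₁) i j h4 h3
    have h15 := hlow (σ i₂) i' j' (by rw [SimpleGraph.dist_comm]; exact h8) h7
    have h16 := hG.tri x (σ i₀) (σ i₁)
    have h17 := hG.tri x (σ i₀) (σ i₂)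
    have h18 := hσ i₀ i₁ hi₀p hi₁p
    have h19 := hσ i₀ i₂ hi₀p hi₂p
    rw [abs_sub_comm, abs_of_nonneg (by omega)] at h18
    rw [abs_of_nonneg (by omega)] at h19
    have h20 : (L + 2) * N = (L + 1) * N + N := by ring
    omega
  have hyB : ∃ i : ℤ, |i| ≤ p ∧ ∃ i' j', Rg iB (iB + 1) ((2 * P : ℕ) : ℤ) i' j' ∧
      G.dist (σ i) (ps s g x i' j') ≤ Dp := by
    obtain ⟨⟨i₁, h1, h2, i, j, h3, h4⟩, _⟩ := hcr (2 * P) (by omega) le_rfl
    exact ⟨i₁, by rw [abs_le] at hi₀p ⊢; omega, i, j, by unfold Rg Rn at *; omega, h4⟩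
  obtain ⟨τA, a, hτA, haS, haE, haR, haU⟩ := leg hG hs.u s g x C L hL hCL hgL _ hk hug hus w₀ hw0
    hwL 0 (iB + b) P le_rfl (by omega) (by exact_mod_cast hP2) p σ hσ Dp hyA
  obtain ⟨τB, b', hτB, hbS, hbE, hbR, hbU⟩ := leg hG hs.u s g x C L hL hCL hgL _ hk hug hus w₀ hw0
    hwL iB (iB + 1) (2 * P) (by omega) (by push_cast; omega) (by push_cast; omega) p σ hσ Dp hyB
  have hsB : ps s g x iB 0 = (s ^ iB) x := by simp [ps]
  rw [ps_zero] at haS haE haR haU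
  rw [hsB] at hbS hbE hbR hbU
  have hnear : ∀ (c q : ℤ) (ρ : ℕ) (τ : ℤ) (z : V), (z ∈ Reg G hs.u s g x L c q ρ ∨
        ((∃ y' ∈ Reg G hs.u s g x L c q ρ, G.dist y' z ≤ Dp) ∧ G.dist z (σ τ) ≤ Dp)) →
      ∃ i j, CR c q ρ i j ∧ G.dist z (ps s g x i j) ≤ L + Dp := by
    intro c q ρ τ z hz
    rcases hz with hz | ⟨⟨y', hy', hd⟩, _⟩
    · obtain ⟨i, j, h1, h2⟩ := reg_near hs.u s g x L c q ρ (by omega) z hz
      exact ⟨i, j, h1, by omega⟩
    · obtain ⟨i, j, h1, h2⟩ := reg_near hs.u s g x L c q ρ (by omega) y' hy'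
      have h3 := hG.tri z y' (ps s g x i j)
      rw [SimpleGraph.dist_comm] at hd
      exact ⟨i, j, h1, by omega⟩
  have hnA : ∀ z ∈ x :: a, ∃ i j, CR 0 (iB + b) P i j ∧ G.dist z (ps s g x i j) ≤ L + Dp :=
    fun z hz => hnear _ _ _ _ z (haR z hz)
  have hnB : ∀ z ∈ (s ^ iB) x :: b', ∃ i j, CR iB (iB + 1) ((2 * P : ℕ) : ℤ) i j ∧
      G.dist z (ps s g x i j) ≤ L + Dp := fun z hz => hnear _ _ _ _ z (hbR z hz)
  have hlA := len_le hG s g x x 0 (iB + b) P (L + Dp) a haS hnA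
  have hlB := len_le hG s g x ((s ^ iB) x) iB (iB + 1) (2 * P) (L + Dp) b' hbS hnB
  rw [← hB] at hlA hlB
  have hMN : 5 * (2 * (2 * P) + 1) * B ≤ M * N := by
    have h1 : M * N = 5 * (2 * (2 * P) + N) * B := by rw [hM, hP]; ring
    rw [h1]
    exact Nat.mul_le_mul_right _ (by omega)
  have hlA' : 5 * (2 * P + 1) * B ≤ 5 * (2 * (2 * P) + 1) * B := Nat.mul_le_mul_right _ (by omega)
  have hK2 : (K₀ * (L + 1) + (L + 1) + 1 + M) * N = K₀ * ((L + 1) * N) + (L + 1) * N + N + M * N := by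
    ring
  have hdA : G.dist x (σ τA) ≤ a.length := by
    rw [← haE]; exact dist_mem_ch haS.1 (en_mem_cons x a)
  have hdB : G.dist ((s ^ iB) x) (σ τB) ≤ b'.length := by
    rw [← hbE]; exact dist_mem_ch hbS.1 (en_mem_cons _ b')
  have hdxB : G.dist x ((s ^ iB) x) ≤ L * iB := by
    have := dist_ps_le hG s g x C L hL hCL hgL 0 0 iB 0 iB (by simp)
    rwa [ps_zero, hsB] at this
  have hdB' := hG.tri x ((s ^ iB) x) (σ τB)
  have hτA' : |τA| ≤ (((K₀ * (L + 1) + (L + 1) + 1 + M) * N : ℕ) : ℤ) := by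
    have h1 := hseg τA hτA
    have h2 := abs_add_le (τA - i₀) i₀
    rw [sub_add_cancel] at h2
    rw [hK2]
    omega
  have hτB' : |τB| ≤ (((K₀ * (L + 1) + (L + 1) + 1 + M) * N : ℕ) : ℤ) := by
    have h1 := hseg τB hτB
    have h2 := abs_add_le (τB - i₀) i₀
    rw [sub_add_cancel] at h2
    rw [hK2]
    omega
  have hrow : ∀ z ∈ RowReg G hs.u s g x Ce J b iB N, G.dist x z + Dp < (L + 1) * N := by
    intro z hz
    have h1 := row_dist hG hs.u s g x C L hL hCL hgL Ce J b iB N z hz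
    have h2 : L * (iB + N + J) = L * (iB + J) + L * N := by ring
    have h3 : (L + 1) * N = L * N + N := by ring
    omega
  have hbb : C * (2 * (L + Dp) + 1) < b := by omega
  have hbc : C * (Ce + L + 1) < b := by omega
  have havoid : ∀ (c q : ℤ) (ρ : ℕ) (τ : ℤ) (z : V), (c = 0 ∨ c = iB) → P ≤ ρ → |τ| ≤ p →
      (z ∈ Reg G hs.u s g x L c q ρ ∨
        ((∃ y' ∈ Reg G hs.u s g x L c q ρ, G.dist y' z ≤ Dp) ∧ G.dist z (σ τ) ≤ Dp)) →
      z ≠ ps s g x c 0 → z ∉ RowReg G hs.u s g x Ce J b iB N := by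
    intro c q ρ τ z hc hρ hτ hz hne
    rcases hz with hz | ⟨_, hd⟩
    · exact leg_avoid hG hs.u s g x C L hL c q ρ Ce J b iB N hbc hc (by omega) (by omega) z hz hne
    · intro hzR
      have h1 := hrow z hzR
      have h2 := hfar τ hτ
      have h3 := hG.tri x z (σ τ)
      omega
  refine ⟨τA, τB, a, b', ?_, ?_, by omega, by omega, haS, haE, hbS, hbE, ?_, ?_, ?_, haU, hbU, ?_⟩
  · push_cast at hτA' ⊢; exact hτA'
  · push_cast at hτB' ⊢; exact hτB'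
  · intro z hz z' hz' hzz
    subst hzz
    obtain ⟨i, j, h1, h2⟩ := hnA z hz
    obtain ⟨i', j', h3, h4⟩ := hnB z hz'
    have h5 := hG.tri (ps s g x i j) z (ps s g x i' j')
    rw [SimpleGraph.dist_comm] at h2
    have h6 := lat_le s g x C hL i j i' j' (2 * (L + Dp)) (by omega)
    have h7 := cr_far b iB P (by omega) (by omega) i j i' j' h1 (by push_cast at h3; exact h3)
    have h8 : ((C * (2 * (L + Dp) + 1) : ℕ) : ℤ) < b := by exact_mod_cast hbb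
    push_cast at h6 h8
    linarith
  · intro z hz
    refine havoid 0 (iB + b) P τA z (Or.inl rfl) le_rfl hτA (haR z (List.mem_cons_of_mem _ hz)) ?_
    rw [ps_zero]
    rintro rfl
    exact (List.nodup_cons.1 haS.2).1 hz
  · intro z hz
    refine havoid iB (iB + 1) (2 * P) τB z (Or.inr rfl) (by omega) hτB
      (hbR z (List.mem_cons_of_mem _ hz)) ?_
    rw [hsB]
    rintro rfl
    exact (List.nodup_cons.1 hbS.2).1 hz
  · intro z hz
    have := hrow z hz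
    omega

end Pool.H61.ST

end S_H61_ST_Leg
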