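import Mathlib
import Pool.Agent.H61.LC.L1

set_option autoImplicit false

/-! Locality of connective constants, part L2: this file joins several modules to save build time. -/

section S_H98_C_Port

set_option autoImplicit false

/-! Portions and hitting probabilities. -/

namespace Pool.H98.C

open Finset Pool.Agent.H61.SW

section gen
variable {V : Type} {Ω Ω' : Type} [Fintype Ω] [Fintype Ω']

lemma Ex_comp [DecidableEq V] (e : Ω → V) (a : V → ℝ) :
    Ex (fun ω => a (e ω)) = ∑ x ∈ univ.image e, Pr (fun ω => e ω = x) * a x := by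
  classical
  have h1 : (fun ω => a (e ω)) = fun ω => ∑ x ∈ univ.image e,
      a x * (if e ω = x then (1 : ℝ) else 0) := by
    ext ω
    rw [Finset.sum_eq_single (e ω)]
    · simp
    · intro x _ hx
      simp [Ne.symm hx]
    · intro h
      exact absurd (Finset.mem_image_of_mem e (Finset.mem_univ ω)) h
  rw [h1, Ex_sum]
  refine Finset.sum_congr rfl fun x _ => ?_
  rw [Ex_const_mul, mul_comm]
  congr 2
  ext ω
  by_cases h : e ω = x <;> simp [h]

lemma Pr_true [Nonempty Ω] (p : Ω → Prop) (h : ∀ ω, p ω) : Pr p = 1 := by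
  refine (congrArg Ex (funext fun ω => ?_)).trans (Ex_const (1 : ℝ))
  simp [h ω]

lemma Pr_false (p : Ω → Prop) (h : ∀ ω, ¬ p ω) : Pr p = 0 := by
  unfold Pr Ex
  simp [h]

/-- two-list union bound -/
lemma Pr_two_lists (L : List V) (K : List V) (f : V → Ω → V) (β : ℝ)
    (h : ∀ c ∈ L, ∀ k ∈ K, Pr (fun ω => f c ω = k) ≤ β) :
    Pr (fun ω => ∃ v ∈ L.map (fun c => f c ω), v ∈ K) ≤ L.length * (K.length * β) := by
  have h1 : ∀ ω, (∃ v ∈ L.map (fun c => f c ω), v ∈ K) ↔ ∃ c ∈ L, ∃ k ∈ K, f c ω = k := by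
    intro ω
    simp
  rw [Pr_congr h1]
  refine Pr_exists_list_le L (fun c ω => ∃ k ∈ K, f c ω = k) _ fun c hc => ?_
  exact Pr_exists_list_le K (fun k ω => f c ω = k) β fun k hk => h c hc k hk

end gen

variable {V : Type} {G : SimpleGraph V} {o : V} {R : ℕ} (hG : TG G) (H : Homog G o R)

lemma bb_pos (S : ℕ) : 0 < bb hG o S := by
  unfold bb; exact_mod_cast card_bl_pos hG o S

lemma bb_one_le (S : ℕ) : 1 ≤ bb hG o S := by
  unfold bb; exact_mod_cast card_bl_pos hG o S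

lemma ch_por {S : ℕ} (x : V) (ω : PO hG H S) : ch G x (por hG H x ω) := by
  have h := (ch_map (H.T x ω.1) o (geo hG o ω.2)).2 (ch_geo hG o ω.2)
  rwa [H.T_o] at h

lemma nodup_por {S : ℕ} (x : V) (ω : PO hG H S) : (x :: por hG H x ω).Nodup := by
  have h1 : x :: por hG H x ω = (o :: geo hG o ω.2).map (H.T x ω.1) := by
    simp [por, H.T_o]
  rw [h1]
  exact (nodup_geo hG o ω.2).map (H.T x ω.1).injective

lemma length_por {S : ℕ} (x : V) (ω : PO hG H S) : (por hG H x ω).length ≤ S := by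
  unfold por
  rw [List.length_map, length_geo]
  exact (mem_bl hG o _ S).1 ω.2.2

lemma en_por {S : ℕ} (x : V) (ω : PO hG H S) : en x (por hG H x ω) = H.T x ω.1 ω.2 := by
  have h := en_map (H.T x ω.1) o (geo hG o ω.2)
  rw [en_geo, H.T_o] at h
  exact h

lemma dist_por {S : ℕ} (x : V) (ω : PO hG H S) : ∀ v ∈ x :: por hG H x ω, G.dist x v ≤ S :=
  fun _ hv => (dist_mem_ch (ch_por hG H x ω) hv).trans (length_por hG H x ω)

lemma dist_en_por {S : ℕ} (x : V) (ω : PO hG H S) : G.dist x (en x (por hG H x ω)) ≤ S :=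
  dist_por hG H x ω _ (en_mem_cons _ _)

/-- the end of a portion of radius `S` is spread -/
lemma spr_por {S : ℕ} (x y : V) :
    Pr (fun ω : PO hG H S => en x (por hG H x ω) = y) ≤ 1 / bb hG o S := by
  classical
  simp only [en_por]
  rw [Pr_prod]
  refine Ex_le_of_le (by have := bb_pos hG (o := o) S; positivity) fun θ => ?_
  rw [Pr_eq_card]
  simp only [Fintype.card_coe]
  unfold bb
  refine div_le_div_of_nonneg_right ?_ (Nat.cast_nonneg _)
  have : (univ.filter fun ω : ↥(bl hG o S) => H.T x θ ω = y).card ≤ 1 := by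
    rw [Finset.card_le_one]
    intro a ha b hb
    simp only [Finset.mem_filter, Finset.mem_univ, true_and] at ha hb
    exact Subtype.ext ((H.T x θ).injective (ha.trans hb.symm))
  convert (by exact_mod_cast this : ((univ.filter fun ω : ↥(bl hG o S) => H.T x θ ω = y).card : ℝ) ≤ 1)

/-- transplants from a spread vertex are spread -/
lemma spr_trans {Ω : Type} [Fintype Ω] {β : ℝ} (hβ : 0 ≤ β) (e : Ω → V)
    (he : ∀ y, Pr (fun ω => e ω = y) ≤ β) {c : V} (hc : G.dist o c ≤ R) (y : V) :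
    Pr (fun p : Ω × H.Θ => H.T (e p.1) p.2 c = y) ≤ β := by
  classical
  rw [Pr_prod]
  have h1 := Ex_comp e (fun x => Pr fun θ => H.T x θ c = y)
  simp only at h1 ⊢
  rw [h1]
  calc ∑ x ∈ univ.image e, Pr (fun ω => e ω = x) * Pr (fun θ => H.T x θ c = y)
      ≤ ∑ x ∈ univ.image e, β * Pr (fun θ => H.T x θ c = y) :=
        Finset.sum_le_sum fun x _ => mul_le_mul_of_nonneg_right (he x) (Pr_nonneg _)
    _ = β * ∑ x ∈ univ.image e, Pr (fun θ => H.T x θ c = y) := by rw [Finset.mul_sum]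
    _ ≤ β * 1 := mul_le_mul_of_nonneg_left (H.sp c y hc _) hβ
    _ = β := mul_one β

/-- a further portion from a spread vertex rarely meets a list -/
lemma hit_spread {Ω : Type} [Fintype Ω] {β : ℝ} (hβ : 0 ≤ β) (e : Ω → V)
    (he : ∀ y, Pr (fun ω => e ω = y) ≤ β) {S : ℕ} (hS : S ≤ R) (K : List V) :
    Ex (fun ω => hit hG H S (e ω) K) ≤ S * K.length * β := by
  unfold hit
  have h1 : Ex (fun ω => Pr fun ω' : PO hG H S => ∃ v ∈ por hG H (e ω) ω', v ∈ K) =
      Ex (fun h : ↥(bl hG o S) => Pr (fun p : Ω × H.Θ =>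
        ∃ v ∈ (geo hG o h).map (H.T (e p.1) p.2), v ∈ K)) := by
    have h2 : ∀ ω, (Pr fun ω' : PO hG H S => ∃ v ∈ por hG H (e ω) ω', v ∈ K) =
      Ex fun h : ↥(bl hG o S) => Pr fun θ : H.Θ => ∃ v ∈ (geo hG o h).map (H.T (e ω) θ), v ∈ K := by
      intro ω
      rw [Pr_prod']; rfl
    simp only [h2]
    rw [Ex_comm]
    congr 1
    ext h
    rw [Pr_prod]
  rw [h1]
  refine Ex_le_of_le (by positivity) fun h => ?_
  have h3 := Pr_two_lists (Ω := Ω × H.Θ) (geo hG o h) K (fun c p => H.T (e p.1) p.2 c) β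
    (fun c hc k _ => spr_trans H hβ e he ((mem_geo_dist hG hc).trans
      (((mem_bl hG o _ S).1 h.2).trans hS)) k)
  refine h3.trans ?_
  rw [length_geo, mul_assoc]
  refine mul_le_mul_of_nonneg_right ?_ (by positivity)
  exact_mod_cast (mem_bl hG o _ S).1 h.2

lemma hit_nonneg (S : ℕ) (x : V) (K : List V) : 0 ≤ hit hG H S x K := Pr_nonneg _

lemma hit_mono {S : ℕ} {x : V} {K K' : List V} (h : ∀ v ∈ K, v ∈ K') :
    hit hG H S x K ≤ hit hG H S x K' :=
  Pr_mono fun _ ⟨v, h1, h2⟩ => ⟨v, h1, h v h2⟩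

lemma hit_append (S : ℕ) (x : V) (K K' : List V) :
    hit hG H S x (K ++ K') ≤ hit hG H S x K + hit hG H S x K' := by
  refine le_trans (Pr_mono fun ω => ?_) (Pr_or _ _)
  rintro ⟨v, h1, h2⟩
  rcases List.mem_append.1 h2 with h2 | h2
  · exact Or.inl ⟨v, h1, h2⟩
  · exact Or.inr ⟨v, h1, h2⟩

lemma QQ_nonneg (S : ℕ) (x y : V) : 0 ≤ QQ hG H S x y := Pr_nonneg _

lemma QQ_eq (S : ℕ) (x y : V) : QQ hG H S x y =
    Ex fun ω1 : PO hG H S => hit hG H S y (por hG H x ω1) := by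
  unfold QQ hit
  rw [Pr_prod]
  congr 1
  ext ω1
  refine Pr_congr fun ω2 => ?_
  constructor
  · rintro ⟨v, h1, h2⟩; exact ⟨v, h2, h1⟩
  · rintro ⟨v, h1, h2⟩; exact ⟨v, h2, h1⟩

lemma QQ_comm (S : ℕ) (x y : V) : QQ hG H S x y = QQ hG H S y x := by
  unfold QQ
  rw [Pr_prod, Pr_prod']
  congr 1
  ext ω1
  refine Pr_congr fun ω2 => ?_
  constructor
  · rintro ⟨v, h1, h2⟩; exact ⟨v, h2, h1⟩
  · rintro ⟨v, h1, h2⟩; exact ⟨v, h2, h1⟩

/-! equivariance -/

lemma por_equiv {S : ℕ} (hS : S ≤ R) (g : G ≃g G) (x : V) :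
    ∃ σ : PO hG H S → PO hG H S, Function.Bijective σ ∧
      ∀ ω, por hG H (g x) (σ ω) = (por hG H x ω).map g := by
  obtain ⟨σ, h1, h2⟩ := H.eq g x
  refine ⟨fun ω => (σ ω.1, ω.2), ⟨?_, ?_⟩, ?_⟩
  · rintro ⟨a, b⟩ ⟨a', b'⟩ h
    simp only [Prod.mk.injEq] at h
    rw [h1.1 h.1, h.2]
  · rintro ⟨a, b⟩
    obtain ⟨a', ha'⟩ := h1.2 a
    exact ⟨(a', b), by simp [ha']⟩
  · intro ω
    unfold por
    simp only [List.map_map]
    refine List.map_congr_left fun c hc => ?_
    exact (h2 ω.1 c ((mem_geo_dist hG hc).trans (((mem_bl hG o _ S).1 ω.2.2).trans hS))).symm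

lemma mem_map_iff (g : G ≃g G) (x : V) (K : List V) : g x ∈ K.map g ↔ x ∈ K :=
  List.mem_map_of_injective g.injective

lemma hit_iso {S : ℕ} (hS : S ≤ R) (g : G ≃g G) (x : V) (K : List V) :
    hit hG H S (g x) (K.map g) = hit hG H S x K := by
  obtain ⟨σ, h1, h2⟩ := por_equiv hG H hS g x
  unfold hit
  rw [← Pr_bij h1]
  refine Pr_congr fun ω => ?_
  rw [h2]
  constructor
  · rintro ⟨v, h3, h4⟩
    obtain ⟨w, h5, rfl⟩ := List.mem_map.1 h3
    exact ⟨w, h5, (mem_map_iff g w K).1 h4⟩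
  · rintro ⟨v, h3, h4⟩
    exact ⟨g v, List.mem_map_of_mem h3, List.mem_map_of_mem h4⟩

/-- `g⁻¹` version: exposure of `g x` to `K` in terms of `x` -/
lemma hit_iso' {S : ℕ} (hS : S ≤ R) (g : G ≃g G) (x : V) (K : List V) :
    hit hG H S (g x) K = Pr fun ω : PO hG H S => ∃ v ∈ por hG H x ω, g v ∈ K := by
  obtain ⟨σ, h1, h2⟩ := por_equiv hG H hS g x
  unfold hit
  rw [← Pr_bij h1]
  refine Pr_congr fun ω => ?_
  rw [h2]
  constructor
  · rintro ⟨v, h3, h4⟩
    obtain ⟨w, h5, rfl⟩ := List.mem_map.1 h3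
    exact ⟨w, h5, h4⟩
  · rintro ⟨v, h3, h4⟩
    exact ⟨g v, List.mem_map_of_mem h3, h4⟩

lemma QQ_iso' {S : ℕ} (hS : S ≤ R) (g : G ≃g G) (x y : V) :
    QQ hG H S x (g y) = Pr fun ω : PO hG H S × PO hG H S =>
      ∃ v ∈ por hG H x ω.1, ∃ w ∈ por hG H y ω.2, v = g w := by
  rw [QQ_eq, Pr_prod]
  congr 1
  ext ω1
  rw [hit_iso' hG H hS]
  refine Pr_congr fun ω2 => ?_
  constructor
  · rintro ⟨v, h1, h2⟩; exact ⟨g v, h2, v, h1, rfl⟩
  · rintro ⟨v, h1, w, h2, rfl⟩; exact ⟨w, h2, h1⟩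

lemma QQ_iso {S : ℕ} (hS : S ≤ R) (g : G ≃g G) (x y : V) :
    QQ hG H S (g x) (g y) = QQ hG H S x y := by
  obtain ⟨σ, h1, h2⟩ := por_equiv hG H hS g x
  rw [QQ_eq, QQ_eq, ← Ex_bij h1]
  congr 1
  ext ω
  rw [h2, hit_iso hG H hS]

/-! mass transport -/

/-- transport of a function of total mass at most one -/
lemma transport {c : V} (hc : G.dist o c ≤ R) (a : V → ℝ) (ha : ∀ y, 0 ≤ a y)
    (hs : ∀ Y : Finset V, ∑ y ∈ Y, a y ≤ 1) (X : Finset V) :
    ∑ x ∈ X, Ex (fun θ : H.Θ => a (H.T x θ c)) ≤ 1 := by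
  classical
  set Y : Finset V := X.biUnion fun x => univ.image fun θ : H.Θ => H.T x θ c with hY
  have h1 : ∀ x ∈ X, Ex (fun θ : H.Θ => a (H.T x θ c)) =
      ∑ y ∈ Y, Pr (fun θ : H.Θ => H.T x θ c = y) * a y := by
    intro x hx
    rw [Ex_comp (fun θ : H.Θ => H.T x θ c) a]
    refine Finset.sum_subset ?_ ?_
    · intro y hy
      rw [hY, Finset.mem_biUnion]
      exact ⟨x, hx, hy⟩
    · intro y _ hy
      rw [Pr_false _ (fun θ h => hy (Finset.mem_image.2 ⟨θ, Finset.mem_univ _, h⟩)), zero_mul]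
  rw [Finset.sum_congr rfl h1, Finset.sum_comm]
  calc ∑ y ∈ Y, ∑ x ∈ X, Pr (fun θ : H.Θ => H.T x θ c = y) * a y
      = ∑ y ∈ Y, (∑ x ∈ X, Pr (fun θ : H.Θ => H.T x θ c = y)) * a y := by
        refine Finset.sum_congr rfl fun y _ => ?_
        rw [Finset.sum_mul]
    _ ≤ ∑ y ∈ Y, 1 * a y := Finset.sum_le_sum fun y _ =>
        mul_le_mul_of_nonneg_right (H.sp c y hc X) (ha y)
    _ ≤ 1 := by simpa using hs Y

lemma sum_por_le {S : ℕ} (hS : S ≤ R) (X : Finset V) (v : V) :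
    ∑ x ∈ X, Pr (fun ω : PO hG H S => v ∈ por hG H x ω) ≤ S := by
  have h1 : ∀ x, Pr (fun ω : PO hG H S => v ∈ por hG H x ω) =
      Ex fun h : ↥(bl hG o S) => Pr fun θ : H.Θ => v ∈ (geo hG o h).map (H.T x θ) := by
    intro x
    rw [Pr_prod']; rfl
  simp only [h1]
  rw [← Ex_sum]
  refine Ex_le_of_le (Nat.cast_nonneg _) fun h => ?_
  have h2 : ∀ x ∈ X, Pr (fun θ : H.Θ => v ∈ (geo hG o h).map (H.T x θ)) ≤
      ((geo hG o h).map fun c => Pr fun θ : H.Θ => H.T x θ c = v).sum := by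
    intro x _
    have := Pr_exists_list (geo hG o h) (fun c (θ : H.Θ) => H.T x θ c = v)
    refine le_trans (le_of_eq (Pr_congr fun θ => ?_)) this
    simp
  refine (Finset.sum_le_sum h2).trans ?_
  have h3 : ∀ l : List V, (∀ c ∈ l, G.dist o c ≤ R) →
      ∑ x ∈ X, (l.map fun c => Pr fun θ : H.Θ => H.T x θ c = v).sum ≤ l.length := by
    intro l
    induction l with
    | nil => simp
    | cons c l ih =>
      intro hl
      simp only [List.map_cons, List.sum_cons, List.length_cons]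
      rw [Finset.sum_add_distrib]
      have h4 := H.sp c v (hl c (by simp)) X
      have h5 := ih fun c hc => hl c (List.mem_cons_of_mem _ hc)
      push_cast
      linarith
  refine (h3 _ fun c hc => (mem_geo_dist hG hc).trans
    (((mem_bl hG o _ S).1 h.2).trans hS)).trans ?_
  rw [length_geo]
  exact_mod_cast (mem_bl hG o _ S).1 h.2

lemma sum_por_cons_le {S : ℕ} (hS : S ≤ R) (X : Finset V) (v : V) :
    ∑ x ∈ X, Pr (fun ω : PO hG H S => v ∈ x :: por hG H x ω) ≤ S + 1 := by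
  classical
  have h1 : ∀ x ∈ X, Pr (fun ω : PO hG H S => v ∈ x :: por hG H x ω) ≤
      (if x = v then 1 else 0) + Pr (fun ω : PO hG H S => v ∈ por hG H x ω) := by
    intro x _
    by_cases hx : x = v
    · simp only [hx, if_true]
      have h2 := Pr_le_one (fun ω : PO hG H S => v ∈ v :: por hG H v ω)
      have h3 := Pr_nonneg (fun ω : PO hG H S => v ∈ por hG H v ω)
      linarith
    · simp only [hx, if_false, zero_add]
      refine Pr_mono fun ω h => ?_
      rcases List.mem_cons.1 h with h | h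
      · exact absurd h.symm hx
      · exact h
  refine (Finset.sum_le_sum h1).trans ?_
  rw [Finset.sum_add_distrib, add_comm]
  refine add_le_add (sum_por_le hG H hS X v) ?_
  rw [Finset.sum_ite_eq']
  split <;> norm_num

lemma sum_hit_end_le {r S : ℕ} (hr : r ≤ R) (hS : S ≤ R) (X : Finset V) (K : List V) :
    ∑ x ∈ X, Ex (fun ω : PO hG H r => hit hG H S (en x (por hG H x ω)) K) ≤ S * K.length := by
  classical
  -- bound of hit by a sum
  have hb : ∀ e : V, hit hG H S e K ≤ Ex fun h : ↥(bl hG o S) =>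
      ((geo hG o h).map fun c => (K.map fun k => Pr fun θ : H.Θ => H.T e θ c = k).sum).sum := by
    intro e
    unfold hit
    rw [Pr_prod']
    refine Ex_mono fun h => ?_
    have h1 := Pr_exists_list (geo hG o h) (fun c (θ : H.Θ) => ∃ k ∈ K, H.T e θ c = k)
    have h2 : Pr (fun θ : H.Θ => ∃ v ∈ por hG H e (θ, h), v ∈ K) =
        Pr (fun θ : H.Θ => ∃ c ∈ geo hG o h, ∃ k ∈ K, H.T e θ c = k) := by
      refine Pr_congr fun θ => ?_
      simp [por]
    rw [h2]
    refine h1.trans ?_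
    refine List.sum_le_sum fun c _ => ?_
    exact Pr_exists_list K (fun k (θ : H.Θ) => H.T e θ c = k)
  have step : ∀ x ∈ X, Ex (fun ω : PO hG H r => hit hG H S (en x (por hG H x ω)) K) ≤
      Ex fun h : ↥(bl hG o S) => ((geo hG o h).map fun c => (K.map fun k =>
        Ex fun ω : PO hG H r => Pr fun θ : H.Θ => H.T (en x (por hG H x ω)) θ c = k).sum).sum := by
    intro x _
    refine (Ex_mono fun ω => hb _).trans ?_
    rw [Ex_comm]
    refine Ex_mono fun h => ?_
    rw [Ex_list_sum]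
    refine List.sum_le_sum fun c _ => ?_
    rw [Ex_list_sum]
  refine (Finset.sum_le_sum step).trans ?_
  rw [← Ex_sum]
  refine Ex_le_of_le (by positivity) fun h => ?_
  have key : ∀ c k : V, G.dist o c ≤ R →
      ∑ x ∈ X, Ex (fun ω : PO hG H r => Pr fun θ : H.Θ => H.T (en x (por hG H x ω)) θ c = k) ≤ 1 := by
    intro c k hc
    have e1 : ∀ x ∈ X, Ex (fun ω : PO hG H r => Pr fun θ : H.Θ => H.T (en x (por hG H x ω)) θ c = k) =
        Ex fun h' : ↥(bl hG o r) => Ex fun θ' : H.Θ => Pr fun θ : H.Θ => H.T (H.T x θ' h') θ c = k := by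
      intro x _
      rw [Ex_prod']
      simp only [en_por]
    rw [Finset.sum_congr rfl e1, ← Ex_sum]
    refine Ex_le_of_le zero_le_one fun h' => ?_
    exact transport H (((mem_bl hG o _ r).1 h'.2).trans hr)
      (fun e => Pr fun θ : H.Θ => H.T e θ c = k) (fun _ => Pr_nonneg _)
      (fun Y => H.sp c k hc Y) X
  have key2 : ∀ (l : List V) (K : List V), (∀ c ∈ l, G.dist o c ≤ R) →
      ∑ x ∈ X, (l.map fun c => (K.map fun k =>
        Ex fun ω : PO hG H r => Pr fun θ : H.Θ => H.T (en x (por hG H x ω)) θ c = k).sum).sum ≤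
      l.length * K.length := by
    intro l K
    induction l with
    | nil => simp
    | cons c l ih =>
      intro hl
      simp only [List.map_cons, List.sum_cons, List.length_cons]
      rw [Finset.sum_add_distrib]
      have h5 := ih fun c hc => hl c (List.mem_cons_of_mem _ hc)
      have h6 : ∑ x ∈ X, (K.map fun k =>
          Ex fun ω : PO hG H r => Pr fun θ : H.Θ => H.T (en x (por hG H x ω)) θ c = k).sum ≤
          K.length := by
        clear h5 ih
        induction K with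
        | nil => simp
        | cons k K ih =>
          simp only [List.map_cons, List.sum_cons, List.length_cons]
          rw [Finset.sum_add_distrib]
          have := key c k (hl c (by simp))
          push_cast
          linarith
      push_cast
      nlinarith
  refine (key2 _ K fun c hc => (mem_geo_dist hG hc).trans
    (((mem_bl hG o _ S).1 h.2).trans hS)).trans ?_
  rw [length_geo]
  refine mul_le_mul_of_nonneg_right ?_ (Nat.cast_nonneg _)
  exact_mod_cast (mem_bl hG o _ S).1 h.2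

lemma sum_hit_por_le {r S : ℕ} (hr : r ≤ R) (X : Finset V) (z : V) :
    ∑ x ∈ X, Ex (fun ω : PO hG H r => hit hG H S z (por hG H x ω)) ≤ S * r := by
  have h1 : ∀ x, Ex (fun ω : PO hG H r => hit hG H S z (por hG H x ω)) =
      Ex fun ω' : PO hG H S => Pr fun ω : PO hG H r => ∃ v ∈ por hG H z ω', v ∈ por hG H x ω := by
    intro x
    unfold hit Pr
    rw [Ex_comm]
  simp only [h1]
  rw [← Ex_sum]
  refine Ex_le_of_le (by positivity) fun ω' => ?_
  have h2 : ∀ x ∈ X, Pr (fun ω : PO hG H r => ∃ v ∈ por hG H z ω', v ∈ por hG H x ω) ≤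
      ((por hG H z ω').map fun v => Pr fun ω : PO hG H r => v ∈ por hG H x ω).sum := fun x _ =>
    Pr_exists_list _ _
  refine (Finset.sum_le_sum h2).trans ?_
  have h3 : ∀ l : List V, ∑ x ∈ X, (l.map fun v => Pr fun ω : PO hG H r => v ∈ por hG H x ω).sum ≤
      l.length * r := by
    intro l
    induction l with
    | nil => simp
    | cons v l ih =>
      simp only [List.map_cons, List.sum_cons, List.length_cons]
      rw [Finset.sum_add_distrib]
      have := sum_por_le hG H hr X v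
      push_cast
      linarith
  refine (h3 _).trans ?_
  refine mul_le_mul_of_nonneg_right ?_ (Nat.cast_nonneg _)
  exact_mod_cast length_por hG H z ω'

lemma sum_QQ_end_le {r S : ℕ} (hr : r ≤ R) (hS : S ≤ R) (X : Finset V) (z : V) :
    ∑ x ∈ X, Ex (fun ω : PO hG H r => QQ hG H S z (en x (por hG H x ω))) ≤ S * S := by
  have h1 : ∀ x, Ex (fun ω : PO hG H r => QQ hG H S z (en x (por hG H x ω))) =
      Ex fun ω' : PO hG H S => Ex fun ω : PO hG H r =>
        hit hG H S (en x (por hG H x ω)) (por hG H z ω') := by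
    intro x
    simp only [QQ_eq]
    rw [Ex_comm]
  simp only [h1]
  rw [← Ex_sum]
  refine Ex_le_of_le (by positivity) fun ω' => ?_
  refine (sum_hit_end_le hG H hr hS X _).trans ?_
  refine mul_le_mul_of_nonneg_left ?_ (Nat.cast_nonneg _)
  exact_mod_cast length_por hG H z ω'

end Pool.H98.C

end S_H98_C_Port

section S_H98_C_Expo

set_option autoImplicit false

/-! Module EXPO: exposed vertices of a finite set. -/

namespace Pool.H98.C

open Finset Pool.Agent.H61.SW

section EXPO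
variable {V : Type} {G : SimpleGraph V} {o : V} {R : ℕ} (hG : TG G) (H : Homog G o R)

/-- the last vertex of the walk in `M` -/
lemma exists_last (M : Finset V) (x : V) (L : List V) (hx : x ∈ M) :
    ∃ p α : List V, L = p ++ α ∧ en x p ∈ M ∧ ∀ v ∈ α, v ∉ M := by
  induction L using List.reverseRecOn with
  | nil => exact ⟨[], [], rfl, hx, by simp⟩
  | append_singleton L a ih =>
    by_cases ha : a ∈ M
    · exact ⟨L ++ [a], [], by simp, by rw [en_append]; exact ha, by simp⟩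
    · obtain ⟨p, α, h1, h2, h3⟩ := ih
      refine ⟨p, α ++ [a], by rw [h1, List.append_assoc], h2, ?_⟩
      intro v hv
      rcases List.mem_append.1 hv with hv | hv
      · exact h3 v hv
      · rw [List.mem_singleton] at hv; subst hv; exact ha

lemma sum_Pr_fiber {Ω : Type} [Fintype Ω] (f : Ω → V) (q : Ω → Prop) (X : Finset V) :
    ∑ y ∈ X, Pr (fun ω => f ω = y ∧ q ω) = Pr (fun ω => f ω ∈ X ∧ q ω) := by
  classical
  unfold Pr
  rw [← Ex_sum]
  congr 1
  ext ω
  by_cases hq : q ω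
  · by_cases hX : f ω ∈ X
    · rw [Finset.sum_eq_single (f ω)]
      · simp [hq, hX]
      · intro b _ hb
        rw [if_neg]
        rintro ⟨h, -⟩
        exact hb h.symm
      · intro h; exact absurd hX h
    · rw [if_neg (fun h => hX h.1)]
      refine Finset.sum_eq_zero fun y hy => ?_
      rw [if_neg]
      rintro ⟨h, -⟩
      exact hX (h ▸ hy)
  · rw [if_neg (fun h => hq h.2)]
    refine Finset.sum_eq_zero fun y _ => ?_
    rw [if_neg (fun h => hq h.2)]

/-- split of the portion from `x` at its last vertex in `M` -/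
noncomputable def lastP {S : ℕ} (M : Finset V) (x : V) (ω : PO hG H S) : List V :=
  open Classical in
  if hx : x ∈ M then (exists_last M x (por hG H x ω) hx).choose else []

lemma lastP_spec {S : ℕ} {M : Finset V} {x : V} (hx : x ∈ M) (ω : PO hG H S) :
    ∃ α : List V, por hG H x ω = lastP hG H M x ω ++ α ∧ en x (lastP hG H M x ω) ∈ M ∧
      ∀ v ∈ α, v ∉ M := by
  unfold lastP
  rw [dif_pos hx]
  exact (exists_last M x (por hG H x ω) hx).choose_spec

lemma sum_meet_le {r : ℕ} (hr : r ≤ R) (X : Finset V) (K : List V) :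
    ∑ x ∈ X, Pr (fun ω : PO hG H r => ∃ v ∈ K, v ∈ por hG H x ω) ≤ K.length * r := by
  have h2 : ∀ x ∈ X, Pr (fun ω : PO hG H r => ∃ v ∈ K, v ∈ por hG H x ω) ≤
      (K.map fun v => Pr fun ω : PO hG H r => v ∈ por hG H x ω).sum := fun x _ =>
    Pr_exists_list _ _
  refine (Finset.sum_le_sum h2).trans ?_
  clear h2
  induction K with
  | nil => simp
  | cons v l ih =>
    simp only [List.map_cons, List.sum_cons, List.length_cons]
    rw [Finset.sum_add_distrib]
    have := sum_por_le hG H hr X v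
    push_cast
    linarith

theorem expo (S r : ℕ) (hS : S ≤ R) (hr : r ≤ R) (δ : ℝ) (hδ : 0 < δ) (M : Finset V)
    (hM : 4 * (M.card : ℝ) * S ≤ δ * bb hG o r) :
    ∃ E ⊆ M, (M.card : ℝ) ≤ 2 * (r + 1) * E.card ∧
      ∀ (y1 : V) (α1 : List V), α1.length ≤ r → ∃ B ⊆ E,
        (B.card : ℝ) ≤ 4 * (r * (r + 1) + (r * S + S * (r + 1) + S * S) / δ) ∧
        ∀ y ∈ E, y ∉ B → ∃ α, Expd hG H S r δ M y α ∧ Cpt hG H S δ y1 α1 y α := by
  classical
  -- last vertex and good event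
  set f : V → PO hG H r → V := fun x ω => en x (lastP hG H M x ω) with hf
  set q : V → PO hG H r → Prop := fun x ω =>
    hit hG H S (en x (por hG H x ω)) M.toList ≤ δ with hq
  set mu : V → ℝ := fun y => ∑ x ∈ M, Pr (fun ω : PO hG H r => f x ω = y ∧ q x ω) with hmu
  have hfM : ∀ x ∈ M, ∀ ω, f x ω ∈ M := by
    intro x hx ω
    obtain ⟨α, -, h, -⟩ := lastP_spec hG H hx ω
    exact h
  have hbpos := bb_pos (o := o) hG r
  -- total mass
  have hq1 : ∀ x ∈ M, (3 / 4 : ℝ) ≤ Pr (fun ω : PO hG H r => q x ω) := by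
    intro x hx
    have h1 : Pr (fun ω : PO hG H r => ¬ q x ω) = 1 - Pr (fun ω : PO hG H r => q x ω) := Pr_not _
    have h2 : Pr (fun ω : PO hG H r => ¬ q x ω) ≤ 1 / 4 := by
      have h3 : Pr (fun ω : PO hG H r => ¬ q x ω) ≤
          Ex (fun ω : PO hG H r => hit hG H S (en x (por hG H x ω)) M.toList) / δ := by
        refine le_trans (Pr_mono fun ω h => ?_) (Pr_gt_le (fun ω => hit_nonneg hG H S _ _) hδ)
        exact not_le.1 h
      have h4 : Ex (fun ω : PO hG H r => hit hG H S (en x (por hG H x ω)) M.toList) ≤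
          S * M.toList.length * (1 / bb hG o r) :=
        hit_spread hG H (by positivity) (fun ω : PO hG H r => en x (por hG H x ω))
          (fun y => spr_por hG H x y) hS M.toList
      rw [Finset.length_toList] at h4
      refine h3.trans ?_
      rw [div_le_iff₀ hδ]
      refine h4.trans ?_
      rw [mul_one_div, div_le_iff₀ hbpos]
      linarith
    linarith
  have hsum1 : (3 / 4 : ℝ) * M.card ≤ ∑ y ∈ M, mu y := by
    rw [hmu, Finset.sum_comm]
    have h1 : ∀ x ∈ M, (3 / 4 : ℝ) ≤ ∑ y ∈ M, Pr (fun ω : PO hG H r => f x ω = y ∧ q x ω) := by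
      intro x hx
      rw [sum_Pr_fiber]
      refine (hq1 x hx).trans (Pr_mono fun ω h => ⟨hfM x hx ω, h⟩)
    have := Finset.card_nsmul_le_sum M _ _ h1
    rw [nsmul_eq_mul] at this
    linarith
  have hmu_le : ∀ y, mu y ≤ r + 1 := by
    intro y
    rw [hmu]
    refine le_trans (Finset.sum_le_sum fun x hx => Pr_mono fun ω h => ?_)
      (sum_por_cons_le hG H hr M y)
    obtain ⟨α, h1, -, -⟩ := lastP_spec hG H hx ω
    have h2 : f x ω ∈ x :: por hG H x ω := by
      rw [h1]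
      have h3 := en_mem_cons x (lastP hG H M x ω)
      rw [← List.cons_append]
      exact List.mem_append_left _ h3
    rw [h.1] at h2
    exact h2
  have hmu_nn : ∀ y, 0 ≤ mu y := fun y => Finset.sum_nonneg fun x _ => Pr_nonneg _
  refine ⟨M.filter fun y => 1 / 4 ≤ mu y, Finset.filter_subset _ _, ?_, ?_⟩
  · have h1 : ∑ y ∈ M, mu y = ∑ y ∈ M.filter (fun y => 1 / 4 ≤ mu y), mu y +
        ∑ y ∈ M.filter (fun y => ¬ 1 / 4 ≤ mu y), mu y :=
      (Finset.sum_filter_add_sum_filter_not M _ _).symm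
    have h2 : ∑ y ∈ M.filter (fun y => 1 / 4 ≤ mu y), mu y ≤
        (M.filter (fun y => 1 / 4 ≤ mu y)).card * ((r : ℝ) + 1) := by
      have := Finset.sum_le_card_nsmul (M.filter (fun y => 1 / 4 ≤ mu y)) mu ((r : ℝ) + 1)
        (fun y _ => hmu_le y)
      rwa [nsmul_eq_mul] at this
    have h3 : ∑ y ∈ M.filter (fun y => ¬ 1 / 4 ≤ mu y), mu y ≤ M.card * (1 / 4 : ℝ) := by
      have h4 := Finset.sum_le_card_nsmul (M.filter (fun y => ¬ 1 / 4 ≤ mu y)) mu (1 / 4 : ℝ)
        (fun y hy => (not_le.1 (Finset.mem_filter.1 hy).2).le)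
      rw [nsmul_eq_mul] at h4
      refine h4.trans (mul_le_mul_of_nonneg_right ?_ (by norm_num))
      exact_mod_cast Finset.card_le_card (Finset.filter_subset _ _)
    linarith
  · intro y1 α1 hα1
    set z1 := en y1 α1 with hz1
    set E := M.filter fun y => 1 / 4 ≤ mu y with hE
    set B := E.filter fun y => ¬ ∃ α, Expd hG H S r δ M y α ∧ Cpt hG H S δ y1 α1 y α with hB
    refine ⟨B, Finset.filter_subset _ _, ?_, ?_⟩
    swap
    · intro y hy hyB
      by_contra hcon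
      exact hyB (Finset.mem_filter.2 ⟨hy, hcon⟩)
    -- bad events
    set b1 : V → PO hG H r → Prop := fun x ω => ∃ v ∈ α1, v ∈ por hG H x ω with hb1
    set b2 : V → PO hG H r → Prop := fun x ω =>
      δ < hit hG H S (en x (por hG H x ω)) α1 with hb2
    set b3 : V → PO hG H r → Prop := fun x ω => δ < hit hG H S z1 (por hG H x ω) with hb3
    set b4 : V → PO hG H r → Prop := fun x ω =>
      δ < QQ hG H S z1 (en x (por hG H x ω)) with hb4
    have hbad : ∀ x ∈ M, ∀ ω, f x ω ∈ B → q x ω → (b1 x ω ∨ b2 x ω) ∨ (b3 x ω ∨ b4 x ω) := by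
      intro x hx ω hyB hqx
      obtain ⟨α, h1, h2, h3⟩ := lastP_spec hG H hx ω
      by_contra hcon
      push Not at hcon
      obtain ⟨⟨g1, g2⟩, g3, g4⟩ := hcon
      refine (Finset.mem_filter.1 hyB).2 ⟨α, ?_, ?_⟩
      · have hee : en (f x ω) α = en x (por hG H x ω) := by
          rw [h1, en_append]
        refine ⟨?_, ?_, ?_, h3, ?_⟩
        · have := ch_por hG H x ω
          rw [h1, ch_append] at this
          exact this.2
        · have := nodup_por hG H x ω
          rw [h1] at this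
          exact nodup_en_cons this
        · have h5 := length_por hG H x ω
          rw [h1, List.length_append] at h5
          omega
        · rw [hee]; exact hqx
      · have hee : en (f x ω) α = en x (por hG H x ω) := by
          rw [h1, en_append]
        refine ⟨?_, ?_, ?_, ?_⟩
        · intro v hv hv1
          exact g1 ⟨v, hv1, by rw [h1]; exact List.mem_append_right _ hv⟩
        · rw [hee]; exact not_lt.1 g2
        · refine le_trans (hit_mono hG H fun v hv => ?_) (not_lt.1 g3)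
          rw [h1]; exact List.mem_append_right _ hv
        · rw [hee]; exact not_lt.1 g4
    have hBcard : (B.card : ℝ) * (1 / 4) ≤ ∑ y ∈ B, mu y := by
      have := Finset.card_nsmul_le_sum B mu (1 / 4 : ℝ) (fun y hy =>
        (Finset.mem_filter.1 (Finset.mem_filter.1 hy).1).2)
      rwa [nsmul_eq_mul] at this
    have hBsum : ∑ y ∈ B, mu y ≤ ∑ x ∈ M, ((Pr (b1 x) + Pr (b2 x)) + (Pr (b3 x) + Pr (b4 x))) := by
      rw [hmu, Finset.sum_comm]
      refine Finset.sum_le_sum fun x hx => ?_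
      rw [sum_Pr_fiber]
      refine (Pr_mono (q := fun ω => (b1 x ω ∨ b2 x ω) ∨ (b3 x ω ∨ b4 x ω))
        fun ω h => hbad x hx ω h.1 h.2).trans ?_
      refine (Pr_or _ _).trans (add_le_add (Pr_or _ _) (Pr_or _ _))
    have s1 : ∑ x ∈ M, Pr (b1 x) ≤ r * r := by
      refine (sum_meet_le hG H hr M α1).trans ?_
      refine mul_le_mul_of_nonneg_right ?_ (Nat.cast_nonneg _)
      exact_mod_cast hα1
    have s2 : ∑ x ∈ M, Pr (b2 x) ≤ S * r / δ := by
      have h1 : ∀ x ∈ M, Pr (b2 x) ≤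
          Ex (fun ω : PO hG H r => hit hG H S (en x (por hG H x ω)) α1) / δ := fun x _ =>
        Pr_gt_le (fun ω => hit_nonneg hG H S _ _) hδ
      refine (Finset.sum_le_sum h1).trans ?_
      rw [← Finset.sum_div]
      refine div_le_div_of_nonneg_right ?_ hδ.le
      refine (sum_hit_end_le hG H hr hS M α1).trans ?_
      refine mul_le_mul_of_nonneg_left ?_ (Nat.cast_nonneg _)
      exact_mod_cast hα1
    have s3 : ∑ x ∈ M, Pr (b3 x) ≤ S * r / δ := by
      have h1 : ∀ x ∈ M, Pr (b3 x) ≤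
          Ex (fun ω : PO hG H r => hit hG H S z1 (por hG H x ω)) / δ := fun x _ =>
        Pr_gt_le (fun ω => hit_nonneg hG H S _ _) hδ
      refine (Finset.sum_le_sum h1).trans ?_
      rw [← Finset.sum_div]
      exact div_le_div_of_nonneg_right (sum_hit_por_le hG H hr M z1) hδ.le
    have s4 : ∑ x ∈ M, Pr (b4 x) ≤ S * S / δ := by
      have h1 : ∀ x ∈ M, Pr (b4 x) ≤
          Ex (fun ω : PO hG H r => QQ hG H S z1 (en x (por hG H x ω))) / δ := fun x _ =>
        Pr_gt_le (fun ω => QQ_nonneg hG H S _ _) hδ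
      refine (Finset.sum_le_sum h1).trans ?_
      rw [← Finset.sum_div]
      exact div_le_div_of_nonneg_right (sum_QQ_end_le hG H hr hS M z1) hδ.le
    rw [Finset.sum_add_distrib, Finset.sum_add_distrib, Finset.sum_add_distrib] at hBsum
    have e1 : ((r : ℝ) * S + S * (r + 1) + S * S) / δ =
        S * r / δ + S * r / δ + S * S / δ + S / δ := by ring
    have e2 : (0 : ℝ) ≤ S / δ := by positivity
    have e3 : (0 : ℝ) ≤ r := Nat.cast_nonneg _
    rw [e1]
    nlinarith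

end EXPO

end Pool.H98.C

end S_H98_C_Expo

section S_H98_C_Peel

set_option autoImplicit false

/-! Module PEEL: decomposition of self-avoiding walks into good cores. -/

namespace Pool.H98.C

open Finset Pool.Agent.H61.SW

section PEEL
variable {V : Type} {G : SimpleGraph V} {o : V} {R : ℕ} (hG : TG G) (H : Homog G o R)

/-- a finite set of vertices of `v :: p`: the first element of the set leaves a long tail -/
lemma split_first [DecidableEq V] (v : V) (p : List V) (F : Finset V)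
    (hF : ∀ x ∈ F, x ∈ v :: p) (hne : F.Nonempty) :
    ∃ p' c : List V, p = p' ++ c ∧ en v p' ∈ F ∧ F.card ≤ c.length + 1 := by
  induction p generalizing v with
  | nil =>
    obtain ⟨x, hx⟩ := hne
    have h1 : x = v := by simpa using hF x hx
    subst h1
    refine ⟨[], [], rfl, hx, ?_⟩
    have h2 : F ⊆ {x} := fun y hy => by simpa using hF y hy
    simpa using Finset.card_le_card h2
  | cons a p ih =>
    by_cases hv : v ∈ F
    · refine ⟨[], a :: p, rfl, hv, ?_⟩
      have h2 : F ⊆ (v :: a :: p).toFinset := fun y hy => List.mem_toFinset.2 (hF y hy)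
      exact (Finset.card_le_card h2).trans (List.toFinset_card_le _)
    · obtain ⟨p', c, h1, h2, h3⟩ := ih a (fun x hx => by
        rcases List.mem_cons.1 (hF x hx) with rfl | h
        · exact absurd hx hv
        · exact h)
      exact ⟨a :: p', c, by rw [h1]; rfl, h2, h3⟩

/-- the last element of the set leaves a long initial part -/
lemma split_last [DecidableEq V] (v : V) (q : List V) (F : Finset V)
    (hF : ∀ x ∈ F, x ∈ v :: q) (hne : F.Nonempty) :
    ∃ c q' : List V, q = c ++ q' ∧ en v c ∈ F ∧ F.card ≤ c.length + 1 := by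
  induction q using List.reverseRecOn with
  | nil =>
    obtain ⟨x, hx⟩ := hne
    have h1 : x = v := by simpa using hF x hx
    subst h1
    refine ⟨[], [], rfl, hx, ?_⟩
    have h2 : F ⊆ {x} := fun y hy => by simpa using hF y hy
    simpa using Finset.card_le_card h2
  | append_singleton q a ih =>
    by_cases ha : a ∈ F
    · refine ⟨q ++ [a], [], by simp, by rw [en_append]; exact ha, ?_⟩
      have h2 : F ⊆ (v :: (q ++ [a])).toFinset := fun y hy => List.mem_toFinset.2 (hF y hy)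
      exact (Finset.card_le_card h2).trans (List.toFinset_card_le _)
    · obtain ⟨c, q', h1, h2, h3⟩ := ih (fun x hx => by
        have := hF x hx
        rw [← List.cons_append, List.mem_append, List.mem_singleton] at this
        rcases this with h | rfl
        · exact h
        · exact absurd hx ha)
      exact ⟨c, q' ++ [a], by rw [h1, List.append_assoc], h2, h3⟩

lemma Expd.anti {S r : ℕ} {δ : ℝ} {M M' : Finset V} {y : V} {α : List V}
    (h : Expd hG H S r δ M y α) (hM : M' ⊆ M) : Expd hG H S r δ M' y α :=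
  ⟨h.ch, h.nd, h.len, fun v hv hv' => h.av v hv (hM hv'),
    (hit_mono hG H fun _ hv => Finset.mem_toList.2 (hM (Finset.mem_toList.1 hv))).trans h.hit⟩

/-- two compatible exposed arms at the ends of a walk inside `M` make a good core -/
lemma gc_of {S r : ℕ} {δ : ℝ} (hδ : 0 ≤ δ) {m : ℕ} {M : Finset V} {y : V} {c α β : List V}
    (hc : ch G y c) (hnd : (y :: c).Nodup) (hM : ∀ x ∈ y :: c, x ∈ M)
    (ha : Expd hG H S r δ M y α) (hb : Expd hG H S r δ M (en y c) β)
    (hd : ∀ x ∈ α, x ∉ β) (h1 : hit hG H S (en y α) β ≤ δ)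
    (h2 : hit hG H S (en (en y c) β) α ≤ δ) (h3 : QQ hG H S (en y α) (en (en y c) β) ≤ δ)
    (hl : c.length ≤ m) : GC hG H S (2 * δ) r (m + 2 * r) y c := by
  have hy : y ∈ M := hM y (by simp)
  have hcM : ∀ x ∈ c, x ∈ M := fun x hx => hM x (List.mem_cons_of_mem _ hx)
  have e1 : en (en y α) (rv y α ++ (c ++ β)) = en (en y c) β := by
    rw [en_append, en_rv, en_append]
  have hrv : ∀ x, x ∈ en y α :: rv y α ↔ x ∈ y :: α := fun x => mem_rv
  refine ⟨en y α, rv y α, β, en_rv y α, ?_, ?_, ?_, ?_, ?_, hb.len, ?_⟩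
  · -- self-avoiding
    refine ⟨?_, ?_⟩
    · rw [ch_append, ch_append, en_rv]
      exact ⟨ch_rv y α ha.ch, hc, hb.ch⟩
    · rw [← List.cons_append, cons_rv, List.nodup_append]
      refine ⟨List.nodup_reverse.2 ha.nd, ?_, ?_⟩
      · rw [List.nodup_append]
        refine ⟨(List.nodup_cons.1 hnd).2, (List.nodup_cons.1 hb.nd).2, ?_⟩
        intro x hx z hz hxz
        subst hxz
        exact hb.av x hz (hcM x hx)
      · intro x hx z hz hxz
        subst hxz
        rw [List.mem_reverse] at hx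
        rcases List.mem_cons.1 hx with rfl | hx
        · rcases List.mem_append.1 hz with hz | hz
          · exact (List.nodup_cons.1 hnd).1 hz
          · exact hb.av _ hz hy
        · rcases List.mem_append.1 hz with hz | hz
          · exact ha.av x hx (hcM x hz)
          · exact hd x hx hz
  · -- start
    rw [en_rv]
    have h4 : hit hG H S (en y α) (y :: (c ++ β)) ≤ hit hG H S (en y α) (M.toList ++ β) := by
      refine hit_mono hG H fun x hx => ?_
      rcases List.mem_cons.1 hx with rfl | hx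
      · exact List.mem_append_left _ (Finset.mem_toList.2 hy)
      · rcases List.mem_append.1 hx with hx | hx
        · exact List.mem_append_left _ (Finset.mem_toList.2 (hcM x hx))
        · exact List.mem_append_right _ hx
    have h5 := hit_append hG H S (en y α) M.toList β
    have h6 := ha.hit
    linarith
  · rw [e1]
    have h4 : hit hG H S (en (en y c) β) (en y α :: (rv y α ++ c)) ≤
        hit hG H S (en (en y c) β) (M.toList ++ α) := by
      refine hit_mono hG H fun x hx => ?_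
      rw [← List.cons_append, List.mem_append, hrv] at hx
      rcases hx with hx | hx
      · rcases List.mem_cons.1 hx with rfl | hx
        · exact List.mem_append_left _ (Finset.mem_toList.2 hy)
        · exact List.mem_append_right _ hx
      · exact List.mem_append_left _ (Finset.mem_toList.2 (hcM x hx))
    have h5 := hit_append hG H S (en (en y c) β) M.toList α
    have h6 := hb.hit
    linarith
  · rw [e1]; linarith
  · rw [length_rv]; exact ha.len
  · simp only [List.length_append, length_rv]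
    have := ha.len
    have := hb.len
    omega

lemma CP_snoc (P : V → List V → Prop) (n : ℕ) (v : V) (s c : List V) (h : CP P n v s)
    (hc : P (en v s) c) : CP P (n + 1) v (s ++ c) := by
  induction n generalizing v s with
  | zero =>
    have h1 : s = [] := h
    subst h1
    exact ⟨c, [], by simp, hc, rfl⟩
  | succ n ih =>
    obtain ⟨d, t, h1, h2, h3⟩ := h
    subst h1
    rw [en_append] at hc
    exact ⟨d, t ++ c, by rw [List.append_assoc], h2, ih (en v d) t h3 hc⟩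

/-- the induction -/
lemma peel_aux [DecidableEq V] (S r : ℕ) (δ : ℝ) (hδ : 0 ≤ δ) (m mlow κ : ℕ)
    (hexpo : ∀ M : Finset V, mlow ≤ M.card → M.card ≤ m + 1 →
      ∃ E ⊆ M, ∃ Bl : ℕ, 0 < E.card ∧ 2 * (κ + 1 + Bl) ≤ E.card ∧
        ∀ (y1 : V) (α1 : List V), α1.length ≤ r → ∃ B ⊆ E, B.card ≤ Bl ∧
          ∀ y ∈ E, y ∉ B → ∃ α, Expd hG H S r δ M y α ∧ Cpt hG H S δ y1 α1 y α)
    (v : V) (s : List V) (hs : sa G v s) (hlen : s.length ≤ m) (hκ : 0 < κ) (N : ℕ) :
    ∀ (n : ℕ) (p mid q αP αQ : List V), p.length + q.length ≤ N → s = p ++ (mid ++ q) →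
      n * κ ≤ mid.length → CP (GC hG H S (2 * δ) r (m + 2 * r)) n (en v p) mid →
      Expd hG H S r δ ((v :: p).toFinset ∪ (en v (p ++ mid) :: q).toFinset) (en v p) αP →
      Expd hG H S r δ ((v :: p).toFinset ∪ (en v (p ++ mid) :: q).toFinset)
        (en v (p ++ mid)) αQ →
      ∃ n, n * κ ≤ m ∧ ∃ p mid q : List V, s = p ++ (mid ++ q) ∧ p.length + q.length ≤ mlow ∧
        CP (GC hG H S (2 * δ) r (m + 2 * r)) n (en v p) mid := by
  induction N using Nat.strong_induction_on with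
  | _ N ih =>
  intro n p mid q αP αQ hN hsp hn hCP hP hQ
  by_cases hstop : p.length + q.length ≤ mlow
  · refine ⟨n, ?_, p, mid, q, hsp, hstop, hCP⟩
    refine hn.trans ?_
    have : s.length = p.length + (mid.length + q.length) := by rw [hsp]; simp
    omega
  push Not at hstop
  set yP := en v p with hyP
  set yQ := en v (p ++ mid) with hyQ
  set M : Finset V := (v :: p).toFinset ∪ (yQ :: q).toFinset with hMdef
  -- nodup facts
  have hnd : (v :: (p ++ (mid ++ q))).Nodup := hsp ▸ hs.2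
  have hchs : ch G v (p ++ (mid ++ q)) := hsp ▸ hs.1
  have hndP : (v :: p).Nodup := by
    rw [← List.cons_append] at hnd
    exact (List.nodup_append.1 hnd).1
  have hndQ : (yQ :: q).Nodup := by
    rw [← List.append_assoc] at hnd
    exact nodup_en_cons hnd
  have hchP : ch G v p := ((ch_append v p _).1 hchs).1
  have hchQ : ch G yQ q := by
    rw [← List.append_assoc] at hchs
    exact ((ch_append v (p ++ mid) q).1 hchs).2
  -- cardinalities
  have hc1 : (v :: p).toFinset.card = p.length + 1 := by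
    rw [List.toFinset_card_of_nodup hndP]; rfl
  have hc2 : (yQ :: q).toFinset.card = q.length + 1 := by
    rw [List.toFinset_card_of_nodup hndQ]; rfl
  have hMs : M ⊆ (v :: s).toFinset := by
    intro x hx
    rw [hMdef, Finset.mem_union, List.mem_toFinset, List.mem_toFinset] at hx
    rw [List.mem_toFinset, hsp]
    rcases hx with hx | hx
    · rcases List.mem_cons.1 hx with rfl | hx
      · simp
      · simp [hx]
    · rw [← List.append_assoc]
      exact mem_cons_of_split hx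
  have hMle : M.card ≤ m + 1 := by
    refine (Finset.card_le_card hMs).trans ((List.toFinset_card_le _).trans ?_)
    simpa using hlen
  have hMge : mlow ≤ M.card := by
    have hqd : Disjoint (v :: p).toFinset q.toFinset := by
      rw [Finset.disjoint_left]
      intro x hx hx'
      rw [List.mem_toFinset] at hx hx'
      rw [← List.cons_append, List.nodup_append] at hnd
      exact hnd.2.2 x hx x (List.mem_append_right _ hx') rfl
    have h1 : (v :: p).toFinset ∪ q.toFinset ⊆ M := by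
      intro x hx
      rw [Finset.mem_union] at hx
      rw [hMdef, Finset.mem_union]
      rcases hx with hx | hx
      · exact Or.inl hx
      · right
        rw [List.mem_toFinset] at hx ⊢
        exact List.mem_cons_of_mem _ hx
    have h2 := Finset.card_le_card h1
    rw [Finset.card_union_of_disjoint hqd, hc1,
      List.toFinset_card_of_nodup (List.nodup_cons.1 hndQ).2] at h2
    omega
  obtain ⟨E, hEM, Bl, hE0, hE2, hE⟩ := hexpo M hMge hMle
  -- one of the two sides has many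
  have hEsplit : E.card ≤ (E ∩ (v :: p).toFinset).card + (E ∩ (yQ :: q).toFinset).card := by
    have h1 : E ⊆ (E ∩ (v :: p).toFinset) ∪ (E ∩ (yQ :: q).toFinset) := by
      intro x hx
      have := hEM hx
      rw [hMdef, Finset.mem_union] at this
      rw [Finset.mem_union, Finset.mem_inter, Finset.mem_inter]
      rcases this with h | h
      · exact Or.inl ⟨hx, h⟩
      · exact Or.inr ⟨hx, h⟩
    exact (Finset.card_le_card h1).trans (Finset.card_union_le _ _)
  by_cases hside : κ + 1 + Bl ≤ (E ∩ (v :: p).toFinset).card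
  · -- side p
    obtain ⟨B, hBE, hBl, hB⟩ := hE yP αP hP.len
    set F : Finset V := (E ∩ (v :: p).toFinset) \ B with hF
    have hFc : κ + 1 ≤ F.card := by
      have h1 := Finset.le_card_sdiff B (E ∩ (v :: p).toFinset)
      rw [← hF] at h1
      omega
    have hFp : ∀ x ∈ F, x ∈ v :: p := by
      intro x hx
      rw [hF, Finset.mem_sdiff, Finset.mem_inter, List.mem_toFinset] at hx
      exact hx.1.2
    obtain ⟨p', c, hpc, hyF, hcl⟩ := split_first v p F hFp
      (Finset.card_pos.1 (by omega))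
    set y := en v p' with hy
    have hyE : y ∈ E := by
      rw [hF, Finset.mem_sdiff, Finset.mem_inter] at hyF; exact hyF.1.1
    have hyB : y ∉ B := by
      rw [hF, Finset.mem_sdiff] at hyF; exact hyF.2
    obtain ⟨α, hα, hcpt⟩ := hB y hyE hyB
    have hec : en y c = yP := by rw [hy, ← en_append, ← hpc]
    have hycM : ∀ x ∈ y :: c, x ∈ M := by
      intro x hx
      rw [hMdef, Finset.mem_union, List.mem_toFinset]
      left
      rw [hpc]
      exact mem_cons_of_split hx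
    have hgc : GC hG H S (2 * δ) r (m + 2 * r) y c := by
      refine gc_of hG H hδ (M := M) (α := α) (β := αP) ?_ ?_ hycM hα (hec ▸ hP) hcpt.dj
        hcpt.h1 ?_ ?_ ?_
      · rw [hpc] at hchP
        exact ((ch_append v p' c).1 hchP).2
      · rw [hpc] at hndP
        exact nodup_en_cons hndP
      · rw [hec]; exact hcpt.h2
      · rw [hec, QQ_comm]; exact hcpt.qq
      · have : s.length = p'.length + c.length + (mid.length + q.length) := by
          rw [hsp, hpc]; simp; omega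
        omega
    have hpl : p.length = p'.length + c.length := by rw [hpc]; simp
    have hyQ' : en v (p' ++ (c ++ mid)) = yQ := by rw [hyQ, hpc, List.append_assoc]
    have hM' : (v :: p').toFinset ∪ (en v (p' ++ (c ++ mid)) :: q).toFinset ⊆ M := by
      rw [hyQ', hMdef]
      refine Finset.union_subset_union_left ?_
      intro x hx
      rw [List.mem_toFinset] at hx ⊢
      rw [hpc, ← List.cons_append]
      exact List.mem_append_left _ hx
    refine ih (p'.length + q.length) (by omega) (n + 1) p' (c ++ mid) q α αQ le_rfl ?_ ?_ ?_ ?_ ?_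
    · rw [hsp, hpc]; simp
    · rw [add_mul, one_mul, List.length_append]; omega
    · exact ⟨c, mid, rfl, hgc, by rw [hec]; exact hCP⟩
    · exact hα.anti hG H hM'
    · have := hQ.anti hG H hM'
      rw [hyQ']; rw [hyQ'] at this; exact this
  · -- side q
    have hside2 : κ + 1 + Bl ≤ (E ∩ (yQ :: q).toFinset).card := by omega
    obtain ⟨B, hBE, hBl, hB⟩ := hE yQ αQ hQ.len
    set F : Finset V := (E ∩ (yQ :: q).toFinset) \ B with hF
    have hFc : κ + 1 ≤ F.card := by
      have h1 := Finset.le_card_sdiff B (E ∩ (yQ :: q).toFinset)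
      rw [← hF] at h1
      omega
    have hFq : ∀ x ∈ F, x ∈ yQ :: q := by
      intro x hx
      rw [hF, Finset.mem_sdiff, Finset.mem_inter, List.mem_toFinset] at hx
      exact hx.1.2
    obtain ⟨c, q', hqc, hyF, hcl⟩ := split_last yQ q F hFq
      (Finset.card_pos.1 (by omega))
    set y := en yQ c with hy
    have hyE : y ∈ E := by
      rw [hF, Finset.mem_sdiff, Finset.mem_inter] at hyF; exact hyF.1.1
    have hyB : y ∉ B := by
      rw [hF, Finset.mem_sdiff] at hyF; exact hyF.2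
    obtain ⟨α, hα, hcpt⟩ := hB y hyE hyB
    have hycM : ∀ x ∈ yQ :: c, x ∈ M := by
      intro x hx
      rw [hMdef, Finset.mem_union, List.mem_toFinset, List.mem_toFinset]
      right
      rw [hqc, ← List.cons_append]
      exact List.mem_append_left _ hx
    have hgc : GC hG H S (2 * δ) r (m + 2 * r) yQ c := by
      refine gc_of hG H hδ (M := M) (α := αQ) (β := α) ?_ ?_ hycM hQ hα ?_
        hcpt.h2 hcpt.h1 hcpt.qq ?_
      · rw [hqc] at hchQ
        exact ((ch_append yQ c q').1 hchQ).1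
      · rw [hqc, ← List.cons_append] at hndQ
        exact (List.nodup_append.1 hndQ).1
      · intro x hx hx'
        exact hcpt.dj x hx' hx
      · have : s.length = p.length + (mid.length + (c.length + q'.length)) := by
          rw [hsp, hqc]; simp
        omega
    have hql : q.length = c.length + q'.length := by rw [hqc]; simp
    have hyQ' : en v (p ++ (mid ++ c)) = y := by
      rw [hy, hyQ, ← en_append, List.append_assoc]
    have hM' : (v :: p).toFinset ∪ (en v (p ++ (mid ++ c)) :: q').toFinset ⊆ M := by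
      rw [hyQ', hMdef]
      refine Finset.union_subset_union_right ?_
      intro x hx
      rw [List.mem_toFinset] at hx ⊢
      rw [hqc]
      exact mem_cons_of_split hx
    refine ih (p.length + q'.length) (by omega) (n + 1) p (mid ++ c) q' αP α le_rfl ?_ ?_ ?_ ?_ ?_
    · rw [hsp, hqc]; simp
    · rw [add_mul, one_mul, List.length_append]; omega
    · refine CP_snoc _ n _ mid c hCP ?_
      have : en yP mid = yQ := by rw [hyP, hyQ, en_append]
      rw [this]; exact hgc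
    · exact hP.anti hG H hM'
    · have := hα.anti hG H hM'
      rw [hyQ']; rw [hyQ'] at this; exact this

theorem peel (S r : ℕ) (δ : ℝ) (hδ : 0 ≤ δ) (m mlow κ : ℕ) (hκ : 0 < κ)
    (hexpo : ∀ M : Finset V, mlow ≤ M.card → M.card ≤ m + 1 →
      ∃ E ⊆ M, ∃ Bl : ℕ, 0 < E.card ∧ 2 * (κ + 1 + Bl) ≤ E.card ∧
        ∀ (y1 : V) (α1 : List V), α1.length ≤ r → ∃ B ⊆ E, B.card ≤ Bl ∧
          ∀ y ∈ E, y ∉ B → ∃ α, Expd hG H S r δ M y α ∧ Cpt hG H S δ y1 α1 y α)
    (v : V) (s : List V) (hs : sa G v s) (hlen : s.length ≤ m) (hmlow : mlow ≤ s.length + 1) :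
    ∃ n ≤ m / κ, ∃ p mid q : List V, s = p ++ (mid ++ q) ∧ p.length + q.length ≤ mlow ∧
      CP (GC hG H S (2 * δ) r (m + 2 * r)) n (en v p) mid := by
  classical
  set M : Finset V := (v :: s).toFinset with hM
  have hMc : M.card = s.length + 1 := by
    rw [hM, List.toFinset_card_of_nodup hs.2]; rfl
  obtain ⟨E, hEM, Bl, hE0, hE2, hE⟩ := hexpo M (by omega) (by omega)
  obtain ⟨B, hBE, hBl, hB⟩ := hE v [] (by simp)
  have hne : (E \ B).Nonempty := by
    have h1 := Finset.le_card_sdiff B E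
    exact Finset.card_pos.1 (by omega)
  obtain ⟨y0, hy0⟩ := hne
  rw [Finset.mem_sdiff] at hy0
  obtain ⟨α, hα, -⟩ := hB y0 hy0.1 hy0.2
  have hy0s : y0 ∈ v :: s := List.mem_toFinset.1 (hEM hy0.1)
  obtain ⟨p, q, hpq, hyp⟩ : ∃ p q : List V, s = p ++ q ∧ en v p = y0 := by
    obtain ⟨p, q, h1, h2, -⟩ := split_first v s {y0} (by simpa using hy0s) (by simp)
    exact ⟨p, q, h1, by simpa using h2⟩
  have hMM : (v :: p).toFinset ∪ (en v (p ++ []) :: q).toFinset ⊆ M := by
    intro x hx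
    rw [Finset.mem_union, List.mem_toFinset, List.mem_toFinset, List.append_nil] at hx
    rw [hM, List.mem_toFinset, hpq]
    rcases hx with hx | hx
    · rw [← List.cons_append]
      exact List.mem_append_left _ hx
    · exact mem_cons_of_split hx
  obtain ⟨n, hn, h⟩ := peel_aux hG H S r δ hδ m mlow κ hexpo v s hs hlen hκ _ 0 p [] q α α le_rfl
    (by simpa using hpq) (by simp) rfl
    (by rw [hyp]; exact hα.anti hG H hMM)
    (by
      have := hα.anti hG H hMM
      rw [List.append_nil, hyp]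
      rw [List.append_nil, hyp] at this
      exact this)
  exact ⟨n, (Nat.le_div_iff_mul_le hκ).2 hn, h⟩

end PEEL

end Pool.H98.C

end S_H98_C_Peel

section S_H98_C_Coll

set_option autoImplicit false

/-! Collision probabilities for the random placement `gg`. -/

namespace Pool.H98.C

open Finset Pool.Agent.H61.SW

variable {V : Type} {G : SimpleGraph V} {o : V} {R : ℕ} (hG : TG G) (H : Homog G o R)

lemma XX_o {S : ℕ} (u : V) (ω : OO hG H S) : XX hG H u ω o = en u (por hG H u ω.1) :=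
  H.T_o _ _

lemma gg_apply {S : ℕ} (τ : G ≃g G) (u w : V) (ω : OO hG H S × OO hG H S) (y : V) :
    gg hG H τ u w ω y = XX hG H u ω.1 (τ ((XX hG H w ω.2).symm y)) := rfl

/-- the transplant at the end of a portion is spread -/
lemma XX_spr {S : ℕ} (u : V) {c : V} (hc : G.dist o c ≤ R) (x : V) :
    Pr (fun ω : OO hG H S => XX hG H u ω c = x) ≤ 1 / bb hG o S :=
  spr_trans H (by have := bb_pos hG (o := o) S; positivity)
    (fun ω : PO hG H S => en u (por hG H u ω)) (spr_por hG H u) hc x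

lemma dist_XX_symm {S : ℕ} (u y : V) (ω : OO hG H S) :
    G.dist o ((XX hG H u ω).symm y) ≤ S + G.dist u y := by
  have h1 : G.dist o ((XX hG H u ω).symm y) = G.dist (XX hG H u ω o) y := by
    have := dist_iso hG.conn (XX hG H u ω) o ((XX hG H u ω).symm y)
    rw [← this]
    congr 1
    exact (XX hG H u ω).apply_symm_apply y
  rw [h1, XX_o]
  have h2 := hG.tri (en u (por hG H u ω.1)) u y
  have h3 := dist_en_por hG H u ω.1
  rw [SimpleGraph.dist_comm] at h3
  omega

lemma pairX {S ρ : ℕ} (τ : G ≃g G) (u w : V) (hR : G.dist o (τ o) + S + ρ ≤ R)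
    (ω2 : OO hG H S) (x y : V) (hy : G.dist w y ≤ ρ) :
    Pr (fun ω1 : OO hG H S => x = gg hG H τ u w (ω1, ω2) y) ≤ 1 / bb hG o S := by
  have h1 : G.dist o (τ ((XX hG H w ω2).symm y)) ≤ R := by
    have h2 := hG.tri o (τ o) (τ ((XX hG H w ω2).symm y))
    rw [dist_iso hG.conn] at h2
    have h3 := dist_XX_symm hG H w y ω2
    omega
  refine le_trans (le_of_eq (Pr_congr fun ω1 => ?_)) (XX_spr hG H u h1 x)
  rw [gg_apply]
  exact eq_comm

lemma pairY {S ρ : ℕ} (τ : G ≃g G) (u w : V) (hR : G.dist o (τ o) + S + ρ ≤ R)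
    (ω1 : OO hG H S) (x y : V) (hx : G.dist u x ≤ ρ) :
    Pr (fun ω2 : OO hG H S => x = gg hG H τ u w (ω1, ω2) y) ≤ 1 / bb hG o S := by
  set c := τ.symm ((XX hG H u ω1).symm x) with hc
  have h1 : G.dist o c ≤ R := by
    have h0 : G.dist o c = G.dist (τ o) ((XX hG H u ω1).symm x) := by
      rw [← dist_iso hG.conn τ, hc, τ.apply_symm_apply]
    have h2 := hG.tri (τ o) o ((XX hG H u ω1).symm x)
    rw [SimpleGraph.dist_comm] at h2
    have h4 : G.dist (τ o) o = G.dist o (τ o) := SimpleGraph.dist_comm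
    have h3 := dist_XX_symm hG H u x ω1
    rw [h0, SimpleGraph.dist_comm]
    omega
  refine le_trans (le_of_eq (Pr_congr fun ω2 => ?_)) (XX_spr hG H w h1 y)
  rw [gg_apply]
  constructor
  · intro h
    rw [hc, h]
    simp
  · intro h
    rw [← h, hc]
    simp

section
variable {Ω3 : Type} [Fintype Ω3]

lemma collX {S ρ : ℕ} (τ : G ≃g G) (u w : V) (hR : G.dist o (τ o) + S + ρ ≤ R)
    (A B : Ω3 → OO hG H S → List V) (k l : ℕ)
    (hA : ∀ ω3 ω2, (A ω3 ω2).length ≤ k) (hB : ∀ ω3 ω2, (B ω3 ω2).length ≤ l)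
    (hd : ∀ ω3 ω2, ∀ y ∈ B ω3 ω2, G.dist w y ≤ ρ) :
    Pr (fun p : Ω3 × (OO hG H S × OO hG H S) => ∃ x ∈ A p.1 p.2.2, ∃ y ∈ B p.1 p.2.2,
      x = gg hG H τ u w p.2 y) ≤ k * (l * (1 / bb hG o S)) := by
  have hβ : 0 ≤ 1 / bb hG o S := by have := bb_pos hG (o := o) S; positivity
  rw [Pr_prod]
  refine Ex_le_of_le (by positivity) fun ω3 => ?_
  rw [Pr_prod']
  refine Ex_le_of_le (by positivity) fun ω2 => ?_
  refine (Pr_exists_list_le (A ω3 ω2) (fun x (ω1 : OO hG H S) => ∃ y ∈ B ω3 ω2,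
    x = gg hG H τ u w (ω1, ω2) y) (l * (1 / bb hG o S)) fun x hx => ?_).trans ?_
  · refine (Pr_exists_list_le (B ω3 ω2) (fun y (ω1 : OO hG H S) =>
      x = gg hG H τ u w (ω1, ω2) y) (1 / bb hG o S) fun y hy => ?_).trans ?_
    · exact pairX hG H τ u w hR ω2 x y (hd _ _ y hy)
    · exact mul_le_mul_of_nonneg_right (by exact_mod_cast hB ω3 ω2) hβ
  · exact mul_le_mul_of_nonneg_right (by exact_mod_cast hA ω3 ω2) (by positivity)

lemma collY {S ρ : ℕ} (τ : G ≃g G) (u w : V) (hR : G.dist o (τ o) + S + ρ ≤ R)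
    (A B : Ω3 → OO hG H S → List V) (k l : ℕ)
    (hA : ∀ ω3 ω1, (A ω3 ω1).length ≤ k) (hB : ∀ ω3 ω1, (B ω3 ω1).length ≤ l)
    (hd : ∀ ω3 ω1, ∀ x ∈ A ω3 ω1, G.dist u x ≤ ρ) :
    Pr (fun p : Ω3 × (OO hG H S × OO hG H S) => ∃ x ∈ A p.1 p.2.1, ∃ y ∈ B p.1 p.2.1,
      x = gg hG H τ u w p.2 y) ≤ k * (l * (1 / bb hG o S)) := by
  have hβ : 0 ≤ 1 / bb hG o S := by have := bb_pos hG (o := o) S; positivity
  rw [Pr_prod]
  refine Ex_le_of_le (by positivity) fun ω3 => ?_
  rw [Pr_prod]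
  refine Ex_le_of_le (by positivity) fun ω1 => ?_
  refine (Pr_exists_list_le (A ω3 ω1) (fun x (ω2 : OO hG H S) => ∃ y ∈ B ω3 ω1,
    x = gg hG H τ u w (ω1, ω2) y) (l * (1 / bb hG o S)) fun x hx => ?_).trans ?_
  · refine (Pr_exists_list_le (B ω3 ω1) (fun y (ω2 : OO hG H S) =>
      x = gg hG H τ u w (ω1, ω2) y) (1 / bb hG o S) fun y hy => ?_).trans ?_
    · exact pairY hG H τ u w hR ω1 x y (hd _ _ x hx)
    · exact mul_le_mul_of_nonneg_right (by exact_mod_cast hB ω3 ω1) hβ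
  · exact mul_le_mul_of_nonneg_right (by exact_mod_cast hA ω3 ω1) (by positivity)

end

/-- structural collision, first piece fixed -/
lemma strX {S ρ l : ℕ} (τ : G ≃g G) (u w : V) (hR : G.dist o (τ o) + S + ρ ≤ R)
    (K : List V) (B : OO hG H S → List V) (hB : ∀ ω2, (B ω2).length ≤ l)
    (hd : ∀ ω2, ∀ y ∈ B ω2, G.dist w y ≤ ρ) :
    Pr (fun p : OO hG H S × OO hG H S => ∃ x ∈ K, ∃ y ∈ B p.2, x = gg hG H τ u w p y) ≤
      K.length * (l * (1 / bb hG o S)) := by
  have h := collX hG H (Ω3 := Unit) τ u w hR (fun _ _ => K) (fun _ ω2 => B ω2) K.length l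
    (fun _ _ => le_rfl) (fun _ ω2 => hB ω2) (fun _ ω2 => hd ω2)
  rw [Pr_prod] at h
  exact (Ex_const (Ω := Unit) _).symm.le.trans h

/-- structural collision, second piece fixed -/
lemma strY {S ρ k : ℕ} (τ : G ≃g G) (u w : V) (hR : G.dist o (τ o) + S + ρ ≤ R)
    (A : OO hG H S → List V) (K : List V) (hA : ∀ ω1, (A ω1).length ≤ k)
    (hd : ∀ ω1, ∀ x ∈ A ω1, G.dist u x ≤ ρ) :
    Pr (fun p : OO hG H S × OO hG H S => ∃ x ∈ A p.1, ∃ y ∈ K, x = gg hG H τ u w p y) ≤
      k * (K.length * (1 / bb hG o S)) := by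
  have h := collY hG H (Ω3 := Unit) τ u w hR (fun _ ω1 => A ω1) (fun _ _ => K) k K.length
    (fun _ ω1 => hA ω1) (fun _ _ => le_rfl) (fun _ ω1 => hd ω1)
  rw [Pr_prod] at h
  exact (Ex_const (Ω := Unit) _).symm.le.trans h

/-- exposure of `z` to the placed second piece -/
lemma expX {S ρ l : ℕ} (τ : G ≃g G) (u w z : V) (hR : G.dist o (τ o) + S + ρ ≤ R)
    (B : OO hG H S → List V) (hB : ∀ ω2, (B ω2).length ≤ l)
    (hd : ∀ ω2, ∀ y ∈ B ω2, G.dist w y ≤ ρ) :
    Ex (fun p : OO hG H S × OO hG H S => hit hG H S z ((B p.2).map (gg hG H τ u w p))) ≤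
      S * (l * (1 / bb hG o S)) := by
  have h := collX hG H (Ω3 := PO hG H S) τ u w hR (fun ω3 _ => por hG H z ω3)
    (fun _ ω2 => B ω2) S l
    (fun ω3 _ => length_por hG H z ω3) (fun _ ω2 => hB ω2) (fun _ ω2 => hd ω2)
  rw [Pr_prod'] at h
  refine le_trans (le_of_eq ?_) h
  congr 1
  ext p
  refine Pr_congr fun ω3 => ?_
  constructor
  · rintro ⟨v, h1, h2⟩
    obtain ⟨y, h3, rfl⟩ := List.mem_map.1 h2
    exact ⟨_, h1, y, h3, rfl⟩
  · rintro ⟨v, h1, y, h3, rfl⟩
    exact ⟨_, h1, List.mem_map_of_mem h3⟩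

/-- exposure of the placed vertex `g z'` to a fixed list -/
lemma farX {S ρ : ℕ} (τ : G ≃g G) (u w z' : V) (hR : G.dist o (τ o) + S + ρ ≤ R)
    (hz : G.dist w z' + S ≤ ρ) (K : List V) :
    Ex (fun p : OO hG H S × OO hG H S => hit hG H S (gg hG H τ u w p z') K) ≤
      K.length * (S * (1 / bb hG o S)) := by
  have hSR : S ≤ R := by omega
  have h := collX hG H (Ω3 := PO hG H S) τ u w hR (fun _ _ => K)
    (fun ω3 _ => por hG H z' ω3) K.length S
    (fun _ _ => le_rfl) (fun ω3 _ => length_por hG H z' ω3) (fun ω3 _ y hy => by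
      have h1 := hG.tri w z' y
      have h2 := dist_por hG H z' ω3 y (List.mem_cons_of_mem _ hy)
      omega)
  rw [Pr_prod'] at h
  refine le_trans (le_of_eq ?_) h
  congr 1
  ext p
  rw [hit_iso' hG H hSR]
  refine Pr_congr fun ω3 => ?_
  constructor
  · rintro ⟨v, h1, h2⟩
    exact ⟨_, h2, v, h1, rfl⟩
  · rintro ⟨x, h1, v, h3, h4⟩
    exact ⟨v, h3, h4 ▸ h1⟩

/-- exposure of the placed vertex `g z'` to lists depending on the first outcome -/
lemma farY {S ρ k : ℕ} (τ : G ≃g G) (u w z' : V) (hR : G.dist o (τ o) + S + ρ ≤ R)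
    (A : OO hG H S → List V) (hA : ∀ ω1, (A ω1).length ≤ k)
    (hd : ∀ ω1, ∀ x ∈ A ω1, G.dist u x ≤ ρ) :
    Ex (fun p : OO hG H S × OO hG H S => hit hG H S (gg hG H τ u w p z') (A p.1)) ≤
      k * (S * (1 / bb hG o S)) := by
  have hSR : S ≤ R := by omega
  have h := collY hG H (Ω3 := PO hG H S) τ u w hR (fun _ ω1 => A ω1)
    (fun ω3 _ => por hG H z' ω3) k S
    (fun _ ω1 => hA ω1) (fun ω3 _ => length_por hG H z' ω3) (fun _ ω1 => hd ω1)
  rw [Pr_prod'] at h
  refine le_trans (le_of_eq ?_) h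
  congr 1
  ext p
  rw [hit_iso' hG H hSR]
  refine Pr_congr fun ω3 => ?_
  constructor
  · rintro ⟨v, h1, h2⟩
    exact ⟨_, h2, v, h1, rfl⟩
  · rintro ⟨x, h1, v, h3, h4⟩
    exact ⟨v, h3, h4 ▸ h1⟩

/-- meeting of portions from `z` and from the placed vertex `g z'` -/
lemma QQX {S ρ : ℕ} (τ : G ≃g G) (u w z z' : V) (hR : G.dist o (τ o) + S + ρ ≤ R)
    (hz : G.dist w z' + S ≤ ρ) :
    Ex (fun p : OO hG H S × OO hG H S => QQ hG H S z (gg hG H τ u w p z')) ≤
      S * (S * (1 / bb hG o S)) := by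
  have hSR : S ≤ R := by omega
  have h := collX hG H (Ω3 := PO hG H S × PO hG H S) τ u w hR
    (fun ω3 _ => por hG H z ω3.1) (fun ω3 _ => por hG H z' ω3.2) S S
    (fun ω3 _ => length_por hG H z ω3.1) (fun ω3 _ => length_por hG H z' ω3.2)
    (fun ω3 _ y hy => by
      have h1 := hG.tri w z' y
      have h2 := dist_por hG H z' ω3.2 y (List.mem_cons_of_mem _ hy)
      omega)
  rw [Pr_prod'] at h
  refine le_trans (le_of_eq ?_) h
  congr 1
  ext p
  rw [QQ_iso' hG H hSR]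

/-- the connecting path meets a fixed list -/
lemma pathX {S : ℕ} (u : V) (π K : List V) (hπ : ∀ c ∈ π, G.dist o c ≤ R) :
    Pr (fun p : OO hG H S × OO hG H S => ∃ v ∈ π.map (XX hG H u p.1), v ∈ K) ≤
      π.length * (K.length * (1 / bb hG o S)) := by
  have hβ : 0 ≤ 1 / bb hG o S := by have := bb_pos hG (o := o) S; positivity
  rw [Pr_prod']
  refine Ex_le_of_le (by positivity) fun ω2 => ?_
  exact Pr_two_lists π K (fun c (ω1 : OO hG H S) => XX hG H u ω1 c) _
    fun c hc k _ => XX_spr hG H u (hπ c hc) k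

end Pool.H98.C

end S_H98_C_Coll

section S_H98_C_Merge

set_option autoImplicit false

/-! Merging two families of blocks. -/

namespace Pool.H98.C

open Finset Pool.Agent.H61.SW

section gen
variable {Ω Ω' : Type} [Fintype Ω] [Fintype Ω']

lemma Ex_fst [Nonempty Ω'] (f : Ω → ℝ) : Ex (fun p : Ω × Ω' => f p.1) = Ex f := by
  rw [Ex_prod]
  simp only [Ex_const]

lemma Ex_snd [Nonempty Ω] (f : Ω' → ℝ) : Ex (fun p : Ω × Ω' => f p.2) = Ex f := by
  rw [Ex_prod']
  simp only [Ex_const]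

lemma Pr_fst [Nonempty Ω'] (f : Ω → Prop) : Pr (fun p : Ω × Ω' => f p.1) = Pr f := by
  classical
  rw [Pr_prod]
  refine congrArg Ex (funext fun ω => ?_)
  by_cases h : f ω
  · rw [Pr_true _ (fun _ => h)]; simp [h]
  · rw [Pr_false _ (fun _ => h)]; simp [h]

lemma Pr_snd [Nonempty Ω] (f : Ω' → Prop) : Pr (fun p : Ω × Ω' => f p.2) = Pr f := by
  classical
  rw [Pr_prod']
  refine congrArg Ex (funext fun ω => ?_)
  by_cases h : f ω
  · rw [Pr_true _ (fun _ => h)]; simp [h]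
  · rw [Pr_false _ (fun _ => h)]; simp [h]

/-- some outcome is good for a large weight -/
lemma exists_good [Nonempty Ω] {ι : Type} (T : Finset ι) (w : ι → ℝ) (hw : ∀ i ∈ T, 0 ≤ w i)
    (Q : ι → Ω → Prop) [∀ i ω, Decidable (Q i ω)] (c : ℝ) (h : ∀ i ∈ T, c ≤ Pr (Q i)) :
    ∃ ω, c * ∑ i ∈ T, w i ≤ ∑ i ∈ T.filter (fun i => Q i ω), w i := by
  classical
  obtain ⟨ω, hω⟩ := exists_ge_Ex (fun ω => ∑ i ∈ T, w i * (if Q i ω then (1 : ℝ) else 0))
  refine ⟨ω, ?_⟩
  have h1 : ∑ i ∈ T.filter (fun i => Q i ω), w i =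
      ∑ i ∈ T, w i * (if Q i ω then (1 : ℝ) else 0) := by
    rw [Finset.sum_filter]
    refine Finset.sum_congr rfl fun i _ => ?_
    by_cases hq : Q i ω <;> simp [hq]
  rw [h1]
  refine le_trans ?_ hω
  rw [Ex_sum, Finset.mul_sum]
  refine Finset.sum_le_sum fun i hi => ?_
  rw [Ex_const_mul, mul_comm]
  refine mul_le_mul_of_nonneg_left ?_ (hw i hi)
  refine (h i hi).trans (le_of_eq ?_)
  unfold Pr
  congr 1
  ext ω
  by_cases hq : Q i ω <;> simp [hq]

/-- Markov with a multiple of the mean bound -/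
lemma Pr_markov {f : Ω → ℝ} (hf : ∀ ω, 0 ≤ f ω) {m M : ℝ} (hm : 0 < m) (hM : 0 < M)
    (h : Ex f ≤ m) : Pr (fun ω => M * m < f ω) ≤ 1 / M := by
  refine (Pr_gt_le hf (by positivity)).trans ?_
  rw [div_le_div_iff₀ (by positivity) hM]
  nlinarith

end gen

section count
variable {V : Type}

/-- sums over the image, bounded fibres -/
lemma sum_image_fiber {ι : Type} (t : ℝ) (ht : 0 ≤ t) (T : Finset ι) (Φ : ι → V × List V)
    (F : Finset (V × List V)) (hF : ∀ i ∈ T, Φ i ∈ F) (n : ℕ) (κ : ι → ℕ × ℕ)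
    (h1 : ∀ i ∈ T, (κ i).1 < n ∧ (κ i).2 < n)
    (hinj : ∀ i ∈ T, ∀ j ∈ T, Φ i = Φ j → κ i = κ j → i = j) :
    ∑ i ∈ T, t ^ (Φ i).2.length ≤ (n : ℝ) ^ 2 * wt t F := by
  classical
  rw [← Finset.sum_fiberwise_of_maps_to hF, wt, Finset.mul_sum]
  refine Finset.sum_le_sum fun f _ => ?_
  have h2 : ∑ i ∈ T.filter (fun i => Φ i = f), t ^ (Φ i).2.length =
      ((T.filter (fun i => Φ i = f)).card : ℝ) * t ^ f.2.length := by
    rw [← nsmul_eq_mul, ← Finset.sum_const]
    refine Finset.sum_congr rfl fun i hi => ?_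
    rw [(Finset.mem_filter.1 hi).2]
  rw [h2]
  refine mul_le_mul_of_nonneg_right ?_ (pow_nonneg ht _)
  have h3 : (T.filter (fun i => Φ i = f)).card ≤ (range n ×ˢ range n).card := by
    refine Finset.card_le_card_of_injOn κ ?_ ?_
    · intro i hi
      have := h1 i (Finset.mem_filter.1 hi).1
      simp [this.1, this.2]
    · intro i hi j hj hij
      have hi' := Finset.mem_filter.1 hi
      have hj' := Finset.mem_filter.1 hj
      exact hinj i hi'.1 j hj'.1 (hi'.2.trans hj'.2.symm) hij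
  rw [Finset.card_product, Finset.card_range] at h3
  rw [sq]
  exact_mod_cast h3

end count

variable {V : Type} {G : SimpleGraph V} {o : V} {R : ℕ} (hG : TG G) (H : Homog G o R)

/-- the connecting walk -/
noncomputable def kap {S : ℕ} (τ : G ≃g G) (π : List V) (u w : V) (ω : OO hG H S × OO hG H S) :
    List V :=
  por hG H u ω.1.1 ++ (π.map (XX hG H u ω.1) ++
    (rv w (por hG H w ω.2.1)).map (gg hG H τ u w ω))

lemma kap_spec {S : ℕ} (τ : G ≃g G) (π : List V) (hπ : ch G o π) (hπe : en o π = τ o) (u w : V)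
    (ω : OO hG H S × OO hG H S) :
    ch G u (kap hG H τ π u w ω) ∧ en u (kap hG H τ π u w ω) = gg hG H τ u w ω w ∧
    (kap hG H τ π u w ω).length ≤ 2 * S + π.length ∧
    ∀ x ∈ kap hG H τ π u w ω, x ∈ por hG H u ω.1.1 ∨ x ∈ π.map (XX hG H u ω.1) ∨
      ∃ y ∈ w :: por hG H w ω.2.1, x = gg hG H τ u w ω y := by
  unfold kap
  have e1 : en u (por hG H u ω.1.1) = XX hG H u ω.1 o := (XX_o hG H u ω.1).symm
  have e2 : en (XX hG H u ω.1 o) (π.map (XX hG H u ω.1)) =
      gg hG H τ u w ω (en w (por hG H w ω.2.1)) := by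
    rw [en_map, hπe, gg_apply, ← XX_o hG H w ω.2]
    simp
  refine ⟨?_, ?_, ?_, ?_⟩
  · rw [ch_append, ch_append, e1, e2]
    exact ⟨ch_por hG H u _, (ch_map _ _ _).2 hπ,
      (ch_map _ _ _).2 (ch_rv _ _ (ch_por hG H w _))⟩
  · rw [en_append, en_append, e1, e2, en_map, en_rv]
  · simp only [List.length_append, List.length_map, length_rv]
    have h1 := length_por hG H u ω.1.1
    have h2 := length_por hG H w ω.2.1
    omega
  · intro x hx
    rcases List.mem_append.1 hx with hx | hx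
    · exact Or.inl hx
    rcases List.mem_append.1 hx with hx | hx
    · exact Or.inr (Or.inl hx)
    · obtain ⟨y, hy, rfl⟩ := List.mem_map.1 hx
      exact Or.inr (Or.inr ⟨y, mem_rv.1 (List.mem_cons_of_mem _ hy), rfl⟩)

/-- data of a good pair: the placed concatenation is a block -/
theorem merge_one {S A L : ℕ} {δ M m : ℝ} (hSR : S ≤ R)
    {z1 z2 : V} {a1 c1 b1 a2 c2 b2 : List V}
    (B1 : Blk hG H S δ A L z1 a1 c1 b1) (B2 : Blk hG H S δ A L z2 a2 c2 b2)
    (ω : OO hG H S × OO hG H S) (g : G ≃g G)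
    (hg : g = gg hG H (RelIso.refl _) (en z1 (a1 ++ (c1 ++ b1))) z2 ω)
    (E1 : ∀ v ∈ por hG H (en z1 (a1 ++ (c1 ++ b1))) ω.1.1, v ∉ z1 :: (a1 ++ c1))
    (E2 : ∀ v ∈ por hG H z2 ω.2.1, v ∉ en z2 a2 :: (c2 ++ b2))
    (E3 : ¬ ∃ x ∈ z1 :: (a1 ++ (c1 ++ b1)), ∃ y ∈ (z2 :: (a2 ++ (c2 ++ b2))) ++
      por hG H z2 ω.2.1, x = g y)
    (E4 : ¬ ∃ x ∈ por hG H (en z1 (a1 ++ (c1 ++ b1))) ω.1.1, ∃ y ∈ z2 :: (a2 ++ (c2 ++ b2)),
      x = g y)
    (E5 : hit hG H S z1 (por hG H (en z1 (a1 ++ (c1 ++ b1))) ω.1.1) +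
      hit hG H S z1 (((z2 :: (a2 ++ (c2 ++ b2))) ++ por hG H z2 ω.2.1).map g) ≤ M * m)
    (E6 : hit hG H S (en z2 (a2 ++ (c2 ++ b2))) (por hG H z2 ω.2.1) +
      hit hG H S (g (en z2 (a2 ++ (c2 ++ b2)))) (z1 :: (a1 ++ (c1 ++ b1))) +
      hit hG H S (g (en z2 (a2 ++ (c2 ++ b2)))) (por hG H (en z1 (a1 ++ (c1 ++ b1))) ω.1.1) ≤
        M * m)
    (E7 : QQ hG H S z1 (g (en z2 (a2 ++ (c2 ++ b2)))) ≤ M * m) (hδ : 0 ≤ δ) :
    ∃ π : List V, π.length ≤ 2 * A + 2 * S ∧
      en (en z1 (a1 ++ c1)) π = g (en z2 a2) ∧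
      Blk hG H S (δ + M * m) A (2 * L + 2 * S) z1 a1 (c1 ++ (π ++ c2.map g)) (b2.map g) ∧
      en z1 (a1 ++ ((c1 ++ (π ++ c2.map g)) ++ b2.map g)) = g (en z2 (a2 ++ (c2 ++ b2))) ∧
      ∀ x ∈ a1 ++ ((c1 ++ (π ++ c2.map g)) ++ b2.map g), x ∈ a1 ++ (c1 ++ b1) ∨
        x ∈ por hG H (en z1 (a1 ++ (c1 ++ b1))) ω.1.1 ∨
        ∃ y, (y ∈ z2 :: (a2 ++ (c2 ++ b2)) ∨ y ∈ por hG H z2 ω.2.1) ∧ x = g y := by
  set u := en z1 (a1 ++ (c1 ++ b1)) with hu
  set z' := en z2 (a2 ++ (c2 ++ b2)) with hz'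
  obtain ⟨k1, k2, k3, k4⟩ := kap_spec hG H (S := S) (RelIso.refl _) [] trivial rfl u z2 ω
  rw [← hg] at k2 k4
  set κ := kap hG H (RelIso.refl _) [] u z2 ω with hκ
  have k4' : ∀ x ∈ κ, x ∈ por hG H u ω.1.1 ∨ ∃ y ∈ z2 :: por hG H z2 ω.2.1, x = g y := by
    intro x hx
    rcases k4 x hx with h | h | h
    · exact Or.inl h
    · simp at h
    · exact Or.inr h
  obtain ⟨π, p1, p2, p3, p4, p5⟩ := join_det (g := g) (κ := κ) B1.sa B2.sa k1 k2 (by
      intro x hx
      rcases k4' x hx with h | ⟨y, hy, rfl⟩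
      · exact E1 x h
      · intro hx'
        refine E3 ⟨g y, ?_, y, ?_, rfl⟩
        · rcases List.mem_cons.1 hx' with h | h
          · rw [h]; simp
          · rcases List.mem_append.1 h with h | h <;> simp [h]
        · rcases List.mem_cons.1 hy with h | h <;> simp [h]) (by
      intro x hx
      rcases k4' x hx with h | ⟨y, hy, rfl⟩
      · right
        intro y hy hxy
        refine E4 ⟨x, h, y, ?_, hxy⟩
        exact mem_cons_of_split hy
      · rcases List.mem_cons.1 hy with rfl | hy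
        · exact Or.inl rfl
        · right
          intro y' hy' hyy
          have : y = y' := g.injective hyy
          subst this
          exact E2 y hy hy') (by
      intro x hx y hy hxy
      exact E3 ⟨x, hx, y, List.mem_append_left _ hy, hxy⟩)
  have hlκ : κ.length ≤ 2 * S := by simpa using k3
  have l1 := B1.ll
  have l2 := B2.ll
  have la1 := B1.la
  have lb1 := B1.lb
  have la2 := B2.la
  have lb2 := B2.lb
  simp only [List.length_append] at l1 l2
  -- where the new vertices are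
  have memπ : ∀ x ∈ π, x ∈ b1 ∨ x ∈ por hG H u ω.1.1 ∨
      ∃ y, (y ∈ z2 :: a2 ∨ y ∈ por hG H z2 ω.2.1) ∧ x = g y := by
    intro x hx
    rcases p2 x hx with h | h | ⟨y, hy, rfl⟩
    · exact Or.inl h
    · rcases k4' x h with h | ⟨y, hy, rfl⟩
      · exact Or.inr (Or.inl h)
      · refine Or.inr (Or.inr ⟨y, ?_, rfl⟩)
        rcases List.mem_cons.1 hy with h | h
        · left; simp [h]
        · exact Or.inr h
    · exact Or.inr (Or.inr ⟨y, Or.inl (List.mem_cons_of_mem _ hy), rfl⟩)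
  have memall : ∀ x ∈ a1 ++ ((c1 ++ (π ++ c2.map g)) ++ b2.map g), x ∈ a1 ++ (c1 ++ b1) ∨
        x ∈ por hG H u ω.1.1 ∨
        ∃ y, (y ∈ z2 :: (a2 ++ (c2 ++ b2)) ∨ y ∈ por hG H z2 ω.2.1) ∧ x = g y := by
    intro x hx
    simp only [List.mem_append] at hx
    rcases hx with h | (h | h | h) | h
    · left; simp [h]
    · left; simp [h]
    · rcases memπ x h with h | h | ⟨y, hy, rfl⟩
      · left; simp [h]
      · exact Or.inr (Or.inl h)
      · refine Or.inr (Or.inr ⟨y, ?_, rfl⟩)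
        rcases hy with hy | hy
        · left
          rcases List.mem_cons.1 hy with h | h <;> simp [h]
        · exact Or.inr hy
    · obtain ⟨y, hy, rfl⟩ := List.mem_map.1 h
      exact Or.inr (Or.inr ⟨y, Or.inl (by simp [hy]), rfl⟩)
    · obtain ⟨y, hy, rfl⟩ := List.mem_map.1 h
      exact Or.inr (Or.inr ⟨y, Or.inl (by simp [hy]), rfl⟩)
  refine ⟨π, by omega, p3, ⟨p4, ?_, ?_, ?_, la1, by simpa using lb2, ?_⟩, p5, memall⟩
  · -- exposure at the root
    have h1 : ∀ v ∈ en z1 a1 :: ((c1 ++ (π ++ c2.map g)) ++ b2.map g),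
        v ∈ (en z1 a1 :: (c1 ++ b1)) ++ (por hG H u ω.1.1 ++
          ((z2 :: (a2 ++ (c2 ++ b2))) ++ por hG H z2 ω.2.1).map g) := by
      intro x hx
      rw [List.mem_append, List.mem_append]
      rcases List.mem_cons.1 hx with h | h
      · left; rw [h]; simp
      simp only [List.mem_append] at h
      have key : ∀ y, (y ∈ z2 :: (a2 ++ (c2 ++ b2)) ∨ y ∈ por hG H z2 ω.2.1) →
          g y ∈ ((z2 :: (a2 ++ (c2 ++ b2))) ++ por hG H z2 ω.2.1).map g := fun y hy =>
        List.mem_map_of_mem (List.mem_append.2 hy)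
      rcases h with (h | h | h) | h
      · left; simp [h]
      · rcases memπ x h with h | h | ⟨y, hy, rfl⟩
        · left; simp [h]
        · exact Or.inr (Or.inl h)
        · refine Or.inr (Or.inr (key y ?_))
          rcases hy with hy | hy
          · left
            rcases List.mem_cons.1 hy with h | h <;> simp [h]
          · exact Or.inr hy
      · obtain ⟨y, hy, rfl⟩ := List.mem_map.1 h
        exact Or.inr (Or.inr (key y (Or.inl (by simp [hy]))))
      · obtain ⟨y, hy, rfl⟩ := List.mem_map.1 h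
        exact Or.inr (Or.inr (key y (Or.inl (by simp [hy]))))
    refine (hit_mono hG H h1).trans ((hit_append hG H S z1 _ _).trans ?_)
    have h2 := hit_append hG H S z1 (por hG H u ω.1.1)
      (((z2 :: (a2 ++ (c2 ++ b2))) ++ por hG H z2 ω.2.1).map g)
    have h3 := B1.hs
    linarith
  · -- exposure at the far end
    rw [p5]
    have h1 : ∀ v ∈ z1 :: (a1 ++ (c1 ++ (π ++ c2.map g))),
        v ∈ (z1 :: (a1 ++ (c1 ++ b1))) ++ (por hG H u ω.1.1 ++
          ((por hG H z2 ω.2.1).map g ++ (z2 :: (a2 ++ c2)).map g)) := by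
      intro x hx
      rw [List.mem_append, List.mem_append, List.mem_append]
      rcases List.mem_cons.1 hx with h | h
      · left; rw [h]; simp
      simp only [List.mem_append] at h
      rcases h with h | h | h | h
      · left; simp [h]
      · left; simp [h]
      · rcases memπ x h with h | h | ⟨y, hy, rfl⟩
        · left; simp [h]
        · exact Or.inr (Or.inl h)
        · rcases hy with hy | hy
          · refine Or.inr (Or.inr (Or.inr (List.mem_map_of_mem ?_)))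
            rcases List.mem_cons.1 hy with h | h <;> simp [h]
          · exact Or.inr (Or.inr (Or.inl (List.mem_map_of_mem hy)))
      · obtain ⟨y, hy, rfl⟩ := List.mem_map.1 h
        exact Or.inr (Or.inr (Or.inr (List.mem_map_of_mem (by simp [hy]))))
    refine (hit_mono hG H h1).trans ((hit_append hG H S _ _ _).trans ?_)
    have h2 := hit_append hG H S (g z') (por hG H u ω.1.1)
      ((por hG H z2 ω.2.1).map g ++ (z2 :: (a2 ++ c2)).map g)
    have h3 := hit_append hG H S (g z') ((por hG H z2 ω.2.1).map g) ((z2 :: (a2 ++ c2)).map g)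
    rw [hit_iso hG H hSR, hit_iso hG H hSR] at h3
    have h4 := B2.he
    linarith
  · rw [p5]
    linarith
  · simp only [List.length_append, List.length_map]
    omega

/-- the placement of a pair -/
noncomputable def plc {S : ℕ} (z1 z2 : V) (s1 : List V) (ω : OO hG H S × OO hG H S) : G ≃g G :=
  gg hG H (RelIso.refl _) (en z1 s1) z2 ω

/-- property of the lists of the merged family -/
def MP {S : ℕ} (z1 z2 : V) (P1 P2 : List V → Prop) (Conf : V → OO hG H S × OO hG H S → Prop)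
    (ω : OO hG H S × OO hG H S) (s : List V) : Prop :=
  ∃ s1 s2, P1 s1 ∧ P2 s2 ∧ Conf (en z1 s1) ω ∧
    en z1 s = plc hG H z1 z2 s1 ω (en z2 s2) ∧
    ∀ x ∈ s, x ∈ s1 ∨ x ∈ por hG H (en z1 s1) ω.1.1 ∨
      ∃ y, (y ∈ z2 :: s2 ∨ y ∈ por hG H z2 ω.2.1) ∧ x = plc hG H z1 z2 s1 ω y

theorem merge {S A L : ℕ} {δ δ' t p M : ℝ} (ht : 0 < t) (ht1 : t ≤ 1) (hδ : 0 < δ) (hM : 0 < M)
    (hR : 3 * S + L ≤ R)
    (z1 z2 : V) (P1 P2 : List V → Prop) (F1 F2 : Finset (V × List V))
    (h1 : Fam hG H S δ A L z1 P1 F1) (h2 : Fam hG H S δ A L z2 P2 F2)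
    (Conf : V → OO hG H S × OO hG H S → Prop)
    (hConf : ∀ s, P1 s → p ≤ Pr (Conf (en z1 s)))
    (hnum : 2 * δ + ((L + 1) * (L + 1 + S) + S * (L + 1)) * (1 / bb hG o S) + 3 / M ≤ p / 2)
    (hδ' : δ + M * (δ + S * (L + 1 + S) * (1 / bb hG o S)) ≤ δ') :
    ∃ (ω : OO hG H S × OO hG H S) (F : Finset (V × List V)),
      Fam hG H S δ' A (2 * L + 2 * S) z1 (MP hG H z1 z2 P1 P2 Conf ω) F ∧
      (p / 2) * (wt t F1 * wt t F2) * t ^ (2 * A + 2 * S) ≤ (2 * L + 2 * S + 1) ^ 2 * wt t F := by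
  classical
  have hSR : S ≤ R := by omega
  have hbb := bb_pos hG (o := o) S
  set β : ℝ := 1 / bb hG o S with hβ
  have hβ0 : 0 < β := by positivity
  set m : ℝ := δ + S * (L + 1 + S) * β with hm
  have hm0 : 0 < m := by positivity
  choose! a1 b1 e1 B1 Q1 using h1
  choose! a2 b2 e2 B2 Q2 using h2
  -- shorthand
  let s1 : V × List V → List V := fun q => a1 q ++ (q.2 ++ b1 q)
  let s2 : V × List V → List V := fun q => a2 q ++ (q.2 ++ b2 q)
  let g : V × List V → OO hG H S × OO hG H S → G ≃g G := fun q ω => plc hG H z1 z2 (s1 q) ω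
  let Bad : (V × List V) × (V × List V) → OO hG H S × OO hG H S → Prop := fun q ω =>
    (∃ v ∈ por hG H (en z1 (s1 q.1)) ω.1.1, v ∈ z1 :: (a1 q.1 ++ q.1.2)) ∨
    (∃ v ∈ por hG H z2 ω.2.1, v ∈ en z2 (a2 q.2) :: (q.2.2 ++ b2 q.2)) ∨
    (∃ x ∈ z1 :: s1 q.1, ∃ y ∈ (z2 :: s2 q.2) ++ por hG H z2 ω.2.1, x = g q.1 ω y) ∨
    (∃ x ∈ por hG H (en z1 (s1 q.1)) ω.1.1, ∃ y ∈ z2 :: s2 q.2, x = g q.1 ω y) ∨
    (M * m < hit hG H S z1 (por hG H (en z1 (s1 q.1)) ω.1.1) +
      hit hG H S z1 (((z2 :: s2 q.2) ++ por hG H z2 ω.2.1).map (g q.1 ω))) ∨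
    (M * m < hit hG H S (en z2 (s2 q.2)) (por hG H z2 ω.2.1) +
      hit hG H S (g q.1 ω (en z2 (s2 q.2))) (z1 :: s1 q.1) +
      hit hG H S (g q.1 ω (en z2 (s2 q.2))) (por hG H (en z1 (s1 q.1)) ω.1.1)) ∨
    (M * m < QQ hG H S z1 (g q.1 ω (en z2 (s2 q.2))))
  have hBad : ∀ q ∈ F1 ×ˢ F2, Pr (Bad q) ≤ p / 2 := by
    intro q hq
    obtain ⟨hq1, hq2⟩ := Finset.mem_product.1 hq
    have C1 := B1 q.1 hq1
    have C2 := B2 q.2 hq2
    have len1 : (s1 q.1).length ≤ L := C1.ll
    have len2 : (s2 q.2).length ≤ L := C2.ll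
    have hτ : G.dist o ((RelIso.refl G.Adj : G ≃g G) o) = 0 := by
      show G.dist o o = 0
      simp
    have hRR : G.dist o ((RelIso.refl G.Adj : G ≃g G) o) + S + (L + S) ≤ R := by
      rw [hτ]; omega
    have d2 : ∀ ω2 : OO hG H S, ∀ y ∈ (z2 :: s2 q.2) ++ por hG H z2 ω2.1,
        G.dist z2 y ≤ L + S := by
      intro ω2 y hy
      rcases List.mem_append.1 hy with hy | hy
      · exact ((dist_mem_ch C2.sa.1 hy).trans len2).trans (by omega)
      · exact (dist_por hG H z2 ω2.1 y (List.mem_cons_of_mem _ hy)).trans (by omega)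
    have d1 : ∀ ω1 : OO hG H S, ∀ x ∈ por hG H (en z1 (s1 q.1)) ω1.1,
        G.dist (en z1 (s1 q.1)) x ≤ L + S := fun ω1 x hx =>
      (dist_por hG H _ ω1.1 x (List.mem_cons_of_mem _ hx)).trans (by omega)
    have dz : G.dist z2 (en z2 (s2 q.2)) + S ≤ L + S := by
      have := dist_en_le z2 (s2 q.2) C2.sa.1
      omega
    have lenB : ∀ ω2 : OO hG H S, ((z2 :: s2 q.2) ++ por hG H z2 ω2.1).length ≤ L + 1 + S := by
      intro ω2
      have := length_por hG H z2 ω2.1
      simp only [List.length_append, List.length_cons]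
      omega
    -- the seven bounds
    have b1' : Pr (fun ω : OO hG H S × OO hG H S =>
        ∃ v ∈ por hG H (en z1 (s1 q.1)) ω.1.1, v ∈ z1 :: (a1 q.1 ++ q.1.2)) ≤ δ := by
      have h := Pr_fst (Ω' := OO hG H S) (fun ω1 : OO hG H S =>
        ∃ v ∈ por hG H (en z1 (s1 q.1)) ω1.1, v ∈ z1 :: (a1 q.1 ++ q.1.2))
      rw [h]
      have h' := Pr_fst (Ω' := H.Θ) (fun ω1 : PO hG H S =>
        ∃ v ∈ por hG H (en z1 (s1 q.1)) ω1, v ∈ z1 :: (a1 q.1 ++ q.1.2))
      rw [h']
      exact C1.he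
    have b2' : Pr (fun ω : OO hG H S × OO hG H S =>
        ∃ v ∈ por hG H z2 ω.2.1, v ∈ en z2 (a2 q.2) :: (q.2.2 ++ b2 q.2)) ≤ δ := by
      have h := Pr_snd (Ω := OO hG H S) (fun ω1 : OO hG H S =>
        ∃ v ∈ por hG H z2 ω1.1, v ∈ en z2 (a2 q.2) :: (q.2.2 ++ b2 q.2))
      rw [h]
      have h' := Pr_fst (Ω' := H.Θ) (fun ω1 : PO hG H S =>
        ∃ v ∈ por hG H z2 ω1, v ∈ en z2 (a2 q.2) :: (q.2.2 ++ b2 q.2))
      rw [h']
      exact C2.hs
    have b3' := strX hG H (RelIso.refl _) (en z1 (s1 q.1)) z2 hRR (z1 :: s1 q.1)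
      (fun ω2 => (z2 :: s2 q.2) ++ por hG H z2 ω2.1) lenB d2
    have b4' := strY hG H (RelIso.refl _) (en z1 (s1 q.1)) z2 hRR
      (fun ω1 => por hG H (en z1 (s1 q.1)) ω1.1) (z2 :: s2 q.2)
      (fun ω1 => length_por hG H _ ω1.1) d1
    have b5' : Pr (fun ω : OO hG H S × OO hG H S =>
        M * m < hit hG H S z1 (por hG H (en z1 (s1 q.1)) ω.1.1) +
          hit hG H S z1 (((z2 :: s2 q.2) ++ por hG H z2 ω.2.1).map (g q.1 ω))) ≤ 1 / M := by
      refine Pr_markov (fun ω => add_nonneg (hit_nonneg hG H _ _ _) (hit_nonneg hG H _ _ _))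
        hm0 hM ?_
      rw [Ex_add]
      have i1 : Ex (fun ω : OO hG H S × OO hG H S =>
          hit hG H S z1 (por hG H (en z1 (s1 q.1)) ω.1.1)) ≤ δ := by
        have h := Ex_fst (Ω' := OO hG H S) (fun ω1 : OO hG H S =>
          hit hG H S z1 (por hG H (en z1 (s1 q.1)) ω1.1))
        rw [h]
        have h' := Ex_fst (Ω' := H.Θ) (fun ω1 : PO hG H S =>
          hit hG H S z1 (por hG H (en z1 (s1 q.1)) ω1))
        rw [h', ← QQ_eq, QQ_comm]
        exact C1.qq
      have i2 := expX hG H (RelIso.refl _) (en z1 (s1 q.1)) z2 z1 hRR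
        (fun ω2 => (z2 :: s2 q.2) ++ por hG H z2 ω2.1) lenB d2
      push_cast at i2
      have : Ex (fun ω : OO hG H S × OO hG H S =>
          hit hG H S z1 (((z2 :: s2 q.2) ++ por hG H z2 ω.2.1).map (g q.1 ω))) ≤
          S * ((L + 1 + S) * β) := i2
      rw [hm]
      linarith
    have b6' : Pr (fun ω : OO hG H S × OO hG H S =>
        M * m < hit hG H S (en z2 (s2 q.2)) (por hG H z2 ω.2.1) +
          hit hG H S (g q.1 ω (en z2 (s2 q.2))) (z1 :: s1 q.1) +
          hit hG H S (g q.1 ω (en z2 (s2 q.2))) (por hG H (en z1 (s1 q.1)) ω.1.1)) ≤ 1 / M := by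
      refine Pr_markov (fun ω => add_nonneg (add_nonneg (hit_nonneg hG H _ _ _)
        (hit_nonneg hG H _ _ _)) (hit_nonneg hG H _ _ _)) hm0 hM ?_
      rw [Ex_add, Ex_add]
      have i1 : Ex (fun ω : OO hG H S × OO hG H S =>
          hit hG H S (en z2 (s2 q.2)) (por hG H z2 ω.2.1)) ≤ δ := by
        have h := Ex_snd (Ω := OO hG H S) (fun ω1 : OO hG H S =>
          hit hG H S (en z2 (s2 q.2)) (por hG H z2 ω1.1))
        rw [h]
        have h' := Ex_fst (Ω' := H.Θ) (fun ω1 : PO hG H S =>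
          hit hG H S (en z2 (s2 q.2)) (por hG H z2 ω1))
        rw [h', ← QQ_eq]
        exact C2.qq
      have i2 : Ex (fun ω : OO hG H S × OO hG H S =>
          hit hG H S (g q.1 ω (en z2 (s2 q.2))) (z1 :: s1 q.1)) ≤ (L + 1) * (S * β) := by
        refine (farX hG H (RelIso.refl _) (en z1 (s1 q.1)) z2 (en z2 (s2 q.2)) hRR dz
          (z1 :: s1 q.1)).trans ?_
        refine mul_le_mul_of_nonneg_right ?_ (by positivity)
        simp only [List.length_cons]
        push_cast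
        have : ((s1 q.1).length : ℝ) ≤ L := by exact_mod_cast len1
        linarith
      have i3 : Ex (fun ω : OO hG H S × OO hG H S =>
          hit hG H S (g q.1 ω (en z2 (s2 q.2))) (por hG H (en z1 (s1 q.1)) ω.1.1)) ≤
            S * (S * β) :=
        farY hG H (RelIso.refl _) (en z1 (s1 q.1)) z2 (en z2 (s2 q.2)) hRR
          (fun ω1 => por hG H (en z1 (s1 q.1)) ω1.1) (fun ω1 => length_por hG H _ ω1.1) d1
      rw [hm]
      nlinarith
    have b7' : Pr (fun ω : OO hG H S × OO hG H S =>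
        M * m < QQ hG H S z1 (g q.1 ω (en z2 (s2 q.2)))) ≤ 1 / M := by
      refine Pr_markov (fun ω => QQ_nonneg hG H _ _ _) hm0 hM ?_
      refine (QQX hG H (RelIso.refl _) (en z1 (s1 q.1)) z2 z1 (en z2 (s2 q.2)) hRR dz).trans ?_
      rw [hm]
      have : (0 : ℝ) ≤ (S : ℝ) * (L + 1) * β := by positivity
      nlinarith
    have b3'' : Pr (fun ω : OO hG H S × OO hG H S =>
        ∃ x ∈ z1 :: s1 q.1, ∃ y ∈ (z2 :: s2 q.2) ++ por hG H z2 ω.2.1, x = g q.1 ω y) ≤
        (L + 1) * ((L + 1 + S) * β) := by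
      refine b3'.trans ?_
      push_cast
      refine mul_le_mul_of_nonneg_right ?_ (by positivity)
      simp only [List.length_cons]
      push_cast
      have : ((s1 q.1).length : ℝ) ≤ L := by exact_mod_cast len1
      linarith
    have b4'' : Pr (fun ω : OO hG H S × OO hG H S =>
        ∃ x ∈ por hG H (en z1 (s1 q.1)) ω.1.1, ∃ y ∈ z2 :: s2 q.2, x = g q.1 ω y) ≤
        S * ((L + 1) * β) := by
      refine b4'.trans ?_
      refine mul_le_mul_of_nonneg_left ?_ (Nat.cast_nonneg _)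
      refine mul_le_mul_of_nonneg_right ?_ hβ0.le
      simp only [List.length_cons]
      push_cast
      have : ((s2 q.2).length : ℝ) ≤ L := by exact_mod_cast len2
      linarith
    have tot : Pr (Bad q) ≤ δ + (δ + ((L + 1) * ((L + 1 + S) * β) + (S * ((L + 1) * β) +
        (1 / M + (1 / M + 1 / M))))) := by
      refine (Pr_or _ _).trans (add_le_add b1' ?_)
      refine (Pr_or _ _).trans (add_le_add b2' ?_)
      refine (Pr_or _ _).trans (add_le_add b3'' ?_)
      refine (Pr_or _ _).trans (add_le_add b4'' ?_)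
      refine (Pr_or _ _).trans (add_le_add b5' ?_)
      exact (Pr_or _ _).trans (add_le_add b6' b7')
    refine tot.trans (le_trans (le_of_eq ?_) hnum)
    ring
  -- choose the outcome
  let Suc : (V × List V) × (V × List V) → OO hG H S × OO hG H S → Prop := fun q ω =>
    Conf (en z1 (s1 q.1)) ω ∧ ¬ Bad q ω
  have hSuc : ∀ q ∈ F1 ×ˢ F2, p / 2 ≤ Pr (Suc q) := by
    intro q hq
    have h3 := hConf (s1 q.1) (Q1 q.1 (Finset.mem_product.1 hq).1)
    have h4 := hBad q hq
    have h5 : Pr (Conf (en z1 (s1 q.1))) ≤ Pr (Suc q) + Pr (Bad q) := by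
      refine le_trans (Pr_mono fun ω hω => ?_) (Pr_or _ _)
      by_cases hb : Bad q ω
      · exact Or.inr hb
      · exact Or.inl ⟨hω, hb⟩
    linarith
  obtain ⟨ω, hω⟩ := exists_good (F1 ×ˢ F2) (fun q => t ^ q.1.2.length * t ^ q.2.2.length)
    (fun q _ => by positivity) Suc (p / 2) hSuc
  -- the merged data
  have key : ∀ q ∈ (F1 ×ˢ F2).filter (fun q => Suc q ω), ∃ π : List V,
      π.length ≤ 2 * A + 2 * S ∧
      en (en z1 (a1 q.1 ++ q.1.2)) π = g q.1 ω (en z2 (a2 q.2)) ∧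
      Blk hG H S δ' A (2 * L + 2 * S) z1 (a1 q.1) (q.1.2 ++ (π ++ q.2.2.map (g q.1 ω)))
        ((b2 q.2).map (g q.1 ω)) ∧
      MP hG H z1 z2 P1 P2 Conf ω
        (a1 q.1 ++ ((q.1.2 ++ (π ++ q.2.2.map (g q.1 ω))) ++ (b2 q.2).map (g q.1 ω))) := by
    intro q hq
    obtain ⟨hq0, hq3⟩ := Finset.mem_filter.1 hq
    obtain ⟨hq1, hq2⟩ := Finset.mem_product.1 hq0
    obtain ⟨hc, hb⟩ := hq3
    simp only [Bad, not_or] at hb
    obtain ⟨E1, E2, E3, E4, E5, E6, E7⟩ := hb
    push Not at E1 E2 E5 E6 E7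
    obtain ⟨π, p1, p2, p3, p4, p5⟩ := merge_one hG H hSR (B1 q.1 hq1) (B2 q.2 hq2) ω (g q.1 ω) rfl
      E1 E2 E3 E4 E5 E6 E7 hδ.le
    refine ⟨π, p1, p2, ?_, s1 q.1, s2 q.2, Q1 q.1 hq1, Q2 q.2 hq2, hc, p4, p5⟩
    exact ⟨p3.sa, p3.hs.trans hδ', p3.he.trans hδ', p3.qq.trans hδ', p3.la, p3.lb, p3.ll⟩
  choose! π π1 π2 π3 π4 using key
  let Φ : (V × List V) × (V × List V) → V × List V := fun q =>
    (q.1.1, q.1.2 ++ (π q ++ q.2.2.map (g q.1 ω)))
  set T := (F1 ×ˢ F2).filter (fun q => Suc q ω) with hT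
  refine ⟨ω, T.image Φ, ?_, ?_⟩
  · intro f hf
    obtain ⟨q, hq, rfl⟩ := Finset.mem_image.1 hf
    have hq1 : q.1 ∈ F1 := (Finset.mem_product.1 (Finset.mem_filter.1 hq).1).1
    exact ⟨a1 q.1, (b2 q.2).map (g q.1 ω), e1 q.1 hq1, π3 q hq, π4 q hq⟩
  · have hwt : wt t F1 * wt t F2 = ∑ q ∈ F1 ×ˢ F2, t ^ q.1.2.length * t ^ q.2.2.length := by
      rw [wt, wt, Finset.sum_mul_sum, Finset.sum_product]
    have hlenL : ∀ q ∈ T, q.1.2.length < 2 * L + 2 * S + 1 ∧ q.2.2.length < 2 * L + 2 * S + 1 := by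
      intro q hq
      obtain ⟨hq1, hq2⟩ := Finset.mem_product.1 (Finset.mem_filter.1 hq).1
      have l1 := (B1 q.1 hq1).ll
      have l2 := (B2 q.2 hq2).ll
      simp only [List.length_append] at l1 l2
      omega
    have hfib := sum_image_fiber t ht.le T Φ (T.image Φ)
      (fun i hi => Finset.mem_image_of_mem _ hi) (2 * L + 2 * S + 1)
      (fun q => (q.1.2.length, q.2.2.length)) hlenL (by
        rintro ⟨⟨y1, c1⟩, ⟨y2, c2⟩⟩ hq ⟨⟨y1', c1'⟩, ⟨y2', c2'⟩⟩ hq' hΦ hκ
        simp only [Φ, Prod.mk.injEq] at hΦ hκ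
        obtain ⟨hy, hC⟩ := hΦ
        obtain ⟨hl1, hl2⟩ := hκ
        obtain ⟨hc1, hrest⟩ := List.append_inj hC hl1
        subst hy
        subst hc1
        obtain ⟨hπ, hc2⟩ := List.append_inj' hrest (by simpa using hl2)
        have hc2' : c2 = c2' := (List.map_injective_iff.2 (g (y1, c1) ω).injective) hc2
        subst hc2'
        have hq1 := (Finset.mem_product.1 (Finset.mem_filter.1 hq).1)
        have hq1' := (Finset.mem_product.1 (Finset.mem_filter.1 hq').1)
        have f1 := π2 _ hq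
        have f2 := π2 _ hq'
        simp only at f1 f2
        rw [← hπ, f1] at f2
        have f3 := (g (y1, c1) ω).injective f2
        rw [e2 _ hq1.2, e2 _ hq1'.2] at f3
        simp only at f3
        rw [f3])
    have hsum : (∑ q ∈ T, t ^ q.1.2.length * t ^ q.2.2.length) * t ^ (2 * A + 2 * S) ≤
        ∑ q ∈ T, t ^ (Φ q).2.length := by
      rw [Finset.sum_mul]
      refine Finset.sum_le_sum fun q hq => ?_
      rw [← pow_add, ← pow_add]
      refine pow_le_pow_of_le_one ht.le ht1 ?_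
      simp only [Φ, List.length_append, List.length_map]
      have := π1 q hq
      omega
    rw [hwt]
    calc p / 2 * (∑ q ∈ F1 ×ˢ F2, t ^ q.1.2.length * t ^ q.2.2.length) * t ^ (2 * A + 2 * S)
        ≤ (∑ q ∈ T, t ^ q.1.2.length * t ^ q.2.2.length) * t ^ (2 * A + 2 * S) :=
          mul_le_mul_of_nonneg_right hω (by positivity)
      _ ≤ ∑ q ∈ T, t ^ (Φ q).2.length := hsum
      _ ≤ _ := by
        refine hfib.trans (le_of_eq ?_)
        push_cast
        ring

end Pool.H98.C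

end S_H98_C_Merge

section S_H98_C_Raise

set_option autoImplicit false

/-! Raising the scale at which the ends of the blocks are exposed. -/

namespace Pool.H98.C

open Finset Pool.Agent.H61.SW

variable {V : Type} {G : SimpleGraph V} {o : V} {R : ℕ} (hG : TG G) (H : Homog G o R)

/-- property of the lists of the raised family -/
def RP {S : ℕ} (z : V) (P : List V → Prop) (ω : PO hG H S × PO hG H S) (s' : List V) : Prop :=
  ∃ s, P s ∧ en (en z (por hG H z ω.1)) s' = en (en z s) (por hG H (en z s) ω.2) ∧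
    ∀ x ∈ s', x ∈ z :: s ∨ x ∈ por hG H z ω.1 ∨ x ∈ por hG H (en z s) ω.2

theorem raise {S S' A L : ℕ} {δ δ' t M : ℝ} (ht : 0 < t) (hM : 0 < M)
    (hS' : 1 ≤ S') (hR' : S' ≤ R)
    (z : V) (P : List V → Prop) (F : Finset (V × List V))
    (hF : Fam hG H S δ A L z P F)
    (hnum : 3 * δ + 3 / M ≤ 1 / 2)
    (hδ' : M * (S' * (L + 1 + S + S') * (1 / bb hG o S)) ≤ δ') :
    ∃ (ω : PO hG H S × PO hG H S) (F' : Finset (V × List V)),
      Fam hG H S' δ' (A + S) (L + 2 * S) (en z (por hG H z ω.1)) (RP hG H z P ω) F' ∧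
      wt t F ≤ 2 * wt t F' := by
  classical
  have hbb := bb_pos hG (o := o) S
  set β : ℝ := 1 / bb hG o S with hβ
  have hβ0 : 0 < β := by positivity
  have hS'0 : (1 : ℝ) ≤ S' := by exact_mod_cast hS'
  set m : ℝ := S' * (L + 1 + S + S') * β with hm
  have hm0 : 0 < m := by positivity
  choose! a b e B Q using hF
  let s : V × List V → List V := fun q => a q ++ (q.2 ++ b q)
  let Bad : V × List V → PO hG H S × PO hG H S → Prop := fun q ω =>
    (∃ v ∈ por hG H z ω.1, v ∈ en z (a q) :: (q.2 ++ b q)) ∨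
    (∃ v ∈ por hG H (en z (s q)) ω.2, v ∈ z :: (a q ++ q.2)) ∨
    (∃ v ∈ por hG H z ω.1, v ∈ por hG H (en z (s q)) ω.2) ∨
    (M * m < hit hG H S' (en z (por hG H z ω.1))
      ((en z (a q) :: (q.2 ++ b q)) ++ por hG H (en z (s q)) ω.2)) ∨
    (M * m < hit hG H S' (en (en z (s q)) (por hG H (en z (s q)) ω.2))
      ((z :: (a q ++ q.2)) ++ por hG H z ω.1)) ∨
    (M * m < QQ hG H S' (en z (por hG H z ω.1)) (en (en z (s q)) (por hG H (en z (s q)) ω.2)))
  have hBad : ∀ q ∈ F, Pr (Bad q) ≤ 1 / 2 := by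
    intro q hq
    have C := B q hq
    have len : (s q).length ≤ L := C.ll
    have hlen' : (a q).length + (q.2.length + (b q).length) ≤ L := by
      have := C.ll
      simpa using this
    have b1 : Pr (fun ω : PO hG H S × PO hG H S =>
        ∃ v ∈ por hG H z ω.1, v ∈ en z (a q) :: (q.2 ++ b q)) ≤ δ := by
      rw [Pr_fst (Ω' := PO hG H S) (fun ω1 : PO hG H S =>
        ∃ v ∈ por hG H z ω1, v ∈ en z (a q) :: (q.2 ++ b q))]
      exact C.hs
    have b2 : Pr (fun ω : PO hG H S × PO hG H S =>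
        ∃ v ∈ por hG H (en z (s q)) ω.2, v ∈ z :: (a q ++ q.2)) ≤ δ := by
      rw [Pr_snd (Ω := PO hG H S) (fun ω1 : PO hG H S =>
        ∃ v ∈ por hG H (en z (s q)) ω1, v ∈ z :: (a q ++ q.2))]
      exact C.he
    have b3 : Pr (fun ω : PO hG H S × PO hG H S =>
        ∃ v ∈ por hG H z ω.1, v ∈ por hG H (en z (s q)) ω.2) ≤ δ := C.qq
    have b4 : Pr (fun ω : PO hG H S × PO hG H S =>
        M * m < hit hG H S' (en z (por hG H z ω.1))
          ((en z (a q) :: (q.2 ++ b q)) ++ por hG H (en z (s q)) ω.2)) ≤ 1 / M := by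
      refine Pr_markov (fun ω => hit_nonneg hG H _ _ _) hm0 hM ?_
      rw [Ex_prod']
      refine Ex_le_of_le hm0.le fun ω2 => ?_
      have h0 : Ex (fun ω1 : PO hG H S => hit hG H S' (en z (por hG H z ω1))
          ((en z (a q) :: (q.2 ++ b q)) ++ por hG H (en z (s q)) ω2)) ≤ _ :=
        hit_spread hG H hβ0.le (fun ω1 : PO hG H S => en z (por hG H z ω1))
          (spr_por hG H z) hR' ((en z (a q) :: (q.2 ++ b q)) ++ por hG H (en z (s q)) ω2)
      refine h0.trans ?_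
      rw [hm]
      refine mul_le_mul_of_nonneg_right ?_ hβ0.le
      refine mul_le_mul_of_nonneg_left ?_ (by linarith)
      have h1 := length_por hG H (en z (s q)) ω2
      have h2 : ((en z (a q) :: (q.2 ++ b q)) ++ por hG H (en z (s q)) ω2).length ≤
          L + 1 + S + S' := by
        simp only [List.length_append, List.length_cons]
        omega
      exact_mod_cast h2
    have b5 : Pr (fun ω : PO hG H S × PO hG H S =>
        M * m < hit hG H S' (en (en z (s q)) (por hG H (en z (s q)) ω.2))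
          ((z :: (a q ++ q.2)) ++ por hG H z ω.1)) ≤ 1 / M := by
      refine Pr_markov (fun ω => hit_nonneg hG H _ _ _) hm0 hM ?_
      rw [Ex_prod]
      refine Ex_le_of_le hm0.le fun ω1 => ?_
      have h0 : Ex (fun ω2 : PO hG H S => hit hG H S' (en (en z (s q)) (por hG H (en z (s q)) ω2))
          ((z :: (a q ++ q.2)) ++ por hG H z ω1)) ≤ _ :=
        hit_spread hG H hβ0.le (fun ω2 : PO hG H S => en (en z (s q)) (por hG H (en z (s q)) ω2))
          (spr_por hG H _) hR' ((z :: (a q ++ q.2)) ++ por hG H z ω1)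
      refine h0.trans ?_
      rw [hm]
      refine mul_le_mul_of_nonneg_right ?_ hβ0.le
      refine mul_le_mul_of_nonneg_left ?_ (by linarith)
      have h1 := length_por hG H z ω1
      have h2 : ((z :: (a q ++ q.2)) ++ por hG H z ω1).length ≤ L + 1 + S + S' := by
        simp only [List.length_append, List.length_cons]
        omega
      exact_mod_cast h2
    have b6 : Pr (fun ω : PO hG H S × PO hG H S =>
        M * m < QQ hG H S' (en z (por hG H z ω.1))
          (en (en z (s q)) (por hG H (en z (s q)) ω.2))) ≤ 1 / M := by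
      refine Pr_markov (fun ω => QQ_nonneg hG H _ _ _) hm0 hM ?_
      rw [Ex_prod']
      refine Ex_le_of_le hm0.le fun ω2 => ?_
      set q' : V := en (en z (s q)) (por hG H (en z (s q)) ω2) with hq'
      have h1 : (fun ω1 : PO hG H S => QQ hG H S' (en z (por hG H z ω1)) q') =
          fun ω1 : PO hG H S =>
          Ex fun ω3 : PO hG H S' => hit hG H S' (en z (por hG H z ω1)) (por hG H q' ω3) := by
        ext ω1
        rw [QQ_comm, QQ_eq]
      show Ex (fun ω1 : PO hG H S => QQ hG H S' (en z (por hG H z ω1)) q') ≤ m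
      rw [h1, Ex_comm]
      refine Ex_le_of_le hm0.le fun ω3 => ?_
      have h0 : Ex (fun ω1 : PO hG H S => hit hG H S' (en z (por hG H z ω1)) (por hG H q' ω3)) ≤ _ :=
        hit_spread hG H hβ0.le (fun ω1 : PO hG H S => en z (por hG H z ω1))
          (spr_por hG H z) hR' (por hG H q' ω3)
      refine h0.trans ?_
      rw [hm]
      refine mul_le_mul_of_nonneg_right ?_ hβ0.le
      refine mul_le_mul_of_nonneg_left ?_ (by linarith)
      have h3 : ((por hG H q' ω3).length : ℝ) ≤ S' := by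
        exact_mod_cast length_por hG H q' ω3
      have h4 : (0 : ℝ) ≤ L + 1 + S := by positivity
      linarith
    have tot : Pr (Bad q) ≤ δ + (δ + (δ + (1 / M + (1 / M + 1 / M)))) := by
      refine (Pr_or _ _).trans (add_le_add b1 ?_)
      refine (Pr_or _ _).trans (add_le_add b2 ?_)
      refine (Pr_or _ _).trans (add_le_add b3 ?_)
      refine (Pr_or _ _).trans (add_le_add b4 ?_)
      exact (Pr_or _ _).trans (add_le_add b5 b6)
    refine tot.trans (le_trans (le_of_eq ?_) hnum)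
    ring
  have hSuc : ∀ q ∈ F, (1 : ℝ) / 2 ≤ Pr (fun ω => ¬ Bad q ω) := by
    intro q hq
    rw [Pr_not]
    have := hBad q hq
    linarith
  obtain ⟨ω, hω⟩ := exists_good F (fun q => t ^ q.2.length) (fun q _ => by positivity)
    (fun q ω => ¬ Bad q ω) (1 / 2) hSuc
  refine ⟨ω, F.filter (fun q => ¬ Bad q ω), ?_, ?_⟩
  · intro q hq
    obtain ⟨hq1, hq2⟩ := Finset.mem_filter.1 hq
    have C := B q hq1
    simp only [Bad, not_or] at hq2
    obtain ⟨E1, E2, E3, E4, E5, E6⟩ := hq2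
    push Not at E1 E2 E3 E4 E5 E6
    obtain ⟨a', b', r1, r2, r3, r4, r5, r6, r7⟩ := raise_det C.sa (ch_por hG H z ω.1)
      (ch_por hG H (en z (s q)) ω.2) E1 E2 E3
    have la := C.la
    have lb := C.lb
    have ll := C.ll
    have l1 := length_por hG H z ω.1
    have l2 := length_por hG H (en z (s q)) ω.2
    simp only [List.length_append] at ll
    refine ⟨a', b', r1.trans (e q hq1), ⟨r4, ?_, ?_, ?_, by omega, by omega, ?_⟩, s q, Q q hq1, r5, ?_⟩
    · refine (hit_mono hG H ?_).trans (E4.trans hδ')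
      intro x hx
      rw [List.mem_append]
      rcases List.mem_cons.1 hx with h | h
      · left; rw [h, r1]; simp
      · rcases List.mem_append.1 h with h | h
        · left; simp [h]
        · rcases r7 x h with h | h
          · left; simp [h]
          · exact Or.inr h
    · rw [r5]
      refine (hit_mono hG H ?_).trans (E5.trans hδ')
      intro x hx
      rw [List.mem_append]
      have hx' : x ∈ en z (por hG H z ω.1) :: a' ∨ x ∈ q.2 := by
        rcases List.mem_cons.1 hx with h | h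
        · left; simp [h]
        · rcases List.mem_append.1 h with h | h
          · left; simp [h]
          · exact Or.inr h
      rcases hx' with h | h
      · rcases r6 x h with h | h
        · left
          rcases List.mem_cons.1 h with h | h <;> simp [h]
        · exact Or.inr h
      · left; simp [h]
    · rw [r5]
      exact E6.trans hδ'
    · simp only [List.length_append]
      omega
    · intro x hx
      rcases List.mem_append.1 hx with h | h
      · rcases r6 x (List.mem_cons_of_mem _ h) with h | h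
        · left
          rcases List.mem_cons.1 h with h | h
          · simp [h]
          · simp [s, h]
        · exact Or.inr (Or.inl h)
      · rcases List.mem_append.1 h with h | h
        · left; simp [s, h]
        · rcases r7 x h with h | h
          · left; simp [s, h]
          · exact Or.inr (Or.inr h)
  · have h1 : wt t F = ∑ q ∈ F, t ^ q.2.length := rfl
    rw [h1]
    have h2 : wt t (F.filter (fun q => ¬ Bad q ω)) =
        ∑ i ∈ F.filter (fun q => ¬ Bad q ω), t ^ i.2.length := rfl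
    rw [h2]
    linarith

end Pool.H98.C

end S_H98_C_Raise

section S_H98_C_Init

set_option autoImplicit false

/-! The initial family of blocks. -/

namespace Pool.H98.C

open Finset Pool.Agent.H61.SW

variable {V : Type} {G : SimpleGraph V} {o : V} {R : ℕ} (hG : TG G) (H : Homog G o R)

lemma Blk.map {S A L : ℕ} {δ : ℝ} {z : V} {a c b : List V} (hSR : S ≤ R)
    (B : Blk hG H S δ A L z a c b) (g : G ≃g G) :
    Blk hG H S δ A L (g z) (a.map g) (c.map g) (b.map g) := by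
  have e1 : a.map g ++ (c.map g ++ b.map g) = (a ++ (c ++ b)).map g := by simp
  refine ⟨?_, ?_, ?_, ?_, by simpa using B.la, by simpa using B.lb, ?_⟩
  · rw [e1]; exact (sa_map g _ _).2 B.sa
  · have : en (g z) (a.map g) :: (c.map g ++ b.map g) = (en z a :: (c ++ b)).map g := by
      rw [en_map]; simp
    rw [this, hit_iso hG H hSR]; exact B.hs
  · have : g z :: (a.map g ++ c.map g) = (z :: (a ++ c)).map g := by simp
    rw [e1, en_map, this, hit_iso hG H hSR]; exact B.he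
  · rw [e1, en_map, QQ_iso hG H hSR]; exact B.qq
  · rw [e1, List.length_map]; exact B.ll

/-- cores of blocks with root `z` starting at `y` -/
def GR (S : ℕ) (δ : ℝ) (A L : ℕ) (z y : V) (c : List V) : Prop :=
  ∃ a b, en z a = y ∧ Blk hG H S δ A L z a c b

lemma GR_ch {S A L : ℕ} {δ : ℝ} {z y : V} {c : List V} (h : GR hG H S δ A L z y c) :
    sa G y c ∧ c.length ≤ L := by
  obtain ⟨a, b, rfl, B⟩ := h
  refine ⟨sa_append_left (sa_append_right B.sa), ?_⟩
  have := B.ll
  simp only [List.length_append] at this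
  omega

/-- all cores with root `o` -/
noncomputable def F0 (S : ℕ) (δ : ℝ) (A L : ℕ) : Finset (V × List V) := by
  classical
  exact (bl hG o A).biUnion fun y => (fm hG (GR hG H S δ A L o) y L).image fun c => (y, c)

lemma mem_F0 {S A L : ℕ} {δ : ℝ} {q : V × List V} :
    q ∈ F0 hG H S δ A L ↔ GR hG H S δ A L o q.1 q.2 := by
  classical
  unfold F0
  simp only [Finset.mem_biUnion, Finset.mem_image, mem_fm]
  constructor
  · rintro ⟨y, -, c, ⟨-, -, h⟩, rfl⟩
    exact h
  · intro h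
    refine ⟨q.1, ?_, q.2, ⟨(GR_ch hG H h).2, (GR_ch hG H h).1.1, h⟩, rfl⟩
    obtain ⟨a, b, h1, B⟩ := h
    rw [mem_bl, ← h1]
    exact (dist_en_le o a ((ch_append _ _ _).1 B.sa.1).1).trans B.la

lemma wt_F0 (S : ℕ) (δ : ℝ) (A L : ℕ) (t : ℝ) :
    wt t (F0 hG H S δ A L) = ∑ y ∈ bl hG o A, lw t (fm hG (GR hG H S δ A L o) y L) := by
  classical
  unfold wt F0
  rw [Finset.sum_biUnion]
  · refine Finset.sum_congr rfl fun y _ => ?_
    rw [Finset.sum_image]
    · rfl
    · intro c _ c' _ h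
      exact (Prod.mk.inj h).2
  · intro y _ y' _ hne
    rw [Function.onFun, Finset.disjoint_left]
    rintro q hq hq'
    obtain ⟨c, -, rfl⟩ := Finset.mem_image.1 hq
    obtain ⟨c', -, h⟩ := Finset.mem_image.1 hq'
    exact hne (Prod.mk.inj h).1.symm

/-- the weight of all good cores is at most the number of roots times the weight of `F0` -/
lemma lw_GC_le {S A L : ℕ} {δ : ℝ} (hSR : S ≤ R) {t : ℝ} (ht : 0 ≤ t) (v : V) :
    lw t (fm hG (GC hG H S δ A L) v L) ≤ bb hG o A * wt t (F0 hG H S δ A L) := by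
  classical
  have h1 : fm hG (GC hG H S δ A L) v L ⊆
      (bl hG v A).biUnion fun z => fm hG (GR hG H S δ A L z) v L := by
    intro c hc
    rw [mem_fm] at hc
    obtain ⟨h1, h2, z, a, b, h3, B⟩ := hc
    rw [Finset.mem_biUnion]
    refine ⟨z, ?_, ?_⟩
    · rw [mem_bl, SimpleGraph.dist_comm, ← h3]
      exact (dist_en_le z a ((ch_append _ _ _).1 B.sa.1).1).trans B.la
    · rw [mem_fm]
      exact ⟨h1, h2, a, b, h3, B⟩
  refine (lw_mono ht h1).trans ((lw_biUnion ht _ _).trans ?_)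
  have h2 : ∀ z ∈ bl hG v A, lw t (fm hG (GR hG H S δ A L z) v L) ≤ wt t (F0 hG H S δ A L) := by
    intro z _
    set g := tau hG z o with hg
    have hgz : g z = o := tau_apply hG z o
    unfold lw wt
    have : ∑ s ∈ fm hG (GR hG H S δ A L z) v L, t ^ s.length =
        ∑ q ∈ (fm hG (GR hG H S δ A L z) v L).image (fun c => (g v, c.map g)), t ^ q.2.length := by
      rw [Finset.sum_image]
      · simp
      · intro c _ c' _ h
        exact (List.map_injective_iff.2 g.injective) (Prod.mk.inj h).2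
    rw [this]
    refine Finset.sum_le_sum_of_subset_of_nonneg ?_ fun _ _ _ => pow_nonneg ht _
    intro q hq
    obtain ⟨c, hc, rfl⟩ := Finset.mem_image.1 hq
    rw [mem_fm] at hc
    obtain ⟨-, -, a, b, h3, B⟩ := hc
    rw [mem_F0]
    refine ⟨a.map g, b.map g, ?_, ?_⟩
    · rw [← hgz, en_map, h3]
    · have := B.map hG H hSR g
      rwa [hgz] at this
  refine (Finset.sum_le_sum h2).trans ?_
  rw [Finset.sum_const, nsmul_eq_mul, card_bl hG v o]
  exact le_rfl

theorem init {m r S mlow κ Bl : ℕ} {t : ℝ} (ht : 0 < t) (hκ : 0 < κ)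
    (hS : S ≤ R) (hr : r ≤ R)
    (hb : 4 * ((m : ℝ) + 1) * S ≤ 1 / 128 * bb hG o r)
    (hBl : 4 * ((r : ℝ) * (r + 1) + (r * S + S * (r + 1) + S * S) / (1 / 128)) ≤ Bl)
    (hml : 4 * (r + 1) * (κ + 1 + Bl) ≤ mlow) (hmm : mlow ≤ m + 1) :
    Fam hG H S (1 / 64) r (m + 2 * r) o (fun _ => True) (F0 hG H S (1 / 64) r (m + 2 * r)) ∧
    (cnt (sa G) o m : ℝ) * t ^ m ≤ ((m / κ : ℕ) + 1) *
      (∑ k ∈ Finset.range (mlow + 1), (cnt (sa G) o k : ℝ) * t ^ k) ^ 2 *
      (max 1 (bb hG o r * wt t (F0 hG H S (1 / 64) r (m + 2 * r)))) ^ (m / κ) := by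
  classical
  refine ⟨fun q hq => ?_, ?_⟩
  · obtain ⟨a, b, h1, h2⟩ := (mem_F0 hG H).1 hq
    exact ⟨a, b, h1, h2, trivial⟩
  have hP : ∀ v c, GC hG H S (1 / 64) r (m + 2 * r) v c → sa G v c ∧ c.length ≤ m + 2 * r := by
    rintro v c ⟨z, a, b, h1, h2⟩
    exact GR_ch hG H ⟨a, b, h1, h2⟩
  refine count_peel hG o t ht (GC hG H S (1 / 64) r (m + 2 * r)) (m + 2 * r) hP _
    (le_max_left _ _) ?_ m mlow (m / κ) ?_
  · intro v
    rw [← lw_fm hG t _ (fun v c h => (hP v c h).1.1)]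
    exact (lw_GC_le hG H hS ht.le v).trans (le_max_right _ _)
  · intro s hs hlen
    have h2 : (2 : ℝ) * (1 / 128) = 1 / 64 := by norm_num
    have := peel hG H S r (1 / 128) (by norm_num) m mlow κ hκ ?_ o s hs hlen.le (by omega)
    · rw [h2] at this
      exact this
    · intro M hM1 hM2
      have hM2' : (M.card : ℝ) ≤ m + 1 := by exact_mod_cast hM2
      have hM1' : (mlow : ℝ) ≤ M.card := by exact_mod_cast hM1
      obtain ⟨E, hE1, hE2, hE3⟩ := expo hG H S r hS hr (1 / 128) (by norm_num) M (by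
        refine le_trans ?_ hb
        have : (0 : ℝ) ≤ S := Nat.cast_nonneg S
        nlinarith)
      have hml' : (4 : ℝ) * (r + 1) * (κ + 1 + Bl) ≤ mlow := by exact_mod_cast hml
      have hEc : (2 : ℝ) * (κ + 1 + Bl) ≤ E.card := by
        have h3 : (4 : ℝ) * (r + 1) * (κ + 1 + Bl) ≤ 2 * (r + 1) * E.card := by linarith
        have h4 : (0 : ℝ) < 2 * ((r : ℝ) + 1) := by positivity
        have h5 : 2 * ((r : ℝ) + 1) * (2 * (κ + 1 + Bl)) ≤ 2 * (r + 1) * E.card := by linarith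
        exact le_of_mul_le_mul_left h5 h4
      have hEc' : 2 * (κ + 1 + Bl) ≤ E.card := by exact_mod_cast hEc
      refine ⟨E, hE1, Bl, by omega, hEc', fun y1 α1 hα => ?_⟩
      obtain ⟨B, hB1, hB2, hB3⟩ := hE3 y1 α1 hα
      refine ⟨B, hB1, ?_, hB3⟩
      have : (B.card : ℝ) ≤ Bl := hB2.trans hBl
      exact_mod_cast this

end Pool.H98.C

end S_H98_C_Init

section S_H98_C_Level

set_option autoImplicit false

/-! Levels: two merges, then raise the scale by a factor 2. -/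

namespace Pool.H98.C

open Finset Pool.Agent.H61.SW

variable {V : Type} {G : SimpleGraph V} {o : V} {R : ℕ} (hG : TG G) (H : Homog G o R)

lemma Fam.mono {S A A' L L' : ℕ} {δ δ' : ℝ} {z : V} {P P' : List V → Prop}
    {F : Finset (V × List V)} (h : Fam hG H S δ A L z P F) (hδ : δ ≤ δ') (hA : A ≤ A')
    (hL : L ≤ L') (hP : ∀ s, P s → P' s) : Fam hG H S δ' A' L' z P' F := by
  intro q hq
  obtain ⟨a, b, h1, B, h2⟩ := h q hq
  exact ⟨a, b, h1, ⟨B.sa, B.hs.trans hδ, B.he.trans hδ, B.qq.trans hδ, B.la.trans hA,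
    B.lb.trans hA, B.ll.trans hL⟩, hP _ h2⟩

lemma bb_mono {r r' : ℕ} (h : r ≤ r') : bb hG o r ≤ bb hG o r' := by
  unfold bb
  have : bl hG o r ⊆ bl hG o r' := fun x hx => by
    rw [mem_bl] at hx ⊢; omega
  exact_mod_cast Finset.card_le_card this

/-- logarithmic form of the merge inequality -/
lemma merge_log {Z1 Z2 Z' t p l x y lam : ℝ} {n : ℕ} (hp : 0 < p) (hl : 0 < l)
    (ht : t = Real.exp (-lam)) (h1 : Real.exp x ≤ Z1) (h2 : Real.exp y ≤ Z2)
    (h : p / 2 * (Z1 * Z2) * t ^ n ≤ l ^ 2 * Z') :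
    Real.exp (x + y + Real.log (p / 2) - n * lam - 2 * Real.log l) ≤ Z' := by
  have hp2 : 0 < p / 2 := by positivity
  have e1 : Real.exp (x + y + Real.log (p / 2) - n * lam - 2 * Real.log l) =
      (p / 2 * (Real.exp x * Real.exp y) * t ^ n) / l ^ 2 := by
    rw [Real.exp_sub, Real.exp_sub, Real.exp_add, Real.exp_add, Real.exp_log hp2, ht,
      ← Real.exp_nat_mul, mul_neg, Real.exp_neg, two_mul, Real.exp_add, Real.exp_log hl]
    field_simp
  rw [e1, div_le_iff₀ (by positivity)]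
  refine le_trans ?_ (h.trans (le_of_eq (mul_comm _ _)))
  have hx := Real.exp_pos x
  have hy := Real.exp_pos y
  have ht0 : 0 ≤ t ^ n := by rw [ht]; positivity
  refine mul_le_mul_of_nonneg_right ?_ ht0
  refine mul_le_mul_of_nonneg_left ?_ hp2.le
  exact mul_le_mul h1 h2 hy.le (hx.le.trans h1)

/-- numerical facts for one level: `S = 2^j N^13`, `Λ = 4^j N^25` -/
lemma num_level {c b : ℝ} {N j S Λ : ℕ} (hc : 0 < c) (hS : S = 2 ^ j * N ^ 13)
    (hΛ : Λ = 4 ^ j * N ^ 25) (hN : 40000 ≤ N) (hcN : 1000 ≤ c * N) (hb : c * (S : ℝ) ^ 5 ≤ b) :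
    (Λ : ℝ) * Λ * (1 / b) ≤ 1 / (1000 * N) ∧ (S : ℝ) * Λ * (1 / b) ≤ 1 / (1000 * N) := by
  have hN0 : (0 : ℝ) < N := by
    have : 0 < N := by omega
    exact_mod_cast this
  have hN1 : (1 : ℝ) ≤ N := by
    have : 1 ≤ N := by omega
    exact_mod_cast this
  have h2 : (1 : ℝ) ≤ 2 ^ j := one_le_pow₀ (by norm_num)
  have hS0 : (0 : ℝ) < S := by rw [hS]; push_cast; positivity
  have hb0 : 0 < c * (S : ℝ) ^ 5 := by positivity
  have hβ : 1 / b ≤ 1 / (c * (S : ℝ) ^ 5) := one_div_le_one_div_of_le hb0 hb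
  have e4 : (4 : ℝ) ^ j = 2 ^ j * 2 ^ j := by
    rw [← mul_pow]; norm_num
  have hSr : (S : ℝ) = 2 ^ j * N ^ 13 := by rw [hS]; push_cast; ring
  have hΛr : (Λ : ℝ) = 2 ^ j * 2 ^ j * N ^ 25 := by rw [hΛ]; push_cast; rw [e4]
  have key1 : (Λ : ℝ) * Λ * (1 / (c * (S : ℝ) ^ 5)) = 1 / (c * 2 ^ j * N ^ 15) := by
    rw [hSr, hΛr]
    field_simp
  have key2 : (S : ℝ) * Λ * (1 / (c * (S : ℝ) ^ 5)) = 1 / (c * (2 ^ j * 2 ^ j) * N ^ 27) := by
    rw [hSr, hΛr]
    field_simp
  have hNp : ∀ k : ℕ, 2 ≤ k → (N : ℝ) * N ≤ (N : ℝ) ^ k := by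
    intro k hk
    calc (N : ℝ) * N = (N : ℝ) ^ 2 := by ring
      _ ≤ (N : ℝ) ^ k := pow_le_pow_right₀ hN1 hk
  constructor
  · calc (Λ : ℝ) * Λ * (1 / b) ≤ (Λ : ℝ) * Λ * (1 / (c * (S : ℝ) ^ 5)) :=
          mul_le_mul_of_nonneg_left hβ (by positivity)
      _ = 1 / (c * 2 ^ j * N ^ 15) := key1
      _ ≤ 1 / (1000 * N) := by
        apply one_div_le_one_div_of_le (by positivity)
        have h3 := hNp 15 (by norm_num)
        calc 1000 * (N : ℝ) ≤ (c * N) * N := mul_le_mul_of_nonneg_right hcN hN0.le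
          _ = c * 1 * (N * N) := by ring
          _ ≤ c * 2 ^ j * N ^ 15 := by gcongr
  · calc (S : ℝ) * Λ * (1 / b) ≤ (S : ℝ) * Λ * (1 / (c * (S : ℝ) ^ 5)) :=
          mul_le_mul_of_nonneg_left hβ (by positivity)
      _ = 1 / (c * (2 ^ j * 2 ^ j) * N ^ 27) := key2
      _ ≤ 1 / (1000 * N) := by
        apply one_div_le_one_div_of_le (by positivity)
        have h3 := hNp 27 (by norm_num)
        have h4 : (1 : ℝ) ≤ 2 ^ j * 2 ^ j := one_le_mul_of_one_le_of_one_le h2 h2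
        calc 1000 * (N : ℝ) ≤ (c * N) * N := mul_le_mul_of_nonneg_right hcN hN0.le
          _ = c * 1 * (N * N) := by ring
          _ ≤ c * (2 ^ j * 2 ^ j) * N ^ 27 := by gcongr

/-- one level: two merges and a raise -/
theorem level_step {N j S L Λ : ℕ} {c t lam x : ℝ} (hc : 0 < c) (hlam : 0 < lam)
    (ht : t = Real.exp (-lam)) (hS : S = 2 ^ j * N ^ 13)
    (hΛ : Λ = 4 ^ j * N ^ 25) (hN : 40000 ≤ N) (hcN : 1000 ≤ c * N)
    (hb : c * (S : ℝ) ^ 5 ≤ bb hG o S) (hL : L + 4 * S ≤ Λ) (hR : 8 * Λ ≤ R)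
    (z : V) (F : Finset (V × List V))
    (hF : Fam hG H S (1 / N) S L z (fun _ => True) F) (hx : Real.exp x ≤ wt t F) :
    ∃ (z' : V) (F' : Finset (V × List V)),
      Fam hG H (2 * S) (1 / N) (2 * S) (4 * L + 8 * S) z' (fun _ => True) F' ∧
      Real.exp (4 * x - 12 * S * lam - 6 * Real.log (4 * Λ) - 4) ≤ wt t F' := by
  obtain ⟨n1, n2⟩ := num_level hc hS hΛ hN hcN hb
  set β : ℝ := 1 / bb hG o S with hβ
  have hβ0 : 0 < β := by have := bb_pos hG (o := o) S; positivity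
  have hN0 : (0 : ℝ) < N := by
    have : 0 < N := by omega
    exact_mod_cast this
  have hN4 : (40000 : ℝ) ≤ N := by exact_mod_cast hN
  have hNi : 1 / (N : ℝ) ≤ 1 / 40000 := one_div_le_one_div_of_le (by norm_num) hN4
  have hNi0 : 0 < 1 / (N : ℝ) := by positivity
  have hS1 : 1 ≤ S := by
    rw [hS]
    have h1 : 1 ≤ 2 ^ j := Nat.one_le_two_pow
    have h2 : 1 ≤ N ^ 13 := Nat.one_le_pow _ _ (by omega)
    exact Nat.one_le_iff_ne_zero.2 (by positivity)
  have hSr : (1 : ℝ) ≤ S := by exact_mod_cast hS1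
  have hΛr : (L : ℝ) + 4 * S ≤ Λ := by exact_mod_cast hL
  have hL0 : (0 : ℝ) ≤ L := Nat.cast_nonneg L
  have ht0 : 0 < t := by rw [ht]; exact Real.exp_pos _
  have ht1 : t ≤ 1 := by rw [ht]; exact Real.exp_le_one_iff.2 (by linarith)
  have n1' : 1 / (1000 * (N : ℝ)) = (1 / N) / 1000 := by field_simp
  rw [n1'] at n1 n2
  -- first merge
  obtain ⟨ω1, F1, hF1, hw1⟩ := merge (δ' := 33 * (1 / N)) (p := 1) (M := 16) hG H ht0 ht1 hNi0
    (by norm_num) (by omega) z z (fun _ => True) (fun _ => True) F F hF hF (fun _ _ => True)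
    (fun s _ => (Pr_true _ fun _ => trivial).ge) (by
      have h1 : (((L : ℝ) + 1) * (L + 1 + S) + S * (L + 1)) * β ≤ (Λ * Λ + Λ * Λ) * β := by
        refine mul_le_mul_of_nonneg_right ?_ hβ0.le
        have : (S : ℝ) ≤ Λ := by linarith
        gcongr <;> linarith
      have h2 : (Λ * Λ + Λ * Λ) * β = 2 * ((Λ : ℝ) * Λ * β) := by ring
      linarith) (by
      have h1 : (S : ℝ) * (L + 1 + S) * β ≤ S * Λ * β := by
        gcongr; linarith
      linarith)
  have hF1' : Fam hG H S (33 * (1 / N)) S (2 * L + 2 * S) z (fun _ => True) F1 :=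
    hF1.mono hG H le_rfl le_rfl le_rfl fun _ _ => trivial
  have hz1 := merge_log (by norm_num) (by positivity) ht hx hx hw1
  -- second merge
  obtain ⟨ω2, F2, hF2, hw2⟩ := merge (δ' := 600 * (1 / N)) (p := 1) (M := 16) hG H ht0 ht1
    (by positivity) (by norm_num) (by omega) z z (fun _ => True) (fun _ => True) F1 F1 hF1' hF1'
    (fun _ _ => True) (fun s _ => (Pr_true _ fun _ => trivial).ge) (by
      push_cast
      have h1 : (((2 * L + 2 * S : ℝ) + 1) * (2 * L + 2 * S + 1 + S) + S * (2 * L + 2 * S + 1)) * β ≤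
          ((2 * Λ) * (2 * Λ) + Λ * (2 * Λ)) * β := by
        refine mul_le_mul_of_nonneg_right ?_ hβ0.le
        have : (S : ℝ) ≤ Λ := by linarith
        gcongr <;> linarith
      have h2 : ((2 * Λ) * (2 * Λ) + Λ * (2 * Λ)) * β = 6 * ((Λ : ℝ) * Λ * β) := by ring
      linarith) (by
      push_cast
      have h1 : (S : ℝ) * (2 * L + 2 * S + 1 + S) * β ≤ S * (2 * Λ) * β := by
        gcongr; linarith
      have h2 : (S : ℝ) * (2 * Λ) * β = 2 * (S * Λ * β) := by ring
      linarith)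
  have hF2' : Fam hG H S (600 * (1 / N)) S (2 * (2 * L + 2 * S) + 2 * S) z (fun _ => True) F2 :=
    hF2.mono hG H le_rfl le_rfl le_rfl fun _ _ => trivial
  have hz2 := merge_log (by norm_num) (by positivity) ht hz1 hz1 hw2
  -- raise
  obtain ⟨ω3, F3, hF3, hw3⟩ := raise (S' := 2 * S) (δ' := 1 / N) (t := t) (M := 16) hG H ht0
    (by norm_num) (by omega) (by omega) z (fun _ => True) F2 hF2' (by linarith) (by
      push_cast
      have h1 : 16 * ((2 * S : ℝ) * (2 * (2 * L + 2 * S) + 2 * S + 1 + S + 2 * S) * β) ≤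
          16 * (2 * S * (4 * Λ) * β) := by
        gcongr; linarith
      have h2 : 16 * (2 * S * (4 * Λ) * β) = 128 * ((S : ℝ) * Λ * β) := by ring
      linarith)
  refine ⟨_, F3, hF3.mono hG H le_rfl (by omega) (by omega) fun _ _ => trivial, ?_⟩
  have hz3 : Real.exp (x + x + Real.log (1 / 2) - ((2 * S + 2 * S : ℕ) : ℝ) * lam -
      2 * Real.log (2 * L + 2 * S + 1) + (x + x + Real.log (1 / 2) - ((2 * S + 2 * S : ℕ) : ℝ) * lam -
      2 * Real.log (2 * L + 2 * S + 1)) + Real.log (1 / 2) - ((2 * S + 2 * S : ℕ) : ℝ) * lam -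
      2 * Real.log (2 * ((2 * L + 2 * S : ℕ) : ℝ) + 2 * S + 1) - Real.log 2) ≤ wt t F3 := by
    rw [Real.exp_sub, Real.exp_log (by norm_num), div_le_iff₀ (by norm_num)]
    linarith
  refine le_trans (Real.exp_le_exp.2 ?_) hz3
  have hlog2 : Real.log 2 ≤ 1 := by
    have := Real.log_le_sub_one_of_pos (show (0 : ℝ) < 2 by norm_num)
    linarith
  have hlh : Real.log (1 / 2) = - Real.log 2 := by
    rw [one_div, Real.log_inv]
  have l1 : Real.log (2 * L + 2 * S + 1) ≤ Real.log (4 * Λ) :=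
    Real.log_le_log (by positivity) (by linarith)
  have l2 : Real.log (2 * ((2 * L + 2 * S : ℕ) : ℝ) + 2 * S + 1) ≤ Real.log (4 * Λ) :=
    Real.log_le_log (by positivity) (by push_cast; linarith)
  rw [hlh]
  push_cast
  push_cast at l2
  nlinarith

end Pool.H98.C

end S_H98_C_Level

section S_H98_C_Levels

set_option autoImplicit false

/-! Iteration of the levels and the first level. -/

namespace Pool.H98.C

open Finset Pool.Agent.H61.SW

variable {V : Type} {G : SimpleGraph V} {o : V} {R : ℕ} (hG : TG G) (H : Homog G o R)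

lemma cost_le {N j : ℕ} {lam : ℝ} (hN : 40000 ≤ N) :
    12 * (2 ^ j * (N : ℝ) ^ 13) * lam + 6 * Real.log (4 * (4 ^ j * (N : ℝ) ^ 25)) + 4 ≤
      2 ^ j * ((12 * lam + 1) * (N : ℝ) ^ 13) := by
  have hN4 : (40000 : ℝ) ≤ N := by exact_mod_cast hN
  have hN0 : (0 : ℝ) < N := by linarith
  have hN1 : (1 : ℝ) ≤ N := by linarith
  have h2 : (1 : ℝ) ≤ 2 ^ j := one_le_pow₀ (by norm_num)
  have e1 : Real.log (4 * (4 ^ j * (N : ℝ) ^ 25)) = (j + 1) * Real.log 4 + 25 * Real.log N := by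
    rw [Real.log_mul (by norm_num) (by positivity), Real.log_mul (by positivity) (by positivity),
      Real.log_pow, Real.log_pow]
    push_cast
    ring
  have h4 : Real.log 4 ≤ 3 := by
    have := Real.log_le_sub_one_of_pos (show (0 : ℝ) < 4 by norm_num)
    linarith
  have h5 : Real.log N ≤ N := by
    have := Real.log_le_sub_one_of_pos hN0
    linarith
  have hj : (j : ℝ) + 1 ≤ 2 ^ j := by
    have : j + 1 ≤ 2 ^ j := Nat.lt_two_pow_self
    exact_mod_cast this
  have h13 : 40000 * (N : ℝ) ≤ (N : ℝ) ^ 13 := by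
    calc 40000 * (N : ℝ) ≤ N * N := mul_le_mul_of_nonneg_right hN4 hN0.le
      _ = (N : ℝ) ^ 2 := by ring
      _ ≤ (N : ℝ) ^ 13 := pow_le_pow_right₀ hN1 (by norm_num)
  rw [e1]
  have h6 : ((j : ℝ) + 1) * Real.log 4 ≤ 2 ^ j * 3 := by
    have : 0 ≤ Real.log 4 := Real.log_nonneg (by norm_num)
    have h7 : (0 : ℝ) ≤ (j : ℝ) + 1 := by positivity
    nlinarith
  have h8 : 6 * (((j : ℝ) + 1) * Real.log 4 + 25 * Real.log N) + 4 ≤ 2 ^ j * (N : ℝ) ^ 13 := by
    have h9 : 2 ^ j * (18 + 150 * (N : ℝ) + 4) ≤ 2 ^ j * (N : ℝ) ^ 13 :=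
      mul_le_mul_of_nonneg_left (by linarith) (by positivity)
    nlinarith
  nlinarith

theorem levels {N : ℕ} {c t lam X : ℝ} (hc : 0 < c) (hlam : 0 < lam)
    (ht : t = Real.exp (-lam)) (hN : 40000 ≤ N) (hcN : 1000 ≤ c * N)
    (hbase : ∃ (z : V) (F : Finset (V × List V)) (L : ℕ),
      L + 4 * (2 ^ 1 * N ^ 13) ≤ 4 ^ 1 * N ^ 25 ∧
      Fam hG H (2 ^ 1 * N ^ 13) (1 / N) (2 ^ 1 * N ^ 13) L z (fun _ => True) F ∧
      Real.exp (4 * X + (12 * lam + 1) * N ^ 13) ≤ wt t F) (j : ℕ) (hj : 1 ≤ j)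
    (hgr : ∀ i, 1 ≤ i → i < j →
      c * ((2 ^ i * N ^ 13 : ℕ) : ℝ) ^ 5 ≤ bb hG o (2 ^ i * N ^ 13))
    (hR : 8 * (4 ^ j * N ^ 25) ≤ R) :
    ∃ (z : V) (F : Finset (V × List V)) (L : ℕ),
      L + 4 * (2 ^ j * N ^ 13) ≤ 4 ^ j * N ^ 25 ∧
      Fam hG H (2 ^ j * N ^ 13) (1 / N) (2 ^ j * N ^ 13) L z (fun _ => True) F ∧
      Real.exp (4 ^ j * X + 2 ^ j / 2 * ((12 * lam + 1) * N ^ 13)) ≤ wt t F := by
  induction j, hj using Nat.le_induction with
  | base =>
    obtain ⟨z, F, L, h1, h2, h3⟩ := hbase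
    refine ⟨z, F, L, h1, h2, le_trans (Real.exp_le_exp.2 (le_of_eq ?_)) h3⟩
    ring
  | succ j hj ih =>
    have hpow : 4 ^ (j + 1) * N ^ 25 = 4 * (4 ^ j * N ^ 25) := by ring
    obtain ⟨z, F, L, h1, h2, h3⟩ := ih (fun i hi hij => hgr i hi (by omega)) (by omega)
    obtain ⟨z', F', h4, h5⟩ := level_step hG H hc hlam ht rfl rfl hN hcN
      (hgr j hj (by omega)) h1 (by omega) z F h2 h3
    have e2 : 2 ^ (j + 1) * N ^ 13 = 2 * (2 ^ j * N ^ 13) := by ring
    refine ⟨z', F', 4 * L + 8 * (2 ^ j * N ^ 13), ?_, ?_, ?_⟩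
    · rw [e2, hpow]; omega
    · rw [e2]; exact h4
    · refine le_trans (Real.exp_le_exp.2 ?_) h5
      have hcost := cost_le (j := j) (lam := lam) hN
      push_cast
      have e3 : (4 : ℝ) ^ (j + 1) = 4 * 4 ^ j := by ring
      have e4 : (2 : ℝ) ^ (j + 1) = 2 * 2 ^ j := by ring
      rw [e3, e4]
      linarith

/-- counts and balls -/
lemma bb_le {Δ : ℝ} (hΔ : 1 ≤ Δ) (hcnt : ∀ k, (cnt (sa G) o k : ℝ) ≤ Δ ^ k) (r : ℕ) :
    bb hG o r ≤ (r + 1) * Δ ^ r := by
  classical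
  have h1 : bl hG o r ⊆ (fm hG (sa G) o r).image (fun s => en o s) := by
    intro y hy
    rw [mem_bl] at hy
    rw [Finset.mem_image]
    refine ⟨geo hG o y, ?_, en_geo hG o y⟩
    rw [mem_fm]
    exact ⟨by rw [length_geo]; exact hy, ch_geo hG o y, ch_geo hG o y, nodup_geo hG o y⟩
  have h2 : ((fm hG (sa G) o r).card : ℝ) = lw 1 (fm hG (sa G) o r) := by
    simp [lw]
  have h3 : bb hG o r ≤ ((fm hG (sa G) o r).card : ℝ) := by
    unfold bb
    exact_mod_cast (Finset.card_le_card h1).trans Finset.card_image_le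
  rw [h2, lw_fm hG 1 (sa G) (fun _ _ h => h.1)] at h3
  refine h3.trans ?_
  have h4 : ∀ k ∈ Finset.range (r + 1), (cnt (sa G) o k : ℝ) * 1 ^ k ≤ Δ ^ r := by
    intro k hk
    rw [one_pow, mul_one]
    exact (hcnt k).trans (pow_le_pow_right₀ hΔ (by rw [Finset.mem_range] at hk; omega))
  refine (Finset.sum_le_sum h4).trans (le_of_eq ?_)
  simp

/-- numerical facts for the first level -/
lemma num_base {N : ℕ} (hN : 40000 ≤ N) :
    4 * (N ^ 7 + 1) * (N ^ 16 + 1 + 1000 * N ^ 16) ≤ N ^ 24 ∧ N ^ 24 ≤ N ^ 25 + 1 ∧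
    N ^ 25 + 2 * N ^ 7 + 2 * N ^ 8 + 4 * (2 ^ 1 * N ^ 13) ≤ 4 ^ 1 * N ^ 25 ∧
    N ^ 7 + N ^ 8 ≤ 2 ^ 1 * N ^ 13 ∧ N ^ 25 / N ^ 16 = N ^ 9 := by
  have h1 : 1 ≤ N := by omega
  have hp : ∀ k, 1 ≤ N ^ k := fun k => Nat.one_le_pow _ _ h1
  have hm : ∀ j k, j ≤ k → N ^ j ≤ N ^ k := fun j k h => Nat.pow_le_pow_right h1 h
  have hs : ∀ j k, j < k → 40000 * N ^ j ≤ N ^ k := by
    intro j k h
    calc 40000 * N ^ j ≤ N * N ^ j := Nat.mul_le_mul_right _ hN
      _ = N ^ (j + 1) := by ring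
      _ ≤ N ^ k := hm _ _ h
  refine ⟨?_, ?_, ?_, ?_, ?_⟩
  · have a1 : N ^ 7 + 1 ≤ 2 * N ^ 7 := by have := hp 7; omega
    have a2 : N ^ 16 + 1 + 1000 * N ^ 16 ≤ 1002 * N ^ 16 := by have := hp 16; omega
    calc 4 * (N ^ 7 + 1) * (N ^ 16 + 1 + 1000 * N ^ 16)
        ≤ 4 * (2 * N ^ 7) * (1002 * N ^ 16) :=
          Nat.mul_le_mul (Nat.mul_le_mul_left _ a1) a2
      _ = 8016 * N ^ 23 := by ring
      _ ≤ 40000 * N ^ 23 := by omega
      _ ≤ N ^ 24 := hs 23 24 (by norm_num)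
  · have := hm 24 25 (by norm_num); omega
  · have b1 := hs 7 25 (by norm_num)
    have b2 := hs 8 25 (by norm_num)
    have b3 := hs 13 25 (by norm_num)
    omega
  · have b1 := hm 7 13 (by norm_num)
    have b2 := hm 8 13 (by norm_num)
    omega
  · rw [show N ^ 25 = N ^ 9 * N ^ 16 by ring]
    exact Nat.mul_div_cancel _ (hp 16)

lemma real_base {N ε lam d : ℝ} (hN : 1 ≤ N) (hlam : 0 < lam) (hd : 0 ≤ d)
    (h : 100 * (1 + lam) * (1 + d) ≤ ε * N) :
    (∀ {l9 lD lW : ℝ}, ε * N ^ 25 ≤ l9 + 2 * lD + N ^ 9 * lW → l9 ≤ N ^ 9 →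
      lD ≤ N ^ 24 + N ^ 24 * d → 97 / 100 * ε * N ^ 16 ≤ lW) ∧
    (∀ {lB : ℝ}, lB ≤ N ^ 7 + N ^ 7 * d → lB ≤ 1 / 100 * ε * N ^ 16) ∧
    96 * (1 + lam) * N ^ 15 ≤ 96 / 100 * ε * N ^ 16 ∧ 0 < ε * N ^ 16 := by
  have hmr : ∀ j k : ℕ, j ≤ k → N ^ j ≤ N ^ k := fun j k h => pow_le_pow_right₀ hN h
  have h1 : 0 ≤ lam * (1 + d) := by positivity
  have h2 : 100 * (1 + d) ≤ ε * N := by nlinarith
  have h3 : 100 * (1 + lam) ≤ ε * N := by
    have : 0 ≤ (1 + lam) * d := by positivity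
    nlinarith
  have hεN : 0 < ε * N := by linarith
  refine ⟨?_, ?_, ?_, ?_⟩
  · intro l9 lD lW g1 g2 g3
    have g4 : 100 * (1 + d) * N ^ 24 ≤ ε * N ^ 25 := by
      have e1 : ε * N ^ 25 = (ε * N) * N ^ 24 := by ring
      rw [e1]
      exact mul_le_mul_of_nonneg_right h2 (by positivity)
    have g5 := hmr 9 24 (by norm_num)
    have g6 : 0 ≤ d * N ^ 24 := by positivity
    have g7 : 97 / 100 * (ε * N ^ 25) ≤ N ^ 9 * lW := by linarith
    have g8 : 97 / 100 * (ε * N ^ 25) = N ^ 9 * (97 / 100 * ε * N ^ 16) := by ring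
    rw [g8] at g7
    exact le_of_mul_le_mul_left g7 (by positivity)
  · intro lB g1
    have g2 : (1 + d) * N ^ 7 ≤ (1 / 100 * (ε * N)) * N ^ 7 :=
      mul_le_mul_of_nonneg_right (by linarith) (by positivity)
    have g3 : 1 / 100 * (ε * N) * N ^ 7 ≤ 1 / 100 * (ε * N) * N ^ 15 :=
      mul_le_mul_of_nonneg_left (hmr 7 15 (by norm_num)) (by positivity)
    have g4 : 1 / 100 * (ε * N) * N ^ 15 = 1 / 100 * ε * N ^ 16 := by ring
    linarith
  · have e1 : 96 / 100 * ε * N ^ 16 = 96 / 100 * (ε * N) * N ^ 15 := by ring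
    rw [e1]
    exact mul_le_mul_of_nonneg_right (by linarith) (by positivity)
  · have e1 : ε * N ^ 16 = (ε * N) * N ^ 15 := by ring
    rw [e1]; positivity

lemma real_base2 {N lam : ℝ} (hN : 40000 ≤ N) (hlam : 0 < lam) :
    4 * N ^ 15 + (12 * lam + 1) * N ^ 13 ≤ 96 * (1 + lam) * N ^ 15 - 1 := by
  have hN1 : 1 ≤ N := by linarith
  have g13 : N ^ 13 ≤ N ^ 15 := pow_le_pow_right₀ hN1 (by norm_num)
  have g15 : 1 ≤ N ^ 15 := one_le_pow₀ hN1
  have g17 : lam * N ^ 13 ≤ lam * N ^ 15 := mul_le_mul_of_nonneg_left g13 hlam.le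
  have g18 : 0 ≤ lam * N ^ 15 := by positivity
  linarith

lemma raise_num {N c b : ℝ} (hN : 40000 ≤ N) (hc : 0 < c) (hcN : 1000 ≤ c * N)
    (hb : c * (N ^ 8) ^ 5 ≤ b) :
    16 * (2 * N ^ 13 * (N ^ 25 + 2 * N ^ 7 + 1 + N ^ 8 + 2 * N ^ 13) * (1 / b)) ≤ 1 / N := by
  have hN0 : 0 < N := by linarith
  have hN1 : 1 ≤ N := by linarith
  have hs25 : ∀ j k : ℕ, j < k → 40000 * N ^ j ≤ N ^ k := by
    intro j k h
    calc 40000 * N ^ j ≤ N * N ^ j := mul_le_mul_of_nonneg_right hN (by positivity)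
      _ = N ^ (j + 1) := by ring
      _ ≤ N ^ k := pow_le_pow_right₀ hN1 h
  have g1 : 1 / b ≤ 1 / (c * (N ^ 8) ^ 5) :=
    one_div_le_one_div_of_le (by positivity) hb
  have hb0 : 0 ≤ 1 / b := by
    have : 0 < c * (N ^ 8) ^ 5 := by positivity
    have : 0 < b := by linarith
    positivity
  have f1 := hs25 7 25 (by norm_num)
  have f2 := hs25 0 25 (by norm_num)
  have f3 := hs25 8 25 (by norm_num)
  have f4 := hs25 13 25 (by norm_num)
  simp only [pow_zero, mul_one] at f2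
  calc 16 * (2 * N ^ 13 * (N ^ 25 + 2 * N ^ 7 + 1 + N ^ 8 + 2 * N ^ 13) * (1 / b))
      ≤ 16 * (2 * N ^ 13 * (2 * N ^ 25) * (1 / (c * (N ^ 8) ^ 5))) := by
        gcongr
        linarith
    _ = 64 / (c * N ^ 2) := by
        field_simp
        ring
    _ ≤ 1 / N := by
        rw [div_le_div_iff₀ (by positivity) hN0]
        have : 64 * N ≤ (c * N) * N := mul_le_mul_of_nonneg_right (by linarith) hN0.le
        linarith

lemma half_exp {a Z w : ℝ} (h1 : Real.exp a ≤ Z) (h2 : Z ≤ 2 * w) (h3 : 0 ≤ w) :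
    Real.exp (a - 1) ≤ w := by
  have h21 : (2 : ℝ) ≤ Real.exp 1 := by
    have := Real.add_one_le_exp (1 : ℝ)
    linarith
  rw [Real.exp_sub, div_le_iff₀ (Real.exp_pos _)]
  nlinarith

theorem base_level {N : ℕ} {c t lam ε Δ : ℝ} (hc : 0 < c) (hlam : 0 < lam)
    (ht : t = Real.exp (-lam)) (hN : 40000 ≤ N) (hcN : 1000 ≤ c * N) (hΔ : 1 ≤ Δ)
    (hcnt : ∀ k, (cnt (sa G) o k : ℝ) ≤ Δ ^ k)
    (hNε : 100 * (1 + lam) * (1 + Real.log Δ) ≤ ε * N)
    (hm : Real.exp (ε * (N : ℝ) ^ 25) ≤ (cnt (sa G) o (N ^ 25) : ℝ) * t ^ (N ^ 25))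
    (hg7 : c * ((N ^ 7 : ℕ) : ℝ) ^ 5 ≤ bb hG o (N ^ 7))
    (hg8 : c * ((N ^ 8 : ℕ) : ℝ) ^ 5 ≤ bb hG o (N ^ 8)) (hR : 8 * (4 ^ 1 * N ^ 25) ≤ R) :
    ∃ (z : V) (F : Finset (V × List V)) (L : ℕ),
      L + 4 * (2 ^ 1 * N ^ 13) ≤ 4 ^ 1 * N ^ 25 ∧
      Fam hG H (2 ^ 1 * N ^ 13) (1 / N) (2 ^ 1 * N ^ 13) L z (fun _ => True) F ∧
      Real.exp (4 * (N : ℝ) ^ 15 + (12 * lam + 1) * N ^ 13) ≤ wt t F := by
  obtain ⟨k1, k2, k3, k4, k5⟩ := num_base hN
  have hN4 : (40000 : ℝ) ≤ N := by exact_mod_cast hN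
  have hN0 : (0 : ℝ) < N := by linarith
  have hN1 : (1 : ℝ) ≤ N := by linarith
  have h1 : 1 ≤ N := by omega
  have hmN : ∀ j k, j ≤ k → N ^ j ≤ N ^ k := fun j k h => Nat.pow_le_pow_right h1 h
  have hmr : ∀ j k : ℕ, j ≤ k → (N : ℝ) ^ j ≤ (N : ℝ) ^ k := fun j k h =>
    pow_le_pow_right₀ hN1 h
  have hpr : ∀ k : ℕ, (1 : ℝ) ≤ (N : ℝ) ^ k := fun k => one_le_pow₀ hN1
  have ht0 : 0 < t := by rw [ht]; exact Real.exp_pos _
  have ht1 : t ≤ 1 := by rw [ht]; exact Real.exp_le_one_iff.2 (by linarith)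
  have hlogΔ : 0 ≤ Real.log Δ := Real.log_nonneg hΔ
  have hs25 : ∀ j k : ℕ, j < k → 40000 * (N : ℝ) ^ j ≤ (N : ℝ) ^ k := by
    intro j k h
    calc 40000 * (N : ℝ) ^ j ≤ N * (N : ℝ) ^ j := mul_le_mul_of_nonneg_right hN4 (by positivity)
      _ = (N : ℝ) ^ (j + 1) := by ring
      _ ≤ (N : ℝ) ^ k := hmr _ _ h
  have hR7 : N ^ 7 ≤ R := by have := hmN 7 25 (by norm_num); omega
  have hR8 : N ^ 8 ≤ R := by have := hmN 8 25 (by norm_num); omega
  have hR13 : 2 ^ 1 * N ^ 13 ≤ R := by have := hmN 13 25 (by norm_num); omega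
  have hbb7 := bb_pos hG (o := o) (N ^ 7)
  have hbb8 := bb_pos hG (o := o) (N ^ 8)
  -- initial family
  obtain ⟨hF0, hbig⟩ := init (m := N ^ 25) (r := N ^ 7) (S := N ^ 8) (mlow := N ^ 24) (κ := N ^ 16)
    (Bl := 1000 * N ^ 16) hG H (o := o) (R := R) ht0 (by positivity) hR8 hR7 (by
      push_cast
      have e1 : 4 * ((N : ℝ) ^ 25 + 1) * (N : ℝ) ^ 8 ≤ 8 * (N : ℝ) ^ 33 := by
        have := hpr 25
        have e2 : (N : ℝ) ^ 33 = (N : ℝ) ^ 25 * (N : ℝ) ^ 8 := by ring
        rw [e2]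
        nlinarith [hpr 8]
      have e3 : 1024 * (N : ℝ) ^ 33 ≤ c * ((N ^ 7 : ℕ) : ℝ) ^ 5 := by
        push_cast
        have e4 : c * (((N : ℝ) ^ 7) ^ 5) = (c * N) * ((N : ℝ) * (N : ℝ) ^ 33) := by ring
        rw [e4]
        have e5 : (1024 : ℝ) ≤ (c * N) * N := by nlinarith
        nlinarith [hpr 33]
      linarith) (by
      push_cast
      have e1 : ((N : ℝ) ^ 7 * ((N : ℝ) ^ 7 + 1) + ((N : ℝ) ^ 7 * (N : ℝ) ^ 8 +
          (N : ℝ) ^ 8 * ((N : ℝ) ^ 7 + 1) + (N : ℝ) ^ 8 * (N : ℝ) ^ 8) / (1 / 128)) =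
          (N : ℝ) ^ 14 + (N : ℝ) ^ 7 + 128 * (2 * (N : ℝ) ^ 15 + (N : ℝ) ^ 8 + (N : ℝ) ^ 16) := by
        field_simp
        ring
      rw [e1]
      have f1 := hs25 14 16 (by norm_num)
      have f2 := hs25 7 16 (by norm_num)
      have f3 := hs25 15 16 (by norm_num)
      have f4 := hs25 8 16 (by norm_num)
      have f5 := hpr 16
      linarith) k1 k2
  rw [k5] at hbig
  set Z0 := wt t (F0 hG H (N ^ 8) (1 / 64) (N ^ 7) (N ^ 25 + 2 * N ^ 7)) with hZ0
  set B := bb hG o (N ^ 7) with hB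
  have hZ0nn : 0 ≤ Z0 := Finset.sum_nonneg fun _ _ => pow_nonneg ht0.le _
  -- bound of the short walks
  have hD : ∑ k ∈ Finset.range (N ^ 24 + 1), (cnt (sa G) o k : ℝ) * t ^ k ≤
      ((N : ℝ) ^ 24 + 1) * Δ ^ (N ^ 24) := by
    have : ∀ k ∈ Finset.range (N ^ 24 + 1), (cnt (sa G) o k : ℝ) * t ^ k ≤ Δ ^ (N ^ 24) := by
      intro k hk
      have a1 : (cnt (sa G) o k : ℝ) ≤ Δ ^ (N ^ 24) :=
        (hcnt k).trans (pow_le_pow_right₀ hΔ (by rw [Finset.mem_range] at hk; omega))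
      have a2 : t ^ k ≤ 1 := pow_le_one₀ ht0.le ht1
      have a3 : (0 : ℝ) ≤ cnt (sa G) o k := Nat.cast_nonneg _
      have a4 : (0 : ℝ) ≤ t ^ k := by positivity
      nlinarith
    refine (Finset.sum_le_sum this).trans (le_of_eq ?_)
    simp
  have hD0 : 0 < ∑ k ∈ Finset.range (N ^ 24 + 1), (cnt (sa G) o k : ℝ) * t ^ k := by
    refine Finset.sum_pos' (fun _ _ => by positivity) ⟨0, by simp, ?_⟩
    rw [sigma_zero]; simp
  set D := ∑ k ∈ Finset.range (N ^ 24 + 1), (cnt (sa G) o k : ℝ) * t ^ k with hDdef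
  set W := max 1 (B * Z0) with hW
  have hW1 : 1 ≤ W := le_max_left _ _
  have hlogD : Real.log D ≤ (N : ℝ) ^ 24 + (N : ℝ) ^ 24 * Real.log Δ := by
    refine (Real.log_le_log hD0 hD).trans ?_
    rw [Real.log_mul (by positivity) (by positivity), Real.log_pow]
    push_cast
    have := Real.log_le_sub_one_of_pos (show (0 : ℝ) < (N : ℝ) ^ 24 + 1 by positivity)
    linarith
  have hlog : ε * (N : ℝ) ^ 25 ≤ Real.log ((N : ℝ) ^ 9 + 1) + 2 * Real.log D +
      (N : ℝ) ^ 9 * Real.log W := by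
    have h2 := hm.trans hbig
    have h3 := Real.log_le_log (Real.exp_pos _) h2
    rw [Real.log_exp] at h3
    have hn9 : (((N ^ 9 : ℕ) : ℝ) + 1) ≠ 0 := by positivity
    have hD2 : D ^ 2 ≠ 0 := pow_ne_zero _ hD0.ne'
    have hWp : W ^ (N ^ 9) ≠ 0 := pow_ne_zero _ (by linarith)
    have h4 : Real.log ((((N ^ 9 : ℕ) : ℝ) + 1) * D ^ 2 * W ^ (N ^ 9)) =
        Real.log (((N ^ 9 : ℕ) : ℝ) + 1) + 2 * Real.log D + ((N ^ 9 : ℕ) : ℝ) * Real.log W := by
      rw [Real.log_mul (mul_ne_zero hn9 hD2) hWp, Real.log_mul hn9 hD2, Real.log_pow, Real.log_pow]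
      norm_num
    rw [h4] at h3
    push_cast at h3
    exact h3
  have hlog9 : Real.log ((N : ℝ) ^ 9 + 1) ≤ (N : ℝ) ^ 9 := by
    have := Real.log_le_sub_one_of_pos (show (0 : ℝ) < (N : ℝ) ^ 9 + 1 by positivity)
    linarith
  obtain ⟨R1, R2, R3, R4⟩ := real_base hN1 hlam hlogΔ hNε
  have hW2 : 97 / 100 * ε * (N : ℝ) ^ 16 ≤ Real.log W := R1 hlog hlog9 hlogD
  have hWlog : 0 < Real.log W := lt_of_lt_of_le (by linarith) hW2
  have hWeq : W = B * Z0 := by
    rcases max_choice 1 (B * Z0) with h | h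
    · rw [hW, h] at hWlog
      simp at hWlog
    · exact h
  have hZ0pos : 0 < Z0 := by
    rcases hZ0nn.eq_or_lt with h | h
    · rw [hWeq, ← h] at hWlog
      simp at hWlog
    · exact h
  have hlogB : Real.log B ≤ 1 / 100 * ε * (N : ℝ) ^ 16 := by
    have h6 := bb_le hG hΔ hcnt (N ^ 7)
    have h7 := Real.log_le_log hbb7 h6
    rw [Real.log_mul (by positivity) (by positivity), Real.log_pow] at h7
    push_cast at h7
    have h8 := Real.log_le_sub_one_of_pos (show (0 : ℝ) < (N : ℝ) ^ 7 + 1 by positivity)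
    refine R2 ?_
    have : Real.log B = Real.log (bb hG o (N ^ 7)) := rfl
    rw [this]
    linarith
  have hlogZ : 96 * (1 + lam) * (N : ℝ) ^ 15 ≤ Real.log Z0 := by
    rw [hWeq, Real.log_mul (by positivity) (by positivity)] at hW2
    have h12 : 96 / 100 * ε * (N : ℝ) ^ 16 ≤ Real.log Z0 := by linarith
    exact R3.trans h12
  -- raise
  obtain ⟨ω, F1, hF1, hw⟩ := raise (S' := 2 ^ 1 * N ^ 13) (δ' := 1 / N) (t := t) (M := 16) hG H ht0
    (by norm_num) (by have := Nat.one_le_pow 13 N h1; omega) hR13 o (fun _ => True) _ hF0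
    (by norm_num) (by
      push_cast at hg8
      have := raise_num hN4 hc hcN hg8
      push_cast
      exact this)
  refine ⟨_, F1, N ^ 25 + 2 * N ^ 7 + 2 * N ^ 8, k3,
    hF1.mono hG H le_rfl k4 le_rfl fun _ _ => trivial, ?_⟩
  have hZ1 : Real.exp (96 * (1 + lam) * (N : ℝ) ^ 15) ≤ Z0 := by
    rw [← Real.exp_log hZ0pos]
    exact Real.exp_le_exp.2 hlogZ
  have h20 : Real.exp (96 * (1 + lam) * (N : ℝ) ^ 15 - 1) ≤ wt t F1 :=
     half_exp hZ1 hw (Finset.sum_nonneg fun _ _ => pow_nonneg ht0.le _)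
  exact le_trans (Real.exp_le_exp.2 (real_base2 hN4 hlam)) h20

end Pool.H98.C

end S_H98_C_Levels

section S_H98_C_Inf

set_option autoImplicit false

/-! The case of graphs with large balls at all scales. -/

namespace Pool.H98.C

open Finset Pool.Agent.H61.SW

variable {V : Type} {G : SimpleGraph V} {o : V} {R : ℕ} (hG : TG G) (H : Homog G o R)

include hG in
lemma cnt_eq (v : V) (n : ℕ) : cnt (sa G) v n = cnt (sa G) o n := by
  obtain ⟨φ, hφ⟩ := hG.tr o v
  rw [← hφ]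
  exact cnt_map (sa G) φ o (fun s => sa_map φ o s) n

/-- the weight of a family is at most the number of possible starting points times the generating
function of self-avoiding walks -/
lemma wt_le {S A L : ℕ} {δ t : ℝ} (ht : 0 ≤ t) {z : V} {P : List V → Prop}
    {F : Finset (V × List V)} (hF : Fam hG H S δ A L z P F) :
    wt t F ≤ bb hG o A * ∑ k ∈ Finset.range (L + 1), (cnt (sa G) o k : ℝ) * t ^ k := by
  classical
  have h1 : F ⊆ (bl hG z A).biUnion fun y => (fm hG (sa G) y L).image fun c => (y, c) := by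
    intro q hq
    obtain ⟨a, b, h1, B, -⟩ := hF q hq
    have hsa : sa G q.1 q.2 := by
      rw [← h1]
      exact sa_append_left (sa_append_right B.sa)
    rw [Finset.mem_biUnion]
    refine ⟨q.1, ?_, Finset.mem_image.2 ⟨q.2, ?_, rfl⟩⟩
    · rw [mem_bl, ← h1]
      exact (dist_en_le z a ((ch_append _ _ _).1 B.sa.1).1).trans B.la
    · rw [mem_fm]
      have := B.ll
      simp only [List.length_append] at this
      exact ⟨by omega, hsa.1, hsa⟩
  have h2 : ∑ q ∈ (bl hG z A).biUnion (fun y => (fm hG (sa G) y L).image fun c => (y, c)),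
      t ^ q.2.length = ∑ y ∈ bl hG z A, lw t (fm hG (sa G) y L) := by
    rw [Finset.sum_biUnion]
    · refine Finset.sum_congr rfl fun y _ => ?_
      rw [Finset.sum_image]
      · rfl
      · intro c _ c' _ h
        exact (Prod.mk.inj h).2
    · intro y _ y' _ hne
      rw [Function.onFun, Finset.disjoint_left]
      rintro q hq hq'
      obtain ⟨c, -, rfl⟩ := Finset.mem_image.1 hq
      obtain ⟨c', -, h⟩ := Finset.mem_image.1 hq'
      exact hne (Prod.mk.inj h).1.symm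
  have h3 : wt t F ≤ ∑ q ∈ (bl hG z A).biUnion
      (fun y => (fm hG (sa G) y L).image fun c => (y, c)), t ^ q.2.length :=
    Finset.sum_le_sum_of_subset_of_nonneg h1 fun _ _ _ => pow_nonneg ht _
  rw [h2] at h3
  refine h3.trans (le_of_eq ?_)
  have h4 : ∀ y ∈ bl hG z A, lw t (fm hG (sa G) y L) =
      ∑ k ∈ Finset.range (L + 1), (cnt (sa G) o k : ℝ) * t ^ k := by
    intro y _
    rw [lw_fm hG t (sa G) (fun _ _ h => h.1)]
    refine Finset.sum_congr rfl fun k _ => ?_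
    rw [cnt_eq hG (o := o) y k]
  rw [Finset.sum_congr rfl h4, Finset.sum_const, nsmul_eq_mul, card_bl hG z o]
  rfl

theorem case_inf {N : ℕ} {c t lam Δ : ℝ} (hc : 0 < c) (hlam : 0 < lam)
    (ht : t = Real.exp (-lam)) (hN : 40000 ≤ N) (hcN : 1000 ≤ c * N) (hΔ : 1 ≤ Δ)
    (hcnt : ∀ k, (cnt (sa G) o k : ℝ) ≤ Δ ^ k)
    (hH : ∀ R, Nonempty (Homog G o R))
    (hbase : ∀ (R : ℕ) (H : Homog G o R), 8 * (4 ^ 1 * N ^ 25) ≤ R →
      ∃ (z : V) (F : Finset (V × List V)) (L : ℕ),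
      L + 4 * (2 ^ 1 * N ^ 13) ≤ 4 ^ 1 * N ^ 25 ∧
      Fam hG H (2 ^ 1 * N ^ 13) (1 / N) (2 ^ 1 * N ^ 13) L z (fun _ => True) F ∧
      Real.exp (4 * (N : ℝ) ^ 15 + (12 * lam + 1) * N ^ 13) ≤ wt t F)
    (hgr : ∀ r : ℕ, 1 ≤ r → c * (r : ℝ) ^ 5 ≤ bb hG o r) :
    ¬ Summable (fun k : ℕ => (cnt (sa G) o k : ℝ) * t ^ k) := by
  intro hsum
  have ht0 : 0 < t := by rw [ht]; exact Real.exp_pos _
  set χ := ∑' k : ℕ, (cnt (sa G) o k : ℝ) * t ^ k with hχ
  have hN1 : 1 ≤ N := by omega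
  have hN1r : (1 : ℝ) ≤ N := by exact_mod_cast hN1
  obtain ⟨K, hK⟩ := exists_nat_gt (1 + Real.log Δ + |Real.log χ|)
  have hlogΔ : 0 ≤ Real.log Δ := Real.log_nonneg hΔ
  set j := K + 1 with hj
  obtain ⟨H⟩ := hH (8 * (4 ^ j * N ^ 25))
  have h41 : 4 ^ 1 ≤ 4 ^ j := Nat.pow_le_pow_right (by norm_num) (by omega)
  have hb := hbase _ H (Nat.mul_le_mul_left _ (Nat.mul_le_mul_right _ h41))
  obtain ⟨z, F, L, -, h2, h3⟩ := levels hG H (X := (N : ℝ) ^ 15) hc hlam ht hN hcN hb j (by omega)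
    (fun i hi _ => by
      have h1 : 1 ≤ 2 ^ i * N ^ 13 := Nat.one_le_iff_ne_zero.2 (by positivity)
      exact hgr _ h1) le_rfl
  have h4 := h3.trans (wt_le hG H ht0.le h2)
  have h5 : ∑ k ∈ Finset.range (L + 1), (cnt (sa G) o k : ℝ) * t ^ k ≤ χ :=
    hsum.sum_le_tsum _ (fun _ _ => by positivity)
  have hχ0 : 0 < χ := by
    refine lt_of_lt_of_le ?_ h5
    refine Finset.sum_pos' (fun _ _ => by positivity) ⟨0, by simp, ?_⟩
    rw [sigma_zero]; simp
  have hbb := bb_pos hG (o := o) (2 ^ j * N ^ 13)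
  have h6 := h4.trans (mul_le_mul_of_nonneg_left h5 hbb.le)
  have h7 := Real.log_le_log (Real.exp_pos _) h6
  rw [Real.log_exp, Real.log_mul hbb.ne' hχ0.ne'] at h7
  have h8 := Real.log_le_log hbb (bb_le hG hΔ hcnt (2 ^ j * N ^ 13))
  rw [Real.log_mul (by positivity) (by positivity), Real.log_pow] at h8
  push_cast at h8
  have h9 := Real.log_le_sub_one_of_pos (show (0 : ℝ) < 2 ^ j * (N : ℝ) ^ 13 + 1 by positivity)
  have h10 : Real.log χ ≤ |Real.log χ| := le_abs_self _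
  -- compare
  have h2j : (K : ℝ) + 1 ≤ 2 ^ j := by
    have : K + 1 < 2 ^ j := by
      rw [hj]; exact Nat.lt_two_pow_self
    exact_mod_cast this.le
  have e4 : (4 : ℝ) ^ j = 2 ^ j * 2 ^ j := by rw [← mul_pow]; norm_num
  have hp13 : (1 : ℝ) ≤ (N : ℝ) ^ 13 := one_le_pow₀ hN1r
  have hp15 : (N : ℝ) ^ 13 ≤ (N : ℝ) ^ 15 := pow_le_pow_right₀ hN1r (by norm_num)
  have h2j1 : (1 : ℝ) ≤ 2 ^ j := one_le_pow₀ (by norm_num)
  have h11 : (1 + Real.log Δ + |Real.log χ|) * (2 ^ j * (N : ℝ) ^ 13) ≤ 4 ^ j * (N : ℝ) ^ 15 := by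
    rw [e4]
    calc (1 + Real.log Δ + |Real.log χ|) * (2 ^ j * (N : ℝ) ^ 13)
        ≤ 2 ^ j * (2 ^ j * (N : ℝ) ^ 15) := by
          refine mul_le_mul (by linarith) ?_ (by positivity) (by positivity)
          exact mul_le_mul_of_nonneg_left hp15 (by positivity)
      _ = 2 ^ j * 2 ^ j * (N : ℝ) ^ 15 := by ring
  have h12 : 0 < 2 ^ j / 2 * ((12 * lam + 1) * (N : ℝ) ^ 13) := by positivity
  have h13 : |Real.log χ| ≤ |Real.log χ| * (2 ^ j * (N : ℝ) ^ 13) := by
    have : 1 ≤ 2 ^ j * (N : ℝ) ^ 13 := one_le_mul_of_one_le_of_one_le h2j1 hp13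
    exact le_mul_of_one_le_right (abs_nonneg _) this
  linarith

end Pool.H98.C

end S_H98_C_Inf
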