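import Mathlib
import Pool.Agent.H61.LC.L1
import Pool.Agent.H61.LC.L2
import Pool.Agent.H61.LC.L3

set_option autoImplicit false

/-! Locality of connective constants, part L4: this file joins several modules to save build time. -/

section S_H98_C_Fin3

set_option autoImplicit false

/-! Choice of the numerical parameters for `fin_core`. -/

namespace Pool.H98.C

open Finset Pool.Agent.H61.SW

lemma div_lower {u Q : ℕ} (hQ : 1 ≤ Q) (hu : 2 * Q ≤ u) : (u : ℝ) / (2 * Q) ≤ ((u / Q : ℕ) : ℝ) := by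
  have h1 : u < Q * (u / Q + 1) := Nat.lt_mul_div_succ u (by omega)
  have h1' : (u : ℝ) ≤ Q * (((u / Q : ℕ) : ℝ) + 1) := by exact_mod_cast h1.le
  have h2 : (2 * Q : ℝ) ≤ u := by exact_mod_cast hu
  have hQ' : (1 : ℝ) ≤ Q := by exact_mod_cast hQ
  rw [div_le_iff₀ (by positivity)]
  nlinarith

lemma log_facts {u N : ℕ} (hN : 1 ≤ N) (hu : N ^ 25 ≤ u) :
    1 ≤ Nat.log 4 (4 * u / N ^ 25) ∧ 4 ^ Nat.log 4 (4 * u / N ^ 25) * N ^ 25 ≤ 4 * u ∧
      u < 4 ^ Nat.log 4 (4 * u / N ^ 25) * N ^ 25 := by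
  have hN25 : 0 < N ^ 25 := by positivity
  have h4 : 4 ≤ 4 * u / N ^ 25 := (Nat.le_div_iff_mul_le hN25).2 (by omega)
  set w := 4 * u / N ^ 25 with hw
  have hlog : 1 ≤ Nat.log 4 w := Nat.log_pos (by norm_num) h4
  have h1 : 4 ^ Nat.log 4 w ≤ w := Nat.pow_log_le_self 4 (by omega)
  have h2 : w < 4 ^ (Nat.log 4 w + 1) := Nat.lt_pow_succ_log_self (by norm_num) w
  refine ⟨hlog, (Nat.le_div_iff_mul_le hN25).1 h1, ?_⟩
  have h3 : 4 * u < 4 ^ (Nat.log 4 w + 1) * N ^ 25 := (Nat.div_lt_iff_lt_mul hN25).1 h2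
  rw [pow_succ, mul_right_comm] at h3
  omega

lemma sqrt_facts {S u N : ℕ} {A : ℝ} (hN : 1 ≤ N) (h1 : u * N ≤ S ^ 2) (hA0 : 0 ≤ A)
    (hA : A ^ 2 ≤ u) : A ≤ S ∧ (u : ℝ) ^ 2 * A ≤ (S : ℝ) ^ 5 := by
  have hN' : (1 : ℝ) ≤ N := by exact_mod_cast hN
  have hu0 : (0 : ℝ) ≤ u := Nat.cast_nonneg u
  have hS0 : (0 : ℝ) ≤ S := Nat.cast_nonneg S
  have h2 : (u : ℝ) * N ≤ (S : ℝ) ^ 2 := by exact_mod_cast h1
  have h3 : (u : ℝ) ≤ (S : ℝ) ^ 2 := by nlinarith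
  have h4 : A ≤ S := by
    by_contra h
    push Not at h
    have : (S : ℝ) ^ 2 < A ^ 2 := pow_lt_pow_left₀ h hS0 (by norm_num)
    linarith
  refine ⟨h4, ?_⟩
  have h5 : (u : ℝ) ^ 2 ≤ ((S : ℝ) ^ 2) ^ 2 := pow_le_pow_left₀ hu0 h3 2
  calc (u : ℝ) ^ 2 * A ≤ ((S : ℝ) ^ 2) ^ 2 * S := mul_le_mul h5 h4 hA0 (by positivity)
    _ = (S : ℝ) ^ 5 := by ring

theorem case_fin {N : ℕ} {c t lam : ℝ} (hc : 0 < c) (hlam : 0 < lam)
    (ht : t = Real.exp (-lam)) (hN : 40000 ≤ N) (hcN : 1000 ≤ c * N) :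
    ∃ s0 : ℕ, ∀ (V : Type) [Infinite V] (G : SimpleGraph V) (o : V) (hG : TG G),
    (∀ R, Nonempty (Homog G o R)) →
    (∀ (R : ℕ) (H : Homog G o R), 8 * (4 ^ 1 * N ^ 25) ≤ R →
      ∃ (z : V) (F : Finset (V × List V)) (L : ℕ),
      L + 4 * (2 ^ 1 * N ^ 13) ≤ 4 ^ 1 * N ^ 25 ∧
      Fam hG H (2 ^ 1 * N ^ 13) (1 / N) (2 ^ 1 * N ^ 13) L z (fun _ => True) F ∧
      Real.exp (4 * (N : ℝ) ^ 15 + (12 * lam + 1) * N ^ 13) ≤ wt t F) →
    ∀ s : ℕ, s0 ≤ s → (∀ r : ℕ, 1 ≤ r → r < s → c * (r : ℝ) ^ 5 ≤ bb hG o r) →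
    bb hG o s < c * (s : ℝ) ^ 5 →
    ¬ Summable (fun k : ℕ => (cnt (sa G) o k : ℝ) * t ^ k) := by
  have hN1 : 1 ≤ N := by omega
  have hNr : (1 : ℝ) ≤ N := by exact_mod_cast hN1
  obtain ⟨k, hk⟩ := exists_pow_ge (4 * (N : ℝ) ^ 10 * (100 * lam + 1)) (4 * (N : ℝ) ^ 10 * (80 * lam))
  obtain ⟨W, hW⟩ : ∃ W : ℕ, W = 5 + 4 * k := ⟨_, rfl⟩
  have hWr : (W : ℝ) = 5 + 4 * k := by rw [hW]; push_cast; ring
  have hk' : 4 * (N : ℝ) ^ 10 * (20 * W * lam + 1) ≤ 2 ^ k := by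
    rw [hWr]; nlinarith
  obtain ⟨q, hq⟩ : ∃ q : ℕ, q = 40 * W := ⟨_, rfl⟩
  have hW5 : 5 ≤ W := by omega
  have hq1 : 1 ≤ q := by omega
  have hqr : (1 : ℝ) ≤ q := by exact_mod_cast hq1
  obtain ⟨p, hp⟩ : ∃ p : ℝ, p = 1 / (q : ℝ) ^ 5 := ⟨_, rfl⟩
  have hp0 : 0 < p := by rw [hp]; positivity
  have hp1 : p ≤ 1 := by
    rw [hp, div_le_one (by positivity)]
    exact one_le_pow₀ hqr
  obtain ⟨M, hM⟩ : ∃ M : ℝ, M = 12 / p := ⟨_, rfl⟩
  have hM0 : 0 < M := by rw [hM]; positivity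
  obtain ⟨δf, hδf⟩ : ∃ δf : ℝ, δf = p / (32 * (1 + 2 * M) ^ (k + 1)) := ⟨_, rfl⟩
  have hδ0 : 0 < δf := by rw [hδf]; positivity
  obtain ⟨Q0, hQ0⟩ := exists_nat_gt (64 * lam * (N : ℝ) ^ 10)
  obtain ⟨Q, hQ⟩ : ∃ Q : ℕ, Q = Q0 + 1 := ⟨_, rfl⟩
  have hQ1 : 1 ≤ Q := by omega
  have hQr : (1 : ℝ) ≤ Q := by exact_mod_cast hQ1
  have hQ64 : 64 * lam * (N : ℝ) ^ 10 ≤ Q := by rw [hQ]; push_cast; linarith
  obtain ⟨K, hK⟩ : ∃ K : ℕ, K = 5 + 19 * W + 6 * 2 ^ k := ⟨_, rfl⟩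
  have hK1 : 1 ≤ K := by omega
  have hKr : (1 : ℝ) ≤ K := by exact_mod_cast hK1
  obtain ⟨A1, hA1⟩ : ∃ A1 : ℝ, A1 = 1 + Real.log (c * (q : ℝ) ^ 5) - Real.log (p / 2) +
    2 * Real.log (2 * (2 ^ k * 6)) := ⟨_, rfl⟩
  obtain ⟨A2, hA2⟩ : ∃ A2 : ℝ, A2 = 2 * Real.log K - Real.log (p / 2) := ⟨_, rfl⟩
  obtain ⟨u1, hu1⟩ := ev_log A1 7 (1 / (2 * (N : ℝ) ^ 10)) (by positivity)
  obtain ⟨u2, hu2⟩ := ev_log A2 2 (1 / 2) (by positivity)
  obtain ⟨u3, hu3⟩ := exists_nat_gt (128 * (K : ℝ) ^ 2 * (Q : ℝ) ^ 5 / (c * δf))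
  obtain ⟨u4, hu4⟩ := exists_nat_gt ((80 / (c * δf)) ^ 2)
  obtain ⟨u0, hu0⟩ : ∃ u0 : ℕ, u0 = 1 + N ^ 25 + 2 * Q + 64 * N * Q ^ 2 + u1 + u2 + u3 + u4 := ⟨_, rfl⟩
  refine ⟨20 * W * (u0 + 1), fun V _ G o hG hH hbase s hs hgr hbs => ?_⟩
  obtain ⟨u, hu⟩ : ∃ u : ℕ, u = s / (20 * W) := ⟨_, rfl⟩
  have hus : 20 * W * u ≤ s := by rw [hu]; exact Nat.mul_div_le _ _
  have hsu : s < 20 * W * (u + 1) := by
    rw [hu]; exact Nat.lt_mul_div_succ s (by omega)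
  have huu0 : u0 ≤ u := by
    rw [hu, Nat.le_div_iff_mul_le (by omega)]
    refine le_trans ?_ hs
    rw [mul_comm]
    exact Nat.mul_le_mul_left _ (by omega)
  have h1u : 1 ≤ u := by omega
  have hNu : N ^ 25 ≤ u := by omega
  have h2Q : 2 * Q ≤ u := by omega
  have h64 : 64 * N * Q ^ 2 ≤ u := by omega
  have hur : (1 : ℝ) ≤ u := by exact_mod_cast h1u
  have hsq : s ≤ q * u := by
    refine hsu.le.trans ?_
    rw [hq]
    nlinarith
  have hsqr : (s : ℝ) ≤ q * u := by exact_mod_cast hsq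
  have hbs' : bb hG o s ≤ c * (q * u : ℝ) ^ 5 := hbs.le.trans
    (mul_le_mul_of_nonneg_left (pow_le_pow_left₀ (by positivity) hsqr 5) hc.le)
  obtain ⟨v, hv⟩ : ∃ v : ℕ, v = u / Q := ⟨_, rfl⟩
  have hvu : v ≤ u := by rw [hv]; exact Nat.div_le_self u Q
  have hv1 : 1 ≤ v := by rw [hv]; exact (Nat.le_div_iff_mul_le (by omega)).2 (by omega)
  have hvl : (u : ℝ) / (2 * Q) ≤ v := by rw [hv]; exact div_lower hQ1 h2Q
  have hvh : (v : ℝ) * Q ≤ u := by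
    rw [hv]; exact_mod_cast Nat.div_mul_le_self u Q
  obtain ⟨J, hJ⟩ : ∃ J : ℕ, J = Nat.log 4 (4 * u / N ^ 25) := ⟨_, rfl⟩
  obtain ⟨hJ1, hJ2, hJ3⟩ := log_facts hN1 hNu
  rw [← hJ] at hJ1 hJ2 hJ3
  have hWu : 4 * u ≤ 20 * W * u := Nat.mul_le_mul_right u (by omega)
  have hus' : u < s := by
    have : 2 * u ≤ 20 * W * u := Nat.mul_le_mul_right u (by omega)
    omega
  have h4J : (2 ^ J * N ^ 13) ^ 2 = 4 ^ J * N ^ 25 * N := by
    rw [show (4 : ℕ) = 2 ^ 2 by norm_num, ← pow_mul, mul_pow, ← pow_mul, ← pow_mul, mul_comm J 2]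
    ring
  have hS2 : u * N ≤ (2 ^ J * N ^ 13) ^ 2 := by
    rw [h4J]; exact Nat.mul_le_mul_right N hJ3.le
  have hSv : 2 * (2 ^ J * N ^ 13) ≤ v := by
    have e1 : (2 * (2 ^ J * N ^ 13)) ^ 2 ≤ 16 * u * N := by
      rw [mul_pow, h4J]
      calc 2 ^ 2 * (4 ^ J * N ^ 25 * N) = 4 * (4 ^ J * N ^ 25) * N := by ring
        _ ≤ 4 * (4 * u) * N := Nat.mul_le_mul_right N (Nat.mul_le_mul_left 4 hJ2)
        _ = 16 * u * N := by ring
    have e1' : (((2 * (2 ^ J * N ^ 13) : ℕ)) : ℝ) ^ 2 ≤ 16 * u * N := by exact_mod_cast e1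
    have e2 : (16 : ℝ) * u * N ≤ (u / (2 * Q)) ^ 2 := by
      rw [div_pow, le_div_iff₀ (by positivity)]
      have : (64 : ℝ) * N * Q ^ 2 ≤ u := by exact_mod_cast h64
      have := mul_le_mul_of_nonneg_left this (show (0 : ℝ) ≤ u by positivity)
      linarith
    have e3 : ((u : ℝ) / (2 * Q)) ^ 2 ≤ (v : ℝ) ^ 2 := pow_le_pow_left₀ (by positivity) hvl 2
    have e4 : (((2 * (2 ^ J * N ^ 13) : ℕ)) : ℝ) ≤ v :=
      le_of_sq_le_sq (e1'.trans (e2.trans e3)) (by positivity)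
    exact_mod_cast e4
  have hS1 : 1 ≤ 2 ^ J * N ^ 13 := Nat.one_le_iff_ne_zero.2 (by positivity)
  have hlogu : 0 ≤ Real.log u := Real.log_nonneg hur
  have h4v : 4 * (v : ℝ) * lam ≤ u / (16 * N ^ 10) := by
    rw [le_div_iff₀ (by positivity)]
    have := mul_le_mul_of_nonneg_left hQ64 (show (0 : ℝ) ≤ v by positivity)
    nlinarith
  refine fin_core hG (k := k) (u := u) (v := v) (J := J) (s := s) (p := p) (M := M) (δf := δf)
    hc hlam ht hN hcN hH hbase hgr (by rw [← hW, ← mul_assoc]; exact hus) hv1 hvu hJ1 hJ2 hSv hp0 hp1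
    ?_ hM hδf ?_ ?_ ?_ ?_
  · -- hp
    rw [le_div_iff₀ (bb_pos hG _), ← hW, ← mul_assoc]
    have e1 := hgr u h1u hus'
    have e2 : bb hG o (20 * W * u) ≤ c * (q * u : ℝ) ^ 5 := (bb_mono hG hus).trans hbs'
    calc p * bb hG o (20 * W * u) ≤ p * (c * (q * u : ℝ) ^ 5) := mul_le_mul_of_nonneg_left e2 hp0.le
      _ = c * (u : ℝ) ^ 5 := by rw [hp]; field_simp
      _ ≤ bb hG o u := e1
  · -- hq
    rw [← hW, ← hK]
    have e1 := hgr v hv1 (lt_of_le_of_lt hvu hus')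
    have e2 : c * ((u : ℝ) / (2 * Q)) ^ 5 ≤ bb hG o v := le_trans
      (mul_le_mul_of_nonneg_left (pow_le_pow_left₀ (by positivity) hvl 5) hc.le) e1
    have e3 : 0 < c * ((u : ℝ) / (2 * Q)) ^ 5 := by positivity
    have e4 : 1 / bb hG o v ≤ 1 / (c * ((u : ℝ) / (2 * Q)) ^ 5) := one_div_le_one_div_of_le e3 e2
    refine (mul_le_mul_of_nonneg_left e4 (by positivity)).trans ?_
    have e5 : 4 * (((K * u : ℕ)) : ℝ) ^ 2 * (1 / (c * ((u : ℝ) / (2 * Q)) ^ 5)) =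
        (128 * (K : ℝ) ^ 2 * (Q : ℝ) ^ 5 / c) / (u : ℝ) ^ 3 := by
      push_cast
      field_simp
      ring
    rw [e5, div_le_iff₀ (by positivity)]
    have e6 : 128 * (K : ℝ) ^ 2 * (Q : ℝ) ^ 5 / (c * δf) ≤ u :=
      hu3.le.trans (by exact_mod_cast (by omega : u3 ≤ u))
    rw [div_le_iff₀ (by positivity)] at e6
    have e7 : (u : ℝ) ≤ (u : ℝ) ^ 3 := le_self_pow₀ hur (by norm_num)
    rw [div_le_iff₀ hc]
    have e8 := mul_le_mul_of_nonneg_right e7 (show 0 ≤ c * δf by positivity)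
    linarith
  · -- hra
    have e1 := hgr (2 ^ J * N ^ 13) hS1 (by omega)
    have e0 : (80 / (c * δf)) ^ 2 ≤ u := hu4.le.trans (by exact_mod_cast (by omega : u4 ≤ u))
    obtain ⟨e2, e3⟩ := sqrt_facts hN1 hS2 (by positivity) e0
    have hbb := bb_pos hG (o := o) (2 ^ J * N ^ 13)
    rw [mul_one_div, div_le_iff₀ hbb]
    have e4 : c * ((u : ℝ) ^ 2 * (80 / (c * δf))) ≤ bb hG o (2 ^ J * N ^ 13) :=
      (mul_le_mul_of_nonneg_left e3 hc.le).trans e1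
    have e5 : c * ((u : ℝ) ^ 2 * (80 / (c * δf))) = 80 * (u : ℝ) ^ 2 / δf := by field_simp
    rw [e5, div_le_iff₀ hδ0] at e4
    linarith
  · -- hx
    have e1 : Real.log (bb hG o (4 * u)) ≤ Real.log (c * (q : ℝ) ^ 5) + 5 * Real.log u := by
      have e2 : bb hG o (4 * u) ≤ (c * (q : ℝ) ^ 5) * (u : ℝ) ^ 5 := by
        refine (bb_mono hG (hWu.trans hus)).trans (hbs'.trans (le_of_eq ?_))
        ring
      have e3 := Real.log_le_log (bb_pos hG (4 * u)) e2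
      rw [Real.log_mul (by positivity) (by positivity), Real.log_pow] at e3
      exact_mod_cast e3
    have e4 : Real.log (2 * (2 ^ k * (6 * u))) = Real.log (2 * (2 ^ k * 6)) + Real.log u := by
      rw [← Real.log_mul (by positivity) (by positivity)]
      congr 1; ring
    have e5 := hu1 u (by omega)
    have e6 : (u : ℝ) / N ^ 10 ≤ 4 ^ J * (N : ℝ) ^ 15 := by
      rw [div_le_iff₀ (by positivity)]
      have : (u : ℝ) ≤ 4 ^ J * N ^ 25 := by exact_mod_cast hJ3.le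
      calc (u : ℝ) ≤ 4 ^ J * N ^ 25 := this
        _ = 4 ^ J * (N : ℝ) ^ 15 * N ^ 10 := by ring
    have e7 : 1 / (2 * (N : ℝ) ^ 10) * u = (u / N ^ 10) / 2 := by field_simp
    have e8 : (u : ℝ) / (16 * N ^ 10) = (u / N ^ 10) / 16 := by field_simp
    have e9 : (u : ℝ) / (4 * N ^ 10) = (u / N ^ 10) / 4 := by field_simp
    rw [e4, e9]
    rw [e7, hA1] at e5
    rw [e8] at h4v
    have e10 : 0 ≤ (u : ℝ) / N ^ 10 := by positivity
    linarith
  · -- hfin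
    rw [← hW, ← hK]
    have e1 := hu2 u (by omega)
    have e2 : Real.log (((K * u : ℕ)) : ℝ) = Real.log K + Real.log u := by
      push_cast
      rw [Real.log_mul (by positivity) (by positivity)]
    have e3 : ((4 * v + 19 * (W * u) : ℕ) : ℝ) ≤ 20 * W * u := by
      have : 4 * v + 19 * (W * u) ≤ 20 * W * u := by
        have : 4 * u ≤ W * u := Nat.mul_le_mul_right u (by omega)
        nlinarith
      exact_mod_cast this
    have e4 : ((4 * v + 19 * (W * u) : ℕ) : ℝ) * lam ≤ 20 * W * u * lam :=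
      mul_le_mul_of_nonneg_right e3 hlam.le
    have e5 : (20 * W * lam + 1) * u ≤ 2 ^ k * ((u : ℝ) / (4 * N ^ 10)) := by
      rw [mul_div_assoc', le_div_iff₀ (by positivity)]
      have := mul_le_mul_of_nonneg_right hk' (show (0 : ℝ) ≤ u by positivity)
      linarith
    rw [e2]
    rw [hA2] at e1
    linarith

end Pool.H98.C

end S_H98_C_Fin3

section S_H98_C_Main

set_option autoImplicit false

/-! Locality of the connective constant at transitive graphs whose balls grow at least like `c r ^ 5`. -/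

namespace Pool.H98.C

open Finset Filter Topology Pool.Agent.H61.SW

/-- A transitive unimodular graph with many self-avoiding walks of one fixed length, and with
growth at least `c r ^ 5` up to some fixed radius, has a divergent generating function. -/
theorem one_graph (c lam ε Δ : ℝ) (hc : 0 < c) (hlam : 0 < lam) (hε : 0 < ε) (hΔ : 1 ≤ Δ) :
    ∃ N r0 : ℕ, 1 ≤ N ∧ ∀ (V : Type) [Infinite V] (G : SimpleGraph V) (o : V) (hG : TG G),
    (∀ R, Nonempty (Homog G o R)) → (∀ k, (cnt (sa G) o k : ℝ) ≤ Δ ^ k) →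
    Real.exp (ε * (N : ℝ) ^ 25) ≤ (cnt (sa G) o (N ^ 25) : ℝ) * Real.exp (-lam) ^ (N ^ 25) →
    (∀ r : ℕ, 1 ≤ r → r ≤ r0 → c * (r : ℝ) ^ 5 ≤ bb hG o r) →
    ¬ Summable (fun k : ℕ => (cnt (sa G) o k : ℝ) * Real.exp (-lam) ^ k) := by
  obtain ⟨N1, hN1⟩ := exists_nat_gt (1000 / c)
  obtain ⟨N2, hN2⟩ := exists_nat_gt (100 * (1 + lam) * (1 + Real.log Δ) / ε)
  obtain ⟨N, hN⟩ : ∃ N : ℕ, N = 40000 + N1 + N2 := ⟨_, rfl⟩
  have hN4 : 40000 ≤ N := by omega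
  have hNr : (N : ℝ) = 40000 + N1 + N2 := by rw [hN]; push_cast; ring
  have hcN : 1000 ≤ c * N := by
    rw [div_lt_iff₀ hc] at hN1
    have h2 : (0 : ℝ) ≤ N2 := Nat.cast_nonneg _
    rw [hNr]
    nlinarith
  have hNε : 100 * (1 + lam) * (1 + Real.log Δ) ≤ ε * N := by
    rw [div_lt_iff₀ hε] at hN2
    have h2 : (0 : ℝ) ≤ N1 := Nat.cast_nonneg _
    rw [hNr]
    nlinarith
  obtain ⟨s0, hs0⟩ := case_fin (t := Real.exp (-lam)) hc hlam rfl hN4 hcN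
  refine ⟨N, max s0 (N ^ 8), by omega, fun V _ G o hG hH hcnt hm hgr => ?_⟩
  have h78 : N ^ 7 ≤ N ^ 8 := Nat.pow_le_pow_right (by omega) (by norm_num)
  have h7 : 1 ≤ N ^ 7 := Nat.one_le_iff_ne_zero.2 (by positivity)
  have hbase : ∀ (R : ℕ) (H : Homog G o R), 8 * (4 ^ 1 * N ^ 25) ≤ R →
      ∃ (z : V) (F : Finset (V × List V)) (L : ℕ),
      L + 4 * (2 ^ 1 * N ^ 13) ≤ 4 ^ 1 * N ^ 25 ∧
      Fam hG H (2 ^ 1 * N ^ 13) (1 / N) (2 ^ 1 * N ^ 13) L z (fun _ => True) F ∧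
      Real.exp (4 * (N : ℝ) ^ 15 + (12 * lam + 1) * N ^ 13) ≤ wt (Real.exp (-lam)) F :=
    fun R H hR => base_level hG H hc hlam rfl hN4 hcN hΔ hcnt hNε hm
      (hgr _ h7 (h78.trans (le_max_right _ _))) (hgr _ (h7.trans h78) (le_max_right _ _)) hR
  by_cases hall : ∀ r : ℕ, 1 ≤ r → c * (r : ℝ) ^ 5 ≤ bb hG o r
  · exact case_inf hG hc hlam rfl hN4 hcN hΔ hcnt hH hbase hall
  · push Not at hall
    classical
    have hex : ∃ r : ℕ, 1 ≤ r ∧ bb hG o r < c * (r : ℝ) ^ 5 := hall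
    obtain ⟨h1, h2⟩ := Nat.find_spec hex
    have h3 : ∀ r : ℕ, 1 ≤ r → r < Nat.find hex → c * (r : ℝ) ^ 5 ≤ bb hG o r := by
      intro r hr1 hr2
      have := Nat.find_min hex hr2
      push Not at this
      exact this hr1
    have h4 : s0 ≤ Nat.find hex := by
      by_contra h
      push Not at h
      have := hgr (Nat.find hex) h1 (h.le.trans (le_max_left _ _))
      linarith
    exact hs0 V G o hG hH hbase (Nat.find hex) h4 h3 h2

/-- there are self-avoiding walks of every length -/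
lemma one_le_cnt {V : Type*} {G : SimpleGraph V} [Infinite V] (hG : TG G) (o : V) (n : ℕ) :
    1 ≤ cnt (sa G) o n := by
  obtain ⟨w, hw⟩ := Infinite.exists_notMem_finset (bl hG o n)
  rw [mem_bl] at hw
  have hfin : {s : List V | s.length = n ∧ sa G o s}.Finite := fin_of_imp hG.lf (fun _ _ h => h.1) n o
  have hne : {s : List V | s.length = n ∧ sa G o s}.Nonempty := by
    refine ⟨(geo hG o w).take n, ?_, ?_⟩
    · rw [List.length_take, length_geo]; omega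
    · have h : sa G o (geo hG o w) := ⟨ch_geo hG o w, nodup_geo hG o w⟩
      rw [← List.take_append_drop n (geo hG o w)] at h
      exact sa_append_left h
  exact (Set.ncard_pos hfin).2 hne

lemma one_le_mu {V : Type*} {G : SimpleGraph V} [Infinite V] (hG : TG G) (o : V) {μ : ℝ}
    (hμ : Tendsto (fun n : ℕ => (cnt (sa G) o n : ℝ) ^ ((1 : ℝ) / n)) atTop (𝓝 μ)) : 1 ≤ μ := by
  refine ge_of_tendsto' hμ fun n => ?_
  exact Real.one_le_rpow (by exact_mod_cast one_le_cnt hG o n) (by positivity)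

/-- a divergent generating function bounds the connective constant from below -/
lemma le_of_not_summable {a : ℕ → ℝ} (ha : ∀ n, 0 ≤ a n) {μ t : ℝ} (ht : 0 < t)
    (hμ : Tendsto (fun n : ℕ => a n ^ ((1 : ℝ) / n)) atTop (𝓝 μ))
    (hns : ¬ Summable fun n => a n * t ^ n) : 1 / t ≤ μ := by
  by_contra h
  push Not at h
  obtain ⟨b, hb1, hb2⟩ := exists_between h
  apply hns
  have hμ0 : 0 ≤ μ := ge_of_tendsto' hμ fun n => Real.rpow_nonneg (ha n) _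
  have hb0 : 0 < b := lt_of_le_of_lt hμ0 hb1
  have hbt : b * t < 1 := by rwa [lt_div_iff₀ ht] at hb2
  have hgeo : Summable fun n : ℕ => (b * t) ^ n :=
    summable_geometric_of_lt_one (by positivity) hbt
  have hev : ∀ᶠ n : ℕ in atTop, a n * t ^ n ≤ (b * t) ^ n := by
    filter_upwards [hμ.eventually (gt_mem_nhds hb1), eventually_gt_atTop 0] with n h1 h2
    rw [mul_pow]
    refine mul_le_mul_of_nonneg_right ?_ (by positivity)
    have h3 : a n = (a n ^ ((1 : ℝ) / n)) ^ n := by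
      rw [← Real.rpow_natCast, ← Real.rpow_mul (ha n), one_div_mul_cancel, Real.rpow_one]
      exact_mod_cast h2.ne'
    rw [h3]
    exact pow_le_pow_left₀ (Real.rpow_nonneg (ha n) _) h1.le n
  refine Summable.of_norm_bounded_eventually_nat hgeo ?_
  filter_upwards [hev] with n hn
  rw [Real.norm_of_nonneg (mul_nonneg (ha n) (by positivity))]
  exact hn

/-- the lower bound, for the limit graph given through its counts and ball sizes -/
theorem lower_bound (μ c D : ℝ) (hc : 0 < c) (hD : 1 ≤ D) (C B : ℕ → ℕ)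
    (hC1 : (C 1 : ℝ) ≤ D)
    (hC : ∀ n, μ ^ n ≤ C n) (hB : ∀ r : ℕ, 1 ≤ r → c * (r : ℝ) ^ 5 ≤ B r) (a : ℝ) (ha : a < μ)
    (hμ1 : 0 < μ) :
    ∃ n0 : ℕ, ∀ (V : Type) [Infinite V] (G : SimpleGraph V) (o : V) (m : ℝ), TG G →
    Tendsto (fun n : ℕ => (cnt (sa G) o n : ℝ) ^ ((1 : ℝ) / n)) atTop (𝓝 m) →
    (∀ n, n ≤ n0 → cnt (sa G) o n = C n) →
    (∀ r, r ≤ n0 → Set.ncard {v | G.dist o v ≤ r} = B r) → a < m := by
  obtain ⟨n, hn, L, hL, δ, hδ, hδ1, key⟩ := liminf_arg μ D hD hμ1 B a ha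
  by_cases hμ : μ ≤ 1
  · refine ⟨0, fun V _ G o m hG hm _ _ => ?_⟩
    exact lt_of_lt_of_le (ha.trans_le hμ) (one_le_mu hG o hm)
  push Not at hμ
  obtain ⟨a', ha'⟩ : ∃ a', a' = (max a 1 + μ) / 2 := ⟨_, rfl⟩
  have h1 : max a 1 < μ := max_lt ha hμ
  have h2 : max a 1 < a' := by rw [ha']; linarith
  have h3 : a' < μ := by rw [ha']; linarith
  have h4 : 1 < a' := (le_max_right _ _).trans_lt h2
  have h5 : a < a' := (le_max_left _ _).trans_lt h2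
  obtain ⟨lam, hlam⟩ : ∃ lam, lam = Real.log a' := ⟨_, rfl⟩
  have hlam0 : 0 < lam := by rw [hlam]; exact Real.log_pos h4
  obtain ⟨ε, hε⟩ : ∃ ε, ε = Real.log μ - lam := ⟨_, rfl⟩
  have hε0 : 0 < ε := by
    rw [hε, hlam, sub_pos]; exact Real.log_lt_log (by linarith) h3
  obtain ⟨N, r0, hN1, hmain⟩ := one_graph c lam ε D hc hlam0 hε0 hD
  refine ⟨n + 1 + L + N ^ 25 + r0, fun V _ G o m hG hm hcC hbB => ?_⟩
  have heq : ∀ v k, cnt (sa G) v k = cnt (sa G) o k := fun v k => cnt_eq hG v k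
  have hcnt : ∀ k, (cnt (sa G) o k : ℝ) ≤ D ^ k := by
    intro k
    have h6 : (cnt (sa G) o 1 : ℝ) ≤ D := by rw [hcC 1 (by omega)]; exact hC1
    have h7 := sigma_pow hG.lf o heq 1 k
    rw [mul_one] at h7
    have h8 : (cnt (sa G) o k : ℝ) ≤ (cnt (sa G) o 1 : ℝ) ^ k := by exact_mod_cast h7
    exact h8.trans (pow_le_pow_left₀ (by positivity) h6 k)
  by_cases huni : ∀ x y, (orb G x y).ncard = (orb G y x).ncard
  · have hns := hmain V G o hG (fun R => exists_homog hG o huni R) hcnt (by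
      rw [hcC _ (by omega)]
      have e1 : Real.exp (ε * (N : ℝ) ^ 25) = μ ^ (N ^ 25) * Real.exp (-lam) ^ (N ^ 25) := by
        rw [← mul_pow]
        have : μ * Real.exp (-lam) = Real.exp ε := by
          rw [hε, Real.exp_sub, Real.exp_log hμ1, Real.exp_neg, div_eq_mul_inv]
        rw [this, ← Real.exp_nat_mul]
        congr 1
        push_cast
        ring
      rw [e1]
      exact mul_le_mul_of_nonneg_right (hC _) (by positivity)) (by
      intro r hr1 hr2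
      have e2 : bb hG o r = ((Set.ncard {v | G.dist o v ≤ r} : ℕ) : ℝ) := by
        unfold bb
        rw [card_bl_ncard]
      rw [e2, hbB r (by omega)]
      exact hB r hr1)
    have h7 := le_of_not_summable (fun k => Nat.cast_nonneg _) (Real.exp_pos _) hm hns
    have h8 : 1 / Real.exp (-lam) = a' := by
      rw [Real.exp_neg, one_div, inv_inv, hlam, Real.exp_log (by linarith)]
    rw [h8] at h7
    linarith
  · obtain ⟨h, hh⟩ := hasHeight_of_not_uni hG huni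
    obtain ⟨t, ht, hb⟩ := height_bound hG.lf hG.conn o hm (h := h) hh δ hδ hδ1 L hL n
    have hm0 : 0 ≤ m := zero_le_one.trans (one_le_mu hG o hm)
    refine key m hm0 ?_ t (by rw [← hbB L (by omega)]; exact ht) ?_
    · have h9 := mu_pow_le hG.lf o heq hm 1 one_pos
      rw [Nat.cast_one, div_one, Real.rpow_one] at h9
      exact h9.trans (by simpa using hcnt 1)
    · refine le_trans ?_ hb
      rw [hcC n (by omega)]
      exact hC n

end Pool.H98.C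

end S_H98_C_Main
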