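import Mathlib
import Pool.Agent.H61.LC.L1
import Pool.Agent.H61.LC.L2
import Pool.Agent.H61.LC.L3

set_option autoImplicit false

/-! Locality of connective constants, part L5: this file joins several modules to save build time. -/

section S_H61_ST_LI

set_option autoImplicit false

/-! Rooted isomorphisms of balls of two graphs, and what they preserve. -/

namespace Pool.H61.ST

open Finset Pool.Agent.H61.SW Pool.H98.C

variable {V V' : Type} {G : SimpleGraph V} {G' : SimpleGraph V'} {o : V} {o' : V'} {r : ℕ}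

/-- rooted isomorphism between the balls of radius `r` about `o` and `o'` -/
structure LI (G : SimpleGraph V) (o : V) (G' : SimpleGraph V') (o' : V') (r : ℕ) where
  f : V → V'
  f' : V' → V
  fo : f o = o'
  fo' : f' o' = o
  mem : ∀ x, G.dist o x ≤ r → G'.dist o' (f x) ≤ r
  mem' : ∀ y, G'.dist o' y ≤ r → G.dist o (f' y) ≤ r
  inv : ∀ x, G.dist o x ≤ r → f' (f x) = x
  inv' : ∀ y, G'.dist o' y ≤ r → f (f' y) = y
  adj : ∀ x y, G.dist o x ≤ r → G.dist o y ≤ r → G.Adj x y → G'.Adj (f x) (f y)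
  adj' : ∀ x y, G'.dist o' x ≤ r → G'.dist o' y ≤ r → G'.Adj x y → G.Adj (f' x) (f' y)

namespace LI

/-- the inverse isomorphism -/
def symm (I : LI G o G' o' r) : LI G' o' G o r where
  f := I.f'
  f' := I.f
  fo := I.fo'
  fo' := I.fo
  mem := I.mem'
  mem' := I.mem
  inv := I.inv'
  inv' := I.inv
  adj := I.adj'
  adj' := I.adj

lemma inj (I : LI G o G' o' r) {x y : V} (hx : G.dist o x ≤ r) (hy : G.dist o y ≤ r)
    (h : I.f x = I.f y) : x = y := by
  rw [← I.inv x hx, ← I.inv y hy, h]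

/-- walks inside the ball are mapped to walks -/
lemma ch (I : LI G o G' o' r) (x : V) (s : List V) (hs : ∀ v ∈ x :: s, G.dist o v ≤ r)
    (h : ch G x s) : Pool.Agent.H61.SW.ch G' (I.f x) (s.map I.f) := by
  induction s generalizing x with
  | nil => trivial
  | cons a s ih =>
    exact ⟨I.adj _ _ (hs x (by simp)) (hs a (by simp)) h.1,
      ih a (fun v hv => hs v (List.mem_cons_of_mem _ hv)) h.2⟩

lemma sa (I : LI G o G' o' r) (x : V) (s : List V) (hs : ∀ v ∈ x :: s, G.dist o v ≤ r)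
    (h : sa G x s) : Pool.Agent.H61.SW.sa G' (I.f x) (s.map I.f) := by
  refine ⟨I.ch x s hs h.1, ?_⟩
  show (List.map I.f (x :: s)).Nodup
  exact h.2.map_on fun a ha b hb hab => I.inj (hs a ha) (hs b hb) hab

/-- distances do not increase as long as a geodesic stays in the ball -/
lemma dist_le (I : LI G o G' o' r) (hG : TG G) {x y : V}
    (h : G.dist o x + G.dist x y ≤ r) : G'.dist (I.f x) (I.f y) ≤ G.dist x y := by
  have h1 : ∀ v ∈ x :: geo hG x y, G.dist o v ≤ r := by
    intro v hv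
    have h2 : G.dist x v ≤ G.dist x y := by
      rcases List.mem_cons.1 hv with rfl | hv
      · simp
      · exact mem_geo_dist hG hv
    have := hG.tri o x v
    omega
  have h3 := dist_en_le (I.f x) _ (I.ch x _ h1 (ch_geo hG x y))
  rw [en_map, en_geo, List.length_map, length_geo] at h3
  exact h3

lemma dist_root (I : LI G o G' o' r) (hG : TG G) (hG' : TG G') {x : V}
    (h : G.dist o x ≤ r) : G'.dist o' (I.f x) = G.dist o x := by
  have h1 : G'.dist o' (I.f x) ≤ G.dist o x := by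
    have := I.dist_le hG (x := o) (y := x) (by simpa using h)
    rwa [I.fo] at this
  refine le_antisymm h1 ?_
  have h2 := I.symm.dist_le hG' (x := o') (y := I.f x) (by
    rw [SimpleGraph.dist_self, zero_add]; exact h1.trans h)
  have h3 : I.symm.f o' = o := I.fo'
  have h4 : I.symm.f (I.f x) = x := I.inv x h
  rwa [h3, h4] at h2

lemma dist_root' (I : LI G o G' o' r) (hG : TG G) (hG' : TG G') {y : V'}
    (h : G'.dist o' y ≤ r) : G.dist o (I.f' y) = G'.dist o' y :=
  I.symm.dist_root hG' hG h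

/-- distances are preserved deep inside the ball -/
lemma dist_eq (I : LI G o G' o' r) (hG : TG G) (hG' : TG G') {x y : V}
    (h : 2 * G.dist o x + G.dist o y ≤ r) : G'.dist (I.f x) (I.f y) = G.dist x y := by
  have hx : G.dist o x ≤ r := by omega
  have hy : G.dist o y ≤ r := by omega
  have h1 : G.dist x y ≤ G.dist o x + G.dist o y := by
    have := hG.tri x o y
    rwa [SimpleGraph.dist_comm (u := x) (v := o)] at this
  refine le_antisymm (I.dist_le hG (by omega)) ?_
  have h2 : G'.dist (I.f x) (I.f y) ≤ G.dist o x + G.dist o y := by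
    have := hG'.tri (I.f x) o' (I.f y)
    rw [SimpleGraph.dist_comm (u := I.f x) (v := o'), I.dist_root hG hG' hx,
      I.dist_root hG hG' hy] at this
    exact this
  have h3 := I.symm.dist_le hG' (x := I.f x) (y := I.f y) (by
    rw [I.dist_root hG hG' hx]; omega)
  have h4 : I.symm.f (I.f x) = x := I.inv x hx
  have h5 : I.symm.f (I.f y) = y := I.inv y hy
  rwa [h4, h5] at h3

/-- a smaller radius -/
def mono (I : LI G o G' o' r) (hG : TG G) (hG' : TG G') {r' : ℕ} (h : r' ≤ r) :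
    LI G o G' o' r' where
  f := I.f
  f' := I.f'
  fo := I.fo
  fo' := I.fo'
  mem := fun x hx => by rw [I.dist_root hG hG' (hx.trans h)]; exact hx
  mem' := fun y hy => by rw [I.dist_root' hG hG' (hy.trans h)]; exact hy
  inv := fun x hx => I.inv x (hx.trans h)
  inv' := fun y hy => I.inv' y (hy.trans h)
  adj := fun x y hx hy => I.adj x y (hx.trans h) (hy.trans h)
  adj' := fun x y hx hy => I.adj' x y (hx.trans h) (hy.trans h)

/-- composition with automorphisms changes the roots -/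
noncomputable def reroot (I : LI G o G' o' r) (hG : TG G) (hG' : TG G') (z : V) (z' : V') :
    LI G z G' z' r where
  f := fun x => tau hG' o' z' (I.f ((tau hG o z).symm x))
  f' := fun y => tau hG o z (I.f' ((tau hG' o' z').symm y))
  fo := by
    have : (tau hG o z).symm z = o := by
      have := (tau hG o z).symm_apply_apply o
      rwa [tau_apply] at this
    rw [this, I.fo, tau_apply]
  fo' := by
    have : (tau hG' o' z').symm z' = o' := by
      have := (tau hG' o' z').symm_apply_apply o'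
      rwa [tau_apply] at this
    rw [this, I.fo', tau_apply]
  mem := fun x hx => by
    have h1 : G.dist o ((tau hG o z).symm x) = G.dist z x := by
      rw [← dist_iso hG.conn (tau hG o z), tau_apply]; simp
    have h2 := I.mem ((tau hG o z).symm x) (by rw [h1]; exact hx)
    rw [← dist_iso hG'.conn (tau hG' o' z'), tau_apply] at h2
    exact h2
  mem' := fun y hy => by
    have h1 : G'.dist o' ((tau hG' o' z').symm y) = G'.dist z' y := by
      rw [← dist_iso hG'.conn (tau hG' o' z'), tau_apply]; simp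
    have h2 := I.mem' ((tau hG' o' z').symm y) (by rw [h1]; exact hy)
    rw [← dist_iso hG.conn (tau hG o z), tau_apply] at h2
    exact h2
  inv := fun x hx => by
    have h1 : G.dist o ((tau hG o z).symm x) = G.dist z x := by
      rw [← dist_iso hG.conn (tau hG o z), tau_apply]; simp
    rw [RelIso.symm_apply_apply, I.inv _ (by rw [h1]; exact hx), RelIso.apply_symm_apply]
  inv' := fun y hy => by
    have h1 : G'.dist o' ((tau hG' o' z').symm y) = G'.dist z' y := by
      rw [← dist_iso hG'.conn (tau hG' o' z'), tau_apply]; simp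
    rw [RelIso.symm_apply_apply, I.inv' _ (by rw [h1]; exact hy), RelIso.apply_symm_apply]
  adj := fun x y hx hy h => by
    have h1 : ∀ x, G.dist o ((tau hG o z).symm x) = G.dist z x := fun x => by
      rw [← dist_iso hG.conn (tau hG o z), tau_apply]; simp
    exact (tau hG' o' z').map_adj_iff.2 (I.adj _ _ (by rw [h1]; exact hx) (by rw [h1]; exact hy)
      ((tau hG o z).symm.map_adj_iff.2 h))
  adj' := fun x y hx hy h => by
    have h1 : ∀ y, G'.dist o' ((tau hG' o' z').symm y) = G'.dist z' y := fun y => by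
      rw [← dist_iso hG'.conn (tau hG' o' z'), tau_apply]; simp
    exact (tau hG o z).map_adj_iff.2 (I.adj' _ _ (by rw [h1]; exact hx) (by rw [h1]; exact hy)
      ((tau hG' o' z').symm.map_adj_iff.2 h))

/-- equal ball sizes -/
lemma card_bl (I : LI G o G' o' r) (hG : TG G) (hG' : TG G') {s : ℕ} (hs : s ≤ r) :
    (bl hG' o' s).card = (bl hG o s).card := by
  symm
  refine Finset.card_bij' (fun x _ => I.f x) (fun y _ => I.f' y) ?_ ?_ ?_ ?_
  · intro x hx
    rw [mem_bl] at hx ⊢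
    rw [I.dist_root hG hG' (hx.trans hs)]; exact hx
  · intro y hy
    rw [mem_bl] at hy ⊢
    rw [I.dist_root' hG hG' (hy.trans hs)]; exact hy
  · intro x hx
    rw [mem_bl] at hx
    exact I.inv x (hx.trans hs)
  · intro y hy
    rw [mem_bl] at hy
    exact I.inv' y (hy.trans hs)

lemma bb_eq (I : LI G o G' o' r) (hG : TG G) (hG' : TG G') {s : ℕ} (hs : s ≤ r) :
    bb hG' o' s = bb hG o s := by
  unfold bb
  rw [I.card_bl hG hG' hs]

/-- equal numbers of short self-avoiding walks -/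
lemma cnt_sa (I : LI G o G' o' r) (hG : TG G) (hG' : TG G') {n : ℕ} (hn : n ≤ r) :
    cnt (Pool.Agent.H61.SW.sa G') o' n = cnt (Pool.Agent.H61.SW.sa G) o n := by
  refine le_antisymm ?_ ?_
  · exact cnt_sa_le_of_ball o' o n hG.lf I.f' I.fo'
      (fun x y hx hy h => I.adj' x y (hx.trans hn) (hy.trans hn) h)
      (fun x y hx hy h => I.symm.inj (hx.trans hn) (hy.trans hn) h)
  · exact cnt_sa_le_of_ball o o' n hG'.lf I.f I.fo
      (fun x y hx hy h => I.adj x y (hx.trans hn) (hy.trans hn) h)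
      (fun x y hx hy h => I.inj (hx.trans hn) (hy.trans hn) h)

/-- from an isomorphism of the induced balls -/
theorem of_iso (o : V) (o' : V') (r : ℕ)
    (φ : G'.induce {v : V' | G'.dist o' v ≤ r} ≃g G.induce {v : V | G.dist o v ≤ r})
    (hφ : ∀ x : ↥{v : V' | G'.dist o' v ≤ r}, (x : V') = o' →
          ((φ x : ↥{v : V | G.dist o v ≤ r}) : V) = o) : Nonempty (LI G o G' o' r) := by
  classical
  have h0 : G.dist o o ≤ r := by simp
  have h0' : G'.dist o' o' ≤ r := by simp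
  have e1 : φ ⟨o', h0'⟩ = ⟨o, h0⟩ := Subtype.ext (hφ _ rfl)
  have e2 : φ.symm ⟨o, h0⟩ = ⟨o', h0'⟩ := by rw [← e1]; exact φ.symm_apply_apply _
  refine ⟨{
    f := fun x => if hx : G.dist o x ≤ r then (φ.symm ⟨x, hx⟩ : V') else o'
    f' := fun y => if hy : G'.dist o' y ≤ r then (φ ⟨y, hy⟩ : V) else o
    fo := ?_
    fo' := ?_
    mem := ?_
    mem' := ?_
    inv := ?_
    inv' := ?_
    adj := ?_
    adj' := ?_ }⟩
  · rw [dif_pos h0, e2]
  · rw [dif_pos h0', e1]
  · intro x hx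
    rw [dif_pos hx]
    exact (φ.symm ⟨x, hx⟩).2
  · intro y hy
    rw [dif_pos hy]
    exact (φ ⟨y, hy⟩).2
  · intro x hx
    have h1 : G'.dist o' (φ.symm ⟨x, hx⟩ : V') ≤ r := (φ.symm ⟨x, hx⟩).2
    rw [dif_pos hx, dif_pos h1]
    simp
  · intro y hy
    have h1 : G.dist o (φ ⟨y, hy⟩ : V) ≤ r := (φ ⟨y, hy⟩).2
    rw [dif_pos hy, dif_pos h1]
    simp
  · intro x y hx hy h
    rw [dif_pos hx, dif_pos hy]
    have h1 : (G.induce {v : V | G.dist o v ≤ r}).Adj ⟨x, hx⟩ ⟨y, hy⟩ := h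
    exact φ.symm.map_adj_iff.2 h1
  · intro x y hx hy h
    rw [dif_pos hx, dif_pos hy]
    have h1 : (G'.induce {v : V' | G'.dist o' v ≤ r}).Adj ⟨x, hx⟩ ⟨y, hy⟩ := h
    exact φ.map_adj_iff.2 h1

end LI

end Pool.H61.ST

end S_H61_ST_LI

section S_H61_ST_Const

set_option autoImplicit false

/-! Constants of a height structure: step size, Lipschitz constant, monotone rays. -/

namespace Pool.H61.ST

open Finset Pool.Agent.H61.SW Pool.H98.C

variable {V : Type} {G : SimpleGraph V}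

/-- finitely many orbit representatives for a subgroup of finite index -/
lemma exists_reps_const (hG : TG G) (Γ : Subgroup (G ≃g G)) (hfi : Γ.FiniteIndex) (o : V) :
    ∃ S : Finset V, S.Nonempty ∧ ∀ x, ∃ g ∈ Γ, ∃ s ∈ S, g s = x := by
  classical
  have := hfi
  have : Finite ((G ≃g G) ⧸ Γ) := Subgroup.finite_quotient_of_finiteIndex
  have : Fintype ((G ≃g G) ⧸ Γ) := Fintype.ofFinite _
  refine ⟨Finset.univ.image fun q : (G ≃g G) ⧸ Γ => (q.out)⁻¹ o, ?_, fun x => ?_⟩
  · exact Finset.univ_nonempty.image _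
  · obtain ⟨φ, hφ⟩ := hG.tr o x
    set a : G ≃g G := ((φ⁻¹ : G ≃g G) : (G ≃g G) ⧸ Γ).out with ha
    have h1 : a⁻¹ * φ⁻¹ ∈ Γ := by
      rw [← QuotientGroup.eq, ha, QuotientGroup.out_eq']
    refine ⟨(a⁻¹ * φ⁻¹)⁻¹, Γ.inv_mem h1, a⁻¹ o, ?_, ?_⟩
    · exact Finset.mem_image.2 ⟨_, Finset.mem_univ _, rfl⟩
    · rw [mul_inv_rev, inv_inv, inv_inv, RelIso.mul_apply]
      have : a (a⁻¹ o) = o := RelIso.apply_inv_self a o
      rw [this, hφ]

/-- a uniform positive step and a Lipschitz constant -/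
theorem exists_consts (hG : TG G) (hs : HS G) (o : V) : ∃ c0 Lp : ℝ, 0 < c0 ∧ 0 < Lp ∧
    (∀ x, ∃ y, G.Adj x y ∧ hs.u x + c0 ≤ hs.u y) ∧ (∀ x, ∃ y, G.Adj x y ∧ hs.u y + c0 ≤ hs.u x) ∧
    (∀ x y, G.Adj x y → |hs.u x - hs.u y| ≤ Lp) := by
  classical
  obtain ⟨S, hSne, hS⟩ := exists_reps_const hG hs.Γ hs.fi o
  choose up hup1 hup2 using hs.up
  choose dn hdn1 hdn2 using hs.dn
  have equi' : ∀ g ∈ hs.Γ, ∀ x y, hs.u (g x) - hs.u (g y) = hs.u x - hs.u y := by
    intro g hg x y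
    rw [hs.equi g hg, hs.equi g hg]; ring
  obtain ⟨s1, hs1, hmin1⟩ := S.exists_min_image (fun s => hs.u (up s) - hs.u s) hSne
  obtain ⟨s2, hs2, hmin2⟩ := S.exists_min_image (fun s => hs.u s - hs.u (dn s)) hSne
  refine ⟨min (hs.u (up s1) - hs.u s1) (hs.u s2 - hs.u (dn s2)),
    1 + ∑ s ∈ S, ∑ y ∈ nb hG s, |hs.u s - hs.u y|, ?_, ?_, ?_, ?_, ?_⟩
  · exact lt_min (sub_pos.2 (hup2 s1)) (sub_pos.2 (hdn2 s2))
  · positivity
  · intro x
    obtain ⟨g, hg, s, hs', rfl⟩ := hS x
    refine ⟨g (up s), g.map_adj_iff.2 (hup1 s), ?_⟩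
    have h1 := hmin1 s hs'
    have h2 := equi' g hg (up s) s
    have h3 := min_le_left (hs.u (up s1) - hs.u s1) (hs.u s2 - hs.u (dn s2))
    linarith
  · intro x
    obtain ⟨g, hg, s, hs', rfl⟩ := hS x
    refine ⟨g (dn s), g.map_adj_iff.2 (hdn1 s), ?_⟩
    have h1 := hmin2 s hs'
    have h2 := equi' g hg s (dn s)
    have h3 := min_le_right (hs.u (up s1) - hs.u s1) (hs.u s2 - hs.u (dn s2))
    linarith
  · intro x y hxy
    obtain ⟨g, hg, s, hs', rfl⟩ := hS x
    have h1 : G.Adj s (g.symm y) := by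
      rw [← g.map_adj_iff, g.apply_symm_apply]; exact hxy
    have h2 := equi' g hg s (g.symm y)
    rw [g.apply_symm_apply] at h2
    rw [h2]
    have h3 : |hs.u s - hs.u (g.symm y)| ≤ ∑ y ∈ nb hG s, |hs.u s - hs.u y| :=
      Finset.single_le_sum (f := fun y => |hs.u s - hs.u y|) (fun _ _ => abs_nonneg _)
        ((mem_nb hG).2 h1)
    have h4 : ∑ y ∈ nb hG s, |hs.u s - hs.u y| ≤ ∑ s ∈ S, ∑ y ∈ nb hG s, |hs.u s - hs.u y| :=
      Finset.single_le_sum (f := fun s => ∑ y ∈ nb hG s, |hs.u s - hs.u y|)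
        (fun _ _ => Finset.sum_nonneg fun _ _ => abs_nonneg _) hs'
    linarith

/-- Lipschitz functions and distances -/
lemma lip_dist (hG : TG G) {w : V → ℝ} {Lp : ℝ} (h : ∀ x y, G.Adj x y → |w x - w y| ≤ Lp)
    (x y : V) : |w x - w y| ≤ Lp * G.dist x y := by
  have key : ∀ (s : List V) (x : V), ch G x s → |w x - w (en x s)| ≤ Lp * s.length := by
    intro s
    induction s with
    | nil => intro x _; simp
    | cons a s ih =>
      intro x hx
      have h1 := h x a hx.1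
      have h2 := ih a hx.2
      rw [en_cons, List.length_cons]
      push_cast
      have h3 : w x - w (en a s) = (w x - w a) + (w a - w (en a s)) := by ring
      rw [h3]
      refine (abs_add_le _ _).trans ?_
      linarith
  have := key (geo hG x y) x (ch_geo hG x y)
  rwa [en_geo, length_geo] at this

/-- rays along which `w` increases by at least `c0` at every step -/
lemma exists_ray {w : V → ℝ} {c0 : ℝ} (hc0 : 0 < c0) (h : ∀ x, ∃ y, G.Adj x y ∧ w x + c0 ≤ w y)
    (l : ℕ) (x : V) : ∃ s : List V, s.length = l ∧ sa G x s ∧ (∀ y ∈ s, w x + c0 ≤ w y) ∧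
      w x + l * c0 ≤ w (en x s) ∧ ∀ y ∈ x :: s, w y ≤ w (en x s) := by
  induction l generalizing x with
  | zero => exact ⟨[], rfl, sa_nil x, by simp, by simp, by simp⟩
  | succ l ih =>
    obtain ⟨y, hy1, hy2⟩ := h x
    obtain ⟨s, h1, h2, h3, h4, h5⟩ := ih y
    have h6 : ∀ z ∈ y :: s, w x + c0 ≤ w z := by
      intro z hz
      rcases List.mem_cons.1 hz with rfl | hz
      · exact hy2
      · have := h3 z hz; linarith
    refine ⟨y :: s, by simp [h1], ⟨⟨hy1, h2.1⟩, ?_⟩, h6, ?_, ?_⟩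
    · rw [List.nodup_cons]
      refine ⟨fun hx => ?_, h2.2⟩
      have := h6 x hx
      linarith
    · rw [en_cons]; push_cast; linarith
    · intro z hz
      rw [en_cons]
      rcases List.mem_cons.1 hz with rfl | hz
      · have := h5 y (by simp)
        linarith
      · exact h5 z hz

end Pool.H61.ST

end S_H61_ST_Const

section S_H61_ST_Pow

set_option autoImplicit false

/-! Powers of a tube family, geometric blocks, transfer to a graph with the same ball. -/

namespace Pool.H61.ST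

open Finset Pool.Agent.H61.SW Pool.H98.C

variable {V : Type} {G : SimpleGraph V}

/-- two self-avoiding walks with the same ends, one a prefix of the other -/
lemma prefix_eq {x : V} {s r : List V} (h : sa G x (s ++ r)) (he : en x (s ++ r) = en x s) :
    r = [] := by
  by_contra hr
  rw [en_append] at he
  have h1 := en_mem (en x s) r hr
  rw [he] at h1
  have h2 : en x s ∈ x :: s := en_mem_cons x s
  have h3 : (x :: s ++ r).Nodup := h.2
  exact List.disjoint_of_nodup_append h3 h2 h1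

/-- concatenations of `n` translates of the walks in `F` -/
noncomputable def pw [DecidableEq V] (g : G ≃g G) (F : Finset (List V)) : ℕ → Finset (List V)
  | 0 => {[]}
  | n + 1 => (F ×ˢ pw g F n).image fun p => p.1 ++ p.2.map g

theorem pw_spec [DecidableEq V] (w : V → ℝ) (g : G ≃g G) (x : V) (F : Finset (List V)) (χ : ℝ)
    (m : ℕ) (hχ : 0 < χ) (hg : ∀ z, w (g z) = w z + χ)
    (hF : ∀ s ∈ F, sa G x s ∧ en x s = g x ∧ s.length ≤ m ∧
      ∀ z ∈ x :: s, z ≠ g x → w x ≤ w z ∧ w z < w (g x)) (n : ℕ) :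
    ∀ s ∈ pw g F n, sa G x s ∧ en x s = (g ^ n) x ∧ s.length ≤ n * m ∧
      w ((g ^ n) x) = w x + n * χ ∧ (∀ z ∈ x :: s, w x ≤ w z ∧ w z ≤ w x + n * χ) ∧
      (∀ z ∈ x :: s, z ≠ (g ^ n) x → w z < w x + n * χ) := by
  induction n with
  | zero =>
    intro s hs
    have : s = [] := by simpa [pw] using hs
    subst this
    refine ⟨sa_nil x, rfl, by simp, by simp, ?_, ?_⟩
    · intro z hz
      have : z = x := by simpa using hz
      subst this
      simp
    · intro z hz h
      have : z = x := by simpa using hz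
      exact absurd this h
  | succ n ih =>
    intro s hs
    simp only [pw, Finset.mem_image, Finset.mem_product, Prod.exists] at hs
    obtain ⟨s1, s2, ⟨h1, h2⟩, rfl⟩ := hs
    obtain ⟨a1, a2, a3, a4⟩ := hF s1 h1
    obtain ⟨b1, b2, b3, b4, b5, b6⟩ := ih s2 h2
    have c1 : sa G (g x) (s2.map g) := (sa_map g x s2).2 b1
    have hgx : w (g x) = w x + χ := hg x
    have hs1 : ∀ z ∈ x :: s1, w x ≤ w z ∧ w z ≤ w x + χ := by
      intro z hz
      by_cases h : z = g x
      · rw [h, hgx]; constructor <;> linarith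
      · have := a4 z hz h; rw [hgx] at this; exact ⟨this.1, this.2.le⟩
    have hs2 : ∀ z ∈ g x :: s2.map g, w x + χ ≤ w z ∧ w z ≤ w x + (n + 1) * χ := by
      intro z hz
      rw [← List.map_cons, List.mem_map] at hz
      obtain ⟨y, hy, rfl⟩ := hz
      have := b5 y hy
      rw [hg y]; constructor <;> linarith
    have hpow : (g ^ (n + 1)) x = g ((g ^ n) x) := by rw [pow_succ', RelIso.mul_apply]
    have hend : en x (s1 ++ s2.map g) = (g ^ (n + 1)) x := by
      rw [en_append, a2, en_map, b2, hpow]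
    have hgn : w ((g ^ (n + 1)) x) = w x + (n + 1 : ℕ) * χ := by
      rw [hpow, hg, b4]; push_cast; ring
    refine ⟨⟨?_, ?_⟩, hend, ?_, hgn, ?_, ?_⟩
    · rw [ch_append, a2]
      exact ⟨a1.1, c1.1⟩
    · show (x :: (s1 ++ s2.map g)).Nodup
      rw [← List.cons_append]
      refine List.Nodup.append a1.2 (List.nodup_cons.1 c1.2).2 ?_
      intro z hz1 hz2
      have e1 := hs2 z (List.mem_cons_of_mem _ hz2)
      by_cases h : z = g x
      · subst h
        exact (List.nodup_cons.1 c1.2).1 hz2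
      · have e2 := a4 z hz1 h
        rw [hgx] at e2
        linarith
    · rw [List.length_append, List.length_map]
      calc s1.length + s2.length ≤ m + n * m := add_le_add a3 b3
        _ = (n + 1) * m := by ring
    · intro z hz
      push_cast
      rw [← List.cons_append, List.mem_append] at hz
      have hn : (0 : ℝ) ≤ n * χ := by positivity
      rcases hz with hz | hz
      · have := hs1 z hz; constructor <;> linarith
      · have := hs2 z (List.mem_cons_of_mem _ hz); constructor <;> linarith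
    · intro z hz hne
      push_cast
      rw [← List.cons_append, List.mem_append] at hz
      have hn : (0 : ℝ) ≤ n * χ := by positivity
      rcases hz with hz | hz
      · by_cases h : z = g x
        · rcases Nat.eq_zero_or_pos n with h0 | h0
          · subst h0
            exact absurd (by simpa using h) hne
          · have : (0 : ℝ) < n * χ := by
              have : (0 : ℝ) < n := by exact_mod_cast h0
              positivity
            rw [h, hgx]; linarith
        · have := a4 z hz h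
          rw [hgx] at this
          linarith
      · rw [List.mem_map] at hz
        obtain ⟨y, hy, rfl⟩ := hz
        have hy' : y ≠ (g ^ n) x := by
          rintro rfl
          exact hne hpow.symm
        have := b6 y (List.mem_cons_of_mem _ hy) hy'
        rw [hg y]; linarith

theorem pw_sum [DecidableEq V] (w : V → ℝ) (g : G ≃g G) (x : V) (F : Finset (List V))
    (m : ℕ) (t : ℝ)
    (hF : ∀ s ∈ F, sa G x s ∧ en x s = g x ∧ s.length ≤ m ∧
      ∀ z ∈ x :: s, z ≠ g x → w x ≤ w z ∧ w z < w (g x)) (n : ℕ) :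
    ∑ s ∈ pw g F n, t ^ s.length = (∑ s ∈ F, t ^ s.length) ^ n := by
  induction n with
  | zero => simp [pw]
  | succ n ih =>
    have hinj : Set.InjOn (fun p : List V × List V => p.1 ++ p.2.map g)
        ((F ×ˢ pw g F n : Finset (List V × List V)) : Set (List V × List V)) := by
      rintro ⟨s, r⟩ h1 ⟨s', r'⟩ h2 h
      rw [Finset.mem_coe, Finset.mem_product] at h1 h2
      obtain ⟨h1s, h1r⟩ := h1
      obtain ⟨h2s, h2r⟩ := h2
      simp only at h h1s h1r h2s h2r
      have key : s = s' := by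
        obtain ⟨a1, a2, -⟩ := hF s h1s
        obtain ⟨b1, b2, -⟩ := hF s' h2s
        rcases List.append_eq_append_iff.1 h with ⟨as, e1, -⟩ | ⟨bs, e1, -⟩
        · have : as = [] := prefix_eq (x := x) (s := s) (by rw [← e1]; exact b1)
            (by rw [← e1, a2, b2])
          rw [e1, this, List.append_nil]
        · have : bs = [] := prefix_eq (x := x) (s := s') (by rw [← e1]; exact a1)
            (by rw [← e1, a2, b2])
          rw [e1, this, List.append_nil]
      subst key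
      have h3 := List.append_cancel_left h
      have h4 : r = r' := List.map_injective_iff.2 g.injective h3
      rw [h4]
    rw [pw, Finset.sum_image hinj, Finset.sum_product, pow_succ', ← ih, Finset.sum_mul_sum]
    refine Finset.sum_congr rfl fun s _ => Finset.sum_congr rfl fun r _ => ?_
    rw [List.length_append, List.length_map, pow_add]

/-- geometric blocks: both ends are far from everything behind the arms -/
structure GBlk (G : SimpleGraph V) (S A L : ℕ) (z : V) (a c b : List V) : Prop where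
  sa : sa G z (a ++ (c ++ b))
  hs : ∀ v ∈ en z a :: (c ++ b), S < G.dist z v
  he : ∀ v ∈ z :: (a ++ c), S < G.dist (en z (a ++ (c ++ b))) v
  qq : 2 * S < G.dist z (en z (a ++ (c ++ b)))
  la : a.length ≤ A
  lb : b.length ≤ A
  ll : (a ++ (c ++ b)).length ≤ L

lemma hit_eq_zero {o : V} {R : ℕ} (hG : TG G) (H : Homog G o R) (S : ℕ) (x : V) (K : List V)
    (h : ∀ v ∈ K, S < G.dist x v) : hit hG H S x K = 0 := by
  refine Pr_false _ fun ω => ?_
  rintro ⟨v, h1, h2⟩
  have h3 := dist_por hG H x ω v (List.mem_cons_of_mem _ h1)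
  have h4 := h v h2
  omega

lemma QQ_eq_zero {o : V} {R : ℕ} (hG : TG G) (H : Homog G o R) (S : ℕ) (x y : V)
    (h : 2 * S < G.dist x y) : QQ hG H S x y = 0 := by
  refine Pr_false _ fun ω => ?_
  rintro ⟨v, h1, h2⟩
  have h3 := dist_por hG H x ω.1 v (List.mem_cons_of_mem _ h1)
  have h4 := dist_por hG H y ω.2 v (List.mem_cons_of_mem _ h2)
  have h5 := hG.tri x v y
  rw [SimpleGraph.dist_comm (u := v) (v := y)] at h5
  omega

lemma GBlk.blk {o : V} {R : ℕ} (hG : TG G) (H : Homog G o R) {S A L : ℕ} {z : V} {a c b : List V}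
    (B : GBlk G S A L z a c b) {δ : ℝ} (hδ : 0 ≤ δ) : Blk hG H S δ A L z a c b where
  sa := B.sa
  hs := by rw [hit_eq_zero hG H S z _ B.hs]; exact hδ
  he := by rw [hit_eq_zero hG H S _ _ B.he]; exact hδ
  qq := by rw [QQ_eq_zero hG H S _ _ B.qq]; exact hδ
  la := B.la
  lb := B.lb
  ll := B.ll

/-- transfer of a geometric block -/
lemma GBlk.map {V' : Type} {G' : SimpleGraph V'} {z : V} {z' : V'} {r S A L : ℕ} (hG : TG G)
    (hG' : TG G') (I : LI G z G' z' r) {a c b : List V} (B : GBlk G S A L z a c b)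
    (hr : 3 * L ≤ r) : GBlk G' S A L z' (a.map I.f) (c.map I.f) (b.map I.f) := by
  have hd : ∀ v ∈ z :: (a ++ (c ++ b)), G.dist z v ≤ L := fun v hv =>
    (dist_mem_ch B.sa.1 hv).trans B.ll
  have hde : ∀ v ∈ z :: (a ++ (c ++ b)), ∀ w ∈ z :: (a ++ (c ++ b)),
      G'.dist (I.f v) (I.f w) = G.dist v w := fun v hv w hw =>
    I.dist_eq hG hG' (by have := hd v hv; have := hd w hw; omega)
  have hz : z ∈ z :: (a ++ (c ++ b)) := by simp
  have hen : en z (a ++ (c ++ b)) ∈ z :: (a ++ (c ++ b)) := en_mem_cons _ _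
  have hsa := I.sa z _ (fun v hv => (hd v hv).trans (by omega)) B.sa
  have h0 := I.fo
  generalize I.f = φ at *
  subst h0
  have e1 : a.map φ ++ (c.map φ ++ b.map φ) = (a ++ (c ++ b)).map φ := by
    rw [List.map_append, List.map_append]
  have e2 : en (φ z) ((a ++ (c ++ b)).map φ) = φ (en z (a ++ (c ++ b))) := by
    rw [en_map]
  have e3 : en (φ z) (a.map φ) = φ (en z a) := by rw [en_map]
  have hea : en z a ∈ z :: (a ++ (c ++ b)) := by
    rcases List.mem_cons.1 (en_mem_cons z a) with h | h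
    · rw [h]; simp
    · exact List.mem_cons_of_mem _ (List.mem_append_left _ h)
  refine ⟨?_, ?_, ?_, ?_, ?_, ?_, ?_⟩
  · rw [e1]
    exact hsa
  · intro v hv
    rw [e3, ← List.map_append, ← List.map_cons, List.mem_map] at hv
    obtain ⟨w, hw, rfl⟩ := hv
    have hw' : w ∈ z :: (a ++ (c ++ b)) := by
      rcases List.mem_cons.1 hw with h | h
      · rw [h]; exact hea
      · exact List.mem_cons_of_mem _ (List.mem_append_right _ h)
    rw [hde z hz w hw']
    exact B.hs w hw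
  · intro v hv
    rw [← List.map_append, ← List.map_cons, List.mem_map] at hv
    obtain ⟨w, hw, rfl⟩ := hv
    have hw' : w ∈ z :: (a ++ (c ++ b)) := by
      rcases List.mem_cons.1 hw with h | h
      · rw [h]; simp
      · rcases List.mem_append.1 h with h | h
        · exact List.mem_cons_of_mem _ (List.mem_append_left _ h)
        · exact List.mem_cons_of_mem _ (List.mem_append_right _ (List.mem_append_left _ h))
    rw [e1, e2, hde _ hen w hw']
    exact B.he w hw
  · rw [e1, e2, hde z hz _ hen]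
    exact B.qq
  · rw [List.length_map]; exact B.la
  · rw [List.length_map]; exact B.lb
  · rw [e1, List.length_map]; exact B.ll

end Pool.H61.ST

end S_H61_ST_Pow

section S_H61_ST_CaseE0

set_option autoImplicit false

/-! Heavy geometric blocks with monotone arms around powers of a tube family. -/

namespace Pool.H61.ST

open Finset Pool.Agent.H61.SW Pool.H98.C

variable {V : Type} {G : SimpleGraph V}

/-- blocks with monotone arms -/
theorem exists_gblk [DecidableEq V] (hG : TG G) (w : V → ℝ) {c0 Lp χ : ℝ} (hc0 : 0 < c0)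
    (hLp : 0 < Lp)
    (hup : ∀ x, ∃ y, G.Adj x y ∧ w x + c0 ≤ w y) (hdn : ∀ x, ∃ y, G.Adj x y ∧ w y + c0 ≤ w x)
    (hlip : ∀ x y, G.Adj x y → |w x - w y| ≤ Lp) (g : G ≃g G) (x : V) (F : Finset (List V))
    (m C1 : ℕ) (hC1 : Lp < c0 * C1) (hχ : 0 < χ) (hg : ∀ z, w (g z) = w z + χ)
    (hF : ∀ s ∈ F, sa G x s ∧ en x s = g x ∧ s.length ≤ m ∧
      ∀ z ∈ x :: s, z ≠ g x → w x ≤ w z ∧ w z < w (g x)) (n N : ℕ) (hn : 1 ≤ n) :
    ∃ (z : V) (a b : List V), en z a = x ∧
      ∀ c ∈ pw g F N, GBlk G n (C1 * n) (2 * (C1 * n) + N * m) z a c b := by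
  obtain ⟨s, s1, s2, s3, s4, s5⟩ := exists_ray (w := fun v => - w v) hc0 (fun x => by
    obtain ⟨y, h1, h2⟩ := hdn x
    exact ⟨y, h1, by linarith⟩) (C1 * n) x
  obtain ⟨b, b1, b2, b3, b4, b5⟩ := exists_ray hc0 hup (C1 * n) ((g ^ N) x)
  refine ⟨en x s, rv x s, b, en_rv x s, fun c hc => ?_⟩
  obtain ⟨c1, c2, c3, c4, c5, c6⟩ := pw_spec w g x F χ m hχ hg hF N c hc
  have hn' : (1 : ℝ) ≤ n := by exact_mod_cast hn
  have hNχ : 0 ≤ (N : ℝ) * χ := by positivity
  have hstep : (n : ℝ) * Lp < (C1 * n : ℕ) * c0 := by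
    push_cast
    have := mul_lt_mul_of_pos_right hC1 (show (0 : ℝ) < n by linarith)
    linarith
  have hCn0 : (0 : ℝ) ≤ (C1 * n : ℕ) * c0 := by positivity
  -- heights
  have hA : ∀ v ∈ en x s :: rv x s, w v ≤ w x ∧ (v ≠ x → w v < w x) := by
    intro v hv
    rw [mem_rv] at hv
    rcases List.mem_cons.1 hv with h | h
    · rw [h]; exact ⟨le_rfl, fun h' => absurd rfl h'⟩
    · have := s3 v h
      exact ⟨by linarith, fun _ => by linarith⟩
  have hB : ∀ v ∈ b, w ((g ^ N) x) < w v := fun v hv => by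
    have := b3 v hv; linarith
  have hC : ∀ v ∈ c, w x ≤ w v ∧ w v ≤ w ((g ^ N) x) ∧ v ≠ x := by
    intro v hv
    have h1 := c5 v (List.mem_cons_of_mem _ hv)
    refine ⟨h1.1, by rw [c4]; exact h1.2, ?_⟩
    rintro rfl
    exact (List.nodup_cons.1 c1.2).1 hv
  have hwz : w (en x s) + (C1 * n : ℕ) * c0 ≤ w x := by linarith
  have hwx : w x ≤ w ((g ^ N) x) := by rw [c4]; linarith
  -- the whole walk
  have hen1 : en (en x s) (rv x s ++ c) = (g ^ N) x := by
    rw [en_append, en_rv, c2]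
  have hend : en (en x s) (rv x s ++ (c ++ b)) = en ((g ^ N) x) b := by
    rw [en_append, en_rv, en_append, c2]
  have hch : ch G (en x s) (rv x s ++ (c ++ b)) := by
    rw [ch_append, en_rv, ch_append, c2]
    exact ⟨ch_rv x s s2.1, c1.1, b2.1⟩
  have hnd : (en x s :: (rv x s ++ (c ++ b))).Nodup := by
    rw [← List.cons_append]
    refine List.Nodup.append ?_ ?_ ?_
    · rw [cons_rv, List.nodup_reverse]; exact s2.2
    · refine List.Nodup.append (List.nodup_cons.1 c1.2).2 (List.nodup_cons.1 b2.2).2 ?_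
      intro v h1 h2
      have := hC v h1
      have := hB v h2
      linarith
    · intro v h1 h2
      have h3 := hA v h1
      rcases List.mem_append.1 h2 with h | h
      · have h4 := hC v h
        have := h3.2 h4.2.2
        linarith
      · have h4 := hB v h
        linarith
  -- far from the low end
  have far : ∀ v, w x ≤ w v → n < G.dist (en x s) v := by
    intro v hv
    by_contra hcon
    push Not at hcon
    have h1 := lip_dist hG hlip (en x s) v
    have h2 : Lp * (G.dist (en x s) v : ℝ) ≤ Lp * n :=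
      mul_le_mul_of_nonneg_left (by exact_mod_cast hcon) hLp.le
    have h3 := (abs_le.1 (h1.trans h2)).1
    linarith
  have far' : ∀ v, w v ≤ w ((g ^ N) x) → n < G.dist (en ((g ^ N) x) b) v := by
    intro v hv
    by_contra hcon
    push Not at hcon
    have h1 := lip_dist hG hlip (en ((g ^ N) x) b) v
    have h2 : Lp * (G.dist (en ((g ^ N) x) b) v : ℝ) ≤ Lp * n :=
      mul_le_mul_of_nonneg_left (by exact_mod_cast hcon) hLp.le
    have h3 := (abs_le.1 (h1.trans h2)).2
    linarith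
  refine ⟨⟨hch, hnd⟩, ?_, ?_, ?_, ?_, ?_, ?_⟩
  · intro v hv
    rw [en_rv] at hv
    refine far v ?_
    rcases List.mem_cons.1 hv with h | h
    · rw [h]
    · rcases List.mem_append.1 h with h | h
      · exact (hC v h).1
      · have := hB v h; linarith
  · intro v hv
    rw [hend]
    refine far' v ?_
    rw [← List.cons_append] at hv
    rcases List.mem_append.1 hv with h | h
    · exact (hA v h).1.trans hwx
    · exact (hC v h).2.1
  · rw [hend]
    by_contra hcon
    push Not at hcon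
    have h1 := lip_dist hG hlip (en x s) (en ((g ^ N) x) b)
    have h2 : Lp * (G.dist (en x s) (en ((g ^ N) x) b) : ℝ) ≤ Lp * (2 * n : ℕ) :=
      mul_le_mul_of_nonneg_left (by exact_mod_cast hcon) hLp.le
    have h3 := (abs_le.1 (h1.trans h2)).1
    push_cast at h3
    push_cast at hstep hwz b4
    linarith
  · rw [length_rv, s1]
  · rw [b1]
  · rw [List.length_append, List.length_append, length_rv, s1, b1]
    omega

/-- the family of blocks transported to another graph -/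
theorem exists_fam [DecidableEq V] {V' : Type} {G' : SimpleGraph V'} {o : V} {o' : V'} {r : ℕ}
    (hG : TG G)
    (hG' : TG G') (I : LI G o G' o' r) (w : V → ℝ) {c0 Lp χ : ℝ} (hc0 : 0 < c0) (hLp : 0 < Lp)
    (hup : ∀ x, ∃ y, G.Adj x y ∧ w x + c0 ≤ w y) (hdn : ∀ x, ∃ y, G.Adj x y ∧ w y + c0 ≤ w x)
    (hlip : ∀ x y, G.Adj x y → |w x - w y| ≤ Lp) (g : G ≃g G) (x : V) (F : Finset (List V))
    (m C1 : ℕ) (hC1 : Lp < c0 * C1) (hχ : 0 < χ) (hg : ∀ z, w (g z) = w z + χ)
    (hF : ∀ s ∈ F, sa G x s ∧ en x s = g x ∧ s.length ≤ m ∧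
      ∀ z ∈ x :: s, z ≠ g x → w x ≤ w z ∧ w z < w (g x)) (t : ℝ)
    (hΛ : Real.exp 1 ≤ ∑ s ∈ F, t ^ s.length) (n N : ℕ) (hn : 1 ≤ n)
    (hr : 3 * (2 * (C1 * n) + N * m) ≤ r) (R : ℕ) (H : Homog G' o' R) :
    ∃ (z : V') (F' : Finset (V' × List V')),
      Fam hG' H n (1 / 40000) (C1 * n) (2 * (C1 * n) + N * m) z (fun _ => True) F' ∧
      Real.exp N ≤ wt t F' := by
  classical
  obtain ⟨z, a, b, ha, hB⟩ := exists_gblk hG w hc0 hLp hup hdn hlip g x F m C1 hC1 hχ hg hF n N hn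
  have I' := I.reroot hG hG' z o'
  refine ⟨o', (pw g F N).image fun c => (I'.f x, c.map I'.f), ?_, ?_⟩
  · intro p hp
    obtain ⟨c, hc, rfl⟩ := Finset.mem_image.1 hp
    refine ⟨a.map I'.f, b.map I'.f, ?_, ?_, trivial⟩
    · show en o' (a.map I'.f) = I'.f x
      have h1 : en (I'.f z) (a.map I'.f) = I'.f x := by rw [en_map, ha]
      have h2 := I'.fo
      generalize I'.f = φ at *
      rw [← h2]; exact h1
    · exact ((hB c hc).map hG hG' I' hr).blk hG' H (by norm_num)
  · have hinj : Set.InjOn (fun c : List V => (I'.f x, c.map I'.f)) ((pw g F N : Finset (List V)) : Set (List V)) := by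
      intro c hc c' hc' h
      have h1 : c.map I'.f = c'.map I'.f := (Prod.ext_iff.1 h).2
      have hball : ∀ c ∈ pw g F N, ∀ v ∈ c, G.dist z v ≤ r := by
        intro c hc v hv
        have B := hB c hc
        have h2 := (dist_mem_ch B.sa.1 (List.mem_cons_of_mem z
          (List.mem_append_right a (List.mem_append_left b hv)))).trans B.ll
        omega
      have key : ∀ (c c' : List V), (∀ v ∈ c, G.dist z v ≤ r) → (∀ v ∈ c', G.dist z v ≤ r) →
          c.map I'.f = c'.map I'.f → c = c' := by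
        intro c
        induction c with
        | nil => intro c' _ _ h; simpa using h.symm
        | cons y c ih =>
          intro c' h3 h4 h5
          cases c' with
          | nil => simp at h5
          | cons y' c' =>
            rw [List.map_cons, List.map_cons, List.cons.injEq] at h5
            rw [I'.inj (h3 y (by simp)) (h4 y' (by simp)) h5.1,
              ih c' (fun v hv => h3 v (List.mem_cons_of_mem _ hv))
                (fun v hv => h4 v (List.mem_cons_of_mem _ hv)) h5.2]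
      exact key c c' (hball c hc) (hball c' hc') h1
    unfold wt
    rw [Finset.sum_image hinj]
    simp only [List.length_map]
    rw [pw_sum w g x F m t hF N]
    calc Real.exp N = (Real.exp 1) ^ N := by rw [← Real.exp_nat_mul, mul_one]
      _ ≤ (∑ s ∈ F, t ^ s.length) ^ N := pow_le_pow_left₀ (Real.exp_pos _).le hΛ N

end Pool.H61.ST

end S_H61_ST_CaseE0

section S_H98_C_Fin4

set_option autoImplicit false

/-! The final stage starting from one family of blocks, for graphs whose balls are doubling at one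
large scale and larger than quadratic. -/

namespace Pool.H98.C

open Finset Pool.Agent.H61.SW

set_option maxHeartbeats 2000000 in
/-- final assembly starting from a family of blocks at an arbitrary scale -/
theorem fin_core2 {V : Type} [Infinite V] {G : SimpleGraph V} {o : V} (hG : TG G)
    {k u v A0 S0 L0 : ℕ} {t lam p M δf X w : ℝ} (hlam : 0 < lam)
    (ht : t = Real.exp (-lam)) (hH : ∀ R, Nonempty (Homog G o R))
    (hfam : ∀ (R : ℕ) (H : Homog G o R), ∃ (z : V) (F : Finset (V × List V)),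
      Fam hG H S0 (1 / 40000) A0 L0 z (fun _ => True) F ∧ Real.exp X ≤ wt t F)
    -- numbers
    (hS1 : 1 ≤ S0) (hv1 : 1 ≤ v) (hvu : v ≤ u) (hA1 : A0 + S0 ≤ v) (hLu : L0 + 4 * S0 ≤ 4 * u)
    (hp0 : 0 < p) (hp1 : p ≤ 1) (hp : p ≤ bb hG o u / bb hG o (20 * ((5 + 4 * k) * u)))
    (hM : M = 12 / p) (hδf : δf = p / (32 * (1 + 2 * M) ^ (k + 1)))
    (hq : 4 * (((5 + 19 * (5 + 4 * k) + 6 * 2 ^ k) * u : ℕ) : ℝ) ^ 2 * (1 / bb hG o v) ≤ δf)
    (hra : 80 * (u : ℝ) ^ 2 * (1 / bb hG o S0) ≤ δf)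
    (hx : 4 * v * lam + (1 + Real.log (bb hG o (4 * u)) - Real.log (p / 2) +
      2 * Real.log (2 * (2 ^ k * (6 * u)))) + w ≤ X)
    (hfin : 2 * Real.log (((5 + 19 * (5 + 4 * k) + 6 * 2 ^ k) * u : ℕ) : ℝ) +
      ((4 * v + 19 * ((5 + 4 * k) * u) : ℕ) : ℝ) * lam <
      Real.log (p / 2) + 2 ^ k * w) :
    ¬ Summable (fun k : ℕ => (cnt (sa G) o k : ℝ) * t ^ k) := by
  have hu1 : 1 ≤ u := hv1.trans hvu
  set e : ℕ := (5 + 4 * k) * u with he
  have heu : 5 * u ≤ e := by rw [he]; exact Nat.mul_le_mul_right _ (by omega)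
  set Y : ℕ := (5 + 19 * (5 + 4 * k) + 6 * 2 ^ k) * u with hY
  have hYe : Y = 5 * u + 19 * e + 2 ^ k * (6 * u) := by rw [hY, he]; ring
  set R : ℕ := 32 * u + (3 * v + 2 ^ k * (6 * u)) + 65 * e with hR
  obtain ⟨H⟩ := hH R
  have ht0 : 0 < t := by rw [ht]; exact Real.exp_pos _
  have ht1 : t ≤ 1 := by rw [ht]; exact Real.exp_le_one_iff.2 (by linarith)
  have hM0 : 0 < M := by rw [hM]; positivity
  have hM1 : (1 : ℝ) ≤ 1 + 2 * M := by linarith
  have hδ0 : 0 < δf := by rw [hδf]; positivity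
  have hpow1 : (1 + 2 * M) ^ (k + 1) * δf = p / 32 := by
    rw [hδf]; field_simp
  have hpow0 : (1 + 2 * M) ^ k * δf ≤ p / 32 := by
    rw [← hpow1]
    exact mul_le_mul_of_nonneg_right (pow_le_pow_right₀ hM1 (by omega)) hδ0.le
  have hδk : δf ≤ (1 + 2 * M) ^ k * δf :=
    le_mul_of_one_le_left hδ0.le (one_le_pow₀ hM1)
  have hu1r : (1 : ℝ) ≤ u := by exact_mod_cast hu1
  have hv1r : (1 : ℝ) ≤ v := by exact_mod_cast hv1
  have hvur : (v : ℝ) ≤ u := by exact_mod_cast hvu
  obtain ⟨z0, F0, l2, l3'⟩ := hfam R H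
  have hbbJ := bb_pos hG (o := o) S0
  -- raise to radius v
  obtain ⟨ω, F1, r1, r2⟩ := raise (S' := v) (δ' := δf) (t := t) (M := 16) hG H ht0
    (by norm_num) hv1 (by omega) z0 (fun _ => True) F0 l2 (by linarith) (by
      refine le_trans ?_ hra
      have a1 : (L0 : ℝ) + 4 * (S0 : ℝ) ≤ 4 * u := by
        exact_mod_cast hLu
      have a0 : (1 : ℝ) ≤ (S0 : ℝ) := by exact_mod_cast hS1
      have a2 : (L0 : ℝ) + 1 + (S0 : ℝ) + v ≤ 5 * u := by linarith
      have a3 : (v : ℝ) * ((L0 : ℝ) + 1 + (S0 : ℝ) + v) ≤ u * (5 * u) :=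
        mul_le_mul hvur a2 (by positivity) (by positivity)
      have a4 : 0 ≤ 1 / bb hG o S0 := by positivity
      have a5 := mul_le_mul_of_nonneg_right a3 a4
      linarith)
  set z := en z0 (por hG H z0 ω.1) with hz
  have r1' : Fam hG H v δf v (L0 + 2 * S0) z (fun _ => True) F1 :=
    r1.mono hG H le_rfl hA1 le_rfl fun _ _ => trivial
  have r3 : Real.exp (X - 1) ≤ wt t F1 :=
    half_exp l3' r2 (wt_nonneg ht0.le _)
  -- common far end
  obtain ⟨z', F2, p1, p2, p3⟩ := pigeon (t := t) hG H r1'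
  have hL1 : L0 + 2 * S0 ≤ 4 * u := by omega
  have hbb4 := bb_pos hG (o := o) (4 * u)
  have p4 : Real.exp (X - 1 - Real.log (bb hG o (4 * u))) ≤ wt t F2 := by
    rw [Real.exp_sub, Real.exp_log hbb4, div_le_iff₀ hbb4]
    refine r3.trans (p3.trans ?_)
    rw [mul_comm]
    exact mul_le_mul_of_nonneg_left (bb_mono hG hL1) (wt_nonneg ht0.le _)
  -- iterate
  set C : ℝ := - Real.log (p / 2) + 4 * v * lam + 2 * Real.log (2 * (2 ^ k * (6 * u))) with hC
  have hlp : Real.log (p / 2) ≤ 0 := Real.log_nonpos (by positivity) (by linarith)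
  have hl2 : 0 ≤ Real.log (2 * (2 ^ k * (6 * u)) : ℝ) := by
    refine Real.log_nonneg ?_
    have h2k : (1 : ℝ) ≤ 2 ^ k := one_le_pow₀ (by norm_num)
    nlinarith
  have hC0 : 0 ≤ C := by
    have : 0 ≤ 4 * v * lam := by positivity
    rw [hC]; linarith
  have hbbu := bb_pos hG (o := o) u
  obtain ⟨z'', F3, L, i1, i2, i3, i4⟩ := ap_iter (u := u) (v := v) (A := v) (k := k) (p := p)
    (M := M) (δf := δf) (x0 := X - 1 - Real.log (bb hG o (4 * u))) (C := C)
    hG H hlam ht hv1 hvu le_rfl hp0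
    (hp.trans (div_le_div_of_nonneg_left hbbu.le (bb_pos hG _) (bb_mono hG (by omega)))) hM hδ0
    (by linarith) (by
      refine le_trans ?_ hq
      have b1 : (2 : ℝ) ^ k * (6 * u) ≤ (Y : ℝ) := by
        have : 2 ^ k * (6 * u) ≤ Y := by omega
        exact_mod_cast this
      have b2 : ((2 : ℝ) ^ k * (6 * u)) ^ 2 ≤ (Y : ℝ) ^ 2 := pow_le_pow_left₀ (by positivity) b1 2
      have b3 : 0 ≤ 1 / bb hG o v := by have := bb_pos hG (o := o) v; positivity
      have b4 : 0 ≤ (Y : ℝ) ^ 2 := by positivity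
      exact mul_le_mul_of_nonneg_right (by linarith) b3) le_rfl (by omega) z
    ⟨z', F2, L0 + 2 * S0, by omega, p1.trans hL1,
      p2.mono hG H le_rfl le_rfl le_rfl fun s hs => ⟨hs.2.1, fun x hx =>
        (hs.2.2 x hx).trans (by omega)⟩, p4⟩ k le_rfl
  -- the exponent
  have hexp : 2 ^ k * w ≤
      2 ^ k * (X - 1 - Real.log (bb hG o (4 * u)) - C) + C := by
    have h1 : w ≤
        X - 1 - Real.log (bb hG o (4 * u)) - C := by
      rw [hC]; linarith
    have h2 : (2 : ℝ) ^ k * w ≤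
      2 ^ k * (X - 1 - Real.log (bb hG o (4 * u)) - C) :=
      mul_le_mul_of_nonneg_left h1 (by positivity)
    linarith
  have i5 : Real.exp (2 ^ k * w) ≤ wt t F3 :=
    (Real.exp_le_exp.2 hexp).trans i4
  have hne : F3.Nonempty := by
    rw [Finset.nonempty_iff_ne_empty]
    rintro rfl
    have : (0 : ℝ) < 0 := (Real.exp_pos _).trans_le (i5.trans (by simp [wt]))
    exact lt_irrefl _ this
  have hbbv := bb_pos hG (o := o) v
  have hβ0 : 0 ≤ 1 / bb hG o v := by positivity
  -- lengths in terms of Y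
  have y1 : 2 * v + 2 * v + (15 * e + 4 * e) + L + 1 + v ≤ Y := by omega
  have y2 : 2 * v + 2 * v + (15 * e + 4 * e) + L + 2 ≤ Y := by omega
  have hYr : (0 : ℝ) ≤ Y := Nat.cast_nonneg Y
  have c1 : ((2 * v + 2 * v + (15 * e + 4 * e) + L + 1 + v : ℕ) : ℝ) ≤ Y := by exact_mod_cast y1
  have c2 : ((L + 1 + v : ℕ) : ℝ) ≤ Y := by exact_mod_cast (by omega : L + 1 + v ≤ Y)
  have c3 : ((L + 1 : ℕ) : ℝ) ≤ Y := by exact_mod_cast (by omega : L + 1 ≤ Y)
  have c4 : ((15 * e + 4 * e : ℕ) : ℝ) ≤ Y := by exact_mod_cast (by omega : 15 * e + 4 * e ≤ Y)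
  have c5 : (v : ℝ) ≤ Y := by exact_mod_cast (by omega : v ≤ Y)
  have c6 : ((2 * v + 2 * v + (15 * e + 4 * e) + L + 1 : ℕ) : ℝ) ≤ Y := by
    exact_mod_cast (by omega : 2 * v + 2 * v + (15 * e + 4 * e) + L + 1 ≤ Y)
  have c7 : ((v + v + (15 * e + 4 * e) : ℕ) : ℝ) ≤ Y := by
    exact_mod_cast (by omega : v + v + (15 * e + 4 * e) ≤ Y)
  push_cast at c1 c2 c3 c4 c6 c7
  refine chain (D := 15 * e) (e := e) (p := p) (M := M) (δ := (1 + 2 * M) ^ k * δf)
    (δ' := (1 + 2 * M) ^ (k + 1) * δf) hG H ht0 ht1 (by positivity) hM0 (by omega) (by omega)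
    le_rfl (by omega) z F3 hne
    (i3.mono hG H le_rfl le_rfl le_rfl fun s hs x hx => (hs.2 x hx).trans (by rw [he]; ring_nf; omega))
    ?_ ?_ ?_ ?_
  · refine hp.trans (div_le_div₀ (bb_pos hG _).le (bb_mono hG (by omega)) (bb_pos hG _)
      (bb_mono hG (by omega)))
  · push_cast
    have d1 : (2 * (v : ℝ) + 2 * v + (15 * e + 4 * e) + L + 1 + v) * (L + 1 + v) ≤ Y * Y :=
      mul_le_mul c1 c2 (by positivity) hYr
    have d2 : (v : ℝ) * (L + 1) ≤ Y * Y := mul_le_mul c5 c3 (by positivity) hYr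
    have d3 : (15 * (e : ℝ) + 4 * e) * (2 * v + 2 * v + (15 * e + 4 * e) + L + 1) ≤ Y * Y :=
      mul_le_mul c4 c6 (by positivity) hYr
    have d4 : (15 * (e : ℝ) + 4 * e) * (L + 1) ≤ Y * Y := mul_le_mul c4 c3 (by positivity) hYr
    have d5 : ((2 * (v : ℝ) + 2 * v + (15 * e + 4 * e) + L + 1 + v) * (L + 1 + v) + v * (L + 1) +
        (15 * e + 4 * e) * (2 * v + 2 * v + (15 * e + 4 * e) + L + 1) +
        (15 * e + 4 * e) * (L + 1)) * (1 / bb hG o v) ≤ δf := by
      refine le_trans (mul_le_mul_of_nonneg_right ?_ hβ0) hq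
      linarith
    have d6 : 1 / M = p / 12 := by rw [hM]; field_simp
    rw [hpow1, d6]
    linarith
  · push_cast
    have d1 : (v : ℝ) * (v + v + (15 * e + 4 * e)) ≤ Y * Y := mul_le_mul c5 c7 (by positivity) hYr
    have d2 : (v : ℝ) * (v + v + (15 * e + 4 * e)) * (1 / bb hG o v) ≤ δf := by
      refine le_trans (mul_le_mul_of_nonneg_right ?_ hβ0) hq
      have : 0 ≤ (Y : ℝ) * Y := by positivity
      linarith
    have d3 : (1 + 2 * M) ^ (k + 1) * δf = (1 + 2 * M) ^ k * δf +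
        M * ((1 + 2 * M) ^ k * δf + (1 + 2 * M) ^ k * δf) := by ring
    rw [d3]
    have d4 : M * ((1 + 2 * M) ^ k * δf + (v : ℝ) * (v + v + (15 * e + 4 * e)) *
        (1 / bb hG o v)) ≤ M * ((1 + 2 * M) ^ k * δf + (1 + 2 * M) ^ k * δf) :=
      mul_le_mul_of_nonneg_left (by linarith) hM0.le
    linarith
  · have e1 : (2 * (v : ℝ) + 2 * v + (((15 * e : ℕ) : ℝ) + 4 * e) + L + 2) ^ 2 ≤ (Y : ℝ) ^ 2 := by
      refine pow_le_pow_left₀ (by positivity) ?_ 2
      exact_mod_cast y2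
    refine lt_of_le_of_lt e1 ?_
    have hY0 : (0 : ℝ) < Y := by exact_mod_cast (by omega : 0 < Y)
    have e2 : (Y : ℝ) ^ 2 = Real.exp (2 * Real.log Y) := by
      rw [two_mul, Real.exp_add, Real.exp_log hY0, sq]
    have e3 : p / 2 * Real.exp (2 ^ k * w) *
        t ^ (2 * v + 2 * v + (15 * e + 4 * e)) =
        Real.exp (Real.log (p / 2) + 2 ^ k * w -
          ((4 * v + 19 * e : ℕ) : ℝ) * lam) := by
      rw [Real.exp_sub, Real.exp_add, Real.exp_log (by positivity), ht, ← Real.exp_nat_mul,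
        mul_neg, Real.exp_neg, div_eq_mul_inv]
      congr 3
      push_cast
      ring_nf
    have e4 : Real.exp (Real.log (p / 2) + 2 ^ k * w -
          ((4 * v + 19 * e : ℕ) : ℝ) * lam) ≤
        p / 2 * wt t F3 * t ^ (2 * v + 2 * v + (15 * e + 4 * e)) := by
      rw [← e3]
      refine mul_le_mul_of_nonneg_right ?_ (by positivity)
      exact mul_le_mul_of_nonneg_left i5 (by positivity)
    refine lt_of_lt_of_le ?_ e4
    rw [e2]
    exact Real.exp_lt_exp.2 (by linarith)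

end Pool.H98.C

end S_H98_C_Fin4

section S_H61_ST_CaseE

set_option autoImplicit false

/-! Limits of polynomial growth along a subsequence but with superquadratic growth. -/

namespace Pool.H61.ST

open Finset Pool.Agent.H61.SW Pool.H98.C

variable {V : Type} {G : SimpleGraph V}

/-- doubling scales -/
lemma exists_doubling (hG : TG G) (o : V) (D : ℕ) (hpg : PG hG o D) (C : ℕ) (hC : 2 ≤ C)
    (n0 : ℕ) : ∃ n ≥ n0, bb hG o (C * n) ≤ (C : ℝ) ^ (D + 1) * bb hG o n := by
  by_contra hcon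
  push Not at hcon
  obtain ⟨n1, hn1⟩ : ∃ n1, n1 = max n0 1 := ⟨_, rfl⟩
  have h1 : 1 ≤ n1 := by omega
  have h0 : n0 ≤ n1 := by omega
  have hCr : (2 : ℝ) ≤ C := by exact_mod_cast hC
  have key : ∀ j : ℕ, ((C : ℝ) ^ (D + 1)) ^ j ≤ bb hG o (C ^ j * n1) := by
    intro j
    induction j with
    | zero => rw [pow_zero]; exact bb_one_le hG _
    | succ j ih =>
      have h2 := hcon (C ^ j * n1) (h0.trans (Nat.le_mul_of_pos_left _ (by positivity)))
      have h3 : C ^ (j + 1) * n1 = C * (C ^ j * n1) := by ring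
      rw [h3, pow_succ']
      exact (mul_le_mul_of_nonneg_left ih (by positivity)).trans h2.le
  obtain ⟨r, hr1, hr2⟩ := hpg ((C * n1) ^ (D + 1))
  have hn1r : n1 ≤ r := by
    refine le_trans ?_ hr1
    calc n1 ≤ C * n1 := Nat.le_mul_of_pos_left _ (by omega)
      _ ≤ (C * n1) ^ (D + 1) := Nat.le_self_pow (by omega) _
  obtain ⟨j, hj⟩ : ∃ j, j = Nat.log C (r / n1) := ⟨_, rfl⟩
  have h2 : C ^ j ≤ r / n1 := by
    rw [hj]; exact Nat.pow_log_le_self C (Nat.div_pos hn1r h1).ne'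
  have h3 : r / n1 < C ^ (j + 1) := by
    rw [hj]; exact Nat.lt_pow_succ_log_self (by omega) _
  have h4 : C ^ j * n1 ≤ r := (Nat.le_div_iff_mul_le h1).1 h2
  have h5 : r < C ^ (j + 1) * n1 := (Nat.div_lt_iff_lt_mul h1).1 h3
  have h6 := (key j).trans (bb_mono hG h4)
  have h7 : bb hG o r ≤ (r : ℝ) ^ D := hr2
  have h8 : (r : ℝ) ^ D ≤ ((C : ℝ) ^ (j + 1) * n1) ^ D :=
    pow_le_pow_left₀ (by positivity) (by exact_mod_cast h5.le) D
  have h9 : ((C : ℝ) ^ (D + 1)) ^ j ≤ ((C : ℝ) ^ (j + 1) * n1) ^ D := h6.trans (h7.trans h8)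
  have h10 : ((C : ℝ) ^ (j + 1) * n1) ^ D = ((C : ℝ) ^ j) ^ D * (C * n1) ^ D := by
    rw [← mul_pow]; ring
  have h11 : ((C : ℝ) ^ (D + 1)) ^ j = ((C : ℝ) ^ j) ^ D * (C : ℝ) ^ j := by
    rw [← pow_mul, ← pow_mul, ← pow_add]; ring_nf
  rw [h10, h11] at h9
  have h12 : (C : ℝ) ^ j ≤ (C * n1) ^ D := le_of_mul_le_mul_left h9 (by positivity)
  have h13 : C ^ j ≤ (C * n1) ^ D := by exact_mod_cast h12
  have h14 : C ^ (j + 1) * n1 ≤ (C * n1) ^ (D + 1) := by
    calc C ^ (j + 1) * n1 = C ^ j * (C * n1) := by ring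
      _ ≤ (C * n1) ^ D * (C * n1) := Nat.mul_le_mul_right _ h13
      _ = (C * n1) ^ (D + 1) := by ring
  omega

theorem case_E (hG : TG G) (o : V) (D : ℕ) (hpg : PG hG o D)
    (hsq : ∀ K : ℝ, ∃ r0 : ℕ, ∀ r : ℕ, r0 ≤ r → K * (r : ℝ) ^ 2 ≤ ((bl hG o r).card : ℝ))
    {lam : ℝ} (hlam : 0 < lam) (hs : HS G) (g : G ≃g G) (hg : g ∈ hs.Γ) (hχ : 0 < hs.χ g)
    (x : V) (F : Finset (List V))
    (hF : ∀ s ∈ F, sa G x s ∧ en x s = g x ∧
      ∀ z ∈ x :: s, z ≠ g x → hs.u x ≤ hs.u z ∧ hs.u z < hs.u (g x))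
    (hΛ : Real.exp 1 ≤ ∑ s ∈ F, Real.exp (-lam) ^ s.length) :
    ∃ r0 : ℕ, ∀ (V' : Type) [Infinite V'] (G' : SimpleGraph V') (o' : V') (_ : TG G'),
    (∀ R, Nonempty (Homog G' o' R)) → LI G o G' o' r0 →
    ¬ Summable (fun k : ℕ => (cnt (sa G') o' k : ℝ) * Real.exp (-lam) ^ k) := by
  classical
  obtain ⟨c0, Lp, hc0, hLp, hup, hdn, hlip⟩ := exists_consts hG hs o
  have hχr : (0 : ℝ) < hs.χ g := by exact_mod_cast hχ
  obtain ⟨m, hm⟩ : ∃ m : ℕ, ∀ s ∈ F, s.length ≤ m := ⟨F.sup List.length, fun s hs =>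
    Finset.le_sup (f := List.length) hs⟩
  obtain ⟨C1, hC1⟩ := exists_nat_gt (Lp / c0)
  have hC1' : Lp < c0 * C1 := by
    rw [div_lt_iff₀ hc0] at hC1; linarith
  obtain ⟨K, hK⟩ := exists_nat_gt (4 * ((C1 : ℝ) + 1) * lam + 2)
  obtain ⟨Cu, hCu⟩ : ∃ Cu : ℕ, Cu = 2 * C1 + K * m + 4 := ⟨_, rfl⟩
  have hCu1 : 1 ≤ Cu := by omega
  obtain ⟨k, hk⟩ := exists_pow_ge ((4 * ((C1 : ℝ) + 1) + 95 * Cu) * lam + 2) (76 * Cu * lam)
  obtain ⟨W, hW⟩ : ∃ W : ℕ, W = 5 + 4 * k := ⟨_, rfl⟩
  have hWr : (W : ℝ) = 5 + 4 * k := by rw [hW]; push_cast; ring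
  obtain ⟨Cd, hCd⟩ : ∃ Cd : ℕ, Cd = 20 * (W * Cu) := ⟨_, rfl⟩
  have hWCu : Cu ≤ W * Cu := Nat.le_mul_of_pos_left _ (by omega)
  have hCd2 : 2 ≤ Cd := by omega
  have hCdr : (2 : ℝ) ≤ Cd := by exact_mod_cast hCd2
  obtain ⟨p, hp⟩ : ∃ p : ℝ, p = 1 / (Cd : ℝ) ^ (D + 1) := ⟨_, rfl⟩
  have hp0 : 0 < p := by rw [hp]; positivity
  have hp1 : p ≤ 1 := by
    rw [hp, div_le_one (by positivity)]
    exact one_le_pow₀ (by linarith)
  obtain ⟨M, hM⟩ : ∃ M : ℝ, M = 12 / p := ⟨_, rfl⟩
  have hM0 : 0 < M := by rw [hM]; positivity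
  obtain ⟨δf, hδf⟩ : ∃ δf : ℝ, δf = p / (32 * (1 + 2 * M) ^ (k + 1)) := ⟨_, rfl⟩
  have hδ0 : 0 < δf := by rw [hδf]; positivity
  obtain ⟨KY, hKY⟩ : ∃ KY : ℕ, KY = (5 + 19 * W + 6 * 2 ^ k) * Cu := ⟨_, rfl⟩
  have hKY1 : 1 ≤ KY := by rw [hKY]; exact Nat.mul_pos (by omega) hCu1
  obtain ⟨r1, hr1⟩ := hsq (4 * (KY : ℝ) ^ 2 / δf + 80 * (Cu : ℝ) ^ 2 / δf)
  -- subexponential growth
  obtain ⟨q, hq⟩ : ∃ q : ℝ, q = Real.exp (1 / (16 * Cu)) := ⟨_, rfl⟩
  have hq1 : 1 < q := by
    rw [hq]; exact Real.one_lt_exp_iff.2 (by positivity)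
  obtain ⟨Cs, hCs0, hCs⟩ := subexp hG o D hpg q hq1
  obtain ⟨n1, hn1⟩ := ev_log (1 + Real.log Cs - Real.log (p / 2) +
    2 * Real.log (2 * (2 ^ k * (6 * Cu)))) 2 (1 / 2) (by norm_num)
  obtain ⟨n2, hn2⟩ := ev_log (2 * Real.log KY - Real.log (p / 2)) 2 (1 / 2) (by norm_num)
  obtain ⟨n, hn, hdoub⟩ := exists_doubling hG o D hpg Cd hCd2 (1 + r1 + n1 + n2)
  have hn1' : 1 ≤ n := by omega
  have hnr : (1 : ℝ) ≤ n := by exact_mod_cast hn1'
  obtain ⟨u, hu⟩ : ∃ u : ℕ, u = Cu * n := ⟨_, rfl⟩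
  have hur : (u : ℝ) = Cu * n := by rw [hu]; push_cast; ring
  obtain ⟨v, hv⟩ : ∃ v : ℕ, v = (C1 + 1) * n := ⟨_, rfl⟩
  have hvr : (v : ℝ) = (C1 + 1) * n := by rw [hv]; push_cast; ring
  have hvu : v ≤ u := by rw [hu, hv]; exact Nat.mul_le_mul_right _ (by omega)
  have hnv : n ≤ v := by rw [hv]; exact Nat.le_mul_of_pos_left _ (by omega)
  have hnu : n ≤ u := hnv.trans hvu
  have hL : 2 * (C1 * n) + K * n * m + 4 * n ≤ 4 * u := by
    have : 2 * (C1 * n) + K * n * m + 4 * n = Cu * n := by rw [hCu]; ring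
    rw [this, hu]; omega
  have h20 : 20 * ((5 + 4 * k) * u) = Cd * n := by rw [hCd, hu, hW]; ring
  have hCrn : Cd * n ≤ Cd * n + 3 * (2 * (C1 * n) + K * n * m) := Nat.le_add_right _ _
  refine ⟨Cd * n + 3 * (2 * (C1 * n) + K * n * m), fun V' _ G' o' hG' hH I => ?_⟩
  have hbb : ∀ s, s ≤ Cd * n → bb hG' o' s = bb hG o s := fun s h =>
    I.bb_eq hG hG' (h.trans hCrn)
  have hle : ∀ a : ℕ, a ≤ Cd → a * n ≤ Cd * n := fun a h => Nat.mul_le_mul_right n h
  have h4u : 4 * u ≤ Cd * n := by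
    rw [hu, ← mul_assoc]
    exact hle _ (by omega)
  have huC : u ≤ Cd * n := by omega
  have hquad : (4 * (KY : ℝ) ^ 2 / δf + 80 * (Cu : ℝ) ^ 2 / δf) * (n : ℝ) ^ 2 ≤ bb hG o n :=
    hr1 n (by omega)
  have hKYu : (5 + 19 * (5 + 4 * k) + 6 * 2 ^ k) * u = KY * n := by rw [hKY, hu, hW]; ring
  refine fin_core2 hG' (k := k) (u := u) (v := v) (A0 := C1 * n) (S0 := n)
    (L0 := 2 * (C1 * n) + K * n * m) (p := p) (M := M) (δf := δf) (X := K * n) (w := n)
    hlam rfl hH ?_ hn1' (hn1'.trans hnv) hvu (by rw [hv]; ring_nf; omega) hL hp0 hp1 ?_ hM hδf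
    ?_ ?_ ?_ ?_
  · intro R H
    obtain ⟨z, F', h1, h2⟩ := exists_fam hG hG' I hs.u hc0 hLp hup hdn hlip g x F m C1 hC1' hχr
      (fun z => hs.equi g hg z) (fun s hs' => ⟨(hF s hs').1, (hF s hs').2.1, hm s hs',
        (hF s hs').2.2⟩) (Real.exp (-lam)) hΛ n (K * n) hn1' (Nat.le_add_left _ _) R H
    refine ⟨z, F', h1, ?_⟩
    push_cast at h2
    exact h2
  · -- hp
    rw [h20, hbb _ le_rfl, hbb _ huC, le_div_iff₀ (bb_pos hG _), hp, one_div, inv_mul_le_iff₀ (by positivity)]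
    exact hdoub.trans (mul_le_mul_of_nonneg_left (bb_mono hG hnu) (by positivity))
  · -- hq
    rw [hKYu, hbb _ (hvu.trans huC)]
    have e1 : bb hG o n ≤ bb hG o v := bb_mono hG hnv
    have e2 : 4 * (KY : ℝ) ^ 2 / δf * (n : ℝ) ^ 2 ≤ bb hG o v := by
      refine le_trans ?_ (hquad.trans e1)
      have : 0 ≤ 80 * (Cu : ℝ) ^ 2 / δf * (n : ℝ) ^ 2 := by positivity
      linarith
    rw [mul_one_div, div_le_iff₀ (bb_pos hG _)]
    rw [div_mul_eq_mul_div, div_le_iff₀ hδ0] at e2
    push_cast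
    linarith
  · -- hra
    rw [hbb n (by omega)]
    have e2 : 80 * (Cu : ℝ) ^ 2 / δf * (n : ℝ) ^ 2 ≤ bb hG o n := by
      refine le_trans ?_ hquad
      have : 0 ≤ 4 * (KY : ℝ) ^ 2 / δf * (n : ℝ) ^ 2 := by positivity
      linarith
    rw [mul_one_div, div_le_iff₀ (bb_pos hG _)]
    rw [div_mul_eq_mul_div, div_le_iff₀ hδ0] at e2
    rw [hur]
    linarith
  · -- hx
    rw [hbb _ h4u]
    have e1 : Real.log (bb hG o (4 * u)) ≤ Real.log Cs + n / 4 := by
      have e2 := Real.log_le_log (bb_pos hG (4 * u)) (hCs (4 * u))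
      rw [Real.log_mul hCs0.ne' (by positivity), Real.log_pow, hq, Real.log_exp] at e2
      have e3 : ((4 * u : ℕ) : ℝ) * (1 / (16 * Cu)) = n / 4 := by
        push_cast
        rw [hur]
        field_simp
        ring
      linarith
    have e4 : Real.log (2 * (2 ^ k * (6 * u))) = Real.log (2 * (2 ^ k * (6 * Cu))) + Real.log n := by
      rw [← Real.log_mul (by positivity) (by positivity), hur]
      congr 1; ring
    have e5 := hn1 n (by omega)
    have e6 : (4 * ((C1 : ℝ) + 1) * lam + 2) * n ≤ K * n :=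
      mul_le_mul_of_nonneg_right hK.le (by positivity)
    rw [e4, hvr]
    linarith
  · -- hfin
    rw [hKYu]
    have e1 := hn2 n (by omega)
    have e2 : Real.log (((KY * n : ℕ)) : ℝ) = Real.log KY + Real.log n := by
      push_cast
      rw [Real.log_mul (by positivity) (by positivity)]
    have e3 : ((4 * v + 19 * ((5 + 4 * k) * u) : ℕ) : ℝ) =
        (4 * ((C1 : ℝ) + 1) + 19 * (5 + 4 * k) * Cu) * n := by
      push_cast
      rw [hvr, hur]
      ring
    have e4 : (4 * ((C1 : ℝ) + 1) + 19 * (5 + 4 * k) * Cu) * lam + 2 ≤ 2 ^ k := by linarith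
    have e5 := mul_le_mul_of_nonneg_right e4 (show (0 : ℝ) ≤ n by positivity)
    rw [e2, e3]
    linarith

end Pool.H61.ST

end S_H61_ST_CaseE
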