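import Mathlib
import Pool.Agent.H61.LC.L1

set_option autoImplicit false

/-! Locality of connective constants, part L6: this file joins several modules to save build time. -/

section S_H61_ST_Low

set_option autoImplicit false

/-! Module LOW: low frequency functions (lazy random walk on finitely supported functions). -/

namespace Pool.H61.ST

open Finset Pool.Agent.H61.SW Pool.H98.C Filter

namespace Low

/-! ### Abstract part: symmetric positive operators -/

section Abs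
variable {W : Type*} [AddCommGroup W] [Module ℝ W]
variable (B : W →ₗ[ℝ] W →ₗ[ℝ] ℝ) (P : W →ₗ[ℝ] W)

/-- moments -/
noncomputable def mo (f : W) (j : ℕ) : ℝ := B ((P ^ j) f) f

variable {B P}

structure Pos (B : W →ₗ[ℝ] W →ₗ[ℝ] ℝ) (P : W →ₗ[ℝ] W) : Prop where
  symm : ∀ f g, B f g = B g f
  sa : ∀ f g, B (P f) g = B f (P g)
  nn : ∀ f, 0 ≤ B f f
  pn : ∀ f, 0 ≤ B (P f) f
  le : ∀ f, B (P f) f ≤ B f f

variable (h : Pos B P)
include h

lemma Pos.sa_pow (n : ℕ) (f g : W) : B ((P ^ n) f) g = B f ((P ^ n) g) := by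
  induction n generalizing f g with
  | zero => simp
  | succ n ih =>
    rw [pow_succ, Module.End.mul_apply, ih, h.sa, ← Module.End.mul_apply, ← pow_succ']
    rfl

lemma Pos.split (a b : ℕ) (f : W) : B ((P ^ a) f) ((P ^ b) f) = mo B P f (a + b) := by
  unfold mo
  rw [← h.sa_pow b, ← Module.End.mul_apply, ← pow_add, add_comm b a]

lemma Pos.mo_nonneg (f : W) (j : ℕ) : 0 ≤ mo B P f j := by
  rcases Nat.even_or_odd' j with ⟨i, rfl | rfl⟩
  · rw [two_mul, ← h.split]; exact h.nn _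
  · rw [show 2 * i + 1 = (i + 1) + i by ring, ← h.split, pow_succ', Module.End.mul_apply]
    exact h.pn _

lemma Pos.mo_anti_succ (f : W) (j : ℕ) : mo B P f (j + 1) ≤ mo B P f j := by
  rcases Nat.even_or_odd' j with ⟨i, rfl | rfl⟩
  · rw [show 2 * i + 1 = (i + 1) + i by ring, show 2 * i = i + i by ring, ← h.split, ← h.split,
      pow_succ', Module.End.mul_apply]
    exact h.le _
  · rw [show 2 * i + 1 + 1 = (i + 1) + (i + 1) by ring, show 2 * i + 1 = (i + 1) + i by ring,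
      ← h.split, ← h.split, pow_succ', Module.End.mul_apply]
    set g := (P ^ i) f
    have h1 := h.le (P g)
    have h2 := h.pn (g - P g)
    have h3 : B (P (g - P g)) (g - P g) = B (P g) g - 2 * B (P g) (P g) + B (P (P g)) (P g) := by
      simp only [map_sub, LinearMap.sub_apply]
      rw [h.sa (P g) g]
      ring
    rw [h3] at h2
    linarith

lemma Pos.mo_anti (f : W) : Antitone (mo B P f) := antitone_nat_of_succ_le (h.mo_anti_succ f)

lemma Pos.mo_convex (f : W) (j : ℕ) :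
    mo B P f (j + 1) - mo B P f (j + 2) ≤ mo B P f j - mo B P f (j + 1) := by
  have h1 := h.mo_nonneg (f - P f) j
  have h2 : mo B P (f - P f) j = mo B P f j - 2 * mo B P f (j + 1) + mo B P f (j + 2) := by
    unfold mo
    have e1 : (P ^ (j + 1)) f = (P ^ j) (P f) := by rw [pow_succ]; rfl
    have e2 : (P ^ (j + 2)) f = (P ^ j) (P (P f)) := by rw [pow_succ, pow_succ]; rfl
    have e3 : B ((P ^ j) f) (P f) = B ((P ^ j) (P f)) f := by
      rw [← h.sa, ← Module.End.mul_apply, ← pow_succ', pow_succ]; rfl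
    have e4 : B ((P ^ j) (P f)) (P f) = B ((P ^ j) (P (P f))) f := by
      rw [← h.sa, ← Module.End.mul_apply, ← pow_succ', pow_succ]; rfl
    simp only [map_sub, LinearMap.sub_apply]
    rw [e1, e2, e3, e4]
    ring
  linarith

lemma Pos.mo_step (f : W) (j : ℕ) :
    mo B P f j - mo B P f (j + 1) ≤ mo B P f 0 - mo B P f 1 := by
  induction j with
  | zero => simp
  | succ j ih => exact (h.mo_convex f j).trans ih

lemma Pos.mo_lower (f : W) (j : ℕ) :
    mo B P f 0 - j * (mo B P f 0 - mo B P f 1) ≤ mo B P f j := by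
  induction j with
  | zero => simp
  | succ j ih =>
    have := h.mo_step f j
    push_cast
    linarith

/-- polarisation: the sequence `B (P^n f) g` converges -/
lemma Pos.exists_lim (f g : W) : ∃ l : ℝ, Tendsto (fun n => B ((P ^ n) f) g) atTop (nhds l) := by
  have key : ∀ u : W, ∃ l : ℝ, Tendsto (fun n => mo B P u n) atTop (nhds l) := fun u =>
    ⟨_, tendsto_atTop_ciInf (h.mo_anti u) ⟨0, by rintro _ ⟨n, rfl⟩; exact h.mo_nonneg u n⟩⟩
  obtain ⟨l1, h1⟩ := key (f + g)
  obtain ⟨l2, h2⟩ := key (f - g)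
  refine ⟨(l1 - l2) / 4, ?_⟩
  refine ((h1.sub h2).div_const 4).congr fun n => ?_
  unfold mo
  have h3 : B ((P ^ n) g) f = B ((P ^ n) f) g := by
    rw [h.sa_pow, h.symm]
  simp only [map_sub, map_add, LinearMap.sub_apply, LinearMap.add_apply]
  rw [h3]
  ring

/-- the telescoping sum -/
lemma Pos.energy (f : W) (n J : ℕ) (hJ : J ≤ n) (δ : ℝ) (h1 : ∀ j < J, δ ≤ mo B P f j - mo B P f (j + n)) :
    J * δ ≤ B (∑ j ∈ range n, (P ^ j) f - P (∑ j ∈ range n, (P ^ j) f))
      (∑ j ∈ range n, (P ^ j) f) := by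
  have e0 : ∑ j ∈ range n, (P ^ j) f - P (∑ j ∈ range n, (P ^ j) f) = f - (P ^ n) f := by
    rw [map_sum, ← Finset.sum_sub_distrib]
    have : ∀ j ∈ range n, (P ^ j) f - P ((P ^ j) f) = (P ^ j) f - (P ^ (j + 1)) f := fun j _ => by
      rw [pow_succ', Module.End.mul_apply]
    rw [Finset.sum_congr rfl this, Finset.sum_range_sub' (fun j => (P ^ j) f)]
    simp
  rw [e0, map_sum]
  have e1 : ∀ j ∈ range n, B (f - (P ^ n) f) ((P ^ j) f) = mo B P f j - mo B P f (j + n) := by
    intro j _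
    have := h.split n j f
    have h2 := h.split 0 j f
    simp only [pow_zero, zero_add, Module.End.one_apply] at h2
    rw [map_sub, LinearMap.sub_apply, this, h2, add_comm n j]
  rw [Finset.sum_congr rfl e1]
  calc (J : ℝ) * δ = ∑ j ∈ range J, δ := by simp
    _ ≤ ∑ j ∈ range J, (mo B P f j - mo B P f (j + n)) :=
        Finset.sum_le_sum fun j hj => h1 j (Finset.mem_range.1 hj)
    _ ≤ ∑ j ∈ range n, (mo B P f j - mo B P f (j + n)) := by
        refine Finset.sum_le_sum_of_subset_of_nonneg (Finset.range_subset_range.2 hJ) fun j _ _ => ?_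
        have := h.mo_anti f (Nat.le_add_right j n)
        linarith

lemma Pos.defect (f : W) (n : ℕ) :
    B (∑ j ∈ range n, (P ^ j) f - P (∑ j ∈ range n, (P ^ j) f))
      (∑ j ∈ range n, (P ^ j) f - P (∑ j ∈ range n, (P ^ j) f)) ≤ mo B P f 0 := by
  have e0 : ∑ j ∈ range n, (P ^ j) f - P (∑ j ∈ range n, (P ^ j) f) = f - (P ^ n) f := by
    rw [map_sum, ← Finset.sum_sub_distrib]
    have : ∀ j ∈ range n, (P ^ j) f - P ((P ^ j) f) = (P ^ j) f - (P ^ (j + 1)) f := fun j _ => by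
      rw [pow_succ', Module.End.mul_apply]
    rw [Finset.sum_congr rfl this, Finset.sum_range_sub' (fun j => (P ^ j) f)]
    simp
  rw [e0]
  have h1 := h.split 0 0 f
  have h2 := h.split n 0 f
  have h3 := h.split 0 n f
  have h4 := h.split n n f
  simp only [pow_zero, zero_add, add_zero, Module.End.one_apply] at h1 h2 h3
  simp only [map_sub, LinearMap.sub_apply]
  rw [h1, h2, h3, h4]
  have h5 := h.mo_anti f (Nat.le_add_right n n)
  have h6 := h.mo_nonneg f n
  linarith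

end Abs

/-! ### The lazy random walk -/

section Walk
open Classical
variable {V : Type} {G : SimpleGraph V} (hG : TG G)

/-- inner product of finitely supported functions -/
noncomputable def ip : (V →₀ ℝ) →ₗ[ℝ] (V →₀ ℝ) →ₗ[ℝ] ℝ :=
  Finsupp.lsum ℝ (fun x => LinearMap.toSpanSingleton ℝ _ (Finsupp.lapply x))

lemma ip_apply (f g : V →₀ ℝ) : ip f g = f.sum fun x a => a * g x := by
  simp [ip, Finsupp.sum, LinearMap.sum_apply]

lemma ip_eq (f g : V →₀ ℝ) (S : Finset V) (h : f.support ⊆ S) :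
    ip f g = ∑ x ∈ S, f x * g x := by
  rw [ip_apply, Finsupp.sum_of_support_subset _ h _ (by simp)]

lemma ip_comm (f g : V →₀ ℝ) : ip f g = ip g f := by
  rw [ip_eq f g (f.support ∪ g.support) Finset.subset_union_left,
    ip_eq g f (f.support ∪ g.support) Finset.subset_union_right]
  exact Finset.sum_congr rfl fun x _ => mul_comm _ _

/-- adjacency operator -/
noncomputable def Ad : (V →₀ ℝ) →ₗ[ℝ] (V →₀ ℝ) :=
  Finsupp.linearCombination ℝ (fun x => ∑ y ∈ nb hG x, Finsupp.single y (1 : ℝ))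

lemma Ad_single (z : V) : Ad hG (Finsupp.single z 1) = ∑ y ∈ nb hG z, Finsupp.single y (1 : ℝ) := by
  simp [Ad]

lemma Ad_apply (f : V →₀ ℝ) (x : V) : Ad hG f x = ∑ y ∈ nb hG x, f y := by
  have : (Finsupp.lapply x).comp (Ad hG) =
      ∑ y ∈ nb hG x, (Finsupp.lapply y : (V →₀ ℝ) →ₗ[ℝ] ℝ) := by
    ext z
    simp only [LinearMap.comp_apply, Finsupp.lapply_apply, Finsupp.lsingle_apply,
      LinearMap.sum_apply]
    rw [Ad_single, Finsupp.finsetSum_apply]
    simp only [Finsupp.single_apply]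
    rw [Finset.sum_ite_eq', Finset.sum_ite_eq]
    simp only [mem_nb, G.adj_comm]
  have h2 := LinearMap.congr_fun this f
  simpa [LinearMap.sum_apply] using h2

lemma ip_Ad (f g : V →₀ ℝ) : ip (Ad hG f) g = ip f (Ad hG g) := by
  have : ip.comp (Ad hG) = (ip : (V →₀ ℝ) →ₗ[ℝ] (V →₀ ℝ) →ₗ[ℝ] ℝ).compl₂ (Ad hG) := by
    ext x y
    simp only [LinearMap.comp_apply, Finsupp.lsingle_apply, LinearMap.compl₂_apply]
    rw [ip_comm (Ad hG _), ip_apply, ip_apply]
    rw [Finsupp.sum_single_index (by simp), Finsupp.sum_single_index (by simp)]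
    rw [Ad_single, Ad_single, Finsupp.finsetSum_apply, Finsupp.finsetSum_apply]
    simp only [Finsupp.single_apply]
    rw [Finset.sum_ite_eq', Finset.sum_ite_eq']
    simp only [mem_nb, G.adj_comm]
  exact LinearMap.congr_fun (LinearMap.congr_fun this f) g

/-- the support and its neighbours -/
noncomputable def sp (f : V →₀ ℝ) : Finset V := f.support.biUnion fun x => insert x (nb hG x)

lemma sp_supp (f : V →₀ ℝ) : f.support ⊆ sp hG f := fun x hx =>
  Finset.mem_biUnion.2 ⟨x, hx, Finset.mem_insert_self _ _⟩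

lemma not_sp {f : V →₀ ℝ} {x : V} (h : x ∉ sp hG f) : f x = 0 ∧ ∀ y ∈ nb hG x, f y = 0 := by
  constructor
  · by_contra h1
    exact h (sp_supp hG f (Finsupp.mem_support_iff.2 h1))
  · intro y hy
    by_contra h1
    refine h (Finset.mem_biUnion.2 ⟨y, Finsupp.mem_support_iff.2 h1, Finset.mem_insert_of_mem ?_⟩)
    rw [mem_nb_comm]; exact hy

lemma sum_nb_sq (o : V) (f : V →₀ ℝ) :
    ∑ x ∈ sp hG f, ∑ y ∈ nb hG x, f y ^ 2 = dg hG o * ip f f := by
  have h1 : ∀ x ∈ sp hG f, ∑ y ∈ nb hG x, f y ^ 2 =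
      ∑ y ∈ f.support, if G.Adj x y then f y ^ 2 else 0 := by
    intro x _
    rw [← Finset.sum_filter]
    symm
    refine Finset.sum_subset_zero_on_sdiff ?_ ?_ (fun _ _ => rfl)
    · intro y hy
      simp only [Finset.mem_filter] at hy
      simp [hy.2]
    · intro y hy
      simp only [Finset.mem_sdiff, Finset.mem_filter, not_and, mem_nb] at hy
      have : y ∉ f.support := fun h => hy.2 h hy.1
      rw [Finsupp.notMem_support_iff.1 this]; simp
  rw [Finset.sum_congr rfl h1, Finset.sum_comm, ip_eq f f f.support subset_rfl, Finset.mul_sum]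
  refine Finset.sum_congr rfl fun y hy => ?_
  rw [← Finset.sum_filter, Finset.sum_const, nsmul_eq_mul, dg_eq hG o y, sq]
  congr 2
  unfold dg
  congr 1
  ext x
  simp only [Finset.mem_filter, mem_nb, G.adj_comm x y]
  constructor
  · exact fun h => h.2
  · exact fun h => ⟨Finset.mem_biUnion.2 ⟨y, hy, Finset.mem_insert_of_mem (by simpa using h)⟩, h⟩

lemma sum_gr_aux (o : V) (f : V →₀ ℝ) (s : ℝ) (hs : s ^ 2 = 1) :
    ∑ x ∈ sp hG f, ∑ y ∈ nb hG x, (f y + s * f x) ^ 2 =
      2 * dg hG o * ip f f + 2 * s * ip (Ad hG f) f := by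
  have h1 : ∀ x ∈ sp hG f, ∑ y ∈ nb hG x, (f y + s * f x) ^ 2 =
      ∑ y ∈ nb hG x, f y ^ 2 + dg hG o * (f x * f x) + 2 * s * (f x * Ad hG f x) := by
    intro x _
    rw [Ad_apply, Finset.mul_sum, Finset.mul_sum, dg_eq hG o x, dg, ← nsmul_eq_mul,
      ← Finset.sum_const, ← Finset.sum_add_distrib, ← Finset.sum_add_distrib]
    refine Finset.sum_congr rfl fun y _ => ?_
    linear_combination (f x) ^ 2 * hs
  rw [Finset.sum_congr rfl h1, Finset.sum_add_distrib, Finset.sum_add_distrib, sum_nb_sq hG o,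
    ← Finset.mul_sum, ← Finset.mul_sum, ← ip_eq f f _ (sp_supp hG f),
    ← ip_eq f (Ad hG f) _ (sp_supp hG f), ip_Ad]
  ring

lemma sum_gr (o : V) (f : V →₀ ℝ) :
    ∑ x ∈ sp hG f, gr hG f x = 2 * dg hG o * ip f f - 2 * ip (Ad hG f) f := by
  have := sum_gr_aux hG o f (-1) (by norm_num)
  rw [show 2 * (dg hG o : ℝ) * ip f f - 2 * ip (Ad hG f) f =
    2 * dg hG o * ip f f + 2 * (-1) * ip (Ad hG f) f by ring, ← this]
  refine Finset.sum_congr rfl fun x _ => Finset.sum_congr rfl fun y _ => ?_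
  ring

/-- the lazy random walk -/
noncomputable def Pl (o : V) : (V →₀ ℝ) →ₗ[ℝ] (V →₀ ℝ) :=
  (1 / 2 : ℝ) • LinearMap.id + (1 / (2 * dg hG o : ℝ)) • Ad hG

lemma Pl_apply (o : V) (f : V →₀ ℝ) (x : V) :
    Pl hG o f x = f x / 2 + 1 / (2 * dg hG o : ℝ) * ∑ y ∈ nb hG x, f y := by
  rw [← Ad_apply]
  simp [Pl]
  ring

lemma Pl_pos (o : V) (hd : 0 < dg hG o) : Pos ip (Pl hG o) := by
  have hd' : (0 : ℝ) < dg hG o := by exact_mod_cast hd
  refine ⟨ip_comm, ?_, ?_, ?_, ?_⟩
  · intro f g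
    simp [Pl, ip_Ad]
  · intro f
    rw [ip_eq f f _ subset_rfl]
    exact Finset.sum_nonneg fun x _ => mul_self_nonneg _
  · intro f
    have h1 := sum_gr_aux hG o f 1 (by norm_num)
    have h2 : 0 ≤ ∑ x ∈ sp hG f, ∑ y ∈ nb hG x, (f y + 1 * f x) ^ 2 :=
      Finset.sum_nonneg fun _ _ => Finset.sum_nonneg fun _ _ => sq_nonneg _
    have h3 : ip (Pl hG o f) f = 1 / (4 * dg hG o) *
        (2 * dg hG o * ip f f + 2 * 1 * ip (Ad hG f) f) := by
      simp [Pl]
      field_simp
      ring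
    rw [h3, ← h1]
    positivity
  · intro f
    have h1 := sum_gr hG o f
    have h2 : 0 ≤ ∑ x ∈ sp hG f, gr hG f x := Finset.sum_nonneg fun _ _ => gr_nonneg hG _ _
    have h3 : ip f f - ip (Pl hG o f) f = 1 / (4 * dg hG o) *
        (2 * dg hG o * ip f f - 2 * ip (Ad hG f) f) := by
      simp [Pl]
      field_simp
      ring
    rw [← h1] at h3
    have h4 : 0 ≤ ip f f - ip (Pl hG o f) f := by rw [h3]; positivity
    linarith

lemma lap_eq (o : V) (hd : 0 < dg hG o) (f : V →₀ ℝ) (x : V) :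
    lap hG f x = -(2 * dg hG o) * (f - Pl hG o f) x := by
  have hd' : (0 : ℝ) < dg hG o := by exact_mod_cast hd
  rw [Finsupp.sub_apply, Pl_apply, lap, Finset.sum_sub_distrib, Finset.sum_const, nsmul_eq_mul,
    ← dg, dg_eq hG x o]
  field_simp
  ring

lemma lap_zero {f : V →₀ ℝ} {x : V} (h : x ∉ sp hG f) : lap hG f x = 0 := by
  obtain ⟨h1, h2⟩ := not_sp hG h
  exact Finset.sum_eq_zero fun y hy => by rw [h1, h2 y hy]; simp

lemma gr_zero {f : V →₀ ℝ} {x : V} (h : x ∉ sp hG f) : gr hG f x = 0 := by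
  obtain ⟨h1, h2⟩ := not_sp hG h
  exact Finset.sum_eq_zero fun y hy => by rw [h1, h2 y hy]; simp

lemma sum_gr' (o : V) (hd : 0 < dg hG o) (f : V →₀ ℝ) :
    ∑ x ∈ sp hG f, gr hG f x = 4 * dg hG o * ip (f - Pl hG o f) f := by
  have hd' : (0 : ℝ) < dg hG o := by exact_mod_cast hd
  rw [sum_gr hG o]
  simp [Pl]
  field_simp
  ring

lemma sum_lap (o : V) (hd : 0 < dg hG o) (f : V →₀ ℝ) :
    ∑ x ∈ sp hG f, (lap hG f x) ^ 2 =
      (2 * dg hG o) ^ 2 * ip (f - Pl hG o f) (f - Pl hG o f) := by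
  have hd' : (0 : ℝ) < dg hG o := by exact_mod_cast hd
  have hs : (f - Pl hG o f).support ⊆ sp hG f := by
    intro x hx
    by_contra h1
    have h2 := lap_zero hG h1
    rw [lap_eq hG o hd] at h2
    have h3 := Finsupp.mem_support_iff.1 hx
    rcases mul_eq_zero.1 h2 with h4 | h4
    · linarith
    · exact h3 h4
  rw [ip_eq _ _ _ hs, Finset.mul_sum]
  refine Finset.sum_congr rfl fun x _ => ?_
  rw [lap_eq hG o hd]
  ring

/-! ### Decay of the moments -/

lemma ip_single (f : V →₀ ℝ) (x : V) : ip f (Finsupp.single x 1) = f x := by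
  rw [ip_comm, ip_apply, Finsupp.sum_single_index (by simp)]
  simp

lemma closed_all (hc : G.Connected) (Q : V → Prop) (hQ : ∀ x y, G.Adj x y → Q x → Q y) (x0 : V)
    (h0 : Q x0) (y : V) : Q y := by
  obtain ⟨p⟩ := hc.preconnected x0 y
  induction p with
  | nil => exact h0
  | cons h p ih => exact ih (hQ _ _ h h0)

/-- square summable harmonic functions vanish -/
lemma l2_harm (hinf : Infinite V) (h : V → ℝ) (M : ℝ)
    (hM : ∀ T : Finset V, ∑ x ∈ T, h x ^ 2 ≤ M)
    (hh : ∀ x, (dg hG x : ℝ) * h x = ∑ y ∈ nb hG x, h y) (x : V) : h x = 0 := by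
  by_contra hx
  have ha : 0 < |h x| := abs_pos.2 hx
  have hfin : {y : V | |h x| ≤ |h y|}.Finite := by
    by_contra hnf
    obtain ⟨n, hn⟩ := exists_nat_gt (M / |h x| ^ 2)
    obtain ⟨T, hT, hc⟩ := (Set.Infinite.exists_subset_card_eq hnf n)
    have h1 := hM T
    have h2 : (n : ℝ) * |h x| ^ 2 ≤ ∑ y ∈ T, h y ^ 2 := by
      rw [← hc, ← nsmul_eq_mul, ← Finset.sum_const]
      refine Finset.sum_le_sum fun y hy => ?_
      have h3 : |h x| ≤ |h y| := hT hy
      rw [← sq_abs (h y)]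
      exact pow_le_pow_left₀ ha.le h3 2
    rw [div_lt_iff₀ (by positivity)] at hn
    linarith
  obtain ⟨z, hz, hmax⟩ := hfin.exists_maximalFor (fun y => |h y|) _ ⟨x, le_refl |h x|⟩
  have hz' : ∀ y, |h y| ≤ |h z| := by
    intro y
    by_cases hy : |h x| ≤ |h y|
    · by_contra hlt
      push Not at hlt
      exact absurd (hmax hy hlt.le) (not_le.2 hlt)
    · push Not at hy
      exact hy.le.trans hz
  have hstep : ∀ a b, G.Adj a b → |h a| = |h z| → |h b| = |h z| := by
    intro a b hab ha'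
    have h1 : (dg hG a : ℝ) * |h a| ≤ ∑ y ∈ nb hG a, |h y| := by
      calc (dg hG a : ℝ) * |h a| = |(dg hG a : ℝ) * h a| := by rw [abs_mul, Nat.abs_cast]
        _ = |∑ y ∈ nb hG a, h y| := by rw [hh]
        _ ≤ _ := Finset.abs_sum_le_sum_abs _ _
    have h2 : ∑ y ∈ nb hG a, (|h z| - |h y|) ≤ 0 := by
      rw [Finset.sum_sub_distrib, Finset.sum_const, nsmul_eq_mul, ← dg, ← ha']
      linarith
    have h3 := Finset.single_le_sum (f := fun y => |h z| - |h y|)
      (fun y _ => sub_nonneg.2 (hz' y)) ((mem_nb hG).2 hab)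
    have := hz' b
    linarith
  have hall : ∀ y, |h y| = |h z| := fun y => closed_all hG.conn (fun y => |h y| = |h z|) hstep z rfl y
  have : {y : V | |h x| ≤ |h y|} = Set.univ := by
    ext y
    simp [hall y, hall x]
  rw [this] at hfin
  exact Set.infinite_univ hfin

lemma lim_zero (hinf : Infinite V) (o : V) (hd : 0 < dg hG o) (φ : V →₀ ℝ) :
    Tendsto (mo ip (Pl hG o) φ) atTop (nhds 0) := by
  have hd' : (0 : ℝ) < dg hG o := by exact_mod_cast hd
  have hP := Pl_pos hG o hd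
  have h1 : ∀ x : V, ∃ l : ℝ, Tendsto (fun n => ((Pl hG o ^ n) φ) x) atTop (nhds l) := by
    intro x
    obtain ⟨l, hl⟩ := hP.exists_lim φ (Finsupp.single x 1)
    exact ⟨l, hl.congr fun n => ip_single _ _⟩
  choose h hlim using h1
  have hharm : ∀ x, (dg hG x : ℝ) * h x = ∑ y ∈ nb hG x, h y := by
    intro x
    have e1 : Tendsto (fun n => ((Pl hG o ^ (n + 1)) φ) x) atTop (nhds (h x)) :=
      (hlim x).comp (tendsto_add_atTop_nat 1)
    have e2 : Tendsto (fun n => ((Pl hG o ^ (n + 1)) φ) x) atTop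
        (nhds (h x / 2 + 1 / (2 * dg hG o : ℝ) * ∑ y ∈ nb hG x, h y)) := by
      have : ∀ n, ((Pl hG o ^ (n + 1)) φ) x = ((Pl hG o ^ n) φ) x / 2 +
          1 / (2 * dg hG o : ℝ) * ∑ y ∈ nb hG x, ((Pl hG o ^ n) φ) y := by
        intro n
        rw [pow_succ', Module.End.mul_apply, Pl_apply]
      simp only [this]
      exact ((hlim x).div_const 2).add
        ((tendsto_finsetSum _ fun y _ => hlim y).const_mul _)
    have e3 := tendsto_nhds_unique e1 e2
    rw [dg_eq hG x o]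
    field_simp at e3
    linarith
  have hM : ∀ T : Finset V, ∑ x ∈ T, h x ^ 2 ≤ mo ip (Pl hG o) φ 0 := by
    intro T
    refine le_of_tendsto (tendsto_finsetSum _ fun x _ => (hlim x).pow 2)
      (Eventually.of_forall fun n => ?_)
    have e1 := hP.split n n φ
    have e2 := hP.mo_anti φ (Nat.zero_le (n + n))
    rw [← e1] at e2
    refine le_trans ?_ e2
    rw [ip_eq _ _ (((Pl hG o ^ n) φ).support ∪ T) Finset.subset_union_left]
    calc ∑ x ∈ T, (((Pl hG o ^ n) φ) x) ^ 2 = ∑ x ∈ T, ((Pl hG o ^ n) φ) x * ((Pl hG o ^ n) φ) x :=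
          Finset.sum_congr rfl fun x _ => sq _
      _ ≤ _ := Finset.sum_le_sum_of_subset_of_nonneg Finset.subset_union_right
          fun x _ _ => mul_self_nonneg _
  have hz := l2_harm hG hinf h _ hM hharm
  have h2 : Tendsto (fun n => ∑ x ∈ φ.support, φ x * ((Pl hG o ^ n) φ) x) atTop
      (nhds (∑ x ∈ φ.support, φ x * h x)) :=
    tendsto_finsetSum _ fun x _ => (hlim x).const_mul _
  rw [show ∑ x ∈ φ.support, φ x * h x = 0 from Finset.sum_eq_zero fun x _ => by rw [hz]; simp] at h2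
  refine h2.congr fun n => ?_
  rw [mo, ip_comm, ip_eq _ _ _ subset_rfl]

/-! ### Balls with small boundary -/

lemma exists_small_boundary (o : V) (D : ℕ) (hpg : PG hG o D) (ε : ℝ) (hε : 0 < ε) :
    ∃ r, ((bl hG o (r + 1)).card : ℝ) ≤ (1 + ε) * (bl hG o r).card := by
  by_contra hcon
  push Not at hcon
  have h1 : ∀ r : ℕ, (1 + ε) ^ r ≤ ((bl hG o r).card : ℝ) := by
    intro r
    induction r with
    | zero =>
      have := card_bl_pos hG o 0
      simp only [pow_zero]
      exact_mod_cast this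
    | succ r ih =>
      calc (1 + ε) ^ (r + 1) = (1 + ε) * (1 + ε) ^ r := pow_succ' _ _
        _ ≤ (1 + ε) * (bl hG o r).card := by gcongr
        _ ≤ _ := (hcon r).le
  have h2 := tendsto_pow_const_div_const_pow_of_one_lt D (show (1 : ℝ) < 1 + ε by linarith)
  have h3 := h2.eventually (gt_mem_nhds (show (0 : ℝ) < 1 by norm_num))
  obtain ⟨N, hN⟩ := eventually_atTop.1 h3
  obtain ⟨r, hr, hr'⟩ := hpg N
  have h4 := hN r hr
  rw [div_lt_one (by positivity)] at h4
  have h5 := h1 r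
  linarith

/-- indicator functions -/
noncomputable def ind (S : Finset V) : V →₀ ℝ :=
  Finsupp.onFinset S (fun x => if x ∈ S then 1 else 0) (fun x hx => by
    by_contra h; simp [h] at hx)

lemma ind_apply (S : Finset V) (x : V) : ind S x = if x ∈ S then 1 else 0 := rfl

lemma ip_ind (f : V →₀ ℝ) (S : Finset V) : ip f (ind S) = ∑ x ∈ S, f x := by
  rw [ip_comm, ip_eq _ _ S (by
    intro x hx
    by_contra h
    rw [Finsupp.mem_support_iff, ind_apply, if_neg h] at hx
    exact hx rfl)]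
  refine Finset.sum_congr rfl fun x hx => ?_
  rw [ind_apply, if_pos hx, one_mul]

lemma ip_ball (o : V) (r : ℕ) :
    (dg hG o : ℝ) * (bl hG o r).card -
      dg hG o * ((bl hG o (r + 1)).card - (bl hG o r).card) ≤
      ip (Ad hG (ind (bl hG o r))) (ind (bl hG o r)) := by
  set B := bl hG o r
  set B' := bl hG o (r + 1)
  have hsub : B ⊆ B' := fun x hx => by
    have := (mem_bl hG o x r).1 hx
    exact (mem_bl hG o x (r + 1)).2 (by omega)
  have h1 : ip (Ad hG (ind B')) (ind B) = dg hG o * B.card := by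
    rw [ip_ind, mul_comm, ← nsmul_eq_mul, ← Finset.sum_const]
    refine Finset.sum_congr rfl fun x hx => ?_
    rw [Ad_apply, ← dg_eq hG x o, dg, Finset.card_eq_sum_ones]
    push_cast
    refine Finset.sum_congr rfl fun y hy => ?_
    rw [ind_apply, if_pos]
    have e1 := (mem_bl hG o x r).1 hx
    have e2 := hG.tri o x y
    have e3 : G.dist x y ≤ 1 := by
      have := (mem_nb hG).1 hy
      exact (SimpleGraph.dist_eq_one_iff_adj.2 this).le
    exact (mem_bl hG o y (r + 1)).2 (by omega)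
  have h2 : ip (Ad hG (ind B')) (ind B) - ip (Ad hG (ind B)) (ind B) =
      ∑ y ∈ B' \ B, Ad hG (ind B) y := by
    rw [ip_Ad, ip_comm, ip_ind, ip_ind, ← Finset.sum_sdiff hsub]
    ring
  have h3 : ∑ y ∈ B' \ B, Ad hG (ind B) y ≤ ∑ y ∈ B' \ B, (dg hG o : ℝ) := by
    refine Finset.sum_le_sum fun y _ => ?_
    rw [Ad_apply, ← dg_eq hG y o, dg, Finset.card_eq_sum_ones]
    push_cast
    refine Finset.sum_le_sum fun z _ => ?_
    rw [ind_apply]
    split_ifs <;> norm_num
  rw [Finset.sum_const, nsmul_eq_mul, Finset.card_sdiff_of_subset hsub,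
    Nat.cast_sub (Finset.card_le_card hsub)] at h3
  linarith

end Walk

end Low

section LOW
variable {V : Type} {G : SimpleGraph V} (hG : TG G)

lemma Low.dg_pos (hinf : Infinite V) (o : V) : 0 < dg hG o := by
  obtain ⟨y, hy⟩ := exists_ne o
  obtain ⟨p⟩ := hG.conn.preconnected o y
  cases p with
  | nil => exact absurd rfl hy
  | cons h p => exact Finset.card_pos.2 ⟨_, (mem_nb hG).2 h⟩

open Low in
theorem exists_low (hinf : Infinite V) (o : V) (D : ℕ) (hpg : PG hG o D) (η : ℝ) (hη : 0 < η) :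
    ∃ (f : V → ℝ) (S : Finset V), (∀ x, x ∉ S → f x = 0 ∧ gr hG f x = 0 ∧ lap hG f x = 0) ∧
      ∑ x ∈ S, gr hG f x = 1 ∧ ∑ x ∈ S, (lap hG f x) ^ 2 ≤ η := by
  have hd := dg_pos hG hinf o
  have hd' : (0 : ℝ) < dg hG o := by exact_mod_cast hd
  have hP := Pl_pos hG o hd
  obtain ⟨J, hJ⟩ := exists_nat_gt (max 1 (2 * dg hG o / η))
  have hJ1 : (1 : ℝ) < J := (le_max_left _ _).trans_lt hJ
  have hJ2 : 2 * dg hG o / η < J := (le_max_right _ _).trans_lt hJ
  have hJ0 : (0 : ℝ) < J := by linarith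
  obtain ⟨r, hr⟩ := exists_small_boundary hG o D hpg (1 / (2 * J)) (by positivity)
  set φ := ind (bl hG o r) with hφ
  set M : ℝ := ((bl hG o r).card : ℝ) with hM
  have hMpos : 0 < M := by
    have := card_bl_pos hG o r
    rw [hM]; exact_mod_cast this
  have hm0 : mo ip (Pl hG o) φ 0 = M := by
    rw [mo, pow_zero, Module.End.one_apply, hφ, ip_ind, hM, Finset.card_eq_sum_ones]
    push_cast
    exact Finset.sum_congr rfl fun x hx => by rw [ind_apply, if_pos hx]
  have hm1 : M - mo ip (Pl hG o) φ 1 ≤ M / (4 * J) := by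
    have h1 := ip_ball hG o r
    have h2 : mo ip (Pl hG o) φ 1 = M / 2 + 1 / (2 * dg hG o) * ip (Ad hG φ) φ := by
      rw [mo, pow_one, ← hm0, mo, pow_zero, Module.End.one_apply]
      simp [Pl]
      ring
    have h3 : (dg hG o : ℝ) * M - dg hG o * (M / (2 * J)) ≤ ip (Ad hG φ) φ := by
      refine le_trans ?_ h1
      have : ((bl hG o (r + 1)).card : ℝ) - M ≤ M / (2 * J) := by
        have : (1 + 1 / (2 * (J : ℝ))) * M = M + M / (2 * J) := by ring
        linarith
      have := mul_le_mul_of_nonneg_left this hd'.le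
      linarith
    have h4 : 1 / (2 * (dg hG o : ℝ)) * ((dg hG o : ℝ) * M - dg hG o * (M / (2 * J))) ≤
        1 / (2 * dg hG o) * ip (Ad hG φ) φ := by gcongr
    have h5 : 1 / (2 * (dg hG o : ℝ)) * ((dg hG o : ℝ) * M - dg hG o * (M / (2 * J))) =
        M / 2 - M / (4 * J) := by
      field_simp
      ring
    linarith
  have hlim := lim_zero hG hinf o hd φ
  obtain ⟨N, hN⟩ := eventually_atTop.1
    (hlim.eventually (gt_mem_nhds (show (0 : ℝ) < M / 4 by positivity)))
  set n := max N J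
  have hn1 : mo ip (Pl hG o) φ n < M / 4 := hN n (le_max_left _ _)
  have hδ : ∀ j < J, M / 2 ≤ mo ip (Pl hG o) φ j - mo ip (Pl hG o) φ (j + n) := by
    intro j hj
    have h1 := hP.mo_lower φ j
    have h2 := hP.mo_anti φ (Nat.le_add_left n j)
    have h3 : (j : ℝ) * (mo ip (Pl hG o) φ 0 - mo ip (Pl hG o) φ 1) ≤ J * (M / (4 * J)) := by
      have : (j : ℝ) ≤ J := by exact_mod_cast hj.le
      have h0 : 0 ≤ mo ip (Pl hG o) φ 0 - mo ip (Pl hG o) φ 1 := by
        have := hP.mo_anti_succ φ 0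
        simp only [zero_add] at this
        linarith
      rw [hm0] at h0 ⊢
      gcongr
    have h4 : (J : ℝ) * (M / (4 * J)) = M / 4 := by field_simp
    rw [hm0] at h1 h3
    linarith
  have hE := hP.energy φ n J (le_max_right _ _) (M / 2) hδ
  have hDf := hP.defect φ n
  set F : V →₀ ℝ := ∑ j ∈ range n, (Pl hG o ^ j) φ
  set E := ∑ x ∈ sp hG F, gr hG F x with hEdef
  have hE1 : 2 * dg hG o * J * M ≤ E := by
    rw [hEdef, sum_gr' hG o hd]
    have := mul_le_mul_of_nonneg_left hE (show (0 : ℝ) ≤ 4 * dg hG o by positivity)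
    linarith
  have hEpos : 0 < E := lt_of_lt_of_le (by positivity) hE1
  have hL1 : ∑ x ∈ sp hG F, (lap hG F x) ^ 2 ≤ (2 * dg hG o) ^ 2 * M := by
    rw [sum_lap hG o hd, ← hm0]
    gcongr
  have hsq : (1 / √E) ^ 2 = 1 / E := by
    rw [div_pow, one_pow, Real.sq_sqrt hEpos.le]
  have hgs : ∀ x, gr hG ((1 / √E) • (F : V → ℝ)) x = 1 / E * gr hG F x := by
    intro x
    unfold gr
    rw [Finset.mul_sum, ← hsq]
    refine Finset.sum_congr rfl fun y _ => ?_
    simp only [Pi.smul_apply, smul_eq_mul]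
    ring
  refine ⟨(1 / √E) • (F : V → ℝ), sp hG F, ?_, ?_, ?_⟩
  · intro x hx
    refine ⟨?_, ?_, ?_⟩
    · rw [Pi.smul_apply, (not_sp hG hx).1, smul_zero]
    · rw [hgs, gr_zero hG hx, mul_zero]
    · rw [lap_smul, lap_zero hG hx, mul_zero]
  · simp only [hgs]
    rw [← Finset.mul_sum, ← hEdef]
    field_simp
  · have : ∀ x, (lap hG ((1 / √E) • (F : V → ℝ)) x) ^ 2 = 1 / E * (lap hG F x) ^ 2 := by
      intro x
      rw [lap_smul, mul_pow, hsq]
    simp only [this]
    rw [← Finset.mul_sum, one_div, inv_mul_le_iff₀ hEpos]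
    refine hL1.trans ?_
    rw [div_lt_iff₀ hη] at hJ2
    have h1 : (2 * dg hG o : ℝ) ^ 2 * M = (2 * dg hG o * M) * (2 * dg hG o) := by ring
    rw [h1]
    calc (2 * dg hG o * M) * (2 * dg hG o) ≤ (2 * dg hG o * M) * (J * η) := by gcongr
      _ = (2 * dg hG o * J * M) * η := by ring
      _ ≤ E * η := by gcongr

end LOW

end Pool.H61.ST

end S_H61_ST_Low

section S_H61_ST_Harm

set_option autoImplicit false

/-! A nonconstant Lipschitz harmonic function. -/

namespace Pool.H61.ST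

open Finset Pool.Agent.H61.SW Pool.H98.C Filter

section HARM
variable {V : Type} {G : SimpleGraph V} (hG : TG G)

/-- transplanted sums -/
lemma homog_sum_le {o : V} {R : ℕ} (H : Homog G o R) (S Z : Finset V) (g : V → ℝ)
    (hg : ∀ a, 0 ≤ g a) (hS : ∀ a, a ∉ S → g a = 0) (x : V) (hx : G.dist o x ≤ R) :
    ∑ z ∈ Z, Ex (fun θ => g (H.T z θ x)) ≤ ∑ a ∈ S, g a := by
  classical
  have h1 : ∀ z, Ex (fun θ => g (H.T z θ x)) = ∑ a ∈ S, g a * Pr (fun θ => H.T z θ x = a) := by
    intro z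
    have h2 : (fun θ => g (H.T z θ x)) =
        fun θ => ∑ a ∈ S, g a * (if H.T z θ x = a then (1 : ℝ) else 0) := by
      ext θ
      by_cases h : H.T z θ x ∈ S
      · rw [Finset.sum_eq_single (H.T z θ x)]
        · simp
        · intro b _ hb
          simp [Ne.symm hb]
        · exact fun h' => absurd h h'
      · rw [hS _ h]
        symm
        refine Finset.sum_eq_zero fun a ha => ?_
        have : H.T z θ x ≠ a := fun h' => h (h' ▸ ha)
        simp [this]
    rw [h2, Ex_sum]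
    refine Finset.sum_congr rfl fun a _ => ?_
    rw [Ex_const_mul]
    unfold Pr
    congr 2
  simp_rw [h1]
  rw [Finset.sum_comm]
  refine Finset.sum_le_sum fun a _ => ?_
  rw [← Finset.mul_sum]
  exact mul_le_of_le_one_right (hg a) (H.sp x a hx Z)

/-- the vector of a function of `(z, θ)` -/
noncomputable def vec {Θ : Type} [Fintype Θ] (S : Finset V) (φ : V → Θ → ℝ) :
    EuclideanSpace ℝ (↥S × Θ) :=
  WithLp.toLp 2 (fun p => φ p.1 p.2 / √(Fintype.card Θ : ℝ))

lemma norm_vec {Θ : Type} [Fintype Θ] (S : Finset V) (φ : V → Θ → ℝ) :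
    ‖vec S φ‖ ^ 2 = ∑ z ∈ S, Ex (fun θ => φ z θ ^ 2) := by
  rw [EuclideanSpace.real_norm_sq_eq, Fintype.sum_prod_type]
  rw [← Finset.sum_coe_sort S]
  refine Finset.sum_congr rfl fun z _ => ?_
  unfold Ex
  rw [Finset.sum_div]
  refine Finset.sum_congr rfl fun θ _ => ?_
  simp only [vec, div_pow]
  rw [Real.sq_sqrt (Nat.cast_nonneg _)]

lemma vec_sub {Θ : Type} [Fintype Θ] (S : Finset V) (φ ψ : V → Θ → ℝ) :
    vec S φ - vec S ψ = vec S (fun z θ => φ z θ - ψ z θ) := by
  ext p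
  simp [vec, sub_div]

lemma vec_sum {Θ : Type} [Fintype Θ] {ι : Type} (t : Finset ι) (S : Finset V)
    (φ : ι → V → Θ → ℝ) :
    ∑ i ∈ t, vec S (φ i) = vec S (fun z θ => ∑ i ∈ t, φ i z θ) := by
  ext p
  simp [vec, Finset.sum_div]

lemma exists_step (o : V) (k : ℕ) (H : Homog G o k) (η : ℝ) (f : V → ℝ) (S : Finset V)
    (hS : ∀ x, x ∉ S → f x = 0 ∧ gr hG f x = 0 ∧ lap hG f x = 0)
    (h1 : ∑ x ∈ S, gr hG f x = 1) (h2 : ∑ x ∈ S, (lap hG f x) ^ 2 ≤ η) :
    ∃ h : V → ℝ, h o = 0 ∧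
      (∀ x y, G.Adj x y → G.dist o x ≤ k → |h x - h y| ≤ 1) ∧
      (∀ x, G.dist o x ≤ k → (lap hG h x) ^ 2 ≤ η) ∧
      1 ≤ (dg hG o : ℝ) * ∑ y ∈ nb hG o, h y ^ 2 := by
  classical
  set F : V → EuclideanSpace ℝ (↥S × H.Θ) := fun x => vec S (fun z θ => f (H.T z θ x)) with hF
  -- edges
  have hedge : ∀ x y, G.Adj x y → G.dist o x ≤ k → ‖F y - F x‖ ≤ 1 := by
    intro x y hxy hx
    have h3 : ‖F y - F x‖ ^ 2 ≤ 1 := by
      rw [hF]
      simp only [vec_sub]
      rw [norm_vec, ← h1]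
      refine le_trans (Finset.sum_le_sum fun z _ => Ex_mono fun θ => ?_)
        (homog_sum_le H S S (gr hG f) (gr_nonneg hG f) (fun a ha => (hS a ha).2.1) x hx)
      show (f (H.T z θ y) - f (H.T z θ x)) ^ 2 ≤ gr hG f (H.T z θ x)
      unfold gr
      exact Finset.single_le_sum (f := fun w => (f w - f (H.T z θ x)) ^ 2)
        (fun w _ => sq_nonneg _) ((mem_nb hG).2 ((H.T z θ).map_adj_iff.2 hxy))
    nlinarith [norm_nonneg (F y - F x)]
  have hlap : ∀ x, G.dist o x ≤ k → ‖∑ y ∈ nb hG x, (F y - F x)‖ ^ 2 ≤ η := by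
    intro x hx
    have h3 : ∑ y ∈ nb hG x, (F y - F x) = vec S (fun z θ => lap hG f (H.T z θ x)) := by
      rw [hF]
      simp only [vec_sub]
      rw [vec_sum]
      congr 1
      ext z θ
      unfold lap
      rw [← sum_nb_iso hG (H.T z θ) x (fun y => f y - f (H.T z θ x))]
    rw [h3, norm_vec]
    refine le_trans ?_ h2
    exact homog_sum_le H S S (fun a => (lap hG f a) ^ 2) (fun a => sq_nonneg _)
      (fun a ha => by simp [(hS a ha).2.2]) x hx
  have hsum : ∑ y ∈ nb hG o, ‖F y - F o‖ ^ 2 = 1 := by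
    have h3 : ∀ y ∈ nb hG o, ‖F y - F o‖ ^ 2 =
        ∑ z ∈ S, Ex (fun θ => (f (H.T z θ y) - f z) ^ 2) := by
      intro y _
      rw [hF]
      simp only [vec_sub]
      rw [norm_vec]
      simp only [H.T_o]
    rw [Finset.sum_congr rfl h3, Finset.sum_comm, ← h1]
    refine Finset.sum_congr rfl fun z _ => ?_
    rw [← Ex_sum]
    have h4 : (fun θ : H.Θ => ∑ y ∈ nb hG o, (f (H.T z θ y) - f z) ^ 2) = fun _ => gr hG f z := by
      ext θ
      rw [sum_nb_iso hG (H.T z θ) o (fun y => (f y - f z) ^ 2), H.T_o]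
      rfl
    rw [h4, Ex_const]
  obtain ⟨y₀, hy₀, hy₁⟩ : ∃ y ∈ nb hG o, 1 ≤ (dg hG o : ℝ) * ‖F y - F o‖ ^ 2 := by
    by_contra hcon
    push Not at hcon
    have hne : (nb hG o).Nonempty := by
      rw [Finset.nonempty_iff_ne_empty]
      intro h
      rw [h] at hsum
      simp at hsum
    have h4 : ∑ y ∈ nb hG o, (dg hG o : ℝ) * ‖F y - F o‖ ^ 2 < ∑ y ∈ nb hG o, (1 : ℝ) :=
      Finset.sum_lt_sum_of_nonempty hne hcon
    rw [← Finset.mul_sum, hsum, Finset.sum_const, nsmul_eq_mul] at h4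
    unfold dg at h4
    linarith
  set v := F y₀ - F o with hv
  have hv0 : 0 < ‖v‖ := by
    rw [norm_pos_iff]
    intro h
    rw [h] at hy₁
    simp at hy₁
    linarith
  set e := (1 / ‖v‖) • v with he
  have hen : ‖e‖ = 1 := by
    rw [he, norm_smul, norm_div, norm_one, norm_norm]
    field_simp
  have hadd : ∀ x y, inner ℝ (F x - F o) e - inner ℝ (F y - F o) e = inner ℝ (F x - F y) e := by
    intro x y
    rw [← inner_sub_left]
    congr 1
    abel
  refine ⟨fun x => inner ℝ (F x - F o) e, by simp, ?_, ?_, ?_⟩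
  · intro x y hxy hx
    simp only
    rw [hadd]
    refine (abs_real_inner_le_norm _ _).trans ?_
    rw [hen, mul_one, norm_sub_rev]
    exact hedge x y hxy hx
  · intro x hx
    have h3 : lap hG (fun x => inner ℝ (F x - F o) e) x = inner ℝ (∑ y ∈ nb hG x, (F y - F x)) e := by
      unfold lap
      simp only [hadd]
      rw [sum_inner]
    rw [h3, ← sq_abs]
    refine le_trans ?_ (hlap x hx)
    have h4 := abs_real_inner_le_norm (∑ y ∈ nb hG x, (F y - F x)) e
    rw [hen, mul_one] at h4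
    exact pow_le_pow_left₀ (abs_nonneg _) h4 2
  · refine hy₁.trans (mul_le_mul_of_nonneg_left ?_ (Nat.cast_nonneg _))
    have h5 : inner ℝ (F y₀ - F o) e = ‖v‖ := by
      rw [he, inner_smul_right, ← hv, real_inner_self_eq_norm_sq]
      field_simp
    calc ‖v‖ ^ 2 = (inner ℝ (F y₀ - F o) e) ^ 2 := by rw [h5]
      _ ≤ _ := Finset.single_le_sum (f := fun y => (inner ℝ (F y - F o) e) ^ 2)
          (fun y _ => sq_nonneg _) hy₀

lemma abs_le_of_ch {o : V} {k : ℕ} {h : V → ℝ}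
    (hl : ∀ x y, G.Adj x y → G.dist o x ≤ k → |h x - h y| ≤ 1) :
    ∀ (s : List V) (x : V), ch G x s → (∀ v ∈ x :: s, G.dist o v ≤ k) →
      |h x - h (en x s)| ≤ s.length := by
  intro s
  induction s with
  | nil => intro x _ _; simp
  | cons a s ih =>
    intro x hc hd
    have h1 := hl x a hc.1 (hd x (by simp))
    have h2 := ih a hc.2 (fun v hv => hd v (List.mem_cons_of_mem _ hv))
    simp only [en_cons, List.length_cons]
    push_cast
    have h3 : h x - h (en a s) = (h x - h a) + (h a - h (en a s)) := by ring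
    rw [h3]
    refine (abs_add_le _ _).trans ?_
    linarith

theorem exists_harmonic (o : V) (hh : ∀ R, Nonempty (Homog G o R))
    (hlow : ∀ η : ℝ, 0 < η → ∃ (f : V → ℝ) (S : Finset V),
      (∀ x, x ∉ S → f x = 0 ∧ gr hG f x = 0 ∧ lap hG f x = 0) ∧
      ∑ x ∈ S, gr hG f x = 1 ∧ ∑ x ∈ S, (lap hG f x) ^ 2 ≤ η) :
    ∃ u ∈ LH hG o, u ≠ 0 := by
  classical
  have hstep : ∀ k : ℕ, ∃ h : V → ℝ, h o = 0 ∧
      (∀ x y, G.Adj x y → G.dist o x ≤ k → |h x - h y| ≤ 1) ∧
      (∀ x, G.dist o x ≤ k → (lap hG h x) ^ 2 ≤ 1 / ((k : ℝ) + 1)) ∧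
      1 ≤ (dg hG o : ℝ) * ∑ y ∈ nb hG o, h y ^ 2 := by
    intro k
    obtain ⟨H⟩ := hh k
    obtain ⟨f, S, hS, h1, h2⟩ := hlow (1 / ((k : ℝ) + 1)) (by positivity)
    exact exists_step hG o k H _ f S hS h1 h2
  choose h h0 hl hla hn using hstep
  have habs : ∀ k x, G.dist o x ≤ k → |h k x| ≤ G.dist o x := by
    intro k x hx
    have h1 := abs_le_of_ch (hl k) (geo hG o x) o (ch_geo hG o x) (by
      intro v hv
      rcases List.mem_cons.1 hv with rfl | hv
      · simp
      · exact (mem_geo_dist hG hv).trans hx)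
    rw [en_geo, length_geo, h0, zero_sub, abs_neg] at h1
    exact h1
  set h' : ℕ → V → ℝ := fun k x => if G.dist o x ≤ k then h k x else 0 with hh'
  set K : Set (V → ℝ) := Set.pi Set.univ
    (fun x => Set.Icc (-(G.dist o x : ℝ)) (G.dist o x : ℝ)) with hK
  have hKc : IsCompact K := isCompact_univ_pi fun x => isCompact_Icc
  have hmem : ∀ k, h' k ∈ K := by
    intro k x _
    simp only [hh']
    split_ifs with hx
    · exact abs_le.1 (habs k x hx)
    · constructor <;> simp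
  set U : Ultrafilter ℕ := Filter.hyperfilter ℕ with hU
  obtain ⟨u, -, hu⟩ := hKc.ultrafilter_le_nhds (U.map h') (by
    rw [le_principal_iff]
    exact Ultrafilter.mem_map.2 (Filter.univ_mem' hmem))
  have hu' : Tendsto h' U (nhds u) := hu
  have hux : ∀ x, Tendsto (fun k => h' k x) U (nhds (u x)) := fun x =>
    (tendsto_pi_nhds.1 hu') x
  have hU_le : (U : Filter ℕ) ≤ atTop := by
    rw [hU, ← Nat.cofinite_eq_atTop]
    exact Filter.hyperfilter_le_cofinite
  have hev : ∀ n : ℕ, ∀ᶠ k in (U : Filter ℕ), n ≤ k := fun n =>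
    hU_le (eventually_ge_atTop n)
  have hne : (U : Filter ℕ).NeBot := U.neBot
  have hlim_lap : ∀ x, Tendsto (fun k => lap hG (h' k) x) U (nhds (lap hG u x)) := by
    intro x
    unfold lap
    exact tendsto_finsetSum _ fun y _ => (hux y).sub (hux x)
  refine ⟨u, ⟨?_, ?_, 1, ?_⟩, ?_⟩
  · -- u o = 0
    have h1 : Tendsto (fun k => h' k o) U (nhds 0) := by
      refine (tendsto_congr fun k => ?_).2 tendsto_const_nhds
      simp [hh', h0]
    exact tendsto_nhds_unique (hux o) h1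
  · -- harmonic
    intro x
    have h1 : Tendsto (fun k : ℕ => 1 / ((k : ℝ) + 1)) U (nhds 0) :=
      tendsto_one_div_add_atTop_nhds_zero_nat.mono_left hU_le
    have h2 : (lap hG u x) ^ 2 ≤ 0 := by
      refine le_of_tendsto_of_tendsto ((hlim_lap x).pow 2) h1 ?_
      filter_upwards [hev (G.dist o x + 1)] with k hk
      have h3 : lap hG (h' k) x = lap hG (h k) x := by
        unfold lap
        refine Finset.sum_congr rfl fun y hy => ?_
        have h4 : G.dist o x ≤ k := by omega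
        have h5 : G.dist o y ≤ k := by
          have h6 := hG.tri o x y
          have h7 : G.dist x y = 1 := SimpleGraph.dist_eq_one_iff_adj.2 ((mem_nb hG).1 hy)
          omega
        simp [hh', h4, h5]
      rw [h3]
      exact hla k x (by omega)
    exact pow_eq_zero_iff (two_ne_zero) |>.1 (le_antisymm h2 (sq_nonneg _))
  · intro x y hxy
    refine le_of_tendsto ((hux x).sub (hux y)).abs ?_
    filter_upwards [hev (G.dist o x + G.dist o y)] with k hk
    have h4 : G.dist o x ≤ k := by omega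
    have h5 : G.dist o y ≤ k := by omega
    simp only [hh', h4, h5, if_true]
    exact hl k x y hxy h4
  · intro hu0
    have h1 : Tendsto (fun k => (dg hG o : ℝ) * ∑ y ∈ nb hG o, h' k y ^ 2) U
        (nhds ((dg hG o : ℝ) * ∑ y ∈ nb hG o, u y ^ 2)) :=
      (tendsto_finsetSum _ fun y _ => (hux y).pow 2).const_mul _
    have h2 : (1 : ℝ) ≤ (dg hG o : ℝ) * ∑ y ∈ nb hG o, u y ^ 2 := by
      refine ge_of_tendsto h1 ?_
      filter_upwards [hev 1] with k hk
      have h3 : ∑ y ∈ nb hG o, h' k y ^ 2 = ∑ y ∈ nb hG o, h k y ^ 2 := by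
        refine Finset.sum_congr rfl fun y hy => ?_
        have h7 : G.dist o y = 1 := SimpleGraph.dist_eq_one_iff_adj.2 ((mem_nb hG).1 hy)
        have h8 : G.dist o y ≤ k := by omega
        simp [hh', h8]
      rw [h3]
      exact hn k
    rw [hu0] at h2
    simp at h2
    linarith

end HARM

end Pool.H61.ST

end S_H61_ST_Harm

section S_H61_ST_Pois

set_option autoImplicit false

/-! Module POIS: harmonic representatives of homomorphisms of a finite index subgroup. -/

namespace Pool.H61.ST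

open Finset Pool.Agent.H61.SW Pool.H98.C

section POIS
variable {V : Type} {G : SimpleGraph V} (hG : TG G)

/-- functions invariant under the subgroup -/
def pInv (Γ₁ : Subgroup (G ≃g G)) : Submodule ℝ (V → ℝ) where
  carrier := {φ | ∀ g ∈ Γ₁, ∀ x, φ (g x) = φ x}
  add_mem' := by
    intro a b ha hb g hg x
    rw [Pi.add_apply, Pi.add_apply, ha g hg, hb g hg]
  zero_mem' := fun g _ x => rfl
  smul_mem' := by
    intro c a ha g hg x
    rw [Pi.smul_apply, Pi.smul_apply, ha g hg]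

lemma pois_out (Γ₁ : Subgroup (G ≃g G)) {M : Type*} (F : (G ≃g G) → M)
    (hF : ∀ g, ∀ γ ∈ Γ₁, F (g * γ) = F g) (g : G ≃g G) :
    F ((g : (G ≃g G) ⧸ Γ₁).out) = F g := by
  obtain ⟨h, hh⟩ := QuotientGroup.mk_out_eq_mul Γ₁ g
  rw [hh]
  exact hF g h h.2

lemma pois_sum (Γ₁ : Subgroup (G ≃g G)) [Fintype ((G ≃g G) ⧸ Γ₁)] {M : Type*} [AddCommMonoid M]
    (F : (G ≃g G) → M) (hF : ∀ g, ∀ γ ∈ Γ₁, F (g * γ) = F g) (h : G ≃g G) :
    ∑ c : (G ≃g G) ⧸ Γ₁, F (h * c.out) = ∑ c : (G ≃g G) ⧸ Γ₁, F c.out := by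
  have h1 : ∀ c : (G ≃g G) ⧸ Γ₁, F (h * c.out) = F ((h • c).out) := by
    intro c
    have h2 : (h • c) = ((h * c.out : G ≃g G) : (G ≃g G) ⧸ Γ₁) := by
      conv_lhs => rw [← QuotientGroup.out_eq' c]
      rfl
    rw [h2, pois_out Γ₁ F hF]
  rw [Finset.sum_congr rfl fun c _ => h1 c]
  exact (MulAction.bijective h).sum_comp (fun c : (G ≃g G) ⧸ Γ₁ => F c.out)

include hG in
lemma pois_range (Γ₁ : Subgroup (G ≃g G)) (o : V) (u : V → ℝ)
    (hu : ∀ g ∈ Γ₁, ∀ x, u (g x) = u x) (x : V) :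
    ∃ c : (G ≃g G) ⧸ Γ₁, u x = u ((c.out⁻¹ : G ≃g G) o) := by
  obtain ⟨g, hg⟩ := hG.tr x o
  refine ⟨(g : (G ≃g G) ⧸ Γ₁), ?_⟩
  rw [pois_out Γ₁ (fun g : G ≃g G => u ((g⁻¹ : G ≃g G) o)) ?_ g]
  · rw [← hg, RelIso.inv_apply_self]
  · intro g γ hγ
    simp only [mul_inv_rev, RelIso.mul_apply]
    exact hu _ (Γ₁.inv_mem hγ) _

/-- invariant harmonic functions are constant -/
theorem const_of_inv (Γ₁ : Subgroup (G ≃g G)) (hfi : Γ₁.FiniteIndex) (u : V → ℝ)
    (hu : ∀ g ∈ Γ₁, ∀ x, u (g x) = u x) (hh : ∀ x, lap hG u x = 0) : ∀ x y, u x = u y := by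
  classical
  obtain ⟨o⟩ := hG.conn.nonempty
  have hfin : Finite ((G ≃g G) ⧸ Γ₁) := Subgroup.finite_quotient_of_finiteIndex
  obtain ⟨c₀, hc₀⟩ := Finite.exists_max (fun c : (G ≃g G) ⧸ Γ₁ => u ((c.out⁻¹ : G ≃g G) o))
  set x₀ : V := (c₀.out⁻¹ : G ≃g G) o with hx₀
  have hmax : ∀ x, u x ≤ u x₀ := by
    intro x
    obtain ⟨c, hc⟩ := pois_range hG Γ₁ o u hu x
    rw [hc]
    exact hc₀ c
  have hstep : ∀ x y, G.Adj x y → u x = u x₀ → u y = u x₀ := by
    intro x y hxy hx
    have h1 : ∀ z ∈ nb hG x, 0 ≤ u x - u z := fun z _ => by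
      have := hmax z
      linarith
    have h2 : ∑ z ∈ nb hG x, (u x - u z) = 0 := by
      have h3 := hh x
      unfold lap at h3
      have h4 : ∑ z ∈ nb hG x, (u x - u z) = -∑ z ∈ nb hG x, (u z - u x) := by
        rw [← Finset.sum_neg_distrib]
        exact Finset.sum_congr rfl fun z _ => by ring
      rw [h4, h3, neg_zero]
    have h5 := (Finset.sum_eq_zero_iff_of_nonneg h1).1 h2 y ((mem_nb hG).2 hxy)
    linarith
  have hall : ∀ x, u x = u x₀ := by
    intro x
    obtain ⟨p⟩ := hG.conn.preconnected x₀ x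
    have : ∀ {a b : V} (p : G.Walk a b), u a = u x₀ → u b = u x₀ := by
      intro a b p
      induction p with
      | nil => exact id
      | cons h p ih => exact fun ha => ih (hstep _ _ h ha)
    exact this p rfl
  intro x y
  rw [hall x, hall y]

/-- invariant functions of pairs: mass transport -/
lemma pois_mass (o : V)
    (huni : ∀ x y, (Pool.H98.C.orb G x y).ncard = (Pool.H98.C.orb G y x).ncard)
    (a : V → V → ℝ) (ha : ∀ (g : G ≃g G) x y, a (g x) (g y) = a x y) :
    ∑ y ∈ nb hG o, a o y = ∑ y ∈ nb hG o, a y o := by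
  classical
  have key : ∀ r : ℝ, ((nb hG o).filter (fun y => a o y = r)).card =
      ((nb hG o).filter (fun y => a y o = r)).card := by
    intro r
    have h := mass_transport hG.lf hG.conn hG.tr huni (fun x y => G.Adj x y ∧ a x y = r)
      (by
        intro φ u v
        rw [ha, φ.map_adj_iff]) o
      ((hG.lf o).subset (fun y hy => hy.1)) ((hG.lf o).subset (fun y hy => hy.1.symm))
    have e1 : {x | G.Adj o x ∧ a o x = r} = ((nb hG o).filter (fun y => a o y = r) : Finset V) := by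
      ext y
      simp
    have e2 : {x | G.Adj x o ∧ a x o = r} = ((nb hG o).filter (fun y => a y o = r) : Finset V) := by
      ext y
      simp [G.adj_comm]
    rw [e1, e2, Set.ncard_coe_finset, Set.ncard_coe_finset] at h
    exact h
  have hm : (nb hG o).1.map (fun y => a o y) = (nb hG o).1.map (fun y => a y o) := by
    ext r
    rw [Multiset.count_map, Multiset.count_map]
    have := key r
    rw [Finset.card_def, Finset.card_def, Finset.filter_val, Finset.filter_val] at this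
    convert this using 3 <;> exact eq_comm
  show ((nb hG o).1.map (fun y => a o y)).sum = ((nb hG o).1.map (fun y => a y o)).sum
  rw [hm]

/-- the divergence of an invariant antisymmetric flow has mean zero -/
lemma pois_div (o : V)
    (huni : ∀ x y, (Pool.H98.C.orb G x y).ncard = (Pool.H98.C.orb G y x).ncard)
    (Γ₁ : Subgroup (G ≃g G)) [Fintype ((G ≃g G) ⧸ Γ₁)]
    (a : V → V → ℝ) (ha : ∀ g ∈ Γ₁, ∀ x y, a (g x) (g y) = a x y)
    (hanti : ∀ x y, a y x = -a x y) :
    ∑ c : (G ≃g G) ⧸ Γ₁, ∑ y ∈ nb hG ((c.out⁻¹ : G ≃g G) o), a ((c.out⁻¹ : G ≃g G) o) y = 0 := by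
  set a' : V → V → ℝ := fun x y => ∑ c : (G ≃g G) ⧸ Γ₁,
    a ((c.out⁻¹ : G ≃g G) x) ((c.out⁻¹ : G ≃g G) y) with ha'
  have h1 : ∀ (g : G ≃g G) x y, a' (g x) (g y) = a' x y := by
    intro g x y
    have h2 := pois_sum Γ₁ (fun h : G ≃g G => a ((h⁻¹ : G ≃g G) x) ((h⁻¹ : G ≃g G) y)) (by
      intro h γ hγ
      simp only [mul_inv_rev, RelIso.mul_apply]
      exact ha _ (Γ₁.inv_mem hγ) _ _) g⁻¹
    rw [ha']
    simp only
    rw [← h2]
    refine Finset.sum_congr rfl fun c _ => ?_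
    simp only [mul_inv_rev, RelIso.mul_apply, inv_inv]
  have h3 := pois_mass hG o huni a' h1
  have h4 : ∑ y ∈ nb hG o, a' y o = -∑ y ∈ nb hG o, a' o y := by
    rw [← Finset.sum_neg_distrib]
    refine Finset.sum_congr rfl fun y _ => ?_
    rw [ha']
    simp only
    rw [← Finset.sum_neg_distrib]
    exact Finset.sum_congr rfl fun c _ => hanti _ _
  rw [h4] at h3
  have h5 : ∑ y ∈ nb hG o, a' o y = 0 := by linarith
  rw [← h5, ha']
  simp only
  rw [Finset.sum_comm]
  refine Finset.sum_congr rfl fun c _ => ?_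
  rw [← sum_nb_iso hG (c.out⁻¹ : G ≃g G) o (fun y => a ((c.out⁻¹ : G ≃g G) o) y)]

/-- a function with prescribed increments -/
lemma pois_eta (Γ₁ : Subgroup (G ≃g G)) (χ : (G ≃g G) → ℤ)
    (hmul : ∀ g ∈ Γ₁, ∀ h ∈ Γ₁, χ (g * h) = χ g + χ h)
    (hst : ∀ g ∈ Γ₁, ∀ x, g x = x → χ g = 0) :
    ∃ η : V → ℝ, ∀ g ∈ Γ₁, ∀ x, η (g x) = η x + χ g := by
  classical
  let S : Setoid V :=
    { r := fun x y => ∃ g ∈ Γ₁, g x = y
      iseqv :=
        { refl := fun x => ⟨1, Γ₁.one_mem, rfl⟩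
          symm := by
            rintro x y ⟨g, hg, rfl⟩
            exact ⟨g⁻¹, Γ₁.inv_mem hg, RelIso.inv_apply_self g x⟩
          trans := by
            rintro x y z ⟨g, hg, rfl⟩ ⟨h, hh, rfl⟩
            exact ⟨h * g, Γ₁.mul_mem hh hg, by rw [RelIso.mul_apply]⟩ } }
  let rep : V → V := fun x => (Quotient.mk S x).out
  have hrep : ∀ x, ∃ g ∈ Γ₁, g (rep x) = x := fun x => Quotient.mk_out (s := S) x
  choose γ hγ hγx using hrep
  refine ⟨fun x => (χ (γ x) : ℝ), ?_⟩
  intro g hg x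
  have h1 : rep (g x) = rep x := by
    have : Quotient.mk S (g x) = Quotient.mk S x :=
      Quotient.sound (s := S) (S.symm ⟨g, hg, rfl⟩)
    show (Quotient.mk S (g x)).out = (Quotient.mk S x).out
    rw [this]
  have hinv : χ (γ (g x))⁻¹ = -χ (γ (g x)) := by
    have h2 := hmul _ (hγ (g x)) _ (Γ₁.inv_mem (hγ (g x)))
    rw [mul_inv_cancel] at h2
    have h3 := hmul 1 Γ₁.one_mem 1 Γ₁.one_mem
    rw [mul_one] at h3
    omega
  have h2 : χ ((γ (g x))⁻¹ * (g * γ x)) = 0 := by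
    refine hst _ (Γ₁.mul_mem (Γ₁.inv_mem (hγ _)) (Γ₁.mul_mem hg (hγ _))) (rep x) ?_
    rw [RelIso.mul_apply, RelIso.mul_apply, hγx x]
    have h3 := hγx (g x)
    rw [h1] at h3
    nth_rewrite 2 [← h3]
    exact RelIso.inv_apply_self _ _
  rw [hmul _ (Γ₁.inv_mem (hγ _)) _ (Γ₁.mul_mem hg (hγ _)), hmul _ hg _ (hγ _), hinv] at h2
  have h4 : χ (γ (g x)) = χ (γ x) + χ g := by omega
  simp only
  rw [h4]
  push_cast
  ring

lemma pois_lap_inv (Γ₁ : Subgroup (G ≃g G)) (χ : (G ≃g G) → ℤ) (η : V → ℝ)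
    (hη : ∀ g ∈ Γ₁, ∀ x, η (g x) = η x + χ g) : ∀ g ∈ Γ₁, ∀ x, lap hG η (g x) = lap hG η x := by
  intro g hg x
  unfold lap
  rw [← sum_nb_iso hG g x (fun y => η y - η (g x))]
  refine Finset.sum_congr rfl fun y _ => ?_
  rw [hη g hg, hη g hg]
  ring

theorem exists_harm_rep (o : V)
    (huni : ∀ x y, (Pool.H98.C.orb G x y).ncard = (Pool.H98.C.orb G y x).ncard)
    (Γ₁ : Subgroup (G ≃g G)) (hn : Γ₁.Normal) (hfi : Γ₁.FiniteIndex) (χ : (G ≃g G) → ℤ)
    (hmul : ∀ g ∈ Γ₁, ∀ h ∈ Γ₁, χ (g * h) = χ g + χ h)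
    (hst : ∀ g ∈ Γ₁, ∀ x, g x = x → χ g = 0) :
    ∃ u : V → ℝ, (∀ g ∈ Γ₁, ∀ x, u (g x) = u x + χ g) ∧ ∀ x, lap hG u x = 0 := by
  classical
  have hfin : Finite ((G ≃g G) ⧸ Γ₁) := Subgroup.finite_quotient_of_finiteIndex
  letI : Fintype ((G ≃g G) ⧸ Γ₁) := Fintype.ofFinite _
  obtain ⟨η, hη⟩ := pois_eta Γ₁ χ hmul hst
  -- the functional
  let ev : (V → ℝ) →ₗ[ℝ] ((G ≃g G) ⧸ Γ₁ → ℝ) :=
    { toFun := fun φ c => φ ((c.out⁻¹ : G ≃g G) o)
      map_add' := fun _ _ => rfl
      map_smul' := fun _ _ => rfl }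
  let l : (V → ℝ) →ₗ[ℝ] ℝ :=
    { toFun := fun φ => ∑ c : (G ≃g G) ⧸ Γ₁, φ ((c.out⁻¹ : G ≃g G) o)
      map_add' := fun φ ψ => by simp only [Pi.add_apply]; exact Finset.sum_add_distrib
      map_smul' := fun r φ => by
        simp only [Pi.smul_apply, smul_eq_mul, RingHom.id_apply]
        rw [Finset.mul_sum] }
  have hevinj : Function.Injective (ev.comp (pInv Γ₁).subtype) := by
    rw [← LinearMap.ker_eq_bot, LinearMap.ker_eq_bot']
    rintro ⟨φ, hφ⟩ h0
    apply Subtype.ext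
    funext x
    obtain ⟨c, hc⟩ := pois_range hG Γ₁ o φ hφ x
    show φ x = 0
    rw [hc]
    exact congrFun h0 c
  haveI : Module.Finite ℝ (pInv Γ₁) := Module.Finite.of_injective _ hevinj
  have hl_lap : ∀ φ : V → ℝ, (∀ g ∈ Γ₁, ∀ x y, φ (g y) - φ (g x) = φ y - φ x) →
      l (lap hG φ) = 0 := by
    intro φ hφ
    exact pois_div hG o huni Γ₁ (fun x y => φ y - φ x) hφ (fun x y => by ring)
  have hl1 : l (fun _ => 1) = (Fintype.card ((G ≃g G) ⧸ Γ₁) : ℝ) := by
    show ∑ c : (G ≃g G) ⧸ Γ₁, (1 : ℝ) = _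
    simp
  have hpos : (0 : ℝ) < (Fintype.card ((G ≃g G) ⧸ Γ₁) : ℝ) := by
    exact_mod_cast Fintype.card_pos
  -- the operator
  let T : pInv Γ₁ →ₗ[ℝ] pInv Γ₁ :=
    { toFun := fun φ => ⟨fun x => lap hG φ.1 x + l φ.1, by
        intro g hg x
        have h1 := pois_lap_inv hG Γ₁ (fun _ => 0) φ.1
          (fun g hg x => by rw [φ.2 g hg x]; simp) g hg x
        simp only
        rw [h1]⟩
      map_add' := fun φ ψ => by
        apply Subtype.ext
        funext x
        show lap hG (φ.1 + ψ.1) x + l (φ.1 + ψ.1) = (lap hG φ.1 x + l φ.1) + (lap hG ψ.1 x + l ψ.1)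
        rw [lap_add, map_add]
        ring
      map_smul' := fun r φ => by
        apply Subtype.ext
        funext x
        show lap hG (r • φ.1) x + l (r • φ.1) = r * (lap hG φ.1 x + l φ.1)
        rw [lap_smul, map_smul, smul_eq_mul]
        ring }
  have hTl : ∀ φ : pInv Γ₁, l (T φ).1 = l φ.1 * Fintype.card ((G ≃g G) ⧸ Γ₁) := by
    intro φ
    have h1 : (T φ).1 = lap hG φ.1 + (l φ.1) • (fun _ => (1 : ℝ)) := by
      funext x
      show lap hG φ.1 x + l φ.1 = lap hG φ.1 x + l φ.1 * 1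
      rw [mul_one]
    rw [h1, map_add, map_smul, hl1, hl_lap φ.1 (fun g hg x y => by rw [φ.2 g hg, φ.2 g hg]),
      smul_eq_mul, zero_add]
  have hinj : Function.Injective T := by
    rw [← LinearMap.ker_eq_bot, LinearMap.ker_eq_bot']
    intro φ h0
    have h1 := hTl φ
    rw [h0] at h1
    have h2 : l φ.1 = 0 := by
      have h3 : l (0 : pInv Γ₁).1 = 0 := map_zero l
      rw [h3] at h1
      rcases mul_eq_zero.1 h1.symm with h | h
      · exact h
      · exact absurd h hpos.ne'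
    have h3 : ∀ x, lap hG φ.1 x = 0 := by
      intro x
      have h4 := congrFun (congrArg Subtype.val h0) x
      have h5 : lap hG φ.1 x + l φ.1 = 0 := h4
      rw [h2, add_zero] at h5
      exact h5
    have h4 := const_of_inv hG Γ₁ hfi φ.1 φ.2 h3
    apply Subtype.ext
    funext x
    have h5 : φ.1 = (φ.1 x) • (fun _ => (1 : ℝ)) := by
      funext y
      show φ.1 y = φ.1 x * 1
      rw [mul_one]
      exact h4 y x
    rw [h5, map_smul, hl1, smul_eq_mul] at h2
    rcases mul_eq_zero.1 h2 with h | h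
    · exact h
    · exact absurd h hpos.ne'
  have hsurj := LinearMap.injective_iff_surjective.1 hinj
  obtain ⟨φ, hφ⟩ := hsurj ⟨lap hG η, pois_lap_inv hG Γ₁ χ η hη⟩
  have h1 := hTl φ
  rw [hφ] at h1
  have h2 : l (lap hG η) = 0 := hl_lap η (fun g hg x y => by rw [hη g hg, hη g hg]; ring)
  have h3 : l φ.1 = 0 := by
    have h4 : (0 : ℝ) = l φ.1 * Fintype.card ((G ≃g G) ⧸ Γ₁) := h2.symm.trans h1
    rcases mul_eq_zero.1 h4.symm with h | h
    · exact h
    · exact absurd h hpos.ne'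
  refine ⟨η - φ.1, ?_, ?_⟩
  · intro g hg x
    rw [Pi.sub_apply, Pi.sub_apply, hη g hg, φ.2 g hg]
    ring
  · intro x
    have h5 : lap hG φ.1 x + l φ.1 = lap hG η x := congrFun (congrArg Subtype.val hφ) x
    rw [h3, add_zero] at h5
    have h6 : η - φ.1 = η + (-1 : ℝ) • φ.1 := by
      funext y
      simp [sub_eq_add_neg]
    rw [h6, lap_add, lap_smul, h5]
    ring

end POIS

end Pool.H61.ST

end S_H61_ST_Pois

section S_H61_ST_Hom

set_option autoImplicit false

/-! Module HOM: homomorphism to the integers. -/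

namespace Pool.H61.ST

open Finset Pool.Agent.H61.SW Pool.H98.C

/-! ### commutative algebra -/

lemma hom_exists_int {A : Type*} [AddCommGroup A] [Module.Finite ℤ A] [Infinite A] :
    ∃ φ : A →+ ℤ, ∃ a, φ a ≠ 0 := by
  let Q := A ⧸ Submodule.torsion ℤ A
  rcases subsingleton_or_nontrivial Q with h | h
  · exfalso
    have h1 : Submodule.torsion ℤ A = ⊤ := Submodule.Quotient.subsingleton_iff.1 h
    have h2 : Module.IsTorsion ℤ A := Submodule.isTorsion'_iff_torsion'_eq_top _ |>.2 h1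
    have h3 := Module.finite_of_fg_torsion A h2
    exact not_finite A
  · have : Module.Free ℤ Q := Module.free_of_finite_type_torsion_free'
    let b := Module.Free.chooseBasis ℤ Q
    obtain ⟨i⟩ := b.index_nonempty
    obtain ⟨a, ha⟩ := Submodule.mkQ_surjective (Submodule.torsion ℤ A) (b i)
    refine ⟨((b.coord i).comp (Submodule.mkQ (Submodule.torsion ℤ A))).toAddMonoidHom, a, ?_⟩
    change b.coord i (Submodule.mkQ (Submodule.torsion ℤ A) a) ≠ 0
    rw [ha]
    simp

lemma hom_exists_chi {Γ' : Type} [Group Γ'] {B : Type} [AddCommGroup B] (c : Γ' → B)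
    (hc : ∀ g h, c (g * h) = c g + c h) (S : Set Γ') (hS : Subgroup.closure S = ⊤)
    (hfin : (c '' S).Finite) (hinf : (Set.range c).Infinite) :
    ∃ χ : Γ' → ℤ, (∀ g h, χ (g * h) = χ g + χ h) ∧ (∃ g, χ g ≠ 0) ∧
      ∀ g, (∃ n : ℕ, 0 < n ∧ n • c g = 0) → χ g = 0 := by
  let cA : Γ' →* Multiplicative B :=
    { toFun := fun g => Multiplicative.ofAdd (c g)
      map_one' := by
        have h1 := hc 1 1
        rw [mul_one] at h1
        have h2 : c 1 = 0 := by simpa using h1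
        rw [h2]; rfl
      map_mul' := fun g h => by rw [hc]; rfl }
  let A := Additive cA.range
  have hfg : Group.FG cA.range := by
    rw [Group.fg_iff]
    refine ⟨cA.rangeRestrict '' S, ?_, ?_⟩
    · rw [← MonoidHom.map_closure, hS, ← MonoidHom.range_eq_map]
      exact MonoidHom.range_eq_top.2 cA.rangeRestrict_surjective
    · have h1 : (Subtype.val '' (cA.rangeRestrict '' S)).Finite := by
        rw [← Set.image_comp]
        exact hfin
      exact h1.of_finite_image Subtype.val_injective.injOn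
  have hfinA : Module.Finite ℤ A := by
    rw [Module.Finite.iff_addGroup_fg]
    exact GroupFG.iff_add_fg.1 hfg
  have hinfA : Infinite A := by
    have h1 : (cA.range : Set (Multiplicative B)).Infinite := by
      have : (cA.range : Set (Multiplicative B)) = Set.range c := rfl
      rw [this]; exact hinf
    exact h1.to_subtype
  obtain ⟨φ, a, ha⟩ := hom_exists_int (A := A)
  let χ : Γ' → ℤ := fun g => φ (Additive.ofMul (cA.rangeRestrict g))
  have hχ : ∀ g h, χ (g * h) = χ g + χ h := by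
    intro g h
    simp only [χ, map_mul, ofMul_mul, map_add]
  refine ⟨χ, hχ, ?_, ?_⟩
  · obtain ⟨g, hg⟩ := cA.rangeRestrict_surjective (Additive.toMul a)
    exact ⟨g, by simp only [χ, hg]; exact ha⟩
  · rintro g ⟨n, hn, hng⟩
    have h1 : (cA.rangeRestrict g) ^ n = 1 := by
      apply Subtype.ext
      exact hng
    have h2 : n • (Additive.ofMul (cA.rangeRestrict g)) = 0 := by
      rw [← ofMul_pow, h1]; rfl
    have h3 := congrArg φ h2
    rw [map_nsmul, map_zero, nsmul_eq_mul, mul_eq_zero] at h3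
    rcases h3 with h3 | h3
    · exact absurd (by exact_mod_cast h3) hn.ne'
    · exact h3

section
variable {V : Type} {G : SimpleGraph V} (hG : TG G)

/-! ### the action -/

lemma hom_act_mem (o : V) (g : G ≃g G) {u : V → ℝ} (hu : u ∈ LH hG o) : act o g u ∈ LH hG o := by
  obtain ⟨h1, h2, C, h3⟩ := hu
  refine ⟨by simp [act], fun x => ?_, C, fun x y hxy => ?_⟩
  · have e : lap hG (act o g u) x = lap hG (u ∘ g.symm) x := by
      unfold lap act
      exact Finset.sum_congr rfl fun y _ => by simp only [Function.comp]; ring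
    rw [e, lap_comp, h2]
  · have := h3 (g.symm x) (g.symm y) (g.symm.map_adj_iff.2 hxy)
    simp only [act]
    rwa [sub_sub_sub_cancel_right]

/-- the representation -/
noncomputable def homRho (o : V) : (G ≃g G) →* Module.End ℝ (LH hG o) where
  toFun g :=
    { toFun := fun u => ⟨act o g u.1, hom_act_mem hG o g u.2⟩
      map_add' := fun u v => Subtype.ext (by
        funext x
        simp only [act, Submodule.coe_add, Pi.add_apply]; ring)
      map_smul' := fun c u => Subtype.ext (by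
        funext x
        simp only [act, Submodule.coe_smul, Pi.smul_apply, smul_eq_mul, RingHom.id_apply]; ring) }
  map_one' := by
    refine LinearMap.ext fun u => Subtype.ext ?_
    funext x
    have h0 : u.1 o = 0 := u.2.1
    change u.1 ((1 : G ≃g G).symm x) - u.1 ((1 : G ≃g G).symm o) = u.1 x
    have h1 : ∀ y, (1 : G ≃g G).symm y = y := fun y => rfl
    rw [h1, h1, h0, sub_zero]
  map_mul' g h := by
    refine LinearMap.ext fun u => Subtype.ext ?_
    funext x
    change u.1 ((g * h).symm x) - u.1 ((g * h).symm o) =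
      (u.1 (h.symm (g.symm x)) - u.1 (h.symm o)) - (u.1 (h.symm (g.symm o)) - u.1 (h.symm o))
    have h1 : ∀ y, (g * h).symm y = h.symm (g.symm y) := fun y => rfl
    rw [h1, h1]; ring

lemma homRho_apply (o : V) (g : G ≃g G) (u : LH hG o) (x : V) :
    (homRho hG o g u).1 x = u.1 (g.symm x) - u.1 (g.symm o) := rfl

/-- functions in `LH` are determined on a ball -/
lemma hom_exists_R (o : V) (hfd : Module.Finite ℝ (LH hG o)) :
    ∃ R : ℕ, ∀ u : LH hG o, (∀ x, G.dist o x ≤ R → u.1 x = 0) → u = 0 := by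
  let K : ℕ → Submodule ℝ (LH hG o) := fun R =>
    { carrier := {u | ∀ x, G.dist o x ≤ R → u.1 x = 0}
      add_mem' := fun {u v} hu hv x hx => by
        simp only [Submodule.coe_add, Pi.add_apply, hu x hx, hv x hx, add_zero]
      zero_mem' := fun x _ => rfl
      smul_mem' := fun c u hu x hx => by
        simp only [Submodule.coe_smul, Pi.smul_apply, hu x hx, smul_zero] }
  have hanti : ∀ {m n : ℕ}, m ≤ n → K n ≤ K m := fun h u hu x hx => hu x (hx.trans h)
  obtain ⟨R, hR⟩ := IsArtinian.monotone_stabilizes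
    (⟨fun n => OrderDual.toDual (K n), fun m n h => hanti h⟩ : ℕ →o (Submodule ℝ (LH hG o))ᵒᵈ)
  refine ⟨R, fun u hu => Subtype.ext (funext fun x => ?_)⟩
  have h1 := hR (max R (G.dist o x)) (le_max_left _ _)
  have h2 : K R = K (max R (G.dist o x)) := h1
  have h3 : u ∈ K (max R (G.dist o x)) := h2 ▸ (hu : u ∈ K R)
  exact h3 x (le_max_right _ _)

/-- elements moving `o` a bounded amount have finitely many images -/
lemma hom_finite (o : V) (hfd : Module.Finite ℝ (LH hG o)) (K : ℕ) :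
    {a | ∃ g : G ≃g G, G.dist o (g o) ≤ K ∧ homRho hG o g = a}.Finite := by
  classical
  obtain ⟨R, hR⟩ := hom_exists_R hG o hfd
  have hdet : ∀ g h : G ≃g G, (∀ x, G.dist o x ≤ R → g.symm x = h.symm x) →
      homRho hG o g = homRho hG o h := by
    intro g h hgh
    refine LinearMap.ext fun u => ?_
    rw [← sub_eq_zero]
    apply hR
    intro x hx
    change (u.1 (g.symm x) - u.1 (g.symm o)) - (u.1 (h.symm x) - u.1 (h.symm o)) = 0
    rw [hgh x hx, hgh o (by simp)]; ring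
  let F : (G ≃g G) → ↥(bl hG o R) → V := fun g x => g.symm x
  have hFin : (F '' {g | G.dist o (g o) ≤ K}).Finite := by
    let T : Set (↥(bl hG o R) → V) := Set.pi Set.univ (fun _ => (bl hG o (K + R) : Set V))
    have hT : T.Finite := Set.Finite.pi fun _ => Finset.finite_toSet _
    refine hT.subset ?_
    rintro _ ⟨g, hg, rfl⟩ x _
    rw [Finset.mem_coe, mem_bl]
    have h1 : G.dist o (g.symm o) = G.dist (g o) o := by
      rw [← dist_iso hG.conn g o (g.symm o), g.apply_symm_apply]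
    have h2 : G.dist (g.symm o) (g.symm x.1) = G.dist o x.1 := dist_iso hG.conn g.symm o x.1
    have h3 := hG.tri o (g.symm o) (g.symm x.1)
    have h4 : G.dist o x.1 ≤ R := (mem_bl hG o x.1 R).1 x.2
    have h5 : G.dist o (g o) ≤ K := hg
    rw [SimpleGraph.dist_comm] at h5
    change G.dist o (g.symm x.1) ≤ K + R
    omega
  let P : (↥(bl hG o R) → V) → Module.End ℝ (LH hG o) := fun f =>
    if h : ∃ g, F g = f then homRho hG o h.choose else 0
  refine (hFin.image P).subset ?_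
  rintro _ ⟨g, hg, rfl⟩
  refine ⟨F g, ⟨g, hg, rfl⟩, ?_⟩
  have hex : ∃ g', F g' = F g := ⟨g, rfl⟩
  simp only [P, dif_pos hex]
  apply hdet
  intro x hx
  exact congrFun hex.choose_spec ⟨x, (mem_bl hG o x R).2 hx⟩

/-! ### generation -/

include hG in
lemma hom_step (x y : V) (hne : x ≠ y) :
    ∃ z, G.dist z y = 1 ∧ G.dist x z = G.dist x y - 1 := by
  obtain ⟨p, hp⟩ := hG.conn.exists_walk_length_eq_dist y x
  cases p with
  | nil => exact absurd rfl hne
  | @cons _ z _ hadj q =>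
    rw [SimpleGraph.Walk.length_cons] at hp
    have h2 := SimpleGraph.dist_le q
    have h3 := hG.tri x z y
    have h4 : G.dist z y = 1 := SimpleGraph.dist_eq_one_iff_adj.2 hadj.symm
    refine ⟨z, h4, ?_⟩
    rw [SimpleGraph.dist_comm] at h2
    have h5 : G.dist y x = G.dist x y := SimpleGraph.dist_comm
    omega

include hG in
lemma hom_closure_one (o : V) :
    Subgroup.closure {g : G ≃g G | G.dist o (g o) ≤ 1} = ⊤ := by
  have key : ∀ n : ℕ, ∀ g : G ≃g G, G.dist o (g o) = n →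
      g ∈ Subgroup.closure {g : G ≃g G | G.dist o (g o) ≤ 1} := by
    intro n
    induction n using Nat.strong_induction_on with
    | _ n ih =>
    intro g hn
    by_cases h1 : n ≤ 1
    · exact Subgroup.subset_closure (by rw [Set.mem_ofPred_eq, hn]; exact h1)
    · push Not at h1
      have hne : o ≠ g o := by
        intro h
        rw [← h, SimpleGraph.dist_self] at hn
        omega
      obtain ⟨y, hy, hyo⟩ := hom_step hG o (g o) hne
      rw [hn] at hyo
      obtain ⟨h, hh⟩ := hG.tr o y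
      have e : g = h * (h⁻¹ * g) := by group
      rw [e]
      refine mul_mem (ih (n - 1) (by omega) h (by rw [hh]; exact hyo)) ?_
      refine Subgroup.subset_closure ?_
      rw [Set.mem_ofPred_eq]
      have e2 : (h⁻¹ * g) o = h.symm (g o) := rfl
      have e3 : h.symm y = o := by rw [← hh, h.symm_apply_apply]
      rw [e2]
      have := dist_iso hG.conn h.symm y (g o)
      rw [e3] at this
      rw [this, hy]
  rw [eq_top_iff]
  intro g _
  exact key _ g rfl

include hG in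
lemma hom_gen (o : V) (H : Subgroup (G ≃g G)) (hfi : H.FiniteIndex) :
    ∃ K : ℕ, Subgroup.closure {h : H | G.dist o (h.1 o) ≤ K} = ⊤ := by
  obtain ⟨R₀, hR, hR1⟩ := H.exists_isComplement_right 1
  have hRfin : R₀.Finite := hR.finite_right
  obtain ⟨K0, hK0⟩ : ∃ K0 : ℕ, ∀ r ∈ R₀, G.dist o (r o) ≤ K0 := by
    obtain ⟨K0, hK0⟩ := (hRfin.image (fun r : G ≃g G => G.dist o (r o))).bddAbove
    exact ⟨K0, fun r hr => hK0 ⟨r, hr, rfl⟩⟩
  refine ⟨K0 + 1 + K0, ?_⟩
  have h1 := Subgroup.closure_mul_image_eq_top hR hR1 (hom_closure_one hG o)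
  rw [eq_top_iff, ← h1]
  refine Subgroup.closure_mono ?_
  rintro _ ⟨_, ⟨r, hr, s, hs, rfl⟩, rfl⟩
  rw [Set.mem_ofPred_eq]
  set r' := (hR.toRightFun (r * s) : G ≃g G) with hr'
  have hr'm : r' ∈ R₀ := (hR.toRightFun (r * s)).2
  have e1 : ((r * s) * r'⁻¹) o = r (s (r'.symm o)) := rfl
  change G.dist o (((r * s) * r'⁻¹) o) ≤ _
  rw [e1]
  have a1 := hG.tri o (r o) (r (s (r'.symm o)))
  rw [dist_iso hG.conn r] at a1
  have a2 := hG.tri o (s o) (s (r'.symm o))
  rw [dist_iso hG.conn s] at a2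
  have a3 : G.dist o (r'.symm o) = G.dist (r' o) o := by
    rw [← dist_iso hG.conn r' o (r'.symm o), r'.apply_symm_apply]
  have a4 := hK0 r hr
  have a5 := hK0 r' hr'm
  rw [SimpleGraph.dist_comm] at a5
  have a6 : G.dist o (s o) ≤ 1 := hs
  omega

lemma hom_fin_pow {M : Type*} [Group M] {N : Type*} [Monoid N] (f : M →* N) (g : M) (S : Set N)
    (hS : S.Finite) (h : ∀ n : ℕ, f (g ^ n) ∈ S) : ∃ n : ℕ, 0 < n ∧ f g ^ n = 1 := by
  obtain ⟨m, n, hmn, he⟩ := Set.Finite.exists_lt_map_eq_of_forall_mem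
    (f := fun n : ℕ => f (g ^ n)) h hS
  refine ⟨n - m, by omega, ?_⟩
  rw [← map_pow]
  have e : g ^ (n - m) = (g ^ m)⁻¹ * g ^ n := by
    rw [eq_inv_mul_iff_mul_eq, ← pow_add]
    congr 1
    omega
  have he' : f (g ^ m) = f (g ^ n) := he
  rw [e, map_mul, ← he', ← map_mul, inv_mul_cancel, map_one]

lemma hom_pow_fix {g : G ≃g G} {x : V} (hx : g x = x) (n : ℕ) : (g ^ n) x = x := by
  induction n with
  | zero => rw [pow_zero]; rfl
  | succ n ih => rw [pow_succ, RelIso.mul_apply, hx, ih]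

/-- stabilisers act by elements of finite order -/
lemma hom_finOrder (o : V) (hfd : Module.Finite ℝ (LH hG o)) {g : G ≃g G} {x : V} (hx : g x = x) :
    ∃ n : ℕ, 0 < n ∧ (homRho hG o g) ^ n = 1 := by
  refine hom_fin_pow (homRho hG o) g _ (hom_finite hG o hfd (2 * G.dist o x)) ?_
  intro n
  refine ⟨g ^ n, ?_, rfl⟩
  have h1 := hG.tri o x ((g ^ n) o)
  have h2 := dist_iso hG.conn (g ^ n) x o
  rw [hom_pow_fix hx n] at h2
  rw [SimpleGraph.dist_comm (u := x) (v := o)] at h2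
  omega

theorem exists_hom (hinf : Infinite V) (o : V) (hfd : Module.Finite ℝ (LH hG o))
    (hne : ∃ u ∈ LH hG o, u ≠ 0) (Γ₀ : Subgroup (G ≃g G)) (hfi : Γ₀.FiniteIndex)
    (hab : ∀ g ∈ Γ₀, ∀ h ∈ Γ₀, ∀ u ∈ LH hG o, act o (g * h) u = act o (h * g) u) :
    ∃ (Γ₁ : Subgroup (G ≃g G)) (χ : (G ≃g G) → ℤ), Γ₁.FiniteIndex ∧
      (∀ g ∈ Γ₁, ∀ h ∈ Γ₁, χ (g * h) = χ g + χ h) ∧ (∃ g ∈ Γ₁, χ g ≠ 0) ∧
      ∀ g ∈ Γ₁, ∀ x, g x = x → χ g = 0 := by
  classical
  -- extension of a homomorphism defined on a subgroup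
  have ext : ∀ (Γ₁ : Subgroup (G ≃g G)) (_ : Γ₁.FiniteIndex) (χ : Γ₁ → ℤ),
      (∀ g h, χ (g * h) = χ g + χ h) → (∃ g, χ g ≠ 0) →
      (∀ g : Γ₁, ∀ x, g.1 x = x → χ g = 0) →
      ∃ (Γ₁ : Subgroup (G ≃g G)) (χ : (G ≃g G) → ℤ), Γ₁.FiniteIndex ∧
      (∀ g ∈ Γ₁, ∀ h ∈ Γ₁, χ (g * h) = χ g + χ h) ∧ (∃ g ∈ Γ₁, χ g ≠ 0) ∧
      ∀ g ∈ Γ₁, ∀ x, g x = x → χ g = 0 := by
    intro Γ₁ hf χ h1 h2 h3
    refine ⟨Γ₁, fun g => if h : g ∈ Γ₁ then χ ⟨g, h⟩ else 0, hf, ?_, ?_, ?_⟩
    · intro g hg h hh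
      beta_reduce
      rw [dif_pos hg, dif_pos hh, dif_pos (mul_mem hg hh)]
      exact h1 ⟨g, hg⟩ ⟨h, hh⟩
    · obtain ⟨g, hg⟩ := h2
      exact ⟨g.1, g.2, by beta_reduce; rw [dif_pos g.2]; exact hg⟩
    · intro g hg x hx
      beta_reduce
      rw [dif_pos hg]
      exact h3 ⟨g, hg⟩ x hx
  let ρ := (homRho hG o).toHomUnits
  let f : Γ₀ →* (Module.End ℝ (LH hG o))ˣ := ρ.comp Γ₀.subtype
  have hρval : ∀ g, ((ρ g : (Module.End ℝ (LH hG o))ˣ) : Module.End ℝ (LH hG o)) =
      homRho hG o g := fun g => rfl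
  have hcomm : ∀ a b : f.range, a * b = b * a := by
    rintro ⟨_, g, rfl⟩ ⟨_, h, rfl⟩
    apply Subtype.ext
    apply Units.ext
    change homRho hG o g.1 * homRho hG o h.1 = homRho hG o h.1 * homRho hG o g.1
    rw [← map_mul, ← map_mul]
    refine LinearMap.ext fun u => Subtype.ext ?_
    exact hab g.1 g.2 h.1 h.2 u.1 u.2
  let _ : CommGroup f.range := { (inferInstance : Group f.range) with mul_comm := hcomm }
  by_cases hran : (Set.range (fun g : Γ₀ => f.rangeRestrict g)).Infinite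
  · -- infinite image
    obtain ⟨K, hK⟩ := hom_gen hG o Γ₀ hfi
    obtain ⟨χ, h1, h2, h3⟩ := hom_exists_chi (Γ' := Γ₀) (B := Additive f.range)
      (fun g => Additive.ofMul (f.rangeRestrict g)) (fun g h => by rw [map_mul]; rfl) _ hK (by
        have hfin := hom_finite hG o hfd K
        have h4 : ((fun a : Additive f.range =>
            (((Additive.toMul a).1 : (Module.End ℝ (LH hG o))ˣ) : Module.End ℝ (LH hG o))) ''
            ((fun g : Γ₀ => Additive.ofMul (f.rangeRestrict g)) ''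
              {h : Γ₀ | G.dist o (h.1 o) ≤ K})).Finite := by
          refine hfin.subset ?_
          rintro _ ⟨_, ⟨g, hg, rfl⟩, rfl⟩
          exact ⟨g.1, hg, rfl⟩
        refine h4.of_finite_image ?_
        intro a _ b _ hab'
        exact Subtype.ext (Units.ext hab')) hran
    refine ext Γ₀ hfi χ h1 h2 ?_
    intro g x hx
    apply h3
    obtain ⟨n, hn, hpow⟩ := hom_finOrder hG o hfd hx
    refine ⟨n, hn, ?_⟩
    have h5 : (f.rangeRestrict g) ^ n = 1 := by
      apply Subtype.ext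
      apply Units.ext
      exact hpow
    rw [← ofMul_pow, h5]; rfl
  · -- finite image
    rw [Set.not_infinite] at hran
    obtain ⟨u, hu, hu0⟩ := hne
    let Γ₁ : Subgroup (G ≃g G) := Γ₀ ⊓ ρ.ker
    have hfi₁ : Γ₁.FiniteIndex := by
      have hfr : Finite f.range := by
        have h1 : (Set.univ : Set f.range).Finite := by
          refine hran.subset ?_
          rintro a -
          exact f.rangeRestrict_surjective a
        exact Set.finite_univ_iff.1 h1
      have h1 : f.ker.index ≠ 0 := by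
        rw [Subgroup.index_ker]
        exact Nat.card_pos.ne'
      have h2 : f.ker = ρ.ker.subgroupOf Γ₀ := by
        ext g; rfl
      have h3 : Γ₁.relIndex Γ₀ ≠ 0 := by
        change (Γ₀ ⊓ ρ.ker).relIndex Γ₀ ≠ 0
        rw [Subgroup.inf_relIndex_left]
        rw [h2] at h1
        exact h1
      refine ⟨?_⟩
      rw [← Subgroup.relIndex_mul_index (inf_le_left : Γ₁ ≤ Γ₀)]
      exact mul_ne_zero h3 hfi.index_ne_zero
    have hact : ∀ g ∈ Γ₁, ∀ x, u (g x) = u x + u (g o) := by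
      intro g hg x
      have h1 : g⁻¹ ∈ Γ₁ := inv_mem hg
      have h2 : ρ g⁻¹ = 1 := h1.2
      have h3 : homRho hG o g⁻¹ = 1 := by
        rw [← hρval, h2]; rfl
      have h4 := congrArg (fun a => (a ⟨u, hu⟩ : LH hG o).1 x) h3
      have h5 : u ((g⁻¹).symm x) - u ((g⁻¹).symm o) = u x := h4
      have h6 : ∀ y, (g⁻¹).symm y = g y := fun y => rfl
      rw [h6, h6] at h5
      linarith
    obtain ⟨K, hK⟩ := hom_gen hG o Γ₁ hfi₁
    let c : Γ₁ → ℝ := fun g => u (g.1 o)
    have hc : ∀ g h, c (g * h) = c g + c h := by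
      intro g h
      change u (g.1 (h.1 o)) = u (g.1 o) + u (h.1 o)
      rw [hact g.1 g.2]; ring
    have hcne : ∃ g, c g ≠ 0 := by
      by_contra hcon
      push Not at hcon
      have hinv : ∀ g ∈ Γ₁, ∀ x, u (g x) = u x := by
        intro g hg x
        rw [hact g hg x]
        have := hcon ⟨g, hg⟩
        change u (g o) = 0 at this
        rw [this, add_zero]
      have hconst := const_of_inv hG Γ₁ hfi₁ u hinv hu.2.1
      apply hu0
      funext x
      rw [hconst x o, hu.1]; rfl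
    obtain ⟨χ, h1, h2, h3⟩ := hom_exists_chi (Γ' := Γ₁) (B := ℝ) c hc _ hK (by
        refine ((bl hG o K).finite_toSet.image u).subset ?_
        rintro _ ⟨g, hg, rfl⟩
        exact ⟨g.1 o, (mem_bl hG o _ K).2 hg, rfl⟩) (by
        obtain ⟨g, hg⟩ := hcne
        have hpow : ∀ n : ℕ, c (g ^ n) = n * c g := by
          intro n
          induction n with
          | zero =>
            have : c 1 = 0 := by
              have := hc 1 1
              rw [mul_one] at this
              linarith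
            simp [this]
          | succ n ih => rw [pow_succ, hc, ih]; push_cast; ring
        refine Set.infinite_of_injective_forall_mem (f := fun n : ℕ => (n : ℝ) * c g) ?_ ?_
        · intro m n hmn
          have := mul_right_cancel₀ hg hmn
          exact_mod_cast this
        · intro n
          exact ⟨g ^ n, hpow n⟩)
    refine ext Γ₁ hfi₁ χ h1 h2 ?_
    intro g x hx
    apply h3
    refine ⟨1, one_pos, ?_⟩
    rw [one_nsmul]
    have := hact g.1 g.2 x
    rw [hx] at this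
    change u (g.1 o) = 0
    linarith

end

end Pool.H61.ST

end S_H61_ST_Hom

section S_H61_ST_Str

set_option autoImplicit false

/-! Strict height structures. -/

namespace Pool.H61.ST

open Finset Pool.Agent.H61.SW Pool.H98.C

section STR
variable {V : Type} {G : SimpleGraph V} (hG : TG G)

include hG in
theorem exists_HS (o : V)
    (huni : ∀ x y, (Pool.H98.C.orb G x y).ncard = (Pool.H98.C.orb G y x).ncard)
    (Γ₁ : Subgroup (G ≃g G)) (hfi : Γ₁.FiniteIndex) (χ : (G ≃g G) → ℤ)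
    (hmul : ∀ g ∈ Γ₁, ∀ h ∈ Γ₁, χ (g * h) = χ g + χ h) (hne : ∃ g ∈ Γ₁, χ g ≠ 0)
    (hst : ∀ g ∈ Γ₁, ∀ x, g x = x → χ g = 0) : Nonempty (HS G) :=
  exists_HS_core hG o
    (fun Γ hn hf ψ h1 h2 => exists_harm_rep hG o huni Γ hn hf ψ h1 h2)
    (fun Γ hf u h1 h2 => const_of_inv hG Γ hf u h1 h2) Γ₁ hfi χ hmul hne hst

end STR

end Pool.H61.ST

end S_H61_ST_Str

section S_H61_ST_Heavy0

set_option autoImplicit false

/-! Heavy families from a decomposition of walks into few pieces (general form). -/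

namespace Pool.H61.ST

open Finset Pool.Agent.H61.SW Pool.H98.C Filter

variable {V : Type} {G : SimpleGraph V}

lemma CP_restrict {P : V → List V → Prop} (K n : ℕ) (v : V) (s : List V) (h : CP P n v s)
    (hs : s.length ≤ K) : CP (fun v c => P v c ∧ c.length ≤ K) n v s := by
  induction n generalizing v s with
  | zero => exact h
  | succ n ih =>
    obtain ⟨c, t, rfl, h1, h2⟩ := h
    rw [List.length_append] at hs
    exact ⟨c, t, rfl, ⟨h1, by omega⟩, ih _ _ h2 (by omega)⟩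

/-- If walks decompose into few pieces with property `P`, some family of pieces is heavy. -/
theorem heavy_of_dec (hG : TG G) (P : V → List V → Prop) (hP : ∀ v s, P v s → sa G v s)
    (A₀ : ℕ) (hdec : ∀ (v : V) (s : List V), sa G v s → ∀ H : ℕ, 1 ≤ H →
      ∃ n, CP P n v s ∧ n * H ≤ s.length + 2 * H * (A₀ * H + 1))
    (o : V) (t q : ℝ) (ht : 0 < t) (hq : 1 < q)
    (hc : ∀ᶠ n : ℕ in atTop, q ^ n ≤ (cnt (sa G) o n : ℝ) * t ^ n) (A : ℝ) :
    ∃ (m : ℕ) (v : V), A < (cnt P v m : ℝ) * t ^ m := by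
  by_contra hcon
  push Not at hcon
  set A' : ℝ := max A 1 with hA'
  have hA1 : 1 ≤ A' := le_max_right _ _
  set C : ℕ := 2 * A₀ + 3 with hC
  -- the basic estimate
  have key : ∀ j : ℕ, 1 ≤ j → (cnt (sa G) o (j * j) : ℝ) * t ^ (j * j) ≤
      (2 * (((j * j : ℕ) : ℝ) + 1) * A') ^ (C * j) := by
    intro j hj
    set m := j * j with hm
    set P' : V → List V → Prop := fun v c => P v c ∧ c.length ≤ m with hP'
    set W : ℝ := ((m : ℝ) + 1) * A' with hWdef
    have hW1 : 1 ≤ W := by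
      have : (0 : ℝ) ≤ m := Nat.cast_nonneg _
      nlinarith
    set N : ℕ := (2 * A₀ + 1) * j + 2 with hN
    have h1 := count_peel hG o t ht P' m (fun v c h => ⟨hP v c h.1, h.2⟩) W hW1 ?_ m 0 N ?_
    · have hcnt0 : cnt (sa G) o 0 = 1 := by
        rw [cnt, Set.ncard_eq_one]
        refine ⟨[], ?_⟩
        ext s
        simp only [Set.mem_ofPred_eq, Set.mem_singleton_iff]
        constructor
        · rintro ⟨h, -⟩; exact List.length_eq_zero_iff.1 h
        · rintro rfl; exact ⟨rfl, sa_nil o⟩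
      have hs0 : (∑ k ∈ Finset.range (0 + 1), (cnt (sa G) o k : ℝ) * t ^ k) = 1 := by
        rw [zero_add, Finset.sum_range_one, hcnt0]; simp
      rw [hs0, one_pow, mul_one] at h1
      refine h1.trans ?_
      have h2 : ((N : ℝ) + 1) ≤ 2 ^ N := by
        have := Nat.lt_two_pow_self (n := N)
        exact_mod_cast this
      have hW0 : 0 ≤ W ^ N := pow_nonneg (by linarith) _
      have h3 : ((N : ℝ) + 1) * W ^ N ≤ (2 * W) ^ N := by
        rw [mul_pow 2 W N]
        exact mul_le_mul_of_nonneg_right h2 hW0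
      refine h3.trans ?_
      have h4 : (2 * W) ^ N ≤ (2 * W) ^ (C * j) := by
        apply pow_le_pow_right₀ (by linarith)
        rw [hN, hC]
        nlinarith
      refine h4.trans (le_of_eq ?_)
      rw [hWdef]; ring
    · intro v
      have h2 : ∀ k ∈ Finset.range (m + 1), (cnt P' v k : ℝ) * t ^ k ≤ A' := by
        intro k _
        refine le_trans ?_ ((hcon k v).trans (le_max_left _ _))
        refine mul_le_mul_of_nonneg_right ?_ (by positivity)
        rw [Nat.cast_le]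
        apply Set.ncard_le_ncard
        · rintro s ⟨h, h'⟩; exact ⟨h, h'.1⟩
        · exact fin_of_imp hG.lf (fun v s h => (hP v s h).1) k v
      refine (Finset.sum_le_sum h2).trans (le_of_eq ?_)
      rw [Finset.sum_const, Finset.card_range, nsmul_eq_mul, hWdef]
      push_cast; ring
    · intro s hs hsm
      obtain ⟨n, hn, hn'⟩ := hdec o s hs j hj
      refine ⟨n, ?_, [], s, [], by simp, by simp, ?_⟩
      · rw [hsm, hm] at hn'
        have h5 : n * j ≤ N * j := by
          rw [hN]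
          nlinarith
        exact Nat.le_of_mul_le_mul_right h5 (by omega)
      · exact CP_restrict m n _ s hn (by omega)
  -- exponential growth against polynomial growth
  have hlim := tendsto_pow_const_div_const_pow_of_one_lt (2 * C) hq
  have hB : 0 < (4 * A') ^ C := by positivity
  have hev : ∀ᶠ j : ℕ in atTop, ((j : ℝ) ^ (2 * C) / q ^ j) < 1 / (4 * A') ^ C := by
    have := hlim.eventually (gt_mem_nhds (show (0 : ℝ) < 1 / (4 * A') ^ C by positivity))
    exact this
  have hc' : ∀ᶠ j : ℕ in atTop, q ^ (j * j) ≤ (cnt (sa G) o (j * j) : ℝ) * t ^ (j * j) := by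
    have : Tendsto (fun j : ℕ => j * j) atTop atTop :=
      tendsto_atTop_mono (fun j => Nat.le_mul_self j) tendsto_id
    exact this.eventually hc
  obtain ⟨j, ⟨hj1, hj2⟩, hj3⟩ := ((hev.and hc').and (eventually_ge_atTop 1)).exists
  have hj4 : (1 : ℝ) ≤ j := by exact_mod_cast hj3
  have h5 := hj2.trans (key j hj3)
  have h6 : (q ^ j) ^ j ≤ ((2 * (((j * j : ℕ) : ℝ) + 1) * A') ^ C) ^ j := by
    rw [← pow_mul, ← pow_mul]; exact h5
  have h7 : q ^ j ≤ (2 * (((j * j : ℕ) : ℝ) + 1) * A') ^ C :=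
    le_of_pow_le_pow_left₀ (by omega) (by positivity) h6
  have h8 : (2 * (((j * j : ℕ) : ℝ) + 1) * A') ≤ (4 * A') * (j : ℝ) ^ 2 := by
    push_cast
    nlinarith [mul_self_nonneg ((j : ℝ) - 1)]
  have h9 : q ^ j ≤ (4 * A') ^ C * (j : ℝ) ^ (2 * C) := by
    refine h7.trans ((pow_le_pow_left₀ (by positivity) h8 C).trans (le_of_eq ?_))
    rw [mul_pow, ← pow_mul]
  have hqj : 0 < q ^ j := by positivity
  rw [div_lt_div_iff₀ hqj hB] at hj1
  linarith

end Pool.H61.ST

end S_H61_ST_Heavy0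

section S_H61_ST_Heavy

set_option autoImplicit false

/-! Heavy families of monotone pieces. -/

namespace Pool.H61.ST

open Finset Pool.Agent.H61.SW Pool.H98.C Filter

variable {V : Type} {G : SimpleGraph V}

theorem exists_heavy (hG : TG G) (hs : HS G) (o : V) (t q : ℝ) (ht : 0 < t) (hq : 1 < q)
    (hc : ∀ᶠ n : ℕ in atTop, q ^ n ≤ (cnt (sa G) o n : ℝ) * t ^ n) (A : ℝ) :
    ∃ (m : ℕ) (v : V), A < (cnt (Pc G hs.u) v m : ℝ) * t ^ m := by
  obtain ⟨A₀, h⟩ := hw_dec hG hs
  exact heavy_of_dec hG (Pc G hs.u) (fun _ _ h => h.1) A₀ h o t q ht hq hc A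

end Pool.H61.ST

end S_H61_ST_Heavy

section S_H61_ST_Tube

set_option autoImplicit false

/-! Module TUBE: families of walks between `x` and `g x` (Hammersley-Welsh, closed up by a
bounded detour). -/

namespace Pool.H61.ST

open Finset Pool.Agent.H61.SW Pool.H98.C Filter

variable {V : Type} {G : SimpleGraph V} (hG : TG G)

/-- all walks of `F` go from `x` to `g x`, with heights in `[u x, u (g x))` except at the end -/
def TubeAt (G : SimpleGraph V) (u : V → ℝ) (g : G ≃g G) (x : V) (F : Finset (List V)) : Prop :=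
  ∀ s ∈ F, sa G x s ∧ en x s = g x ∧ ∀ z ∈ x :: s, z ≠ g x → u x ≤ u z ∧ u z < u (g x)

/-! ### Basic facts on height structures -/

/-- the opposite height structure -/
def h59_neg (hs : HS G) : HS G where
  Γ := hs.Γ
  nor := hs.nor
  fi := hs.fi
  χ := fun g => - hs.χ g
  mul := by
    intro g hg h hh
    have := hs.mul g hg h hh
    omega
  ne := by
    obtain ⟨g, hg, h⟩ := hs.ne
    exact ⟨g, hg, by simpa using h⟩
  u := fun x => - hs.u x
  equi := by
    intro g hg x
    have := hs.equi g hg x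
    push_cast
    linarith
  up := by
    intro x
    obtain ⟨y, h1, h2⟩ := hs.dn x
    exact ⟨y, h1, by linarith⟩
  dn := by
    intro x
    obtain ⟨y, h1, h2⟩ := hs.up x
    exact ⟨y, h1, by linarith⟩

/-- finitely many orbit representatives -/
theorem h59_reps (hG : TG G) (Γ : Subgroup (G ≃g G)) (hfi : Γ.FiniteIndex) (o : V) :
    ∃ S : Finset V, ∀ x, ∃ g ∈ Γ, ∃ s ∈ S, g s = x := by
  classical
  have : Finite ((G ≃g G) ⧸ Γ) := Subgroup.finite_quotient_of_finiteIndex
  have : Fintype ((G ≃g G) ⧸ Γ) := Fintype.ofFinite _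
  refine ⟨Finset.univ.image (fun q : (G ≃g G) ⧸ Γ => (q.out)⁻¹ o), ?_⟩
  intro x
  obtain ⟨h, hx⟩ := hG.tr o x
  set k : G ≃g G := (QuotientGroup.mk (h⁻¹) : (G ≃g G) ⧸ Γ).out with hk
  have h1 : k⁻¹ * h⁻¹ ∈ Γ := by
    rw [← QuotientGroup.eq]
    exact Quotient.out_eq _
  refine ⟨h * k, ?_, k⁻¹ o, Finset.mem_image.2 ⟨_, Finset.mem_univ _, rfl⟩, ?_⟩
  · have := Γ.inv_mem h1
    simpa using this
  · have : (h * k) (k⁻¹ o) = (h * k * k⁻¹) o := rfl
    rw [this, mul_inv_cancel_right]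
    exact hx

theorem h59_lip (hG : TG G) (hs : HS G) : ∃ L : ℝ, 0 ≤ L ∧
    ∀ x y, |hs.u x - hs.u y| ≤ L * (G.dist x y : ℝ) := by
  classical
  obtain ⟨o⟩ := hG.conn.nonempty
  obtain ⟨S, hS⟩ := h59_reps hG hs.Γ hs.fi o
  have hb : ∃ L : ℝ, 0 ≤ L ∧ ∀ s ∈ S, ∀ y ∈ nb hG s, |hs.u s - hs.u y| ≤ L := by
    refine ⟨∑ s ∈ S, ∑ y ∈ nb hG s, |hs.u s - hs.u y|,
      Finset.sum_nonneg fun _ _ => Finset.sum_nonneg fun _ _ => abs_nonneg _, ?_⟩
    intro s h1 y h2
    refine le_trans ?_ (Finset.single_le_sum (f := fun s => ∑ y ∈ nb hG s, |hs.u s - hs.u y|)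
      (fun _ _ => Finset.sum_nonneg fun _ _ => abs_nonneg _) h1)
    exact Finset.single_le_sum (f := fun y => |hs.u s - hs.u y|) (fun _ _ => abs_nonneg _) h2
  obtain ⟨L, hL0, hL⟩ := hb
  have hadj : ∀ x y, G.Adj x y → |hs.u x - hs.u y| ≤ L := by
    intro x y hxy
    obtain ⟨g, hg, s, hs1, rfl⟩ := hS x
    have h1 : g (g.symm y) = y := g.apply_symm_apply y
    have h2 : G.Adj s (g.symm y) := by
      rw [← g.map_adj_iff, h1]; exact hxy
    have h3 := hL s hs1 _ ((mem_nb hG).2 h2)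
    have h4 := hs.equi g hg s
    have h5 := hs.equi g hg (g.symm y)
    rw [h1] at h5
    rw [h4, h5]
    rw [show hs.u s + (hs.χ g : ℝ) - (hs.u (g.symm y) + (hs.χ g : ℝ)) =
      hs.u s - hs.u (g.symm y) by ring]
    exact h3
  refine ⟨L, hL0, ?_⟩
  have key : ∀ (s : List V) (x : V), ch G x s → |hs.u x - hs.u (en x s)| ≤ L * s.length := by
    intro s
    induction s with
    | nil => intro x _; simp
    | cons a s ih =>
      intro x h
      have h1 := hadj x a h.1
      have h2 := ih a h.2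
      rw [en_cons, List.length_cons]
      push_cast
      have h3 : |hs.u x - hs.u (en a s)| ≤ |hs.u x - hs.u a| + |hs.u a - hs.u (en a s)| :=
        abs_sub_le _ _ _
      linarith
  intro x y
  have h1 := key (geo hG x y) x (ch_geo hG x y)
  rwa [en_geo, length_geo] at h1

theorem h59_near (hG : TG G) (hs : HS G) : ∃ C : ℕ, ∀ z z' : V, ∃ g ∈ hs.Γ, G.dist z (g z') ≤ C := by
  classical
  obtain ⟨o⟩ := hG.conn.nonempty
  obtain ⟨S, hS⟩ := h59_reps hG hs.Γ hs.fi o
  refine ⟨∑ a ∈ S, ∑ b ∈ S, G.dist a b, ?_⟩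
  intro z z'
  obtain ⟨g1, hg1, a, ha, rfl⟩ := hS z
  obtain ⟨g2, hg2, b, hb, rfl⟩ := hS z'
  refine ⟨g1 * g2⁻¹, hs.Γ.mul_mem hg1 (hs.Γ.inv_mem hg2), ?_⟩
  have h1 : (g1 * g2⁻¹) (g2 b) = g1 b := by
    have : (g1 * g2⁻¹) (g2 b) = (g1 * g2⁻¹ * g2) b := rfl
    rw [this, inv_mul_cancel_right]
  rw [h1, dist_iso hG.conn]
  refine le_trans ?_ (Finset.single_le_sum (f := fun a => ∑ b ∈ S, G.dist a b)
    (fun _ _ => Nat.zero_le _) ha)
  exact Finset.single_le_sum (f := fun b => G.dist a b) (fun _ _ => Nat.zero_le _) hb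

theorem h59_gap (hG : TG G) (hs : HS G) : ∃ c : ℝ, 0 < c ∧
    ∀ x, ∃ y, G.Adj x y ∧ hs.u x + c ≤ hs.u y := by
  classical
  obtain ⟨o⟩ := hG.conn.nonempty
  obtain ⟨S, hS⟩ := h59_reps hG hs.Γ hs.fi o
  choose f hf1 hf2 using hs.up
  have hc : ∃ c : ℝ, 0 < c ∧ ∀ s ∈ S, c ≤ hs.u (f s) - hs.u s := by
    clear hS
    induction S using Finset.induction_on with
    | empty => exact ⟨1, one_pos, by simp⟩
    | insert a S ha ih =>
      obtain ⟨c, hc0, hc⟩ := ih
      refine ⟨min c (hs.u (f a) - hs.u a), lt_min hc0 (by linarith [hf2 a]), ?_⟩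
      intro s hs'
      rcases Finset.mem_insert.1 hs' with rfl | hs'
      · exact min_le_right _ _
      · exact (min_le_left _ _).trans (hc s hs')
  obtain ⟨c, hc0, hc⟩ := hc
  refine ⟨c, hc0, ?_⟩
  intro x
  obtain ⟨g, hg, s, hs1, rfl⟩ := hS x
  refine ⟨g (f s), g.map_adj_iff.2 (hf1 s), ?_⟩
  rw [hs.equi g hg, hs.equi g hg]
  linarith [hc s hs1]

/-- climbing -/
theorem h59_climb (u : V → ℝ) (c : ℝ) (hc : 0 < c) (hup : ∀ x, ∃ y, G.Adj x y ∧ u x + c ≤ u y)
    (N : ℕ) : ∀ y : V, ∃ l : List V, ch G y l ∧ l.length = N ∧ (∀ z ∈ l, u y < u z) ∧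
      (∀ z ∈ y :: l, u z ≤ u (en y l)) ∧ u y + N * c ≤ u (en y l) := by
  induction N with
  | zero => intro y; exact ⟨[], trivial, rfl, by simp, by simp, by simp⟩
  | succ N ih =>
    intro y
    obtain ⟨y1, h1, h2⟩ := hup y
    obtain ⟨l, a1, a2, a3, a4, a5⟩ := ih y1
    refine ⟨y1 :: l, ⟨h1, a1⟩, by simp [a2], ?_, ?_, ?_⟩
    · intro z hz
      rcases List.mem_cons.1 hz with rfl | hz
      · linarith
      · linarith [a3 z hz]
    · intro z hz
      rw [en_cons]
      rcases List.mem_cons.1 hz with rfl | hz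
      · linarith [a4 y1 (by simp)]
      · exact a4 z hz
    · rw [en_cons]
      push_cast
      linarith

/-- the detour: from the top `y` to a translate of the bottom `v` -/
theorem h59_detour (hG : TG G) (hs : HS G) : ∃ K : ℕ, ∀ v y : V, hs.u v ≤ hs.u y →
    ∃ g ∈ hs.Γ, ∃ p : List V, p.length ≤ K ∧ sa G y p ∧ en y p = g v ∧ hs.u y < hs.u (g v) ∧
      (∀ z ∈ p, hs.u y < hs.u z) ∧ ∀ z ∈ p, z ≠ g v → hs.u z < hs.u (g v) := by
  obtain ⟨L, hL0, hL⟩ := h59_lip hG hs
  obtain ⟨C, hC⟩ := h59_near hG hs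
  obtain ⟨c1, hc1, hup⟩ := h59_gap hG hs
  obtain ⟨c2, hc2, hdn⟩ := h59_gap hG (h59_neg hs)
  obtain ⟨N1, hN1⟩ := exists_nat_gt ((2 * L * C + 1) / c1)
  obtain ⟨N2, hN2⟩ := exists_nat_gt ((2 * L * C + 1) / c2)
  rw [div_lt_iff₀ hc1] at hN1
  rw [div_lt_iff₀ hc2] at hN2
  refine ⟨N1 + (C + N2), ?_⟩
  intro v y hvy
  obtain ⟨l1, a1, a2, a3, a4, a5⟩ := h59_climb hs.u c1 hc1 hup N1 y
  obtain ⟨l2, b1, b2, b3, b4, b5⟩ := h59_climb (h59_neg hs).u c2 hc2 hdn N2 v
  have nu : ∀ z, (h59_neg hs).u z = - hs.u z := fun _ => rfl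
  simp only [nu] at b3 b4 b5
  set z1 := en y l1 with hz1
  set q := en v l2 with hq
  obtain ⟨g, hg, hd⟩ := hC z1 q
  have hLz : ∀ w, G.dist z1 w ≤ C → |hs.u z1 - hs.u w| ≤ L * C := by
    intro w hw
    refine (hL z1 w).trans (mul_le_mul_of_nonneg_left (by exact_mod_cast hw) hL0)
  have hgq := abs_le.1 (hLz _ hd)
  have egv := hs.equi g hg v
  have egq := hs.equi g hg q
  -- heights of the three parts
  have hp1 : ∀ w ∈ l1, hs.u y < hs.u w ∧ hs.u w < hs.u (g v) := by
    intro w hw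
    refine ⟨a3 w hw, ?_⟩
    have h1 := a4 w (List.mem_cons_of_mem _ hw)
    linarith [hgq.1, hgq.2]
  have hp2 : ∀ w ∈ geo hG z1 (g q), hs.u y < hs.u w ∧ hs.u w < hs.u (g v) := by
    intro w hw
    have h1 := abs_le.1 (hLz w ((mem_geo_dist hG hw).trans hd))
    constructor
    · linarith [h1.1, h1.2]
    · linarith [h1.1, h1.2, hgq.1, hgq.2]
  have hp3 : ∀ w ∈ (rv v l2).map g, hs.u y < hs.u w ∧ (w ≠ g v → hs.u w < hs.u (g v)) := by
    intro w hw
    obtain ⟨w', hw', rfl⟩ := List.mem_map.1 hw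
    have hw2 : w' ∈ v :: l2 := mem_rv.1 (List.mem_cons_of_mem _ hw')
    have h2 := b4 w' hw2
    have e1 := hs.equi g hg w'
    constructor
    · linarith [hgq.1, hgq.2]
    · intro hne
      rcases List.mem_cons.1 hw2 with h3 | h3
      · exact absurd (by rw [h3]) hne
      · have := b3 w' h3
        linarith
  have hch : ch G y (l1 ++ (geo hG z1 (g q) ++ (rv v l2).map g)) := by
    rw [ch_append, ch_append]
    refine ⟨a1, ch_geo hG _ _, ?_⟩
    rw [← hz1, en_geo, ch_map]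
    exact ch_rv v l2 b1
  have hen : en y (l1 ++ (geo hG z1 (g q) ++ (rv v l2).map g)) = g v := by
    rw [en_append, en_append, ← hz1, en_geo, en_map, en_rv]
  obtain ⟨p, c1', c2', c3', c4'⟩ := loop_erase y _ hch
  refine ⟨g, hg, p, ?_, c1', by rw [c2', hen], by linarith [hgq.1, hgq.2, b5], ?_, ?_⟩
  · refine c3'.trans ?_
    simp only [List.length_append, List.length_map, length_rv, length_geo]
    omega
  · intro w hw
    have := c4' w hw
    simp only [List.mem_append] at this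
    rcases this with h | h | h
    · exact (hp1 w h).1
    · exact (hp2 w h).1
    · exact (hp3 w h).1
  · intro w hw hne
    have := c4' w hw
    simp only [List.mem_append] at this
    rcases this with h | h | h
    · exact (hp1 w h).2
    · exact (hp2 w h).2
    · exact (hp3 w h).2 hne

/-- the tube from a heavy family with common end points -/
theorem h59_close (hG : TG G) (hs : HS G) : ∃ K : ℕ, ∀ (t : ℝ), 0 < t → t ≤ 1 → ∀ (m : ℕ) (v y : V)
    (F₀ : Finset (List V)), (∀ s ∈ F₀, s.length = m ∧ sa G v s ∧ en v s = y ∧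
      ∀ z ∈ v :: s, hs.u v ≤ hs.u z ∧ hs.u z ≤ hs.u y) → F₀.Nonempty →
    ∃ (g : G ≃g G) (F : Finset (List V)), g ∈ hs.Γ ∧ 0 < hs.χ g ∧ TubeAt G hs.u g v F ∧
      (F₀.card : ℝ) * t ^ m * t ^ K ≤ ∑ s ∈ F, t ^ s.length := by
  classical
  obtain ⟨K, hK⟩ := h59_detour hG hs
  refine ⟨K, ?_⟩
  intro t ht ht1 m v y F₀ hF₀ hne
  obtain ⟨s0, hs0⟩ := hne
  have hvy : hs.u v ≤ hs.u y := by
    have h1 := (hF₀ s0 hs0).2.2.2 v (by simp)
    exact h1.2
  obtain ⟨g, hg, p, b1, b2, b3, hgv, b4, b5⟩ := hK v y hvy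
  refine ⟨g, F₀.image (fun s => s ++ p), hg, ?_, ?_, ?_⟩
  · have h1 := hs.equi g hg v
    have : (0 : ℝ) < hs.χ g := by linarith
    exact_mod_cast this
  · intro s hs'
    obtain ⟨s, hs1, rfl⟩ := Finset.mem_image.1 hs'
    obtain ⟨c1, c2, c3, c4⟩ := hF₀ s hs1
    refine ⟨⟨?_, ?_⟩, ?_, ?_⟩
    · rw [ch_append, c3]
      exact ⟨c2.1, b2.1⟩
    · rw [← List.cons_append, List.nodup_append]
      refine ⟨c2.2, (List.nodup_cons.1 b2.2).2, ?_⟩
      rintro a ha b hb rfl
      exact absurd (b4 a hb) (not_lt.2 (c4 a ha).2)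
    · rw [en_append, c3, b3]
    · intro z hz hzne
      rw [← List.cons_append, List.mem_append] at hz
      rcases hz with hz | hz
      · have := c4 z hz
        exact ⟨this.1, lt_of_le_of_lt this.2 hgv⟩
      · exact ⟨by linarith [b4 z hz], b5 z hz hzne⟩
  · rw [Finset.sum_image (fun x _ y _ h => List.append_cancel_right h)]
    have : ∀ s ∈ F₀, t ^ m * t ^ K ≤ t ^ (s ++ p).length := by
      intro s hs1
      rw [List.length_append, (hF₀ s hs1).1, pow_add]
      exact mul_le_mul_of_nonneg_left (pow_le_pow_of_le_one ht.le ht1 b1) (pow_nonneg ht.le _)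
    calc (F₀.card : ℝ) * t ^ m * t ^ K = ∑ s ∈ F₀, t ^ m * t ^ K := by
          rw [Finset.sum_const, nsmul_eq_mul]; ring
      _ ≤ _ := Finset.sum_le_sum this

/-- pigeonhole for the end point -/
theorem h59_pigeon [DecidableEq V] (hG : TG G) (m : ℕ) (v : V) (T : Finset (List V))
    (hT : ∀ s ∈ T, s.length = m ∧ ch G v s) :
    ∃ y, T.card ≤ (bl hG v m).card * (T.filter (fun s => en v s = y)).card := by
  by_contra hcon
  push Not at hcon
  have h1 : T.card = ∑ y ∈ bl hG v m, (T.filter (fun s => en v s = y)).card := by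
    refine Finset.card_eq_sum_card_fiberwise ?_
    intro s hs
    have h2 := hT s hs
    rw [Finset.mem_coe, mem_bl, ← h2.1]
    exact dist_mem_ch h2.2 (en_mem_cons v s)
  have h2 : ∑ y ∈ bl hG v m, (bl hG v m).card * (T.filter (fun s => en v s = y)).card <
      ∑ _y ∈ bl hG v m, T.card :=
    Finset.sum_lt_sum_of_nonempty (bl_nonempty hG v m) fun y _ => hcon y
  rw [← Finset.mul_sum, ← h1, Finset.sum_const, smul_eq_mul] at h2
  exact lt_irrefl _ h2

theorem exists_tube (hs : HS G) (o : V) (D : ℕ) (hpg : PG hG o D) (t q : ℝ) (ht : 0 < t)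
    (ht1 : t ≤ 1) (hq : 1 < q)
    (hc : ∀ᶠ n : ℕ in atTop, q ^ n ≤ (cnt (sa G) o n : ℝ) * t ^ n) (Λ : ℝ) :
    ∃ (hs' : HS G) (g : G ≃g G) (x : V) (F : Finset (List V)), g ∈ hs'.Γ ∧ 0 < hs'.χ g ∧
      TubeAt G hs'.u g x F ∧ Λ ≤ ∑ s ∈ F, t ^ s.length := by
  classical
  obtain ⟨K1, hK1⟩ := h59_close hG hs
  obtain ⟨K2, hK2⟩ := h59_close hG (h59_neg hs)
  set q1 := Real.sqrt q with hq1d
  have hq1 : 1 < q1 := by
    rw [hq1d]
    exact Real.lt_sqrt_of_sq_lt (by simpa using hq)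
  have hq10 : 0 < q1 := by linarith
  have hq1q : q1 * q1 = q := Real.mul_self_sqrt (by linarith)
  obtain ⟨C, hC0, hC⟩ := subexp hG o D hpg q1 hq1
  set K := max K1 K2 with hK
  obtain ⟨m, v, hmv⟩ := exists_heavy hG hs o (t / q1) q1 (by positivity) hq1 (by
    filter_upwards [hc] with n hn
    rw [div_pow, ← mul_div_assoc, le_div_iff₀ (by positivity), ← mul_pow, hq1q]
    exact hn) (2 * C * ((|Λ| + 1) / t ^ K))
  -- the finite set of pieces
  have hfin := fin_of_imp hG.lf (P := Pc G hs.u) (fun v s h => h.1.1) m v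
  set S := hfin.toFinset with hS
  have hcard : cnt (Pc G hs.u) v m = S.card := by
    rw [cnt, Set.ncard_eq_toFinset_card _ hfin]
  have hmem : ∀ s, s ∈ S ↔ s.length = m ∧ Pc G hs.u v s := fun s => by
    rw [hS, Set.Finite.mem_toFinset]; rfl
  rw [hcard] at hmv
  set Su := S.filter (fun s => ∀ z ∈ v :: s, hs.u v ≤ hs.u z ∧ hs.u z ≤ hs.u (en v s)) with hSu
  set Sd := S.filter (fun s => ∀ z ∈ v :: s, hs.u z ≤ hs.u v ∧ hs.u (en v s) ≤ hs.u z) with hSd
  have hsub : S ⊆ Su ∪ Sd := by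
    intro s hs'
    rcases ((hmem s).1 hs').2.2 with h | h
    · exact Finset.mem_union_left _ (Finset.mem_filter.2 ⟨hs', h⟩)
    · exact Finset.mem_union_right _ (Finset.mem_filter.2 ⟨hs', h⟩)
  have hle : S.card ≤ Su.card + Sd.card :=
    (Finset.card_le_card hsub).trans (Finset.card_union_le _ _)
  -- a general estimate
  have key : ∀ T : Finset (List V), T ⊆ S → S.card ≤ 2 * T.card → ∃ y,
      (|Λ| + 1) / t ^ K < ((T.filter (fun s => en v s = y)).card : ℝ) * t ^ m := by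
    intro T hTS hT2
    obtain ⟨y, hy⟩ := h59_pigeon hG m v T (fun s h => ⟨((hmem s).1 (hTS h)).1,
      ((hmem s).1 (hTS h)).2.1.1⟩)
    refine ⟨y, ?_⟩
    set a := (T.filter (fun s => en v s = y)).card with ha
    have h1 : (S.card : ℝ) ≤ 2 * (C * q1 ^ m * a) := by
      have h2 : (S.card : ℝ) ≤ 2 * (T.card : ℝ) := by exact_mod_cast hT2
      have h3 : (T.card : ℝ) ≤ ((bl hG v m).card : ℝ) * a := by exact_mod_cast hy
      have h4 : ((bl hG v m).card : ℝ) ≤ C * q1 ^ m := by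
        rw [card_bl hG v o m]; exact hC m
      have h5 : ((bl hG v m).card : ℝ) * a ≤ C * q1 ^ m * a :=
        mul_le_mul_of_nonneg_right h4 (Nat.cast_nonneg _)
      linarith
    have h6 : (S.card : ℝ) * (t / q1) ^ m ≤ 2 * C * (a * t ^ m) := by
      have h7 : 0 ≤ (t / q1) ^ m := by positivity
      refine (mul_le_mul_of_nonneg_right h1 h7).trans (le_of_eq ?_)
      rw [div_pow]
      field_simp
    have h8 := lt_of_lt_of_le hmv h6
    exact lt_of_mul_lt_mul_left h8 (by positivity)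
  have hpos : 0 < (|Λ| + 1) / t ^ K := by positivity
  have fin : ∀ (Ki : ℕ) (a : ℝ), Ki ≤ K → (|Λ| + 1) / t ^ K < a → Λ ≤ a * t ^ Ki := by
    intro Ki a h1 h2
    have h3 : t ^ K ≤ t ^ Ki := pow_le_pow_of_le_one ht.le ht1 h1
    have h4 : 0 < t ^ K := by positivity
    rw [div_lt_iff₀ h4] at h2
    have h5 : a * t ^ K ≤ a * t ^ Ki := by
      refine mul_le_mul_of_nonneg_left h3 ?_
      by_contra h6
      push Not at h6
      nlinarith [abs_nonneg Λ]
    linarith [le_abs_self Λ]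
  rcases le_total Sd.card Su.card with h | h
  · obtain ⟨y, hy⟩ := key Su (Finset.filter_subset _ _) (by omega)
    set F₀ := Su.filter (fun s => en v s = y) with hF₀
    have hne : F₀.Nonempty := by
      rw [← Finset.card_pos]
      by_contra h0
      have h00 : F₀.card = 0 := by omega
      rw [h00] at hy
      simp only [Nat.cast_zero, zero_mul] at hy
      linarith
    obtain ⟨g, F, a1, a2, a3, a4⟩ := hK1 t ht ht1 m v y F₀ (by
      intro s h1
      obtain ⟨h2, h3⟩ := Finset.mem_filter.1 h1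
      obtain ⟨h4, h5⟩ := Finset.mem_filter.1 h2
      obtain ⟨h6, h7⟩ := (hmem s).1 h4
      rw [h3] at h5
      exact ⟨h6, h7.1, h3, h5⟩) hne
    exact ⟨hs, g, v, F, a1, a2, a3, (fin K1 _ (le_max_left _ _) hy).trans a4⟩
  · obtain ⟨y, hy⟩ := key Sd (Finset.filter_subset _ _) (by omega)
    set F₀ := Sd.filter (fun s => en v s = y) with hF₀
    have hne : F₀.Nonempty := by
      rw [← Finset.card_pos]
      by_contra h0
      have h00 : F₀.card = 0 := by omega
      rw [h00] at hy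
      simp only [Nat.cast_zero, zero_mul] at hy
      linarith
    obtain ⟨g, F, a1, a2, a3, a4⟩ := hK2 t ht ht1 m v y F₀ (by
      intro s h1
      obtain ⟨h2, h3⟩ := Finset.mem_filter.1 h1
      obtain ⟨h4, h5⟩ := Finset.mem_filter.1 h2
      obtain ⟨h6, h7⟩ := (hmem s).1 h4
      rw [h3] at h5
      refine ⟨h6, h7.1, h3, fun z hz => ?_⟩
      have h8 := h5 z hz
      exact ⟨neg_le_neg h8.1, neg_le_neg h8.2⟩) hne
    exact ⟨h59_neg hs, g, v, F, a1, a2, a3, (fin K2 _ (le_max_right _ _) hy).trans a4⟩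

end Pool.H61.ST

end S_H61_ST_Tube
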