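import Mathlib
import Pool.Agent.H61.LC.L1

set_option autoImplicit false

/-! Locality of connective constants, part L7: this file joins several modules to save build time. -/

section S_H61_ST_FdimA

set_option autoImplicit false

/-! Auxiliary lemmas for the module FDIM (helper93). -/

namespace Pool.H61.ST

open Finset Pool.Agent.H61.SW Pool.H98.C

section general

theorem finite_of_bound {W : Type} [AddCommGroup W] [Module ℝ W] (N0 : ℕ)
    (h : ∀ (m : ℕ) (u : Fin m → W), LinearIndependent ℝ u → m ≤ N0) : Module.Finite ℝ W := by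
  by_contra hcon
  have h1 : Cardinal.aleph0 ≤ Module.rank ℝ W := by
    by_contra h2
    rw [not_le] at h2
    exact hcon (Module.rank_lt_aleph0_iff.1 h2)
  have h2 : ((N0 + 1 : ℕ) : Cardinal) ≤ Module.rank ℝ W :=
    (Cardinal.natCast_lt_aleph0).le.trans h1
  rw [le_rank_iff_exists_linearIndependent_finset] at h2
  obtain ⟨s, hs, hli⟩ := h2
  have h3 := h (N0 + 1) (fun i => ((s.equivFinOfCardEq hs).symm i : W))
    (hli.comp (s.equivFinOfCardEq hs).symm (s.equivFinOfCardEq hs).symm.injective)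
  omega

theorem sq_sum_pairs {V : Type} (B : Finset V) (u : V → ℝ) (h0 : ∑ x ∈ B, u x = 0) :
    ∑ x ∈ B, ∑ y ∈ B, (u x - u y) ^ 2 = 2 * B.card * ∑ x ∈ B, (u x) ^ 2 := by
  have h1 : ∀ x ∈ B, ∑ y ∈ B, (u x - u y) ^ 2
      = B.card * (u x) ^ 2 - 2 * u x * (∑ y ∈ B, u y) + ∑ y ∈ B, (u y) ^ 2 := by
    intro x _
    have : ∀ y ∈ B, (u x - u y) ^ 2 = (u x) ^ 2 - 2 * u x * u y + (u y) ^ 2 := fun y _ => by ring
    rw [Finset.sum_congr rfl this, Finset.sum_add_distrib, Finset.sum_sub_distrib,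
      ← Finset.mul_sum, Finset.sum_const, nsmul_eq_mul]
  rw [Finset.sum_congr rfl h1]
  simp only [h0, mul_zero, sub_zero]
  rw [Finset.sum_add_distrib, ← Finset.mul_sum, Finset.sum_const, nsmul_eq_mul]
  ring

end general

variable {V : Type} {G : SimpleGraph V} (hG : TG G)

include hG in
/-- a maximal separated net of a ball -/
theorem exists_sep_net (o : V) (R ρ : ℕ) : ∃ N : Finset V, (∀ n ∈ N, G.dist o n ≤ R) ∧
    (∀ a ∈ N, ∀ b ∈ N, a ≠ b → ρ < G.dist a b) ∧
    (∀ y, G.dist o y ≤ R → ∃ n ∈ N, G.dist n y ≤ ρ) := by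
  classical
  set F : Finset (Finset V) := (bl hG o R).powerset.filter
    (fun N => ∀ a ∈ N, ∀ b ∈ N, a ≠ b → ρ < G.dist a b) with hF
  have hne : F.Nonempty := ⟨∅, by simp [hF]⟩
  obtain ⟨N, hN, hmax⟩ := Finset.exists_max_image F Finset.card hne
  rw [hF, Finset.mem_filter, Finset.mem_powerset] at hN
  obtain ⟨hsub, hsep⟩ := hN
  have hD : ∀ n ∈ N, G.dist o n ≤ R := fun n hn => (mem_bl hG o n R).1 (hsub hn)
  refine ⟨N, hD, hsep, ?_⟩
  intro y hy
  by_contra hcon
  push Not at hcon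
  have hyN : y ∉ N := by
    intro h
    have := hcon y h
    simp at this
  have h1 : insert y N ∈ F := by
    rw [hF, Finset.mem_filter, Finset.mem_powerset]
    refine ⟨?_, ?_⟩
    · intro z hz
      rcases Finset.mem_insert.1 hz with rfl | hz
      · exact (mem_bl hG o z R).2 hy
      · exact hsub hz
    · intro a ha b hb hab
      rcases Finset.mem_insert.1 ha with rfl | ha
      · rcases Finset.mem_insert.1 hb with rfl | hb
        · exact absurd rfl hab
        · rw [SimpleGraph.dist_comm]; exact hcon b hb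
      · rcases Finset.mem_insert.1 hb with hb | hb
        · rw [hb]; exact hcon a ha
        · exact hsep a ha b hb hab
  have h2 := hmax _ h1
  rw [Finset.card_insert_of_notMem hyN] at h2
  omega

/-- packing bound for separated sets near a point -/
theorem sep_card (o a : V) (S ρ : ℕ) (N : Finset V) (hN : ∀ n ∈ N, G.dist a n ≤ S)
    (hsep : ∀ x ∈ N, ∀ y ∈ N, x ≠ y → ρ < G.dist x y) :
    N.card * (bl hG o (ρ / 2)).card ≤ (bl hG o (S + ρ / 2)).card := by
  classical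
  have hdisj : (N : Set V).PairwiseDisjoint (fun n => bl hG n (ρ / 2)) := by
    intro x hx y hy hxy
    rw [Function.onFun, Finset.disjoint_left]
    intro z hz1 hz2
    rw [mem_bl] at hz1 hz2
    have h1 := hsep x hx y hy hxy
    have h2 := hG.tri x z y
    rw [SimpleGraph.dist_comm (u := z) (v := y)] at h2
    omega
  have h1 : N.biUnion (fun n => bl hG n (ρ / 2)) ⊆ bl hG a (S + ρ / 2) := by
    intro z hz
    rw [Finset.mem_biUnion] at hz
    obtain ⟨n, hn, hz⟩ := hz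
    rw [mem_bl] at hz ⊢
    have h2 := hG.tri a n z
    have h3 := hN n hn
    omega
  have h2 := Finset.card_le_card h1
  rw [Finset.card_biUnion hdisj] at h2
  have h3 : ∀ n ∈ N, (bl hG n (ρ / 2)).card = (bl hG o (ρ / 2)).card := fun n _ =>
    card_bl hG n o _
  rw [Finset.sum_congr rfl h3, Finset.sum_const, smul_eq_mul, card_bl hG a o] at h2
  exact h2

lemma fd_bl_mono (x : V) {r s : ℕ} (h : r ≤ s) : bl hG x r ⊆ bl hG x s := by
  intro y hy
  rw [mem_bl] at hy ⊢
  omega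

lemma card_bl_mono (x : V) {r s : ℕ} (h : r ≤ s) : (bl hG x r).card ≤ (bl hG x s).card :=
  Finset.card_le_card (fd_bl_mono hG x h)

lemma mem_LH {o : V} {u : V → ℝ} (hu : u ∈ LH hG o) :
    u o = 0 ∧ (∀ x, lap hG u x = 0) ∧ ∃ C, Lip G C u := hu

include hG in
/-- Lipschitz bound -/
lemma fd_lip_dist (o : V) {C : ℝ} (hC : 0 ≤ C) {u : V → ℝ} (h : Lip G C u) (h0 : u o = 0) (x : V) :
    |u x| ≤ C * G.dist o x := by
  obtain ⟨p, hp⟩ := hG.conn.exists_walk_length_eq_dist o x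
  have key : ∀ (a b : V) (p : G.Walk a b), |u b - u a| ≤ C * p.length := by
    intro a b p
    induction p with
    | nil => simp
    | cons hadj q ih =>
      rename_i a c b
      have h1 := h _ _ hadj
      have h2 : |u b - u a| ≤ |u b - u c| + |u a - u c| := by
        have : u b - u a = (u b - u c) - (u a - u c) := by ring
        rw [this]
        exact abs_sub _ _
      rw [SimpleGraph.Walk.length_cons]
      push_cast
      nlinarith
  have := key o x p
  rw [h0, sub_zero, hp] at this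
  exact this

end Pool.H61.ST

end S_H61_ST_FdimA

section S_H61_ST_FdimB

set_option autoImplicit false

/-! Gram matrices for the module FDIM (helper93). -/

namespace Pool.H61.ST

open Finset Pool.Agent.H61.SW Pool.H98.C Matrix

variable {V : Type} {G : SimpleGraph V} (hG : TG G)

/-- linear combination -/
noncomputable def ev {m : ℕ} (u : Fin m → V → ℝ) (w : Fin m → ℝ) (x : V) : ℝ := ∑ i, w i * u i x

/-- Gram matrix on a ball -/
noncomputable def GM (o : V) {m : ℕ} (u : Fin m → V → ℝ) (R : ℕ) : Matrix (Fin m) (Fin m) ℝ :=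
  Matrix.of fun i j => ∑ x ∈ bl hG o R, u i x * u j x

theorem GM_form (o : V) {m : ℕ} (u : Fin m → V → ℝ) (R : ℕ) (w : Fin m → ℝ) :
    w ⬝ᵥ (GM hG o u R *ᵥ w) = ∑ x ∈ bl hG o R, (ev u w x) ^ 2 := by
  unfold ev
  have h1 : ∀ x, (∑ i, w i * u i x) ^ 2 = ∑ i, ∑ j, w i * (u i x * u j x) * w j := by
    intro x
    rw [sq, Finset.sum_mul_sum]
    exact Finset.sum_congr rfl fun i _ => Finset.sum_congr rfl fun j _ => by ring
  simp_rw [h1]
  rw [Finset.sum_comm]
  unfold dotProduct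
  refine Finset.sum_congr rfl fun i _ => ?_
  unfold Matrix.mulVec dotProduct
  rw [Finset.mul_sum, Finset.sum_comm]
  refine Finset.sum_congr rfl fun j _ => ?_
  show w i * ((∑ x ∈ bl hG o R, u i x * u j x) * w j) = _
  rw [Finset.sum_mul, Finset.mul_sum]
  exact Finset.sum_congr rfl fun x _ => by ring

theorem GM_symm (o : V) {m : ℕ} (u : Fin m → V → ℝ) (R : ℕ) : (GM hG o u R).IsHermitian := by
  ext i j
  show (∑ x ∈ bl hG o R, u j x * u i x) = ∑ x ∈ bl hG o R, u i x * u j x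
  exact Finset.sum_congr rfl fun x _ => by ring

theorem GM_posSemidef (o : V) {m : ℕ} (u : Fin m → V → ℝ) (R : ℕ) :
    (GM hG o u R).PosSemidef := by
  refine Matrix.PosSemidef.of_dotProduct_mulVec_nonneg (GM_symm hG o u R) fun w => ?_
  have : star w = w := by ext i; simp
  rw [this, GM_form]
  exact Finset.sum_nonneg fun x _ => sq_nonneg _

theorem GM_le (o : V) {m : ℕ} (u : Fin m → V → ℝ) {R S : ℕ} (h : R ≤ S) (w : Fin m → ℝ) :
    w ⬝ᵥ (GM hG o u R *ᵥ w) ≤ w ⬝ᵥ (GM hG o u S *ᵥ w) := by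
  rw [GM_form, GM_form]
  exact Finset.sum_le_sum_of_subset_of_nonneg (fd_bl_mono hG o h) fun x _ _ => sq_nonneg _

theorem GM_posDef (o : V) {m : ℕ} (u : Fin m → V → ℝ) (R : ℕ)
    (h0 : ∀ w : Fin m → ℝ, (∀ x ∈ bl hG o R, ev u w x = 0) → w = 0) :
    (GM hG o u R).PosDef := by
  refine Matrix.PosDef.of_dotProduct_mulVec_pos (GM_symm hG o u R) fun w hw => ?_
  have : star w = w := by ext i; simp
  rw [this, GM_form]
  have h1 : 0 ≤ ∑ x ∈ bl hG o R, (ev u w x) ^ 2 := Finset.sum_nonneg fun x _ => sq_nonneg _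
  refine lt_of_le_of_ne h1 fun h2 => hw (h0 w fun x hx => ?_)
  have h3 := (Finset.sum_eq_zero_iff_of_nonneg (fun x _ => sq_nonneg (ev u w x))).1 h2.symm x hx
  exact pow_eq_zero_iff (two_ne_zero) |>.1 h3

/-- combinations vanishing on a ball -/
noncomputable def KR (o : V) {m : ℕ} (u : Fin m → V → ℝ) (R : ℕ) :
    Submodule ℝ (Fin m → ℝ) where
  carrier := {w | ∀ x ∈ bl hG o R, ev u w x = 0}
  add_mem' := by
    intro a b ha hb x hx
    have : ev u (a + b) x = ev u a x + ev u b x := by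
      unfold ev
      rw [← Finset.sum_add_distrib]
      exact Finset.sum_congr rfl fun i _ => by simp only [Pi.add_apply]; ring
    rw [this, ha x hx, hb x hx, add_zero]
  zero_mem' := by
    intro x _
    simp [ev]
  smul_mem' := by
    intro c a ha x hx
    have : ev u (c • a) x = c * ev u a x := by
      unfold ev
      rw [Finset.mul_sum]
      exact Finset.sum_congr rfl fun i _ => by simp only [Pi.smul_apply, smul_eq_mul]; ring
    rw [this, ha x hx, mul_zero]

theorem exists_R0 (o : V) {m : ℕ} (u : Fin m → V → ℝ) (hli : LinearIndependent ℝ u) :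
    ∃ R0 : ℕ, ∀ R ≥ R0, ∀ w : Fin m → ℝ, (∀ x ∈ bl hG o R, ev u w x = 0) → w = 0 := by
  have hanti : ∀ {R S : ℕ}, R ≤ S → KR hG o u S ≤ KR hG o u R := by
    intro R S h w hw x hx
    exact hw x (fd_bl_mono hG o h hx)
  obtain ⟨R0, hR0⟩ : ∃ R0, ∀ S, Module.finrank ℝ (KR hG o u R0) ≤ Module.finrank ℝ (KR hG o u S) := by
    have hne : (Set.range fun R => Module.finrank ℝ (KR hG o u R)).Nonempty := ⟨_, 0, rfl⟩
    obtain ⟨R0, hR0⟩ := Nat.sInf_mem hne
    exact ⟨R0, fun S => by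
      show (fun R => Module.finrank ℝ (KR hG o u R)) R0 ≤ _
      rw [hR0]
      exact Nat.sInf_le ⟨S, rfl⟩⟩
  have hbot : ∀ w, w ∈ KR hG o u R0 → w = 0 := by
    intro w hw
    have hall : ∀ x, ev u w x = 0 := by
      intro x
      have heq : KR hG o u (max R0 (G.dist o x)) = KR hG o u R0 :=
        Submodule.eq_of_le_of_finrank_le (hanti (le_max_left _ _)) (hR0 _)
      rw [← heq] at hw
      exact hw x ((mem_bl hG o x _).2 (le_max_right _ _))
    rw [Fintype.linearIndependent_iff] at hli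
    funext i
    refine hli w ?_ i
    funext x
    have := hall x
    unfold ev at this
    simpa [Finset.sum_apply] using this
  refine ⟨R0, fun R hR w hw => hbot w ?_⟩
  exact hanti hR hw

theorem GM_entry (o : V) {m : ℕ} (u : Fin m → V → ℝ) (L : ℝ) (hL : 0 ≤ L)
    (hu : ∀ i, Lip G L (u i)) (h0 : ∀ i, u i o = 0) (R : ℕ) (i j : Fin m) :
    |GM hG o u R i j| ≤ L ^ 2 * (R : ℝ) ^ 2 * (bl hG o R).card := by
  show |∑ x ∈ bl hG o R, u i x * u j x| ≤ _
  refine (Finset.abs_sum_le_sum_abs _ _).trans ?_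
  have h1 : ∀ x ∈ bl hG o R, |u i x * u j x| ≤ L ^ 2 * (R : ℝ) ^ 2 := by
    intro x hx
    rw [mem_bl] at hx
    have h2 : (G.dist o x : ℝ) ≤ R := by exact_mod_cast hx
    have h3 := (fd_lip_dist hG o hL (hu i) (h0 i) x).trans (mul_le_mul_of_nonneg_left h2 hL)
    have h4 := (fd_lip_dist hG o hL (hu j) (h0 j) x).trans (mul_le_mul_of_nonneg_left h2 hL)
    rw [abs_mul]
    calc |u i x| * |u j x| ≤ (L * R) * (L * R) :=
          mul_le_mul h3 h4 (abs_nonneg _) (by positivity)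
      _ = L ^ 2 * (R : ℝ) ^ 2 := by ring
  calc ∑ x ∈ bl hG o R, |u i x * u j x| ≤ ∑ _x ∈ bl hG o R, L ^ 2 * (R : ℝ) ^ 2 :=
        Finset.sum_le_sum h1
    _ = L ^ 2 * (R : ℝ) ^ 2 * (bl hG o R).card := by
        rw [Finset.sum_const, nsmul_eq_mul]
        ring

theorem GM_det_le (o : V) {m : ℕ} (u : Fin m → V → ℝ) (L : ℝ) (hL : 0 ≤ L)
    (hu : ∀ i, Lip G L (u i)) (h0 : ∀ i, u i o = 0) (R : ℕ) :
    (GM hG o u R).det ≤ (m.factorial : ℝ) * (L ^ 2 * (R : ℝ) ^ 2 * (bl hG o R).card) ^ m := by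
  have h1 := Matrix.det_le (A := GM hG o u R) (abv := AbsoluteValue.abs)
    (x := L ^ 2 * (R : ℝ) ^ 2 * (bl hG o R).card) (fun i j => GM_entry hG o u L hL hu h0 R i j)
  rw [Fintype.card_fin, nsmul_eq_mul] at h1
  exact (le_abs_self _).trans h1

end Pool.H61.ST

end S_H61_ST_FdimB

section S_H61_ST_Poin

set_option autoImplicit false

/-! Poincare inequality on transitive graphs with a homogeneous family of automorphisms. -/

namespace Pool.H61.ST

open Finset Pool.Agent.H61.SW Pool.H98.C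

section POIN
variable {V : Type} {G : SimpleGraph V} (hG : TG G)

include hG in
lemma poin_sq_le_gr (w : V → ℝ) {x a : V} (h : G.Adj x a) : (w a - w x) ^ 2 ≤ gr hG w a := by
  have h1 : (w x - w a) ^ 2 ≤ gr hG w a :=
    Finset.single_le_sum (f := fun y => (w y - w a) ^ 2) (fun _ _ => sq_nonneg _)
      ((mem_nb hG).2 h.symm)
  calc (w a - w x) ^ 2 = (w x - w a) ^ 2 := by ring
    _ ≤ _ := h1

/-- telescoping along a walk -/
lemma poin_tel (w : V → ℝ) (x : V) (s : List V) (h : ch G x s) :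
    (w (en x s) - w x) ^ 2 ≤ s.length * (s.map (gr hG w)).sum := by
  induction s generalizing x with
  | nil => simp
  | cons a s ih =>
    have h1 := ih a h.2
    have h2 := poin_sq_le_gr hG w h.1
    have hS : 0 ≤ (s.map (gr hG w)).sum :=
      List.sum_nonneg (by
        intro y hy
        obtain ⟨v, _, rfl⟩ := List.mem_map.1 hy
        exact gr_nonneg hG w v)
    rw [en_cons, List.length_cons, List.map_cons, List.sum_cons]
    push_cast
    set S := (s.map (gr hG w)).sum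
    set g := gr hG w a
    set n : ℝ := (s.length : ℝ) with hn
    have hn0 : 0 ≤ n := Nat.cast_nonneg _
    set A := w (en a s) - w a
    set B := w a - w x
    have hAB : w (en a s) - w x = A + B := by simp only [A, B]; ring
    rw [hAB]
    rcases hn0.eq_or_lt with h0 | h0
    · rw [← h0] at h1 ⊢
      have hA : A = 0 := by nlinarith [sq_nonneg A]
      rw [hA]
      nlinarith
    · have key : n * ((A + B) ^ 2) ≤ n * ((n + 1) * (g + S)) := by
        nlinarith [sq_nonneg (A - n * B), mul_nonneg h0.le hS, mul_le_mul_of_nonneg_left h1 h0.le,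
          mul_le_mul_of_nonneg_left h2 (mul_nonneg h0.le (by linarith : (0 : ℝ) ≤ n + 1))]
      exact le_of_mul_le_mul_left key h0

/-- averaged counting -/
lemma poin_avg {o : V} {R : ℕ} (H : Homog G o R) (g : V → ℝ) (hg : ∀ a, 0 ≤ g a) (c : V)
    (hc : G.dist o c ≤ R) (X A : Finset V) (hA : ∀ x ∈ X, ∀ θ, H.T x θ c ∈ A) :
    ∑ x ∈ X, Ex (fun θ => g (H.T x θ c)) ≤ ∑ a ∈ A, g a := by
  classical
  have h1 : ∀ x ∈ X, Ex (fun θ => g (H.T x θ c)) =
      ∑ a ∈ A, g a * Pr (fun θ => H.T x θ c = a) := by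
    intro x hx
    have h2 : (fun θ => g (H.T x θ c)) =
        fun θ => ∑ a ∈ A, g a * (if H.T x θ c = a then 1 else 0) := by
      funext θ
      rw [Finset.sum_eq_single (H.T x θ c)]
      · simp
      · intro b _ hb
        rw [if_neg (fun h => hb h.symm), mul_zero]
      · intro h
        exact absurd (hA x hx θ) h
    rw [h2, Ex_sum]
    refine Finset.sum_congr rfl (fun a _ => ?_)
    rw [Ex_const_mul, Pr]
  rw [Finset.sum_congr rfl h1, Finset.sum_comm]
  refine Finset.sum_le_sum (fun a _ => ?_)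
  rw [← Finset.mul_sum]
  have := mul_le_mul_of_nonneg_left (H.sp c a hc X) (hg a)
  linarith

theorem poincare (o : V) (R : ℕ) (H : Homog G o (2 * R)) (z : V) (u : V → ℝ) :
    ∑ x ∈ bl hG z R, ∑ y ∈ bl hG z R, (u x - u y) ^ 2 ≤
      (2 * R : ℝ) ^ 2 * (bl hG o (2 * R)).card * ∑ a ∈ bl hG z (3 * R), gr hG u a := by
  classical
  set Γ := ∑ a ∈ bl hG z (3 * R), gr hG u a
  have hΓ : 0 ≤ Γ := Finset.sum_nonneg (fun a _ => gr_nonneg hG u a)
  -- one vertex
  have h1 : ∀ x ∈ bl hG z R, ∑ y ∈ bl hG z R, (u x - u y) ^ 2 ≤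
      ∑ c ∈ bl hG o (2 * R), (G.dist o c : ℝ) *
        ((geo hG o c).map (fun v => Ex (fun θ => gr hG u (H.T x θ v)))).sum := by
    intro x hx
    have h2 : ∀ θ : H.Θ, ∑ y ∈ bl hG z R, (u x - u y) ^ 2 ≤
        ∑ c ∈ bl hG o (2 * R), (G.dist o c : ℝ) *
          ((geo hG o c).map (fun v => gr hG u (H.T x θ v))).sum := by
      intro θ
      have hsub : bl hG z R ⊆ (bl hG o (2 * R)).map (H.T x θ).toEquiv.toEmbedding := by
        rw [bl_iso, H.T_o]
        intro y hy
        rw [mem_bl] at hx hy ⊢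
        have := hG.tri x z y
        rw [SimpleGraph.dist_comm] at hx
        omega
      calc ∑ y ∈ bl hG z R, (u x - u y) ^ 2 ≤
          ∑ y ∈ (bl hG o (2 * R)).map (H.T x θ).toEquiv.toEmbedding, (u x - u y) ^ 2 :=
            Finset.sum_le_sum_of_subset_of_nonneg hsub (fun _ _ _ => sq_nonneg _)
        _ = ∑ c ∈ bl hG o (2 * R), (u x - u (H.T x θ c)) ^ 2 := by rw [Finset.sum_map]; rfl
        _ ≤ _ := by
          refine Finset.sum_le_sum (fun c _ => ?_)
          have h3 := poin_tel hG (u ∘ H.T x θ) o (geo hG o c) (ch_geo hG o c)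
          rw [en_geo, length_geo] at h3
          have h4 : ((u ∘ H.T x θ) c - (u ∘ H.T x θ) o) ^ 2 = (u x - u (H.T x θ c)) ^ 2 := by
            simp only [Function.comp, H.T_o]; ring
          rw [h4] at h3
          refine h3.trans (le_of_eq ?_)
          congr 2
          exact List.map_congr_left (fun v _ => gr_comp hG (H.T x θ) u v)
    have h5 : ∑ y ∈ bl hG z R, (u x - u y) ^ 2 =
        Ex (fun _ : H.Θ => ∑ y ∈ bl hG z R, (u x - u y) ^ 2) := (Ex_const _).symm
    rw [h5]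
    refine (Ex_mono h2).trans (le_of_eq ?_)
    rw [Ex_sum]
    refine Finset.sum_congr rfl (fun c _ => ?_)
    rw [Ex_const_mul, Ex_list_sum]
  calc ∑ x ∈ bl hG z R, ∑ y ∈ bl hG z R, (u x - u y) ^ 2 ≤
      ∑ x ∈ bl hG z R, ∑ c ∈ bl hG o (2 * R), (G.dist o c : ℝ) *
        ((geo hG o c).map (fun v => Ex (fun θ => gr hG u (H.T x θ v)))).sum :=
        Finset.sum_le_sum h1
    _ = ∑ c ∈ bl hG o (2 * R), (G.dist o c : ℝ) * ∑ x ∈ bl hG z R,
        ((geo hG o c).map (fun v => Ex (fun θ => gr hG u (H.T x θ v)))).sum := by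
        rw [Finset.sum_comm]
        exact Finset.sum_congr rfl (fun c _ => (Finset.mul_sum _ _ _).symm)
    _ ≤ ∑ c ∈ bl hG o (2 * R), (2 * R : ℝ) * ((2 * R : ℝ) * Γ) := by
        refine Finset.sum_le_sum (fun c hc => ?_)
        rw [mem_bl] at hc
        have hcR : (G.dist o c : ℝ) ≤ 2 * R := by exact_mod_cast hc
        have h6 : ∑ x ∈ bl hG z R,
            ((geo hG o c).map (fun v => Ex (fun θ => gr hG u (H.T x θ v)))).sum ≤
              (2 * R : ℝ) * Γ := by
          have h7 : ∀ l : List V, (∀ v ∈ l, G.dist o v ≤ 2 * R) → ∑ x ∈ bl hG z R,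
              (l.map (fun v => Ex (fun θ => gr hG u (H.T x θ v)))).sum ≤ l.length * Γ := by
            intro l
            induction l with
            | nil => intro _; simp
            | cons v l ih =>
              intro hl
              simp only [List.map_cons, List.sum_cons, List.length_cons]
              rw [Finset.sum_add_distrib]
              have h8 := ih (fun w hw => hl w (List.mem_cons_of_mem _ hw))
              have h9 := poin_avg H (gr hG u) (gr_nonneg hG u) v (hl v List.mem_cons_self)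
                (bl hG z R) (bl hG z (3 * R)) (by
                  intro x hx θ
                  rw [mem_bl] at hx ⊢
                  have h10 := hG.tri z x (H.T x θ v)
                  have h11 : G.dist x (H.T x θ v) = G.dist o v := by
                    have := dist_iso hG.conn (H.T x θ) o v
                    rwa [H.T_o] at this
                  have h12 := hl v List.mem_cons_self
                  omega)
              push_cast
              linarith
          refine (h7 (geo hG o c) (fun v hv => (mem_geo_dist hG hv).trans hc)).trans ?_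
          rw [length_geo]
          exact mul_le_mul_of_nonneg_right hcR hΓ
        have h13 : 0 ≤ (2 * R : ℝ) * Γ := by positivity
        calc (G.dist o c : ℝ) * _ ≤ (G.dist o c : ℝ) * ((2 * R : ℝ) * Γ) :=
              mul_le_mul_of_nonneg_left h6 (Nat.cast_nonneg _)
          _ ≤ _ := mul_le_mul_of_nonneg_right hcR h13
    _ = _ := by
        rw [Finset.sum_const, nsmul_eq_mul]
        ring

end POIN

end Pool.H61.ST

end S_H61_ST_Poin

section S_H61_ST_Cacc

set_option autoImplicit false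

/-! Module CACC: Caccioppoli inequality for harmonic functions. -/

namespace Pool.H61.ST

open Finset Pool.Agent.H61.SW Pool.H98.C

section CACC
variable {V : Type} {G : SimpleGraph V} (hG : TG G)

/-- cutoff function -/
private noncomputable def zt (z : V) (G : SimpleGraph V) (R : ℕ) (x : V) : ℝ :=
  max 0 (min 1 ((2 * R - G.dist z x : ℝ) / R))

private lemma zt_one (z : V) (R : ℕ) (hR : 1 ≤ R) (x : V) (hx : G.dist z x ≤ R) :
    zt z G R x = 1 := by
  unfold zt
  have h1 : (0 : ℝ) < R := by exact_mod_cast hR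
  have h2 : (1 : ℝ) ≤ (2 * R - G.dist z x : ℝ) / R := by
    rw [le_div_iff₀ h1]
    have : (G.dist z x : ℝ) ≤ R := by exact_mod_cast hx
    linarith
  rw [min_eq_left h2, max_eq_right zero_le_one]

private lemma zt_zero (z : V) (R : ℕ) (hR : 1 ≤ R) (x : V) (hx : 2 * R ≤ G.dist z x) :
    zt z G R x = 0 := by
  unfold zt
  have h1 : (0 : ℝ) < R := by exact_mod_cast hR
  have h2 : (2 * R - G.dist z x : ℝ) / R ≤ 0 := by
    apply div_nonpos_of_nonpos_of_nonneg _ h1.le
    have : (2 * R : ℝ) ≤ G.dist z x := by exact_mod_cast hx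
    linarith
  exact max_eq_left ((min_le_right _ _).trans h2)

private lemma zt_sub (z : V) (R : ℕ) (hR : 1 ≤ R) (x y : V) (hx : G.dist z x ≤ G.dist z y + 1)
    (hy : G.dist z y ≤ G.dist z x + 1) : (zt z G R x - zt z G R y) ^ 2 ≤ 1 / (R : ℝ) ^ 2 := by
  have h1 : (0 : ℝ) < R := by exact_mod_cast hR
  have h2 : |zt z G R x - zt z G R y| ≤ 1 / R := by
    unfold zt
    refine (abs_max_sub_max_le_max _ _ _ _).trans ?_
    rw [sub_self, abs_zero, max_le_iff]
    refine ⟨by positivity, (abs_min_sub_min_le_max _ _ _ _).trans ?_⟩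
    rw [sub_self, abs_zero, max_le_iff]
    refine ⟨by positivity, ?_⟩
    rw [← sub_div, abs_div, abs_of_pos h1]
    apply div_le_div_of_nonneg_right _ h1.le
    have h3 : (G.dist z x : ℝ) ≤ G.dist z y + 1 := by exact_mod_cast hx
    have h4 : (G.dist z y : ℝ) ≤ G.dist z x + 1 := by exact_mod_cast hy
    rw [abs_le]
    constructor <;> linarith
  calc (zt z G R x - zt z G R y) ^ 2 = |zt z G R x - zt z G R y| ^ 2 := (sq_abs _).symm
    _ ≤ (1 / R) ^ 2 := pow_le_pow_left₀ (abs_nonneg _) h2 2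
    _ = 1 / (R : ℝ) ^ 2 := by rw [div_pow, one_pow]

private lemma key_ineq (s t p q : ℝ) :
    (s ^ 2 + t ^ 2) * (p - q) ^ 2 ≤
      4 * ((p - q) * (s ^ 2 * p - t ^ 2 * q)) + 2 * ((s - t) ^ 2 * (p + q) ^ 2) := by
  nlinarith [sq_nonneg ((s + t) * (p - q) + 2 * ((s - t) * (p + q))),
    sq_nonneg ((s - t) * (p - q))]

theorem caccioppoli (u : V → ℝ) (hu : ∀ x, lap hG u x = 0) (z : V) (R : ℕ) (hR : 1 ≤ R) :
    ∑ a ∈ bl hG z R, gr hG u a ≤
      (8 * dg hG z : ℝ) / (R : ℝ) ^ 2 * ∑ a ∈ bl hG z (3 * R), (u a) ^ 2 := by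
  classical
  have hR0 : (0 : ℝ) < R := by exact_mod_cast hR
  set B := bl hG z (3 * R) with hB
  set ζ := zt z G R with hζ
  -- neighbours inside the big ball
  let N : V → Finset V := fun x => (nb hG x).filter (fun y => y ∈ B)
  have hadj : ∀ x y, G.Adj x y → G.dist z y ≤ G.dist z x + 1 := by
    intro x y h
    have h1 := hG.tri z x y
    have h2 : G.dist x y ≤ 1 := by
      rw [SimpleGraph.dist_eq_one_iff_adj.2 h]
    omega
  have hN : ∀ x, G.dist z x ≤ 2 * R → N x = nb hG x := by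
    intro x hx
    apply Finset.filter_true_of_mem
    intro y hy
    rw [hB, mem_bl]
    have := hadj x y ((mem_nb hG).1 hy)
    omega
  -- symmetry of double sums
  have hsym : ∀ F : V → V → ℝ, ∑ x ∈ B, ∑ y ∈ N x, F x y = ∑ x ∈ B, ∑ y ∈ N x, F y x := by
    intro F
    have hmem : ∀ x y, (x ∈ B ∧ y ∈ N x) ↔ (x ∈ N y ∧ y ∈ B) := by
      intro x y
      simp only [N, Finset.mem_filter, mem_nb, G.adj_comm x y]
      tauto
    rw [Finset.sum_comm' hmem]
  have h0 : ∑ x ∈ B, ∑ y ∈ N x, (u x - u y) * (ζ x ^ 2 * u x) = 0 := by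
    apply Finset.sum_eq_zero
    intro x _
    by_cases hx : G.dist z x ≤ 2 * R
    · rw [hN x hx, ← Finset.sum_mul]
      have : ∑ y ∈ nb hG x, (u x - u y) = 0 := by
        have h1 := hu x
        unfold lap at h1
        rw [← neg_eq_zero, ← h1, ← Finset.sum_neg_distrib]
        exact Finset.sum_congr rfl fun y _ => by ring
      rw [this, zero_mul]
    · have : ζ x = 0 := zt_zero z R hR x (by omega)
      rw [this]
      simp
  have h1 : ∑ x ∈ B, ∑ y ∈ N x, (u x - u y) * (ζ x ^ 2 * u x - ζ y ^ 2 * u y) = 0 := by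
    have h2 : ∑ x ∈ B, ∑ y ∈ N x, (u x - u y) * (ζ y ^ 2 * u y) = 0 := by
      rw [hsym]
      rw [← neg_eq_zero, ← h0, ← Finset.sum_neg_distrib]
      refine Finset.sum_congr rfl fun x _ => ?_
      rw [← Finset.sum_neg_distrib]
      exact Finset.sum_congr rfl fun y _ => by ring
    calc ∑ x ∈ B, ∑ y ∈ N x, (u x - u y) * (ζ x ^ 2 * u x - ζ y ^ 2 * u y)
        = ∑ x ∈ B, ∑ y ∈ N x, (u x - u y) * (ζ x ^ 2 * u x)
          - ∑ x ∈ B, ∑ y ∈ N x, (u x - u y) * (ζ y ^ 2 * u y) := by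
          rw [← Finset.sum_sub_distrib]
          refine Finset.sum_congr rfl fun x _ => ?_
          rw [← Finset.sum_sub_distrib]
          exact Finset.sum_congr rfl fun y _ => by ring
      _ = 0 := by rw [h0, h2, sub_zero]
  -- lower bound
  have h2 : ∑ a ∈ bl hG z R, gr hG u a ≤
      ∑ x ∈ B, ∑ y ∈ N x, (ζ x ^ 2 + ζ y ^ 2) * (u x - u y) ^ 2 := by
    have hsub : bl hG z R ⊆ B := by
      intro x hx
      rw [mem_bl] at hx
      rw [hB, mem_bl]
      omega
    refine le_trans ?_ (Finset.sum_le_sum_of_subset_of_nonneg hsub ?_)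
    · refine Finset.sum_le_sum fun x hx => ?_
      rw [mem_bl] at hx
      rw [hN x (by omega)]
      unfold gr
      refine Finset.sum_le_sum fun y _ => ?_
      have h3 : ζ x = 1 := zt_one z R hR x hx
      rw [h3]
      nlinarith [sq_nonneg (u x - u y), mul_nonneg (sq_nonneg (ζ y)) (sq_nonneg (u x - u y))]
    · intro x _ _
      exact Finset.sum_nonneg fun y _ => by positivity
  -- upper bound
  have h3 : ∑ x ∈ B, ∑ y ∈ N x, (ζ x ^ 2 + ζ y ^ 2) * (u x - u y) ^ 2 ≤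
      ∑ x ∈ B, ∑ y ∈ N x, (4 * ((u x - u y) * (ζ x ^ 2 * u x - ζ y ^ 2 * u y)) +
        4 / (R : ℝ) ^ 2 * (u x ^ 2 + u y ^ 2)) := by
    refine Finset.sum_le_sum fun x _ => Finset.sum_le_sum fun y hy => ?_
    have hxy : G.Adj x y := (mem_nb hG).1 (Finset.mem_filter.1 hy).1
    have h4 := key_ineq (ζ x) (ζ y) (u x) (u y)
    have h5 : (ζ x - ζ y) ^ 2 ≤ 1 / (R : ℝ) ^ 2 :=
      zt_sub z R hR x y (hadj y x hxy.symm) (hadj x y hxy)
    have h6 : (ζ x - ζ y) ^ 2 * (u x + u y) ^ 2 ≤ 1 / (R : ℝ) ^ 2 * (2 * (u x ^ 2 + u y ^ 2)) := by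
      apply mul_le_mul h5 _ (sq_nonneg _) (by positivity)
      nlinarith [sq_nonneg (u x - u y)]
    have h7 : 4 / (R : ℝ) ^ 2 * (u x ^ 2 + u y ^ 2) =
        2 * (1 / (R : ℝ) ^ 2 * (2 * (u x ^ 2 + u y ^ 2))) := by ring
    rw [h7]
    linarith
  have h4 : ∑ x ∈ B, ∑ y ∈ N x, (4 * ((u x - u y) * (ζ x ^ 2 * u x - ζ y ^ 2 * u y)) +
        4 / (R : ℝ) ^ 2 * (u x ^ 2 + u y ^ 2)) =
      4 / (R : ℝ) ^ 2 * ∑ x ∈ B, ∑ y ∈ N x, (u x ^ 2 + u y ^ 2) := by
    have : ∑ x ∈ B, ∑ y ∈ N x, (4 * ((u x - u y) * (ζ x ^ 2 * u x - ζ y ^ 2 * u y)) +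
        4 / (R : ℝ) ^ 2 * (u x ^ 2 + u y ^ 2)) =
        4 * ∑ x ∈ B, ∑ y ∈ N x, (u x - u y) * (ζ x ^ 2 * u x - ζ y ^ 2 * u y) +
        4 / (R : ℝ) ^ 2 * ∑ x ∈ B, ∑ y ∈ N x, (u x ^ 2 + u y ^ 2) := by
      rw [Finset.mul_sum, Finset.mul_sum, ← Finset.sum_add_distrib]
      refine Finset.sum_congr rfl fun x _ => ?_
      rw [Finset.mul_sum, Finset.mul_sum, ← Finset.sum_add_distrib]
    rw [this, h1, mul_zero, zero_add]
  have h5 : ∑ x ∈ B, ∑ y ∈ N x, (u x ^ 2 + u y ^ 2) ≤ 2 * dg hG z * ∑ a ∈ B, (u a) ^ 2 := by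
    have h6 : ∑ x ∈ B, ∑ y ∈ N x, (u x ^ 2 + u y ^ 2) = 2 * ∑ x ∈ B, ∑ y ∈ N x, u x ^ 2 := by
      have : ∑ x ∈ B, ∑ y ∈ N x, (u x ^ 2 + u y ^ 2) =
          ∑ x ∈ B, ∑ y ∈ N x, u x ^ 2 + ∑ x ∈ B, ∑ y ∈ N x, u y ^ 2 := by
        simp only [Finset.sum_add_distrib]
      rw [this, hsym (fun x y => u y ^ 2)]
      ring
    rw [h6, mul_assoc]
    apply mul_le_mul_of_nonneg_left _ zero_le_two
    rw [Finset.mul_sum]
    refine Finset.sum_le_sum fun x _ => ?_
    rw [Finset.sum_const, nsmul_eq_mul]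
    apply mul_le_mul_of_nonneg_right _ (sq_nonneg _)
    rw [dg_eq hG z x]
    exact_mod_cast Finset.card_le_card (Finset.filter_subset _ _)
  calc ∑ a ∈ bl hG z R, gr hG u a ≤ _ := h2
    _ ≤ _ := h3
    _ = _ := h4
    _ ≤ 4 / (R : ℝ) ^ 2 * (2 * dg hG z * ∑ a ∈ B, (u a) ^ 2) :=
        mul_le_mul_of_nonneg_left h5 (by positivity)
    _ = _ := by ring

end CACC

end Pool.H61.ST

end S_H61_ST_Cacc

section S_H61_ST_FdimC

set_option autoImplicit false

/-! Local estimate for the module FDIM (helper93). -/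

namespace Pool.H61.ST

open Finset Pool.Agent.H61.SW Pool.H98.C

variable {V : Type} {G : SimpleGraph V} (hG : TG G)

theorem lap_ev {m : ℕ} (u : Fin m → V → ℝ) (w : Fin m → ℝ) (hu : ∀ i x, lap hG (u i) x = 0)
    (x : V) : lap hG (ev u w) x = 0 := by
  have h1 : lap hG (ev u w) x = ∑ i, w i * lap hG (u i) x := by
    unfold lap ev
    rw [Finset.sum_congr rfl fun y _ => (Finset.sum_sub_distrib _ _).symm, Finset.sum_comm]
    refine Finset.sum_congr rfl fun i _ => ?_
    rw [Finset.mul_sum]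
    exact Finset.sum_congr rfl fun y _ => by ring
  rw [h1]
  exact Finset.sum_eq_zero fun i _ => by rw [hu, mul_zero]

/-- the sum over a ball as a linear functional of the coefficients -/
noncomputable def avL {m : ℕ} (u : Fin m → V → ℝ) (B : Finset V) : (Fin m → ℝ) →ₗ[ℝ] ℝ where
  toFun w := ∑ x ∈ B, ev u w x
  map_add' := by
    intro a b
    rw [← Finset.sum_add_distrib]
    refine Finset.sum_congr rfl fun x _ => ?_
    unfold ev
    rw [← Finset.sum_add_distrib]
    exact Finset.sum_congr rfl fun i _ => by simp only [Pi.add_apply]; ring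
  map_smul' := by
    intro c a
    rw [RingHom.id_apply, smul_eq_mul, Finset.mul_sum]
    refine Finset.sum_congr rfl fun x _ => ?_
    unfold ev
    rw [Finset.mul_sum]
    exact Finset.sum_congr rfl fun i _ => by simp only [Pi.smul_apply, smul_eq_mul]; ring

theorem exists_bal {m : ℕ} (u : Fin m → V → ℝ) (U : Submodule ℝ (Fin m → ℝ)) (N : Finset V)
    (R : ℕ) (h : N.card < Module.finrank ℝ U) :
    ∃ w ∈ U, w ≠ 0 ∧ ∀ n ∈ N, ∑ x ∈ bl hG n R, ev u w x = 0 := by
  set F : U →ₗ[ℝ] (N → ℝ) :=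
    LinearMap.pi (fun n : N => (avL u (bl hG n R)).comp U.subtype) with hF
  have h1 : Module.finrank ℝ (N → ℝ) < Module.finrank ℝ U := by
    rw [Module.finrank_fintype_fun_eq_card, Fintype.card_coe]; exact h
  have h2 : LinearMap.ker F ≠ ⊥ := LinearMap.ker_ne_bot_of_finrank_lt h1
  obtain ⟨w, hw, hw0⟩ := (Submodule.ne_bot_iff _).1 h2
  refine ⟨w, w.2, fun h => hw0 (Subtype.ext h), fun n hn => ?_⟩
  have h3 := congrFun (LinearMap.mem_ker.1 hw) ⟨n, hn⟩
  exact h3

theorem sum_le_balls (X N : Finset V) (r : ℕ) (g : V → ℝ) (hg : ∀ x, 0 ≤ g x)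
    (h : ∀ x ∈ X, ∃ n ∈ N, G.dist n x ≤ r) :
    ∑ x ∈ X, g x ≤ ∑ n ∈ N, ∑ x ∈ bl hG n r, g x := by
  classical
  have h1 : ∀ x ∈ X, g x ≤ ∑ n ∈ N, if G.dist n x ≤ r then g x else 0 := by
    intro x hx
    obtain ⟨n, hn, hd⟩ := h x hx
    have h2 := Finset.single_le_sum (f := fun n => if G.dist n x ≤ r then g x else 0)
      (fun n _ => by
        show 0 ≤ if G.dist n x ≤ r then g x else 0
        split_ifs
        · exact hg x
        · exact le_refl _) hn
    simp only [if_pos hd] at h2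
    exact h2
  refine (Finset.sum_le_sum h1).trans ?_
  rw [Finset.sum_comm]
  refine Finset.sum_le_sum fun n _ => ?_
  rw [← Finset.sum_filter]
  refine Finset.sum_le_sum_of_subset_of_nonneg ?_ fun x _ _ => hg x
  intro x hx
  rw [Finset.mem_filter] at hx
  exact (mem_bl hG n x r).2 hx.2

theorem balls_le_sum (X N : Finset V) (r : ℕ) (g : V → ℝ) (hg : ∀ x, 0 ≤ g x) (K : ℝ)
    (hX : ∀ n ∈ N, bl hG n r ⊆ X)
    (h : ∀ x ∈ X, (((N.filter fun n => G.dist n x ≤ r).card : ℕ) : ℝ) ≤ K) :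
    ∑ n ∈ N, ∑ x ∈ bl hG n r, g x ≤ K * ∑ x ∈ X, g x := by
  classical
  have h1 : ∀ n ∈ N, ∑ x ∈ bl hG n r, g x = ∑ x ∈ X, if G.dist n x ≤ r then g x else 0 := by
    intro n hn
    rw [← Finset.sum_filter]
    refine Finset.sum_congr ?_ fun _ _ => rfl
    ext x
    rw [Finset.mem_filter, mem_bl]
    exact ⟨fun hx => ⟨hX n hn ((mem_bl hG n x r).2 hx), hx⟩, fun hx => hx.2⟩
  rw [Finset.sum_congr rfl h1, Finset.sum_comm, Finset.mul_sum]
  refine Finset.sum_le_sum fun x hx => ?_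
  rw [← Finset.sum_filter, Finset.sum_const, nsmul_eq_mul]
  exact mul_le_mul_of_nonneg_right (h x hx) (hg x)

/-- local estimate -/
theorem loc_est (o : V) (f : V → ℝ) (hf : ∀ x, lap hG f x = 0) (R ρ : ℕ) (hρ : 1 ≤ ρ)
    (hR : 3 * ρ ≤ R) (H : Homog G o (2 * ρ)) (N : Finset V) (hN : ∀ n ∈ N, G.dist o n ≤ R)
    (hsep : ∀ a ∈ N, ∀ b ∈ N, a ≠ b → ρ < G.dist a b)
    (hcov : ∀ y, G.dist o y ≤ R → ∃ n ∈ N, G.dist n y ≤ ρ)
    (hbal : ∀ n ∈ N, ∑ x ∈ bl hG n ρ, f x = 0) (α : ℝ)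
    (h1 : ((bl hG o (2 * ρ)).card : ℝ) ≤ α * (bl hG o ρ).card)
    (h2 : ((bl hG o (4 * ρ)).card : ℝ) ≤ α * (bl hG o (ρ / 2)).card) :
    ∑ x ∈ bl hG o R, (f x) ^ 2 ≤
      4 * dg hG o * α ^ 2 * ((ρ : ℝ) / R) ^ 2 * ∑ x ∈ bl hG o (6 * R), (f x) ^ 2 := by
  classical
  have hc0 : ∀ r, (0 : ℝ) < (bl hG o r).card := fun r => by
    exact_mod_cast Finset.card_pos.2 (bl_nonempty hG o r)
  have hα : 0 ≤ α := by
    by_contra hneg
    rw [not_le] at hneg
    nlinarith [hc0 (2 * ρ), hc0 ρ]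
  have hRpos : 0 < R := by omega
  have hR0 : (0 : ℝ) < R := by exact_mod_cast hRpos
  -- covering
  have s1 : ∑ x ∈ bl hG o R, (f x) ^ 2 ≤ ∑ n ∈ N, ∑ x ∈ bl hG n ρ, (f x) ^ 2 :=
    sum_le_balls hG _ N ρ (fun x => (f x) ^ 2) (fun x => sq_nonneg _) fun x hx =>
      hcov x ((mem_bl hG o x R).1 hx)
  -- Poincare
  have s2 : ∀ n ∈ N, ∑ x ∈ bl hG n ρ, (f x) ^ 2 ≤
      2 * (ρ : ℝ) ^ 2 * α * ∑ a ∈ bl hG n (3 * ρ), gr hG f a := by
    intro n hn
    have p1 := poincare hG o ρ H n f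
    rw [sq_sum_pairs _ _ (hbal n hn), card_bl hG n o] at p1
    have hS : 0 ≤ ∑ a ∈ bl hG n (3 * ρ), gr hG f a :=
      Finset.sum_nonneg fun a _ => gr_nonneg hG f a
    have p2 : (2 * (ρ : ℝ)) ^ 2 * (bl hG o (2 * ρ)).card * ∑ a ∈ bl hG n (3 * ρ), gr hG f a ≤
        (2 * (ρ : ℝ)) ^ 2 * (α * (bl hG o ρ).card) * ∑ a ∈ bl hG n (3 * ρ), gr hG f a :=
      mul_le_mul_of_nonneg_right (mul_le_mul_of_nonneg_left h1 (by positivity)) hS
    have p3 : (bl hG o ρ).card * (2 * ∑ x ∈ bl hG n ρ, (f x) ^ 2) ≤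
        (bl hG o ρ).card * ((2 * (ρ : ℝ)) ^ 2 * α * ∑ a ∈ bl hG n (3 * ρ), gr hG f a) := by
      calc ((bl hG o ρ).card : ℝ) * (2 * ∑ x ∈ bl hG n ρ, (f x) ^ 2)
          = 2 * (bl hG o ρ).card * ∑ x ∈ bl hG n ρ, (f x) ^ 2 := by ring
        _ ≤ _ := p1.trans p2
        _ = _ := by ring
    have p4 := le_of_mul_le_mul_left p3 (hc0 ρ)
    linarith
  have s3 : ∑ n ∈ N, ∑ x ∈ bl hG n ρ, (f x) ^ 2 ≤
      2 * (ρ : ℝ) ^ 2 * α * ∑ n ∈ N, ∑ a ∈ bl hG n (3 * ρ), gr hG f a := by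
    rw [Finset.mul_sum]
    exact Finset.sum_le_sum s2
  -- overlap
  have s4 : ∑ n ∈ N, ∑ a ∈ bl hG n (3 * ρ), gr hG f a ≤
      α * ∑ a ∈ bl hG o (2 * R), gr hG f a := by
    refine balls_le_sum hG _ N (3 * ρ) _ (gr_nonneg hG f) α ?_ ?_
    · intro n hn y hy
      rw [mem_bl] at hy ⊢
      have := hG.tri o n y
      have := hN n hn
      omega
    · intro x _
      have q1 := sep_card hG o x (3 * ρ) ρ (N.filter fun n => G.dist n x ≤ 3 * ρ)
        (fun n hn => by
          rw [SimpleGraph.dist_comm]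
          exact (Finset.mem_filter.1 hn).2)
        (fun a ha b hb hab => hsep a (Finset.mem_filter.1 ha).1 b (Finset.mem_filter.1 hb).1 hab)
      have q2 : (bl hG o (3 * ρ + ρ / 2)).card ≤ (bl hG o (4 * ρ)).card :=
        card_bl_mono hG o (by omega)
      have q3 : (((N.filter fun n => G.dist n x ≤ 3 * ρ).card : ℕ) : ℝ) *
          (bl hG o (ρ / 2)).card ≤ α * (bl hG o (ρ / 2)).card := by
        refine le_trans ?_ h2
        exact_mod_cast q1.trans q2
      exact le_of_mul_le_mul_right q3 (hc0 _)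
  -- Caccioppoli
  have s5 := caccioppoli hG f hf o (2 * R) (by omega)
  rw [show 3 * (2 * R) = 6 * R by ring] at s5
  set S := ∑ x ∈ bl hG o (6 * R), (f x) ^ 2 with hS
  calc ∑ x ∈ bl hG o R, (f x) ^ 2 ≤ 2 * (ρ : ℝ) ^ 2 * α *
        (α * ((8 * dg hG o : ℝ) / ((2 * R : ℕ) : ℝ) ^ 2 * S)) := by
        refine s1.trans (s3.trans ?_)
        refine mul_le_mul_of_nonneg_left (s4.trans ?_) (by positivity)
        exact mul_le_mul_of_nonneg_left s5 hα
    _ = 4 * dg hG o * α ^ 2 * ((ρ : ℝ) / R) ^ 2 * S := by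
        push_cast
        field_simp
        ring

end Pool.H61.ST

end S_H61_ST_FdimC

section S_H61_ST_Linalg

set_option autoImplicit false

/-! Two quadratic forms. -/

namespace Pool.H61.ST

open Matrix

lemma sym_diag {m : ℕ} (M : Matrix (Fin m) (Fin m) ℝ) (h : M.IsHermitian) :
    ∃ (P : Matrix (Fin m) (Fin m) ℝ) (l : Fin m → ℝ), Pᵀ * P = 1 ∧ P * Pᵀ = 1 ∧
      M = P * diagonal l * Pᵀ ∧ l = h.eigenvalues := by
  have h1 : ((h.eigenvectorUnitary : Matrix (Fin m) (Fin m) ℝ))ᵀ *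
      (h.eigenvectorUnitary : Matrix (Fin m) (Fin m) ℝ) = 1 := by
    have := Unitary.coe_star_mul_self h.eigenvectorUnitary
    rwa [Matrix.star_eq_conjTranspose, Matrix.conjTranspose_eq_transpose_of_trivial] at this
  refine ⟨(h.eigenvectorUnitary : Matrix (Fin m) (Fin m) ℝ), h.eigenvalues, h1, ?_, ?_, rfl⟩
  · exact mul_eq_one_comm.1 h1
  · have := h.spectral_theorem
    rw [Unitary.conjStarAlgAut_apply, Matrix.star_eq_conjTranspose,
      Matrix.conjTranspose_eq_transpose_of_trivial] at this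
    exact this

lemma exists_sqrt {m : ℕ} (M : Matrix (Fin m) (Fin m) ℝ) (h : M.PosDef) :
    ∃ C : Matrix (Fin m) (Fin m) ℝ, M = Cᵀ * C := by
  obtain ⟨P, l, hP1, hP2, hM, hl⟩ := sym_diag M h.1
  have hl0 : ∀ i, 0 < l i := by
    intro i; rw [hl]; exact h.eigenvalues_pos i
  refine ⟨diagonal (fun i => Real.sqrt (l i)) * Pᵀ, ?_⟩
  have h2 : diagonal (fun i => Real.sqrt (l i)) * diagonal (fun i => Real.sqrt (l i)) =
      diagonal l := by
    rw [Matrix.diagonal_mul_diagonal]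
    congr 1
    ext i
    exact Real.mul_self_sqrt (hl0 i).le
  rw [hM, Matrix.transpose_mul, Matrix.transpose_transpose, Matrix.diagonal_transpose, ← h2]
  simp only [Matrix.mul_assoc]

lemma simul {m : ℕ} (M₁ M₂ : Matrix (Fin m) (Fin m) ℝ) (h1 : M₁.PosSemidef)
    (h2 : M₂.PosDef) :
    ∃ (Q : Matrix (Fin m) (Fin m) ℝ) (l : Fin m → ℝ), Q.det ≠ 0 ∧ M₂ = Qᵀ * Q ∧
      M₁ = Qᵀ * diagonal l * Q := by
  obtain ⟨C, hCC⟩ := exists_sqrt M₂ h2
  have hCd : C.det ≠ 0 := by
    intro h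
    have : M₂.det = 0 := by rw [hCC, Matrix.det_mul, h, mul_zero]
    exact h2.det_pos.ne' this
  have hCu : IsUnit C.det := isUnit_iff_ne_zero.2 hCd
  obtain ⟨N, hNH, hM1⟩ : ∃ N : Matrix (Fin m) (Fin m) ℝ, N.IsHermitian ∧ M₁ = Cᵀ * N * C := by
    refine ⟨(C⁻¹)ᵀ * M₁ * C⁻¹, ?_, ?_⟩
    · have := (h1.conjTranspose_mul_mul_same C⁻¹).1
      rwa [Matrix.conjTranspose_eq_transpose_of_trivial] at this
    · have h3 : Cᵀ * (C⁻¹)ᵀ = 1 := by
        rw [← Matrix.transpose_mul, Matrix.nonsing_inv_mul C hCu, Matrix.transpose_one]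
      calc M₁ = (Cᵀ * (C⁻¹)ᵀ) * M₁ * (C⁻¹ * C) := by
            rw [h3, Matrix.nonsing_inv_mul C hCu, Matrix.one_mul, Matrix.mul_one]
        _ = _ := by simp only [Matrix.mul_assoc]
  obtain ⟨P, l, hP1, hP2, hN, -⟩ := sym_diag N hNH
  refine ⟨Pᵀ * C, l, ?_, ?_, ?_⟩
  · rw [Matrix.det_mul]
    refine mul_ne_zero ?_ hCd
    intro h
    have : (P * Pᵀ).det = 1 := by rw [hP2, Matrix.det_one]
    rw [Matrix.det_mul, h, mul_zero] at this
    exact zero_ne_one this
  · rw [hCC, Matrix.transpose_mul, Matrix.transpose_transpose]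
    calc Cᵀ * C = Cᵀ * (P * Pᵀ) * C := by rw [hP2, Matrix.mul_one]
      _ = _ := by simp only [Matrix.mul_assoc]
  · rw [hM1, hN, Matrix.transpose_mul, Matrix.transpose_transpose]
    simp only [Matrix.mul_assoc]

lemma quad_diag {m : ℕ} (Q : Matrix (Fin m) (Fin m) ℝ) (l : Fin m → ℝ) (x : Fin m → ℝ) :
    x ⬝ᵥ ((Qᵀ * diagonal l * Q) *ᵥ x) = ∑ i, l i * ((Q *ᵥ x) i) ^ 2 := by
  have h1 : (Qᵀ * diagonal l * Q) *ᵥ x = Qᵀ *ᵥ (diagonal l *ᵥ (Q *ᵥ x)) := by
    rw [Matrix.mulVec_mulVec, Matrix.mulVec_mulVec]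
  rw [h1, Matrix.dotProduct_mulVec, Matrix.vecMul_transpose]
  simp only [dotProduct, Matrix.mulVec_diagonal]
  exact Finset.sum_congr rfl fun i _ => by ring

lemma quad_one {m : ℕ} (Q : Matrix (Fin m) (Fin m) ℝ) (x : Fin m → ℝ) :
    x ⬝ᵥ ((Qᵀ * Q) *ᵥ x) = ∑ i, ((Q *ᵥ x) i) ^ 2 := by
  have := quad_diag Q (fun _ => 1) x
  rw [Matrix.diagonal_one, Matrix.mul_one] at this
  rw [this]
  exact Finset.sum_congr rfl fun i _ => by ring

lemma simul_bd {m : ℕ} (M₁ M₂ : Matrix (Fin m) (Fin m) ℝ) (h1 : M₁.PosSemidef)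
    (h2 : M₂.PosDef) (hle : ∀ x : Fin m → ℝ, x ⬝ᵥ (M₁ *ᵥ x) ≤ x ⬝ᵥ (M₂ *ᵥ x)) :
    ∃ (Q : Matrix (Fin m) (Fin m) ℝ) (l : Fin m → ℝ), Q.det ≠ 0 ∧ M₂ = Qᵀ * Q ∧
      M₁ = Qᵀ * diagonal l * Q ∧ (∀ i, 0 ≤ l i) ∧ (∀ i, l i ≤ 1) ∧
      M₁.det = M₂.det * ∏ i, l i := by
  obtain ⟨Q, l, hQ, hM2, hM1⟩ := simul M₁ M₂ h1 h2
  have hQu : IsUnit Q.det := isUnit_iff_ne_zero.2 hQ
  have hv : ∀ i, Q *ᵥ (Q⁻¹ *ᵥ (Pi.single i 1)) = Pi.single i 1 := by
    intro i
    rw [Matrix.mulVec_mulVec, Matrix.mul_nonsing_inv Q hQu, Matrix.one_mulVec]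
  have k1 : ∀ i, (Q⁻¹ *ᵥ (Pi.single i 1)) ⬝ᵥ (M₁ *ᵥ (Q⁻¹ *ᵥ (Pi.single i 1))) = l i := by
    intro i
    rw [hM1, quad_diag, hv i]
    simp [Pi.single_apply]
  have k2 : ∀ i, (Q⁻¹ *ᵥ (Pi.single i 1)) ⬝ᵥ (M₂ *ᵥ (Q⁻¹ *ᵥ (Pi.single i 1))) = 1 := by
    intro i
    rw [hM2, quad_one, hv i]
    simp [Pi.single_apply]
  refine ⟨Q, l, hQ, hM2, hM1, fun i => ?_, fun i => ?_, ?_⟩
  · rw [← k1 i]
    have := h1.dotProduct_mulVec_nonneg (Q⁻¹ *ᵥ (Pi.single i 1))
    simpa using this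
  · have h5 := hle (Q⁻¹ *ᵥ (Pi.single i 1))
    rw [k1 i, k2 i] at h5
    exact h5
  · rw [hM1, hM2]
    simp only [Matrix.det_mul, Matrix.det_transpose, Matrix.det_diagonal]
    ring

theorem half_space {m : ℕ} (M₁ M₂ : Matrix (Fin m) (Fin m) ℝ) (h1 : M₁.PosSemidef)
    (h2 : M₂.PosDef) (hle : ∀ x : Fin m → ℝ, x ⬝ᵥ (M₁ *ᵥ x) ≤ x ⬝ᵥ (M₂ *ᵥ x)) (c : ℝ)
    (hc0 : 0 < c) (hc1 : c ≤ 1) (hdet : c ^ m * M₂.det ≤ M₁.det) :
    ∃ U : Submodule ℝ (Fin m → ℝ), m ≤ 2 * Module.finrank ℝ U ∧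
      ∀ x ∈ U, c ^ 2 * (x ⬝ᵥ (M₂ *ᵥ x)) ≤ x ⬝ᵥ (M₁ *ᵥ x) := by
  classical
  obtain ⟨Q, l, hQ, hM2, hM1, hl0, hl1, hd⟩ := simul_bd M₁ M₂ h1 h2 hle
  set S : Finset (Fin m) := Finset.univ.filter (fun i => l i < c ^ 2) with hS
  have hSc : 2 * S.card ≤ m := by
    by_contra hcon
    push Not at hcon
    have hprod : c ^ m ≤ ∏ i, l i := by
      rw [hd, mul_comm] at hdet
      exact le_of_mul_le_mul_left hdet h2.det_pos
    have hpos : 0 < ∏ i, l i := lt_of_lt_of_le (pow_pos hc0 m) hprod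
    have hlp : ∀ i, 0 < l i := fun i => lt_of_le_of_ne (hl0 i) fun h => by
      rw [Finset.prod_eq_zero (Finset.mem_univ i) h.symm] at hpos
      exact lt_irrefl _ hpos
    have hle1 : ∏ i, l i ≤ ∏ i ∈ S, l i := by
      rw [← Finset.prod_sdiff (Finset.subset_univ S)]
      have : ∏ i ∈ Finset.univ \ S, l i ≤ 1 := Finset.prod_le_one (fun i _ => hl0 i) fun i _ => hl1 i
      calc (∏ i ∈ Finset.univ \ S, l i) * ∏ i ∈ S, l i ≤ 1 * ∏ i ∈ S, l i :=
            mul_le_mul_of_nonneg_right this (Finset.prod_nonneg fun i _ => hl0 i)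
        _ = _ := one_mul _
    have hne : S.Nonempty := by
      rw [← Finset.card_pos]; omega
    have hlt : ∏ i ∈ S, l i < ∏ _i ∈ S, c ^ 2 :=
      Finset.prod_lt_prod_of_nonempty (fun i _ => hlp i) (fun i hi => (Finset.mem_filter.1 hi).2) hne
    rw [Finset.prod_const, ← pow_mul] at hlt
    have : c ^ (2 * S.card) ≤ c ^ m := pow_le_pow_of_le_one hc0.le hc1 (by omega)
    linarith
  let L : (Fin m → ℝ) →ₗ[ℝ] (S → ℝ) :=
    { toFun := fun x i => (Q *ᵥ x) i.1
      map_add' := fun x y => by ext i; simp [Matrix.mulVec_add]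
      map_smul' := fun a x => by ext i; simp [Matrix.mulVec_smul] }
  refine ⟨LinearMap.ker L, ?_, ?_⟩
  · have hr := LinearMap.finrank_range_add_finrank_ker L
    rw [Module.finrank_fin_fun] at hr
    have hr2 : Module.finrank ℝ (LinearMap.range L) ≤ S.card := by
      calc Module.finrank ℝ (LinearMap.range L) ≤ Module.finrank ℝ (S → ℝ) :=
            Submodule.finrank_le _
        _ = S.card := by rw [Module.finrank_fintype_fun_eq_card, Fintype.card_coe]
    omega
  · intro x hx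
    have hx' : ∀ i ∈ S, (Q *ᵥ x) i = 0 := by
      intro i hi
      have : L x = 0 := hx
      exact congrFun this ⟨i, hi⟩
    rw [hM1, hM2, quad_diag, quad_one, Finset.mul_sum]
    refine Finset.sum_le_sum fun i _ => ?_
    by_cases hi : i ∈ S
    · rw [hx' i hi]; simp
    · have : c ^ 2 ≤ l i := by
        by_contra h
        push Not at h
        exact hi (Finset.mem_filter.2 ⟨Finset.mem_univ i, h⟩)
      exact mul_le_mul_of_nonneg_right this (sq_nonneg _)

theorem det_le_det {m : ℕ} (M₁ M₂ : Matrix (Fin m) (Fin m) ℝ) (h1 : M₁.PosSemidef)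
    (h2 : M₂.PosDef) (hle : ∀ x : Fin m → ℝ, x ⬝ᵥ (M₁ *ᵥ x) ≤ x ⬝ᵥ (M₂ *ᵥ x)) :
    M₁.det ≤ M₂.det := by
  obtain ⟨Q, l, hQ, hM2, hM1, hl0, hl1, hd⟩ := simul_bd M₁ M₂ h1 h2 hle
  rw [hd]
  have : ∏ i, l i ≤ 1 := Finset.prod_le_one (fun i _ => hl0 i) fun i _ => hl1 i
  calc M₂.det * ∏ i, l i ≤ M₂.det * 1 := mul_le_mul_of_nonneg_left this h2.det_pos.le
    _ = _ := mul_one _

end Pool.H61.ST

end S_H61_ST_Linalg

section S_H61_ST_Scale

set_option autoImplicit false

/-! Choice of scales (module SCALE). -/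

namespace Pool.H61.ST

theorem exists_scale (v φ : ℕ → ℝ) (hv : Monotone v) (hφ : Monotone φ) (a b : ℝ) (ha : 0 < a)
    (hK : ∀ N : ℕ, ∃ K ≥ N, v K ≤ a * K + b ∧ φ K ≤ a * K + b) (w k₀ : ℕ) :
    ∃ k ≥ k₀, w + 1 ≤ k ∧ φ (k + 1) - φ k ≤ 5 * a ∧
      v (k - w + 1) - v (k - w - 1) ≤ 10 * a ∧
      v (k + 1) - v (k - w - 1) ≤ 5 * (w + 2) * a := by
  by_contra hcon
  push Not at hcon
  have hw : (0 : ℝ) < 5 * (w + 2) * a := by positivity
  set S : ℕ → ℝ := fun j => ∑ i ∈ Finset.range (w + 2), v (j + i) with hS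
  set Φ : ℕ → ℝ := fun j => φ (j + w + 1) / (5 * a) + (v j + v (j + 1)) / (10 * a) +
    S j / (5 * (w + 2) * a) with hΦ
  have hSs : ∀ j, S (j + 1) - S j = v (j + w + 2) - v j := by
    intro j
    have h1 : S (j + 1) = ∑ i ∈ Finset.range (w + 1), v (j + 1 + i) + v (j + 1 + (w + 1)) := by
      simp only [hS]; rw [Finset.sum_range_succ]
    have h2 : S j = ∑ i ∈ Finset.range (w + 1), v (j + (i + 1)) + v (j + 0) := by
      simp only [hS]; rw [Finset.sum_range_succ']
    rw [h1, h2]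
    have h3 : ∑ i ∈ Finset.range (w + 1), v (j + 1 + i) = ∑ i ∈ Finset.range (w + 1), v (j + (i + 1)) :=
      Finset.sum_congr rfl fun i _ => by congr 1; ring
    rw [h3]
    have h4 : j + 1 + (w + 1) = j + w + 2 := by ring
    rw [h4, add_zero]; ring
  have hstep : ∀ j ≥ k₀, Φ j + 1 ≤ Φ (j + 1) := by
    intro j hj
    have e1 : Φ (j + 1) - Φ j = (φ (j + w + 2) - φ (j + w + 1)) / (5 * a) +
        (v (j + 2) - v j) / (10 * a) + (v (j + w + 2) - v j) / (5 * (w + 2) * a) := by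
      have e2 : j + 1 + w + 1 = j + w + 2 := by ring
      simp only [hΦ]
      rw [e2, ← hSs j]
      ring
    have p1 : 0 ≤ (φ (j + w + 2) - φ (j + w + 1)) / (5 * a) :=
      div_nonneg (sub_nonneg.2 (hφ (by omega))) (by positivity)
    have p2 : 0 ≤ (v (j + 2) - v j) / (10 * a) :=
      div_nonneg (sub_nonneg.2 (hv (by omega))) (by positivity)
    have p3 : 0 ≤ (v (j + w + 2) - v j) / (5 * (w + 2) * a) :=
      div_nonneg (sub_nonneg.2 (hv (by omega))) hw.le
    have hc := hcon (j + w + 1) (by omega) (by omega)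
    have e3 : j + w + 1 - w + 1 = j + 2 := by omega
    have e4 : j + w + 1 - w - 1 = j := by omega
    have e5 : j + w + 1 + 1 = j + w + 2 := by omega
    rw [e3, e4, e5] at hc
    by_cases c1 : φ (j + w + 2) - φ (j + w + 1) ≤ 5 * a
    · by_cases c2 : v (j + 2) - v j ≤ 10 * a
      · have c3 := hc c1 c2
        have : 1 ≤ (v (j + w + 2) - v j) / (5 * (w + 2) * a) := by
          rw [le_div_iff₀ hw]; linarith
        linarith
      · have : 1 ≤ (v (j + 2) - v j) / (10 * a) := by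
          rw [le_div_iff₀ (by positivity)]; push Not at c2; linarith
        linarith
    · have : 1 ≤ (φ (j + w + 2) - φ (j + w + 1)) / (5 * a) := by
        rw [le_div_iff₀ (by positivity)]; push Not at c1; linarith
      linarith
  have hgrow : ∀ n : ℕ, Φ k₀ + n ≤ Φ (k₀ + n) := by
    intro n
    induction n with
    | zero => simp
    | succ n ih =>
      have := hstep (k₀ + n) (by omega)
      push_cast
      rw [← add_assoc k₀ n 1]
      linarith
  have hup : ∀ j, Φ j ≤ (φ (j + w + 2) + 2 * v (j + w + 2)) / (5 * a) := by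
    intro j
    have q1 : φ (j + w + 1) / (5 * a) ≤ φ (j + w + 2) / (5 * a) :=
      div_le_div_of_nonneg_right (hφ (by omega)) (by positivity)
    have q2 : (v j + v (j + 1)) / (10 * a) ≤ (2 * v (j + w + 2)) / (10 * a) := by
      apply div_le_div_of_nonneg_right _ (by positivity)
      have := hv (show j ≤ j + w + 2 by omega)
      have := hv (show j + 1 ≤ j + w + 2 by omega)
      linarith
    have q3 : S j / (5 * (w + 2) * a) ≤ ((w + 2) * v (j + w + 2)) / (5 * (w + 2) * a) := by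
      apply div_le_div_of_nonneg_right _ hw.le
      have : S j ≤ ∑ i ∈ Finset.range (w + 2), v (j + w + 2) :=
        Finset.sum_le_sum fun i hi => hv (by have := Finset.mem_range.1 hi; omega)
      simpa using this
    have q4 : ((w + 2 : ℝ) * v (j + w + 2)) / (5 * (w + 2) * a) = v (j + w + 2) / (5 * a) := by
      have : (w + 2 : ℝ) ≠ 0 := by positivity
      field_simp
    have q5 : (2 * v (j + w + 2)) / (10 * a) = v (j + w + 2) / (5 * a) := by
      field_simp; ring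
    have q6 : (φ (j + w + 2) + 2 * v (j + w + 2)) / (5 * a) =
        φ (j + w + 2) / (5 * a) + v (j + w + 2) / (5 * a) + v (j + w + 2) / (5 * a) := by
      ring
    rw [q6]
    simp only [hΦ]
    linarith
  -- choose K
  obtain ⟨N, hN⟩ := exists_nat_gt ((5 / 2) * (3 * b / (5 * a) + w + 2 + k₀ - Φ k₀))
  obtain ⟨K, hK1, hK2, hK3⟩ := hK (N + w + 2 + k₀)
  obtain ⟨n, rfl⟩ : ∃ n, K = k₀ + n + w + 2 := ⟨K - (k₀ + w + 2), by omega⟩
  have h1 := hgrow n
  have h2 := hup (k₀ + n)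
  have h3 : (φ (k₀ + n + w + 2) + 2 * v (k₀ + n + w + 2)) / (5 * a) ≤
      3 * ((k₀ + n + w + 2 : ℕ) : ℝ) / 5 + 3 * b / (5 * a) := by
    have e : 3 * ((k₀ + n + w + 2 : ℕ) : ℝ) / 5 + 3 * b / (5 * a) =
        (3 * (a * ((k₀ + n + w + 2 : ℕ) : ℝ) + b)) / (5 * a) := by
      field_simp
    rw [e]
    apply div_le_div_of_nonneg_right _ (by positivity)
    linarith
  have h4 : (N : ℝ) ≤ n := by exact_mod_cast (by omega : N ≤ n)
  push_cast at h3
  have hk : (0 : ℝ) ≤ k₀ := Nat.cast_nonneg _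
  have hw' : (0 : ℝ) ≤ w := Nat.cast_nonneg _
  have h5 : (N : ℝ) ≤ (5 / 2) * (3 * b / (5 * a) + w + 2 + k₀ - Φ k₀) := by
    have : Φ k₀ + n ≤ 3 * (k₀ + n + w + 2) / 5 + 3 * b / (5 * a) := by linarith
    linarith
  linarith

end Pool.H61.ST

end S_H61_ST_Scale

section S_H61_ST_Fdim

set_option autoImplicit false

/-! The space of Lipschitz harmonic functions is finite dimensional (helper93). -/

namespace Pool.H61.ST

open Finset Pool.Agent.H61.SW Pool.H98.C Matrix

variable {V : Type} {G : SimpleGraph V} (hG : TG G)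

/-- the volume function on a logarithmic scale -/
noncomputable def lv (o : V) (k : ℕ) : ℝ := Real.log ((bl hG o (16 ^ k)).card : ℝ)

lemma card_pos (o : V) (r : ℕ) : (0 : ℝ) < (bl hG o r).card := by
  exact_mod_cast Finset.card_pos.2 (bl_nonempty hG o r)

lemma lv_mono (o : V) : Monotone (lv hG o) := by
  intro a b hab
  refine Real.log_le_log (card_pos hG o _) ?_
  exact_mod_cast card_bl_mono hG o (Nat.pow_le_pow_right (by norm_num) hab)

/-- from a bound of log volumes to a bound of volumes -/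
lemma vol_of_lv (o : V) (i j : ℕ) (c : ℝ) (h : lv hG o j - lv hG o i ≤ c) :
    ((bl hG o (16 ^ j)).card : ℝ) ≤ Real.exp c * (bl hG o (16 ^ i)).card := by
  have h1 : lv hG o j ≤ c + lv hG o i := by linarith
  have h2 := Real.exp_le_exp.2 h1
  rw [Real.exp_add] at h2
  unfold lv at h2
  rwa [Real.exp_log (card_pos hG o _), Real.exp_log (card_pos hG o _)] at h2

/-- the bound for the number of linearly independent functions -/
theorem li_bound (o : V) (D : ℕ) (hpg : PG hG o D) (hh : ∀ R, Nonempty (Homog G o R)) (w : ℕ)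
    (hw : 4 * (dg hG o : ℝ) * Real.exp (30 * ((D + 2) * Real.log 16)) < 16 ^ w)
    {m : ℕ} (hm : 0 < m) (u : Fin m → V → ℝ) (hu : ∀ i, u i ∈ LH hG o)
    (hli : LinearIndependent ℝ u) :
    (m : ℝ) ≤ 2 * Real.exp (5 * ((w + 1 : ℕ) + 2) * ((D + 2) * Real.log 16)) := by
  classical
  have hlog : 0 < Real.log 16 := Real.log_pos (by norm_num)
  set a : ℝ := (D + 2) * Real.log 16 with ha
  have ha0 : 0 < a := by positivity
  have hmR : (0 : ℝ) < m := by exact_mod_cast hm
  -- common Lipschitz constant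
  choose h0 hharm hlip using fun i => mem_LH hG (hu i)
  choose C hC using hlip
  set L : ℝ := 1 + ∑ i, |C i| with hLdef
  have hL1 : 1 ≤ L := by
    have : 0 ≤ ∑ i, |C i| := Finset.sum_nonneg fun i _ => abs_nonneg _
    linarith
  have hL : ∀ i, Lip G L (u i) := by
    intro i x y hxy
    refine (hC i x y hxy).trans ?_
    have h1 : |C i| ≤ ∑ i, |C i| :=
      Finset.single_le_sum (f := fun i => |C i|) (fun i _ => abs_nonneg _) (Finset.mem_univ i)
    linarith [le_abs_self (C i)]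
  -- radius from which the Gram matrices are definite
  obtain ⟨R0, hR0⟩ := exists_R0 hG o u hli
  set k0 : ℕ := R0 with hk0
  have hk0' : ∀ k, k0 ≤ k → R0 ≤ 16 ^ k := by
    intro k hk
    exact hk.trans (Nat.lt_pow_self (by norm_num)).le
  have hPD : ∀ k, k0 ≤ k → (GM hG o u (16 ^ k)).PosDef := fun k hk =>
    GM_posDef hG o u _ (hR0 _ (hk0' k hk))
  set φ : ℕ → ℝ := fun k => (1 / m : ℝ) * Real.log (GM hG o u (16 ^ (max k k0))).det with hφ
  have hφm : Monotone φ := by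
    intro i j hij
    have h1 : 16 ^ (max i k0) ≤ 16 ^ (max j k0) :=
      Nat.pow_le_pow_right (by norm_num) (max_le_max_right _ hij)
    have h2 := det_le_det _ _ (GM_posSemidef hG o u (16 ^ (max i k0)))
      (hPD (max j k0) (le_max_right _ _)) (fun x => GM_le hG o u h1 x)
    have h3 := (hPD (max i k0) (le_max_right _ _)).det_pos
    exact mul_le_mul_of_nonneg_left (Real.log_le_log h3 h2) (by positivity)
  set b : ℝ := D * Real.log 16 + (1 / m : ℝ) * Real.log (m.factorial : ℝ) + 2 * Real.log L with hb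
  have hlogL : 0 ≤ Real.log L := Real.log_nonneg hL1
  have hlogm : 0 ≤ Real.log (m.factorial : ℝ) :=
    Real.log_nonneg (by exact_mod_cast Nat.one_le_iff_ne_zero.2 (Nat.factorial_ne_zero m))
  have hK : ∀ N : ℕ, ∃ K ≥ N, lv hG o K ≤ a * K + b ∧ φ K ≤ a * K + b := by
    intro N
    obtain ⟨r, hr, hr2⟩ := hpg (16 ^ (max N k0))
    set K := Nat.log 16 r with hKdef
    have hr0 : r ≠ 0 := by
      have : 0 < 16 ^ (max N k0) := by positivity
      omega
    have hK1 : 16 ^ K ≤ r := Nat.pow_log_le_self 16 hr0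
    have hK2 : r < 16 ^ (K + 1) := Nat.lt_pow_succ_log_self (by norm_num) r
    have hK3 : max N k0 ≤ K := by
      have h1 : 16 ^ (max N k0) < 16 ^ (K + 1) := lt_of_le_of_lt hr hK2
      have h2 := (Nat.pow_lt_pow_iff_right (by norm_num : 1 < 16)).1 h1
      omega
    have hlvK : lv hG o K ≤ D * (K + 1) * Real.log 16 := by
      have h1 : ((bl hG o (16 ^ K)).card : ℝ) ≤ ((16 : ℝ) ^ (K + 1)) ^ D := by
        have h2 : ((bl hG o (16 ^ K)).card : ℝ) ≤ (bl hG o r).card := by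
          exact_mod_cast card_bl_mono hG o hK1
        refine h2.trans (hr2.trans ?_)
        refine pow_le_pow_left₀ (Nat.cast_nonneg r) ?_ D
        have : (r : ℝ) ≤ ((16 ^ (K + 1) : ℕ) : ℝ) := by exact_mod_cast hK2.le
        simpa using this
      have h3 := Real.log_le_log (card_pos hG o _) h1
      rw [Real.log_pow, Real.log_pow] at h3
      unfold lv
      refine h3.trans (le_of_eq ?_)
      push_cast
      ring
    refine ⟨K, (le_max_left _ _).trans hK3, ?_, ?_⟩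
    · refine hlvK.trans ?_
      have h1 : 0 ≤ (1 / m : ℝ) * Real.log (m.factorial : ℝ) := by positivity
      have h2 : 0 ≤ 2 * (K : ℝ) * Real.log 16 := by positivity
      rw [ha, hb]
      nlinarith
    · have hmax : max K k0 = K := max_eq_left ((le_max_right _ _).trans hK3)
      have h1 := GM_det_le hG o u L (by linarith) hL h0 (16 ^ K)
      have h2 : 0 < (GM hG o u (16 ^ K)).det :=
        (hPD K ((le_max_right _ _).trans hK3)).det_pos
      have h3 := Real.log_le_log h2 h1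
      have hV := card_pos hG o (16 ^ K)
      have hLp : 0 < L := by linarith
      have h16 : (0 : ℝ) < ((16 ^ K : ℕ) : ℝ) := by positivity
      rw [Real.log_mul (by positivity) (by positivity), Real.log_pow,
        Real.log_mul (by positivity) (by positivity), Real.log_mul (by positivity) (by positivity),
        Real.log_pow, Real.log_pow] at h3
      have h4 : Real.log (((16 ^ K : ℕ) : ℝ)) = K * Real.log 16 := by
        push_cast
        rw [Real.log_pow]
      rw [h4] at h3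
      have h5 : φ K ≤ (1 / m : ℝ) * (Real.log (m.factorial : ℝ) +
          m * ((2 : ℕ) * Real.log L + (2 : ℕ) * (K * Real.log 16) + lv hG o K)) := by
        show (1 / m : ℝ) * Real.log (GM hG o u (16 ^ (max K k0))).det ≤ _
        rw [hmax]
        exact mul_le_mul_of_nonneg_left h3 (by positivity)
      have h6 : (1 / m : ℝ) * (Real.log (m.factorial : ℝ) +
          m * ((2 : ℕ) * Real.log L + (2 : ℕ) * (K * Real.log 16) + lv hG o K)) =
          (1 / m : ℝ) * Real.log (m.factorial : ℝ) +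
          (2 * Real.log L + 2 * (K * Real.log 16) + lv hG o K) := by
        field_simp
        push_cast
        ring
      rw [h6] at h5
      rw [ha, hb]
      nlinarith
  obtain ⟨k, hk, hwk, hs1, hs2, hs3⟩ :=
    exists_scale (lv hG o) φ (lv_mono hG o) hφm a b ha0 hK (w + 1) k0
  -- the subspace
  have hkk : max k k0 = k := max_eq_left hk
  have hkk' : max (k + 1) k0 = k + 1 := max_eq_left (by omega)
  have hd1 := (hPD k hk).det_pos
  have hd2 := (hPD (k + 1) (by omega)).det_pos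
  have hdet : Real.exp (-(5 * a)) ^ m * (GM hG o u (16 ^ (k + 1))).det ≤
      (GM hG o u (16 ^ k)).det := by
    have h1 : (1 / m : ℝ) * Real.log (GM hG o u (16 ^ (k + 1))).det -
        (1 / m : ℝ) * Real.log (GM hG o u (16 ^ k)).det ≤ 5 * a := by
      have := hs1
      simp only [hφ] at this
      rw [hkk, hkk'] at this
      exact this
    have h2 : Real.log (GM hG o u (16 ^ (k + 1))).det ≤
        m * (5 * a) + Real.log (GM hG o u (16 ^ k)).det := by
      rw [← mul_sub] at h1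
      have h3 := mul_le_mul_of_nonneg_left h1 hmR.le
      rw [← mul_assoc, mul_one_div_cancel hmR.ne', one_mul] at h3
      linarith
    have h4 := Real.exp_le_exp.2 h2
    rw [Real.exp_add, Real.exp_log hd1, Real.exp_log hd2] at h4
    rw [← Real.exp_nat_mul]
    have h5 : Real.exp ((m : ℝ) * -(5 * a)) * (Real.exp (m * (5 * a)) *
        (GM hG o u (16 ^ k)).det) = (GM hG o u (16 ^ k)).det := by
      rw [← mul_assoc, ← Real.exp_add]
      simp
    calc Real.exp ((m : ℝ) * -(5 * a)) * (GM hG o u (16 ^ (k + 1))).det ≤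
        Real.exp ((m : ℝ) * -(5 * a)) * (Real.exp (m * (5 * a)) *
        (GM hG o u (16 ^ k)).det) := mul_le_mul_of_nonneg_left h4 (Real.exp_pos _).le
      _ = _ := h5
  obtain ⟨U, hU1, hU2⟩ := half_space _ _ (GM_posSemidef hG o u (16 ^ k)) (hPD (k + 1) (by omega))
    (fun x => GM_le hG o u (Nat.pow_le_pow_right (by norm_num) (by omega)) x)
    (Real.exp (-(5 * a))) (Real.exp_pos _) (Real.exp_le_one_iff.2 (by linarith)) hdet
  -- the net
  obtain ⟨j, rfl⟩ : ∃ j, k = j + 1 + (w + 1) := ⟨k - (w + 1) - 1, by omega⟩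
  set ρ : ℕ := 16 ^ (j + 1) with hρ
  set R : ℕ := 16 ^ (j + 1 + (w + 1)) with hR
  have hj1 : j + 1 + (w + 1) - (w + 1) + 1 = j + 2 := by omega
  have hj2 : j + 1 + (w + 1) - (w + 1) - 1 = j := by omega
  rw [hj1, hj2] at hs2
  rw [hj2] at hs3
  have hv2 := vol_of_lv hG o _ _ _ hs2
  have hv3 := vol_of_lv hG o _ _ _ hs3
  have hρ0 : 0 < 16 ^ j := by positivity
  have hρ1 : ρ = 16 * 16 ^ j := by rw [hρ, pow_succ]; ring
  have hRρ : R = 16 ^ (w + 1) * ρ := by rw [hR, hρ, pow_add]; ring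
  have hRρ' : 16 * ρ ≤ R := by
    rw [hRρ, pow_succ]
    have : 0 < 16 ^ w := by positivity
    nlinarith
  obtain ⟨N, hN1, hN2, hN3⟩ := exists_sep_net hG o R ρ
  have hNc : (N.card : ℝ) ≤ Real.exp (5 * ((w + 1 : ℕ) + 2) * a) := by
    have q1 := sep_card hG o o R ρ N hN1 hN2
    have q2 : (bl hG o (R + ρ / 2)).card ≤ (bl hG o (16 ^ (j + 1 + (w + 1) + 1))).card := by
      refine card_bl_mono hG o ?_
      have : 16 ^ (j + 1 + (w + 1) + 1) = 16 * R := by rw [hR, pow_succ]; ring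
      omega
    have q3 : (bl hG o (16 ^ j)).card ≤ (bl hG o (ρ / 2)).card := card_bl_mono hG o (by omega)
    have q4 : (N.card : ℝ) * (bl hG o (16 ^ j)).card ≤
        Real.exp (5 * ((w + 1 : ℕ) + 2) * a) * (bl hG o (16 ^ j)).card := by
      refine le_trans ?_ hv3
      have : N.card * (bl hG o (16 ^ j)).card ≤ N.card * (bl hG o (ρ / 2)).card :=
        Nat.mul_le_mul_left _ q3
      exact_mod_cast this.trans (q1.trans q2)
    exact le_of_mul_le_mul_right q4 (card_pos hG o _)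
  by_contra hcon
  rw [not_le] at hcon
  have hcard : N.card < Module.finrank ℝ U := by
    have h1 : (m : ℝ) ≤ 2 * (Module.finrank ℝ U : ℝ) := by exact_mod_cast hU1
    have h2 : (N.card : ℝ) < (Module.finrank ℝ U : ℝ) := by linarith
    exact_mod_cast h2
  obtain ⟨x, hxU, hx0, hxb⟩ := exists_bal hG u U N ρ hcard
  obtain ⟨H⟩ := hh (2 * ρ)
  set α : ℝ := Real.exp (10 * a) with hα
  have hα1 : ((bl hG o (2 * ρ)).card : ℝ) ≤ α * (bl hG o ρ).card := by
    have e1 : ((bl hG o (2 * ρ)).card : ℝ) ≤ (bl hG o (16 ^ (j + 2))).card := by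
      have : 16 ^ (j + 2) = 16 * ρ := by rw [hρ1]; ring
      exact_mod_cast card_bl_mono hG o (by omega)
    have e2 : ((bl hG o (16 ^ j)).card : ℝ) ≤ (bl hG o ρ).card := by
      exact_mod_cast card_bl_mono hG o (by omega)
    exact e1.trans (hv2.trans (mul_le_mul_of_nonneg_left e2 (Real.exp_pos _).le))
  have hα2 : ((bl hG o (4 * ρ)).card : ℝ) ≤ α * (bl hG o (ρ / 2)).card := by
    have e1 : ((bl hG o (4 * ρ)).card : ℝ) ≤ (bl hG o (16 ^ (j + 2))).card := by
      have : 16 ^ (j + 2) = 16 * ρ := by rw [hρ1]; ring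
      exact_mod_cast card_bl_mono hG o (by omega)
    have e2 : ((bl hG o (16 ^ j)).card : ℝ) ≤ (bl hG o (ρ / 2)).card := by
      exact_mod_cast card_bl_mono hG o (by omega)
    exact e1.trans (hv2.trans (mul_le_mul_of_nonneg_left e2 (Real.exp_pos _).le))
  have hest := loc_est hG o (ev u x) (lap_ev hG u x hharm) R ρ (by omega) (by omega) H N hN1 hN2
    hN3 hxb α hα1 hα2
  -- comparison of the two scales
  have hcmp := hU2 x hxU
  rw [GM_form, GM_form] at hcmp
  have hQpos : 0 < ∑ y ∈ bl hG o R, (ev u x y) ^ 2 := by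
    have h1 := (hPD (j + 1 + (w + 1)) hk).dotProduct_mulVec_pos hx0
    have h2 : star x = x := by ext i; simp
    rw [h2, GM_form] at h1
    exact h1
  set Q := ∑ y ∈ bl hG o R, (ev u x y) ^ 2 with hQ
  set Q' := ∑ y ∈ bl hG o (16 ^ (j + 1 + (w + 1) + 1)), (ev u x y) ^ 2 with hQ'
  have hQ6 : ∑ y ∈ bl hG o (6 * R), (ev u x y) ^ 2 ≤ Q' := by
    refine Finset.sum_le_sum_of_subset_of_nonneg (fd_bl_mono hG o ?_) fun y _ _ => sq_nonneg _
    have : 16 ^ (j + 1 + (w + 1) + 1) = 16 * R := by rw [hR, pow_succ]; ring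
    omega
  have hQQ : Q' ≤ Real.exp (10 * a) * Q := by
    have h1 : Real.exp (-(5 * a)) ^ 2 = Real.exp (-(10 * a)) := by
      rw [← Real.exp_nat_mul]
      congr 1
      push_cast
      ring
    rw [h1] at hcmp
    have h2 := mul_le_mul_of_nonneg_left hcmp (Real.exp_pos (10 * a)).le
    rw [← mul_assoc, ← Real.exp_add] at h2
    simpa using h2
  have hratio : ((ρ : ℝ) / R) = 1 / 16 ^ (w + 1) := by
    rw [hRρ]
    push_cast
    have : (ρ : ℝ) ≠ 0 := by
      have : 0 < ρ := by omega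
      exact_mod_cast this.ne'
    field_simp
  rw [hratio] at hest
  have hfin : Q ≤ 4 * (dg hG o : ℝ) * Real.exp (30 * a) * (1 / 16 ^ (w + 1)) ^ 2 * Q := by
    have h3 : α ^ 2 * Real.exp (10 * a) = Real.exp (30 * a) := by
      rw [hα, ← Real.exp_nat_mul, ← Real.exp_add]
      congr 1
      push_cast
      ring
    calc Q ≤ _ := hest
      _ ≤ 4 * dg hG o * α ^ 2 * ((1 : ℝ) / 16 ^ (w + 1)) ^ 2 * (Real.exp (10 * a) * Q) :=
          mul_le_mul_of_nonneg_left (hQ6.trans hQQ) (by positivity)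
      _ = _ := by rw [← h3]; ring
  have hlt : 4 * (dg hG o : ℝ) * Real.exp (30 * a) * (1 / 16 ^ (w + 1)) ^ 2 < 1 := by
    have h4 : (0 : ℝ) < 16 ^ w := by positivity
    have h5 : (1 : ℝ) ≤ 16 ^ w := one_le_pow₀ (by norm_num)
    rw [div_pow, one_pow, mul_one_div, div_lt_one (by positivity)]
    refine lt_of_lt_of_le hw ?_
    have h6 : (16 : ℝ) ^ (w + 1) = 16 ^ w * 16 := pow_succ _ _
    rw [h6]
    generalize (16 : ℝ) ^ w = t at h4 h5
    nlinarith [mul_nonneg h4.le (sub_nonneg.2 h5)]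
  nlinarith

/-- **The space of Lipschitz harmonic functions is finite dimensional.** -/
theorem finite_LH (o : V) (D : ℕ) (hpg : PG hG o D) (hh : ∀ R, Nonempty (Homog G o R)) :
    Module.Finite ℝ (LH hG o) := by
  obtain ⟨w, hw⟩ := pow_unbounded_of_one_lt
    (4 * (dg hG o : ℝ) * Real.exp (30 * ((D + 2) * Real.log 16))) (by norm_num : (1 : ℝ) < 16)
  refine finite_of_bound ⌈2 * Real.exp (5 * ((w + 1 : ℕ) + 2) * ((D + 2) * Real.log 16))⌉₊ ?_
  intro m u hli
  rcases Nat.eq_zero_or_pos m with rfl | hm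
  · exact Nat.zero_le _
  have h1 : LinearIndependent ℝ (fun i => (u i : V → ℝ)) :=
    hli.map' (LH hG o).subtype (Submodule.ker_subtype _)
  have h2 := li_bound hG o D hpg hh w hw hm (fun i => (u i : V → ℝ)) (fun i => (u i).2) h1
  exact_mod_cast h2.trans (Nat.le_ceil _)

end Pool.H61.ST

end S_H61_ST_Fdim
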