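import Mathlib
import Pool.Agent.H61.LC.L1

set_option autoImplicit false

/-! Locality of connective constants, part L8: this file joins several modules to save build time. -/

section S_H61_ST_Jord

set_option autoImplicit false

/-! Near-identity isometries generating a group of polynomial growth commute. -/

namespace Pool.H61.ST

namespace Jord

section

variable {Γ : Type} [Group Γ] (T : Finset Γ)

/-- `g` is a word of length at most `n` in the generators -/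
def Wd (n : ℕ) (g : Γ) : Prop :=
  ∃ l : List Γ, l.length ≤ n ∧ (∀ x ∈ l, x ∈ T ∨ x⁻¹ ∈ T) ∧ l.prod = g

variable {T}

lemma Wd.mono {m n : ℕ} {g : Γ} (h : Wd T m g) (hmn : m ≤ n) : Wd T n g := by
  obtain ⟨l, h1, h2, h3⟩ := h
  exact ⟨l, h1.trans hmn, h2, h3⟩

lemma Wd.one : Wd T 0 (1 : Γ) := ⟨[], by simp, by simp, rfl⟩

lemma Wd.mul {m n : ℕ} {g h : Γ} (hg : Wd T m g) (hh : Wd T n h) : Wd T (m + n) (g * h) := by
  obtain ⟨l, h1, h2, h3⟩ := hg
  obtain ⟨l', h1', h2', h3'⟩ := hh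
  refine ⟨l ++ l', ?_, ?_, ?_⟩
  · rw [List.length_append]; omega
  · intro x hx
    rw [List.mem_append] at hx
    rcases hx with hx | hx
    · exact h2 x hx
    · exact h2' x hx
  · rw [List.prod_append, h3, h3']

lemma Wd.inv {m : ℕ} {g : Γ} (hg : Wd T m g) : Wd T m g⁻¹ := by
  obtain ⟨l, h1, h2, h3⟩ := hg
  refine ⟨(l.map (fun x => x⁻¹)).reverse, ?_, ?_, ?_⟩
  · rw [List.length_reverse, List.length_map]; exact h1
  · intro x hx
    rw [List.mem_reverse, List.mem_map] at hx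
    obtain ⟨y, hy, rfl⟩ := hx
    rcases h2 y hy with h | h
    · right; rw [inv_inv]; exact h
    · left; exact h
  · rw [← h3, List.prod_inv_reverse]

lemma Wd.pow {m : ℕ} {g : Γ} (hg : Wd T m g) (n : ℕ) : Wd T (n * m) (g ^ n) := by
  induction n with
  | zero => simpa using Wd.one (T := T)
  | succ n ih =>
    rw [pow_succ]
    have := ih.mul hg
    have e : n * m + m = (n + 1) * m := by ring
    rwa [e] at this

lemma Wd.gen {t : Γ} (ht : t ∈ T) : Wd T 1 t :=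
  ⟨[t], by simp, by simpa using Or.inl ht, by simp⟩

end

section

variable {A : Type} [NormedRing A] [NormedAlgebra ℝ A] {Γ : Type} [Group Γ] (ρ : Γ →* A)

/-- the commutator -/
def cm (a b : Γ) : Γ := a * b * a⁻¹ * b⁻¹

lemma rho_inv_mul (g : Γ) : ρ g⁻¹ * ρ g = 1 := by rw [← map_mul]; simp

lemma rho_mul_inv (g : Γ) : ρ g * ρ g⁻¹ = 1 := by rw [← map_mul]; simp

lemma cm_norm (hρ : ∀ g, ‖ρ g‖ ≤ 1) (a b : Γ) :
    ‖ρ (cm a b) - 1‖ ≤ 2 * ‖ρ a - 1‖ * ‖ρ b - 1‖ := by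
  have e : ρ (cm a b) - 1 =
      ((ρ a - 1) * (ρ b - 1) - (ρ b - 1) * (ρ a - 1)) * ρ (a⁻¹ * b⁻¹) := by
    have h1 : (ρ a - 1) * (ρ b - 1) - (ρ b - 1) * (ρ a - 1) = ρ a * ρ b - ρ b * ρ a := by
      noncomm_ring
    rw [h1, sub_mul, ← map_mul, ← map_mul, ← map_mul, ← map_mul]
    have h2 : a * b * (a⁻¹ * b⁻¹) = cm a b := by unfold cm; group
    have h3 : b * a * (a⁻¹ * b⁻¹) = 1 := by group
    rw [h2, h3, map_one]
  rw [e]
  calc _ ≤ ‖(ρ a - 1) * (ρ b - 1) - (ρ b - 1) * (ρ a - 1)‖ * ‖ρ (a⁻¹ * b⁻¹)‖ := norm_mul_le _ _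
    _ ≤ ‖(ρ a - 1) * (ρ b - 1) - (ρ b - 1) * (ρ a - 1)‖ * 1 :=
        mul_le_mul_of_nonneg_left (hρ _) (norm_nonneg _)
    _ ≤ (‖(ρ a - 1) * (ρ b - 1)‖ + ‖(ρ b - 1) * (ρ a - 1)‖) * 1 :=
        mul_le_mul_of_nonneg_right (norm_sub_le _ _) zero_le_one
    _ ≤ (‖ρ a - 1‖ * ‖ρ b - 1‖ + ‖ρ b - 1‖ * ‖ρ a - 1‖) * 1 :=
        mul_le_mul_of_nonneg_right (add_le_add (norm_mul_le _ _) (norm_mul_le _ _)) zero_le_one
    _ = 2 * ‖ρ a - 1‖ * ‖ρ b - 1‖ := by ring

lemma mul_sub_one_norm (hρ : ∀ g, ‖ρ g‖ ≤ 1) (g h : Γ) :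
    ‖ρ (g * h) - 1‖ ≤ ‖ρ g - 1‖ + ‖ρ h - 1‖ := by
  have e : ρ (g * h) - 1 = ρ g * (ρ h - 1) + (ρ g - 1) := by
    rw [map_mul, mul_sub, mul_one]; abel
  rw [e]
  calc _ ≤ ‖ρ g * (ρ h - 1)‖ + ‖ρ g - 1‖ := norm_add_le _ _
    _ ≤ ‖ρ g‖ * ‖ρ h - 1‖ + ‖ρ g - 1‖ := by gcongr; exact norm_mul_le _ _
    _ ≤ 1 * ‖ρ h - 1‖ + ‖ρ g - 1‖ := by
        gcongr
        exact hρ g
    _ = _ := by ring

lemma pow_sub_one_norm (hρ : ∀ g, ‖ρ g‖ ≤ 1) (g : Γ) (n : ℕ) :
    ‖ρ (g ^ n) - 1‖ ≤ n * ‖ρ g - 1‖ := by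
  induction n with
  | zero => simp
  | succ n ih =>
    rw [pow_succ]
    have := mul_sub_one_norm ρ hρ (g ^ n) g
    push_cast
    linarith

/-- second order estimate -/
lemma pow_sub_one_lower (hρ : ∀ g, ‖ρ g‖ ≤ 1) (g : Γ) (n : ℕ) :
    ‖ρ (g ^ n) - 1 - (n : ℝ) • (ρ g - 1)‖ ≤ (n * n / 2 : ℝ) * (‖ρ g - 1‖ * ‖ρ g - 1‖) := by
  induction n with
  | zero => simp
  | succ n ih =>
    have e : ρ (g ^ (n + 1)) - 1 - ((n + 1 : ℕ) : ℝ) • (ρ g - 1) =
        (ρ (g ^ n) - 1 - (n : ℝ) • (ρ g - 1)) + (ρ (g ^ n) - 1) * (ρ g - 1) := by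
      rw [pow_succ, map_mul]
      push_cast
      rw [add_smul, one_smul]
      noncomm_ring
    rw [e]
    have h1 := pow_sub_one_norm ρ hρ g n
    have h2 : ‖(ρ (g ^ n) - 1) * (ρ g - 1)‖ ≤ n * ‖ρ g - 1‖ * ‖ρ g - 1‖ :=
      (norm_mul_le _ _).trans (mul_le_mul_of_nonneg_right h1 (norm_nonneg _))
    have h3 := norm_add_le (ρ (g ^ n) - 1 - (n : ℝ) • (ρ g - 1)) ((ρ (g ^ n) - 1) * (ρ g - 1))
    have h4 : 0 ≤ ‖ρ g - 1‖ * ‖ρ g - 1‖ := mul_nonneg (norm_nonneg _) (norm_nonneg _)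
    push_cast
    nlinarith

lemma pow_sub_one_ge (hρ : ∀ g, ‖ρ g‖ ≤ 1) (g : Γ) {n : ℕ} (hn : 1 ≤ n)
    (hs : (n : ℝ) * ‖ρ g - 1‖ ≤ 1) : ‖ρ g - 1‖ / 2 ≤ ‖ρ (g ^ n) - 1‖ := by
  have h1 := pow_sub_one_lower ρ hρ g n
  have h2 : ‖(n : ℝ) • (ρ g - 1)‖ = n * ‖ρ g - 1‖ := by
    rw [norm_smul]; simp
  have h3 : ‖(n : ℝ) • (ρ g - 1)‖ ≤ ‖ρ (g ^ n) - 1‖ +
      ‖ρ (g ^ n) - 1 - (n : ℝ) • (ρ g - 1)‖ := by
    have e : (n : ℝ) • (ρ g - 1) = (ρ (g ^ n) - 1) - (ρ (g ^ n) - 1 - (n : ℝ) • (ρ g - 1)) := by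
      abel
    conv_lhs => rw [e]
    exact norm_sub_le _ _
  rw [h2] at h3
  have hn' : (1 : ℝ) ≤ n := by exact_mod_cast hn
  set d := ‖ρ g - 1‖ with hd
  have hd0 : 0 ≤ d := norm_nonneg _
  have h4 : (n * n / 2 : ℝ) * (d * d) ≤ n * d / 2 := by
    have : (n * n / 2 : ℝ) * (d * d) = (n * d) * (n * d) / 2 := by ring
    rw [this]
    have h5 : 0 ≤ (n : ℝ) * d := by positivity
    nlinarith
  nlinarith

/-- an element all of whose `2^k`-th powers are close to `1` is `1` -/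
lemma eq_one_of_pow (c : A) (h : ∀ k : ℕ, ‖c ^ (2 ^ k) - 1‖ ≤ 1 / 2) : c = 1 := by
  have hstep : ∀ k : ℕ, (3 / 2 : ℝ) * ‖c ^ (2 ^ k) - 1‖ ≤ ‖c ^ (2 ^ (k + 1)) - 1‖ := by
    intro k
    have e : c ^ (2 ^ (k + 1)) - 1 =
        (2 : ℝ) • (c ^ (2 ^ k) - 1) - (-((c ^ (2 ^ k) - 1) * (c ^ (2 ^ k) - 1))) := by
      rw [pow_succ 2 k, pow_mul, two_smul, pow_two]
      noncomm_ring
    rw [e]
    have h1 := norm_sub_norm_le ((2 : ℝ) • (c ^ (2 ^ k) - 1))
      (-((c ^ (2 ^ k) - 1) * (c ^ (2 ^ k) - 1)))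
    rw [norm_neg, norm_smul] at h1
    have h2 := norm_mul_le (c ^ (2 ^ k) - 1) (c ^ (2 ^ k) - 1)
    have h3 := h k
    have h4 := norm_nonneg (c ^ (2 ^ k) - 1)
    have h5 : ‖(2 : ℝ)‖ = 2 := by norm_num
    rw [h5] at h1
    nlinarith
  have hpow : ∀ k : ℕ, (3 / 2 : ℝ) ^ k * ‖c - 1‖ ≤ ‖c ^ (2 ^ k) - 1‖ := by
    intro k
    induction k with
    | zero => simp
    | succ k ih =>
      have := hstep k
      rw [pow_succ]
      nlinarith
  by_contra hne
  have hpos : 0 < ‖c - 1‖ := norm_pos_iff.mpr (sub_ne_zero.mpr hne)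
  obtain ⟨k, hk⟩ := pow_unbounded_of_one_lt (1 / ‖c - 1‖) (by norm_num : (1 : ℝ) < 3 / 2)
  have h1 := hpow k
  have h2 := h k
  rw [div_lt_iff₀ hpos] at hk
  linarith

/-- a commutator which commutes with its entries and whose second entry is small is trivial -/
lemma cm_trivial (hρ : ∀ g, ‖ρ g‖ ≤ 1) (a b : Γ) (hb : 4 * ‖ρ b - 1‖ ≤ 1 / 2)
    (hca : ρ (cm a b) * ρ a = ρ a * ρ (cm a b)) : ρ (cm a b) = 1 := by
  set c := ρ (cm a b) with hc
  -- `a^j b a^{-j} = c^j b`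
  have key : ∀ j : ℕ, ρ (a ^ j) * ρ b * ρ (a⁻¹ ^ j) = c ^ j * ρ b := by
    intro j
    induction j with
    | zero => simp
    | succ j ih =>
      have h1 : ρ a * ρ b * ρ a⁻¹ = c * ρ b := by
        rw [hc, ← map_mul, ← map_mul, ← map_mul]
        congr 1
        unfold cm
        group
      have hcomm : ∀ i : ℕ, ρ a * c ^ i = c ^ i * ρ a := by
        intro i
        induction i with
        | zero => simp
        | succ i ih2 => rw [pow_succ, ← mul_assoc, ih2, mul_assoc, ← hca, ← mul_assoc]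
      rw [pow_succ' a j, pow_succ a⁻¹ j, map_mul, map_mul]
      calc ρ a * ρ (a ^ j) * ρ b * (ρ (a⁻¹ ^ j) * ρ a⁻¹)
          = ρ a * (ρ (a ^ j) * ρ b * ρ (a⁻¹ ^ j)) * ρ a⁻¹ := by noncomm_ring
        _ = ρ a * (c ^ j * ρ b) * ρ a⁻¹ := by rw [ih]
        _ = (ρ a * c ^ j) * ρ b * ρ a⁻¹ := by noncomm_ring
        _ = c ^ j * (ρ a * ρ b * ρ a⁻¹) := by rw [hcomm]; noncomm_ring
        _ = c ^ (j + 1) * ρ b := by rw [h1, pow_succ]; noncomm_ring
  have hj : ∀ j : ℕ, c ^ j = ρ (cm (a ^ j) b) := by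
    intro j
    have h1 : c ^ j = c ^ j * ρ b * ρ b⁻¹ := by
      rw [mul_assoc, rho_mul_inv, mul_one]
    rw [h1, ← key j, ← map_mul, ← map_mul, ← map_mul]
    unfold cm
    rw [inv_pow]
  apply eq_one_of_pow
  intro k
  rw [hj]
  have h1 := cm_norm ρ hρ (a ^ (2 ^ k)) b
  have h2 : ‖ρ (a ^ (2 ^ k)) - 1‖ ≤ 2 := by
    calc _ ≤ ‖ρ (a ^ (2 ^ k))‖ + ‖(1 : A)‖ := norm_sub_le _ _
      _ ≤ 1 + 1 := by
        have h3 : ‖(1 : A)‖ ≤ 1 := by
          have := hρ 1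
          rwa [map_one] at this
        exact add_le_add (hρ _) h3
      _ = 2 := by norm_num
  have h3 := norm_nonneg (ρ b - 1)
  have h4 := norm_nonneg (ρ (a ^ (2 ^ k)) - 1)
  nlinarith

/-- products of powers of consecutive terms -/
def Pr (g : ℕ → Γ) : ℕ → List ℕ → Γ
  | _, [] => 1
  | p, i :: l => g p ^ i * Pr g (p + 1) l

lemma Pr_norm (hρ : ∀ g, ‖ρ g‖ ≤ 1) (g : ℕ → Γ) {ε : ℝ} (hε4 : 4 * ε ≤ 1)
    (hd : ∀ n, ‖ρ (g (n + 1)) - 1‖ ≤ 2 * ε * ‖ρ (g n) - 1‖) (M : ℕ) :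
    ∀ (l : List ℕ) (p : ℕ), (∀ i ∈ l, i ≤ M) →
      ‖ρ (Pr g p l) - 1‖ ≤ 2 * M * ‖ρ (g p) - 1‖ := by
  intro l
  induction l with
  | nil =>
    intro p _
    unfold Pr
    rw [map_one, sub_self, norm_zero]
    positivity
  | cons i l ih =>
    intro p hl
    unfold Pr
    have h1 := mul_sub_one_norm ρ hρ (g p ^ i) (Pr g (p + 1) l)
    have h2 := pow_sub_one_norm ρ hρ (g p) i
    have h3 := ih (p + 1) (fun j hj => hl j (List.mem_cons_of_mem _ hj))
    have h4 := hd p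
    have h5 : (i : ℝ) ≤ M := by exact_mod_cast hl i List.mem_cons_self
    have h6 := norm_nonneg (ρ (g p) - 1)
    have hM : (0 : ℝ) ≤ M := by positivity
    have h7 : 2 * (M : ℝ) * ‖ρ (g (p + 1)) - 1‖ ≤ 2 * M * (2 * ε * ‖ρ (g p) - 1‖) := by
      gcongr
    have h8 : 2 * (M : ℝ) * (2 * ε * ‖ρ (g p) - 1‖) = M * ‖ρ (g p) - 1‖ * (4 * ε) := by ring
    have h9 : M * ‖ρ (g p) - 1‖ * (4 * ε) ≤ M * ‖ρ (g p) - 1‖ * 1 := by
      apply mul_le_mul_of_nonneg_left hε4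
      positivity
    nlinarith

lemma Pr_inj (hρ : ∀ g, ‖ρ g‖ ≤ 1) (g : ℕ → Γ) {ε : ℝ} (hε0 : 0 ≤ ε) {M : ℕ}
    (hεM : 17 * (M : ℝ) * ε ≤ 1) (hM : 1 ≤ M)
    (hd : ∀ n, ‖ρ (g (n + 1)) - 1‖ ≤ 2 * ε * ‖ρ (g n) - 1‖) (hd0 : ∀ n, 0 < ‖ρ (g n) - 1‖)
    (hds : ∀ n, (M : ℝ) * ‖ρ (g n) - 1‖ ≤ 1) :
    ∀ (l l' : List ℕ) (p : ℕ), l.length = l'.length → (∀ i ∈ l, i ≤ M) → (∀ i ∈ l', i ≤ M) →
      ρ (Pr g p l) = ρ (Pr g p l') → l = l' := by
  have hM' : (1 : ℝ) ≤ M := by exact_mod_cast hM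
  have hε4 : 4 * ε ≤ 1 := by nlinarith
  intro l
  induction l with
  | nil =>
    intro l' p hlen _ _ _
    simp only [List.length_nil] at hlen
    exact (List.eq_nil_of_length_eq_zero hlen.symm).symm
  | cons i l ih =>
    intro l' p hlen hl hl' heq
    cases l' with
    | nil => simp at hlen
    | cons i' l' =>
      simp only [List.length_cons, Nat.add_right_cancel_iff] at hlen
      have hl2 : ∀ j ∈ l, j ≤ M := fun j hj => hl j (List.mem_cons_of_mem _ hj)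
      have hl2' : ∀ j ∈ l', j ≤ M := fun j hj => hl' j (List.mem_cons_of_mem _ hj)
      -- the main contradiction
      have main : ∀ (u v : ℕ) (m m' : List ℕ), v < u → u ≤ M → (∀ j ∈ m, j ≤ M) →
          (∀ j ∈ m', j ≤ M) →
          ρ (g p ^ u * Pr g (p + 1) m) = ρ (g p ^ v * Pr g (p + 1) m') → False := by
        intro u v m m' huv huM hm hm' he
        obtain ⟨a, rfl⟩ : ∃ a, u = v + a := ⟨u - v, by omega⟩
        have ha : 1 ≤ a := by omega
        -- cancel `g p ^ v`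
        have h1 : ρ (g p ^ a * Pr g (p + 1) m) = ρ (Pr g (p + 1) m') := by
          have h2 := congrArg (fun x => ρ (g p ^ v)⁻¹ * x) he
          rw [← map_mul, ← map_mul, pow_add] at h2
          have e1 : (g p ^ v)⁻¹ * (g p ^ v * g p ^ a * Pr g (p + 1) m) =
              g p ^ a * Pr g (p + 1) m := by group
          have e2 : (g p ^ v)⁻¹ * (g p ^ v * Pr g (p + 1) m') = Pr g (p + 1) m' := by group
          rw [e1, e2] at h2
          exact h2
        have h3 : ρ (g p ^ a) - 1 =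
            (ρ (Pr g (p + 1) m') - ρ (Pr g (p + 1) m)) * ρ (Pr g (p + 1) m)⁻¹ := by
          rw [sub_mul, rho_mul_inv, ← h1, ← map_mul]
          congr 2
          group
        have h4 : ‖ρ (g p ^ a) - 1‖ ≤ ‖ρ (Pr g (p + 1) m') - 1‖ + ‖ρ (Pr g (p + 1) m) - 1‖ := by
          rw [h3]
          calc _ ≤ ‖ρ (Pr g (p + 1) m') - ρ (Pr g (p + 1) m)‖ * ‖ρ (Pr g (p + 1) m)⁻¹‖ :=
                norm_mul_le _ _
            _ ≤ ‖ρ (Pr g (p + 1) m') - ρ (Pr g (p + 1) m)‖ * 1 :=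
                mul_le_mul_of_nonneg_left (hρ _) (norm_nonneg _)
            _ = ‖(ρ (Pr g (p + 1) m') - 1) - (ρ (Pr g (p + 1) m) - 1)‖ := by
                rw [mul_one]; congr 1; abel
            _ ≤ _ := norm_sub_le _ _
        have h5 := Pr_norm ρ hρ g hε4 hd M m (p + 1) hm
        have h6 := Pr_norm ρ hρ g hε4 hd M m' (p + 1) hm'
        have h7 := hd p
        have h8 : (a : ℝ) ≤ M := by
          have : a ≤ M := by omega
          exact_mod_cast this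
        have h9 := pow_sub_one_ge ρ hρ (g p) ha (by
          have := hds p
          have h10 := norm_nonneg (ρ (g p) - 1)
          nlinarith)
        have h10 := hd0 p
        have h11 : 2 * (M : ℝ) * ‖ρ (g (p + 1)) - 1‖ ≤ 2 * M * (2 * ε * ‖ρ (g p) - 1‖) := by
          gcongr
        have h12 : 2 * (M : ℝ) * (2 * ε * ‖ρ (g p) - 1‖) = (4 / 17) *
            ((17 * M * ε) * ‖ρ (g p) - 1‖) := by ring
        have h13 : (17 * M * ε) * ‖ρ (g p) - 1‖ ≤ 1 * ‖ρ (g p) - 1‖ :=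
          mul_le_mul_of_nonneg_right hεM (norm_nonneg _)
        nlinarith
      unfold Pr at heq
      rcases lt_trichotomy i i' with h | h | h
      · exact (main i' i l' l h (hl' i' List.mem_cons_self) hl2' hl2 heq.symm).elim
      · subst h
        have h1 : ρ (Pr g (p + 1) l) = ρ (Pr g (p + 1) l') := by
          have h2 := congrArg (fun x => ρ (g p ^ i)⁻¹ * x) heq
          rw [← map_mul, ← map_mul] at h2
          have e1 : ∀ x : Γ, (g p ^ i)⁻¹ * (g p ^ i * x) = x := by intro x; group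
          rw [e1, e1] at h2
          exact h2
        rw [ih l' (p + 1) hlen hl2 hl2' h1]
      · exact (main i i' l l' h (hl i List.mem_cons_self) hl2 hl2' heq).elim

lemma Pr_word {T : Finset Γ} (g : ℕ → Γ) (M : ℕ)
    (hW : ∀ n, ∃ L, L + 2 ≤ 6 * 2 ^ n ∧ Wd T L (g n)) :
    ∀ (l : List ℕ) (p : ℕ), (∀ i ∈ l, i ≤ M) →
      ∃ n, n + 6 * M * 2 ^ p ≤ 6 * M * 2 ^ (p + l.length) ∧ Wd T n (Pr g p l) := by
  intro l
  induction l with
  | nil =>
    intro p _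
    exact ⟨0, by simp, Wd.one⟩
  | cons i l ih =>
    intro p hl
    obtain ⟨n, hn1, hn2⟩ := ih (p + 1) (fun j hj => hl j (List.mem_cons_of_mem _ hj))
    obtain ⟨L, hL1, hL2⟩ := hW p
    have hi := hl i List.mem_cons_self
    refine ⟨i * L + n, ?_, (hL2.pow i).mul hn2⟩
    rw [List.length_cons]
    have e1 : p + (l.length + 1) = p + 1 + l.length := by ring
    rw [e1]
    have h1 : i * L ≤ M * (6 * 2 ^ p) := Nat.mul_le_mul hi (by omega)
    have h2 : 6 * M * 2 ^ (p + 1) = 6 * M * 2 ^ p + M * (6 * 2 ^ p) := by ring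
    omega

end

end Jord

open Jord in
theorem jordan_comm {A : Type} [NormedRing A] [NormedAlgebra ℝ A] {Γ : Type} [Group Γ]
    (ρ : Γ →* A)
    (hρ : ∀ g, ‖ρ g‖ ≤ 1) (D : ℕ) (ε : ℝ) (hε : 0 < ε) (hε' : ε ≤ 1 / (17 * 2 ^ (D + 2)))
    (T : Finset Γ) (hT : ∀ t ∈ T, ‖ρ t - 1‖ ≤ ε) (C : ℝ)
    (hgrow : ∀ N : ℕ, ∃ R ≥ N, ∀ F : Finset A,
      (∀ a ∈ F, ∃ l : List Γ, l.length ≤ R ∧ (∀ g ∈ l, g ∈ T ∨ g⁻¹ ∈ T) ∧ ρ l.prod = a) →
      (F.card : ℝ) ≤ C * (R : ℝ) ^ D) :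
    ∀ s ∈ T, ∀ t ∈ T, ρ (s * t) = ρ (t * s) := by
  classical
  intro s hs t ht
  by_contra hne
  set M : ℕ := 2 ^ (D + 2) with hM
  have hM4 : 4 ≤ M := by
    rw [hM, pow_add]
    have : 1 ≤ 2 ^ D := Nat.one_le_two_pow
    omega
  have hMr : (M : ℝ) = 2 ^ (D + 2) := by rw [hM]; push_cast; ring
  have hεM : 17 * (M : ℝ) * ε ≤ 1 := by
    rw [hMr]
    rw [le_div_iff₀ (by positivity)] at hε'
    linarith
  have hM4r : (4 : ℝ) ≤ M := by exact_mod_cast hM4
  have hε68 : 68 * ε ≤ 1 := by nlinarith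
  -- good elements
  let Good : Γ → Prop := fun g => ∃ a b, b ∈ T ∧ (∃ m, Wd T m a) ∧ g = cm a b ∧ ρ g ≠ 1
  -- every element of the group generated commutes with an element commuting with generators
  have hcommW : ∀ (c : A), (∀ x ∈ T, c * ρ x = ρ x * c) → ∀ (m : ℕ) (a : Γ), Wd T m a →
      c * ρ a = ρ a * c := by
    intro c hc m a ha
    obtain ⟨l, -, hl2, rfl⟩ := ha
    induction l with
    | nil => simp
    | cons x l ih =>
      have ih' := ih (fun y hy => hl2 y (List.mem_cons_of_mem _ hy))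
      have hx : c * ρ x = ρ x * c := by
        rcases hl2 x List.mem_cons_self with h | h
        · exact hc x h
        · have h1 := hc _ h
          calc c * ρ x = (ρ x * ρ x⁻¹) * (c * ρ x) := by rw [rho_mul_inv, one_mul]
            _ = ρ x * (ρ x⁻¹ * c) * ρ x := by noncomm_ring
            _ = ρ x * (c * ρ x⁻¹) * ρ x := by rw [h1]
            _ = ρ x * c * (ρ x⁻¹ * ρ x) := by noncomm_ring
            _ = ρ x * c := by rw [rho_inv_mul, mul_one]
      rw [List.prod_cons, map_mul, ← mul_assoc, hx, mul_assoc, ih', ← mul_assoc]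
  have hstep : ∀ g, Good g → ∃ x ∈ T, ρ (cm g x) ≠ 1 := by
    intro g hg
    by_contra hcon
    push Not at hcon
    obtain ⟨a, b, hb, ⟨m, hm⟩, hgab, hg1⟩ := hg
    apply hg1
    have hcx : ∀ x ∈ T, ρ g * ρ x = ρ x * ρ g := by
      intro x hx
      have h1 := hcon x hx
      have h2 : ρ (cm g x) * (ρ x * ρ g) = ρ g * ρ x := by
        rw [← map_mul, ← map_mul, ← map_mul]
        congr 1
        unfold cm
        group
      rw [h1, one_mul] at h2
      exact h2.symm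
    have h3 := hcommW (ρ g) hcx m a hm
    rw [hgab] at h3 ⊢
    exact cm_trivial ρ hρ a b (by have := hT b hb; nlinarith) h3
  -- the first element
  have hg0 : Good (cm s t) := by
    refine ⟨s, t, ht, ⟨1, Wd.gen hs⟩, rfl, ?_⟩
    intro h1
    apply hne
    have h2 : ρ (cm s t) * ρ (t * s) = ρ (s * t) := by
      rw [← map_mul]
      congr 1
      unfold cm
      group
    rw [h1, one_mul] at h2
    exact h2.symm
  -- the sequence
  have hex : ∀ g : {g // Good g}, ∃ g' : {g // Good g}, ∃ x ∈ T, g'.1 = cm g.1 x := by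
    rintro ⟨g, hg⟩
    obtain ⟨x, hx, hx1⟩ := hstep g hg
    obtain ⟨a, b, hb, ⟨m, hm⟩, hgab, hg1⟩ := hg
    refine ⟨⟨cm g x, g, x, hx, ?_, rfl, hx1⟩, x, hx, rfl⟩
    rw [hgab]
    unfold cm
    exact ⟨_, ((hm.mul (Wd.gen hb)).mul hm.inv).mul (Wd.gen hb).inv⟩
  choose nx hnx using hex
  let gs : ℕ → {g // Good g} := fun n => nx^[n] ⟨cm s t, hg0⟩
  let g : ℕ → Γ := fun n => (gs n).1
  have hgs : ∀ n, ∃ x ∈ T, g (n + 1) = cm (g n) x := by
    intro n
    have : gs (n + 1) = nx (gs n) := Function.iterate_succ_apply' nx n _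
    obtain ⟨x, hx, h⟩ := hnx (gs n)
    refine ⟨x, hx, ?_⟩
    change (gs (n + 1)).1 = _
    rw [this]
    exact h
  have hd : ∀ n, ‖ρ (g (n + 1)) - 1‖ ≤ 2 * ε * ‖ρ (g n) - 1‖ := by
    intro n
    obtain ⟨x, hx, h⟩ := hgs n
    rw [h]
    have h1 := cm_norm ρ hρ (g n) x
    have h2 := hT x hx
    have h3 := norm_nonneg (ρ (g n) - 1)
    nlinarith
  have hd0 : ∀ n, 0 < ‖ρ (g n) - 1‖ := by
    intro n
    obtain ⟨a, b, -, -, -, h⟩ := (gs n).2
    exact norm_pos_iff.mpr (sub_ne_zero.mpr h)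
  have hds0 : ‖ρ (g 0) - 1‖ ≤ ε := by
    have h1 := cm_norm ρ hρ s t
    have h2 := hT s hs
    have h3 := hT t ht
    have h4 := norm_nonneg (ρ s - 1)
    have h5 := norm_nonneg (ρ t - 1)
    change ‖ρ (cm s t) - 1‖ ≤ ε
    nlinarith
  have hds1 : ∀ n, ‖ρ (g n) - 1‖ ≤ ε := by
    intro n
    induction n with
    | zero => exact hds0
    | succ n ih =>
      have h1 := hd n
      have h2 := norm_nonneg (ρ (g n) - 1)
      nlinarith
  have hds : ∀ n, (M : ℝ) * ‖ρ (g n) - 1‖ ≤ 1 := by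
    intro n
    have h1 := hds1 n
    have h2 := norm_nonneg (ρ (g n) - 1)
    nlinarith
  have hW : ∀ n, ∃ L, L + 2 ≤ 6 * 2 ^ n ∧ Wd T L (g n) := by
    intro n
    induction n with
    | zero =>
      refine ⟨4, by norm_num, ?_⟩
      change Wd T 4 (cm s t)
      unfold cm
      exact (((Wd.gen hs).mul (Wd.gen ht)).mul (Wd.gen hs).inv).mul (Wd.gen ht).inv
    | succ n ih =>
      obtain ⟨L, hL1, hL2⟩ := ih
      obtain ⟨x, hx, h⟩ := hgs n
      refine ⟨L + 1 + L + 1, ?_, ?_⟩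
      · rw [pow_succ]; omega
      · rw [h]
        unfold cm
        exact ((hL2.mul (Wd.gen hx)).mul hL2.inv).mul (Wd.gen hx).inv
  -- counting
  obtain ⟨K, hK⟩ := exists_nat_gt (|C| * (12 * (M : ℝ)) ^ D)
  obtain ⟨R, hR, hcount⟩ := hgrow (12 * M * (K + 1))
  have h6M : 0 < 6 * M := by omega
  set q := R / (6 * M) with hq
  have hq0 : q ≠ 0 := by
    rw [hq]
    have : 0 < R / (6 * M) := Nat.div_pos (by nlinarith) h6M
    omega
  set k := Nat.log 2 q with hk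
  have hk1 : 2 ^ k ≤ q := Nat.pow_log_le_self 2 hq0
  have hk2 : q < 2 ^ (k + 1) := Nat.lt_pow_succ_log_self (by norm_num) q
  have hR1 : 6 * M * 2 ^ k ≤ R := by
    have h1 : 6 * M * q ≤ R := Nat.mul_div_le R (6 * M)
    exact (Nat.mul_le_mul_left _ hk1).trans h1
  have hR2 : R < 12 * M * 2 ^ k := by
    have h1 : R < 6 * M * (q + 1) := Nat.lt_mul_div_succ R h6M
    have h2 : 6 * M * (q + 1) ≤ 6 * M * 2 ^ (k + 1) := Nat.mul_le_mul_left _ hk2
    have h3 : 6 * M * 2 ^ (k + 1) = 12 * M * 2 ^ k := by rw [pow_succ]; ring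
    omega
  -- the family of products
  let φ : (Fin k → Fin (M + 1)) → A := fun i => ρ (Pr g 0 (List.ofFn (fun j => (i j : ℕ))))
  have hle : ∀ i : Fin k → Fin (M + 1), ∀ x ∈ List.ofFn (fun j => (i j : ℕ)), x ≤ M := by
    intro i x hx
    rw [List.mem_ofFn] at hx
    obtain ⟨j, rfl⟩ := hx
    have := (i j).2
    omega
  have hinj : Function.Injective φ := by
    intro i i' h
    have h1 := Pr_inj ρ hρ g hε.le hεM (by omega) hd hd0 hds (List.ofFn (fun j => (i j : ℕ)))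
      (List.ofFn (fun j => (i' j : ℕ))) 0 (by simp) (hle i) (hle i') h
    have h2 := List.ofFn_injective h1
    funext j
    exact Fin.ext (congrFun h2 j)
  have hcard : (Finset.univ.image φ).card = (M + 1) ^ k := by
    rw [Finset.card_image_of_injective _ hinj, Finset.card_univ, Fintype.card_fun,
      Fintype.card_fin, Fintype.card_fin]
  have hc := hcount (Finset.univ.image φ) (by
    intro a ha
    rw [Finset.mem_image] at ha
    obtain ⟨i, -, rfl⟩ := ha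
    obtain ⟨n, hn1, l, hl1, hl2, hl3⟩ := Pr_word g M hW (List.ofFn (fun j => (i j : ℕ))) 0 (hle i)
    refine ⟨l, ?_, hl2, by rw [hl3]⟩
    rw [List.length_ofFn, zero_add] at hn1
    omega)
  rw [hcard] at hc
  have hRr : (R : ℝ) ≤ 12 * M * 2 ^ k := by
    have : R ≤ 12 * M * 2 ^ k := hR2.le
    exact_mod_cast this
  have h1 : ((M : ℝ) ^ k) ≤ |C| * (12 * M * 2 ^ k) ^ D := by
    calc ((M : ℝ) ^ k) ≤ ((M : ℝ) + 1) ^ k := by gcongr; linarith
      _ = (((M + 1) ^ k : ℕ) : ℝ) := by push_cast; ring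
      _ ≤ C * (R : ℝ) ^ D := hc
      _ ≤ |C| * (R : ℝ) ^ D := by gcongr; exact le_abs_self C
      _ ≤ |C| * (12 * M * 2 ^ k) ^ D := by gcongr
  have h2 : ((M : ℝ) ^ k) = (2 ^ k) ^ D * ((2 ^ k) * (2 ^ k)) := by
    rw [hMr, ← pow_mul, ← pow_mul, ← pow_add, ← pow_add]
    congr 1
    ring
  have h3 : |C| * (12 * (M : ℝ) * 2 ^ k) ^ D = (2 ^ k) ^ D * (|C| * (12 * (M : ℝ)) ^ D) := by
    rw [mul_pow]; ring
  rw [h2, h3] at h1
  have h4 : (2 : ℝ) ^ k * 2 ^ k ≤ |C| * (12 * (M : ℝ)) ^ D :=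
    le_of_mul_le_mul_left h1 (by positivity)
  have h5 : K + 1 < 2 ^ k := by
    have : 12 * M * (K + 1) < 12 * M * 2 ^ k := lt_of_le_of_lt hR hR2
    exact Nat.lt_of_mul_lt_mul_left this
  have h6 : (K : ℝ) + 1 < 2 ^ k := by exact_mod_cast h5
  have h7 : (1 : ℝ) ≤ 2 ^ k := one_le_pow₀ (by norm_num)
  nlinarith

end Pool.H61.ST

end S_H61_ST_Jord

section S_H61_ST_AbelAbs

set_option autoImplicit false

/-! A group of isometries of a finite dimensional space, whose image has polynomial growth, is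
virtually abelian: abstract form. -/

namespace Pool.H61.ST.AbelAbs

section fg

variable {Γ : Type} [Group Γ]

lemma exists_fin_closure (X : Set Γ) (h : Γ) (hh : h ∈ Subgroup.closure X) :
    ∃ T : Finset Γ, (T : Set Γ) ⊆ X ∧ h ∈ Subgroup.closure (T : Set Γ) := by
  classical
  induction hh using Subgroup.closure_induction with
  | mem x hx => exact ⟨{x}, by simpa using hx, Subgroup.subset_closure (by simp)⟩
  | one => exact ⟨∅, by simp, Subgroup.one_mem _⟩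
  | mul x y _ _ ihx ihy =>
    obtain ⟨T, h1, h2⟩ := ihx
    obtain ⟨T', h1', h2'⟩ := ihy
    refine ⟨T ∪ T', by rw [Finset.coe_union]; exact Set.union_subset h1 h1', ?_⟩
    rw [Finset.coe_union]
    exact Subgroup.mul_mem _ (Subgroup.closure_mono Set.subset_union_left h2)
      (Subgroup.closure_mono Set.subset_union_right h2')
  | inv x _ ih =>
    obtain ⟨T, h1, h2⟩ := ih
    exact ⟨T, h1, Subgroup.inv_mem _ h2⟩

/-- a generating set of a finitely generated subgroup contains a finite one -/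
lemma exists_fin_gen (X : Set Γ) (hX : (Subgroup.closure X).FG) :
    ∃ T : Finset Γ, (T : Set Γ) ⊆ X ∧ Subgroup.closure (T : Set Γ) = Subgroup.closure X := by
  classical
  obtain ⟨S, hS⟩ := hX
  have h1 : ∀ s ∈ S, ∃ T : Finset Γ, (T : Set Γ) ⊆ X ∧ s ∈ Subgroup.closure (T : Set Γ) := by
    intro s hs
    refine exists_fin_closure X s ?_
    rw [← hS]
    exact Subgroup.subset_closure hs
  choose! T hT1 hT2 using h1
  refine ⟨S.biUnion T, ?_, ?_⟩
  · intro x hx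
    rw [Finset.mem_coe, Finset.mem_biUnion] at hx
    obtain ⟨s, hs, hx⟩ := hx
    exact hT1 s hs hx
  · refine le_antisymm (Subgroup.closure_mono ?_) ?_
    · intro x hx
      rw [Finset.mem_coe, Finset.mem_biUnion] at hx
      obtain ⟨s, hs, hx⟩ := hx
      exact hT1 s hs hx
    · rw [← hS, Subgroup.closure_le]
      intro s hs
      refine Subgroup.closure_mono ?_ (hT2 s hs)
      intro x hx
      rw [Finset.mem_coe, Finset.mem_biUnion]
      exact ⟨s, hs, hx⟩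

end fg

variable {A : Type} [NormedRing A] {Γ : Type} [Group Γ] (ρ : Γ →* A)

/-- compactness: the subgroup generated by the elements close to the identity has finitely many
cosets -/
lemma exists_cover (hA : TotallyBounded (Set.range ρ)) (hρ : ∀ g, ‖ρ g‖ ≤ 1) (ε : ℝ)
    (hε : 0 < ε) : ∃ F : Finset Γ, ∀ g, ∃ f ∈ F, ‖ρ (f⁻¹ * g) - 1‖ ≤ ε := by
  classical
  obtain ⟨t, hts, htf, hcov⟩ := Metric.finite_approx_of_totallyBounded hA ε hε
  have h1 : ∀ a ∈ t, ∃ g, ρ g = a := fun a ha => hts ha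
  choose! s hs using h1
  refine ⟨htf.toFinset.image s, fun g => ?_⟩
  have h2 := hcov (Set.mem_range_self g)
  rw [Set.mem_iUnion₂] at h2
  obtain ⟨a, ha, h3⟩ := h2
  refine ⟨s a, Finset.mem_image_of_mem s (htf.mem_toFinset.2 ha), ?_⟩
  rw [Metric.mem_ball, dist_eq_norm, ← hs a ha] at h3
  have h4 : ρ ((s a)⁻¹ * g) - 1 = ρ (s a)⁻¹ * (ρ g - ρ (s a)) := by
    rw [mul_sub, ← map_mul, ← map_mul, inv_mul_cancel, map_one]
  rw [h4]
  calc ‖ρ (s a)⁻¹ * (ρ g - ρ (s a))‖ ≤ ‖ρ (s a)⁻¹‖ * ‖ρ g - ρ (s a)‖ := norm_mul_le _ _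
    _ ≤ 1 * ε := mul_le_mul (hρ _) h3.le (norm_nonneg _) zero_le_one
    _ = ε := one_mul _

lemma fin_index_of_cover (H : Subgroup Γ) (F : Finset Γ) (h : ∀ g, ∃ f ∈ F, f⁻¹ * g ∈ H) :
    H.FiniteIndex := by
  have : Finite (Γ ⧸ H) := by
    refine Finite.of_surjective (fun f : F => (QuotientGroup.mk f.1 : Γ ⧸ H)) ?_
    intro q
    induction q using QuotientGroup.induction_on with
    | H g =>
      obtain ⟨f, hf, hg⟩ := h g
      exact ⟨⟨f, hf⟩, QuotientGroup.eq.2 hg⟩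
  exact Subgroup.finiteIndex_of_finite_quotient

/-- the elements which commute with `x` in the image -/
def cent (x : Γ) : Subgroup Γ where
  carrier := {g | ρ (g * x) = ρ (x * g)}
  one_mem' := by simp
  mul_mem' := by
    intro a b ha hb
    simp only [Set.mem_ofPred_eq, map_mul] at *
    rw [mul_assoc, hb, ← mul_assoc, ha, mul_assoc]
  inv_mem' := by
    intro a ha
    simp only [Set.mem_ofPred_eq, map_mul] at *
    have h1 : ρ a⁻¹ * ρ a = 1 := by rw [← map_mul, inv_mul_cancel, map_one]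
    have h2 : ρ a * ρ a⁻¹ = 1 := by rw [← map_mul, mul_inv_cancel, map_one]
    calc ρ a⁻¹ * ρ x = ρ a⁻¹ * (ρ x * ρ a) * ρ a⁻¹ := by
          rw [mul_assoc, mul_assoc (ρ x), h2, mul_one]
      _ = ρ a⁻¹ * (ρ a * ρ x) * ρ a⁻¹ := by rw [ha]
      _ = ρ x * ρ a⁻¹ := by rw [← mul_assoc, h1, one_mul]

lemma comm_closure (T : Set Γ) (h : ∀ s ∈ T, ∀ t ∈ T, ρ (s * t) = ρ (t * s)) :
    ∀ g ∈ Subgroup.closure T, ∀ k ∈ Subgroup.closure T, ρ (g * k) = ρ (k * g) := by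
  have h1 : ∀ t ∈ T, ∀ g ∈ Subgroup.closure T, ρ (g * t) = ρ (t * g) := by
    intro t ht g hg
    have : Subgroup.closure T ≤ cent ρ t := by
      rw [Subgroup.closure_le]
      intro s hs
      exact h s hs t ht
    exact this hg
  intro g hg k hk
  have : Subgroup.closure T ≤ cent ρ k := by
    rw [Subgroup.closure_le]
    intro s hs
    exact (h1 s hs k hk).symm
  exact this hg

/-- saturation of a subgroup by the kernel -/
def sat (H : Subgroup Γ) : Subgroup Γ where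
  carrier := {g | ∃ h ∈ H, ρ g = ρ h}
  one_mem' := ⟨1, H.one_mem, rfl⟩
  mul_mem' := by
    rintro a b ⟨x, hx, hax⟩ ⟨y, hy, hby⟩
    exact ⟨x * y, H.mul_mem hx hy, by rw [map_mul, map_mul, hax, hby]⟩
  inv_mem' := by
    rintro a ⟨x, hx, hax⟩
    refine ⟨x⁻¹, H.inv_mem hx, ?_⟩
    have h1 : ρ a⁻¹ * ρ a = 1 := by rw [← map_mul, inv_mul_cancel, map_one]
    have h2 : ρ x * ρ x⁻¹ = 1 := by rw [← map_mul, mul_inv_cancel, map_one]
    calc ρ a⁻¹ = ρ a⁻¹ * (ρ x * ρ x⁻¹) := by rw [h2, mul_one]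
      _ = ρ a⁻¹ * ρ a * ρ x⁻¹ := by rw [hax, mul_assoc]
      _ = ρ x⁻¹ := by rw [h1, one_mul]

lemma mem_sat (H : Subgroup Γ) (g : Γ) : g ∈ sat ρ H ↔ ∃ h ∈ H, ρ g = ρ h := Iff.rfl

theorem abs_abel [NormedAlgebra ℝ A] (hA : TotallyBounded (Set.range ρ)) (hρ : ∀ g, ‖ρ g‖ ≤ 1) (D : ℕ) (ℓ : Γ → ℕ)
    (hone : ℓ 1 = 0) (hmul : ∀ g h, ℓ (g * h) ≤ ℓ g + ℓ h) (hinv : ∀ g, ℓ g⁻¹ = ℓ g)
    (hgen : ∀ g, g ∈ Subgroup.closure {s | ℓ s ≤ 1}) (C1 : ℝ) (hC1 : 0 ≤ C1) (Vf : ℕ → ℝ)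
    (hmono : Monotone Vf)
    (hfin : ∀ (r : ℕ) (F : Finset A), (∀ a ∈ F, ∃ g, ℓ g ≤ r ∧ ρ g = a) →
      (F.card : ℝ) ≤ C1 * Vf r)
    (hpg : ∀ N : ℕ, ∃ r ≥ N, Vf r ≤ (r : ℝ) ^ D) :
    ∃ Γ₀ : Subgroup Γ, Γ₀.FiniteIndex ∧ ∀ g ∈ Γ₀, ∀ h ∈ Γ₀, ρ (g * h) = ρ (h * g) := by
  classical
  set ε : ℝ := 1 / (17 * 2 ^ (D + 2)) with hε
  have hε0 : 0 < ε := by positivity
  -- the image of the generating set is finite
  have hS1 : (ρ '' {s | ℓ s ≤ 1}).Finite := by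
    by_contra hinf
    obtain ⟨n, hn⟩ := exists_nat_gt (C1 * Vf 1)
    obtain ⟨F, hF1, hF2⟩ := Set.Infinite.exists_subset_card_eq hinf n
    have h1 := hfin 1 F (fun a ha => by
      obtain ⟨g, hg, hga⟩ := hF1 ha
      exact ⟨g, hg, hga⟩)
    rw [hF2] at h1
    linarith
  have hS2 : ∀ a ∈ hS1.toFinset, ∃ g, ρ g = a := by
    intro a ha
    rw [Set.Finite.mem_toFinset] at ha
    obtain ⟨g, _, hga⟩ := ha
    exact ⟨g, hga⟩
  choose! s hs using hS2
  set S : Finset Γ := hS1.toFinset.image s with hS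
  set Δ : Subgroup Γ := Subgroup.closure (S : Set Γ) with hΔ
  have hsat : ∀ g, g ∈ sat ρ Δ := by
    intro g
    have : Subgroup.closure {s | ℓ s ≤ 1} ≤ sat ρ Δ := by
      rw [Subgroup.closure_le]
      intro x hx
      have hx' : ρ x ∈ hS1.toFinset := by
        rw [Set.Finite.mem_toFinset]
        exact ⟨x, hx, rfl⟩
      refine ⟨s (ρ x), Subgroup.subset_closure ?_, (hs _ hx').symm⟩
      rw [hS, Finset.mem_coe]
      exact Finset.mem_image_of_mem s hx'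
    exact this (hgen g)
  -- the finitely generated group
  have hfg : Group.FG Δ := by rw [hΔ]; infer_instance
  set σ : Δ →* A := ρ.comp Δ.subtype with hσ
  have hAσ : TotallyBounded (Set.range σ) := hA.subset (by
    rintro a ⟨g, rfl⟩
    exact ⟨g.1, rfl⟩)
  obtain ⟨F, hF⟩ := exists_cover σ hAσ (fun g => hρ g.1) ε hε0
  set X : Set Δ := {g | ‖σ g - 1‖ ≤ ε} with hX
  have hXfi : (Subgroup.closure X).FiniteIndex :=
    fin_index_of_cover _ F fun g => by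
      obtain ⟨f, hf, h⟩ := hF g
      exact ⟨f, hf, Subgroup.subset_closure h⟩
  have hXfg : (Subgroup.closure X).FG := by
    rw [← Group.fg_iff_subgroup_fg]
    infer_instance
  obtain ⟨T, hTX, hTc⟩ := exists_fin_gen X hXfg
  -- growth
  set k0 : ℕ := T.sup (fun t => ℓ t.1) + 1 with hk0
  have hTl : ∀ t : Δ, (t ∈ T ∨ t⁻¹ ∈ T) → ℓ t.1 ≤ k0 := by
    intro t ht
    rcases ht with ht | ht
    · have : ℓ t.1 ≤ T.sup (fun t => ℓ t.1) := Finset.le_sup (f := fun t : Δ => ℓ t.1) ht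
      omega
    · have : ℓ (t⁻¹).1 ≤ T.sup (fun t => ℓ t.1) := Finset.le_sup (f := fun t : Δ => ℓ t.1) ht
      have h2 : ℓ (t⁻¹ : Δ).1 = ℓ t.1 := by
        rw [Subgroup.coe_inv]; exact hinv _
      omega
  have hword : ∀ l : List Δ, (∀ g ∈ l, g ∈ T ∨ g⁻¹ ∈ T) → ℓ (l.prod : Δ).1 ≤ k0 * l.length := by
    intro l
    induction l with
    | nil => intro _; simp [hone]
    | cons a l ih =>
      intro h
      rw [List.prod_cons, Subgroup.coe_mul, List.length_cons]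
      have h1 := hmul a.1 (l.prod : Δ).1
      have h2 := hTl a (h a (by simp))
      have h3 := ih (fun g hg => h g (List.mem_cons_of_mem _ hg))
      calc ℓ (a.1 * (l.prod : Δ).1) ≤ ℓ a.1 + ℓ (l.prod : Δ).1 := h1
        _ ≤ k0 + k0 * l.length := by omega
        _ = k0 * (l.length + 1) := by ring
  have hgrow : ∀ N : ℕ, ∃ R ≥ N, ∀ F : Finset A,
      (∀ a ∈ F, ∃ l : List Δ, l.length ≤ R ∧ (∀ g ∈ l, g ∈ T ∨ g⁻¹ ∈ T) ∧ σ l.prod = a) →
      (F.card : ℝ) ≤ (C1 * (2 * k0) ^ D) * (R : ℝ) ^ D := by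
    intro N
    obtain ⟨r, hr, hV⟩ := hpg (k0 * (N + 1))
    have hk0p : 0 < k0 := by omega
    have hR1 : N + 1 ≤ r / k0 := (Nat.le_div_iff_mul_le hk0p).2 (by rw [mul_comm]; exact hr)
    refine ⟨r / k0, by omega, fun F hF => ?_⟩
    have h1 : k0 * (r / k0) ≤ r := Nat.mul_div_le r k0
    have h2 : r < k0 * (r / k0 + 1) := by
      have := Nat.lt_mul_div_succ r hk0p
      simpa using this
    have h3 := hfin (k0 * (r / k0)) F (fun a ha => by
      obtain ⟨l, hl1, hl2, hl3⟩ := hF a ha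
      refine ⟨(l.prod : Δ).1, (hword l hl2).trans (Nat.mul_le_mul_left _ hl1), hl3⟩)
    have h4 : Vf (k0 * (r / k0)) ≤ (r : ℝ) ^ D := (hmono h1).trans hV
    have h5 : (r : ℝ) ≤ 2 * k0 * ((r / k0 : ℕ) : ℝ) := by
      have h6 : (r : ℝ) ≤ k0 * (((r / k0 : ℕ) : ℝ) + 1) := by exact_mod_cast h2.le
      have h7 : (1 : ℝ) ≤ ((r / k0 : ℕ) : ℝ) := by
        exact_mod_cast (by omega : 1 ≤ r / k0)
      have h8 : (0 : ℝ) < k0 := by exact_mod_cast hk0p
      nlinarith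
    calc (F.card : ℝ) ≤ C1 * Vf (k0 * (r / k0)) := h3
      _ ≤ C1 * (r : ℝ) ^ D := mul_le_mul_of_nonneg_left h4 hC1
      _ ≤ C1 * (2 * k0 * ((r / k0 : ℕ) : ℝ)) ^ D := by
        refine mul_le_mul_of_nonneg_left ?_ hC1
        exact pow_le_pow_left₀ (Nat.cast_nonneg r) h5 D
      _ = _ := by rw [mul_pow]; ring
  have hcomm := jordan_comm σ (fun g => hρ g.1) D ε hε0 le_rfl T
    (fun t ht => hTX ht) (C1 * (2 * k0) ^ D) hgrow
  have hcl := comm_closure σ (T : Set Δ) hcomm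
  set H : Subgroup Γ := (Subgroup.closure (T : Set Δ)).map Δ.subtype with hH
  refine ⟨sat ρ H, ?_, ?_⟩
  · refine fin_index_of_cover _ (F.image (fun f => f.1)) fun g => ?_
    obtain ⟨g', hg', hgg⟩ := hsat g
    obtain ⟨f, hf, h⟩ := hF ⟨g', hg'⟩
    refine ⟨f.1, Finset.mem_image_of_mem _ hf, ?_⟩
    refine ⟨(f⁻¹ * ⟨g', hg'⟩ : Δ).1, ?_, ?_⟩
    · rw [hH, Subgroup.mem_map]
      refine ⟨f⁻¹ * ⟨g', hg'⟩, ?_, rfl⟩
      rw [hTc]
      exact Subgroup.subset_closure h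
    · rw [map_mul, hgg, ← map_mul]
      rfl
  · rintro g ⟨a, ha, hga⟩ k ⟨b, hb, hkb⟩
    rw [hH, Subgroup.mem_map] at ha hb
    obtain ⟨a', ha', rfl⟩ := ha
    obtain ⟨b', hb', rfl⟩ := hb
    have h5 : σ (a' * b') = σ (b' * a') := hcl a' ha' b' hb'
    rw [map_mul, map_mul] at h5
    rw [map_mul, map_mul, hga, hkb]
    exact h5

end Pool.H61.ST.AbelAbs

end S_H61_ST_AbelAbs

section S_H61_ST_Abel

set_option autoImplicit false

/-! The action on Lipschitz harmonic functions is virtually abelian. -/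

namespace Pool.H61.ST

open Finset Pool.Agent.H61.SW Pool.H98.C

namespace Abel

variable {V : Type} {G : SimpleGraph V} (hG : TG G)

/-- Lipschitz constant -/
noncomputable def lc (G : SimpleGraph V) (u : V → ℝ) : ℝ := sInf {C : ℝ | 0 ≤ C ∧ Lip G C u}

lemma lc_nonneg (u : V → ℝ) : 0 ≤ lc G u := Real.sInf_nonneg fun _ h => h.1

lemma lc_le {u : V → ℝ} {C : ℝ} (hC : 0 ≤ C) (h : Lip G C u) : lc G u ≤ C :=
  csInf_le ⟨0, fun _ h => h.1⟩ ⟨hC, h⟩

lemma lip_nonneg {u : V → ℝ} {C : ℝ} (h : Lip G C u) : Lip G (max C 0) u :=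
  fun x y hxy => (h x y hxy).trans (le_max_left _ _)

lemma lip_lc {u : V → ℝ} (h : ∃ C, Lip G C u) : Lip G (lc G u) u := by
  obtain ⟨C, hC⟩ := h
  intro x y hxy
  refine le_csInf ⟨max C 0, le_max_right _ _, lip_nonneg hC⟩ ?_
  rintro b ⟨_, hb⟩
  exact hb x y hxy

/-- the space with its norm -/
def W (hG : TG G) (o : V) : Type := ↥(LH hG o)

noncomputable instance (o : V) : AddCommGroup (W hG o) := inferInstanceAs (AddCommGroup ↥(LH hG o))

noncomputable instance (o : V) : Module ℝ (W hG o) := inferInstanceAs (Module ℝ ↥(LH hG o))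

noncomputable instance (o : V) : Norm (W hG o) := ⟨fun u => lc G u.1⟩

lemma norm_def (o : V) (u : W hG o) : ‖u‖ = lc G u.1 := rfl

lemma W.lip (o : V) (u : W hG o) : Lip G ‖u‖ u.1 := lip_lc u.2.2.2

lemma add_coe (o : V) (u v : W hG o) : (u + v).1 = u.1 + v.1 := rfl

lemma smul_coe (o : V) (c : ℝ) (u : W hG o) : (c • u).1 = c • u.1 := rfl

lemma zero_coe (o : V) : (0 : W hG o).1 = 0 := rfl

lemma norm_smul_le' (o : V) (c : ℝ) (u : W hG o) : ‖c • u‖ ≤ ‖c‖ * ‖u‖ := by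
  refine lc_le (mul_nonneg (norm_nonneg _) (lc_nonneg _)) ?_
  intro x y hxy
  rw [smul_coe]
  simp only [Pi.smul_apply, smul_eq_mul]
  rw [← mul_sub, abs_mul]
  exact mul_le_mul_of_nonneg_left (W.lip hG o u x y hxy) (abs_nonneg c)

lemma eq_zero_of_const {o : V} {u : V → ℝ} (h0 : u o = 0) (h : ∀ x y, G.Adj x y → u x = u y)
    (hc : G.Connected) : u = 0 := by
  have h1 : ∀ (x y : V) (p : G.Walk x y), u x = u y := by
    intro x y p
    induction p with
    | nil => rfl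
    | cons h' _ ih => exact (h _ _ h').trans ih
  funext x
  obtain ⟨p⟩ := hc.preconnected x o
  rw [h1 x o p, h0]; rfl

lemma core (o : V) : NormedSpace.Core ℝ (W hG o) where
  norm_nonneg u := lc_nonneg _
  norm_smul c u := by
    refine le_antisymm (norm_smul_le' hG o c u) ?_
    by_cases hc : c = 0
    · subst hc
      rw [norm_zero, zero_mul]; exact lc_nonneg _
    · have h1 := norm_smul_le' hG o c⁻¹ (c • u)
      rw [smul_smul, inv_mul_cancel₀ hc, one_smul, norm_inv] at h1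
      have h2 : 0 < ‖c‖ := norm_pos_iff.2 hc
      calc ‖c‖ * ‖u‖ ≤ ‖c‖ * (‖c‖⁻¹ * ‖c • u‖) := mul_le_mul_of_nonneg_left h1 h2.le
        _ = ‖c • u‖ := by rw [← mul_assoc, mul_inv_cancel₀ h2.ne', one_mul]
  norm_triangle u v := by
    refine lc_le (add_nonneg (lc_nonneg _) (lc_nonneg _)) ?_
    intro x y hxy
    have h1 := W.lip hG o u x y hxy
    have h2 := W.lip hG o v x y hxy
    rw [add_coe]
    simp only [Pi.add_apply]
    calc |u.1 x + v.1 x - (u.1 y + v.1 y)| = |(u.1 x - u.1 y) + (v.1 x - v.1 y)| := by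
          congr 1; ring
      _ ≤ |u.1 x - u.1 y| + |v.1 x - v.1 y| := abs_add_le _ _
      _ ≤ _ := add_le_add h1 h2
  norm_eq_zero_iff u := by
    constructor
    · intro h
      have h1 := W.lip hG o u
      rw [h] at h1
      have h2 : u.1 = 0 := eq_zero_of_const u.2.1 (fun x y hxy => by
        have := h1 x y hxy
        have h3 := abs_nonpos_iff.1 this
        linarith) hG.conn
      exact Subtype.ext h2
    · rintro rfl
      refine le_antisymm (lc_le le_rfl ?_) (lc_nonneg _)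
      intro x y _
      rw [zero_coe]; simp

noncomputable instance (o : V) : NormedAddCommGroup (W hG o) := NormedAddCommGroup.ofCore (core hG o)

noncomputable instance (o : V) : NormedSpace ℝ (W hG o) := NormedSpace.ofCore (core hG o)

lemma norm_def' (o : V) (u : W hG o) : ‖u‖ = lc G u.1 := rfl

/-! ### the action -/

lemma lap_const_sub (u : V → ℝ) (c : ℝ) (x : V) : lap hG (fun y => u y - c) x = lap hG u x := by
  unfold lap
  exact Finset.sum_congr rfl fun y _ => by ring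

lemma act_lip (o : V) (g : G ≃g G) {u : V → ℝ} {C : ℝ} (h : Lip G C u) : Lip G C (act o g u) := by
  intro x y hxy
  have h1 : G.Adj (g.symm x) (g.symm y) := g.symm.map_adj_iff.2 hxy
  have h2 := h _ _ h1
  unfold act
  rw [sub_sub_sub_cancel_right]
  exact h2

lemma act_mem (o : V) (g : G ≃g G) (u : V → ℝ) (hu : u ∈ LH hG o) : act o g u ∈ LH hG o := by
  obtain ⟨h1, h2, C, h3⟩ := hu
  refine ⟨?_, ?_, C, act_lip o g h3⟩
  · unfold act; simp
  · intro x
    unfold act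
    rw [lap_const_sub]
    have := lap_comp hG g.symm u x
    rw [show (fun x => u (g.symm x)) = u ∘ g.symm from rfl, this, h2]

lemma act_mul (o : V) (g h : G ≃g G) (u : V → ℝ) : act o (g * h) u = act o g (act o h u) := by
  funext x
  have e : ∀ z, (g * h).symm z = h.symm (g.symm z) := fun z => rfl
  unfold act
  rw [e, e]; ring

lemma act_one (o : V) (u : V → ℝ) (h : u o = 0) : act o (1 : G ≃g G) u = u := by
  funext x
  unfold act
  have e : ∀ z, (1 : G ≃g G).symm z = z := fun z => rfl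
  rw [e, e, h, sub_zero]

/-- the action as a linear map -/
noncomputable def actL (o : V) (g : G ≃g G) : W hG o →ₗ[ℝ] W hG o where
  toFun u := ⟨act o g u.1, act_mem hG o g u.1 u.2⟩
  map_add' u v := by
    apply Subtype.ext
    funext x
    show act o g (u + v).1 x = act o g u.1 x + act o g v.1 x
    rw [add_coe]
    unfold act
    simp only [Pi.add_apply]; ring
  map_smul' c u := by
    apply Subtype.ext
    funext x
    show act o g (c • u).1 x = c * act o g u.1 x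
    rw [smul_coe]
    unfold act
    simp only [Pi.smul_apply, smul_eq_mul]; ring

lemma actL_coe (o : V) (g : G ≃g G) (u : W hG o) : (actL hG o g u).1 = act o g u.1 := rfl

lemma actL_norm (o : V) (g : G ≃g G) (u : W hG o) : ‖actL hG o g u‖ ≤ 1 * ‖u‖ := by
  rw [one_mul]
  exact lc_le (lc_nonneg _) (act_lip o g (W.lip hG o u))

/-- the action as a homomorphism to bounded operators -/
noncomputable def rho (o : V) : (G ≃g G) →* (W hG o →L[ℝ] W hG o) where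
  toFun g := (actL hG o g).mkContinuous 1 (actL_norm hG o g)
  map_one' := by
    ext u
    apply Subtype.ext
    show act o 1 u.1 = u.1
    exact act_one o u.1 u.2.1
  map_mul' g h := by
    ext u
    apply Subtype.ext
    show act o (g * h) u.1 = act o g (act o h u.1)
    exact act_mul o g h u.1

lemma rho_coe (o : V) (g : G ≃g G) (u : W hG o) : (rho hG o g u).1 = act o g u.1 := rfl

lemma rho_norm (o : V) (g : G ≃g G) : ‖rho hG o g‖ ≤ 1 :=
  (actL hG o g).mkContinuous_norm_le zero_le_one (actL_norm hG o g)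

/-! ### finitely many operators -/

/-- functions vanishing on the ball of radius `R` -/
noncomputable def ker (o : V) (R : ℕ) : Submodule ℝ (W hG o) where
  carrier := {u | ∀ x ∈ bl hG o R, u.1 x = 0}
  add_mem' := by
    intro a b ha hb x hx
    rw [add_coe, Pi.add_apply, ha x hx, hb x hx, add_zero]
  zero_mem' := fun x _ => rfl
  smul_mem' := by
    intro c a ha x hx
    rw [smul_coe, Pi.smul_apply, ha x hx, smul_zero]

lemma exists_det (o : V) (hfd : Module.Finite ℝ (LH hG o)) :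
    ∃ R : ℕ, ∀ u ∈ LH hG o, (∀ x ∈ bl hG o R, u x = 0) → u = 0 := by
  have hfd' : Module.Finite ℝ (W hG o) := hfd
  have hanti : Antitone (ker hG o) := by
    intro m n hmn u hu x hx
    refine hu x ?_
    rw [mem_bl] at hx ⊢
    exact hx.trans hmn
  obtain ⟨n, hn⟩ := IsArtinian.monotone_stabilizes (R := ℝ) (M := W hG o)
    ⟨fun R => OrderDual.toDual (ker hG o R), fun m n hmn => hanti hmn⟩
  refine ⟨n, fun u hu h => ?_⟩
  funext x
  have h1 : (⟨u, hu⟩ : W hG o) ∈ ker hG o n := h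
  have h2 : ker hG o n = ker hG o (max n (G.dist o x)) := hn _ (le_max_left _ _)
  rw [h2] at h1
  have := h1 x (by rw [mem_bl]; exact le_max_right _ _)
  exact this

lemma rho_eq_of_agree (o : V) (R : ℕ)
    (hR : ∀ u ∈ LH hG o, (∀ x ∈ bl hG o R, u x = 0) → u = 0) (g h : G ≃g G)
    (hgh : ∀ x ∈ bl hG o R, g.symm x = h.symm x) : rho hG o g = rho hG o h := by
  ext u
  apply Subtype.ext
  rw [rho_coe, rho_coe]
  have h1 : act o g u.1 - act o h u.1 ∈ LH hG o :=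
    (LH hG o).sub_mem (act_mem hG o g u.1 u.2) (act_mem hG o h u.1 u.2)
  have h2 := hR _ h1 (by
    intro x hx
    simp only [Pi.sub_apply, act]
    rw [hgh x hx, hgh o (self_mem_bl hG o R), sub_self])
  exact sub_eq_zero.1 h2

lemma finite_stab (o : V) (R : ℕ)
    (hR : ∀ u ∈ LH hG o, (∀ x ∈ bl hG o R, u x = 0) → u = 0) :
    (rho hG o '' {g | g o = o}).Finite := by
  classical
  have hmap : ∀ g : G ≃g G, g o = o → ∀ x : ↥(bl hG o R), g.symm x.1 ∈ bl hG o R := by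
    intro g hg x
    rw [mem_bl]
    have h1 : g.symm o = o := by
      rw [RelIso.symm_apply_eq]; exact hg.symm
    have h2 := dist_iso hG.conn g.symm o x.1
    rw [h1] at h2
    rw [h2]
    exact (mem_bl hG _ _ _).1 x.2
  let f : (↥(bl hG o R) → ↥(bl hG o R)) → (W hG o →L[ℝ] W hG o) := fun φ =>
    if h : ∃ g : G ≃g G, g o = o ∧ ∀ x : ↥(bl hG o R), g.symm x.1 = (φ x).1 then
      rho hG o h.choose else 1
  refine (Set.finite_range f).subset ?_
  rintro a ⟨g, hg, rfl⟩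
  refine ⟨fun x => ⟨g.symm x.1, hmap g hg x⟩, ?_⟩
  have h : ∃ g' : G ≃g G, g' o = o ∧ ∀ x : ↥(bl hG o R), g'.symm x.1 = g.symm x.1 :=
    ⟨g, hg, fun x => rfl⟩
  show (if h : ∃ g' : G ≃g G, g' o = o ∧ ∀ x : ↥(bl hG o R), g'.symm x.1 = g.symm x.1 then
      rho hG o h.choose else 1) = _
  rw [dif_pos h]
  refine rho_eq_of_agree hG o R hR _ _ fun x hx => ?_
  exact h.choose_spec.2 ⟨x, hx⟩

lemma card_rho (o : V) (R : ℕ)
    (hR : ∀ u ∈ LH hG o, (∀ x ∈ bl hG o R, u x = 0) → u = 0) (r : ℕ)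
    (F : Finset (W hG o →L[ℝ] W hG o))
    (hF : ∀ a ∈ F, ∃ g : G ≃g G, G.dist o (g o) ≤ r ∧ rho hG o g = a) :
    F.card ≤ (finite_stab hG o R hR).toFinset.card * (bl hG o r).card := by
  classical
  rw [← Finset.card_product]
  have h1 : F ⊆ ((finite_stab hG o R hR).toFinset ×ˢ bl hG o r).image
      (fun p => p.1 * rho hG o (tau hG o p.2)⁻¹) := by
    intro a ha
    obtain ⟨g, hg, rfl⟩ := hF a ha
    rw [Finset.mem_image]
    refine ⟨(rho hG o (g * tau hG o (g.symm o)), g.symm o), ?_, ?_⟩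
    · rw [Finset.mem_product]
      refine ⟨?_, ?_⟩
      · rw [Set.Finite.mem_toFinset]
        refine ⟨_, ?_, rfl⟩
        show g (tau hG o (g.symm o) o) = o
        rw [tau_apply]
        exact g.apply_symm_apply o
      · rw [mem_bl]
        have := dist_iso hG.conn g o (g.symm o)
        rw [g.apply_symm_apply] at this
        rw [← this, SimpleGraph.dist_comm]
        exact hg
    · show rho hG o (g * tau hG o (g.symm o)) * rho hG o (tau hG o (g.symm o))⁻¹ = _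
      rw [← map_mul, mul_assoc, mul_inv_cancel, mul_one]
  exact (Finset.card_le_card h1).trans Finset.card_image_le

include hG in
lemma exists_prev (o z : V) (n : ℕ) (hn : G.dist o z = n + 1) :
    ∃ y, G.dist o y = n ∧ G.dist y z ≤ 1 := by
  obtain ⟨p, hp⟩ := hG.conn.exists_walk_length_eq_dist z o
  rw [SimpleGraph.dist_comm, hn] at hp
  cases p with
  | nil => simp at hp
  | @cons _ y _ h q =>
    rw [SimpleGraph.Walk.length_cons] at hp
    have h1 : G.dist y o ≤ n := by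
      have := SimpleGraph.dist_le q
      omega
    have h2 : G.dist y z ≤ 1 := by
      rw [SimpleGraph.dist_comm, SimpleGraph.dist_eq_one_iff_adj.2 h]
    have h3 := hG.tri o y z
    rw [hn] at h3
    rw [SimpleGraph.dist_comm] at h1
    exact ⟨y, by omega, h2⟩

include hG in
lemma gen (o : V) (g : G ≃g G) :
    g ∈ Subgroup.closure {s : G ≃g G | G.dist o (s o) ≤ 1} := by
  induction hn : G.dist o (g o) generalizing g with
  | zero => exact Subgroup.subset_closure (by simp [hn])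
  | succ n ih =>
    obtain ⟨y, hy1, hy2⟩ : ∃ y, G.dist o y = n ∧ G.dist y (g o) ≤ 1 :=
      exists_prev hG o (g o) n hn
    have h1 : tau hG o y ∈ Subgroup.closure {s : G ≃g G | G.dist o (s o) ≤ 1} :=
      ih (tau hG o y) (by rw [tau_apply]; exact hy1)
    have h2 : (tau hG o y)⁻¹ * g ∈ Subgroup.closure {s : G ≃g G | G.dist o (s o) ≤ 1} := by
      refine Subgroup.subset_closure ?_
      show G.dist o ((tau hG o y).symm (g o)) ≤ 1
      have := dist_iso hG.conn (tau hG o y) o ((tau hG o y).symm (g o))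
      rw [RelIso.apply_symm_apply, tau_apply] at this
      rw [← this]; exact hy2
    have h3 := Subgroup.mul_mem _ h1 h2
    rwa [mul_inv_cancel_left] at h3

end Abel

variable {V : Type} {G : SimpleGraph V} (hG : TG G)

theorem virt_abel (o : V) (D : ℕ) (hpg : PG hG o D) (hfd : Module.Finite ℝ (LH hG o)) :
    ∃ Γ₀ : Subgroup (G ≃g G), Γ₀.FiniteIndex ∧ ∀ g ∈ Γ₀, ∀ h ∈ Γ₀, ∀ u ∈ LH hG o,
      act o (g * h) u = act o (h * g) u := by
  classical
  obtain ⟨R, hR⟩ := Abel.exists_det hG o hfd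
  have hfd' : Module.Finite ℝ (Abel.W hG o) := hfd
  have hprop : ProperSpace (Abel.W hG o →L[ℝ] Abel.W hG o) :=
    FiniteDimensional.proper ℝ _
  have hA : TotallyBounded (Set.range (Abel.rho hG o)) := by
    refine TotallyBounded.subset ?_ (isCompact_closedBall
      (0 : Abel.W hG o →L[ℝ] Abel.W hG o) 1).totallyBounded
    rintro a ⟨g, rfl⟩
    rw [mem_closedBall_zero_iff]
    exact Abel.rho_norm hG o g
  obtain ⟨Γ₀, h1, h2⟩ := AbelAbs.abs_abel (Abel.rho hG o) hA (Abel.rho_norm hG o) D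
    (fun g => G.dist o (g o)) (by simp)
    (fun g h => by
      show G.dist o (g (h o)) ≤ _
      have h3 := hG.tri o (g o) (g (h o))
      rw [dist_iso hG.conn g o (h o)] at h3
      exact h3)
    (fun g => by
      show G.dist o (g.symm o) = _
      have h3 := dist_iso hG.conn g o (g.symm o)
      rw [g.apply_symm_apply] at h3
      rw [← h3, SimpleGraph.dist_comm])
    (Abel.gen hG o) ((Abel.finite_stab hG o R hR).toFinset.card : ℝ) (Nat.cast_nonneg _)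
    (fun r => ((bl hG o r).card : ℝ))
    (fun m n hmn => by
      show ((bl hG o m).card : ℝ) ≤ ((bl hG o n).card : ℝ)
      exact_mod_cast Finset.card_le_card (fun x hx => by
        rw [mem_bl] at hx ⊢
        exact hx.trans hmn))
    (fun r F hF => by
      have := Abel.card_rho hG o R hR r F hF
      exact_mod_cast this)
    hpg
  refine ⟨Γ₀, h1, fun g hg h hh u hu => ?_⟩
  have h3 := h2 g hg h hh
  have h4 : Abel.rho hG o (g * h) ⟨u, hu⟩ = Abel.rho hG o (h * g) ⟨u, hu⟩ := by rw [h3]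
  exact congrArg Subtype.val h4

end Pool.H61.ST

end S_H61_ST_Abel

section S_H61_ST_Ling

set_option autoImplicit false

/-! Growth of the kernel orbit of a height structure. -/

namespace Pool.H61.ST

open Finset Pool.Agent.H61.SW Pool.H98.C

variable {V : Type} {G : SimpleGraph V}

namespace LG

lemma chi_zpow (hs : HS G) {g : G ≃g G} (hg : g ∈ hs.Γ) (j : ℤ) : hs.χ (g ^ j) = j * hs.χ g := by
  let ψ : hs.Γ →* Multiplicative ℤ :=
    { toFun := fun γ => Multiplicative.ofAdd (hs.χ (γ : G ≃g G))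
      map_one' := by
        have h := hs.mul 1 hs.Γ.one_mem 1 hs.Γ.one_mem
        rw [mul_one] at h
        have h0 : hs.χ 1 = 0 := by omega
        show Multiplicative.ofAdd (hs.χ ((1 : hs.Γ) : G ≃g G)) = 1
        rw [OneMemClass.coe_one, h0]; rfl
      map_mul' := fun a b => by
        show Multiplicative.ofAdd (hs.χ ((a * b : hs.Γ) : G ≃g G)) = _
        rw [Subgroup.coe_mul, hs.mul _ a.2 _ b.2, ofAdd_add] }
  have h := map_zpow ψ ⟨g, hg⟩ j
  have h' : Multiplicative.ofAdd (hs.χ (g ^ j)) = (Multiplicative.ofAdd (hs.χ g)) ^ j := h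
  rw [← ofAdd_zsmul] at h'
  have := Multiplicative.ofAdd.injective h'
  simpa using this

lemma u_zpow (hs : HS G) {g : G ≃g G} (hg : g ∈ hs.Γ) (j : ℤ) (x : V) :
    hs.u ((g ^ j) x) = hs.u x + j * hs.χ g := by
  rw [hs.equi _ (hs.Γ.zpow_mem hg j), chi_zpow hs hg]
  push_cast; ring

lemma u_pow (hs : HS G) {g : G ≃g G} (hg : g ∈ hs.Γ) (j : ℕ) (x : V) :
    hs.u ((g ^ j) x) = hs.u x + j * hs.χ g := by
  have := u_zpow hs hg (j : ℤ) x
  rw [zpow_natCast] at this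
  simpa using this

lemma exists_pos (hs : HS G) : ∃ t ∈ hs.Γ, 0 < hs.χ t := by
  obtain ⟨g, hg, hne⟩ := hs.ne
  rcases lt_or_gt_of_ne hne with h | h
  · refine ⟨g⁻¹, hs.Γ.inv_mem hg, ?_⟩
    have := chi_zpow hs hg (-1)
    rw [zpow_neg_one] at this
    rw [this]; omega
  · exact ⟨g, hg, h⟩

lemma orbK_u (hs : HS G) {x y : V} (hy : y ∈ orbK hs x) : hs.u y = hs.u x := by
  obtain ⟨l, hl, h0, rfl⟩ := hy
  rw [hs.equi l hl, h0]; simp

lemma dist_pow (hG : TG G) (t : G ≃g G) (x : V) (j : ℕ) :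
    G.dist x ((t ^ j) x) ≤ j * G.dist x (t x) := by
  induction j with
  | zero => simp
  | succ j ih =>
    have h1 := hG.tri x ((t ^ j) x) ((t ^ j) (t x))
    rw [dist_iso hG.conn] at h1
    rw [pow_succ, RelIso.mul_apply]
    calc _ ≤ _ := h1
      _ ≤ j * G.dist x (t x) + G.dist x (t x) := by omega
      _ = _ := by ring

/-- the finite piece of the kernel orbit -/
noncomputable def Sf (hG : TG G) (hs : HS G) (x : V) (r : ℕ) : Finset V :=
  open Classical in (bl hG x r).filter (· ∈ orbK hs x)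

lemma mem_Sf (hG : TG G) (hs : HS G) (x y : V) (r : ℕ) :
    y ∈ Sf hG hs x r ↔ G.dist x y ≤ r ∧ y ∈ orbK hs x := by
  simp [Sf]

lemma ncard_Sf (hG : TG G) (hs : HS G) (x : V) (r : ℕ) :
    Set.ncard {y | y ∈ orbK hs x ∧ G.dist x y ≤ r} = (Sf hG hs x r).card := by
  rw [← Set.ncard_coe_finset]
  congr 1
  ext y
  simp [mem_Sf, and_comm]

lemma count (hG : TG G) (hs : HS G) (x : V) {t : G ≃g G} (ht : t ∈ hs.Γ) (hχ : 0 < hs.χ t)
    (r : ℕ) : (Sf hG hs x r).card * (r + 1) ≤ (bl hG x (r * (1 + G.dist x (t x)))).card := by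
  classical
  have h1 : ((Sf hG hs x r) ×ˢ (Finset.range (r + 1))).card ≤
      (bl hG x (r * (1 + G.dist x (t x)))).card := by
    refine Finset.card_le_card_of_injOn (fun p => (t ^ p.2) p.1) ?_ ?_
    · rintro ⟨z, j⟩ hp
      rw [Finset.mem_coe, Finset.mem_product, mem_Sf, Finset.mem_range] at hp
      obtain ⟨⟨hz, -⟩, hj⟩ := hp
      rw [Finset.mem_coe, mem_bl]
      have h1 := hG.tri x ((t ^ j) x) ((t ^ j) z)
      rw [dist_iso hG.conn] at h1
      have h2 := dist_pow hG t x j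
      have h3 : j * G.dist x (t x) ≤ r * G.dist x (t x) := Nat.mul_le_mul_right _ (by omega)
      calc _ ≤ _ := h1
        _ ≤ r * G.dist x (t x) + r := by simp only at hz; omega
        _ = _ := by ring
    · rintro ⟨z, j⟩ hp ⟨z', j'⟩ hp' h
      rw [Finset.mem_coe, Finset.mem_product, mem_Sf] at hp hp'
      simp only at h hp hp'
      have h2 := congrArg hs.u h
      rw [u_pow hs ht, u_pow hs ht, orbK_u hs hp.1.2, orbK_u hs hp'.1.2] at h2
      have h3 : (j : ℝ) * hs.χ t = j' * hs.χ t := by linarith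
      have h4 : (hs.χ t : ℝ) ≠ 0 := by exact_mod_cast hχ.ne'
      have h5 : j = j' := by exact_mod_cast mul_right_cancel₀ h4 h3
      subst h5
      rw [(t ^ j).injective h]
  rwa [Finset.card_product, Finset.card_range] at h1

end LG

theorem orb_linear (hG : TG G) (hs : HS G) (o x : V)
    (hquad : ∃ F : ℝ, ∀ N : ℕ, ∃ r ≥ N, ((bl hG o r).card : ℝ) ≤ F * (r : ℝ) ^ 2) :
    ∃ A : ℝ, ∀ N : ℕ, ∃ r ≥ N, ((Set.ncard {y | y ∈ orbK hs x ∧ G.dist x y ≤ r} : ℕ) : ℝ) ≤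
      A * r := by
  obtain ⟨t, ht, hχ⟩ := LG.exists_pos hs
  obtain ⟨F, hF⟩ := hquad
  set τ := 1 + G.dist x (t x) with hτ
  have hτ1 : 1 ≤ τ := by omega
  refine ⟨4 * |F| * (τ : ℝ) ^ 2, fun N => ?_⟩
  obtain ⟨r', hr', hV⟩ := hF ((N + 1) * τ)
  have hr1 : N + 1 ≤ r' / τ := (Nat.le_div_iff_mul_le (by omega)).2 hr'
  refine ⟨r' / τ, by omega, ?_⟩
  set r := r' / τ with hr
  rw [LG.ncard_Sf hG]
  have h1 := LG.count hG hs x ht hχ r
  rw [← hτ] at h1
  have h2 : (bl hG x (r * τ)).card ≤ (bl hG o r').card := by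
    rw [card_bl hG x o]
    refine Finset.card_le_card fun y hy => ?_
    rw [mem_bl] at hy ⊢
    exact hy.trans (Nat.div_mul_le_self r' τ)
  have h3 : r' ≤ 2 * r * τ := by
    have h4 : r' < (r + 1) * τ := by
      have := Nat.lt_div_mul_add (a := r') (b := τ) (by omega)
      rw [← hr] at this
      calc r' < r * τ + τ := this
        _ = _ := by ring
    have h5 : (r + 1) * τ ≤ 2 * r * τ := Nat.mul_le_mul_right _ (by omega)
    omega
  have h4 : ((LG.Sf hG hs x r).card : ℝ) * (r + 1) ≤ |F| * (2 * r * τ) ^ 2 := by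
    calc ((LG.Sf hG hs x r).card : ℝ) * (r + 1) ≤ ((bl hG o r').card : ℝ) := by
          exact_mod_cast h1.trans h2
      _ ≤ F * (r' : ℝ) ^ 2 := hV
      _ ≤ |F| * (r' : ℝ) ^ 2 := mul_le_mul_of_nonneg_right (le_abs_self F) (by positivity)
      _ ≤ |F| * (2 * r * τ) ^ 2 := by
          have h6 : (r' : ℝ) ≤ 2 * r * τ := by exact_mod_cast h3
          gcongr
  have hrpos : (0 : ℝ) < r := by
    have : 0 < r := by omega
    exact_mod_cast this
  have h5 : ((LG.Sf hG hs x r).card : ℝ) * r ≤ |F| * (2 * r * τ) ^ 2 :=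
    le_trans (mul_le_mul_of_nonneg_left (by linarith) (by positivity)) h4
  have h6 : ((LG.Sf hG hs x r).card : ℝ) * r ≤ (4 * |F| * (τ : ℝ) ^ 2 * r) * r := by
    calc _ ≤ _ := h5
      _ = _ := by ring
  exact le_of_mul_le_mul_right h6 hrpos

theorem orb_infinite (hG : TG G) (hs : HS G) (o x : V)
    (hlow : ∀ R : ℕ, (R : ℝ) ^ 2 / 2 ≤ (bl hG o R).card) : (orbK hs x).Infinite := by
  classical
  intro hfin
  obtain ⟨t, ht, hχ⟩ := LG.exists_pos hs
  obtain ⟨ι, hι, rep, hrep⟩ := exists_reps hG hs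
  obtain ⟨Lp, hLp⟩ := exists_lip hG hs
  -- bound for the kernel orbit
  obtain ⟨C2, hC2⟩ : ∃ C2 : ℕ, ∀ y ∈ orbK hs x, G.dist y x ≤ C2 := by
    refine ⟨hfin.toFinset.sup (fun y => G.dist y x), fun y hy => ?_⟩
    exact Finset.le_sup (f := fun y => G.dist y x) (hfin.mem_toFinset.2 hy)
  -- a representative for every residue
  let γ : ℕ → (G ≃g G) := fun s => if h : ∃ g ∈ hs.Γ, hs.χ g = s then h.choose else 1
  have hγ : ∀ s : ℕ, (∃ g ∈ hs.Γ, hs.χ g = s) → γ s ∈ hs.Γ ∧ hs.χ (γ s) = s := by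
    intro s h
    simp only [γ, dif_pos h]
    exact h.choose_spec
  obtain ⟨C1, hC1⟩ : ∃ C1 : ℕ, ∀ i : ι, ∀ s : ℕ, s < (hs.χ t).toNat →
      G.dist (γ s (rep i)) x ≤ C1 := by
    refine ⟨∑ i, ∑ s ∈ Finset.range (hs.χ t).toNat, G.dist (γ s (rep i)) x, fun i s hs' => ?_⟩
    calc G.dist (γ s (rep i)) x ≤ ∑ s ∈ Finset.range (hs.χ t).toNat, G.dist (γ s (rep i)) x :=
          Finset.single_le_sum (f := fun s => G.dist (γ s (rep i)) x) (fun _ _ => Nat.zero_le _)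
            (Finset.mem_range.2 hs')
      _ ≤ _ := Finset.single_le_sum
            (f := fun i => ∑ s ∈ Finset.range (hs.χ t).toNat, G.dist (γ s (rep i)) x)
            (fun _ _ => Nat.zero_le _) (Finset.mem_univ i)
  have key : ∀ y : V, ∃ q : ℤ, G.dist y ((t ^ q) x) ≤ C1 + C2 := by
    intro y
    obtain ⟨i, g, hg, rfl⟩ := hrep y
    let q := hs.χ g / hs.χ t
    let s := (hs.χ g % hs.χ t).toNat
    have hs0 : 0 ≤ hs.χ g % hs.χ t := Int.emod_nonneg _ hχ.ne'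
    have hs1 : hs.χ g % hs.χ t < hs.χ t := Int.emod_lt_of_pos _ hχ
    have hg' : t ^ (-q) * g ∈ hs.Γ := hs.Γ.mul_mem (hs.Γ.zpow_mem ht _) hg
    have hχ' : hs.χ (t ^ (-q) * g) = s := by
      rw [hs.mul _ (hs.Γ.zpow_mem ht _) _ hg, LG.chi_zpow hs ht]
      have := Int.mul_ediv_add_emod (hs.χ g) (hs.χ t)
      simp only [s, q]
      rw [Int.toNat_of_nonneg hs0]
      linarith [mul_comm (hs.χ t) (hs.χ g / hs.χ t)]
    obtain ⟨h1, h2⟩ := hγ s ⟨_, hg', hχ'⟩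
    let l : G ≃g G := t ^ (-q) * g * (γ s)⁻¹
    have hl : l ∈ hs.Γ := hs.Γ.mul_mem hg' (hs.Γ.inv_mem h1)
    have hl0 : hs.χ l = 0 := by
      have h3 := LG.chi_zpow hs h1 (-1)
      rw [zpow_neg_one] at h3
      show hs.χ (t ^ (-q) * g * (γ s)⁻¹) = 0
      rw [hs.mul _ hg' _ (hs.Γ.inv_mem h1), hχ', h3, h2]
      ring
    refine ⟨q, ?_⟩
    have h4 : g (rep i) = (t ^ q) (l (γ s (rep i))) := by
      have : g = t ^ q * l * γ s := by
        show g = t ^ q * (t ^ (-q) * g * (γ s)⁻¹) * γ s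
        group
      conv_lhs => rw [this]
      rfl
    rw [h4, dist_iso hG.conn]
    have h5 := hG.tri (l (γ s (rep i))) (l x) x
    rw [dist_iso hG.conn] at h5
    have h6 := hC1 i s (by omega)
    have h7 := hC2 (l x) ⟨l, hl, hl0, rfl⟩
    omega
  set C := C1 + C2 with hC
  -- heights bound the exponent
  have hq : ∀ (R : ℕ) (y : V), G.dist x y ≤ R → ∀ q : ℤ, G.dist y ((t ^ q) x) ≤ C →
      |q| ≤ (Lp * (R + C) : ℕ) := by
    intro R y hy q hq
    have h1 : G.dist x ((t ^ q) x) ≤ R + C := (hG.tri x y _).trans (by omega)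
    have h2 := lip_ch hLp x (geo hG x ((t ^ q) x)) (ch_geo hG _ _)
    rw [en_geo, length_geo, LG.u_zpow hs ht] at h2
    have h3 : |(q : ℝ) * hs.χ t| ≤ Lp * (R + C : ℕ) := by
      have h4 : hs.u x + (q : ℝ) * hs.χ t - hs.u x = (q : ℝ) * hs.χ t := by ring
      rw [h4] at h2
      refine h2.trans (mul_le_mul_of_nonneg_left ?_ (by positivity))
      exact_mod_cast h1
    have h5 : |q * hs.χ t| ≤ (Lp * (R + C) : ℕ) := by
      have : ((|q * hs.χ t| : ℤ) : ℝ) ≤ ((Lp * (R + C) : ℕ) : ℝ) := by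
        push_cast at h3 ⊢
        exact h3
      exact_mod_cast this
    rw [abs_mul] at h5
    refine le_trans ?_ h5
    have h6 : 1 ≤ |hs.χ t| := by rw [abs_of_pos hχ]; omega
    exact le_mul_of_one_le_right (abs_nonneg q) h6
  -- counting
  have hcard : ∀ R : ℕ, (bl hG x R).card ≤ (2 * (Lp * (R + C)) + 1) * (bl hG x C).card := by
    intro R
    have hsub : bl hG x R ⊆ (Finset.Icc (-((Lp * (R + C) : ℕ) : ℤ)) ((Lp * (R + C) : ℕ) : ℤ)).biUnion
        (fun q => bl hG ((t ^ q) x) C) := by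
      intro y hy
      rw [mem_bl] at hy
      obtain ⟨q, hq'⟩ := key y
      have h1 := hq R y hy q hq'
      rw [Finset.mem_biUnion]
      refine ⟨q, ?_, ?_⟩
      · rw [Finset.mem_Icc]; exact abs_le.1 h1
      · rw [mem_bl, SimpleGraph.dist_comm]; exact hq'
    refine (Finset.card_le_card hsub).trans (Finset.card_biUnion_le.trans ?_)
    rw [Finset.sum_congr rfl fun q _ => card_bl hG ((t ^ q) x) x C, Finset.sum_const,
      Int.card_Icc, smul_eq_mul]
    refine Nat.mul_le_mul_right _ (le_of_eq ?_)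
    omega
  set B := (bl hG x C).card with hB
  let R := 2 * (2 * Lp * B) + 2 * ((2 * Lp * C + 1) * B) + 2
  have h1 := hlow R
  rw [card_bl hG o x] at h1
  have h2 : ((bl hG x R).card : ℝ) ≤ (2 * (Lp * (R + C)) + 1) * B := by exact_mod_cast hcard R
  have h3 : (R : ℝ) = 2 * (2 * Lp * B) + 2 * ((2 * Lp * C + 1) * B) + 2 := by
    simp only [R]; push_cast; ring
  have h4 : (0 : ℝ) ≤ Lp := by positivity
  have h5 : (0 : ℝ) ≤ B := by positivity
  have h6 : (0 : ℝ) ≤ C := by positivity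
  have h7 : (0 : ℝ) ≤ (2 * Lp * C + 1) * B := by positivity
  have hR1 : (1 : ℝ) ≤ R := by
    rw [h3]
    have : (0 : ℝ) ≤ 2 * Lp * B := by positivity
    linarith
  have h8 : (R : ℝ) ^ 2 / 2 = R * (2 * Lp * B) + R * ((2 * Lp * C + 1) * B) + R := by
    have : (R : ℝ) ^ 2 / 2 = R * (R / 2) := by ring
    rw [this]
    conv_lhs => rw [h3]
    rw [← h3]
    nlinarith [h3]
  have h9 : (2 * (Lp * (R + C)) + 1) * (B : ℝ) = R * (2 * Lp * B) + (2 * Lp * C + 1) * B := by ring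
  nlinarith [mul_le_mul_of_nonneg_right hR1 h7]

end Pool.H61.ST

end S_H61_ST_Ling

section S_H61_ST_Kern

set_option autoImplicit false

/-! The orbit of the kernel of the height homomorphism is coarsely connected (Milnor). -/

namespace Pool.H61.ST

open Finset Pool.Agent.H61.SW Pool.H98.C Filter

section KERN
variable {V : Type} {G : SimpleGraph V}

/-- the products of Milnor's argument -/
noncomputable def kQ (t l : G ≃g G) (s : Finset ℕ) : ℕ → (G ≃g G)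
  | 0 => 1
  | n + 1 => t⁻¹ * (if n ∈ s then l else 1) * kQ t l s n

/-- the subgroup generated by the conjugates `t ^ i a t ^ (-i)`, `i < n`, `a ∈ E` -/
def kA (t : G ≃g G) (E : Set (G ≃g G)) (n : ℕ) : Subgroup (G ≃g G) :=
  Subgroup.closure {g | ∃ i < n, ∃ a ∈ E, g = t ^ i * a * (t ^ i)⁻¹}

lemma kA_mono {t : G ≃g G} {E : Set (G ≃g G)} {m n : ℕ} (h : m ≤ n) : kA t E m ≤ kA t E n := by
  apply Subgroup.closure_mono
  rintro g ⟨i, hi, a, ha, rfl⟩
  exact ⟨i, by omega, a, ha, rfl⟩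

lemma kA_le {t : G ≃g G} {E : Set (G ≃g G)} {n : ℕ} {L : Subgroup (G ≃g G)}
    (h : ∀ i < n, ∀ a ∈ E, t ^ i * a * (t ^ i)⁻¹ ∈ L) : kA t E n ≤ L := by
  rw [kA, Subgroup.closure_le]
  rintro g ⟨i, hi, a, ha, rfl⟩
  exact h i hi a ha

lemma kQ_mem (t l : G ≃g G) {E : Set (G ≃g G)} (hl : l ∈ E) (s : Finset ℕ) (n : ℕ) :
    t ^ n * kQ t l s n ∈ kA t E n := by
  induction n with
  | zero => simp [kQ, one_mem]
  | succ n ih =>
    have h1 : t ^ (n + 1) * kQ t l s (n + 1) =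
        (t ^ n * (if n ∈ s then l else 1) * (t ^ n)⁻¹) * (t ^ n * kQ t l s n) := by
      simp only [kQ, pow_succ]
      group
    rw [h1]
    refine mul_mem ?_ (kA_mono (Nat.le_succ n) ih)
    split_ifs with h
    · exact Subgroup.subset_closure ⟨n, by omega, l, hl, rfl⟩
    · rw [mul_one, mul_inv_cancel]
      exact one_mem _

lemma kQ_collide (t l : G ≃g G) {E : Set (G ≃g G)} (hl : l ∈ E) (L : Subgroup (G ≃g G)) (x : V)
    (hlx : l x ≠ x) (hEL : ∀ i : ℕ, ∀ a ∈ E, t ^ i * a * (t ^ i)⁻¹ ∈ L)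
    (hst : ∀ a ∈ L, a x = x → a ∈ E) (n : ℕ) :
    ∀ s s' : Finset ℕ, (∃ i < n, ¬ (i ∈ s ↔ i ∈ s')) → kQ t l s n x = kQ t l s' n x →
      ∃ p < n, t ^ p * l * (t ^ p)⁻¹ ∈ kA t E p := by
  induction n with
  | zero => rintro s s' ⟨i, hi, -⟩; omega
  | succ n ih =>
    have key : ∀ s s' : Finset ℕ, n ∈ s → n ∉ s' → kQ t l s (n + 1) x = kQ t l s' (n + 1) x →
        ∃ p < n + 1, t ^ p * l * (t ^ p)⁻¹ ∈ kA t E p := by
      intro s s' h1 h2 h3
      have h4 : l (kQ t l s n x) = kQ t l s' n x := by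
        simp only [kQ, h1, h2, if_true, if_false, mul_one, RelIso.mul_apply] at h3
        exact (t⁻¹).injective h3
      set a : G ≃g G := (kQ t l s' n)⁻¹ * l * kQ t l s n with ha
      have hax : a x = x := by
        rw [ha, RelIso.mul_apply, RelIso.mul_apply, h4]
        exact (kQ t l s' n).symm_apply_apply x
      have hconj : t ^ n * l * (t ^ n)⁻¹ =
          (t ^ n * kQ t l s' n) * a * (t ^ n * kQ t l s n)⁻¹ := by
        rw [ha]; group
      have haL : a ∈ L := by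
        have h5 : a = (t ^ n * kQ t l s' n)⁻¹ * (t ^ n * l * (t ^ n)⁻¹) * (t ^ n * kQ t l s n) := by
          rw [ha]; group
        rw [h5]
        have h6 : kA t E n ≤ L := kA_le fun i _ a ha => hEL i a ha
        exact mul_mem (mul_mem (inv_mem (h6 (kQ_mem t l hl s' n))) (hEL n l hl))
          (h6 (kQ_mem t l hl s n))
      have haE : a ∈ E := hst a haL hax
      refine ⟨n, by omega, ?_⟩
      rcases Nat.eq_zero_or_pos n with h0 | h0
      · exfalso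
        subst h0
        simp only [kQ] at h4
        exact hlx h4
      · rw [hconj]
        refine mul_mem (mul_mem (kQ_mem t l hl s' n) ?_) (inv_mem (kQ_mem t l hl s n))
        exact Subgroup.subset_closure ⟨0, h0, a, haE, by simp⟩
    rintro s s' ⟨i, hi, hne⟩ heq
    by_cases hn : n ∈ s
    · by_cases hn' : n ∈ s'
      · have h3 : kQ t l s n x = kQ t l s' n x := by
          simp only [kQ, hn, hn', if_true, RelIso.mul_apply] at heq
          exact l.injective ((t⁻¹).injective heq)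
        obtain ⟨p, hp1, hp2⟩ := ih s s' ⟨i, by
          rcases Nat.lt_succ_iff_lt_or_eq.1 hi with h | h
          · exact h
          · subst h; exact absurd (by simp [hn, hn']) hne, hne⟩ h3
        exact ⟨p, by omega, hp2⟩
      · exact key s s' hn hn' heq
    · by_cases hn' : n ∈ s'
      · exact key s' s hn' hn heq.symm
      · have h3 : kQ t l s n x = kQ t l s' n x := by
          simp only [kQ, hn, hn', if_false, mul_one, RelIso.mul_apply] at heq
          exact (t⁻¹).injective heq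
        obtain ⟨p, hp1, hp2⟩ := ih s s' ⟨i, by
          rcases Nat.lt_succ_iff_lt_or_eq.1 hi with h | h
          · exact h
          · subst h; exact absurd (by simp [hn, hn']) hne, hne⟩ h3
        exact ⟨p, by omega, hp2⟩

variable (hG : TG G)

include hG in
lemma dist_mul_le (x : V) (a b : G ≃g G) :
    G.dist x ((a * b) x) ≤ G.dist x (a x) + G.dist x (b x) := by
  have h1 := hG.tri x (a x) ((a * b) x)
  rw [RelIso.mul_apply, dist_iso hG.conn a x (b x)] at h1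
  exact h1

include hG in
lemma dist_inv (x : V) (a : G ≃g G) : G.dist x (a⁻¹ x) = G.dist x (a x) := by
  have h1 := dist_iso hG.conn a x (a⁻¹ x)
  have h2 : a (a⁻¹ x) = x := a.apply_symm_apply x
  rw [h2, SimpleGraph.dist_comm] at h1
  exact h1.symm

include hG in
lemma kern_dist_pow_le (x : V) (a : G ≃g G) (n : ℕ) :
    G.dist x ((a ^ n) x) ≤ n * G.dist x (a x) := by
  induction n with
  | zero => simp
  | succ n ih =>
    rw [pow_succ]
    have h1 := dist_mul_le hG x (a ^ n) a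
    rw [Nat.succ_mul]
    omega

include hG in
lemma dist_kQ_le (x : V) (t l : G ≃g G) (s : Finset ℕ) (c : ℕ) (hc : G.dist x (l x) ≤ c) (n : ℕ) :
    G.dist x (kQ t l s n x) ≤ n * (G.dist x (t x) + c) := by
  induction n with
  | zero => simp [kQ]
  | succ n ih =>
    have h1 := dist_mul_le hG x (t⁻¹ * (if n ∈ s then l else 1)) (kQ t l s n)
    have h2 := dist_mul_le hG x t⁻¹ (if n ∈ s then l else 1)
    have h3 : G.dist x ((if n ∈ s then l else 1) x) ≤ c := by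
      split_ifs
      · exact hc
      · simp
    rw [dist_inv hG] at h2
    rw [Nat.succ_mul]
    simp only [kQ]
    omega

include hG in
/-- conjugates by all nonnegative powers of `t` lie in the group generated by boundedly many -/
lemma kern_side (t : G ≃g G) (L : Subgroup (G ≃g G)) (x : V) (c : ℕ)
    (hL : ∀ i : ℕ, ∀ a ∈ L, t ^ i * a * (t ^ i)⁻¹ ∈ L)
    (l₀ : G ≃g G) (hl₀ : l₀ ∈ L) (hl₀c : G.dist x (l₀ x) ≤ c) (hl₀x : l₀ x ≠ x) (n₀ : ℕ)
    (hn₀ : (bl hG x (n₀ * (G.dist x (t x) + c))).card < 2 ^ n₀) (j : ℕ) :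
    ∀ l ∈ L, G.dist x (l x) ≤ c →
      t ^ j * l * (t ^ j)⁻¹ ∈ kA t {l | l ∈ L ∧ G.dist x (l x) ≤ c} n₀ := by
  classical
  set E : Set (G ≃g G) := {l | l ∈ L ∧ G.dist x (l x) ≤ c} with hE
  induction j using Nat.strong_induction_on with
  | _ j ih =>
  have main : ∀ l ∈ L, G.dist x (l x) ≤ c → l x ≠ x → t ^ j * l * (t ^ j)⁻¹ ∈ kA t E n₀ := by
    intro l hl hlc hlx
    rcases lt_or_ge j n₀ with hj | hj
    · exact Subgroup.subset_closure ⟨j, hj, l, ⟨hl, hlc⟩, rfl⟩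
    have hcol : ∃ s ∈ (Finset.range n₀).powerset, ∃ s' ∈ (Finset.range n₀).powerset, s ≠ s' ∧
        kQ t l s n₀ x = kQ t l s' n₀ x := by
      apply Finset.exists_ne_map_eq_of_card_lt_of_maps_to (t := bl hG x (n₀ * (G.dist x (t x) + c)))
      · rw [Finset.card_powerset, Finset.card_range]
        exact hn₀
      · intro s _
        rw [Finset.mem_coe, mem_bl]
        exact dist_kQ_le hG x t l s c hlc n₀
    obtain ⟨s, hs, s', hs', hne, heq⟩ := hcol
    rw [Finset.mem_powerset] at hs hs'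
    have hdiff : ∃ i < n₀, ¬ (i ∈ s ↔ i ∈ s') := by
      by_contra hcon
      push Not at hcon
      apply hne
      ext i
      by_cases hi : i < n₀
      · exact hcon i hi
      · constructor
        · intro h
          exact absurd (Finset.mem_range.1 (hs h)) hi
        · intro h
          exact absurd (Finset.mem_range.1 (hs' h)) hi
    obtain ⟨p, hp, hp2⟩ := kQ_collide t l (E := E) ⟨hl, hlc⟩ L x hlx
      (fun i a ha => hL i a ha.1) (fun a ha hax => ⟨ha, by rw [hax]; simp⟩) n₀ s s' hdiff heq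
    have h1 : kA t E p ≤ (kA t E n₀).comap (MulAut.conj (t ^ (j - p))).toMonoidHom := by
      refine kA_le fun i hi a ha => ?_
      have h2 := ih (j - p + i) (by omega) a ha.1 ha.2
      rw [Subgroup.mem_comap]
      have h3 : (MulAut.conj (t ^ (j - p))).toMonoidHom (t ^ i * a * (t ^ i)⁻¹) =
          t ^ (j - p + i) * a * (t ^ (j - p + i))⁻¹ := by
        simp only [MulEquiv.toMonoidHom_eq_coe, MonoidHom.coe_coe, MulAut.conj_apply, pow_add]
        group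
      rw [h3]
      exact h2
    have h2 := h1 hp2
    rw [Subgroup.mem_comap] at h2
    have h3 : (MulAut.conj (t ^ (j - p))).toMonoidHom (t ^ p * l * (t ^ p)⁻¹) =
        t ^ j * l * (t ^ j)⁻¹ := by
      have h4 : t ^ j = t ^ (j - p) * t ^ p := by
        rw [← pow_add]
        congr 1
        omega
      simp only [MulEquiv.toMonoidHom_eq_coe, MonoidHom.coe_coe, MulAut.conj_apply, h4]
      group
    rw [h3] at h2
    exact h2
  intro l hl hlc
  by_cases hlx : l x = x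
  · have h1 := main l₀ hl₀ hl₀c hl₀x
    have h2 := main (l₀ * l) (mul_mem hl₀ hl) (by rw [RelIso.mul_apply, hlx]; exact hl₀c)
      (by rw [RelIso.mul_apply, hlx]; exact hl₀x)
    have h3 : t ^ j * l * (t ^ j)⁻¹ =
        (t ^ j * l₀ * (t ^ j)⁻¹)⁻¹ * (t ^ j * (l₀ * l) * (t ^ j)⁻¹) := by group
    rw [h3]
    exact mul_mem (inv_mem h1) h2
  · exact main l hl hlc hlx

/-- the kernel of the height homomorphism -/
def kerS (hs : HS G) : Subgroup (G ≃g G) where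
  carrier := {l | l ∈ hs.Γ ∧ hs.χ l = 0}
  mul_mem' := by
    rintro a b ⟨h1, h2⟩ ⟨h3, h4⟩
    exact ⟨mul_mem h1 h3, by rw [hs.mul a h1 b h3, h2, h4, add_zero]⟩
  one_mem' := by
    refine ⟨one_mem _, ?_⟩
    have h1 := hs.mul 1 (one_mem _) 1 (one_mem _)
    rw [mul_one] at h1
    omega
  inv_mem' := by
    rintro a ⟨h1, h2⟩
    refine ⟨inv_mem h1, ?_⟩
    have h3 := hs.mul a h1 a⁻¹ (inv_mem h1)
    have h4 := hs.mul 1 (one_mem _) 1 (one_mem _)
    rw [mul_one] at h4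
    rw [mul_inv_cancel, h2] at h3
    omega

lemma mem_kerS (hs : HS G) (l : G ≃g G) : l ∈ kerS hs ↔ l ∈ hs.Γ ∧ hs.χ l = 0 := Iff.rfl

lemma chi_one (hs : HS G) : hs.χ 1 = 0 := ((mem_kerS hs 1).1 (one_mem _)).2

lemma chi_inv (hs : HS G) {a : G ≃g G} (ha : a ∈ hs.Γ) : hs.χ a⁻¹ = - hs.χ a := by
  have h3 := hs.mul a ha a⁻¹ (inv_mem ha)
  rw [mul_inv_cancel, chi_one] at h3
  omega

lemma chi_pow (hs : HS G) {a : G ≃g G} (ha : a ∈ hs.Γ) (n : ℕ) : hs.χ (a ^ n) = n * hs.χ a := by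
  induction n with
  | zero => simp [chi_one]
  | succ n ih =>
    rw [pow_succ, hs.mul _ (pow_mem ha n) _ ha, ih]
    push_cast
    ring

lemma chi_zpow (hs : HS G) {a : G ≃g G} (ha : a ∈ hs.Γ) (k : ℤ) : hs.χ (a ^ k) = k * hs.χ a := by
  cases k with
  | ofNat n => simpa using chi_pow hs ha n
  | negSucc n =>
    rw [zpow_negSucc, chi_inv hs (pow_mem ha _), chi_pow hs ha]
    push_cast [Int.negSucc_eq]
    ring

lemma conj_mem_kerS (hs : HS G) {t a : G ≃g G} (ht : t ∈ hs.Γ) (ha : a ∈ kerS hs) :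
    t * a * t⁻¹ ∈ kerS hs := by
  refine ⟨mul_mem (mul_mem ht ha.1) (inv_mem ht), ?_⟩
  rw [hs.mul _ (mul_mem ht ha.1) _ (inv_mem ht), hs.mul _ ht _ ha.1, chi_inv hs ht, ha.2]
  omega

/-- minimal positive height -/
lemma exists_gen (hs : HS G) : ∃ t ∈ hs.Γ, 0 < hs.χ t ∧ ∀ g ∈ hs.Γ, ∃ k : ℤ, hs.χ g = k * hs.χ t := by
  classical
  have hex : ∃ n : ℕ, 0 < n ∧ ∃ g ∈ hs.Γ, hs.χ g = n := by
    obtain ⟨g, hg, hne⟩ := hs.ne
    rcases lt_or_gt_of_ne hne with h | h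
    · refine ⟨(-hs.χ g).toNat, by omega, g⁻¹, inv_mem hg, ?_⟩
      rw [chi_inv hs hg]; omega
    · exact ⟨(hs.χ g).toNat, by omega, g, hg, by omega⟩
  obtain ⟨h0, t, ht, hχ⟩ := Nat.find_spec hex
  refine ⟨t, ht, by omega, fun g hg => ⟨hs.χ g / hs.χ t, ?_⟩⟩
  have hpos : 0 < hs.χ t := by omega
  have h1 : hs.χ (g * t ^ (-(hs.χ g / hs.χ t))) = hs.χ g % hs.χ t := by
    rw [hs.mul _ hg _ (zpow_mem ht _), chi_zpow hs ht]
    have := Int.emod_add_mul_ediv (hs.χ g) (hs.χ t)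
    linarith [this, mul_comm (hs.χ g / hs.χ t) (hs.χ t)]
  have h2 : 0 ≤ hs.χ g % hs.χ t := Int.emod_nonneg _ hpos.ne'
  have h3 : hs.χ g % hs.χ t < hs.χ t := Int.emod_lt_of_pos _ hpos
  have h4 : hs.χ g % hs.χ t = 0 := by
    by_contra hne
    have h5 : (hs.χ g % hs.χ t).toNat < Nat.find hex := by omega
    refine Nat.find_min hex h5 ⟨by omega, g * t ^ (-(hs.χ g / hs.χ t)),
      mul_mem hg (zpow_mem ht _), ?_⟩
    rw [h1]; omega
  have h5 := Int.emod_add_mul_ediv (hs.χ g) (hs.χ t)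
  rw [h4, zero_add] at h5
  rw [mul_comm]; exact h5.symm

include hG in
/-- the orbit of the finite index subgroup is coarsely dense -/
lemma exists_near (hs : HS G) (x : V) : ∃ R : ℕ, ∀ v, ∃ γ ∈ hs.Γ, G.dist v (γ x) ≤ R := by
  classical
  have := hs.fi
  have := hs.nor
  have hfin : Finite ((G ≃g G) ⧸ hs.Γ) := Subgroup.finite_quotient_of_finiteIndex
  obtain ⟨R, hR⟩ := (Set.finite_range
    (fun q : (G ≃g G) ⧸ hs.Γ => G.dist x (q.out x))).bddAbove
  refine ⟨R, fun v => ?_⟩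
  obtain ⟨g, rfl⟩ := hG.tr x v
  set q : (G ≃g G) ⧸ hs.Γ := QuotientGroup.mk g with hq
  have h1 : (q.out)⁻¹ * g ∈ hs.Γ := by
    rw [← QuotientGroup.eq, QuotientGroup.out_eq']
  have h2 : g * (q.out)⁻¹ ∈ hs.Γ := by
    have h3 := hs.nor.conj_mem _ h1 (q.out)
    have h4 : q.out * ((q.out)⁻¹ * g) * (q.out)⁻¹ = g * (q.out)⁻¹ := by group
    rwa [h4] at h3
  refine ⟨g * (q.out)⁻¹, h2, ?_⟩
  have h5 : G.dist (g x) ((g * (q.out)⁻¹) x) = G.dist x (q.out x) := by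
    rw [RelIso.mul_apply, dist_iso hG.conn, dist_inv hG]
  rw [h5]
  exact hR ⟨q, rfl⟩

include hG in
theorem kern_chain (hs : HS G) (o : V) (D : ℕ) (hpg : PG hG o D) (x : V) :
    ∃ C : ℕ, ∀ y ∈ orbK hs x, Relation.ReflTransGen
      (fun a b : V => a ∈ orbK hs x ∧ b ∈ orbK hs x ∧ G.dist a b ≤ C) x y := by
  classical
  by_cases htriv : ∀ l ∈ kerS hs, l x = x
  · refine ⟨0, ?_⟩
    rintro y ⟨l, hl, hl0, rfl⟩
    rw [htriv l ⟨hl, hl0⟩]
  push Not at htriv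
  obtain ⟨l₀, hl₀, hl₀x⟩ := htriv
  obtain ⟨R, hR⟩ := exists_near hG hs x
  obtain ⟨t, ht, hχt, hgen⟩ := exists_gen hs
  -- the constant `c`
  let kk : V → ℤ := fun y => ⌊(hs.u y - hs.u x) / hs.χ t⌋
  let C₄ : ℕ := 2 * R + 1
  let C₅ : ℕ := (bl hG x C₄).sup fun y => G.dist x ((t ^ (-(kk y))) x)
  let c : ℕ := max (C₄ + C₅) (G.dist x (l₀ x))
  have hbd : ∀ γ ∈ hs.Γ, G.dist x (γ x) ≤ C₄ → ∃ k : ℤ, γ * t ^ (-k) ∈ kerS hs ∧
      G.dist x ((γ * t ^ (-k)) x) ≤ c := by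
    intro γ hγ hd
    obtain ⟨k, hk⟩ := hgen γ hγ
    refine ⟨k, ⟨mul_mem hγ (zpow_mem ht _), ?_⟩, ?_⟩
    · rw [hs.mul _ hγ _ (zpow_mem ht _), chi_zpow hs ht, hk]; ring
    · have h1 : kk (γ x) = k := by
        show ⌊(hs.u (γ x) - hs.u x) / hs.χ t⌋ = k
        rw [hs.equi γ hγ x, hk]
        have h2 : ((hs.χ t : ℤ) : ℝ) ≠ 0 := by
          have : (0 : ℝ) < (hs.χ t : ℝ) := by exact_mod_cast hχt
          exact this.ne'
        have h3 : (hs.u x + ((k * hs.χ t : ℤ) : ℝ) - hs.u x) / ((hs.χ t : ℤ) : ℝ) = (k : ℝ) := by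
          push_cast
          field_simp
          ring
        rw [h3, Int.floor_intCast]
      have h2 : G.dist x ((t ^ (-(kk (γ x)))) x) ≤ C₅ :=
        Finset.le_sup (f := fun y => G.dist x ((t ^ (-(kk y))) x))
          ((mem_bl hG x (γ x) C₄).2 hd)
      rw [h1] at h2
      have h3 := dist_mul_le hG x γ (t ^ (-k))
      have h4 : C₄ + C₅ ≤ c := le_max_left _ _
      omega
  -- growth
  have hgrow : ∀ K : ℕ, ∃ n : ℕ, (bl hG x (n * K)).card < 2 ^ n := by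
    intro K
    obtain ⟨A, hA0, hA⟩ := subexp hG o D hpg ((2 : ℝ) ^ ((1 : ℝ) / (2 * (K + 1))))
      (Real.one_lt_rpow (by norm_num) (by positivity))
    obtain ⟨m, hm⟩ := pow_unbounded_of_one_lt A (by norm_num : (1 : ℝ) < 2)
    refine ⟨2 * m, ?_⟩
    have h1 := hA (2 * m * K)
    rw [card_bl hG o x] at h1
    have h2 : ((2 : ℝ) ^ ((1 : ℝ) / (2 * (K + 1)))) ^ (2 * m * K) ≤ 2 ^ m := by
      rw [← Real.rpow_natCast, ← Real.rpow_mul (by norm_num), ← Real.rpow_natCast 2 m]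
      apply Real.rpow_le_rpow_of_exponent_le (by norm_num)
      rw [div_mul_eq_mul_div, one_mul, div_le_iff₀ (by positivity)]
      push_cast
      nlinarith [(Nat.cast_nonneg m : (0 : ℝ) ≤ m), (Nat.cast_nonneg K : (0 : ℝ) ≤ K)]
    have h3 : ((bl hG x (2 * m * K)).card : ℝ) < 2 ^ (2 * m) := by
      calc ((bl hG x (2 * m * K)).card : ℝ) ≤ A * _ := h1
        _ ≤ A * 2 ^ m := mul_le_mul_of_nonneg_left h2 hA0.le
        _ < 2 ^ m * 2 ^ m := by
          apply mul_lt_mul_of_pos_right hm (by positivity)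
        _ = 2 ^ (2 * m) := by rw [← pow_add]; congr 1; ring
    exact_mod_cast h3
  obtain ⟨n₁, hn₁⟩ := hgrow (G.dist x (t x) + c)
  have hLt : ∀ i : ℕ, ∀ a ∈ kerS hs, t ^ i * a * (t ^ i)⁻¹ ∈ kerS hs :=
    fun i a ha => conj_mem_kerS hs (pow_mem ht i) ha
  have hLt' : ∀ i : ℕ, ∀ a ∈ kerS hs, t⁻¹ ^ i * a * (t⁻¹ ^ i)⁻¹ ∈ kerS hs :=
    fun i a ha => conj_mem_kerS hs (pow_mem (inv_mem ht) i) ha
  have hside := kern_side hG t (kerS hs) x c hLt l₀ hl₀ (le_max_right _ _) hl₀x n₁ hn₁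
  have hside' := kern_side hG t⁻¹ (kerS hs) x c hLt' l₀ hl₀ (le_max_right _ _) hl₀x n₁
    (by rw [dist_inv hG]; exact hn₁)
  let C : ℕ := 2 * (n₁ * G.dist x (t x)) + c
  let B : Subgroup (G ≃g G) := Subgroup.closure {l | l ∈ kerS hs ∧ G.dist x (l x) ≤ C}
  have hB : ∀ s : G ≃g G, (∀ i : ℕ, ∀ a ∈ kerS hs, s ^ i * a * (s ^ i)⁻¹ ∈ kerS hs) →
      G.dist x (s x) = G.dist x (t x) →
      kA s {l | l ∈ kerS hs ∧ G.dist x (l x) ≤ c} n₁ ≤ B := by
    intro s h1 h2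
    refine kA_le fun i hi a ha => Subgroup.subset_closure ⟨h1 i a ha.1, ?_⟩
    have h3 := dist_mul_le hG x (s ^ i * a) (s ^ i)⁻¹
    have h4 := dist_mul_le hG x (s ^ i) a
    have h5 := kern_dist_pow_le hG x s i
    rw [dist_inv hG] at h3
    rw [h2] at h5
    have h6 : i * G.dist x (t x) ≤ n₁ * G.dist x (t x) := Nat.mul_le_mul_right _ hi.le
    have h7 := ha.2
    show _ ≤ 2 * (n₁ * G.dist x (t x)) + c
    omega
  have hconj : ∀ k : ℤ, ∀ l ∈ kerS hs, G.dist x (l x) ≤ c → t ^ k * l * (t ^ k)⁻¹ ∈ B := by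
    intro k l hl hlc
    cases k with
    | ofNat n =>
      have := hB t hLt rfl (hside n l hl hlc)
      simpa using this
    | negSucc n =>
      have := hB t⁻¹ hLt' (dist_inv hG x t) (hside' (n + 1) l hl hlc)
      simpa [zpow_negSucc] using this
  -- every element of Γ is `b t ^ k`
  have hall : ∀ γ ∈ hs.Γ, ∃ b ∈ B, ∃ k : ℤ, γ = b * t ^ k := by
    have hstep : ∀ γ' ∈ hs.Γ, (∃ b ∈ B, ∃ k : ℤ, γ' = b * t ^ k) → ∀ γ ∈ hs.Γ,
        G.dist (γ' x) (γ x) ≤ C₄ → ∃ b ∈ B, ∃ k : ℤ, γ = b * t ^ k := by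
      rintro γ' hγ' ⟨b, hb, k, rfl⟩ γ hγ hd
      have h1 : G.dist x (((b * t ^ k)⁻¹ * γ) x) ≤ C₄ := by
        have h2 := dist_iso hG.conn (b * t ^ k) x (((b * t ^ k)⁻¹ * γ) x)
        rw [← RelIso.mul_apply, mul_inv_cancel_left] at h2
        rw [← h2]; exact hd
      obtain ⟨m, hm1, hm2⟩ := hbd _ (mul_mem (inv_mem hγ') hγ) h1
      have h3 := hconj k _ hm1 hm2
      refine ⟨b * (t ^ k * ((b * t ^ k)⁻¹ * γ * t ^ (-m)) * (t ^ k)⁻¹), mul_mem hb h3, k + m, ?_⟩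
      rw [zpow_add]
      group
    have hwalk : ∀ v, ∀ γ ∈ hs.Γ, G.dist v (γ x) ≤ R → ∃ b ∈ B, ∃ k : ℤ, γ = b * t ^ k := by
      intro v
      have hr : G.Reachable x v := hG.conn.preconnected x v
      obtain ⟨w⟩ := hr.symm
      have : ∀ (a b : V) (w : G.Walk a b), b = x →
          ∀ γ ∈ hs.Γ, G.dist a (γ x) ≤ R → ∃ b ∈ B, ∃ k : ℤ, γ = b * t ^ k := by
        intro a b w
        induction w with
        | nil =>
          rintro rfl γ hγ hd
          refine hstep 1 (one_mem _) ⟨1, one_mem _, 0, by simp⟩ γ hγ ?_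
          show G.dist _ _ ≤ 2 * R + 1
          simp only [RelIso.coe_one, id]
          omega
        | @cons a a' b hadj w ih =>
          rintro hb γ hγ hd
          obtain ⟨γ', hγ', hd'⟩ := hR a'
          refine hstep γ' hγ' (ih hb γ' hγ' hd') γ hγ ?_
          have h1 := hG.tri (γ' x) a' (γ x)
          have h2 := hG.tri a' a (γ x)
          have h3 : G.dist a' a = 1 := SimpleGraph.dist_eq_one_iff_adj.2 hadj.symm
          rw [SimpleGraph.dist_comm] at hd'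
          show _ ≤ 2 * R + 1
          omega
      exact this v x w rfl
    intro γ hγ
    exact hwalk (γ x) γ hγ (by simp)
  refine ⟨C, ?_⟩
  -- chains
  set rel : V → V → Prop := fun a b : V => a ∈ orbK hs x ∧ b ∈ orbK hs x ∧ G.dist a b ≤ C with hrel
  have hmap : ∀ l ∈ kerS hs, ∀ a b, Relation.ReflTransGen rel a b →
      Relation.ReflTransGen rel (l a) (l b) := by
    intro l hl a b h
    refine Relation.ReflTransGen.lift (p := rel) l ?_ a b h
    rintro p q ⟨⟨l1, h1, h2, rfl⟩, ⟨l2, h3, h4, rfl⟩, h5⟩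
    have e1 : l * l1 ∈ kerS hs := mul_mem hl ⟨h1, h2⟩
    have e2 : l * l2 ∈ kerS hs := mul_mem hl ⟨h3, h4⟩
    exact ⟨⟨l * l1, e1.1, e1.2, rfl⟩, ⟨l * l2, e2.1, e2.2, rfl⟩, by
      rw [dist_iso hG.conn]; exact h5⟩
  have hsymm : ∀ a b, rel a b → rel b a := by
    rintro a b ⟨h1, h2, h3⟩
    exact ⟨h2, h1, by rw [SimpleGraph.dist_comm]; exact h3⟩
  have hchain : ∀ b ∈ B, b ∈ kerS hs ∧ Relation.ReflTransGen rel x (b x) := by
    intro b hb
    induction hb using Subgroup.closure_induction with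
    | mem l hl =>
      refine ⟨hl.1, Relation.ReflTransGen.single ⟨⟨1, one_mem _, chi_one hs, rfl⟩,
        ⟨l, hl.1.1, hl.1.2, rfl⟩, hl.2⟩⟩
    | one => exact ⟨one_mem _, Relation.ReflTransGen.refl⟩
    | mul a b _ _ ha hb =>
      refine ⟨mul_mem ha.1 hb.1, ha.2.trans ?_⟩
      exact hmap a ha.1 _ _ hb.2
    | inv a _ ha =>
      refine ⟨inv_mem ha.1, ?_⟩
      have h1 : Relation.ReflTransGen rel (a x) x := by
        have h2 := ha.2
        have : Std.Symm rel := ⟨hsymm⟩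
        exact symm h2
      have h3 := hmap a⁻¹ (inv_mem ha.1) _ _ h1
      have h4 : a⁻¹ (a x) = x := a.symm_apply_apply x
      rwa [h4] at h3
  rintro y ⟨l, hl, hl0, rfl⟩
  obtain ⟨b, hb, k, hk⟩ := hall l hl
  have hbk := hchain b hb
  have h1 : hs.χ l = k * hs.χ t := by
    rw [hk, hs.mul _ hbk.1.1 _ (zpow_mem ht _), chi_zpow hs ht, hbk.1.2, zero_add]
  have hk0 : k = 0 := by
    rw [hl0] at h1
    rcases mul_eq_zero.1 h1.symm with h | h
    · exact h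
    · omega
  rw [hk, hk0, zpow_zero, mul_one]
  exact hbk.2

end KERN

end Pool.H61.ST

end S_H61_ST_Kern

section S_H61_ST_Slab

set_option autoImplicit false

/-! Module SLAB: the kernel orbit is a quasi-line. -/

namespace Pool.H61.ST

open Finset Pool.Agent.H61.SW Pool.H98.C Filter

variable {V : Type} {G : SimpleGraph V} (hG : TG G)

theorem h59_orbK_self (hs : HS G) (x : V) : x ∈ orbK hs x := by
  refine ⟨1, hs.Γ.one_mem, ?_, rfl⟩
  have := hs.mul 1 hs.Γ.one_mem 1 hs.Γ.one_mem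
  rw [one_mul] at this
  omega

theorem h59_chi_inv (hs : HS G) (g : G ≃g G) (hg : g ∈ hs.Γ) : hs.χ g⁻¹ = - hs.χ g := by
  have h1 := hs.mul g hg g⁻¹ (hs.Γ.inv_mem hg)
  have h2 := hs.mul 1 hs.Γ.one_mem 1 hs.Γ.one_mem
  rw [one_mul] at h2
  rw [mul_inv_cancel] at h1
  omega

/-- elements of the kernel act on the orbit -/
theorem h59_orbK_act (hs : HS G) (x : V) (l : G ≃g G) (hl : l ∈ hs.Γ) (hχ : hs.χ l = 0) (y : V) :
    l y ∈ orbK hs x ↔ y ∈ orbK hs x := by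
  constructor
  · rintro ⟨k, hk, hk0, hkx⟩
    refine ⟨l⁻¹ * k, hs.Γ.mul_mem (hs.Γ.inv_mem hl) hk, ?_, ?_⟩
    · rw [hs.mul _ (hs.Γ.inv_mem hl) _ hk, h59_chi_inv hs l hl, hχ, hk0]; rfl
    · show l⁻¹ (k x) = y
      rw [hkx]
      exact l.symm_apply_apply y
  · rintro ⟨k, hk, hk0, hkx⟩
    refine ⟨l * k, hs.Γ.mul_mem hl hk, ?_, ?_⟩
    · rw [hs.mul _ hl _ hk, hχ, hk0]; rfl
    · show l (k x) = l y
      rw [hkx]

/-- the induced automorphism of the slab graph -/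
noncomputable def h59_slabAut (hG : TG G) (hs : HS G) (x : V) (C : ℕ) (l : G ≃g G) (hl : l ∈ hs.Γ)
    (hχ : hs.χ l = 0) : slab hs x C ≃g slab hs x C where
  toEquiv := l.toEquiv.subtypeEquiv (fun y => (h59_orbK_act hs x l hl hχ y).symm)
  map_rel_iff' := by
    intro a b
    show (_ ≠ _ ∧ G.dist (l a) (l b) ≤ C) ↔ (a ≠ b ∧ G.dist (a : V) b ≤ C)
    rw [dist_iso hG.conn]
    constructor
    · rintro ⟨h1, h2⟩
      refine ⟨fun h => h1 ?_, h2⟩
      rw [h]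
    · rintro ⟨h1, h2⟩
      refine ⟨fun h => h1 ?_, h2⟩
      exact (Equiv.injective _) h

theorem h59_slab_TG (hG : TG G) (hs : HS G) (x : V) (C : ℕ)
    (hC : ∀ y ∈ orbK hs x, Relation.ReflTransGen
      (fun a b : V => a ∈ orbK hs x ∧ b ∈ orbK hs x ∧ G.dist a b ≤ C) x y) :
    TG (slab hs x C) := by
  have hx := h59_orbK_self hs x
  refine ⟨?_, ?_, ?_⟩
  · have key : ∀ y, Relation.ReflTransGen
        (fun a b : V => a ∈ orbK hs x ∧ b ∈ orbK hs x ∧ G.dist a b ≤ C) x y →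
        ∀ hy : y ∈ orbK hs x, (slab hs x C).Reachable ⟨x, hx⟩ ⟨y, hy⟩ := by
      intro y h
      induction h with
      | refl => intro hy; exact SimpleGraph.Reachable.refl _
      | tail h1 h2 ih =>
        intro hy
        refine (ih h2.1).trans ?_
        rename_i b c
        by_cases hbc : b = c
        · subst hbc; exact SimpleGraph.Reachable.refl _
        · have : (slab hs x C).Adj ⟨b, h2.1⟩ ⟨c, hy⟩ :=
            ⟨fun h => hbc (congrArg Subtype.val h), h2.2.2⟩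
          exact this.reachable
    have : Nonempty ↥(orbK hs x) := ⟨⟨x, hx⟩⟩
    refine SimpleGraph.Connected.mk ?_
    intro a b
    exact ((key a (hC a a.2) a.2).symm).trans (key b (hC b b.2) b.2)
  · intro v
    have h1 : ((fun y : ↥(orbK hs x) => (y : V)) '' (slab hs x C).neighborSet v).Finite := by
      refine (Finset.finite_toSet (bl hG v C)).subset ?_
      rintro _ ⟨y, hy, rfl⟩
      rw [Finset.mem_coe, mem_bl]
      exact hy.2
    exact Set.Finite.of_finite_image h1 (Subtype.val_injective.injOn)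
  · intro u v
    obtain ⟨k, hk, hk0, hku⟩ := u.2
    obtain ⟨m, hm, hm0, hmv⟩ := v.2
    refine ⟨h59_slabAut hG hs x C (m * k⁻¹) (hs.Γ.mul_mem hm (hs.Γ.inv_mem hk)) ?_, ?_⟩
    · rw [hs.mul _ hm _ (hs.Γ.inv_mem hk), h59_chi_inv hs k hk, hk0, hm0]; rfl
    · apply Subtype.ext
      show (m * k⁻¹) (u : V) = v
      rw [← hku, ← hmv]
      show m (k.symm (k x)) = m x
      rw [k.symm_apply_apply]

theorem h59_slab_dist (hG : TG G) (hs : HS G) (x : V) (C : ℕ) (hT : TG (slab hs x C))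
    (y z : ↥(orbK hs x)) : G.dist (y : V) z ≤ C * (slab hs x C).dist y z := by
  have key : ∀ (s : List ↥(orbK hs x)) (y : ↥(orbK hs x)), ch (slab hs x C) y s →
      G.dist (y : V) ((en y s : ↥(orbK hs x)) : V) ≤ C * s.length := by
    intro s
    induction s with
    | nil => intro y _; simp
    | cons a s ih =>
      intro y h
      have h1 := ih a h.2
      have h2 : G.dist (y : V) a ≤ C := h.1.2
      have h3 := hG.tri (y : V) a ((en a s : ↥(orbK hs x)) : V)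
      rw [en_cons, List.length_cons, mul_add, mul_one]
      omega
  have := key (geo hT y z) y (ch_geo hT y z)
  rwa [en_geo, length_geo] at this

theorem slab_ql (hs : HS G) (o : V) (D : ℕ) (hpg : PG hG o D) (x : V)
    (hquad : ∃ F : ℝ, ∀ N : ℕ, ∃ r ≥ N, ((bl hG o r).card : ℝ) ≤ F * (r : ℝ) ^ 2)
    (hinf : (orbK hs x).Infinite) :
    ∃ (C : ℕ) (f : ↥(orbK hs x) → ℤ) (C' : ℕ), TG (slab hs x C) ∧ QLn (slab hs x C) f C' := by
  obtain ⟨C, hC⟩ := kern_chain hG hs o D hpg x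
  have hT := h59_slab_TG hG hs x C hC
  have hx := h59_orbK_self hs x
  have : Infinite ↥(orbK hs x) := hinf.to_subtype
  rcases thin_or_quad hT inferInstance ⟨x, hx⟩ with ⟨f, C', hf⟩ | hq
  · exact ⟨C, f, C', hT, hf⟩
  exfalso
  obtain ⟨A, hA⟩ := orb_linear hG hs o x hquad
  have hC1 : 1 ≤ C := by
    by_contra h0
    have h00 : C = 0 := by omega
    subst h00
    -- every vertex of the orbit equals `x`
    obtain ⟨y, hy, hxy⟩ := hinf.exists_notMem_finset {x}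
    rw [Finset.mem_singleton] at hxy
    have key : ∀ y, Relation.ReflTransGen
        (fun a b : V => a ∈ orbK hs x ∧ b ∈ orbK hs x ∧ G.dist a b ≤ 0) x y → y = x := by
      intro y h
      induction h with
      | refl => rfl
      | tail h1 h2 ih =>
        rename_i b c
        have h3 : G.dist b c = 0 := by omega
        have h4 := (hG.conn.dist_eq_zero_iff).1 h3
        rw [← h4, ih]
    exact hxy (key y (hC y hy))
  -- compare the balls
  have hball : ∀ R r : ℕ, C * R ≤ r → (bl hT ⟨x, hx⟩ R).card ≤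
      Set.ncard {y | y ∈ orbK hs x ∧ G.dist x y ≤ r} := by
    intro R r hRr
    have hfin : {y | y ∈ orbK hs x ∧ G.dist x y ≤ r}.Finite :=
      (ball_finite hG.lf hG.conn x r).subset fun y hy => hy.2
    rw [Set.ncard_eq_toFinset_card _ hfin]
    refine Finset.card_le_card_of_injOn (fun y => (y : V)) ?_ (Subtype.val_injective.injOn)
    intro y hy
    rw [Finset.mem_coe, mem_bl] at hy
    simp only [Finset.mem_coe, Set.Finite.mem_toFinset, Set.mem_ofPred_eq]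
    refine ⟨y.2, ?_⟩
    refine (h59_slab_dist hG hs x C hT ⟨x, hx⟩ y).trans ?_
    exact (Nat.mul_le_mul_left C hy).trans hRr
  obtain ⟨N, hN⟩ := exists_nat_gt (4 * |A| * C + 4)
  obtain ⟨r, hr, hrA⟩ := hA (C * (N + 1))
  set R := r / C with hR
  have h1 : C * R ≤ r := Nat.mul_div_le r C
  have h2 : r < C * (R + 1) := Nat.lt_mul_div_succ r (by omega)
  have h3 : N + 1 ≤ R := by
    rw [hR, Nat.le_div_iff_mul_le (by omega), mul_comm]
    exact hr
  have h4 := hq R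
  have h5 : ((bl hT ⟨x, hx⟩ R).card : ℝ) ≤ A * r := by
    refine le_trans ?_ hrA
    exact_mod_cast hball R r h1
  have h6 : A * (r : ℝ) ≤ |A| * (C * (R + 1)) := by
    have h7 : (r : ℝ) ≤ C * (R + 1) := by exact_mod_cast h2.le
    calc A * (r : ℝ) ≤ |A| * r := mul_le_mul_of_nonneg_right (le_abs_self A) (Nat.cast_nonneg _)
      _ ≤ _ := mul_le_mul_of_nonneg_left h7 (abs_nonneg A)
  have h8 : ((N : ℝ) + 1) ≤ R := by exact_mod_cast h3
  have h9 : (0 : ℝ) ≤ |A| * C := by positivity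
  nlinarith

end Pool.H61.ST

end S_H61_ST_Slab

section S_H61_ST_QiCore

set_option autoImplicit false

/-! Core of module QI: quasi-isometric embeddings of the integers, abstract version. -/

namespace Pool.H61.ST

namespace Qi

/-- sequences with almost constant steps: linear growth -/
lemma seq_lin (φ : ℤ → ℤ) (τ K : ℤ) (h : ∀ n, |φ (n + 1) - φ n - τ| ≤ K) (n : ℤ) :
    |φ n - φ 0 - n * τ| ≤ |n| * K := by
  have hpos : ∀ n : ℕ, |φ n - φ 0 - n * τ| ≤ n * K := by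
    intro n
    induction n with
    | zero => simp
    | succ n ih =>
      have h1 := h n
      push_cast
      rw [abs_le] at *
      constructor <;> nlinarith [ih.1, ih.2, h1.1, h1.2]
  have hneg : ∀ n : ℕ, |φ (-n) - φ 0 - (-n) * τ| ≤ n * K := by
    intro n
    induction n with
    | zero => simp
    | succ n ih =>
      have h1 := h (-(n + 1))
      have h2 : (-((n : ℤ) + 1) + 1) = -n := by ring
      rw [h2] at h1
      push_cast
      have h3 : (-((n : ℤ) + 1)) = -1 + -(n : ℤ) := by ring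
      rw [abs_le] at *
      constructor <;> nlinarith [ih.1, ih.2, h1.1, h1.2]
  rcases le_total 0 n with hn | hn
  · obtain ⟨m, rfl⟩ := Int.eq_ofNat_of_zero_le hn
    rw [abs_of_nonneg hn]
    exact hpos m
  · obtain ⟨m, hm⟩ := Int.eq_ofNat_of_zero_le (neg_nonneg.2 hn)
    have h1 : n = -(m : ℤ) := by omega
    rw [abs_of_nonpos hn, h1, neg_neg]
    exact hneg m

/-- sequences with almost constant steps come close to every value -/
lemma seq_near_pos (φ : ℤ → ℤ) (τ K : ℤ) (h : ∀ n, |φ (n + 1) - φ n - τ| ≤ K) (hK : K < τ)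
    (v : ℤ) : ∃ m, |φ m - v| ≤ τ + K := by
  have hK0 : 0 ≤ K := le_trans (abs_nonneg _) (h 0)
  have hstep : ∀ n, φ n + 1 ≤ φ (n + 1) := fun n => by
    have := abs_le.1 (h n); omega
  have hup : ∀ n : ℕ, ∀ m : ℤ, φ m + n ≤ φ (m + n) := by
    intro n
    induction n with
    | zero => simp
    | succ n ih =>
      intro m
      have h1 := ih m
      have h2 := hstep (m + n)
      push_cast
      rw [← add_assoc, ← add_assoc]
      omega
  have hbd : ∃ b : ℤ, ∀ z : ℤ, φ z ≤ v → z ≤ b := by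
    refine ⟨|v - φ 0|, fun z hz => ?_⟩
    by_contra hlt
    push Not at hlt
    have h0 : 0 ≤ z := le_trans (abs_nonneg _) hlt.le
    obtain ⟨n, rfl⟩ := Int.eq_ofNat_of_zero_le h0
    have h1 := hup n 0
    rw [zero_add] at h1
    have h2 := le_abs_self (v - φ 0)
    have h3 : (Int.ofNat n : ℤ) = (n : ℤ) := rfl
    omega
  have hne : ∃ z : ℤ, φ z ≤ v := by
    refine ⟨-((v - φ 0).natAbs : ℤ), ?_⟩
    have h1 := hup (v - φ 0).natAbs (-((v - φ 0).natAbs : ℤ))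
    rw [neg_add_cancel] at h1
    omega
  obtain ⟨m, hm, hmax⟩ := Int.exists_greatest_of_bdd hbd hne
  refine ⟨m, ?_⟩
  have h1 : v < φ (m + 1) := by
    by_contra hle
    push Not at hle
    have := hmax _ hle
    omega
  have h2 := abs_le.1 (h m)
  rw [abs_le]
  omega

lemma seq_near (φ : ℤ → ℤ) (τ K : ℤ) (h : ∀ n, |φ (n + 1) - φ n - τ| ≤ K) (hK : K < |τ|)
    (v : ℤ) : ∃ m, |φ m - v| ≤ |τ| + K := by
  rcases le_total 0 τ with hτ | hτ
  · rw [abs_of_nonneg hτ] at hK ⊢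
    exact seq_near_pos φ τ K h hK v
  · rw [abs_of_nonpos hτ] at hK ⊢
    obtain ⟨m, hm⟩ := seq_near_pos (fun n => φ (-n)) (-τ) K (fun n => by
      have h1 := h (-(n + 1))
      have h2 : (-((n : ℤ) + 1) + 1) = -n := by ring
      rw [h2] at h1
      rw [abs_le] at *
      constructor <;> linarith [h1.1, h1.2]) hK v
    exact ⟨-m, hm⟩

/-- subadditive sequences bounded below by a linear function: lower and upper linear bounds with
ratio two -/
lemma two_sided (D : ℕ → ℕ) (hsub : ∀ m n, D (m + n) ≤ D m + D n) (h0 : D 0 = 0) (η : ℝ)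
    (hη : 0 < η) (hD : ∀ n : ℕ, η * n ≤ D n) :
    ∃ (ε M : ℝ), 0 < ε ∧ 0 ≤ M ∧ (∀ n : ℕ, ε * n ≤ D n) ∧ ∀ n : ℕ, (D n : ℝ) ≤ 2 * ε * n + M := by
  obtain ⟨ε, hε⟩ : ∃ ε : ℝ, ε = sInf {r : ℝ | ∃ n : ℕ, 1 ≤ n ∧ r = (D n : ℝ) / n} := ⟨_, rfl⟩
  have hne : {r : ℝ | ∃ n : ℕ, 1 ≤ n ∧ r = (D n : ℝ) / n}.Nonempty := ⟨_, 1, le_rfl, rfl⟩
  have hlow : η ≤ ε := by
    rw [hε]
    refine le_csInf hne ?_
    rintro r ⟨n, hn, rfl⟩
    have hn' : (0 : ℝ) < n := by exact_mod_cast hn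
    rw [le_div_iff₀ hn']
    exact hD n
  have hbdd : BddBelow {r : ℝ | ∃ n : ℕ, 1 ≤ n ∧ r = (D n : ℝ) / n} := by
    refine ⟨0, ?_⟩
    rintro r ⟨n, hn, rfl⟩
    positivity
  have hε0 : 0 < ε := lt_of_lt_of_le hη hlow
  obtain ⟨r, ⟨n₀, hn₀, rfl⟩, hr⟩ := exists_lt_of_csInf_lt hne (show sInf _ < 2 * ε by
    rw [← hε]; linarith)
  have hn₀' : (0 : ℝ) < n₀ := by exact_mod_cast hn₀
  rw [div_lt_iff₀ hn₀'] at hr
  have hmul : ∀ q m : ℕ, D (q * m) ≤ q * D m := by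
    intro q m
    induction q with
    | zero => simp [h0]
    | succ q ih =>
      have h1 : (q + 1) * m = q * m + m := by ring
      have h2 : (q + 1) * D m = q * D m + D m := by ring
      rw [h1, h2]
      exact (hsub _ _).trans (Nat.add_le_add_right ih _)
  refine ⟨ε, n₀ * D 1, hε0, by positivity, fun n => ?_, fun n => ?_⟩
  · rcases Nat.eq_zero_or_pos n with rfl | hn
    · simp
    · have hn' : (0 : ℝ) < n := by exact_mod_cast hn
      have h1 : ε ≤ (D n : ℝ) / n := by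
        rw [hε]
        exact csInf_le hbdd ⟨n, hn, rfl⟩
      rwa [le_div_iff₀ hn'] at h1
  · have h1 : n = (n / n₀) * n₀ + n % n₀ := (Nat.div_add_mod' n n₀).symm
    have h2 : D n ≤ (n / n₀) * D n₀ + (n % n₀) * D 1 := by
      calc D n = D ((n / n₀) * n₀ + n % n₀) := by rw [← h1]
        _ ≤ D ((n / n₀) * n₀) + D (n % n₀) := hsub _ _
        _ ≤ (n / n₀) * D n₀ + (n % n₀) * D 1 := by
            refine Nat.add_le_add (hmul _ _) ?_
            have := hmul (n % n₀) 1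
            rwa [mul_one] at this
    have h3 : (n % n₀) * D 1 ≤ n₀ * D 1 := Nat.mul_le_mul_right _ (Nat.mod_lt _ hn₀).le
    have h4 : (D n : ℝ) ≤ ((n / n₀ : ℕ) : ℝ) * D n₀ + n₀ * D 1 := by
      exact_mod_cast h2.trans (Nat.add_le_add_left h3 _)
    have h5 : ((n / n₀ : ℕ) : ℝ) * n₀ ≤ n := by
      exact_mod_cast Nat.div_mul_le_self n n₀
    have h6 : ((n / n₀ : ℕ) : ℝ) * D n₀ ≤ ((n / n₀ : ℕ) : ℝ) * (2 * ε * n₀) :=
      mul_le_mul_of_nonneg_left hr.le (by positivity)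
    nlinarith [h4, h5, h6, hε0]

end Qi

end Pool.H61.ST

end S_H61_ST_QiCore

section S_H61_ST_QiCore2

set_option autoImplicit false

/-! Core of module QI: the abstract statement. -/

namespace Pool.H61.ST

namespace Qi

section core
variable {A : Type} [Group A] {N : A → ℕ} {L : Subgroup A} {φ : A → ℤ}

/-- orientation preserving -/
def Pos (L : Subgroup A) (φ : A → ℤ) (Q : ℤ) (a : A) : Prop :=
  ∀ y ∈ L, ∀ z ∈ L, |φ (a * y) - φ (a * z) - (φ y - φ z)| ≤ Q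

/-- orientation reversing -/
def Neg (L : Subgroup A) (φ : A → ℤ) (Q : ℤ) (a : A) : Prop :=
  ∀ y ∈ L, ∀ z ∈ L, |φ (a * y) - φ (a * z) + (φ y - φ z)| ≤ Q

lemma pos_or_neg {K : ℕ}
    (I1 : ∀ a ∈ L, ∀ b ∈ L, ∀ c ∈ L, |(|φ (a * b) - φ (a * c)|) - (|φ b - φ c|)| ≤ (K : ℤ))
    {a : A} (ha : a ∈ L) : Pos L φ (9 * K) a ∨ Neg L φ (9 * K) a := by
  rcases coarse_sign (fun y : L => φ (a * y)) (fun y : L => φ y) K
    (fun y z => I1 a ha y y.2 z z.2) with h | h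
  · exact Or.inl fun y hy z hz => h ⟨y, hy⟩ ⟨z, hz⟩
  · exact Or.inr fun y hy z hz => h ⟨y, hy⟩ ⟨z, hz⟩

lemma pos_of_pos {K : ℕ}
    (I1 : ∀ a ∈ L, ∀ b ∈ L, ∀ c ∈ L, |(|φ (a * b) - φ (a * c)|) - (|φ b - φ c|)| ≤ (K : ℤ))
    (I3 : ∀ B : ℤ, ∃ l ∈ L, B < |φ l - φ 1|) {a : A} (ha : a ∈ L) {M : ℤ} (h : Pos L φ M a) :
    Pos L φ (9 * K) a := by
  rcases pos_or_neg I1 ha with h1 | h1
  · exact h1
  · exfalso
    obtain ⟨l, hl, hB⟩ := I3 (M + 9 * K)
    have h2 := h l hl 1 L.one_mem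
    have h3 := h1 l hl 1 L.one_mem
    have hM : 0 ≤ M := le_trans (abs_nonneg _) h2
    rw [abs_le] at h2 h3
    rw [lt_abs] at hB
    omega

lemma pos_mul {Q Q' : ℤ} {a b : A} (hb : b ∈ L) (h1 : Pos L φ Q a) (h2 : Pos L φ Q' b) :
    Pos L φ (Q + Q') (a * b) := by
  intro y hy z hz
  have h3 := h1 (b * y) (L.mul_mem hb hy) (b * z) (L.mul_mem hb hz)
  have h4 := h2 y hy z hz
  rw [mul_assoc, mul_assoc]
  rw [abs_le] at *
  omega

lemma neg_mul {Q Q' : ℤ} {a b : A} (hb : b ∈ L) (h1 : Neg L φ Q a) (h2 : Neg L φ Q' b) :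
    Pos L φ (Q + Q') (a * b) := by
  intro y hy z hz
  have h3 := h1 (b * y) (L.mul_mem hb hy) (b * z) (L.mul_mem hb hz)
  have h4 := h2 y hy z hz
  rw [mul_assoc, mul_assoc]
  rw [abs_le] at *
  omega

lemma neg_inv {Q : ℤ} {a : A} (ha : a ∈ L) (h : Neg L φ Q a) : Neg L φ Q a⁻¹ := by
  intro y hy z hz
  have h1 := h (a⁻¹ * y) (L.mul_mem (L.inv_mem ha) hy) (a⁻¹ * z) (L.mul_mem (L.inv_mem ha) hz)
  rw [mul_inv_cancel_left, mul_inv_cancel_left] at h1
  rw [abs_le] at *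
  omega

lemma sq_pos {K : ℕ}
    (I1 : ∀ a ∈ L, ∀ b ∈ L, ∀ c ∈ L, |(|φ (a * b) - φ (a * c)|) - (|φ b - φ c|)| ≤ (K : ℤ))
    (I3 : ∀ B : ℤ, ∃ l ∈ L, B < |φ l - φ 1|) {a : A} (ha : a ∈ L) :
    Pos L φ (9 * K) (a * a) := by
  rcases pos_or_neg I1 ha with h1 | h1
  · exact pos_of_pos I1 I3 (L.mul_mem ha ha) (pos_mul ha h1 h1)
  · exact pos_of_pos I1 I3 (L.mul_mem ha ha) (neg_mul ha h1 h1)

lemma exists_pos_large {K : ℕ}
    (I1 : ∀ a ∈ L, ∀ b ∈ L, ∀ c ∈ L, |(|φ (a * b) - φ (a * c)|) - (|φ b - φ c|)| ≤ (K : ℤ))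
    (I3 : ∀ B : ℤ, ∃ l ∈ L, B < |φ l - φ 1|) (B : ℤ) :
    ∃ l ∈ L, Pos L φ (9 * K) l ∧ B < |φ l - φ 1| := by
  obtain ⟨l, hl, hB⟩ := I3 B
  rcases pos_or_neg I1 hl with h1 | h1
  · exact ⟨l, hl, h1, hB⟩
  · obtain ⟨l', hl', hB'⟩ := I3 (|φ l - φ 1| + |B| + 9 * K)
    rcases pos_or_neg I1 hl' with h2 | h2
    · refine ⟨l', hl', h2, lt_of_le_of_lt ?_ hB'⟩
      have h3 := le_abs_self B
      have h4 := abs_nonneg (φ l - φ 1)
      omega
    · have hm := L.mul_mem hl (L.inv_mem hl')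
      have h3 : Pos L φ (9 * K) (l * l'⁻¹) :=
        pos_of_pos I1 I3 hm (neg_mul (L.inv_mem hl') h1 (neg_inv hl' h2))
      refine ⟨_, hm, h3, ?_⟩
      have h4 := h3 l' hl' 1 L.one_mem
      rw [inv_mul_cancel_right, mul_one] at h4
      have h5 := le_abs_self B
      rw [abs_le] at h4
      rw [lt_abs] at *
      rcases abs_cases (φ l - φ 1) with ⟨h6, h7⟩ | ⟨h6, h7⟩ <;> omega

lemma step_pow {Q : ℤ} {a : A} (ha : a ∈ L) (h : Pos L φ Q a) (n : ℤ) :
    |φ (a ^ (n + 1)) - φ (a ^ n) - (φ a - φ 1)| ≤ Q := by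
  have h1 := h (a ^ n) (L.zpow_mem ha n) 1 L.one_mem
  rw [mul_one] at h1
  have h2 : a ^ (n + 1) = a * a ^ n := by rw [add_comm, zpow_one_add]
  rw [h2]
  rw [abs_le] at *
  omega

end core

end Qi

end Pool.H61.ST

end S_H61_ST_QiCore2

section S_H61_ST_QiCore3

set_option autoImplicit false

/-! Core of module QI: the abstract theorem. -/

namespace Pool.H61.ST

namespace Qi

section core
variable {A : Type} [Group A]

lemma rate_upper {L : Subgroup A} {φ : A → ℤ} {Q : ℤ} {a : A} (ha : a ∈ L) (h : Pos L φ Q a)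
    (n : ℤ) : |φ (a ^ n) - φ 1| ≤ |n| * (|φ a - φ 1| + Q) := by
  have h1 := seq_lin (fun n => φ (a ^ n)) (φ a - φ 1) Q (step_pow ha h) n
  simp only [zpow_zero] at h1
  have h2 : |n * (φ a - φ 1)| = |n| * |φ a - φ 1| := abs_mul _ _
  have h3 : |φ (a ^ n) - φ 1| ≤ |φ (a ^ n) - φ 1 - n * (φ a - φ 1)| + |n * (φ a - φ 1)| := by
    have := abs_add_le (φ (a ^ n) - φ 1 - n * (φ a - φ 1)) (n * (φ a - φ 1))
    rwa [sub_add_cancel] at this
  rw [mul_add]
  linarith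

lemma rate_lower {L : Subgroup A} {φ : A → ℤ} {Q : ℤ} {a : A} (ha : a ∈ L) (h : Pos L φ Q a)
    (n : ℤ) : |n| * (|φ a - φ 1| - Q) ≤ |φ (a ^ n) - φ 1| := by
  have h1 := seq_lin (fun n => φ (a ^ n)) (φ a - φ 1) Q (step_pow ha h) n
  simp only [zpow_zero] at h1
  have h2 : |n * (φ a - φ 1)| = |n| * |φ a - φ 1| := abs_mul _ _
  have h3 : |n * (φ a - φ 1)| ≤ |φ (a ^ n) - φ 1 - n * (φ a - φ 1)| + |φ (a ^ n) - φ 1| := by
    have := abs_sub_le (n * (φ a - φ 1)) (φ (a ^ n) - φ 1) 0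
    rw [sub_zero, sub_zero, abs_sub_comm (n * (φ a - φ 1)) (φ (a ^ n) - φ 1)] at this
    exact this
  rw [mul_sub]
  linarith

theorem core (N : A → ℕ) (hN1 : N 1 = 0) (hmul : ∀ a b, N (a * b) ≤ N a + N b)
    (hinv : ∀ a, N a⁻¹ = N a) (L : Subgroup A) (g : A)
    (hgL : ∀ l ∈ L, ∀ j : ℤ, g ^ (-j) * l * g ^ j ∈ L) (φ : A → ℤ) (K C₁ : ℕ)
    (I1 : ∀ a ∈ L, ∀ b ∈ L, ∀ c ∈ L, |(|φ (a * b) - φ (a * c)|) - (|φ b - φ c|)| ≤ (K : ℤ))
    (I2 : ∀ a ∈ L, ∀ b ∈ L, (N (a⁻¹ * b) : ℤ) ≤ C₁ * (|φ a - φ b| + 1))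
    (I3 : ∀ B : ℤ, ∃ l ∈ L, B < |φ l - φ 1|)
    (I4 : ∀ s ∈ L, (∀ n : ℤ, |n| ≤ |φ (s ^ n) - φ 1|) →
      ∃ η : ℝ, 0 < η ∧ ∀ n : ℕ, η * n ≤ N (s ^ n)) :
    ∃ s ∈ L, ∃ C : ℕ, (∀ j : ℤ, N (g ^ (-j) * s * g ^ j) ≤ C) ∧
      (∀ j n : ℤ, |n| ≤ C * ((N (g ^ (-j) * s ^ n * g ^ j) : ℤ) + 1)) ∧
      ∀ j : ℤ, ∀ l ∈ L, ∃ n : ℤ, N ((g ^ (-j) * s ^ n * g ^ j)⁻¹ * l) ≤ C := by
  obtain ⟨Q, hQ⟩ : ∃ Q : ℤ, Q = 9 * K := ⟨_, rfl⟩
  have hQ0 : 0 ≤ Q := by rw [hQ]; positivity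
  obtain ⟨l₁, hl₁, hP₁, hB₁⟩ := exists_pos_large I1 I3 (10 * Q + 10)
  obtain ⟨s, hs⟩ : ∃ s, s = l₁ * l₁ := ⟨_, rfl⟩
  have hsL : s ∈ L := hs ▸ L.mul_mem hl₁ hl₁
  have hsP : Pos L φ Q s := by rw [hs, hQ]; exact sq_pos I1 I3 hl₁
  obtain ⟨T, hT⟩ : ∃ T : ℤ, T = |φ s - φ 1| := ⟨_, rfl⟩
  have hTbig : 19 * Q + 20 ≤ T := by
    have h1 := hP₁ l₁ hl₁ 1 L.one_mem
    rw [mul_one, ← hs, ← hQ] at h1
    rw [hT]
    rw [abs_le] at h1
    rw [lt_abs] at hB₁
    rcases abs_cases (φ s - φ 1) with ⟨h6, h7⟩ | ⟨h6, h7⟩ <;> omega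
  have hup := rate_upper hsL hsP
  have hlow := rate_lower hsL hsP
  rw [← hT] at hup hlow
  obtain ⟨η, hη, hD⟩ := I4 s hsL (fun n => by
    refine le_trans ?_ (hlow n)
    have h1 : 0 ≤ |n| := abs_nonneg n
    nlinarith)
  obtain ⟨ε, M, hε, hM, hDl, hDu⟩ := two_sided (fun n => N (s ^ n))
    (fun m n => by rw [pow_add]; exact hmul _ _) (by simp [hN1]) η hη hD
  have hNabs : ∀ m : ℤ, N (s ^ m) = N (s ^ m.natAbs) := by
    intro m
    rcases Int.natAbs_eq m with h | h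
    · conv_lhs => rw [h]
      rw [zpow_natCast]
    · conv_lhs => rw [h]
      rw [zpow_neg, hinv, zpow_natCast]
  have hNl : ∀ m : ℤ, ε * |(m : ℝ)| ≤ N (s ^ m) := by
    intro m
    have h1 := hDl m.natAbs
    rw [← hNabs, Nat.cast_natAbs, Int.cast_abs] at h1
    exact h1
  have hNu : ∀ m : ℤ, (N (s ^ m) : ℝ) ≤ 2 * ε * |(m : ℝ)| + M := by
    intro m
    have h1 := hDu m.natAbs
    rw [← hNabs, Nat.cast_natAbs, Int.cast_abs] at h1
    exact h1
  -- near points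
  obtain ⟨E, hE⟩ : ∃ E : ℤ, E = C₁ * (T + Q + 1) := ⟨_, rfl⟩
  have hE0 : 0 ≤ E := by rw [hE]; exact mul_nonneg (by positivity) (by omega)
  have hnear : ∀ l ∈ L, ∃ m : ℤ, |φ (s ^ m) - φ l| ≤ T + Q ∧ (N (s ^ m) : ℤ) ≤ N l + E ∧
      (N l : ℤ) ≤ N (s ^ m) + E := by
    intro l hl
    obtain ⟨m, hm⟩ := seq_near (fun n => φ (s ^ n)) (φ s - φ 1) Q (step_pow hsL hsP)
      (by rw [← hT]; omega) (φ l)
    rw [← hT] at hm
    have h1 := I2 (s ^ m) (L.zpow_mem hsL m) l hl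
    have h2 : (C₁ : ℤ) * (|φ (s ^ m) - φ l| + 1) ≤ E := by
      rw [hE]
      exact mul_le_mul_of_nonneg_left (by omega) (by positivity)
    have h3 : N l ≤ N (s ^ m) + N ((s ^ m)⁻¹ * l) := by
      have := hmul (s ^ m) ((s ^ m)⁻¹ * l)
      rwa [mul_inv_cancel_left] at this
    have h4 : N (s ^ m) ≤ N l + N ((s ^ m)⁻¹ * l) := by
      have := hmul l (l⁻¹ * s ^ m)
      rw [mul_inv_cancel_left] at this
      have h5 : (l⁻¹ * s ^ m) = ((s ^ m)⁻¹ * l)⁻¹ := by group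
      rwa [h5, hinv] at this
    refine ⟨m, hm, by omega, by omega⟩
  -- conjugates
  have key : ∀ j : ℤ, ∃ l, l = g ^ (-j) * s * g ^ j ∧ l ∈ L ∧ Pos L φ Q l ∧
      (∀ n : ℤ, l ^ n = g ^ (-j) * s ^ n * g ^ j) ∧ |φ l - φ 1| ≤ 2 * T + 3 * Q ∧
      T - 3 * Q ≤ 2 * |φ l - φ 1| := by
    intro j
    obtain ⟨l, hl⟩ : ∃ l, l = g ^ (-j) * s * g ^ j := ⟨_, rfl⟩
    have hlL : l ∈ L := hl ▸ hgL s hsL j
    have hlP : Pos L φ Q l := by
      have h1 : l = (g ^ (-j) * l₁ * g ^ j) * (g ^ (-j) * l₁ * g ^ j) := by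
        rw [hl, hs]; group
      rw [h1, hQ]
      exact sq_pos I1 I3 (hgL l₁ hl₁ j)
    have hpow : ∀ n : ℤ, l ^ n = g ^ (-j) * s ^ n * g ^ j := by
      intro n
      have h1 : g ^ j = (g ^ (-j))⁻¹ := by rw [zpow_neg, inv_inv]
      rw [hl, h1, conj_zpow]
    obtain ⟨c, hc⟩ : ∃ c : ℕ, c = N (g ^ j) + N (g ^ (-j)) := ⟨_, rfl⟩
    have hc1 : ∀ n : ℤ, N (l ^ n) ≤ N (s ^ n) + c := by
      intro n
      rw [hpow, hc]
      have h1 := hmul (g ^ (-j) * s ^ n) (g ^ j)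
      have h2 := hmul (g ^ (-j)) (s ^ n)
      omega
    have hc2 : ∀ n : ℤ, N (s ^ n) ≤ N (l ^ n) + c := by
      intro n
      have h0 : s ^ n = g ^ j * l ^ n * g ^ (-j) := by rw [hpow]; group
      conv_lhs => rw [h0]
      rw [hc]
      have h1 := hmul (g ^ j * l ^ n) (g ^ (-j))
      have h2 := hmul (g ^ j) (l ^ n)
      omega
    have hlup := rate_upper hlL hlP
    have hllow := rate_lower hlL hlP
    obtain ⟨t, ht⟩ : ∃ t : ℤ, t = |φ l - φ 1| := ⟨_, rfl⟩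
    rw [← ht] at hlup hllow
    have ht0 : 0 ≤ t := ht ▸ abs_nonneg _
    refine ⟨l, hl, hlL, hlP, hpow, ?_, ?_⟩
    · rw [← ht]
      by_contra hlt
      push Not at hlt
      -- for all `n`: `ε n ≤ const`
      have hall : ∀ n : ℕ, ε * n ≤ ε * (T + Q) + (T + Q) * (M + c + E) := by
        intro n
        obtain ⟨m, hm1, hm2, hm3⟩ := hnear (l ^ (n : ℤ)) (L.zpow_mem hlL _)
        have a1 := hllow n
        have a2 : |φ (l ^ (n : ℤ)) - φ 1| ≤ |φ (s ^ m) - φ 1| + (T + Q) := by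
          have := abs_sub_le (φ (l ^ (n : ℤ))) (φ (s ^ m)) (φ 1)
          rw [abs_sub_comm (φ (l ^ (n : ℤ))) (φ (s ^ m))] at this
          omega
        have a3 := hup m
        have a4 : (n : ℤ) * (t - Q) ≤ |m| * (T + Q) + (T + Q) := by
          rw [Nat.abs_cast] at a1
          omega
        have b1 := hNl m
        have b2 := hNu n
        have b3 := hc1 n
        have b4 : (N (s ^ m) : ℝ) ≤ N (l ^ (n : ℤ)) + E := by exact_mod_cast hm2
        have b5 : (N (l ^ (n : ℤ)) : ℝ) ≤ N (s ^ (n : ℤ)) + c := by exact_mod_cast b3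
        have b6 : |((n : ℤ) : ℝ)| = n := by simp
        rw [b6] at b2
        have b7 : ε * |(m : ℝ)| ≤ 2 * ε * n + (M + c + E) := by linarith
        have a5 : (n : ℝ) * (t - Q) ≤ |(m : ℝ)| * (T + Q) + (T + Q) := by exact_mod_cast a4
        have hTQ : (0 : ℝ) ≤ T + Q := by
          have : (0 : ℤ) ≤ T + Q := by omega
          exact_mod_cast this
        have c1 := mul_le_mul_of_nonneg_left a5 hε.le
        have c2 := mul_le_mul_of_nonneg_left b7 hTQ
        have c3 : (1 : ℝ) ≤ t - 3 * Q - 2 * T := by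
          have : (1 : ℤ) ≤ t - 3 * Q - 2 * T := by omega
          exact_mod_cast this
        have c4 : ε * n * 1 ≤ ε * n * (t - 3 * Q - 2 * T) :=
          mul_le_mul_of_nonneg_left c3 (by positivity)
        nlinarith [c1, c2, c4]
      obtain ⟨n, hn⟩ := exists_nat_gt ((ε * (T + Q) + (T + Q) * (M + c + E)) / ε)
      rw [div_lt_iff₀ hε] at hn
      have := hall n
      linarith
    · rw [← ht]
      by_contra hlt
      push Not at hlt
      have hall : ∀ n : ℕ, ε * n ≤ 2 * ε * (T + Q) + (T - Q) * (M + c + E) := by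
        intro n
        obtain ⟨m, hm1, hm2, hm3⟩ := hnear (l ^ (n : ℤ)) (L.zpow_mem hlL _)
        have a1 := hlup n
        have a2 : |φ (s ^ m) - φ 1| ≤ |φ (l ^ (n : ℤ)) - φ 1| + (T + Q) := by
          have := abs_sub_le (φ (s ^ m)) (φ (l ^ (n : ℤ))) (φ 1)
          omega
        have a3 := hlow m
        have a4 : |m| * (T - Q) ≤ (n : ℤ) * (t + Q) + (T + Q) := by
          rw [Nat.abs_cast] at a1
          omega
        have b1 := hNl n
        have b2 := hNu m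
        have b3 := hc2 n
        have b4 : (N (l ^ (n : ℤ)) : ℝ) ≤ N (s ^ m) + E := by exact_mod_cast hm3
        have b5 : (N (s ^ (n : ℤ)) : ℝ) ≤ N (l ^ (n : ℤ)) + c := by exact_mod_cast b3
        have b6 : |((n : ℤ) : ℝ)| = n := by simp
        rw [b6] at b1
        have b7 : ε * n ≤ 2 * ε * |(m : ℝ)| + (M + c + E) := by linarith
        have a5 : |(m : ℝ)| * (T - Q) ≤ (n : ℝ) * (t + Q) + (T + Q) := by exact_mod_cast a4
        have hTQ : (0 : ℝ) ≤ T - Q := by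
          have : (0 : ℤ) ≤ T - Q := by omega
          exact_mod_cast this
        have c1 := mul_le_mul_of_nonneg_left a5 (show (0 : ℝ) ≤ 2 * ε by positivity)
        have c2 := mul_le_mul_of_nonneg_left b7 hTQ
        have c3 : (1 : ℝ) ≤ T - 3 * Q - 2 * t := by
          have : (1 : ℤ) ≤ T - 3 * Q - 2 * t := by omega
          exact_mod_cast this
        have c4 : ε * n * 1 ≤ ε * n * (T - 3 * Q - 2 * t) :=
          mul_le_mul_of_nonneg_left c3 (by positivity)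
        nlinarith [c1, c2, c4]
      obtain ⟨n, hn⟩ := exists_nat_gt ((2 * ε * (T + Q) + (T - Q) * (M + c + E)) / ε)
      rw [div_lt_iff₀ hε] at hn
      have := hall n
      linarith
  -- constants
  obtain ⟨C₂, hC₂⟩ := exists_nat_ge (((T : ℝ) + Q) * (1 + E) / ε + (T + Q))
  obtain ⟨C₃, hC₃⟩ : ∃ C₃ : ℕ, (C₃ : ℤ) = C₁ * (2 * T + 4 * Q + 1) :=
    ⟨(C₁ * (2 * T + 4 * Q + 1)).toNat,
      Int.toNat_of_nonneg (mul_nonneg (by positivity) (by omega))⟩
  refine ⟨s, hsL, C₂ + C₃, fun j => ?_, fun j n => ?_, fun j l' hl' => ?_⟩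
  · obtain ⟨l, hl, hlL, hlP, hpow, hu, hlo⟩ := key j
    rw [← hl]
    have h1 := I2 1 L.one_mem l hlL
    rw [inv_one, one_mul, abs_sub_comm] at h1
    have h2 : (C₁ : ℤ) * (|φ l - φ 1| + 1) ≤ C₃ := by
      rw [hC₃]
      exact mul_le_mul_of_nonneg_left (by omega) (by positivity)
    omega
  · obtain ⟨l, hl, hlL, hlP, hpow, hu, hlo⟩ := key j
    rw [← hpow]
    obtain ⟨m, hm1, hm2, hm3⟩ := hnear (l ^ n) (L.zpow_mem hlL _)
    have a1 := rate_lower hlL hlP n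
    have a2 : |φ (l ^ n) - φ 1| ≤ |φ (s ^ m) - φ 1| + (T + Q) := by
      have := abs_sub_le (φ (l ^ n)) (φ (s ^ m)) (φ 1)
      rw [abs_sub_comm (φ (l ^ n)) (φ (s ^ m))] at this
      omega
    have a3 := hup m
    have a4 : |n| ≤ |n| * (|φ l - φ 1| - Q) := by
      have : 0 ≤ |n| := abs_nonneg n
      nlinarith
    have a5 : |n| ≤ |m| * (T + Q) + (T + Q) := by omega
    have a6 : (|n| : ℝ) ≤ |(m : ℝ)| * (T + Q) + (T + Q) := by exact_mod_cast a5
    have b1 := hNl m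
    have b4 : (N (s ^ m) : ℝ) ≤ N (l ^ n) + E := by exact_mod_cast hm2
    have hTQ : (0 : ℝ) ≤ T + Q := by
      have : (0 : ℤ) ≤ T + Q := by omega
      exact_mod_cast this
    have hE' : (0 : ℝ) ≤ E := by exact_mod_cast hE0
    have b5 : |(m : ℝ)| ≤ (N (l ^ n) + E) / ε := by
      rw [le_div_iff₀ hε, mul_comm]
      linarith
    have b6 : |(m : ℝ)| ≤ (N (l ^ n) + 1) * ((1 + E) / ε) := by
      refine b5.trans ?_
      rw [← mul_div_assoc, div_le_div_iff_of_pos_right hε]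
      have : (0 : ℝ) ≤ N (l ^ n) := by positivity
      nlinarith
    have b7 : (|n| : ℝ) ≤ C₂ * (N (l ^ n) + 1) := by
      have h1 := mul_le_mul_of_nonneg_right b6 hTQ
      have h2 : (0 : ℝ) ≤ N (l ^ n) := by positivity
      have h3 : (T + Q : ℝ) ≤ (T + Q) * (N (l ^ n) + 1) := by nlinarith
      have h4 : (((T : ℝ) + Q) * (1 + E) / ε + (T + Q)) * (N (l ^ n) + 1) ≤
          C₂ * (N (l ^ n) + 1) := mul_le_mul_of_nonneg_right hC₂ (by positivity)
      have h5 : (((T : ℝ) + Q) * (1 + E) / ε + (T + Q)) * (N (l ^ n) + 1) =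
          (N (l ^ n) + 1) * ((1 + E) / ε) * (T + Q) + (T + Q) * (N (l ^ n) + 1) := by ring
      linarith
    have b8 : |n| ≤ (C₂ : ℤ) * (N (l ^ n) + 1) := by exact_mod_cast b7
    push_cast
    have : (0 : ℤ) ≤ (C₃ : ℤ) * (N (l ^ n) + 1) := by positivity
    rw [add_mul]
    omega
  · obtain ⟨l, hl, hlL, hlP, hpow, hu, hlo⟩ := key j
    obtain ⟨n, hn⟩ := seq_near (fun n => φ (l ^ n)) (φ l - φ 1) Q (step_pow hlL hlP)
      (by omega) (φ l')
    refine ⟨n, ?_⟩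
    rw [← hpow]
    have h1 := I2 (l ^ n) (L.zpow_mem hlL n) l' hl'
    have h2 : (C₁ : ℤ) * (|φ (l ^ n) - φ l'| + 1) ≤ C₃ := by
      rw [hC₃]
      exact mul_le_mul_of_nonneg_left (by omega) (by positivity)
    omega

end core

end Qi

end Pool.H61.ST

end S_H61_ST_QiCore3

section S_H61_ST_Qi

set_option autoImplicit false

/-! Module QI: lattice coordinates in the quadratic case. -/

namespace Pool.H61.ST

open Finset Pool.Agent.H61.SW Pool.H98.C

namespace Qi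

section
variable {V : Type} {G : SimpleGraph V}

lemma chi_one (hs : HS G) : hs.χ 1 = 0 := by
  have h := hs.mul 1 hs.Γ.one_mem 1 hs.Γ.one_mem
  rw [mul_one] at h
  omega

lemma chi_inv (hs : HS G) {a : G ≃g G} (ha : a ∈ hs.Γ) : hs.χ a⁻¹ = -hs.χ a := by
  have h := hs.mul a ha a⁻¹ (hs.Γ.inv_mem ha)
  rw [mul_inv_cancel, chi_one] at h
  omega

lemma chi_pow (hs : HS G) {a : G ≃g G} (ha : a ∈ hs.Γ) (n : ℕ) :
    hs.χ (a ^ n) = n * hs.χ a := by
  induction n with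
  | zero => simp [chi_one]
  | succ n ih =>
    rw [pow_succ, hs.mul _ (hs.Γ.pow_mem ha n) _ ha, ih]
    push_cast; ring

lemma chi_zpow (hs : HS G) {a : G ≃g G} (ha : a ∈ hs.Γ) (n : ℤ) :
    hs.χ (a ^ n) = n * hs.χ a := by
  rcases le_total 0 n with hn | hn
  · obtain ⟨m, rfl⟩ := Int.eq_ofNat_of_zero_le hn
    exact chi_pow hs ha m
  · obtain ⟨m, hm⟩ := Int.eq_ofNat_of_zero_le (neg_nonneg.2 hn)
    have h1 : n = -(m : ℤ) := by omega
    rw [h1, zpow_neg, chi_inv hs (hs.Γ.zpow_mem ha _), zpow_natCast, chi_pow hs ha]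
    ring

/-- kernel of the height homomorphism -/
def kr (hs : HS G) : Subgroup (G ≃g G) where
  carrier := {l | l ∈ hs.Γ ∧ hs.χ l = 0}
  mul_mem' := fun {a b} ha hb => ⟨hs.Γ.mul_mem ha.1 hb.1, by
    rw [hs.mul a ha.1 b hb.1, ha.2, hb.2]; rfl⟩
  one_mem' := ⟨hs.Γ.one_mem, chi_one hs⟩
  inv_mem' := fun {a} ha => ⟨hs.Γ.inv_mem ha.1, by rw [chi_inv hs ha.1, ha.2]; rfl⟩

lemma mem_kr (hs : HS G) {l : G ≃g G} : l ∈ kr hs ↔ l ∈ hs.Γ ∧ hs.χ l = 0 := Iff.rfl

lemma conj_mem (hs : HS G) {g l : G ≃g G} (hg : g ∈ hs.Γ) (hl : l ∈ kr hs) (j : ℤ) :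
    g ^ (-j) * l * g ^ j ∈ kr hs := by
  have h1 := hs.Γ.zpow_mem hg (-j)
  have h2 := hs.Γ.zpow_mem hg j
  refine ⟨hs.Γ.mul_mem (hs.Γ.mul_mem h1 hl.1) h2, ?_⟩
  rw [hs.mul _ (hs.Γ.mul_mem h1 hl.1) _ h2, hs.mul _ h1 _ hl.1, hl.2, chi_zpow hs hg,
    chi_zpow hs hg]
  ring

lemma orb_mem (hs : HS G) (x : V) {l : G ≃g G} (hl : l ∈ kr hs) : l x ∈ orbK hs x :=
  ⟨l, hl.1, hl.2, rfl⟩

lemma orb_act (hs : HS G) (x : V) {l : G ≃g G} (hl : l ∈ kr hs) {y : V} (hy : y ∈ orbK hs x) :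
    l y ∈ orbK hs x := by
  obtain ⟨k, h1, h2, rfl⟩ := hy
  exact orb_mem hs x ((kr hs).mul_mem hl ⟨h1, h2⟩)

/-- the action of the kernel on the slab -/
def slabIso (hG : TG G) (hs : HS G) (x : V) (C : ℕ) (l : G ≃g G) (hl : l ∈ kr hs) :
    slab hs x C ≃g slab hs x C where
  toFun y := ⟨l y, orb_act hs x hl y.2⟩
  invFun y := ⟨(l⁻¹ : G ≃g G) y, orb_act hs x ((kr hs).inv_mem hl) y.2⟩
  left_inv y := Subtype.ext (RelIso.inv_apply_self l y)
  right_inv y := Subtype.ext (RelIso.apply_inv_self l y)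
  map_rel_iff' := by
    intro y z
    change ((⟨l y, orb_act hs x hl y.2⟩ : ↥(orbK hs x)) ≠ ⟨l z, orb_act hs x hl z.2⟩ ∧
      G.dist (l y) (l z) ≤ C) ↔ (y ≠ z ∧ G.dist (y : V) z ≤ C)
    rw [dist_iso hG.conn l]
    constructor
    · rintro ⟨h1, h2⟩
      exact ⟨fun h => h1 (by rw [h]), h2⟩
    · rintro ⟨h1, h2⟩
      refine ⟨fun h => h1 ?_, h2⟩
      have h3 : l (y : V) = l (z : V) := congrArg Subtype.val h
      exact Subtype.ext (l.injective h3)

lemma dist_slab (hG : TG G) (hs : HS G) (x : V) (C : ℕ) (hT : TG (slab hs x C))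
    (y z : ↥(orbK hs x)) : G.dist (y : V) z ≤ C * (slab hs x C).dist y z := by
  obtain ⟨p, hp⟩ := hT.conn.exists_walk_length_eq_dist y z
  rw [← hp]
  clear hp
  induction p with
  | nil => simp
  | cons h p ih =>
    rename_i u v w
    have h1 : G.dist (u : V) v ≤ C := h.2
    have h2 := hG.tri (u : V) v w
    rw [SimpleGraph.Walk.length_cons, mul_add, mul_one]
    omega

/-- heights are Lipschitz -/
lemma exists_lip (hG : TG G) (hs : HS G) (x : V) :
    ∃ Lp : ℝ, 0 ≤ Lp ∧ ∀ y z, |hs.u y - hs.u z| ≤ Lp * G.dist y z := by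
  classical
  obtain ⟨S, hS⟩ := exists_orbit_reps hG x hs.Γ hs.fi
  obtain ⟨Lp, hLp⟩ : ∃ Lp : ℝ, Lp = ∑ y ∈ S, ∑ z ∈ nb hG y, |hs.u y - hs.u z| := ⟨_, rfl⟩
  have hL0 : 0 ≤ Lp := by
    rw [hLp]
    exact Finset.sum_nonneg fun _ _ => Finset.sum_nonneg fun _ _ => abs_nonneg _
  have hadj : ∀ y z, G.Adj y z → |hs.u y - hs.u z| ≤ Lp := by
    intro y z hyz
    obtain ⟨y₀, hy₀, g, hg, hgy⟩ := hS y
    have h1 : |hs.u y - hs.u z| = |hs.u y₀ - hs.u (g z)| := by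
      rw [← hgy, hs.equi g hg, hs.equi g hg]
      congr 1; ring
    rw [h1, hLp]
    have h2 : g z ∈ nb hG y₀ := by
      rw [mem_nb, ← hgy]
      exact g.map_adj_iff.2 hyz
    refine le_trans ?_ (Finset.single_le_sum (f := fun y => ∑ z ∈ nb hG y, |hs.u y - hs.u z|)
      (fun _ _ => Finset.sum_nonneg fun _ _ => abs_nonneg _) hy₀)
    exact Finset.single_le_sum (f := fun z => |hs.u y₀ - hs.u z|) (fun _ _ => abs_nonneg _) h2
  refine ⟨Lp, hL0, fun y z => ?_⟩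
  obtain ⟨p, hp⟩ := hG.conn.exists_walk_length_eq_dist y z
  rw [← hp]
  clear hp
  induction p with
  | nil => simp
  | cons h p ih =>
    rename_i u v w
    have h1 := hadj u v h
    have h2 := abs_sub_le (hs.u u) (hs.u v) (hs.u w)
    rw [SimpleGraph.Walk.length_cons]
    push_cast
    rw [mul_add, mul_one]
    linarith

end

end Qi

section QI
variable {V : Type} {G : SimpleGraph V} (hG : TG G)

include hG in
theorem exists_lat (hs : HS G) (x : V) (hinf : (orbK hs x).Infinite)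
    (hlin : ∃ A : ℝ, ∀ N : ℕ, ∃ r ≥ N,
      ((Set.ncard {y | y ∈ orbK hs x ∧ G.dist x y ≤ r} : ℕ) : ℝ) ≤ A * r)
    (hsl : ∃ (C : ℕ) (f : ↥(orbK hs x) → ℤ) (C' : ℕ), TG (slab hs x C) ∧ QLn (slab hs x C) f C')
    (g : G ≃g G) (hg : g ∈ hs.Γ) (hχ : 0 < hs.χ g) :
    ∃ (s : G ≃g G) (C : ℕ), s ∈ hs.Γ ∧ hs.χ s = 0 ∧ LatQI G s g x C := by
  classical
  obtain ⟨C, f, C', hT, hf⟩ := hsl
  obtain ⟨N, hN⟩ : ∃ N : (G ≃g G) → ℕ, ∀ a, N a = G.dist x (a x) := ⟨_, fun _ => rfl⟩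
  obtain ⟨φ, hφ⟩ : ∃ φ : (G ≃g G) → ℤ, ∀ (a : G ≃g G) (h : a x ∈ orbK hs x),
      φ a = f ⟨a x, h⟩ := by
    refine ⟨fun a => if h : a x ∈ orbK hs x then f ⟨a x, h⟩ else 0, fun a h => ?_⟩
    simp only [h, dif_pos]
  have hN1 : N 1 = 0 := by
    rw [hN]
    change G.dist x x = 0
    exact SimpleGraph.dist_self
  have hmul : ∀ a b, N (a * b) ≤ N a + N b := by
    intro a b
    rw [hN, hN, hN, RelIso.mul_apply]
    have h1 := hG.tri x (a x) (a (b x))
    rwa [dist_iso hG.conn a x (b x)] at h1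
  have hinv : ∀ a, N a⁻¹ = N a := by
    intro a
    rw [hN, hN, ← dist_iso hG.conn a x ((a⁻¹ : G ≃g G) x)]
    have : a ((a⁻¹ : G ≃g G) x) = x := RelIso.apply_inv_self a x
    rw [this, SimpleGraph.dist_comm]
  have hNd : ∀ a b : G ≃g G, N (a⁻¹ * b) = G.dist (a x) (b x) := by
    intro a b
    rw [hN, RelIso.mul_apply, ← dist_iso hG.conn a x ((a⁻¹ : G ≃g G) (b x))]
    have : a ((a⁻¹ : G ≃g G) (b x)) = b x := RelIso.apply_inv_self a (b x)
    rw [this]
  have hφS : ∀ a (ha : a ∈ Qi.kr hs) b (hb : b ∈ Qi.kr hs),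
      |(|φ a - φ b|) - ((slab hs x C).dist ⟨a x, Qi.orb_mem hs x ha⟩
        ⟨b x, Qi.orb_mem hs x hb⟩ : ℤ)| ≤ C' := by
    intro a ha b hb
    rw [hφ a (Qi.orb_mem hs x ha), hφ b (Qi.orb_mem hs x hb)]
    exact hf _ _
  obtain ⟨s, hsL, C₀, hq1, hq2, hq3⟩ := Qi.core N hN1 hmul hinv (Qi.kr hs) g
    (fun l hl j => Qi.conj_mem hs hg hl j) φ (2 * C') (C * (C' + 1)) (by
      -- I1
      intro a ha b hb c hc
      have h1 := hφS (a * b) ((Qi.kr hs).mul_mem ha hb) (a * c) ((Qi.kr hs).mul_mem ha hc)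
      have h2 := hφS b hb c hc
      have h3 := dist_iso hT.conn (Qi.slabIso hG hs x C a ha) ⟨b x, Qi.orb_mem hs x hb⟩
        ⟨c x, Qi.orb_mem hs x hc⟩
      change (slab hs x C).dist ⟨(a * b) x, _⟩ ⟨(a * c) x, _⟩ = _ at h3
      rw [h3] at h1
      push_cast
      rw [abs_le] at *
      omega) (by
      -- I2
      intro a ha b hb
      rw [hNd]
      have h1 := Qi.dist_slab hG hs x C hT ⟨a x, Qi.orb_mem hs x ha⟩ ⟨b x, Qi.orb_mem hs x hb⟩
      have h2 := hφS a ha b hb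
      have h3 : ((slab hs x C).dist ⟨a x, Qi.orb_mem hs x ha⟩ ⟨b x, Qi.orb_mem hs x hb⟩ : ℤ) ≤
          (C' + 1) * (|φ a - φ b| + 1) := by
        have h4 := (abs_le.1 h2).1
        have h5 : 0 ≤ |φ a - φ b| := abs_nonneg _
        nlinarith
      have h4 : (G.dist (a x) (b x) : ℤ) ≤ C * ((slab hs x C).dist ⟨a x, Qi.orb_mem hs x ha⟩
          ⟨b x, Qi.orb_mem hs x hb⟩ : ℤ) := by exact_mod_cast h1
      push_cast
      calc (G.dist (a x) (b x) : ℤ) ≤ _ := h4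
        _ ≤ C * ((C' + 1) * (|φ a - φ b| + 1)) := mul_le_mul_of_nonneg_left h3 (by positivity)
        _ = _ := by ring) (by
      -- I3
      intro B
      by_contra hcon
      push Not at hcon
      apply hinf
      have hfin := ball_finite hT.lf hT.conn (⟨x, Qi.orb_mem hs x (Qi.kr hs).one_mem⟩ :
        ↥(orbK hs x)) (B + C').toNat
      refine (hfin.image Subtype.val).subset ?_
      intro y hy
      obtain ⟨l, h1, h2, rfl⟩ := hy
      refine ⟨⟨l x, Qi.orb_mem hs x ⟨h1, h2⟩⟩, ?_, rfl⟩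
      have h3 := hcon l ⟨h1, h2⟩
      have h4 := hφS l ⟨h1, h2⟩ 1 (Qi.kr hs).one_mem
      have h5 := (abs_le.1 h4).1
      have h6 : (slab hs x C).dist ⟨x, Qi.orb_mem hs x (Qi.kr hs).one_mem⟩
          ⟨l x, Qi.orb_mem hs x ⟨h1, h2⟩⟩ = (slab hs x C).dist
          ⟨l x, Qi.orb_mem hs x ⟨h1, h2⟩⟩ ⟨(1 : G ≃g G) x, Qi.orb_mem hs x (Qi.kr hs).one_mem⟩ :=
        SimpleGraph.dist_comm
      change (slab hs x C).dist ⟨x, _⟩ ⟨l x, _⟩ ≤ _
      rw [h6]
      omega) (by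
      -- I4
      intro s hs' hgrow
      obtain ⟨A, hA⟩ := hlin
      obtain ⟨A', hA'0, hAA'⟩ : ∃ A' : ℝ, 0 ≤ A' ∧ A ≤ A' := ⟨max A 0, le_max_right _ _,
        le_max_left _ _⟩
      refine ⟨1 / (2 * (A' + 1)), by positivity, ?_⟩
      by_contra hcon
      push Not at hcon
      obtain ⟨n₀, hn₀⟩ := hcon
      obtain ⟨η, hη⟩ : ∃ η : ℝ, η = 1 / (2 * (A' + 1)) := ⟨_, rfl⟩
      have hη0 : 0 < η := by rw [hη]; positivity
      rw [← hη] at hn₀
      have hn₀pos : 0 < n₀ := by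
        rcases Nat.eq_zero_or_pos n₀ with h | h
        · rw [h] at hn₀
          simp [hN1] at hn₀
        · exact h
      have hsub : ∀ m n : ℕ, N (s ^ (m + n)) ≤ N (s ^ m) + N (s ^ n) := fun m n => by
        rw [pow_add]; exact hmul _ _
      have hpw : ∀ q m : ℕ, N (s ^ (q * m)) ≤ q * N (s ^ m) := by
        intro q m
        induction q with
        | zero => simp [hN1]
        | succ q ih =>
          have h1 : (q + 1) * m = q * m + m := by ring
          have h2 : (q + 1) * N (s ^ m) = q * N (s ^ m) + N (s ^ m) := by ring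
          rw [h1, h2]
          exact (hsub _ _).trans (Nat.add_le_add_right ih _)
      obtain ⟨M, hM⟩ : ∃ M : ℕ, M = n₀ * N s := ⟨_, rfl⟩
      have hDu : ∀ n : ℕ, (N (s ^ n) : ℝ) ≤ η * n + M := by
        intro n
        have h1 : n = (n / n₀) * n₀ + n % n₀ := (Nat.div_add_mod' n n₀).symm
        have h2 : N (s ^ n) ≤ (n / n₀) * N (s ^ n₀) + (n % n₀) * N s := by
          calc N (s ^ n) = N (s ^ ((n / n₀) * n₀ + n % n₀)) := by rw [← h1]
            _ ≤ N (s ^ ((n / n₀) * n₀)) + N (s ^ (n % n₀)) := hsub _ _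
            _ ≤ _ := by
                refine Nat.add_le_add (hpw _ _) ?_
                have := hpw (n % n₀) 1
                rwa [mul_one, pow_one] at this
        have h3 : (n % n₀) * N s ≤ M := by
          rw [hM]; exact Nat.mul_le_mul_right _ (Nat.mod_lt _ hn₀pos).le
        have h4 : (N (s ^ n) : ℝ) ≤ ((n / n₀ : ℕ) : ℝ) * N (s ^ n₀) + M := by
          exact_mod_cast h2.trans (Nat.add_le_add_left h3 _)
        have h5 : ((n / n₀ : ℕ) : ℝ) * n₀ ≤ n := by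
          exact_mod_cast Nat.div_mul_le_self n n₀
        have h6 : ((n / n₀ : ℕ) : ℝ) * N (s ^ n₀) ≤ ((n / n₀ : ℕ) : ℝ) * (η * n₀) :=
          mul_le_mul_of_nonneg_left hn₀.le (by positivity)
        nlinarith [h4, h5, h6, hη0]
      -- choose a radius
      obtain ⟨R, hR⟩ := exists_nat_gt (2 * (A' + 1) * M + 1)
      obtain ⟨r, hr, hcount⟩ := hA R
      obtain ⟨k, hk⟩ : ∃ k : ℕ, k = ⌊(r - M : ℝ) / η⌋₊ := ⟨_, rfl⟩
      have hrR : (R : ℝ) ≤ r := by exact_mod_cast hr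
      have hM0 : (0 : ℝ) ≤ M := by positivity
      have hrM : (0 : ℝ) ≤ (r - M : ℝ) := by nlinarith
      have hkle : (k : ℝ) ≤ (r - M) / η := by
        rw [hk]; exact Nat.floor_le (by positivity)
      have hklt : (r - M : ℝ) / η < k + 1 := by rw [hk]; exact Nat.lt_floor_add_one _
      -- the points `s ^ n x`, `n < k + 1`
      have hfin : {y | y ∈ orbK hs x ∧ G.dist x y ≤ r}.Finite :=
        (ball_finite hG.lf hG.conn x r).subset fun y hy => hy.2
      have hcard : k + 1 ≤ Set.ncard {y | y ∈ orbK hs x ∧ G.dist x y ≤ r} := by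
        have h1 : (↑(Finset.univ.image fun i : Fin (k + 1) => (s ^ (i : ℕ)) x) : Set V) ⊆
            {y | y ∈ orbK hs x ∧ G.dist x y ≤ r} := by
          intro y hy
          rw [Finset.coe_image] at hy
          obtain ⟨i, -, rfl⟩ := hy
          refine ⟨Qi.orb_mem hs x ((Qi.kr hs).pow_mem hs' _), ?_⟩
          have h2 := hDu i
          rw [hN] at h2
          have h3 : ((i : ℕ) : ℝ) ≤ k := by exact_mod_cast Nat.lt_succ_iff.1 i.2
          have h4 : η * ((i : ℕ) : ℝ) ≤ r - M := by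
            have := h3.trans hkle
            rw [le_div_iff₀ hη0] at this
            linarith
          have h5 : (G.dist x ((s ^ (i : ℕ)) x) : ℝ) ≤ r := by linarith
          exact_mod_cast h5
        have h2 := Set.ncard_le_ncard h1 hfin
        rw [Set.ncard_coe_finset, Finset.card_image_of_injective, Finset.card_univ,
          Fintype.card_fin] at h2
        · exact h2
        · intro i j hij
          simp only at hij
          have h3 : (s ^ (((j : ℕ) : ℤ) - ((i : ℕ) : ℤ))) x = x := by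
            rw [sub_eq_neg_add, zpow_add, zpow_neg, zpow_natCast, zpow_natCast,
              RelIso.mul_apply, ← hij]
            exact RelIso.inv_apply_self _ _
          have h4 := hgrow (((j : ℕ) : ℤ) - ((i : ℕ) : ℤ))
          have h5 : φ (s ^ (((j : ℕ) : ℤ) - ((i : ℕ) : ℤ))) = φ 1 := by
            rw [hφ _ (Qi.orb_mem hs x ((Qi.kr hs).zpow_mem hs' _)),
              hφ 1 (Qi.orb_mem hs x (Qi.kr hs).one_mem)]
            congr 1
            exact Subtype.ext h3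
          rw [h5, sub_self, abs_zero] at h4
          have h6 := abs_nonpos_iff.1 h4
          exact Fin.ext (by omega)
      have h1 : ((k : ℝ) + 1) ≤ A * r := by
        have : ((k + 1 : ℕ) : ℝ) ≤ (Set.ncard {y | y ∈ orbK hs x ∧ G.dist x y ≤ r} : ℕ) := by
          exact_mod_cast hcard
        push_cast at this
        linarith
      have h2 : (r - M : ℝ) / η = 2 * (A' + 1) * (r - M) := by
        rw [hη, div_div_eq_mul_div, div_one]; ring
      rw [h2] at hklt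
      have h3 : A * r ≤ A' * r := mul_le_mul_of_nonneg_right hAA' (by positivity)
      nlinarith [h1, hklt, h3, hR, hrR, hA'0, hM0])
  obtain ⟨Lp, hLp0, hLp⟩ := Qi.exists_lip hG hs x
  obtain ⟨Lq, hLq⟩ := exists_nat_ge Lp
  have hu : ∀ i j : ℤ, hs.u ((s ^ i) ((g ^ j) x)) = hs.u x + j * hs.χ g := by
    intro i j
    rw [hs.equi _ (hs.Γ.zpow_mem hsL.1 i), hs.equi _ (hs.Γ.zpow_mem hg j),
      Qi.chi_zpow hs hsL.1, Qi.chi_zpow hs hg, hsL.2]
    push_cast; ring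
  -- finitely many orbits
  obtain ⟨S, hS⟩ := exists_orbit_reps hG x hs.Γ hs.fi
  obtain ⟨D₁, hD₁⟩ : ∃ D : ℕ, ∀ y ∈ S, G.dist y x ≤ D :=
    ⟨∑ y ∈ S, G.dist y x, fun y hy =>
      Finset.single_le_sum (f := fun y => G.dist y x) (fun _ _ => Nat.zero_le _) hy⟩
  -- residues of heights
  obtain ⟨D₂, hD₂⟩ : ∃ D : ℕ, ∀ γ ∈ hs.Γ, ∃ t ∈ hs.Γ, hs.χ g ∣ hs.χ γ - hs.χ t ∧ N t ≤ D := by
    have h1 : ∀ r : Fin (hs.χ g).toNat, ∃ t, (∃ γ ∈ hs.Γ, hs.χ γ % hs.χ g = (r : ℕ)) →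
        (t ∈ hs.Γ ∧ hs.χ t % hs.χ g = (r : ℕ)) := by
      intro r
      by_cases h : ∃ γ ∈ hs.Γ, hs.χ γ % hs.χ g = (r : ℕ)
      · obtain ⟨γ, h1, h2⟩ := h
        exact ⟨γ, fun _ => ⟨h1, h2⟩⟩
      · exact ⟨1, fun h' => absurd h' h⟩
    choose t ht using h1
    refine ⟨∑ r, N (t r), fun γ hγ => ?_⟩
    have h2 : 0 ≤ hs.χ γ % hs.χ g := Int.emod_nonneg _ hχ.ne'
    have h3 : hs.χ γ % hs.χ g < hs.χ g := Int.emod_lt_of_pos _ hχ
    obtain ⟨r, hr⟩ := Int.eq_ofNat_of_zero_le h2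
    have h4 : r < (hs.χ g).toNat := by omega
    obtain ⟨h5, h6⟩ := ht ⟨r, h4⟩ ⟨γ, hγ, hr⟩
    refine ⟨_, h5, ?_, Finset.single_le_sum (f := fun r => N (t r)) (fun _ _ => Nat.zero_le _)
      (Finset.mem_univ _)⟩
    exact Int.ModEq.dvd (by rw [Int.ModEq, h6, hr])
  have hpw : ∀ n : ℤ, (N (g ^ n) : ℤ) ≤ |n| * N g := by
    have h1 : ∀ n : ℕ, N (g ^ n) ≤ n * N g := by
      intro n
      induction n with
      | zero => simp [hN1]
      | succ n ih =>
        rw [pow_succ, add_mul, one_mul]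
        exact (hmul _ _).trans (Nat.add_le_add_right ih _)
    intro n
    rcases Int.natAbs_eq n with h | h
    · have h2 := h1 n.natAbs
      rw [h, zpow_natCast, Nat.abs_cast]
      exact_mod_cast h2
    · have h2 := h1 n.natAbs
      rw [h, zpow_neg, hinv, zpow_natCast, abs_neg, Nat.abs_cast]
      exact_mod_cast h2
  obtain ⟨Cf, hCf⟩ : ∃ Cf : ℕ, Cf = C₀ * (1 + Lq * N g) + Lq + (D₁ + D₂ + C₀) := ⟨_, rfl⟩
  refine ⟨s, Cf, hsL.1, hsL.2, ⟨fun j => ?_, fun i j i' j' => ?_, fun v => ?_⟩⟩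
  · have h1 := hNd (g ^ j) (s * g ^ j)
    rw [RelIso.mul_apply] at h1
    rw [← h1]
    have h2 : (g ^ j)⁻¹ * (s * g ^ j) = g ^ (-j) * s * g ^ j := by rw [zpow_neg, mul_assoc]
    rw [h2]
    have := hq1 j
    have h3 : C₀ ≤ Cf := by rw [hCf]; omega
    omega
  · obtain ⟨d, hd⟩ : ∃ d : ℕ, d = G.dist ((s ^ i) ((g ^ j) x)) ((s ^ i') ((g ^ j') x)) :=
      ⟨_, rfl⟩
    rw [← hd]
    have h1 := hLp ((s ^ i) ((g ^ j) x)) ((s ^ i') ((g ^ j') x))
    rw [hu, hu, ← hd] at h1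
    have h2 : (|j - j'| : ℝ) * hs.χ g ≤ Lq * d := by
      have h3 : (hs.u x + (j : ℝ) * hs.χ g - (hs.u x + (j' : ℝ) * hs.χ g)) =
          ((j : ℝ) - j') * hs.χ g := by ring
      have h4 : (0 : ℝ) < hs.χ g := by exact_mod_cast hχ
      rw [h3, abs_mul, abs_of_pos h4] at h1
      exact h1.trans (mul_le_mul_of_nonneg_right hLq (by positivity))
    have h3 : |j - j'| ≤ Lq * d := by
      have h4 : |j - j'| * hs.χ g ≤ Lq * d := by exact_mod_cast h2
      have h5 : 0 ≤ |j - j'| := abs_nonneg _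
      nlinarith
    have h4 : G.dist ((s ^ i') ((g ^ j') x)) ((s ^ i') ((g ^ j) x)) = N (g ^ (j - j')) := by
      rw [dist_iso hG.conn, ← hNd]
      congr 1
      rw [← zpow_neg, ← zpow_add]
      congr 1; ring
    have h5 := hpw (j - j')
    have h6 : G.dist ((s ^ i) ((g ^ j) x)) ((s ^ i') ((g ^ j) x)) =
        N (g ^ (-j) * s ^ (i' - i) * g ^ j) := by
      have := hNd (s ^ i * g ^ j) (s ^ i' * g ^ j)
      rw [RelIso.mul_apply, RelIso.mul_apply] at this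
      rw [← this]
      congr 1
      group
    have h7 := hG.tri ((s ^ i) ((g ^ j) x)) ((s ^ i') ((g ^ j') x)) ((s ^ i') ((g ^ j) x))
    rw [← hd, h4, h6] at h7
    have h8 := hq2 j (i' - i)
    have h9 : |i - i'| = |i' - i| := abs_sub_comm _ _
    have h10 : (N (g ^ (-j) * s ^ (i' - i) * g ^ j) : ℤ) ≤ d + N (g ^ (j - j')) := by
      exact_mod_cast h7
    have h11 : |j - j'| * (N g : ℤ) ≤ Lq * d * N g :=
      mul_le_mul_of_nonneg_right h3 (by positivity)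
    have h12 : (N (g ^ (-j) * s ^ (i' - i) * g ^ j) : ℤ) + 1 ≤ (1 + Lq * N g) * (d + 1) := by
      have : (0 : ℤ) ≤ Lq * N g := by positivity
      nlinarith
    have h13 : (C₀ : ℤ) * ((N (g ^ (-j) * s ^ (i' - i) * g ^ j) : ℤ) + 1) ≤
        C₀ * ((1 + Lq * N g) * (d + 1)) := mul_le_mul_of_nonneg_left h12 (by positivity)
    have h14 : (Cf : ℤ) = C₀ * (1 + Lq * N g) + Lq + (D₁ + D₂ + C₀) := by
      rw [hCf]; push_cast; ring
    rw [h9, h14]
    have h15 : (0 : ℤ) ≤ (D₁ + D₂ + C₀ : ℤ) * (d + 1) := by positivity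
    have h16 : (0 : ℤ) ≤ (Lq : ℤ) := by positivity
    nlinarith [h8, h13, h3, h15, h16]
  · obtain ⟨y, hy, γ₀, hγ₀, hv⟩ := hS v
    obtain ⟨γ, hγ⟩ : ∃ γ, γ = γ₀⁻¹ := ⟨_, rfl⟩
    have hγΓ : γ ∈ hs.Γ := hγ ▸ hs.Γ.inv_mem hγ₀
    have hvγ : v = γ y := by
      rw [hγ, ← hv]
      exact (RelIso.inv_apply_self γ₀ v).symm
    obtain ⟨t, ht, ⟨j, hj⟩, htN⟩ := hD₂ γ hγΓ
    have hlΓ : γ * t⁻¹ ∈ hs.Γ := hs.Γ.mul_mem hγΓ (hs.Γ.inv_mem ht)
    have hl' : g ^ (-j) * (γ * t⁻¹) ∈ Qi.kr hs := by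
      refine ⟨hs.Γ.mul_mem (hs.Γ.zpow_mem hg _) hlΓ, ?_⟩
      rw [hs.mul _ (hs.Γ.zpow_mem hg _) _ hlΓ, hs.mul _ hγΓ _ (hs.Γ.inv_mem ht),
        Qi.chi_inv hs ht, Qi.chi_zpow hs hg]
      linarith
    obtain ⟨n, hn⟩ := hq3 j _ hl'
    refine ⟨n, j, ?_⟩
    have h1 : G.dist ((s ^ n) ((g ^ j) x)) ((γ * t⁻¹ : G ≃g G) x) ≤ C₀ := by
      have := hNd (s ^ n * g ^ j) (γ * t⁻¹)
      rw [RelIso.mul_apply (s ^ n)] at this
      rw [← this]
      have h2 : (s ^ n * g ^ j)⁻¹ * (γ * t⁻¹) =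
          (g ^ (-j) * s ^ n * g ^ j)⁻¹ * (g ^ (-j) * (γ * t⁻¹)) := by group
      rw [h2]
      exact hn
    have h2 : G.dist (γ x) ((γ * t⁻¹ : G ≃g G) x) ≤ D₂ := by
      rw [← hNd, inv_mul_cancel_left, hinv]
      exact htN
    have h3 : G.dist v (γ x) ≤ D₁ := by
      rw [hvγ, dist_iso hG.conn]
      exact hD₁ y hy
    have h4 := hG.tri v (γ x) ((s ^ n) ((g ^ j) x))
    have h5 := hG.tri (γ x) ((γ * t⁻¹ : G ≃g G) x) ((s ^ n) ((g ^ j) x))
    rw [SimpleGraph.dist_comm] at h1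
    have h6 : D₁ + D₂ + C₀ ≤ Cf := by rw [hCf]; omega
    omega

end QI

end Pool.H61.ST

end S_H61_ST_Qi
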