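import Mathlib
import Pool.Agent.H61.LC.L1

set_option autoImplicit false

/-! Locality of connective constants, part L9: this file joins several modules to save build time. -/

section S_H61_ST_Thins

set_option autoImplicit false

/-! Superblocks in thin graphs. -/

namespace Pool.H61.ST

open Finset Pool.Agent.H61.SW Pool.H98.C

section THINS
variable {V : Type} {G : SimpleGraph V}

/-! ### Powers and heights -/

lemma HS.chi_one (hs : HS G) : hs.χ 1 = 0 := by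
  have := hs.mul 1 hs.Γ.one_mem 1 hs.Γ.one_mem
  rw [mul_one] at this; omega

lemma HS.chi_zpow (hs : HS G) {g : G ≃g G} (hg : g ∈ hs.Γ) (n : ℤ) :
    hs.χ (g ^ n) = n * hs.χ g := by
  let ψ : hs.Γ →* Multiplicative ℤ :=
    { toFun := fun a => Multiplicative.ofAdd (hs.χ a)
      map_one' := by simp [HS.chi_one]
      map_mul' := fun a b => by simp [hs.mul a a.2 b b.2] }
  have h1 := congrArg Multiplicative.toAdd (map_zpow ψ ⟨g, hg⟩ n)
  simpa [ψ] using h1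

lemma HS.u_zpow (hs : HS G) {g : G ≃g G} (hg : g ∈ hs.Γ) (n : ℤ) (y : V) :
    hs.u ((g ^ n) y) = hs.u y + n * hs.χ g := by
  rw [hs.equi _ (hs.Γ.zpow_mem hg n), hs.chi_zpow hg]; push_cast; ring

lemma HS.u_pow (hs : HS G) {g : G ≃g G} (hg : g ∈ hs.Γ) (n : ℕ) (y : V) :
    hs.u ((g ^ n) y) = hs.u y + n * hs.χ g := by
  have := hs.u_zpow hg (n : ℤ) y
  rw [zpow_natCast] at this
  rw [this]; push_cast; rfl

/-- heights are Lipschitz with respect to the distance -/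
lemma exists_lip_dist (hG : TG G) (hs : HS G) :
    ∃ L : ℕ, ∀ y z, |hs.u y - hs.u z| ≤ L * (G.dist y z : ℝ) := by
  obtain ⟨L, hL⟩ := exists_lip hG hs
  refine ⟨L, fun y z => ?_⟩
  have h := lip_ch hL y (geo hG y z) (ch_geo hG y z)
  rw [en_geo, length_geo, abs_sub_comm] at h
  exact h

/-- region of a step -/
def rg (hs : HS G) (x y : V) : Set V := {z | z = y ∨ (hs.u x ≤ hs.u z ∧ hs.u z < hs.u y)}

lemma rg_pow (hG : TG G) (hs : HS G) {g : G ≃g G} (hg : g ∈ hs.Γ) (hχ : 0 < hs.χ g) (x : V)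
    (F : Finset (List V)) (l : ℕ) (hF : Fm G x (g x) (rg hs x (g x) ∩ {z | G.dist x z ≤ l}) F)
    (t : ℝ) (N : ℕ) (hN : 1 ≤ N) :
    ∃ F', Fm G x ((g ^ N) x)
      (rg hs x ((g ^ N) x) ∩ {z | ∃ k ≤ N, G.dist ((g ^ k) x) z ≤ l}) F' ∧
      fw t F' = fw t F ^ N := by
  have hχ' : (0 : ℝ) < hs.χ g := by exact_mod_cast hχ
  have hg1 : hs.u (g x) = hs.u x + hs.χ g := hs.equi g hg x
  have hlow : ∀ w ∈ rg hs x (g x), hs.u x ≤ hs.u w ∧ hs.u w ≤ hs.u x + hs.χ g := by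
    rintro w (rfl | ⟨h1, h2⟩)
    · rw [hg1]; constructor <;> linarith
    · rw [hg1] at h2; exact ⟨h1, h2.le⟩
  obtain ⟨F', h1, h2⟩ := fm_pow t g hF (by
    rintro k hk z ⟨hz, -⟩ w ⟨hw, -⟩ hzw
    have e1 := hs.u_pow hg k w
    rw [← hzw] at e1
    have e2 := (hlow w hw).1
    have e3 := (hlow z hz).2
    have e4 : (k : ℝ) * hs.χ g ≤ 1 * hs.χ g := by linarith
    have e5 : (k : ℝ) ≤ 1 := le_of_mul_le_mul_right e4 hχ'
    have e6 : k = 1 := by
      have : k ≤ 1 := by exact_mod_cast e5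
      omega
    refine ⟨e6, ?_⟩
    rcases hz with hz | ⟨hz1, hz2⟩
    · exact hz
    · exfalso
      rw [hg1] at hz2
      subst e6
      push_cast at e1
      linarith) N
  refine ⟨F', h1.mono ?_, h2⟩
  have hN' : (1 : ℝ) ≤ N := by exact_mod_cast hN
  rintro z (rfl | ⟨k, hk, w, ⟨hw1, hw2⟩, rfl⟩)
  · refine ⟨Or.inr ⟨le_rfl, ?_⟩, 0, Nat.zero_le _, ?_⟩
    · rw [hs.u_pow hg]; nlinarith
    · show G.dist z z ≤ l
      rw [SimpleGraph.dist_self]; exact Nat.zero_le _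
  · have hk' : (k : ℝ) + 1 ≤ N := by exact_mod_cast hk
    refine ⟨?_, k, by omega, ?_⟩
    · by_cases hz : (g ^ k) w = (g ^ N) x
      · exact Or.inl hz
      · right
        rw [hs.u_pow hg, hs.u_pow hg]
        have e1 := (hlow w hw1).1
        refine ⟨by have : (0 : ℝ) ≤ k * hs.χ g := by positivity
                   linarith, ?_⟩
        rcases hw1 with rfl | ⟨h3, h4⟩
        · rw [hg1]
          have : k + 1 ≠ N := by
            rintro rfl
            apply hz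
            rw [pow_succ]; rfl
          have h5 : k + 2 ≤ N := by omega
          have h6 : (k : ℝ) + 2 ≤ N := by exact_mod_cast h5
          nlinarith
        · rw [hg1] at h4
          nlinarith
    · show G.dist ((g ^ k) x) ((g ^ k) w) ≤ l
      rw [dist_iso hG.conn]; exact hw2

/-! ### Cutting a walk at its first meeting with a segment -/

lemma exists_split (y v : V) (L : List V) (h : v ∈ y :: L) :
    ∃ s s' : List V, L = s ++ s' ∧ en y s = v := by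
  rcases List.mem_cons.1 h with rfl | h
  · exact ⟨[], L, rfl, rfl⟩
  · obtain ⟨s1, s2, rfl⟩ := List.append_of_mem h
    exact ⟨s1 ++ [v], s2, by simp, by rw [en_append]; rfl⟩

lemma exists_cut (p : ℕ) (σ : ℤ → V) (y : V) (L : List V) (hL : ch G y L) (i0 : ℤ)
    (hi0 : |i0| ≤ p) (hend : en y L = σ i0) :
    ∃ (τ : ℤ) (s : List V), τ ≤ i0 ∧ |τ| ≤ p ∧ sa G y s ∧ en y s = σ τ ∧
      s.length ≤ L.length ∧ (∀ v ∈ s, v ∈ L) ∧ ∀ i : ℤ, |i| ≤ p → i < τ → σ i ∉ y :: s := by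
  classical
  obtain ⟨L', h1, h2, h3, h4⟩ := loop_erase y L hL
  let S : Finset ℤ := (Finset.Icc (-(p : ℤ)) p).filter fun i => σ i ∈ y :: L'
  have hS : i0 ∈ S := by
    rw [abs_le] at hi0
    refine Finset.mem_filter.2 ⟨Finset.mem_Icc.2 hi0, ?_⟩
    rw [← hend, ← h2]; exact en_mem_cons y L'
  obtain ⟨h5, h6⟩ := Finset.mem_filter.1 (S.min'_mem ⟨i0, hS⟩)
  set τ := S.min' ⟨i0, hS⟩ with hτ
  obtain ⟨s, s', h7, h8⟩ := exists_split y (σ τ) L' h6
  refine ⟨τ, s, S.min'_le _ hS, abs_le.2 (Finset.mem_Icc.1 h5), ?_, h8, ?_, ?_, ?_⟩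
  · rw [h7] at h1; exact sa_append_left h1
  · rw [h7, List.length_append] at h3; omega
  · intro v hv
    exact h4 v (by rw [h7]; exact List.mem_append_left _ hv)
  · intro i hi hlt hmem
    have : i ∈ S := by
      refine Finset.mem_filter.2 ⟨Finset.mem_Icc.2 (abs_le.1 hi), ?_⟩
      rw [h7]
      rcases List.mem_cons.1 hmem with h | h
      · rw [h]; simp
      · exact List.mem_cons_of_mem _ (List.mem_append_left _ h)
    exact absurd (S.min'_le _ this) (not_le.2 hlt)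

/-! ### The conclusion at one segment -/

/-- body of `Super` -/
def SupAt (G : SimpleGraph V) (t : ℝ) (p ρ : ℕ) (σ : ℤ → V) : Prop :=
  ∃ (τ₁ τ₂ : ℤ) (F : Finset (List V)), -(ρ : ℤ) ≤ τ₁ ∧ τ₁ ≤ τ₂ ∧ τ₂ ≤ ρ ∧
      (∀ s ∈ F, sa G (σ τ₁) s ∧ en (σ τ₁) s = σ τ₂ ∧ (∀ z ∈ s, G.dist (σ 0) z ≤ ρ) ∧
        ∀ i : ℤ, |i| ≤ p → (i < τ₁ ∨ τ₂ < i) → σ i ∉ s) ∧
      2 ≤ (∑ s ∈ F, t ^ s.length) * t ^ (p - (τ₂ - τ₁).toNat)

lemma SupAt_map (hG : TG G) (t : ℝ) (p ρ : ℕ) (σ : ℤ → V) (φ : G ≃g G)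
    (h : SupAt G t p ρ (fun i => φ (σ i))) : SupAt G t p ρ σ := by
  classical
  obtain ⟨τ₁, τ₂, F, h1, h2, h3, h4, h5⟩ := h
  have hinv : ∀ z, φ.symm (φ z) = z := φ.symm_apply_apply
  refine ⟨τ₁, τ₂, F.image (List.map φ.symm), h1, h2, h3, ?_, ?_⟩
  · intro s' hs'
    obtain ⟨s, hs, rfl⟩ := Finset.mem_image.1 hs'
    obtain ⟨a1, a2, a3, a4⟩ := h4 s hs
    refine ⟨?_, ?_, ?_, ?_⟩
    · have := (sa_map φ.symm (φ (σ τ₁)) s).2 a1
      rwa [hinv] at this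
    · have := en_map φ.symm (φ (σ τ₁)) s
      rw [hinv, a2, hinv] at this
      exact this
    · intro z hz
      obtain ⟨w, hw, rfl⟩ := List.mem_map.1 hz
      have := a3 w hw
      rw [← dist_iso hG.conn φ.symm, hinv] at this
      exact this
    · intro i hi hi' hmem
      obtain ⟨w, hw, hw'⟩ := List.mem_map.1 hmem
      apply a4 i hi hi'
      have : w = φ (σ i) := by rw [← hw']; exact (φ.apply_symm_apply w).symm
      show φ (σ i) ∈ s
      rwa [← this]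
  · rw [Finset.sum_image]
    · simpa using h5
    · intro s _ s' _ heq
      exact List.map_injective_iff.2 φ.symm.injective heq

lemma SupAt_rev (t : ℝ) (p ρ : ℕ) (hρ : ρ ≤ p) (σ : ℤ → V) (hσ : IsSeg G p σ)
    (h : SupAt G t p ρ (fun i => σ (-i))) : SupAt G t p ρ σ := by
  classical
  obtain ⟨τ₁, τ₂, F, h1, h2, h3, h4, h5⟩ := h
  have hρ' : (ρ : ℤ) ≤ p := by exact_mod_cast hρ
  have hτ₁ : |-τ₁| ≤ (p : ℤ) := abs_le.2 ⟨by linarith, by linarith⟩
  refine ⟨-τ₂, -τ₁, F.image (rv (σ (-τ₁))), by linarith, by linarith, by linarith, ?_, ?_⟩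
  · intro s' hs'
    obtain ⟨s, hs, rfl⟩ := Finset.mem_image.1 hs'
    obtain ⟨a1, a2, a3, a4⟩ := h4 s hs
    have hmem : ∀ z ∈ rv (σ (-τ₁)) s, z = σ (-τ₁) ∨ z ∈ s := by
      intro z hz
      have : z ∈ en (σ (-τ₁)) s :: rv (σ (-τ₁)) s := List.mem_cons_of_mem _ hz
      rw [mem_rv] at this
      exact List.mem_cons.1 this
    refine ⟨?_, ?_, ?_, ?_⟩
    · have := sa_rv (σ (-τ₁)) s a1
      rwa [a2] at this
    · have := en_rv (σ (-τ₁)) s
      rwa [a2] at this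
    · intro z hz
      rcases hmem z hz with rfl | hz
      · have := hσ 0 (-τ₁) (by simp) hτ₁
        have h6 : |0 - -τ₁| ≤ (ρ : ℤ) := abs_le.2 ⟨by linarith, by linarith⟩
        rw [← this] at h6
        exact_mod_cast h6
      · have := a3 z hz
        simpa using this
    · intro i hi hi' hz
      rcases hmem _ hz with hz | hz
      · have := hσ i (-τ₁) hi hτ₁
        rw [hz, SimpleGraph.dist_self] at this
        have h6 : i - -τ₁ = 0 := by
          rw [← abs_eq_zero, ← this]; rfl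
        rcases hi' with hi' | hi' <;> omega
      · have := a4 (-i) (by rwa [abs_neg]) (by
          rcases hi' with hi' | hi'
          · right; linarith
          · left; linarith)
        simp only [neg_neg] at this
        exact this hz
  · rw [Finset.sum_image]
    · have e1 : -τ₁ - -τ₂ = τ₂ - τ₁ := by ring
      rw [e1]
      have e2 : ∀ s ∈ F, t ^ (rv (σ (-τ₁)) s).length = t ^ s.length := fun s _ => by
        rw [length_rv]
      rw [Finset.sum_congr rfl e2]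
      exact h5
    · intro s hs s' hs' heq
      have e1 := rv_rv (σ (-τ₁)) s
      have e2 := rv_rv (σ (-τ₁)) s'
      rw [(h4 s hs).2.1] at e1
      rw [(h4 s' hs').2.1] at e2
      rw [← e1, ← e2]
      exact congrArg _ heq

/-! ### Legs -/

lemma exists_step_walk (hG : TG G) (hs : HS G) {h : G ≃g G} (hh : h ∈ hs.Γ) (hχ : 0 < hs.χ h)
    (x : V) (F : Finset (List V)) (l : ℕ)
    (hF : Fm G x (h x) (rg hs x (h x) ∩ {z | G.dist x z ≤ l}) F)
    (t : ℝ) (hw : 2 ≤ fw t F) (J : ℕ) (hJ : 1 ≤ J) :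
    ∃ w : List V, sa G x w ∧ en x w = (h ^ (J : ℤ)) x ∧ ∀ z ∈ x :: w, hs.u x ≤ hs.u z ∧
      (z = (h ^ (J : ℤ)) x ∨ hs.u z < hs.u x + J * hs.χ h) := by
  obtain ⟨F', h1, h2⟩ := rg_pow hG hs hh hχ x F l hF t J hJ
  have hne : F'.Nonempty := by
    rw [Finset.nonempty_iff_ne_empty]
    rintro rfl
    have : (0 : ℝ) < fw t F ^ J := by positivity
    rw [← h2] at this
    simp [fw] at this
  obtain ⟨w, hw'⟩ := hne
  obtain ⟨a1, a2, a3⟩ := h1 w hw'
  have e : (h ^ (J : ℤ)) x = (h ^ J) x := by rw [zpow_natCast]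
  have hχ' : (0 : ℝ) < hs.χ h := by exact_mod_cast hχ
  refine ⟨w, a1, by rw [a2, e], fun z hz => ?_⟩
  rcases (a3 z hz).1 with hz | ⟨hz1, hz2⟩
  · rw [e]
    refine ⟨?_, Or.inl hz⟩
    rw [hz, hs.u_pow hh]
    have : (0 : ℝ) ≤ J * hs.χ h := by positivity
    linarith
  · rw [hs.u_pow hh] at hz2
    exact ⟨hz1, Or.inr hz2⟩

lemma left_leg (hG : TG G) (hs : HS G) (L : ℕ)
    (hL : ∀ y z, |hs.u y - hs.u z| ≤ L * (G.dist y z : ℝ)) {h : G ≃g G} (hh : h ∈ hs.Γ)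
    (x : V) (J : ℕ) (w : List V) (hw1 : sa G x w) (hw2 : en x w = (h ^ (J : ℤ)) x)
    (hw3 : ∀ z ∈ x :: w, hs.u x ≤ hs.u z ∧
      (z = (h ^ (J : ℤ)) x ∨ hs.u z < hs.u x + J * hs.χ h))
    (C2 : ℕ) (hJ : (L : ℝ) * C2 < J * hs.χ h) (q : V) (hq : G.dist ((h ^ (-(J : ℤ))) x) q ≤ C2) :
    ∃ l : List V, ch G x l ∧ en x l = q ∧ l.length ≤ w.length + C2 ∧
      ∀ v ∈ x :: l, v = x ∨ hs.u v < hs.u x := by
  set φ : G ≃g G := h ^ (-(J : ℤ)) with hφ
  have e1 : φ ((h ^ (J : ℤ)) x) = x := by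
    rw [hφ, ← RelIso.mul_apply, ← zpow_add]; simp
  have e2 : en (φ x) (w.map φ) = x := by rw [en_map, hw2, e1]
  have e3 : ch G (φ x) (w.map φ) := (ch_map φ x w).2 hw1.1
  have e4 := ch_rv _ _ e3
  rw [e2] at e4
  have e5 := en_rv (φ x) (w.map φ)
  rw [e2] at e5
  have hup : ∀ y, hs.u (φ y) = hs.u y - J * hs.χ h := fun y => by
    rw [hφ, hs.u_zpow hh]; push_cast; ring
  refine ⟨rv (φ x) (w.map φ) ++ geo hG (φ x) q, ?_, ?_, ?_, ?_⟩
  · rw [ch_append, e5]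
    exact ⟨e4, ch_geo hG _ _⟩
  · rw [en_append, e5, en_geo]
  · rw [List.length_append, length_rv, List.length_map, length_geo]; omega
  · intro v hv
    rw [← List.cons_append, List.mem_append] at hv
    rcases hv with hv | hv
    · have h1 : v ∈ φ x :: w.map φ := by
        have := @mem_rv V (φ x) v (w.map φ)
        rw [e2] at this
        exact this.1 hv
      rw [← List.map_cons] at h1
      obtain ⟨z, hz, rfl⟩ := List.mem_map.1 h1
      obtain ⟨h2, h3 | h3⟩ := hw3 z hz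
      · left; rw [h3, e1]
      · right; rw [hup]; linarith
    · right
      have h1 : G.dist (φ x) v ≤ C2 := (mem_geo_dist hG hv).trans hq
      have h2 := hL v (φ x)
      rw [SimpleGraph.dist_comm] at h2
      have h3 : (L : ℝ) * (G.dist (φ x) v : ℝ) ≤ L * C2 := by
        apply mul_le_mul_of_nonneg_left _ (Nat.cast_nonneg _)
        exact_mod_cast h1
      rw [hup x, abs_le] at h2
      linarith [h2.2]

lemma right_leg (hG : TG G) (hs : HS G) (L : ℕ)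
    (hL : ∀ y z, |hs.u y - hs.u z| ≤ L * (G.dist y z : ℝ)) {h : G ≃g G} (hh : h ∈ hs.Γ)
    (x : V) (J : ℕ) (w : List V) (hw1 : sa G x w) (hw2 : en x w = (h ^ (J : ℤ)) x)
    (hw3 : ∀ z ∈ x :: w, hs.u x ≤ hs.u z ∧
      (z = (h ^ (J : ℤ)) x ∨ hs.u z < hs.u x + J * hs.χ h))
    (C2 : ℕ) (hJ : (L : ℝ) * C2 < J * hs.χ h) (k : ℤ) (q : V)
    (hq : G.dist ((h ^ (k + J : ℤ)) x) q ≤ C2) :
    ∃ l : List V, ch G ((h ^ k) x) l ∧ en ((h ^ k) x) l = q ∧ l.length ≤ w.length + C2 ∧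
      ∀ v ∈ (h ^ k) x :: l, hs.u ((h ^ k) x) ≤ hs.u v := by
  set φ : G ≃g G := h ^ k with hφ
  have e1 : φ ((h ^ (J : ℤ)) x) = (h ^ (k + J : ℤ)) x := by
    rw [hφ, ← RelIso.mul_apply, ← zpow_add]
  have e2 : en (φ x) (w.map φ) = (h ^ (k + J : ℤ)) x := by rw [en_map, hw2, e1]
  have e3 : ch G (φ x) (w.map φ) := (ch_map φ x w).2 hw1.1
  have hup : ∀ y, hs.u (φ y) = hs.u y + k * hs.χ h := fun y => by
    rw [hφ, hs.u_zpow hh]
  refine ⟨w.map φ ++ geo hG ((h ^ (k + J : ℤ)) x) q, ?_, ?_, ?_, ?_⟩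
  · rw [ch_append, e2]
    exact ⟨e3, ch_geo hG _ _⟩
  · rw [en_append, e2, en_geo]
  · rw [List.length_append, List.length_map, length_geo]; omega
  · intro v hv
    rw [← List.cons_append, List.mem_append] at hv
    rcases hv with hv | hv
    · rw [← List.map_cons] at hv
      obtain ⟨z, hz, rfl⟩ := List.mem_map.1 hv
      have := (hw3 z hz).1
      rw [hup, hup]; linarith
    · have h1 : G.dist ((h ^ (k + J : ℤ)) x) v ≤ C2 := (mem_geo_dist hG hv).trans hq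
      have h2 := hL v ((h ^ (k + J : ℤ)) x)
      rw [SimpleGraph.dist_comm] at h2
      have h3 : (L : ℝ) * (G.dist ((h ^ (k + J : ℤ)) x) v : ℝ) ≤ L * C2 := by
        apply mul_le_mul_of_nonneg_left _ (Nat.cast_nonneg _)
        exact_mod_cast h1
      rw [hs.u_zpow hh, abs_le] at h2
      push_cast at h2
      rw [hup x]
      nlinarith [h2.1]

/-! ### The main construction -/

lemma thin_core (hG : TG G) (hs : HS G) (f : V → ℤ) (C : ℕ) (hf : QLn G f C) {h : G ≃g G}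
    (hh : h ∈ hs.Γ) (hχ : 0 < hs.χ h) (K : ℕ)
    (hK : ∀ j : ℤ, ∀ y z, |f ((h ^ j) y) - f ((h ^ j) z) - (f y - f z)| ≤ (K : ℤ))
    (x : V) (hT : (K : ℤ) + 1 ≤ f (h x) - f x) (F : Finset (List V)) (l0 : ℕ)
    (hF : Fm G x (h x) (rg hs x (h x) ∩ {z | G.dist x z ≤ l0}) F)
    (t : ℝ) (ht : 0 < t) (ht1 : t ≤ 1) (hw : 2 ≤ fw t F) :
    ∃ (p ρ : ℕ) (n : ℤ), 2 * ρ < p ∧ ∀ σ : ℤ → V, IsSeg G p σ → σ 0 = (h ^ n) x →
      (∀ i j : ℤ, |i| ≤ p → |j| ≤ p → |f (σ i) - f (σ j) - (i - j)| ≤ 9 * (C : ℤ)) →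
      SupAt G t p ρ σ := by
  classical
  obtain ⟨L, hL⟩ := exists_lip_dist hG hs
  have hχ1 : (1 : ℝ) ≤ hs.χ h := by exact_mod_cast hχ
  have hχ' : (0 : ℝ) < hs.χ h := by linarith
  have hf1 : ∀ y z, |f y - f z| ≤ (G.dist y z : ℤ) + C := fun y z => by
    have := hf y z
    rw [abs_le] at this; linarith [this.2]
  have hf2 : ∀ y z, (G.dist y z : ℤ) ≤ |f y - f z| + C := fun y z => by
    have := hf y z
    rw [abs_le] at this; linarith [this.1]
  obtain ⟨J, hJ1, hJ2, hJ3⟩ : ∃ J : ℕ, 1 ≤ J ∧ (L : ℝ) * (10 * C : ℕ) < J * hs.χ h ∧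
      10 * C + l0 ≤ J := by
    refine ⟨L * (10 * C) + 10 * C + l0 + 1, by omega, ?_, by omega⟩
    have h1 : (L : ℝ) * (10 * C : ℕ) < (L * (10 * C) + 10 * C + l0 + 1 : ℕ) := by
      push_cast
      have : (0 : ℝ) ≤ 10 * C + l0 := by positivity
      linarith
    refine h1.trans_le ?_
    exact le_mul_of_one_le_right (Nat.cast_nonneg _) hχ1
  obtain ⟨w, hw1, hw2, hw3⟩ := exists_step_walk hG hs hh hχ x F l0 hF t hw J hJ1
  set a : ℤ → ℤ := fun j => f ((h ^ j) x) with ha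
  have hstep : ∀ j : ℤ, a j + 1 ≤ a (j + 1) := by
    intro j
    have h1 := hK j (h x) x
    have h2 : (h ^ j) (h x) = (h ^ (j + 1)) x := by rw [zpow_add_one]; rfl
    rw [h2, abs_le] at h1
    simp only [ha]
    linarith [h1.1]
  have hmono : ∀ i j : ℤ, i ≤ j → j - i ≤ a j - a i := by
    intro i j hij
    induction j, hij using Int.leInduction with
    | base => simp
    | succ j _ ih => have := hstep j; linarith
  have hdJ : ∀ k : ℤ, G.dist ((h ^ k) x) ((h ^ (k + J)) x) ≤ w.length := by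
    intro k
    have h1 : (h ^ (k + J)) x = (h ^ k) ((h ^ (J : ℤ)) x) := by
      rw [zpow_add]; rfl
    rw [h1, dist_iso hG.conn, ← hw2]
    exact dist_mem_ch hw1.1 (en_mem_cons x w)
  have haJ : ∀ k : ℤ, |a k - a (k + J)| ≤ (w.length : ℤ) + C := by
    intro k
    have h1 := hf1 ((h ^ k) x) ((h ^ (k + J)) x)
    have h2 : (G.dist ((h ^ k) x) ((h ^ (k + J)) x) : ℤ) ≤ w.length := by exact_mod_cast hdJ k
    linarith
  obtain ⟨D, hD⟩ : ∃ D : ℕ, D = w.length + 10 * C := ⟨_, rfl⟩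
  obtain ⟨c3, hc3⟩ : ∃ c3 : ℕ, c3 = D + 11 * C + K + l0 := ⟨_, rfl⟩
  obtain ⟨E, hE⟩ : ∃ E : ℕ, E = 2 * c3 + 1 + 2 * (D + 10 * C) + K := ⟨_, rfl⟩
  obtain ⟨n, hn1, hn2, hn3⟩ : ∃ n : ℕ, 1 ≤ n ∧ D + C ≤ n ∧
      (2 : ℝ) ≤ 2 ^ (2 * n) * t ^ (2 * D + E) := by
    obtain ⟨n0, hn0⟩ := pow_unbounded_of_one_lt (2 / t ^ (2 * D + E)) (one_lt_two : (1 : ℝ) < 2)
    refine ⟨n0 + D + C + 1, by omega, by omega, ?_⟩
    have h1 : (2 : ℝ) ^ n0 ≤ 2 ^ (2 * (n0 + D + C + 1)) :=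
      pow_le_pow_right₀ (by norm_num) (by omega)
    have h2 : (0 : ℝ) < t ^ (2 * D + E) := by positivity
    rw [div_lt_iff₀ h2] at hn0
    nlinarith
  set R : ℤ := a n - a 0 with hR
  set R' : ℤ := a (2 * n) - a n with hR'
  have hRn : (n : ℤ) ≤ R := by have := hmono 0 n (by omega); linarith
  have hRn' : (n : ℤ) ≤ R' := by have := hmono n (2 * n) (by omega); linarith
  have hRR : |R' - R| ≤ K := by
    have h1 := hK n ((h ^ (n : ℤ)) x) x
    have h2 : (h ^ (n : ℤ)) ((h ^ (n : ℤ)) x) = (h ^ (2 * n : ℤ)) x := by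
      rw [two_mul, zpow_add]; rfl
    rw [h2] at h1
    have h3 : a 0 = f x := by simp [ha]
    rw [hR, hR', h3]
    exact h1
  rw [abs_le] at hRR
  obtain ⟨ρ, hρ⟩ : ∃ ρ : ℕ, (ρ : ℤ) = R + c3 := ⟨R.toNat + c3, by push_cast; omega⟩
  refine ⟨2 * ρ + 1, ρ, n, by omega, fun σ hσ hσ0 hσf => ?_⟩
  have ha0 : a 0 = f x := by simp [ha]
  have hσ0' : f (σ 0) = a n := by rw [hσ0]
  push_cast at hσf
  have hσf0 : ∀ i : ℤ, |i| ≤ 2 * (ρ : ℤ) + 1 → |f (σ i) - a n - i| ≤ 9 * (C : ℤ) := by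
    intro i hi
    have := hσf i 0 hi (by simp; positivity)
    rwa [hσ0', sub_zero] at this
  -- left leg
  have haJl := haJ (-J)
  rw [show -(J : ℤ) + J = 0 by ring, abs_le] at haJl
  have haJr := haJ (2 * n)
  rw [abs_le] at haJr
  have hil : |a (-J) - a n| ≤ 2 * (ρ : ℤ) + 1 := by
    rw [abs_le]; omega
  have hir : |a (2 * n + J) - a n| ≤ 2 * (ρ : ℤ) + 1 := by
    rw [abs_le]; omega
  have hql : G.dist ((h ^ (-(J : ℤ))) x) (σ (a (-J) - a n)) ≤ 10 * C := by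
    have h1 := hσf0 _ hil
    have h2 := hf2 ((h ^ (-(J : ℤ))) x) (σ (a (-J) - a n))
    have h3 : f ((h ^ (-(J : ℤ))) x) = a (-J) := rfl
    rw [h3] at h2
    have h4 : |a (-J) - f (σ (a (-J) - a n))| ≤ 9 * (C : ℤ) := by
      rw [abs_le] at h1 ⊢; omega
    omega
  have hqr : G.dist ((h ^ (2 * n + J : ℤ)) x) (σ (a (2 * n + J) - a n)) ≤ 10 * C := by
    have h1 := hσf0 _ hir
    have h2 := hf2 ((h ^ (2 * n + J : ℤ)) x) (σ (a (2 * n + J) - a n))
    have h3 : f ((h ^ (2 * n + J : ℤ)) x) = a (2 * n + J) := rfl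
    rw [h3] at h2
    have h4 : |a (2 * n + J) - f (σ (a (2 * n + J) - a n))| ≤ 9 * (C : ℤ) := by
      rw [abs_le] at h1 ⊢; omega
    omega
  obtain ⟨l1, b1, b2, b3, b4⟩ := left_leg hG hs L hL hh x J w hw1 hw2 hw3 (10 * C) hJ2 _ hql
  obtain ⟨l2, d1, d2, d3, d4⟩ :=
    right_leg hG hs L hL hh x J w hw1 hw2 hw3 (10 * C) hJ2 (2 * n) _ hqr
  obtain ⟨τ₁, s1, p1, p2, p3, p4, p5, p6, p7⟩ :=
    exists_cut (2 * ρ + 1) σ x l1 b1 (a (-J) - a n) (by push_cast; exact hil) b2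
  obtain ⟨τ', s2, q1, q2, q3, q4, q5, q6, q7⟩ :=
    exists_cut (2 * ρ + 1) (fun i => σ (-i)) ((h ^ (2 * n : ℤ)) x) l2 d1
      (-(a (2 * n + J) - a n)) (by push_cast; rw [abs_neg]; exact hir) (by simpa using d2)
  obtain ⟨τ₂, rfl⟩ : ∃ τ₂, τ' = -τ₂ := ⟨-τ', by ring⟩
  simp only [neg_neg] at q4
  rw [abs_neg] at q2
  push_cast at p2 q2 p7 q7
  have hs1 : ∀ v ∈ x :: s1, G.dist x v ≤ D := fun v hv =>
    (dist_mem_ch p3.1 hv).trans (by omega)
  have hs2 : ∀ v ∈ (h ^ (2 * n : ℤ)) x :: s2, G.dist ((h ^ (2 * n : ℤ)) x) v ≤ D := fun v hv =>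
    (dist_mem_ch q3.1 hv).trans (by omega)
  have hs1f : ∀ v ∈ x :: s1, |f x - f v| ≤ (D : ℤ) + C := fun v hv => by
    have h1 := hf1 x v
    have h2 := hs1 v hv
    omega
  have hs2f : ∀ v ∈ (h ^ (2 * n : ℤ)) x :: s2, |a (2 * n) - f v| ≤ (D : ℤ) + C := fun v hv => by
    have h1 := hf1 ((h ^ (2 * n : ℤ)) x) v
    have h2 := hs2 v hv
    have h3 : f ((h ^ (2 * n : ℤ)) x) = a (2 * n) := rfl
    rw [h3] at h1
    omega
  have hτ₁ : |τ₁ + R| ≤ (D : ℤ) + 10 * C := by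
    have h1 := hσf0 τ₁ p2
    have h2 := hs1f (σ τ₁) (by rw [← p4]; exact en_mem_cons x s1)
    rw [← ha0] at h2
    rw [abs_le] at h1 h2 ⊢
    omega
  have hτ₂ : |τ₂ - R'| ≤ (D : ℤ) + 10 * C := by
    have h1 := hσf0 τ₂ q2
    have h2 := hs2f (σ τ₂) (by rw [← q4]; exact en_mem_cons _ s2)
    rw [abs_le] at h1 h2 ⊢
    omega
  rw [abs_le] at hτ₁ hτ₂
  -- the three families
  have hPn : (h ^ (2 * n : ℤ)) x = (h ^ (2 * n)) x := by
    rw [← zpow_natCast]; push_cast; rfl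
  have huN : hs.u ((h ^ (2 * n : ℤ)) x) = hs.u x + 2 * n * hs.χ h := by
    rw [hs.u_zpow hh]; push_cast; ring
  have huN' : hs.u x < hs.u ((h ^ (2 * n : ℤ)) x) := by
    rw [huN]
    have : (1 : ℝ) ≤ n := by exact_mod_cast hn1
    nlinarith
  obtain ⟨F2, f1, f2⟩ := rg_pow hG hs hh hχ x F l0 hF t (2 * n) (by omega)
  rw [← hPn] at f1
  have fm1 : Fm G x (σ τ₁) {v | v ∈ x :: s1} {s1} := by
    intro s hs
    rw [Finset.mem_singleton.1 hs]
    exact ⟨p3, p4, fun z hz => hz⟩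
  have fm3 : Fm G ((h ^ (2 * n : ℤ)) x) (σ τ₂) {v | v ∈ (h ^ (2 * n : ℤ)) x :: s2} {s2} := by
    intro s hs
    rw [Finset.mem_singleton.1 hs]
    exact ⟨q3, q4, fun z hz => hz⟩
  obtain ⟨F1, g1, g2⟩ := fm_rev t fm1
  have hl1 : ∀ v ∈ x :: s1, v = x ∨ hs.u v < hs.u x := by
    intro v hv
    rcases List.mem_cons.1 hv with rfl | hv
    · exact Or.inl rfl
    · exact b4 v (List.mem_cons_of_mem _ (p6 v hv))
  have hl2 : ∀ v ∈ (h ^ (2 * n : ℤ)) x :: s2, hs.u ((h ^ (2 * n : ℤ)) x) ≤ hs.u v := by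
    intro v hv
    rcases List.mem_cons.1 hv with rfl | hv
    · exact le_rfl
    · exact d4 v (List.mem_cons_of_mem _ (q6 v hv))
  obtain ⟨F12, k1, k2⟩ := fm_comb t g1 f1 (by
    rintro v hv ⟨hv1, -⟩
    rcases hl1 v hv with h1 | h1
    · exact h1
    · exfalso
      rcases hv1 with h2 | ⟨h2, h3⟩
      · rw [h2] at h1; linarith
      · linarith)
  obtain ⟨F', k3, k4⟩ := fm_comb t k1 fm3 (by
    intro v hv hv'
    have h0 := hl2 v hv'
    rcases hv with hv | ⟨hv, -⟩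
    · exfalso
      rcases hl1 v hv with h1 | h1
      · rw [h1] at h0; linarith
      · linarith
    · rcases hv with h2 | ⟨h2, h3⟩
      · exact h2
      · exfalso; linarith)
  -- all vertices
  have hmid : ∀ v, (∃ k ≤ 2 * n, G.dist ((h ^ k) x) v ≤ l0) →
      a 0 - (l0 + C) ≤ f v ∧ f v ≤ a (2 * n) + (l0 + C) ∧
      (G.dist ((h ^ (n : ℤ)) x) v : ℤ) ≤ ρ := by
    rintro v ⟨k, hk, hkv⟩
    rw [← zpow_natCast] at hkv
    have h1 := hf1 ((h ^ (k : ℤ)) x) v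
    have h2 : f ((h ^ (k : ℤ)) x) = a k := rfl
    rw [h2, abs_le] at h1
    have h3 := hmono 0 k (by omega)
    have h4 := hmono k (2 * n) (by omega)
    have h5 : (G.dist ((h ^ (k : ℤ)) x) v : ℤ) ≤ l0 := by exact_mod_cast hkv
    refine ⟨by omega, by omega, ?_⟩
    have h6 := hG.tri ((h ^ (n : ℤ)) x) ((h ^ (k : ℤ)) x) v
    have h7 := hf2 ((h ^ (n : ℤ)) x) ((h ^ (k : ℤ)) x)
    have h8 : f ((h ^ (n : ℤ)) x) = a n := rfl
    rw [h2, h8] at h7
    have h9 : |a n - a k| ≤ R + K := by rw [abs_le]; omega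
    omega
  have hleft : ∀ v ∈ x :: s1, (G.dist ((h ^ (n : ℤ)) x) v : ℤ) ≤ ρ := by
    intro v hv
    have h1 := hs1 v hv
    have h6 := hG.tri ((h ^ (n : ℤ)) x) x v
    have h7 := hf2 ((h ^ (n : ℤ)) x) x
    have h8 : f ((h ^ (n : ℤ)) x) = a n := rfl
    rw [h8, ← ha0] at h7
    have h9 : |a n - a 0| ≤ R := by rw [abs_le]; omega
    omega
  have hright : ∀ v ∈ (h ^ (2 * n : ℤ)) x :: s2, (G.dist ((h ^ (n : ℤ)) x) v : ℤ) ≤ ρ := by
    intro v hv
    have h1 := hs2 v hv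
    have h6 := hG.tri ((h ^ (n : ℤ)) x) ((h ^ (2 * n : ℤ)) x) v
    have h7 := hf2 ((h ^ (n : ℤ)) x) ((h ^ (2 * n : ℤ)) x)
    have h8 : f ((h ^ (n : ℤ)) x) = a n := rfl
    have h8' : f ((h ^ (2 * n : ℤ)) x) = a (2 * n) := rfl
    rw [h8, h8'] at h7
    have h9 : |a n - a (2 * n)| ≤ R + K := by rw [abs_le]; omega
    omega
  have hJl := hmono (-J) 0 (by omega)
  have hJr := hmono (2 * n) (2 * n + J) (by omega)
  have hll := hmono (-J) (2 * n + J) (by omega)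
  refine ⟨τ₁, τ₂, F', by omega, by omega, by omega, ?_, ?_⟩
  · intro s hs'
    obtain ⟨e1, e2, e3⟩ := k3 s hs'
    refine ⟨e1, e2, ?_, ?_⟩
    · intro z hz
      rw [hσ0]
      have h1 : (G.dist ((h ^ (n : ℤ)) x) z : ℤ) ≤ ρ := by
        rcases e3 z (List.mem_cons_of_mem _ hz) with (h2 | ⟨-, h2⟩) | h2
        · exact hleft z h2
        · exact (hmid z h2).2.2
        · exact hright z h2
      exact_mod_cast h1
    · intro i hi hi' hz
      push_cast at hi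
      have hfi := hσf0 i hi
      rw [abs_le] at hfi
      rcases hi' with hi' | hi'
      · rcases e3 _ (List.mem_cons_of_mem _ hz) with (h2 | ⟨-, h2⟩) | h2
        · exact p7 i hi hi' h2
        · have := (hmid _ h2).1
          omega
        · have := hs2f _ h2
          rw [abs_le] at this
          omega
      · rcases e3 _ (List.mem_cons_of_mem _ hz) with (h2 | ⟨-, h2⟩) | h2
        · have := hs1f _ h2
          rw [abs_le] at this
          omega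
        · have := (hmid _ h2).2.1
          omega
        · exact q7 (-i) (by rwa [abs_neg]) (by omega) (by simpa using h2)
  · have e1 : (∑ s ∈ F', t ^ s.length) = t ^ s1.length * fw t F ^ (2 * n) * t ^ s2.length := by
      have : fw t F' = fw t {s1} * fw t F2 * fw t {s2} := by rw [k4, k2, g2]
      rw [f2] at this
      simpa [fw] using this
    rw [e1]
    have e2 : (2 * ρ + 1) - (τ₂ - τ₁).toNat ≤ E := by omega
    have hw0 : (0 : ℝ) ≤ fw t F := by linarith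
    have e3 : t ^ D ≤ t ^ s1.length := pow_le_pow_of_le_one ht.le ht1 (by omega)
    have e4 : t ^ D ≤ t ^ s2.length := pow_le_pow_of_le_one ht.le ht1 (by omega)
    have e5 : t ^ E ≤ t ^ (2 * ρ + 1 - (τ₂ - τ₁).toNat) := pow_le_pow_of_le_one ht.le ht1 e2
    have e6 : (2 : ℝ) ^ (2 * n) ≤ fw t F ^ (2 * n) := pow_le_pow_left₀ (by norm_num) hw _
    calc (2 : ℝ) ≤ 2 ^ (2 * n) * t ^ (2 * D + E) := hn3
      _ = t ^ D * 2 ^ (2 * n) * t ^ D * t ^ E := by
          rw [two_mul D, pow_add, pow_add]; ring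
      _ ≤ t ^ s1.length * fw t F ^ (2 * n) * t ^ s2.length *
          t ^ (2 * ρ + 1 - (τ₂ - τ₁).toNat) := by
          gcongr

/-! ### Reductions -/

lemma IsSeg.rev {p : ℕ} {σ : ℤ → V} (h : IsSeg G p σ) : IsSeg G p (fun i => σ (-i)) := by
  intro i j hi hj
  have := h (-i) (-j) (by rwa [abs_neg]) (by rwa [abs_neg])
  rw [this, show -i - -j = -(i - j) by ring, abs_neg]

lemma IsSeg.map (hG : TG G) {p : ℕ} {σ : ℤ → V} (h : IsSeg G p σ) (φ : G ≃g G) :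
    IsSeg G p (fun i => φ (σ i)) := by
  intro i j hi hj
  show (G.dist (φ (σ i)) (φ (σ j)) : ℤ) = _
  rw [dist_iso hG.conn]
  exact h i j hi hj

lemma QLn.neg {f : V → ℤ} {C : ℕ} (hf : QLn G f C) : QLn G (fun y => -f y) C := by
  intro y z
  have := hf y z
  rwa [show -f y - -f z = -(f y - f z) by ring, abs_neg]

/-- squares of automorphisms preserve the order -/
lemma sq_pos (hG : TG G) {f : V → ℤ} {C : ℕ} (hf : QLn G f C) (φ : G ≃g G) (y z : V) :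
    |f (φ (φ y)) - f (φ (φ z)) - (f y - f z)| ≤ ((36 * C : ℕ) : ℤ) := by
  have h0 : ∀ y z, |(|f (φ y) - f (φ z)|) - (|f y - f z|)| ≤ ((2 * C : ℕ) : ℤ) := by
    intro y z
    have h1 := hf y z
    have h2 := hf (φ y) (φ z)
    rw [dist_iso hG.conn] at h2
    rw [abs_le] at *
    push_cast
    constructor <;> linarith [h1.1, h1.2, h2.1, h2.2]
  rcases coarse_sign (fun y => f (φ y)) f (2 * C) h0 with h | h
  · have h1 := h (φ y) (φ z)
    have h2 := h y z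
    rw [abs_le] at *
    push_cast at *
    constructor <;> linarith [h1.1, h1.2, h2.1, h2.2]
  · have h1 := h (φ y) (φ z)
    have h2 := h y z
    rw [abs_le] at *
    push_cast at *
    constructor <;> linarith [h1.1, h1.2, h2.1, h2.2]

lemma fm_dist {x y : V} {A : Set V} {F : Finset (List V)} (h : Fm G x y A F) :
    ∃ l : ℕ, Fm G x y (A ∩ {z | G.dist x z ≤ l}) F := by
  refine ⟨F.sup List.length, fun s hs => ?_⟩
  obtain ⟨h1, h2, h3⟩ := h s hs
  refine ⟨h1, h2, fun z hz => ⟨h3 z hz, ?_⟩⟩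
  exact (dist_mem_ch h1.1 hz).trans (Finset.le_sup (f := List.length) hs)

lemma thin_core' (hG : TG G) (hs : HS G) (f : V → ℤ) (C : ℕ) (hf : QLn G f C) {h : G ≃g G}
    (hh : h ∈ hs.Γ) (hχ : 0 < hs.χ h) (K : ℕ)
    (hK : ∀ j : ℤ, ∀ y z, |f ((h ^ j) y) - f ((h ^ j) z) - (f y - f z)| ≤ (K : ℤ))
    (x : V) (hT : (K : ℤ) + 1 ≤ f (h x) - f x) (F : Finset (List V)) (l0 : ℕ)
    (hF : Fm G x (h x) (rg hs x (h x) ∩ {z | G.dist x z ≤ l0}) F)
    (t : ℝ) (ht : 0 < t) (ht1 : t ≤ 1) (hw : 2 ≤ fw t F) :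
    ∃ p ρ : ℕ, 2 * ρ < p ∧ Super G t p ρ := by
  obtain ⟨p, ρ, n, hρ, hcore⟩ := thin_core hG hs f C hf hh hχ K hK x hT F l0 hF t ht ht1 hw
  refine ⟨p, ρ, hρ, fun σ hσ => ?_⟩
  show SupAt G t p ρ σ
  obtain ⟨φ, hφ⟩ := hG.tr (σ 0) ((h ^ n) x)
  apply SupAt_map hG t p ρ σ φ
  have hσ1 := hσ.map hG φ
  set σ1 : ℤ → V := fun i => φ (σ i) with hσ1d
  have h0 : ∀ i j : {i : ℤ // |i| ≤ p},
      |(|f (σ1 i) - f (σ1 j)|) - (|(i : ℤ) - (j : ℤ)|)| ≤ (C : ℤ) := by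
    intro i j
    rw [← hσ1 i j i.2 j.2]
    exact hf (σ1 i) (σ1 j)
  rcases coarse_sign (fun i : {i : ℤ // |i| ≤ p} => f (σ1 i)) (fun i => (i : ℤ)) C h0 with h1 | h1
  · exact hcore σ1 hσ1 hφ (fun i j hi hj => h1 ⟨i, hi⟩ ⟨j, hj⟩)
  · apply SupAt_rev t p ρ (by omega) σ1 hσ1
    refine hcore _ hσ1.rev (by simpa using hφ) (fun i j hi hj => ?_)
    have := h1 ⟨-i, by rwa [abs_neg]⟩ ⟨-j, by rwa [abs_neg]⟩
    simp only at this
    rwa [show f (σ1 (-i)) - f (σ1 (-j)) - (i - j) = f (σ1 (-i)) - f (σ1 (-j)) + (-i - -j) by ring]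

theorem thin_super (hG : TG G) (hinf : Infinite V) (hs : HS G) (f : V → ℤ) (C : ℕ)
    (hf : QLn G f C) (g : G ≃g G) (hg : g ∈ hs.Γ) (hχ : 0 < hs.χ g) (x : V)
    (F : Finset (List V))
    (hF : Fm G x (g x) {z | z = g x ∨ (hs.u x ≤ hs.u z ∧ hs.u z < hs.u (g x))} F)
    (t : ℝ) (ht : 0 < t) (ht1 : t ≤ 1) (hw : 2 ≤ fw t F) :
    ∃ p ρ : ℕ, 2 * ρ < p ∧ Super G t p ρ := by
  have _ := hinf
  obtain ⟨L, hL⟩ := exists_lip_dist hG hs
  have hχ1 : (1 : ℝ) ≤ hs.χ g := by exact_mod_cast hχ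
  -- the power
  obtain ⟨n, hn1, hn2⟩ : ∃ n : ℕ, 1 ≤ n ∧ (L : ℝ) * (37 * C) < 2 * n * hs.χ g := by
    refine ⟨L * (37 * C) + 1, by omega, ?_⟩
    have h1 : (L : ℝ) * (37 * C) < 2 * (L * (37 * C) + 1 : ℕ) := by
      push_cast
      have : (0 : ℝ) ≤ L * (37 * C) := by positivity
      linarith
    exact h1.trans_le (le_mul_of_one_le_right (by positivity) hχ1)
  obtain ⟨l, hFl⟩ := fm_dist hF
  obtain ⟨F', h1, h2⟩ := rg_pow hG hs hg hχ x F l hFl t (2 * n) (by omega)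
  obtain ⟨l0, h3⟩ := fm_dist (h1.mono Set.inter_subset_left)
  have hh : g ^ (2 * n) ∈ hs.Γ := hs.Γ.pow_mem hg _
  have hχh : hs.χ (g ^ (2 * n)) = 2 * n * hs.χ g := by
    rw [← zpow_natCast, hs.chi_zpow hg]; push_cast; ring
  have hχ2 : 0 < hs.χ (g ^ (2 * n)) := by
    rw [hχh]; positivity
  have hw2 : 2 ≤ fw t F' := by
    rw [h2]
    calc (2 : ℝ) ≤ fw t F := hw
      _ = fw t F ^ 1 := (pow_one _).symm
      _ ≤ fw t F ^ (2 * n) := pow_le_pow_right₀ (by linarith) (by omega)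
  have hsq : ∀ (f' : V → ℤ), QLn G f' C → ∀ j : ℤ, ∀ y z,
      |f' (((g ^ (2 * n)) ^ j) y) - f' (((g ^ (2 * n)) ^ j) z) - (f' y - f' z)| ≤
        ((36 * C : ℕ) : ℤ) := by
    intro f' hf' j y z
    have e : (g ^ (2 * n)) ^ j = g ^ (n * j : ℤ) * g ^ (n * j : ℤ) := by
      rw [← zpow_natCast, ← zpow_mul, ← zpow_add]
      congr 1; push_cast; ring
    rw [e]
    exact sq_pos hG hf' (g ^ (n * j : ℤ)) y z
  have hbig : ((36 * C : ℕ) : ℤ) + 1 ≤ |f ((g ^ (2 * n)) x) - f x| := by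
    by_contra hcon
    push Not at hcon
    have h4 : |f ((g ^ (2 * n)) x) - f x| ≤ ((36 * C : ℕ) : ℤ) := by omega
    have h5 := hf ((g ^ (2 * n)) x) x
    rw [abs_le] at h5
    have h6 : (G.dist ((g ^ (2 * n)) x) x : ℤ) ≤ 37 * C := by
      push_cast at h4; linarith [h5.1]
    have h7 : (G.dist ((g ^ (2 * n)) x) x : ℝ) ≤ 37 * C := by exact_mod_cast h6
    have h8 := hL ((g ^ (2 * n)) x) x
    rw [hs.u_pow hg] at h8
    have h9 : (L : ℝ) * (G.dist ((g ^ (2 * n)) x) x : ℝ) ≤ L * (37 * C) :=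
      mul_le_mul_of_nonneg_left h7 (Nat.cast_nonneg _)
    rw [abs_le] at h8
    push_cast at h8
    linarith [h8.2]
  rcases le_total 0 (f ((g ^ (2 * n)) x) - f x) with hpos | hneg
  · rw [abs_of_nonneg hpos] at hbig
    exact thin_core' hG hs f C hf hh hχ2 (36 * C) (hsq f hf) x hbig F' l0 h3 t ht ht1 hw2
  · rw [abs_of_nonpos hneg] at hbig
    obtain ⟨f', hf'⟩ : ∃ f' : V → ℤ, f' = fun y => -f y := ⟨_, rfl⟩
    have hn : QLn G f' C := by rw [hf']; exact hf.neg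
    have hb : ((36 * C : ℕ) : ℤ) + 1 ≤ f' ((g ^ (2 * n)) x) - f' x := by
      have e1 : f' ((g ^ (2 * n)) x) = -f ((g ^ (2 * n)) x) := by rw [hf']
      have e2 : f' x = -f x := by rw [hf']
      rw [e1, e2]
      linarith
    exact thin_core' hG hs f' C hn hh hχ2 (36 * C) (hsq f' hn) x hb F' l0 h3 t ht ht1 hw2

end THINS

end Pool.H61.ST

end S_H61_ST_Thins

section S_H61_ST_Suptr

set_option autoImplicit false

/-! Module SUPTR: transfer of superblocks through isomorphic balls. -/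

namespace Pool.H61.ST

open Finset Pool.Agent.H61.SW Pool.H98.C Filter

variable {V W : Type} {G : SimpleGraph V} {G' : SimpleGraph W}

/-- chains in the ball are mapped to chains -/
theorem h59_ch_ball (o : V) (n : ℕ) (f : V → W)
    (hadj : ∀ x y, G.dist o x ≤ n → G.dist o y ≤ n → G.Adj x y → G'.Adj (f x) (f y)) :
    ∀ (s : List V) (v : V), (∀ x ∈ v :: s, G.dist o x ≤ n) → ch G v s → ch G' (f v) (s.map f) := by
  intro s
  induction s with
  | nil => intros; trivial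
  | cons a s ih =>
    intro v h1 h2
    exact ⟨hadj _ _ (h1 v (by simp)) (h1 a (by simp)) h2.1,
      ih a (fun x hx => h1 x (List.mem_cons_of_mem _ hx)) h2.2⟩

/-- distances do not increase under a map of balls -/
theorem h59_dist_ball (hG : TG G) (o : V) (n : ℕ) (f : V → W)
    (hadj : ∀ x y, G.dist o x ≤ n → G.dist o y ≤ n → G.Adj x y → G'.Adj (f x) (f y))
    (x y : V) (h : G.dist o x + G.dist x y ≤ n) : G'.dist (f x) (f y) ≤ G.dist x y := by
  have h1 := h59_ch_ball o n f hadj (geo hG x y) x (by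
    intro z hz
    have h2 := dist_mem_ch (ch_geo hG x y) hz
    rw [length_geo] at h2
    have h3 := hG.tri o x z
    omega) (ch_geo hG x y)
  have h2 := dist_en_le _ _ h1
  rwa [en_map, en_geo, List.length_map, length_geo] at h2

/-- the maps between the balls -/
theorem h59_maps (o : V) (o' : W) (n : ℕ)
    (φ : G.induce {v | G.dist o v ≤ n} ≃g G'.induce {v | G'.dist o' v ≤ n})
    (hφ : ∀ x : {v | G.dist o v ≤ n}, (x : V) = o → ((φ x : {v | G'.dist o' v ≤ n}) : W) = o') :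
    ∃ (f : V → W) (g : W → V), f o = o' ∧ g o' = o ∧
      (∀ x, G.dist o x ≤ n → G'.dist o' (f x) ≤ n ∧ g (f x) = x) ∧
      (∀ y, G'.dist o' y ≤ n → G.dist o (g y) ≤ n ∧ f (g y) = y) ∧
      (∀ x y, G.dist o x ≤ n → G.dist o y ≤ n → G.Adj x y → G'.Adj (f x) (f y)) ∧
      (∀ x y, G'.dist o' x ≤ n → G'.dist o' y ≤ n → G'.Adj x y → G.Adj (g x) (g y)) := by
  classical
  let f : V → W := fun x => if h : G.dist o x ≤ n then (φ ⟨x, h⟩ : W) else o'
  let g : W → V := fun x => if h : G'.dist o' x ≤ n then (φ.symm ⟨x, h⟩ : V) else o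
  have hf : ∀ x (h : G.dist o x ≤ n), f x = (φ ⟨x, h⟩ : W) := fun x h => by simp [f, h]
  have hg : ∀ x (h : G'.dist o' x ≤ n), g x = (φ.symm ⟨x, h⟩ : V) := fun x h => by simp [g, h]
  refine ⟨f, g, ?_, ?_, ?_, ?_, ?_, ?_⟩
  · rw [hf o (by simp)]
    exact hφ ⟨o, by simp⟩ rfl
  · rw [hg o' (by simp)]
    exact iso_symm_root o o' n φ hφ ⟨o', by simp⟩ rfl
  · intro x hx
    rw [hf x hx]
    have h1 : G'.dist o' (φ ⟨x, hx⟩ : W) ≤ n := (φ ⟨x, hx⟩).2
    refine ⟨h1, ?_⟩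
    rw [hg _ h1]
    have : (⟨(φ ⟨x, hx⟩ : W), h1⟩ : {v | G'.dist o' v ≤ n}) = φ ⟨x, hx⟩ := rfl
    rw [this, φ.symm_apply_apply]
  · intro y hy
    rw [hg y hy]
    have h1 : G.dist o (φ.symm ⟨y, hy⟩ : V) ≤ n := (φ.symm ⟨y, hy⟩).2
    refine ⟨h1, ?_⟩
    rw [hf _ h1]
    have : (⟨(φ.symm ⟨y, hy⟩ : V), h1⟩ : {v | G.dist o v ≤ n}) = φ.symm ⟨y, hy⟩ := rfl
    rw [this, φ.apply_symm_apply]
  · intro x y hx hy hxy
    rw [hf x hx, hf y hy]
    have : (G.induce {v | G.dist o v ≤ n}).Adj ⟨x, hx⟩ ⟨y, hy⟩ := hxy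
    exact φ.map_adj_iff.2 this
  · intro x y hx hy hxy
    rw [hg x hx, hg y hy]
    have : (G'.induce {v | G'.dist o' v ≤ n}).Adj ⟨x, hx⟩ ⟨y, hy⟩ := hxy
    exact φ.symm.map_adj_iff.2 this

theorem super_transfer (hG : TG G) (hG' : TG G') (o : V) (o' : W) (t : ℝ) (p ρ : ℕ)
    (hρ : 2 * ρ < p) (n : ℕ) (hn : 4 * p ≤ n)
    (φ : G.induce {v | G.dist o v ≤ n} ≃g G'.induce {v | G'.dist o' v ≤ n})
    (hφ : ∀ x : {v | G.dist o v ≤ n}, (x : V) = o → ((φ x : {v | G'.dist o' v ≤ n}) : W) = o')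
    (hS : Super G t p ρ) : Super G' t p ρ := by
  classical
  obtain ⟨f, g, fo, go, hf, hg, fadj, gadj⟩ := h59_maps o o' n φ hφ
  have fd := h59_dist_ball hG o n f fadj
  have gd := h59_dist_ball hG' o' n g gadj
  have fo' : ∀ x, G.dist o x ≤ n → G'.dist o' (f x) ≤ G.dist o x := fun x hx => by
    have := fd o x (by simpa using hx)
    rwa [fo] at this
  have go' : ∀ y, G'.dist o' y ≤ n → G.dist o (g y) ≤ G'.dist o' y := fun y hy => by
    have := gd o' y (by simpa using hy)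
    rwa [go] at this
  intro σ' hσ'
  obtain ⟨α, hα⟩ := hG'.tr (σ' 0) o'
  -- distances of the moved segment
  have hd : ∀ i j : ℤ, |i| ≤ p → |j| ≤ p → (G'.dist (α (σ' i)) (α (σ' j)) : ℤ) = |i - j| := by
    intro i j hi hj
    rw [dist_iso hG'.conn]
    exact hσ' i j hi hj
  have hd0 : ∀ i : ℤ, |i| ≤ p → (G'.dist o' (α (σ' i)) : ℤ) = |i| := by
    intro i hi
    have := hd 0 i (by simp) hi
    rw [hα] at this
    rw [this, zero_sub, abs_neg]
  have hd0' : ∀ i : ℤ, |i| ≤ p → G'.dist o' (α (σ' i)) ≤ n := by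
    intro i hi
    have := hd0 i hi
    omega
  have hseg : IsSeg G p (fun i => g (α (σ' i))) := by
    intro i j hi hj
    have h1 := hd i j hi hj
    have h2 := hd0 i hi
    have h3 : |i - j| ≤ 2 * p := by
      have := abs_sub i j
      have h4 : |i - j| ≤ |i| + |j| := abs_sub _ _
      omega
    have h4 := gd (α (σ' i)) (α (σ' j)) (by omega)
    have h5 := go' (α (σ' i)) (hd0' i hi)
    have h6 := fd (g (α (σ' i))) (g (α (σ' j))) (by omega)
    rw [(hg _ (hd0' i hi)).2, (hg _ (hd0' j hj)).2] at h6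
    show (G.dist (g (α (σ' i))) (g (α (σ' j))) : ℤ) = |i - j|
    omega
  obtain ⟨τ₁, τ₂, F, t1, t2, t3, hF, hw⟩ := hS _ hseg
  have hτ₁ : |τ₁| ≤ p := by rw [abs_le]; omega
  have hτ₂ : |τ₂| ≤ p := by rw [abs_le]; omega
  have hg0 : g (α (σ' 0)) = o := by rw [hα, go]
  -- everything lies in the ball
  have hball : ∀ s ∈ F, ∀ z ∈ g (α (σ' τ₁)) :: s, G.dist o z ≤ n := by
    intro s hs z hz
    rcases List.mem_cons.1 hz with rfl | hz
    · exact (hg _ (hd0' τ₁ hτ₁)).1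
    · have := (hF s hs).2.2.1 z hz
      rw [hg0] at this
      omega
  have hmapg : ∀ s ∈ F, (s.map f).map g = s := by
    intro s hs
    rw [List.map_map]
    conv_rhs => rw [← List.map_id s]
    refine List.map_congr_left fun z hz => ?_
    exact (hf z (hball s hs z (List.mem_cons_of_mem _ hz))).2
  refine ⟨τ₁, τ₂, F.image (fun s => (s.map f).map α.symm), t1, t2, t3, ?_, ?_⟩
  · intro s' hs'
    obtain ⟨s, hs, rfl⟩ := Finset.mem_image.1 hs'
    obtain ⟨a1, a2, a3, a4⟩ := hF s hs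
    have e1 : f (g (α (σ' τ₁))) = α (σ' τ₁) := (hg _ (hd0' τ₁ hτ₁)).2
    have e2 : f (g (α (σ' τ₂))) = α (σ' τ₂) := (hg _ (hd0' τ₂ hτ₂)).2
    have b1 : sa G' (α (σ' τ₁)) (s.map f) := by
      rw [← e1]
      refine ⟨h59_ch_ball o n f fadj s _ (hball s hs) a1.1, ?_⟩
      show (List.map f (g (α (σ' τ₁)) :: s)).Nodup
      refine List.Nodup.map_on ?_ a1.2
      intro x hx y hy hxy
      have h1 := (hf x (hball s hs x hx)).2
      have h2 := (hf y (hball s hs y hy)).2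
      rw [← h1, ← h2, hxy]
    have b2 : en (α (σ' τ₁)) (s.map f) = α (σ' τ₂) := by
      rw [← e1, en_map, a2, e2]
    refine ⟨?_, ?_, ?_, ?_⟩
    · have := (sa_map α.symm (α (σ' τ₁)) (s.map f)).2 b1
      rwa [α.symm_apply_apply] at this
    · have : en (α.symm (α (σ' τ₁))) ((s.map f).map α.symm) = α.symm (en (α (σ' τ₁)) (s.map f)) :=
        en_map _ _ _
      rw [α.symm_apply_apply] at this
      rw [this, b2, α.symm_apply_apply]
    · intro z hz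
      obtain ⟨w, hw1, rfl⟩ := List.mem_map.1 hz
      obtain ⟨v, hv1, rfl⟩ := List.mem_map.1 hw1
      have h1 := a3 v hv1
      rw [hg0] at h1
      have h2 := fo' v (hball s hs v (List.mem_cons_of_mem _ hv1))
      have h3 : G'.dist (α (σ' 0)) (α (α.symm (f v))) = G'.dist (σ' 0) (α.symm (f v)) :=
        dist_iso hG'.conn α _ _
      rw [hα, α.apply_symm_apply] at h3
      rw [← h3]
      omega
    · intro i hi hi2 hmem
      obtain ⟨w, hw1, hw2⟩ := List.mem_map.1 hmem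
      obtain ⟨v, hv1, rfl⟩ := List.mem_map.1 hw1
      have h1 : f v = α (σ' i) := by rw [← hw2, α.apply_symm_apply]
      have h2 := (hf v (hball s hs v (List.mem_cons_of_mem _ hv1))).2
      rw [h1] at h2
      exact a4 i hi hi2 (by rw [h2]; exact hv1)
  · rw [Finset.sum_image]
    · simpa only [List.length_map] using hw
    · intro s hs s' hs' heq
      have h1 : s.map f = s'.map f := List.map_injective_iff.2 α.symm.injective heq
      rw [← hmapg s hs, ← hmapg s' hs', h1]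

end Pool.H61.ST

end S_H61_ST_Suptr

section S_H61_ST_Chain2Core

set_option autoImplicit false

/-! Module CHAIN2: superblocks along a geodesic line (the line is an argument here). -/

namespace Pool.H61.ST

open Finset Pool.Agent.H61.SW Pool.H98.C Filter

namespace Chain2

variable {V : Type} {G : SimpleGraph V}

lemma fm_mono {x y : V} {A B : Set V} {F : Finset (List V)} (h : Fm G x y A F) (hAB : A ⊆ B) :
    Fm G x y B F := fun s hs => ⟨(h s hs).1, (h s hs).2.1, fun z hz => hAB ((h s hs).2.2 z hz)⟩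

/-- a self-avoiding walk is determined by its concatenation with another one once the junction is
known -/
lemma split_unique {x y : V} {s1 s2 u1 u2 : List V} (h1 : en x s1 = y) (h2 : en x s2 = y)
    (hn : (x :: (s1 ++ u1)).Nodup) (h : s1 ++ u1 = s2 ++ u2) : s1 = s2 ∧ u1 = u2 := by
  induction s1 generalizing x s2 with
  | nil =>
    cases s2 with
    | nil => exact ⟨rfl, by simpa using h⟩
    | cons a s2 =>
      exfalso
      simp only [en_nil] at h1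
      subst h1
      simp only [List.nil_append] at h hn
      rw [h] at hn
      have h3 : x ∈ a :: s2 := by
        have := en_mem x (a :: s2) (by simp)
        rw [h2] at this; exact this
      rw [List.nodup_cons] at hn
      exact hn.1 (List.mem_append_left _ h3)
  | cons a s1 ih =>
    cases s2 with
    | nil =>
      exfalso
      simp only [en_nil] at h2
      subst h2
      have h3 : x ∈ a :: s1 := by
        have := en_mem x (a :: s1) (by simp)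
        rw [h1] at this; exact this
      rw [List.nodup_cons] at hn
      exact hn.1 (List.mem_append_left _ h3)
    | cons b s2 =>
      simp only [List.cons_append, List.cons.injEq] at h
      obtain ⟨rfl, h⟩ := h
      have hn' : (a :: (s1 ++ u1)).Nodup := (List.nodup_cons.1 hn).2
      obtain ⟨h3, h4⟩ := ih (x := a) (s2 := s2) (by simpa using h1) (by simpa using h2) hn' h
      exact ⟨by rw [h3], h4⟩

/-- concatenation of two families -/
lemma comb {x y z : V} {A B : Set V} {F₁ F₂ : Finset (List V)} (t : ℝ)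
    (h1 : Fm G x y A F₁) (h2 : Fm G y z B F₂) (hAB : ∀ v, v ∈ A → v ∈ B → v = y) :
    ∃ F, Fm G x z (A ∪ B) F ∧ fw t F = fw t F₁ * fw t F₂ := by
  classical
  have key : ∀ s1 ∈ F₁, ∀ s2 ∈ F₂, sa G x (s1 ++ s2) := by
    intro s1 hs1 s2 hs2
    obtain ⟨a1, a2, a3⟩ := h1 s1 hs1
    obtain ⟨b1, b2, b3⟩ := h2 s2 hs2
    refine ⟨(ch_append _ _ _).2 ⟨a1.1, by rw [a2]; exact b1.1⟩, ?_⟩
    rw [← List.cons_append, List.nodup_append]
    refine ⟨a1.2, (List.nodup_cons.1 b1.2).2, ?_⟩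
    rintro v hv w hw rfl
    have := hAB v (a3 v hv) (b3 v (List.mem_cons_of_mem _ hw))
    subst this
    exact (List.nodup_cons.1 b1.2).1 hw
  refine ⟨(F₁ ×ˢ F₂).image fun q => q.1 ++ q.2, ?_, ?_⟩
  · intro s hs
    rw [Finset.mem_image] at hs
    obtain ⟨⟨s1, s2⟩, hq, rfl⟩ := hs
    rw [Finset.mem_product] at hq
    obtain ⟨a1, a2, a3⟩ := h1 s1 hq.1
    obtain ⟨b1, b2, b3⟩ := h2 s2 hq.2
    refine ⟨key s1 hq.1 s2 hq.2, by rw [en_append, a2, b2], ?_⟩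
    intro v hv
    rw [← List.cons_append, List.mem_append] at hv
    rcases hv with hv | hv
    · exact Or.inl (a3 v hv)
    · exact Or.inr (b3 v (List.mem_cons_of_mem _ hv))
  · unfold fw
    rw [Finset.sum_image, Finset.sum_product, Finset.sum_mul]
    · refine Finset.sum_congr rfl fun s1 _ => ?_
      rw [Finset.mul_sum]
      refine Finset.sum_congr rfl fun s2 _ => ?_
      rw [List.length_append, pow_add]
    · rintro ⟨s1, s2⟩ hs ⟨u1, u2⟩ hu h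
      simp only [Finset.coe_product, Set.mem_prod, Finset.mem_coe] at hs hu
      obtain ⟨h3, h4⟩ := split_unique (x := x) (y := y) (h1 s1 hs.1).2.1 (h1 u1 hu.1).2.1
        (key s1 hs.1 s2 hs.2).2 h
      rw [h3, h4]

/-- pieces of a line -/
def pc (γ : ℤ → V) (a : ℤ) (n : ℕ) : List V := (List.range n).map fun i : ℕ => γ (a + i + 1)

lemma pc_succ (γ : ℤ → V) (a : ℤ) (n : ℕ) : pc γ a (n + 1) = γ (a + 1) :: pc γ (a + 1) n := by
  unfold pc
  rw [List.range_succ_eq_map, List.map_cons, List.map_map]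
  simp only [Nat.cast_zero, add_zero, List.cons.injEq, true_and]
  refine List.map_congr_left fun i _ => ?_
  simp only [Function.comp_apply, Nat.cast_succ]
  congr 1
  ring

lemma mem_pc {γ : ℤ → V} {a : ℤ} {n : ℕ} {z : V} (hz : z ∈ γ a :: pc γ a n) :
    ∃ i : ℤ, a ≤ i ∧ i ≤ a + n ∧ z = γ i := by
  rcases List.mem_cons.1 hz with rfl | hz
  · exact ⟨a, le_rfl, by omega, rfl⟩
  · unfold pc at hz
    rw [List.mem_map] at hz
    obtain ⟨i, hi, rfl⟩ := hz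
    rw [List.mem_range] at hi
    exact ⟨a + i + 1, by omega, by omega, rfl⟩

lemma line_inj {γ : ℤ → V} (hγ : IsLine G γ) {i j : ℤ} (h : γ i = γ j) : i = j := by
  have := hγ i j
  rw [h, SimpleGraph.dist_self] at this
  have h2 : |i - j| = 0 := by simpa using this.symm
  have := abs_eq_zero.1 h2
  omega

lemma pc_sa {γ : ℤ → V} (hγ : IsLine G γ) (a : ℤ) (n : ℕ) :
    sa G (γ a) (pc γ a n) ∧ en (γ a) (pc γ a n) = γ (a + n) ∧ (pc γ a n).length = n := by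
  refine ⟨⟨?_, ?_⟩, ?_, by simp [pc]⟩
  · induction n generalizing a with
    | zero => simp [pc, ch]
    | succ n ih =>
      rw [pc_succ]
      refine ⟨?_, ih (a + 1)⟩
      rw [← SimpleGraph.dist_eq_one_iff_adj]
      have := hγ a (a + 1)
      have h2 : |a - (a + 1)| = 1 := by
        rw [show a - (a + 1) = -1 by ring]; rfl
      rw [h2] at this
      exact_mod_cast this
  · rw [List.nodup_cons]
    constructor
    · intro h
      unfold pc at h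
      rw [List.mem_map] at h
      obtain ⟨i, hi, h⟩ := h
      have := line_inj hγ h
      omega
    · unfold pc
      refine (List.nodup_map_iff_inj_on List.nodup_range).2 ?_
      intro i _ j _ h
      have := line_inj hγ h
      omega
  · induction n generalizing a with
    | zero => simp [pc]
    | succ n ih =>
      rw [pc_succ, en_cons, ih (a + 1)]
      congr 1
      push_cast
      ring

/-- a summable generating function bounds the weight of every finite family -/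
lemma fw_le (hG : TG G) (o x : V) (t : ℝ) (ht : 0 < t)
    (hsum : Summable (fun k : ℕ => (cnt (sa G) o k : ℝ) * t ^ k)) (F : Finset (List V))
    (hF : ∀ s ∈ F, sa G x s) : fw t F ≤ ∑' k : ℕ, (cnt (sa G) o k : ℝ) * t ^ k := by
  classical
  have hc : ∀ k, cnt (sa G) x k = cnt (sa G) o k := by
    intro k
    obtain ⟨φ, hφ⟩ := hG.tr o x
    rw [← hφ, cnt_map (sa G) φ o (fun s => sa_map φ o s)]
  obtain ⟨N, hN⟩ : ∃ N, ∀ s ∈ F, s.length < N := by
    refine ⟨F.sup List.length + 1, fun s hs => ?_⟩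
    exact Nat.lt_succ_of_le (Finset.le_sup (f := List.length) hs)
  have h1 : fw t F ≤ ∑ k ∈ Finset.range N, (cnt (sa G) o k : ℝ) * t ^ k := by
    unfold fw
    rw [← Finset.sum_fiberwise_of_maps_to (s := F) (t := Finset.range N)
      (g := fun s : List V => s.length) (fun s hs => Finset.mem_range.2 (hN s hs))]
    refine Finset.sum_le_sum fun k _ => ?_
    have h2 : ∑ s ∈ F with s.length = k, t ^ s.length = ((F.filter fun s => s.length = k).card : ℝ) * t ^ k := by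
      rw [Finset.sum_congr rfl (g := fun _ => t ^ k)
        (fun s hs => by rw [(Finset.mem_filter.1 hs).2]), Finset.sum_const, nsmul_eq_mul]
    rw [h2]
    refine mul_le_mul_of_nonneg_right ?_ (pow_nonneg ht.le _)
    rw [← hc k]
    have hfin : {s : List V | s.length = k ∧ sa G x s}.Finite :=
      fin_of_imp hG.lf (fun _ _ h => h.1) k x
    unfold cnt
    rw [Set.ncard_eq_toFinset_card _ hfin]
    exact_mod_cast Finset.card_le_card fun s hs => by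
      rw [Finset.mem_filter] at hs
      rw [Set.Finite.mem_toFinset]
      exact ⟨hs.2, hF s hs.1⟩
  exact h1.trans (hsum.sum_le_tsum _ (fun k _ => mul_nonneg (Nat.cast_nonneg _) (pow_nonneg ht.le _)))

/-- the chain of superblocks -/
lemma chain (hG : TG G) {γ : ℤ → V} (hγ : IsLine G γ) (t : ℝ) (ht : 0 < t) (ht1 : t ≤ 1) (p ρ : ℕ)
    (hρ : 2 * ρ < p) (τ₁ τ₂ : ℤ → ℤ) (H : ℤ → Finset (List V))
    (hτ : ∀ k, -(ρ : ℤ) ≤ τ₁ k ∧ τ₁ k ≤ τ₂ k ∧ τ₂ k ≤ ρ)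
    (hH : ∀ k, ∀ s ∈ H k, sa G (γ (p * k + τ₁ k)) s ∧ en (γ (p * k + τ₁ k)) s = γ (p * k + τ₂ k) ∧
      (∀ z ∈ s, G.dist (γ (p * k)) z ≤ ρ) ∧
        ∀ i : ℤ, |i| ≤ p → (i < τ₁ k ∨ τ₂ k < i) → γ (p * k + i) ∉ s)
    (hw : ∀ k, 2 ≤ fw t (H k) * t ^ (p - (τ₂ k - τ₁ k).toNat)) (K : ℕ) :
    ∃ F : Finset (List V), Fm G (γ (τ₁ 0)) (γ (p * K + τ₁ K))
      {z | (∃ j : ℤ, j < K ∧ G.dist (γ (p * j)) z ≤ ρ) ∨ ∃ i : ℤ, i ≤ p * K + τ₁ K ∧ z = γ i} F ∧
      2 ^ K * t ^ (2 * ρ) ≤ fw t F * t ^ (ρ - τ₁ K).toNat := by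
  classical
  induction K with
  | zero =>
    refine ⟨{[]}, ?_, ?_⟩
    · intro s hs
      rw [Finset.mem_singleton] at hs
      subst hs
      refine ⟨sa_nil _, by simp, ?_⟩
      intro z hz
      rw [List.mem_singleton] at hz
      exact Or.inr ⟨τ₁ 0, by simp, hz⟩
    · simp only [pow_zero, one_mul, fw, Finset.sum_singleton, List.length_nil, Nat.cast_zero]
      refine pow_le_pow_of_le_one ht.le ht1 ?_
      have := hτ 0
      omega
  | succ K ih =>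
    obtain ⟨F, hF, hFw⟩ := ih
    obtain ⟨c1, c2, c3⟩ := hτ K
    obtain ⟨d1, d2, d3⟩ := hτ (K + 1)
    have hmul : (p : ℤ) * (K + 1) = p * K + p := by ring
    have hB : Fm G (γ (p * K + τ₁ K)) (γ (p * K + τ₂ K))
        {z | z = γ (p * K + τ₁ K) ∨ (G.dist (γ (p * K)) z ≤ ρ ∧
          ∀ i : ℤ, |i| ≤ p → (i < τ₁ K ∨ τ₂ K < i) → z ≠ γ (p * K + i))} (H K) := by
      intro s hs
      obtain ⟨a1, a2, a3, a4⟩ := hH K s hs
      refine ⟨a1, a2, fun z hz => ?_⟩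
      rcases List.mem_cons.1 hz with rfl | hz
      · exact Or.inl rfl
      · refine Or.inr ⟨a3 z hz, fun i hi hi' h => ?_⟩
        rw [h] at hz
        exact a4 i hi hi' hz
    have far : ∀ j : ℤ, j < K → ∀ v, G.dist (γ (p * j)) v ≤ ρ → G.dist (γ (p * K)) v ≤ ρ → False := by
      intro j hj v hj' hv1
      have h1 := hγ (p * j) (p * K)
      have h2 : (G.dist (γ (p * j)) (γ (p * K)) : ℤ) ≤ 2 * ρ := by
        have := hG.tri (γ (p * j)) v (γ (p * K))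
        rw [G.dist_comm (u := v)] at this
        omega
      rw [h1, ← mul_sub, abs_mul] at h2
      have h3 : (1 : ℤ) ≤ |j - K| := by
        rw [abs_sub_comm, abs_of_pos] <;> omega
      have h4 : |(p : ℤ)| = p := abs_of_nonneg (by omega)
      rw [h4] at h2
      nlinarith
    obtain ⟨F1, hF1, hw1⟩ := comb t hF hB (by
      rintro v hv (hv' | ⟨hv1, hv2⟩)
      · exact hv'
      · rcases hv with ⟨j, hj, hj'⟩ | ⟨i, hi, rfl⟩
        · exact (far j hj v hj' hv1).elim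
        · have h1 := hγ (p * K) i
          have h5 : |p * K - i| ≤ ρ := by rw [← h1]; exact_mod_cast hv1
          by_cases h6 : i = p * K + τ₁ K
          · rw [h6]
          · exfalso
            refine hv2 (i - p * K) ?_ (Or.inl (by omega)) (by congr 1; ring)
            rw [abs_sub_comm]
            omega)
    set n : ℕ := (p * (K + 1) + τ₁ (K + 1) - (p * K + τ₂ K)).toNat with hn
    have hn' : (n : ℤ) = p * (K + 1) + τ₁ (K + 1) - (p * K + τ₂ K) := by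
      rw [hn, Int.toNat_of_nonneg]; rw [hmul]; omega
    have hC : Fm G (γ (p * K + τ₂ K)) (γ (p * ((K + 1 : ℕ) : ℤ) + τ₁ ((K + 1 : ℕ) : ℤ)))
        {z | ∃ i : ℤ, p * K + τ₂ K ≤ i ∧ i ≤ p * (K + 1) + τ₁ (K + 1) ∧ z = γ i}
        {pc γ (p * K + τ₂ K) n} := by
      intro s hs
      rw [Finset.mem_singleton] at hs
      subst hs
      obtain ⟨a1, a2, a3⟩ := pc_sa hγ (p * K + τ₂ K) n
      refine ⟨a1, ?_, fun z hz => ?_⟩
      · rw [a2]
        congr 1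
        push_cast
        rw [hn']
        ring
      · obtain ⟨i, h1, h2, h3⟩ := mem_pc hz
        exact ⟨i, h1, by omega, h3⟩
    obtain ⟨F2, hF2, hw2⟩ := comb t hF1 hC (by
      rintro v hv ⟨i, hi1, hi2, rfl⟩
      rcases hv with hv | hv
      · rcases hv with ⟨j, hj, hj'⟩ | ⟨i', hi', h⟩
        · exfalso
          have h1 := hγ (p * j) i
          have h5 : |p * j - i| ≤ ρ := by rw [← h1]; exact_mod_cast hj'
          rw [abs_le] at h5
          have h6 : (p : ℤ) * j ≤ p * K - p := by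
            have : (p : ℤ) * j ≤ p * (K - 1) := mul_le_mul_of_nonneg_left (by omega) (by omega)
            rw [mul_sub, mul_one] at this
            exact this
          omega
        · have := line_inj hγ h
          congr 1
          omega
      · rcases hv with hv | ⟨hv1, hv2⟩
        · have := line_inj hγ hv
          congr 1
          omega
        · by_cases h6 : i = p * K + τ₂ K
          · rw [h6]
          · exfalso
            have h1 := hγ (p * K) i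
            have h5 : |p * K - i| ≤ ρ := by rw [← h1]; exact_mod_cast hv1
            refine hv2 (i - p * K) ?_ (Or.inr (by omega)) (by congr 1; ring)
            rw [abs_sub_comm]
            omega)
    refine ⟨F2, fm_mono hF2 ?_, ?_⟩
    · rintro z ((hz | hz) | hz)
      · rcases hz with ⟨j, hj, hj'⟩ | ⟨i, hi, hi'⟩
        · exact Or.inl ⟨j, by push_cast; omega, hj'⟩
        · refine Or.inr ⟨i, ?_, hi'⟩
          push_cast
          rw [hmul]
          omega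
      · rcases hz with hz | ⟨hz, -⟩
        · refine Or.inr ⟨_, ?_, hz⟩
          push_cast
          rw [hmul]
          omega
        · exact Or.inl ⟨K, by push_cast; omega, hz⟩
      · obtain ⟨i, hi1, hi2, hi3⟩ := hz
        exact Or.inr ⟨i, by push_cast; exact hi2, hi3⟩
    · have e1 : fw t {pc γ (p * K + τ₂ K) n} = t ^ n := by
        simp [fw, (pc_sa hγ (p * K + τ₂ K) n).2.2]
      rw [hw2, hw1, e1]
      have e2 : (ρ - τ₁ ((K + 1 : ℕ) : ℤ)).toNat + n = (p - (τ₂ K - τ₁ K).toNat) + (ρ - τ₁ K).toNat := by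
        push_cast
        rw [hmul] at hn'
        omega
      have e3 : fw t F * fw t (H K) * t ^ n * t ^ (ρ - τ₁ ((K + 1 : ℕ) : ℤ)).toNat =
          (fw t (H K) * t ^ (p - (τ₂ K - τ₁ K).toNat)) * (fw t F * t ^ (ρ - τ₁ K).toNat) := by
        calc _ = fw t F * fw t (H K) * t ^ ((ρ - τ₁ ((K + 1 : ℕ) : ℤ)).toNat + n) := by
              rw [pow_add]; ring
          _ = _ := by rw [e2, pow_add]; ring
      rw [e3, pow_succ]
      have h7 : 0 ≤ fw t F * t ^ (ρ - τ₁ K).toNat := by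
        refine mul_nonneg ?_ (pow_nonneg ht.le _)
        exact Finset.sum_nonneg fun _ _ => pow_nonneg ht.le _
      calc 2 ^ K * 2 * t ^ (2 * ρ) = 2 * (2 ^ K * t ^ (2 * ρ)) := by ring
        _ ≤ 2 * (fw t F * t ^ (ρ - τ₁ K).toNat) := mul_le_mul_of_nonneg_left hFw (by norm_num)
        _ ≤ _ := mul_le_mul_of_nonneg_right (hw K) h7

theorem chain_line (hG : TG G) {γ : ℤ → V} (hγ : IsLine G γ) (o : V) (t : ℝ) (ht : 0 < t)
    (ht1 : t ≤ 1) (p ρ : ℕ) (hρ : 2 * ρ < p) (hS : Super G t p ρ) :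
    ¬ Summable (fun k : ℕ => (cnt (sa G) o k : ℝ) * t ^ k) := by
  intro hsum
  have h1 : ∀ k : ℤ, ∃ (τ₁ τ₂ : ℤ) (F : Finset (List V)),
      (-(ρ : ℤ) ≤ τ₁ ∧ τ₁ ≤ τ₂ ∧ τ₂ ≤ ρ) ∧
      (∀ s ∈ F, sa G (γ (p * k + τ₁)) s ∧ en (γ (p * k + τ₁)) s = γ (p * k + τ₂) ∧
        (∀ z ∈ s, G.dist (γ (p * k)) z ≤ ρ) ∧
        ∀ i : ℤ, |i| ≤ p → (i < τ₁ ∨ τ₂ < i) → γ (p * k + i) ∉ s) ∧
      2 ≤ fw t F * t ^ (p - (τ₂ - τ₁).toNat) := by
    intro k
    obtain ⟨τ₁, τ₂, F, a1, a2, a3, a4, a5⟩ := hS (fun i => γ (p * k + i)) (by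
      intro i j _ _
      rw [hγ]
      congr 1
      ring)
    simp only [add_zero] at a4
    exact ⟨τ₁, τ₂, F, ⟨a1, a2, a3⟩, a4, a5⟩
  choose τ₁ τ₂ H hτ hH hw using h1
  set S := ∑' k : ℕ, (cnt (sa G) o k : ℝ) * t ^ k with hS'
  have h2 : ∀ K : ℕ, 2 ^ K * t ^ (2 * ρ) ≤ S := by
    intro K
    obtain ⟨F, hF, hFw⟩ := chain hG hγ t ht ht1 p ρ hρ τ₁ τ₂ H hτ hH hw K
    have h3 : fw t F ≤ S := fw_le hG o (γ (τ₁ 0)) t ht hsum F fun s hs => (hF s hs).1
    have h4 : 0 ≤ fw t F := Finset.sum_nonneg fun _ _ => pow_nonneg ht.le _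
    have h5 : t ^ (ρ - τ₁ K).toNat ≤ 1 := pow_le_one₀ ht.le ht1
    calc _ ≤ fw t F * t ^ (ρ - τ₁ K).toNat := hFw
      _ ≤ fw t F * 1 := mul_le_mul_of_nonneg_left h5 h4
      _ ≤ S := by rw [mul_one]; exact h3
  have h6 : 0 < t ^ (2 * ρ) := pow_pos ht _
  obtain ⟨K, hK⟩ := pow_unbounded_of_one_lt (S / t ^ (2 * ρ)) (one_lt_two (α := ℝ))
  rw [div_lt_iff₀ h6] at hK
  exact absurd (h2 K) (not_le.2 hK)

end Chain2

end Pool.H61.ST

end S_H61_ST_Chain2Core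

section S_H61_ST_Chain2

set_option autoImplicit false

/-! Module CHAIN2: superblocks along a geodesic line. -/

namespace Pool.H61.ST

open Finset Pool.Agent.H61.SW Pool.H98.C Filter

section CHAIN2
variable {V : Type} {G : SimpleGraph V} (hG : TG G)

include hG in
theorem chain2 (hinf : Infinite V) (o : V) (t : ℝ) (ht : 0 < t) (ht1 : t ≤ 1) (p ρ : ℕ)
    (hρ : 2 * ρ < p) (hS : Super G t p ρ) :
    ¬ Summable (fun k : ℕ => (cnt (sa G) o k : ℝ) * t ^ k) := by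
  obtain ⟨γ, hγ, -⟩ := exists_line hG hinf o
  exact Chain2.chain_line hG hγ o t ht ht1 p ρ hρ hS

end CHAIN2

end Pool.H61.ST

end S_H61_ST_Chain2

section S_H61_ST_Row0

set_option autoImplicit false

/-! Walks inside sets, columns and rows of the lattice, heights near lattice points. -/

namespace Pool.H61.ST

open Finset Pool.Agent.H61.SW Pool.H98.C

namespace Row

variable {V : Type} {G : SimpleGraph V}

/-- there is a walk from `y` to `z` inside `A` of length at most `n` -/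
def Wk (G : SimpleGraph V) (A : Set V) (n : ℕ) (y z : V) : Prop :=
  ∃ l : List V, ch G y l ∧ en y l = z ∧ l.length ≤ n ∧ ∀ v ∈ y :: l, v ∈ A

lemma Wk.mono {A B : Set V} {n m : ℕ} {y z : V} (h : Wk G A n y z) (hAB : ∀ v ∈ A, v ∈ B)
    (hnm : n ≤ m) : Wk G B m y z := by
  obtain ⟨l, h1, h2, h3, h4⟩ := h
  exact ⟨l, h1, h2, h3.trans hnm, fun v hv => hAB v (h4 v hv)⟩

lemma Wk.refl {A : Set V} {n : ℕ} {y : V} (hy : y ∈ A) : Wk G A n y y :=
  ⟨[], trivial, rfl, by simp, by simpa using hy⟩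

lemma Wk.trans {A : Set V} {n m : ℕ} {y z w : V} (h : Wk G A n y z) (h' : Wk G A m z w) :
    Wk G A (n + m) y w := by
  obtain ⟨l, h1, h2, h3, h4⟩ := h
  obtain ⟨l', h1', h2', h3', h4'⟩ := h'
  refine ⟨l ++ l', ?_, ?_, ?_, ?_⟩
  · rw [ch_append, h2]; exact ⟨h1, h1'⟩
  · rw [en_append, h2, h2']
  · simp; omega
  · intro v hv
    rw [← List.cons_append, List.mem_append] at hv
    rcases hv with hv | hv
    · exact h4 v hv
    · exact h4' v (List.mem_cons_of_mem _ hv)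

lemma Wk.symm {A : Set V} {n : ℕ} {y z : V} (h : Wk G A n y z) : Wk G A n z y := by
  obtain ⟨l, h1, h2, h3, h4⟩ := h
  refine ⟨rv y l, ?_, ?_, ?_, ?_⟩
  · rw [← h2]; exact ch_rv y l h1
  · rw [← h2]; exact en_rv y l
  · rw [length_rv]; exact h3
  · intro v hv
    rw [← h2] at hv
    exact h4 v (mem_rv.1 hv)

lemma Wk.map {A B : Set V} {n : ℕ} {y z : V} (h : Wk G A n y z) (φ : G ≃g G)
    (hAB : ∀ v ∈ A, φ v ∈ B) : Wk G B n (φ y) (φ z) := by
  obtain ⟨l, h1, h2, h3, h4⟩ := h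
  refine ⟨l.map φ, (ch_map φ y l).2 h1, ?_, by simpa using h3, ?_⟩
  · rw [en_map, h2]
  · intro v hv
    rw [← List.map_cons, List.mem_map] at hv
    obtain ⟨w, hw, rfl⟩ := hv
    exact hAB w (h4 w hw)

lemma wk_geo (hG : TG G) {C : ℕ} {y z : V} (h : G.dist y z ≤ C) :
    Wk G {v | G.dist v y ≤ C} C y z := by
  refine ⟨geo hG y z, ch_geo hG y z, en_geo hG y z, by rw [length_geo]; exact h, ?_⟩
  intro v hv
  show G.dist v y ≤ C
  rw [SimpleGraph.dist_comm]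
  rcases List.mem_cons.1 hv with rfl | hv
  · simp
  · exact (mem_geo_dist hG hv).trans h

/-- loop erasure gives a one-element family -/
lemma Wk.fm {A : Set V} {n : ℕ} {y z : V} (h : Wk G A n y z) (t : ℝ) (ht : 0 < t) (ht1 : t ≤ 1) :
    ∃ F : Finset (List V), Fm G y z A F ∧ t ^ n ≤ fw t F := by
  classical
  obtain ⟨l, h1, h2, h3, h4⟩ := h
  obtain ⟨l', a1, a2, a3, a4⟩ := loop_erase y l h1
  refine ⟨{l'}, ?_, ?_⟩
  · intro s hs
    rw [Finset.mem_singleton] at hs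
    subst hs
    refine ⟨a1, a2.trans h2, ?_⟩
    intro v hv
    rcases List.mem_cons.1 hv with rfl | hv
    · exact h4 _ (by simp)
    · exact h4 _ (List.mem_cons_of_mem _ (a4 v hv))
  · simp only [fw, Finset.sum_singleton]
    exact pow_le_pow_of_le_one ht.le ht1 (a3.trans h3)

/-- powers of an element of `Γ` -/
lemma u_zpow (hs : HS G) {h : G ≃g G} (hh : h ∈ hs.Γ) (n : ℤ) (z : V) :
    hs.u ((h ^ n) z) = hs.u z + n * hs.χ h := by
  induction n using Int.induction_on generalizing z with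
  | zero => simp
  | succ n ih =>
    rw [zpow_add_one]
    show hs.u ((h ^ (n : ℤ)) (h z)) = _
    rw [ih, hs.equi h hh]; push_cast; ring
  | pred n ih =>
    have h1 := ih (h.symm z)
    have h2 := hs.equi h hh (h⁻¹ z)
    have h3 : h (h⁻¹ z) = z := h.apply_symm_apply z
    rw [h3] at h2
    rw [zpow_sub_one]
    show hs.u ((h ^ (-(n : ℤ))) (h⁻¹ z)) = _
    have h4 := ih (h⁻¹ z)
    rw [h4]; push_cast at *; linarith

/-- lattice points -/
def pt (s g : G ≃g G) (x : V) (i j : ℤ) : V := (s ^ i) ((g ^ j) x)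

lemma pt_shift (s g : G ≃g G) (x : V) (i j k : ℤ) : (s ^ k) (pt s g x i j) = pt s g x (k + i) j := by
  unfold pt; rw [zpow_add]; rfl

lemma pt_zero (s g : G ≃g G) (x : V) : pt s g x 0 0 = x := by
  unfold pt; simp

lemma u_pt (hs : HS G) {s g : G ≃g G} (hsΓ : s ∈ hs.Γ) (hχs : hs.χ s = 0) (hg : g ∈ hs.Γ) (x : V)
    (i j : ℤ) : hs.u (pt s g x i j) = hs.u x + j * hs.χ g := by
  unfold pt
  rw [u_zpow hs hsΓ, u_zpow hs hg, hχs]; simp

lemma u_s (hs : HS G) {s : G ≃g G} (hsΓ : s ∈ hs.Γ) (hχs : hs.χ s = 0) (i : ℤ) (z : V) :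
    hs.u ((s ^ i) z) = hs.u z := by
  rw [u_zpow hs hsΓ, hχs]; simp

/-- one copy of `w₀` -/
lemma wk_one (hG : TG G) (hs : HS G) {s g : G ≃g G} {x : V} (hsΓ : s ∈ hs.Γ) (hχs : hs.χ s = 0)
    (hg : g ∈ hs.Γ) (hχ0 : 0 < hs.χ g) {F : Finset (List V)}
    (hF : Fm G x (g x) {z | z = g x ∨ (hs.u x ≤ hs.u z ∧ hs.u z < hs.u (g x))} F)
    {l₀ : ℕ} {w₀ : List V} (hw₀ : w₀ ∈ F) (hl₀ : w₀.length ≤ l₀) (i j : ℤ) :
    Wk G {v | G.dist v (pt s g x i j) ≤ l₀ ∧ hs.u x + j * hs.χ g ≤ hs.u v ∧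
      (v = pt s g x i (j + 1) ∨ hs.u v < hs.u x + (j + 1) * hs.χ g)} l₀
      (pt s g x i j) (pt s g x i (j + 1)) := by
  obtain ⟨h1, h2, h3⟩ := hF w₀ hw₀
  have hw : Wk G {z | G.dist x z ≤ l₀ ∧
      (z = g x ∨ (hs.u x ≤ hs.u z ∧ hs.u z < hs.u (g x)))} l₀ x (g x) :=
    ⟨w₀, h1.1, h2, hl₀, fun v hv => ⟨(dist_mem_ch h1.1 hv).trans hl₀, h3 v hv⟩⟩
  have e1 : (s ^ i * g ^ j) x = pt s g x i j := rfl
  have e2 : (s ^ i * g ^ j) (g x) = pt s g x i (j + 1) := by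
    unfold pt; rw [zpow_add_one]; rfl
  have hu : ∀ z, hs.u ((s ^ i * g ^ j) z) = hs.u z + j * hs.χ g := by
    intro z
    show hs.u ((s ^ i) ((g ^ j) z)) = _
    rw [u_zpow hs hsΓ, u_zpow hs hg, hχs]; simp
  have hw' := hw.map (s ^ i * g ^ j) (B := {v | G.dist v (pt s g x i j) ≤ l₀ ∧
      hs.u x + j * hs.χ g ≤ hs.u v ∧
      (v = pt s g x i (j + 1) ∨ hs.u v < hs.u x + (j + 1) * hs.χ g)}) ?_
  · rwa [e1, e2] at hw'
  · rintro v ⟨hv1, hv2⟩
    refine ⟨?_, ?_, ?_⟩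
    · rw [← e1, dist_iso hG.conn, SimpleGraph.dist_comm]; exact hv1
    · rw [hu]
      rcases hv2 with rfl | hv2
      · have h4 := hs.equi g hg x
        have h5 := hχ0
        have h6 : (0 : ℝ) < hs.χ g := by exact_mod_cast h5
        linarith
      · linarith [hv2.1]
    · rcases hv2 with rfl | hv2
      · left; exact e2
      · right; rw [hu]
        have := hv2.2
        rw [hs.equi g hg] at this
        linarith

/-- a column of copies of `w₀` -/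
lemma wk_col (hG : TG G) (hs : HS G) {s g : G ≃g G} {x : V} (hsΓ : s ∈ hs.Γ) (hχs : hs.χ s = 0)
    (hg : g ∈ hs.Γ) (hχ0 : 0 < hs.χ g) {F : Finset (List V)}
    (hF : Fm G x (g x) {z | z = g x ∨ (hs.u x ≤ hs.u z ∧ hs.u z < hs.u (g x))} F)
    {l₀ : ℕ} {w₀ : List V} (hw₀ : w₀ ∈ F) (hl₀ : w₀.length ≤ l₀) (i j : ℤ) (n : ℕ) :
    Wk G {v | (∃ k : ℤ, j ≤ k ∧ k ≤ j + n ∧ G.dist v (pt s g x i k) ≤ l₀) ∧
      hs.u x + j * hs.χ g ≤ hs.u v ∧
      (v = pt s g x i (j + n) ∨ hs.u v < hs.u x + (j + n) * hs.χ g)} (n * l₀)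
      (pt s g x i j) (pt s g x i (j + n)) := by
  have hc : (0 : ℝ) < hs.χ g := by exact_mod_cast hχ0
  induction n with
  | zero =>
    simp only [Nat.cast_zero, add_zero]
    refine Wk.refl ⟨⟨j, le_rfl, le_rfl, by simp⟩, ?_, Or.inl rfl⟩
    rw [u_pt hs hsΓ hχs hg]
  | succ n ih =>
    have h1 := wk_one hG hs hsΓ hχs hg hχ0 hF hw₀ hl₀ i (j + n)
    have e1 : j + ((n + 1 : ℕ) : ℤ) = j + n + 1 := by push_cast; ring
    rw [e1]
    have e2 : (n + 1) * l₀ = n * l₀ + l₀ := by ring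
    rw [e2]
    refine (ih.mono ?_ le_rfl).trans (h1.mono ?_ le_rfl)
    · rintro v ⟨⟨k, k1, k2, k3⟩, hv2, hv3⟩
      refine ⟨⟨k, k1, by omega, k3⟩, hv2, Or.inr ?_⟩
      push_cast
      rcases hv3 with rfl | hv3
      · rw [u_pt hs hsΓ hχs hg]; push_cast; nlinarith
      · nlinarith
    · rintro v ⟨hv1, hv2, hv3⟩
      refine ⟨⟨j + n, by omega, by omega, hv1⟩, ?_, ?_⟩
      · push_cast at hv2
        have : (0 : ℝ) ≤ n * hs.χ g := by positivity
        nlinarith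
      · rcases hv3 with rfl | hv3
        · left; rfl
        · right; push_cast at *; nlinarith

/-- a horizontal path -/
lemma wk_row (hG : TG G) {s g : G ≃g G} {x : V} {C : ℕ} (hL : LatQI G s g x C) (i j : ℤ) (n : ℕ) :
    Wk G {v | ∃ k : ℤ, i ≤ k ∧ k ≤ i + n ∧ G.dist v (pt s g x k j) ≤ C} (n * C)
      (pt s g x i j) (pt s g x (i + n) j) := by
  induction n with
  | zero =>
    simp only [Nat.cast_zero, add_zero]
    exact Wk.refl ⟨i, le_rfl, le_rfl, by simp⟩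
  | succ n ih =>
    have h1 : G.dist (pt s g x (i + n) j) (pt s g x (i + n + 1) j) ≤ C := by
      have : pt s g x (i + n + 1) j = (s ^ (i + n)) (s ((g ^ j) x)) := by
        unfold pt; rw [zpow_add_one]; rfl
      rw [this]
      unfold pt
      rw [dist_iso hG.conn]
      exact hL.q1 j
    have e1 : i + ((n + 1 : ℕ) : ℤ) = i + n + 1 := by push_cast; ring
    rw [e1]
    have e2 : (n + 1) * C = n * C + C := by ring
    rw [e2]
    refine (ih.mono ?_ le_rfl).trans ((wk_geo hG h1).mono ?_ le_rfl)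
    · rintro v ⟨k, k1, k2, k3⟩
      exact ⟨k, k1, by omega, k3⟩
    · intro v hv
      exact ⟨i + n, by omega, by omega, hv⟩

/-- heights near a lattice point -/
lemma u_near (hG : TG G) (hs : HS G) {s g : G ≃g G} {x : V} (hsΓ : s ∈ hs.Γ) (hχs : hs.χ s = 0)
    (hg : g ∈ hs.Γ) {Lp : ℕ} (hLp : ∀ y z, G.Adj y z → |hs.u z - hs.u y| ≤ Lp) {v : V} {i j : ℤ}
    {D : ℕ} (h : G.dist v (pt s g x i j) ≤ D) :
    |hs.u v - (hs.u x + j * hs.χ g)| ≤ Lp * D := by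
  have h1 := lip_ch hLp (pt s g x i j) (geo hG (pt s g x i j) v) (ch_geo hG _ _)
  rw [en_geo, length_geo, u_pt hs hsΓ hχs hg] at h1
  refine h1.trans ?_
  rw [SimpleGraph.dist_comm]
  exact mul_le_mul_of_nonneg_left (by exact_mod_cast h) (by positivity)

/-- points near different columns are different -/
lemma far_cols (hG : TG G) {s g : G ≃g G} {x : V} {C : ℕ} (hL : LatQI G s g x C) {v : V}
    {i j i' j' : ℤ} {D : ℕ} (h : G.dist v (pt s g x i j) ≤ D) (h' : G.dist v (pt s g x i' j') ≤ D) :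
    i' - i ≤ C * (2 * D + 1) := by
  have h1 := hL.q2 i j i' j'
  have h2 : G.dist (pt s g x i j) (pt s g x i' j') ≤ 2 * D := by
    have := hG.tri (pt s g x i j) v (pt s g x i' j')
    rw [SimpleGraph.dist_comm] at h
    omega
  have h3 : i' - i ≤ |i - i'| + |j - j'| := by
    have := neg_abs_le (i - i')
    have := abs_nonneg (j - j')
    omega
  have h4 : (C : ℤ) * (G.dist (pt s g x i j) (pt s g x i' j') + 1) ≤ C * (2 * D + 1) :=
    mul_le_mul_of_nonneg_left (by omega) (by positivity)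
  exact h3.trans (h1.trans h4)

end Row

end Pool.H61.ST

end S_H61_ST_Row0

section S_H61_ST_Row

set_option autoImplicit false

/-! A row of parallel tubes joined by connectors. -/

namespace Pool.H61.ST

open Finset Pool.Agent.H61.SW Pool.H98.C

namespace Row



variable {V : Type} {G : SimpleGraph V}

lemma fm_mono {x y : V} {A B : Set V} {F : Finset (List V)} (h : Fm G x y A F)
    (hAB : ∀ v ∈ A, v ∈ B) : Fm G x y B F :=
  fun s hs => ⟨(h s hs).1, (h s hs).2.1, fun z hz => hAB z ((h s hs).2.2 z hz)⟩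

lemma fw_nonneg {t : ℝ} (ht : 0 < t) (F : Finset (List V)) : 0 ≤ fw t F :=
  Finset.sum_nonneg fun _ _ => by positivity

/-- tube over column `i` -/
def Tb (G : SimpleGraph V) (u : V → ℝ) (s g : G ≃g G) (x : V) (c : ℤ) (l₀ N : ℕ) (i : ℤ) : Set V :=
  {v | (∃ j : ℤ, 0 ≤ j ∧ j ≤ N ∧ G.dist v (pt s g x i j) ≤ l₀) ∧ u x ≤ u v ∧
    (v = pt s g x i N ∨ u v < u x + N * c)}

/-- family of walks in the tube over column `0` -/
lemma tube0 (hG : TG G) (hs : HS G) {s g : G ≃g G} {x : V} (hsΓ : s ∈ hs.Γ) (hχs : hs.χ s = 0)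
    (hg : g ∈ hs.Γ) (hχ0 : 0 < hs.χ g) {F : Finset (List V)}
    (hF : Fm G x (g x) {z | z = g x ∨ (hs.u x ≤ hs.u z ∧ hs.u z < hs.u (g x))} F)
    {l₀ : ℕ} (hl₀ : ∀ w ∈ F, w.length ≤ l₀) (t : ℝ) (N : ℕ) (hN : 1 ≤ N) :
    ∃ F₁, Fm G (pt s g x 0 0) (pt s g x 0 N) (Tb G hs.u s g x (hs.χ g) l₀ N 0) F₁ ∧
      fw t F₁ = (fw t F) ^ N := by
  have hc : (0 : ℝ) < hs.χ g := by exact_mod_cast hχ0
  have hgx := hs.equi g hg x
  have hF' : Fm G x (g x) {z | G.dist x z ≤ l₀ ∧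
      (z = g x ∨ (hs.u x ≤ hs.u z ∧ hs.u z < hs.u (g x)))} F := fun w hw =>
    ⟨(hF w hw).1, (hF w hw).2.1, fun z hz =>
      ⟨(dist_mem_ch (hF w hw).1.1 hz).trans (hl₀ w hw), (hF w hw).2.2 z hz⟩⟩
  obtain ⟨F₁, h1, h2⟩ := fm_pow t g hF' (by
    rintro k hk z ⟨-, hz⟩ w ⟨-, hw⟩ rfl
    have hu : hs.u ((g ^ k) w) = hs.u w + k * hs.χ g := by
      have := u_zpow hs hg k w
      simpa using this
    have hw' : hs.u x ≤ hs.u w := by
      rcases hw with rfl | hw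
      · linarith
      · exact hw.1
    have hk' : (1 : ℝ) ≤ k := by exact_mod_cast hk
    have h3 : (1 : ℝ) * hs.χ g ≤ k * hs.χ g := mul_le_mul_of_nonneg_right hk' hc.le
    rcases hz with hz | hz
    · refine ⟨?_, hz⟩
      rw [hz, hgx] at hu
      have h4 : (k : ℝ) * hs.χ g ≤ 1 * hs.χ g := by linarith
      have h5 : (k : ℝ) ≤ 1 := le_of_mul_le_mul_right h4 hc
      have : k ≤ 1 := by exact_mod_cast h5
      omega
    · exfalso
      have := hz.2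
      rw [hu, hgx] at this
      linarith) N
  refine ⟨F₁, ?_, h2⟩
  have e0 : pt s g x 0 0 = x := pt_zero s g x
  have eN : pt s g x 0 N = (g ^ N) x := by unfold pt; simp
  rw [e0, eN]
  refine fm_mono h1 ?_
  rintro v (rfl | ⟨k, hk, w, ⟨hw1, hw2⟩, rfl⟩)
  · refine ⟨⟨0, le_rfl, by positivity, by rw [e0]; simp⟩, le_rfl, Or.inr ?_⟩
    have : (1 : ℝ) ≤ N := by exact_mod_cast hN
    nlinarith
  · have hu : hs.u ((g ^ k) w) = hs.u w + k * hs.χ g := by
      have := u_zpow hs hg k w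
      simpa using this
    have hkx : pt s g x 0 k = (g ^ k) x := by unfold pt; simp
    refine ⟨⟨k, by positivity, by exact_mod_cast hk.le, ?_⟩, ?_, ?_⟩
    · rw [hkx, dist_iso hG.conn, SimpleGraph.dist_comm]; exact hw1
    · rw [hu]
      have : (0 : ℝ) ≤ k * hs.χ g := by positivity
      rcases hw2 with rfl | hw2
      · linarith
      · linarith [hw2.1]
    · have hk' : (k : ℝ) + 1 ≤ N := by exact_mod_cast hk
      rcases hw2 with rfl | hw2
      · by_cases hkN : k + 1 = N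
        · left
          rw [eN, ← hkN, pow_succ]; rfl
        · right
          have : (k : ℝ) + 2 ≤ N := by
            have : k + 2 ≤ N := by omega
            exact_mod_cast this
          rw [hu, hgx]; nlinarith
      · right
        rw [hu]
        have := hw2.2
        rw [hgx] at this
        nlinarith

/-- family of walks in the tube over column `i` -/
lemma tube (hG : TG G) (hs : HS G) {s g : G ≃g G} {x : V} (hsΓ : s ∈ hs.Γ) (hχs : hs.χ s = 0)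
    (hg : g ∈ hs.Γ) (hχ0 : 0 < hs.χ g) {F : Finset (List V)}
    (hF : Fm G x (g x) {z | z = g x ∨ (hs.u x ≤ hs.u z ∧ hs.u z < hs.u (g x))} F)
    {l₀ : ℕ} (hl₀ : ∀ w ∈ F, w.length ≤ l₀) (t : ℝ) (N : ℕ) (hN : 1 ≤ N) (i : ℤ) :
    ∃ F₁, Fm G (pt s g x i 0) (pt s g x i N) (Tb G hs.u s g x (hs.χ g) l₀ N i) F₁ ∧
      fw t F₁ = (fw t F) ^ N := by
  obtain ⟨F₁, h1, h2⟩ := tube0 hG hs hsΓ hχs hg hχ0 hF hl₀ t N hN
  obtain ⟨F₂, h3, h4⟩ := fm_map t h1 (s ^ i)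
  rw [pt_shift, pt_shift, add_zero] at h3
  refine ⟨F₂, fm_mono h3 ?_, h4.trans h2⟩
  rintro v ⟨w, ⟨⟨j, j1, j2, j3⟩, hw2, hw3⟩, rfl⟩
  refine ⟨⟨j, j1, j2, ?_⟩, ?_, ?_⟩
  · have : pt s g x i j = (s ^ i) (pt s g x 0 j) := by rw [pt_shift, add_zero]
    rw [this, dist_iso hG.conn]; exact j3
  · rw [u_s hs hsΓ hχs]; exact hw2
  · rcases hw3 with rfl | hw3
    · left; rw [pt_shift, add_zero]
    · right; rw [u_s hs hsΓ hχs]; exact hw3

/-- near a lattice point of a rectangle -/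
def Nr (G : SimpleGraph V) (s g : G ≃g G) (x : V) (i₀ i₁ j₀ j₁ : ℤ) (D : ℕ) : Set V :=
  {v | ∃ i j : ℤ, i₀ ≤ i ∧ i ≤ i₁ ∧ j₀ ≤ j ∧ j ≤ j₁ ∧ G.dist v (pt s g x i j) ≤ D}

/-- top connector -/
lemma top_conn (hG : TG G) (hs : HS G) {s g : G ≃g G} {x : V} {C : ℕ} (hL : LatQI G s g x C)
    (hsΓ : s ∈ hs.Γ) (hχs : hs.χ s = 0) (hg : g ∈ hs.Γ) (hχ0 : 0 < hs.χ g) {F : Finset (List V)}
    (hF : Fm G x (g x) {z | z = g x ∨ (hs.u x ≤ hs.u z ∧ hs.u z < hs.u (g x))} F)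
    {l₀ : ℕ} {w₀ : List V} (hw₀ : w₀ ∈ F) (hl₀ : w₀.length ≤ l₀)
    {Lp : ℕ} (hLp : ∀ y z, G.Adj y z → |hs.u z - hs.u y| ≤ Lp) (N b : ℕ) :
    Wk G {v | v ∈ Nr G s g x 0 b N (N + (Lp * C + 1 : ℕ)) (l₀ + C) ∧
      hs.u x + N * hs.χ g ≤ hs.u v} ((Lp * C + 1) * l₀ + b * C + (Lp * C + 1) * l₀)
      (pt s g x 0 N) (pt s g x b N) := by
  have hc : (1 : ℝ) ≤ hs.χ g := by exact_mod_cast hχ0
  set J := Lp * C + 1 with hJ
  have hJ' : (J : ℝ) = Lp * C + 1 := by rw [hJ]; push_cast; ring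
  have h1 := wk_col hG hs hsΓ hχs hg hχ0 hF hw₀ hl₀ 0 N J
  have h2 := wk_row hG hL 0 (N + J) b
  have h3 := (wk_col hG hs hsΓ hχs hg hχ0 hF hw₀ hl₀ b N J).symm
  rw [zero_add] at h2
  refine ((h1.mono ?_ le_rfl).trans (h2.mono ?_ le_rfl)).trans (h3.mono ?_ le_rfl)
  · rintro v ⟨⟨k, k1, k2, k3⟩, hv2, -⟩
    exact ⟨⟨0, k, le_rfl, by positivity, k1, k2, k3.trans (by omega)⟩, by push_cast at hv2; exact hv2⟩
  · rintro v ⟨k, k1, k2, k3⟩
    refine ⟨⟨k, N + J, k1, by omega, by omega, le_rfl, k3.trans (by omega)⟩, ?_⟩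
    have h4 := u_near hG hs hsΓ hχs hg hLp k3
    have h5 := (abs_le.1 h4).1
    push_cast at h5
    have : (J : ℝ) * 1 ≤ J * hs.χ g := mul_le_mul_of_nonneg_left hc (by positivity)
    nlinarith
  · rintro v ⟨⟨k, k1, k2, k3⟩, hv2, -⟩
    exact ⟨⟨b, k, by positivity, le_rfl, k1, k2, k3.trans (by omega)⟩, by push_cast at hv2; exact hv2⟩

/-- bottom connector -/
lemma bot_conn (hG : TG G) (hs : HS G) {s g : G ≃g G} {x : V} {C : ℕ} (hL : LatQI G s g x C)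
    (hsΓ : s ∈ hs.Γ) (hχs : hs.χ s = 0) (hg : g ∈ hs.Γ) (hχ0 : 0 < hs.χ g) {F : Finset (List V)}
    (hF : Fm G x (g x) {z | z = g x ∨ (hs.u x ≤ hs.u z ∧ hs.u z < hs.u (g x))} F)
    {l₀ : ℕ} {w₀ : List V} (hw₀ : w₀ ∈ F) (hl₀ : w₀.length ≤ l₀)
    {Lp : ℕ} (hLp : ∀ y z, G.Adj y z → |hs.u z - hs.u y| ≤ Lp) (b : ℕ) :
    Wk G {v | v ∈ Nr G s g x b (2 * b) (-(Lp * C + 1 : ℕ)) 0 (l₀ + C) ∧
      (v = pt s g x b 0 ∨ v = pt s g x (2 * b) 0 ∨ hs.u v < hs.u x)}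
      ((Lp * C + 1) * l₀ + b * C + (Lp * C + 1) * l₀)
      (pt s g x b 0) (pt s g x (2 * b) 0) := by
  have hc : (1 : ℝ) ≤ hs.χ g := by exact_mod_cast hχ0
  set J := Lp * C + 1 with hJ
  have hJ' : (J : ℝ) = Lp * C + 1 := by rw [hJ]; push_cast; ring
  have h1 := (wk_col hG hs hsΓ hχs hg hχ0 hF hw₀ hl₀ b (-J) J).symm
  have h2 := wk_row hG hL b (-J) b
  have h3 := wk_col hG hs hsΓ hχs hg hχ0 hF hw₀ hl₀ (2 * b) (-J) J
  have e1 : (b : ℤ) + b = 2 * b := by ring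
  have e2 : -(J : ℤ) + J = 0 := by ring
  have e3 : ((-(J : ℤ) : ℤ) : ℝ) + J = 0 := by push_cast; ring
  rw [e2, e3] at h1 h3
  rw [e1] at h2
  simp only [zero_mul, add_zero] at h1 h3
  refine ((h1.mono ?_ le_rfl).trans (h2.mono ?_ le_rfl)).trans (h3.mono ?_ le_rfl)
  · rintro v ⟨⟨k, k1, k2, k3⟩, -, hv⟩
    refine ⟨⟨b, k, le_rfl, by omega, k1, k2, k3.trans (by omega)⟩, ?_⟩
    rcases hv with hv | hv
    · exact Or.inl hv
    · exact Or.inr (Or.inr hv)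
  · rintro v ⟨k, k1, k2, k3⟩
    refine ⟨⟨k, -J, k1, by omega, le_rfl, by omega, k3.trans (by omega)⟩, Or.inr (Or.inr ?_)⟩
    have h4 := u_near hG hs hsΓ hχs hg hLp k3
    have h5 := (abs_le.1 h4).2
    push_cast at h5
    have : (J : ℝ) * 1 ≤ J * hs.χ g := mul_le_mul_of_nonneg_left hc (by positivity)
    nlinarith
  · rintro v ⟨⟨k, k1, k2, k3⟩, -, hv⟩
    refine ⟨⟨2 * b, k, by omega, le_rfl, k1, k2, k3.trans (by omega)⟩, ?_⟩
    rcases hv with hv | hv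
    · exact Or.inr (Or.inl hv)
    · exact Or.inr (Or.inr hv)

/-- hairpin -/
lemma hairpin (hG : TG G) (hs : HS G) {s g : G ≃g G} {x : V} {C : ℕ} (hL : LatQI G s g x C)
    (hsΓ : s ∈ hs.Γ) (hχs : hs.χ s = 0) (hg : g ∈ hs.Γ) (hχ0 : 0 < hs.χ g) {F : Finset (List V)}
    (hF : Fm G x (g x) {z | z = g x ∨ (hs.u x ≤ hs.u z ∧ hs.u z < hs.u (g x))} F)
    {l₀ : ℕ} (hl₀ : ∀ w ∈ F, w.length ≤ l₀) (hne : F.Nonempty)
    {Lp : ℕ} (hLp : ∀ y z, G.Adj y z → |hs.u z - hs.u y| ≤ Lp)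
    (t : ℝ) (ht : 0 < t) (ht1 : t ≤ 1) (N : ℕ) (hN : 1 ≤ N) (b : ℕ)
    (hb : C * (2 * (l₀ + C) + 1) < b) :
    ∃ F' : Finset (List V), Fm G (pt s g x 0 0) (pt s g x b 0)
      {v | v ∈ Nr G s g x 0 b 0 (N + (Lp * C + 1 : ℕ)) (l₀ + C) ∧ hs.u x ≤ hs.u v} F' ∧
      (fw t F) ^ N * t ^ ((Lp * C + 1) * l₀ + b * C + (Lp * C + 1) * l₀) * (fw t F) ^ N ≤
        fw t F' := by
  have hc : (0 : ℝ) < hs.χ g := by exact_mod_cast hχ0
  obtain ⟨w₀, hw₀⟩ := hne
  obtain ⟨F₁, h1, h1w⟩ := tube hG hs hsΓ hχs hg hχ0 hF hl₀ t N hN 0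
  obtain ⟨F₃', h3', h3w'⟩ := tube hG hs hsΓ hχs hg hχ0 hF hl₀ t N hN b
  obtain ⟨F₃, h3, h3w⟩ := fm_rev t h3'
  rw [h3w'] at h3w
  obtain ⟨F₂, h2, h2w⟩ := (top_conn hG hs hL hsΓ hχs hg hχ0 hF hw₀ (hl₀ w₀ hw₀) hLp N b).fm t ht ht1
  have hNc : (0 : ℝ) < N * hs.χ g := by
    have : (1 : ℝ) ≤ N := by exact_mod_cast hN
    positivity
  obtain ⟨F₄, h4, h4w⟩ := fm_comb t h1 h2 (by
    rintro v ⟨-, -, hv⟩ ⟨-, hv2⟩
    rcases hv with hv | hv
    · exact hv
    · linarith)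
  obtain ⟨F₅, h5, h5w⟩ := fm_comb t h4 h3 (by
    rintro v hv ⟨⟨j, j1, j2, j3⟩, -, hv3⟩
    rcases hv with ⟨⟨i', i1, i2, i3⟩, -, -⟩ | ⟨-, hv⟩
    · exfalso
      have h6 := far_cols hG hL (D := l₀ + C) (i3.trans (by omega)) (j3.trans (by omega))
      have : (b : ℤ) - 0 < b := lt_of_le_of_lt h6 (by exact_mod_cast hb)
      omega
    · rcases hv3 with hv3 | hv3
      · exact hv3
      · linarith)
  refine ⟨F₅, fm_mono h5 ?_, ?_⟩
  · rintro v ((⟨⟨j, j1, j2, j3⟩, hv2, -⟩ | ⟨⟨i, j, i1, i2, j1, j2, j3⟩, hv2⟩) |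
      ⟨⟨j, j1, j2, j3⟩, hv2, -⟩)
    · exact ⟨⟨0, j, le_rfl, by positivity, j1, by omega, j3.trans (by omega)⟩, hv2⟩
    · exact ⟨⟨i, j, i1, i2, by omega, j2, j3⟩, by linarith⟩
    · exact ⟨⟨b, j, by positivity, le_rfl, j1, by omega, j3.trans (by omega)⟩, hv2⟩
  · rw [h5w, h4w, h1w, h3w]
    have h0 := fw_nonneg (t := t) ht F
    gcongr

/-- one step of the row: hairpin and bottom connector -/
lemma step (hG : TG G) (hs : HS G) {s g : G ≃g G} {x : V} {C : ℕ} (hL : LatQI G s g x C)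
    (hsΓ : s ∈ hs.Γ) (hχs : hs.χ s = 0) (hg : g ∈ hs.Γ) (hχ0 : 0 < hs.χ g) {F : Finset (List V)}
    (hF : Fm G x (g x) {z | z = g x ∨ (hs.u x ≤ hs.u z ∧ hs.u z < hs.u (g x))} F)
    {l₀ : ℕ} (hl₀ : ∀ w ∈ F, w.length ≤ l₀) (hne : F.Nonempty)
    {Lp : ℕ} (hLp : ∀ y z, G.Adj y z → |hs.u z - hs.u y| ≤ Lp)
    (t : ℝ) (ht : 0 < t) (ht1 : t ≤ 1) (N : ℕ) (b : ℕ)
    (hb : C * (2 * (l₀ + C) + 1) < b) {F₁ : Finset (List V)} (hF₁ : Fm G (pt s g x 0 0) (pt s g x b 0)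
      {v | v ∈ Nr G s g x 0 b 0 (N + (Lp * C + 1 : ℕ)) (l₀ + C) ∧ hs.u x ≤ hs.u v} F₁) :
    ∃ F' : Finset (List V), Fm G (pt s g x 0 0) (pt s g x (2 * b) 0)
      ({v | v ∈ Nr G s g x 0 b 0 (N + (Lp * C + 1 : ℕ)) (l₀ + C) ∧ hs.u x ≤ hs.u v} ∪
        {v | v ∈ Nr G s g x b (2 * b) (-(Lp * C + 1 : ℕ)) 0 (l₀ + C) ∧
      (v = pt s g x b 0 ∨ v = pt s g x (2 * b) 0 ∨ hs.u v < hs.u x)}) F' ∧
      fw t F₁ * t ^ ((Lp * C + 1) * l₀ + b * C + (Lp * C + 1) * l₀) ≤ fw t F' := by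
  obtain ⟨w₀, hw₀⟩ := hne
  obtain ⟨F₂, h2, h2w⟩ := (bot_conn hG hs hL hsΓ hχs hg hχ0 hF hw₀ (hl₀ w₀ hw₀) hLp b).fm t ht ht1
  obtain ⟨F₃, h3, h3w⟩ := fm_comb t hF₁ h2 (by
    rintro v ⟨⟨i, j, i1, i2, -, -, i3⟩, hv1⟩ ⟨-, hv2⟩
    rcases hv2 with hv2 | rfl | hv2
    · exact hv2
    · exfalso
      have h6 := far_cols hG hL (D := l₀ + C) (v := pt s g x (2 * b) 0) i3
        (i' := 2 * b) (j' := 0) (by simp)
      have : (2 * b : ℤ) - i < b := lt_of_le_of_lt h6 (by exact_mod_cast hb)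
      omega
    · linarith)
  refine ⟨F₃, h3, ?_⟩
  rw [h3w]
  exact mul_le_mul_of_nonneg_left h2w (fw_nonneg ht _)

/-- region of a hairpin and of a bottom connector -/
def SS (G : SimpleGraph V) (u : V → ℝ) (s g : G ≃g G) (x : V) (b N J Ce : ℕ) : Set V :=
  {v | v ∈ Nr G s g x 0 b 0 (N + J) Ce ∧ u x ≤ u v} ∪
    {v | v ∈ Nr G s g x b (2 * b) (-J) 0 Ce ∧
      (v = pt s g x b 0 ∨ v = pt s g x (2 * b) 0 ∨ u v < u x)}

/-- translates of the step region by different amounts are almost disjoint -/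
lemma disj (hG : TG G) (hs : HS G) {s g : G ≃g G} {x : V} {C : ℕ} (hL : LatQI G s g x C)
    (hsΓ : s ∈ hs.Γ) (hχs : hs.χ s = 0) {Ce N J : ℕ} (b : ℕ)
    (hb : C * (2 * Ce + 1) < b) (k : ℕ) (hk : 1 ≤ k) (z w : V)
    (hz : z ∈ SS G hs.u s g x b N J Ce) (hw : w ∈ SS G hs.u s g x b N J Ce)
    (hzw : z = (s ^ (2 * b * k : ℤ)) w) : k = 1 ∧ z = pt s g x (2 * b) 0 := by
  have hk' : (1 : ℤ) ≤ k := by exact_mod_cast hk
  have hb0 : (0 : ℤ) < b := by omega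
  have hbk : (2 * b : ℤ) * 1 ≤ 2 * b * k := mul_le_mul_of_nonneg_left hk' (by positivity)
  have hu : hs.u z = hs.u w := by rw [hzw, u_s hs hsΓ hχs]
  have key : ∀ i j i' j' : ℤ, G.dist w (pt s g x i j) ≤ Ce → G.dist z (pt s g x i' j') ≤ Ce →
      2 * b * k + i - i' < b := by
    intro i j i' j' h1 h2
    have h3 : G.dist z (pt s g x (2 * b * k + i) j) ≤ Ce := by
      rw [← pt_shift, hzw, dist_iso hG.conn]; exact h1
    exact lt_of_le_of_lt (far_cols hG hL h2 h3) (by exact_mod_cast hb)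
  rcases hw with ⟨⟨i, j, i1, i2, -, -, i3⟩, hw⟩ | ⟨⟨i, j, i1, i2, -, -, i3⟩, -⟩
  · rcases hz with ⟨⟨i', j', i1', i2', -, -, i3'⟩, hz⟩ | ⟨-, hz⟩
    · have := key i j i' j' i3 i3'
      omega
    · rcases hz with hz | hz | hz
      · have := key i j b 0 i3 (by rw [hz]; simp)
        omega
      · refine ⟨?_, hz⟩
        have h4 := key i j (2 * b) 0 i3 (by rw [hz]; simp)
        by_contra hk1
        have hk2 : (2 : ℤ) ≤ k := by
          have : 2 ≤ k := by omega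
          exact_mod_cast this
        have : (2 * b : ℤ) * 2 ≤ 2 * b * k := mul_le_mul_of_nonneg_left hk2 (by positivity)
        omega
      · rw [hu] at hz; linarith
  · exfalso
    have hz' : ∃ i' j' : ℤ, i' ≤ 2 * b ∧ G.dist z (pt s g x i' j') ≤ Ce := by
      rcases hz with ⟨⟨i', j', i1', i2', -, -, i3'⟩, hz⟩ | ⟨⟨i', j', i1', i2', -, -, i3'⟩, hz⟩
      · exact ⟨i', j', by omega, i3'⟩
      · exact ⟨i', j', i2', i3'⟩
    obtain ⟨i', j', h1, h2⟩ := hz'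
    have := key i j i' j' i3 h2
    omega

end Row

open Row in
theorem exists_row {V : Type} {G : SimpleGraph V} (hG : TG G) (hs : HS G) (s g : G ≃g G) (x : V)
    (C : ℕ) (hL : LatQI G s g x C)
    (hsΓ : s ∈ hs.Γ) (hχs : hs.χ s = 0) (hg : g ∈ hs.Γ) (hχ : 0 < hs.χ g)
    (F : Finset (List V))
    (hF : Fm G x (g x) {z | z = g x ∨ (hs.u x ≤ hs.u z ∧ hs.u z < hs.u (g x))} F)
    (t : ℝ) (ht : 0 < t) (ht1 : t ≤ 1) (hw : 2 ≤ fw t F) :
    ∃ Ce J b₀ : ℕ, ∀ b ≥ b₀, ∀ M ≥ 1, ∃ c : ℕ, ∀ N ≥ 1, ∃ F' : Finset (List V),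
      Fm G x ((s ^ ((2 * M - 1) * b : ℕ)) x)
        (RowReg G hs.u s g x Ce J b ((2 * M - 1) * b) N) F' ∧
      (2 : ℝ) ^ (2 * M * N) * t ^ c ≤ fw t F' := by
  classical
  obtain ⟨Lp, hLp⟩ := exists_lip hG hs
  set l₀ : ℕ := F.sup List.length with hl₀d
  have hl₀ : ∀ w ∈ F, w.length ≤ l₀ := fun w hw => Finset.le_sup (f := List.length) hw
  have hne : F.Nonempty := by
    rw [Finset.nonempty_iff_ne_empty]
    rintro rfl
    simp [fw] at hw
    linarith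
  refine ⟨l₀ + C, Lp * C + 1, C * (2 * (l₀ + C) + 1) + 1, fun b hb M hM => ?_⟩
  have hb' : C * (2 * (l₀ + C) + 1) < b := hb
  obtain ⟨m, rfl⟩ : ∃ m, M = m + 1 := ⟨M - 1, by omega⟩
  set c₀ : ℕ := (Lp * C + 1) * l₀ + b * C + (Lp * C + 1) * l₀ with hc₀
  refine ⟨2 * c₀ * m + c₀, fun N hN => ?_⟩
  obtain ⟨H, hH, hHw⟩ := hairpin hG hs hL hsΓ hχs hg hχ hF hl₀ hne hLp t ht ht1 N hN b hb'
  obtain ⟨S, hS, hSw⟩ := step hG hs hL hsΓ hχs hg hχ hF hl₀ hne hLp t ht ht1 N b hb' hH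
  have hpow : ∀ (k : ℕ) (z : V), ((s ^ (2 * b : ℤ)) ^ k) z = (s ^ (2 * b * k : ℤ)) z := by
    intro k z
    rw [zpow_mul s (2 * b : ℤ) (k : ℤ), zpow_natCast]
  have hS' : Fm G (pt s g x 0 0) ((s ^ (2 * b : ℤ)) (pt s g x 0 0))
      (SS G hs.u s g x b N (Lp * C + 1) (l₀ + C)) S := by
    rw [pt_shift, add_zero]; exact hS
  obtain ⟨P, hP, hPw⟩ := fm_pow t (s ^ (2 * b : ℤ)) hS' (by
    intro k hk z hz w hw' hzw
    rw [hpow] at hzw
    have := disj hG hs hL hsΓ hχs b hb' k hk z w hz hw' hzw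
    rw [pt_shift, add_zero]
    exact this) m
  obtain ⟨Q, hQ, hQw⟩ := fm_map t hH ((s ^ (2 * b : ℤ)) ^ m)
  have hx0 : pt s g x 0 0 ∈ {v | v ∈ Nr G s g x 0 b 0 (N + (Lp * C + 1 : ℕ)) (l₀ + C) ∧
      hs.u x ≤ hs.u v} := by
    refine ⟨⟨0, 0, le_rfl, by positivity, le_rfl, by positivity, by simp⟩, ?_⟩
    rw [pt_zero]
  obtain ⟨R, hR, hRw⟩ := fm_comb t hP hQ (by
    rintro z hz ⟨w', hw', rfl⟩
    rcases hz with hz | ⟨k, hk, w, hw'', hz⟩
    · rcases Nat.eq_zero_or_pos m with rfl | hm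
      · rw [hz]; simp
      · exfalso
        rw [hpow] at hz
        have h1 := disj hG hs hL hsΓ hχs b hb' m hm (pt s g x 0 0) w' (Or.inl hx0) (Or.inl hw')
          hz.symm
        have h2 := far_cols hG hL (D := l₀ + C) (v := pt s g x 0 0) (i := 0) (j := 0)
          (i' := 2 * b) (j' := 0) (by simp) (by rw [← h1.2]; simp)
        have : (2 * b : ℤ) - 0 < b := lt_of_le_of_lt h2 (by exact_mod_cast hb')
        omega
    · have h1 : w = ((s ^ (2 * b : ℤ)) ^ (m - k)) w' := by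
        have h2 : ((s ^ (2 * b : ℤ)) ^ m) w' =
            ((s ^ (2 * b : ℤ)) ^ k) (((s ^ (2 * b : ℤ)) ^ (m - k)) w') := by
          rw [← Nat.add_sub_cancel' hk.le, pow_add, Nat.add_sub_cancel_left]; rfl
        rw [h2] at hz
        exact (((s ^ (2 * b : ℤ)) ^ k).injective hz).symm
      rw [hpow] at h1
      have h3 := disj hG hs hL hsΓ hχs b hb' (m - k) (by omega) w w' hw'' (Or.inl hw')
        (by rw [h1])
      have hmk : m = k + 1 := by omega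
      rw [hz, h3.2, hmk, pow_succ]
      show ((s ^ (2 * b : ℤ)) ^ k) _ = ((s ^ (2 * b : ℤ)) ^ k) ((s ^ (2 * b : ℤ)) (pt s g x 0 0))
      rw [pt_shift, add_zero])
  refine ⟨R, ?_, ?_⟩
  · have e1 : pt s g x 0 0 = x := pt_zero s g x
    have e2 : ((s ^ (2 * b : ℤ)) ^ m) (pt s g x b 0) = (s ^ ((2 * (m + 1) - 1) * b : ℕ)) x := by
      rw [hpow, pt_shift]
      unfold pt
      have : ((2 * (m + 1) - 1 : ℕ)) = 2 * m + 1 := by omega
      rw [this, zpow_zero, ← zpow_natCast]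
      have h3 : (2 * b * m + b : ℤ) = (((2 * m + 1) * b : ℕ) : ℤ) := by push_cast; ring
      rw [h3]; rfl
    rw [e1] at hR
    rw [e2] at hR
    refine fm_mono hR ?_
    have hiB : (((2 * (m + 1) - 1) * b : ℕ) : ℤ) = 2 * b * m + b := by
      have : ((2 * (m + 1) - 1 : ℕ)) = 2 * m + 1 := by omega
      rw [this]; push_cast; ring
    have hshift : ∀ (k : ℕ) (w : V) (i j : ℤ), G.dist w (pt s g x i j) ≤ l₀ + C →
        G.dist (((s ^ (2 * b : ℤ)) ^ k) w) (pt s g x (2 * b * k + i) j) ≤ l₀ + C := by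
      intro k w i j h
      rw [hpow, ← pt_shift, dist_iso hG.conn]; exact h
    have hushift : ∀ (k : ℕ) (w : V), hs.u (((s ^ (2 * b : ℤ)) ^ k) w) = hs.u w := by
      intro k w
      rw [hpow, u_s hs hsΓ hχs]
    have hb0 : (0 : ℤ) ≤ b := by positivity
    rintro v ((rfl | ⟨k, hk, w, hw', rfl⟩) | ⟨w, ⟨⟨i, j, i1, i2, j1, j2, i3⟩, hw'⟩, rfl⟩)
    · refine ⟨⟨0, 0, le_rfl, by positivity, by omega, by positivity, ?_⟩, fun h => ?_⟩
      · show G.dist v (pt s g v 0 0) ≤ l₀ + C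
        rw [pt_zero]; simp
      · exact absurd h (lt_irrefl _)
    · have hkm : (k : ℤ) + 1 ≤ m := by exact_mod_cast hk
      have hbk : (2 * b : ℤ) * (k + 1) ≤ 2 * b * m := mul_le_mul_of_nonneg_left hkm (by positivity)
      have hbk0 : (0 : ℤ) ≤ 2 * b * k := by positivity
      rcases hw' with ⟨⟨i, j, i1, i2, j1, j2, i3⟩, hw'⟩ | ⟨⟨i, j, i1, i2, j1, j2, i3⟩, hw'⟩
      · refine ⟨⟨2 * b * k + i, j, by omega, ?_, by omega, j2, hshift k w i j i3⟩, fun h => ?_⟩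
        · rw [hiB]; nlinarith
        · rw [hushift] at h; linarith
      · refine ⟨⟨2 * b * k + i, j, by omega, ?_, j1, by omega, hshift k w i j i3⟩, fun h => ?_⟩
        · rw [hiB]; nlinarith
        · refine ⟨2 * b * k + i, j, by omega, ?_, j1, j2, hshift k w i j i3⟩
          rw [hiB]; nlinarith
    · have hbm0 : (0 : ℤ) ≤ 2 * b * m := by positivity
      refine ⟨⟨2 * b * m + i, j, by omega, ?_, by omega, j2, hshift m w i j i3⟩, fun h => ?_⟩
      · rw [hiB]; omega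
      · rw [hushift] at h; linarith
  · rw [hRw, hPw, hQw]
    have hf2 : (2 : ℝ) ^ N ≤ (fw t F) ^ N := pow_le_pow_left₀ (by norm_num) hw N
    have hHw' : (2 : ℝ) ^ N * t ^ c₀ * 2 ^ N ≤ fw t H := by
      refine le_trans ?_ hHw
      gcongr
    have hSw' : (2 : ℝ) ^ N * t ^ c₀ * 2 ^ N * t ^ c₀ ≤ fw t S := by
      refine le_trans ?_ hSw
      gcongr
    calc (2 : ℝ) ^ (2 * (m + 1) * N) * t ^ (2 * c₀ * m + c₀)
        = ((2 : ℝ) ^ N * t ^ c₀ * 2 ^ N * t ^ c₀) ^ m * ((2 : ℝ) ^ N * t ^ c₀ * 2 ^ N) := by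
          rw [show (2 * (m + 1) * N) = (N + N) * m + (N + N) by ring,
            show 2 * c₀ * m + c₀ = (c₀ + c₀) * m + c₀ by ring, pow_add, pow_mul, pow_add,
            pow_add t, pow_mul, pow_add]
          rw [show ((2 : ℝ) ^ N * t ^ c₀ * 2 ^ N * t ^ c₀) = (2 ^ N * 2 ^ N) * (t ^ c₀ * t ^ c₀) by
            ring, mul_pow]
          ring
      _ ≤ fw t S ^ m * fw t H := mul_le_mul (pow_le_pow_left₀ (by positivity) hSw' m) hHw'
          (by positivity) (pow_nonneg (fw_nonneg ht S) m)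

end Pool.H61.ST

end S_H61_ST_Row
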