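import Mathlib
import Pool.Agent.H61.LC.L1
import Pool.Agent.H61.LC.L4
import Pool.Agent.H61.LC.L5
import Pool.Agent.H61.LC.L6
import Pool.Agent.H61.LC.L7
import Pool.Agent.H61.LC.L8
import Pool.Agent.H61.LC.L9
import Pool.Agent.H61.LC.L10

set_option autoImplicit false

/-! Locality of connective constants, part L11: this file joins several modules to save build time. -/

section S_H61_ST_Qsup

set_option autoImplicit false

/-! Module QSUP: superblocks in the quadratic case. -/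

namespace Pool.H61.ST

open Finset Pool.Agent.H61.SW Pool.H98.C

variable {V : Type} {G : SimpleGraph V}

theorem quad_super (hG : TG G) (hs : HS G) (s g : G ≃g G) (x : V) (C : ℕ)
    (hL : LatQI G s g x C)
    (hsΓ : s ∈ hs.Γ) (hχs : hs.χ s = 0) (hg : g ∈ hs.Γ) (hχ : 0 < hs.χ g)
    (F : Finset (List V))
    (hF : Fm G x (g x) {z | z = g x ∨ (hs.u x ≤ hs.u z ∧ hs.u z < hs.u (g x))} F)
    (t : ℝ) (ht : 0 < t) (ht1 : t ≤ 1) (hw : 2 ≤ fw t F) :
    ∃ p ρ : ℕ, 2 * ρ < p ∧ Super G t p ρ :=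
  quad_super_of hG hs s g x C hL F hF t ht ht1 hw
    (exists_row hG hs s g x C hL hsΓ hχs hg hχ F hF t ht ht1 hw)
    (fun w₀ hw₀ Ce J K₀ => exists_legs hG hs s g x C hL hsΓ hχs hg hχ w₀ hw₀ Ce J K₀)

end Pool.H61.ST

end S_H61_ST_Qsup

section S_H61_ST_Final

set_option autoImplicit false

/-! Lower bound for connective constants near a transitive graph of polynomial growth. -/

namespace Pool.H61.ST

open Finset Filter Topology Pool.Agent.H61.SW Pool.H98.C

theorem exists_HS_of_PG {V : Type} [Infinite V] {G : SimpleGraph V} (hG : TG G) (o : V) (D : ℕ)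
    (hpg : PG hG o D) : Nonempty (HS G) := by
  have huni := unimod_of_PG hG o D hpg
  have hh : ∀ R, Nonempty (Homog G o R) := fun R => exists_homog hG o huni R
  have hne := exists_harmonic hG o hh (fun η hη => exists_low hG ‹_› o D hpg η hη)
  have hfd := finite_LH hG o D hpg hh
  obtain ⟨Γ₀, hfi, hab⟩ := virt_abel hG o D hpg hfd
  obtain ⟨Γ₁, χ, h1, h2, h3, h4⟩ := exists_hom hG ‹_› o hfd hne Γ₀ hfi hab
  exact exists_HS hG o huni Γ₁ h1 χ h2 h3 h4

/-- `G'` looks like `G` up to radius `n` -/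
def BI {V W : Type} (G : SimpleGraph V) (o : V) (G' : SimpleGraph W) (o' : W) (n : ℕ) : Prop :=
  ∃ φ : G.induce {v | G.dist o v ≤ n} ≃g G'.induce {v | G'.dist o' v ≤ n},
      ∀ x : {v | G.dist o v ≤ n}, (x : V) = o → ((φ x : {v | G'.dist o' v ≤ n}) : W) = o'

/-- superblocks settle the matter -/
theorem super_lower {V : Type} [Infinite V] {G : SimpleGraph V} (hG : TG G) (o : V) {t : ℝ}
    (ht : 0 < t) (ht1 : t ≤ 1) (hS : ∃ p ρ : ℕ, 2 * ρ < p ∧ Super G t p ρ) :
    ∃ n0 : ℕ, ∀ (W : Type) [Infinite W] (G' : SimpleGraph W) (o' : W), TG G' →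
      (∀ n ≤ n0, BI G o G' o' n) → ¬ Summable (fun k => (cnt (sa G') o' k : ℝ) * t ^ k) := by
  obtain ⟨p, ρ, hρ, hS⟩ := hS
  refine ⟨4 * p, fun W _ G' o' hG' hB => ?_⟩
  obtain ⟨φ, hφ⟩ := hB (4 * p) le_rfl
  exact chain2 hG' ‹_› o' t ht ht1 p ρ hρ (super_transfer hG hG' o o' t p ρ hρ (4 * p) le_rfl φ hφ hS)

/-- polynomial growth: divergence of the generating function for all transitive unimodular graphs
with the same large ball -/
theorem pg_diverges {V : Type} [Infinite V] {G : SimpleGraph V} (hG : TG G) (o : V) (D : ℕ)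
    (hpg : PG hG o D) {lam q : ℝ} (hlam : 0 < lam) (hq : 1 < q)
    (hc : ∀ᶠ n : ℕ in atTop, q ^ n ≤ (cnt (sa G) o n : ℝ) * Real.exp (-lam) ^ n) :
    ∃ n0 : ℕ, ∀ (W : Type) [Infinite W] (G' : SimpleGraph W) (o' : W), TG G' →
      (∀ R, Nonempty (Homog G' o' R)) → (∀ n ≤ n0, BI G o G' o' n) →
      ¬ Summable (fun k => (cnt (sa G') o' k : ℝ) * Real.exp (-lam) ^ k) := by
  have ht : 0 < Real.exp (-lam) := Real.exp_pos _
  have ht1 : Real.exp (-lam) ≤ 1 := Real.exp_le_one_iff.2 (by linarith)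
  obtain ⟨hs0⟩ := exists_HS_of_PG hG o D hpg
  obtain ⟨hs, g, x, F, hg, hχ, hF, hw⟩ := exists_tube hG hs0 o D hpg (Real.exp (-lam)) q ht ht1 hq
    hc (Real.exp 1)
  have hw2 : 2 ≤ fw (Real.exp (-lam)) F := by
    have h1 : (2 : ℝ) ≤ Real.exp 1 := by have := Real.add_one_le_exp (1 : ℝ); linarith
    exact h1.trans hw
  have hFm : Fm G x (g x) {z | z = g x ∨ (hs.u x ≤ hs.u z ∧ hs.u z < hs.u (g x))} F := by
    intro s hsF
    obtain ⟨h1, h2, h3⟩ := hF s hsF
    refine ⟨h1, h2, fun z hz => ?_⟩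
    by_cases h : z = g x
    · exact Or.inl h
    · exact Or.inr (h3 z hz h)
  have hsup : (∃ p ρ : ℕ, 2 * ρ < p ∧ Super G (Real.exp (-lam)) p ρ) →
      ∃ n0 : ℕ, ∀ (W : Type) [Infinite W] (G' : SimpleGraph W) (o' : W), TG G' →
      (∀ R, Nonempty (Homog G' o' R)) → (∀ n ≤ n0, BI G o G' o' n) →
      ¬ Summable (fun k => (cnt (sa G') o' k : ℝ) * Real.exp (-lam) ^ k) := by
    intro h
    obtain ⟨n0, hn0⟩ := super_lower hG o ht ht1 h
    exact ⟨n0, fun W _ G' o' hG' _ hB => hn0 W G' o' hG' hB⟩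
  rcases thin_or_quad hG ‹_› o with ⟨f, C, hf⟩ | hlow
  · exact hsup (thin_super hG ‹_› hs f C hf g hg hχ x F hFm _ ht ht1 hw2)
  by_cases hquad : ∃ K : ℝ, ∀ N : ℕ, ∃ r ≥ N, ((bl hG o r).card : ℝ) ≤ K * (r : ℝ) ^ 2
  · have hinf := orb_infinite hG hs o x hlow
    have hlin := orb_linear hG hs o x hquad
    have hsl := slab_ql hG hs o D hpg x hquad hinf
    obtain ⟨s, C, hsΓ, hχs, hL⟩ := exists_lat hG hs x hinf hlin hsl g hg hχ
    exact hsup (quad_super hG hs s g x C hL hsΓ hχs hg hχ F hFm _ ht ht1 hw2)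
  · push Not at hquad
    obtain ⟨r0, hr0⟩ := case_E hG o D hpg (fun K => by
      obtain ⟨N, hN⟩ := hquad K
      exact ⟨N, fun r hr => (hN r hr).le⟩) hlam hs g hg hχ x F hF hw
    refine ⟨r0, fun W _ G' o' hG' hH hB => ?_⟩
    obtain ⟨φ, hφ⟩ := hB r0 le_rfl
    obtain ⟨I⟩ := LI.of_iso o' o r0 φ hφ
    exact hr0 W G' o' hG' hH I.symm

/-- the lower bound at limits of polynomial growth -/
theorem pg_lower {V : Type} [Infinite V] {G : SimpleGraph V} (hG : TG G) (o : V) (D : ℕ)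
    (hpg : PG hG o D) {μ : ℝ}
    (hμ : Tendsto (fun n : ℕ => (cnt (sa G) o n : ℝ) ^ ((1 : ℝ) / n)) atTop (𝓝 μ))
    (a : ℝ) (ha : a < μ) :
    ∃ n0 : ℕ, ∀ (W : Type) [Infinite W] (G' : SimpleGraph W) (o' : W) (m : ℝ), TG G' →
    Tendsto (fun n : ℕ => (cnt (sa G') o' n : ℝ) ^ ((1 : ℝ) / n)) atTop (𝓝 m) →
    (∀ n ≤ n0, BI G o G' o' n) → a < m := by
  have hμ1 : 1 ≤ μ := one_le_mu hG o hμ
  have heqG : ∀ v n, cnt (sa G) v n = cnt (sa G) o n := fun v n => cnt_eq hG v n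
  have hpow : ∀ n, μ ^ n ≤ (cnt (sa G) o n : ℝ) := by
    intro n
    rcases Nat.eq_zero_or_pos n with rfl | hn
    · rw [pow_zero, sigma_zero]; norm_num
    have h4 := mu_pow_le hG.lf o heqG hμ n hn
    calc μ ^ n ≤ ((cnt (sa G) o n : ℝ) ^ ((1 : ℝ) / n)) ^ n :=
          pow_le_pow_left₀ (by linarith) h4 n
      _ = (cnt (sa G) o n : ℝ) := by
        rw [← Real.rpow_natCast, ← Real.rpow_mul (Nat.cast_nonneg _)]
        have : (n : ℝ) ≠ 0 := by exact_mod_cast hn.ne'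
        rw [one_div_mul_cancel this, Real.rpow_one]
  by_cases hμ2 : μ ≤ 1
  · exact ⟨0, fun W _ G' o' m hG' hm _ => lt_of_lt_of_le (ha.trans_le hμ2) (one_le_mu hG' o' hm)⟩
  push Not at hμ2
  obtain ⟨a', ha'⟩ : ∃ a', a' = (max a 1 + μ) / 2 := ⟨_, rfl⟩
  have h1 : max a 1 < μ := max_lt ha hμ2
  have h2 : max a 1 < a' := by rw [ha']; linarith
  have h3 : a' < μ := by rw [ha']; linarith
  have h4 : 1 < a' := (le_max_right _ _).trans_lt h2
  have h5 : a < a' := (le_max_left _ _).trans_lt h2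
  have hlam0 : 0 < Real.log a' := Real.log_pos h4
  have hexp : Real.exp (-Real.log a') = 1 / a' := by
    rw [Real.exp_neg, Real.exp_log (by linarith), one_div]
  obtain ⟨n1, hn1⟩ := pg_diverges hG o D hpg hlam0 (q := μ / a') (by
    rw [lt_div_iff₀ (by linarith)]; linarith) (Eventually.of_forall fun n => by
      rw [hexp, div_pow, div_pow, one_pow, ← mul_one_div]
      exact mul_le_mul_of_nonneg_right (hpow n) (by positivity))
  obtain ⟨E, hE⟩ : ∃ E : ℝ, E = max 1 (cnt (sa G) o 1 : ℝ) := ⟨_, rfl⟩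
  have hE1 : 1 ≤ E := by rw [hE]; exact le_max_left _ _
  obtain ⟨n, hn, L, hL, δ, hδ, hδ1, key⟩ := liminf_arg μ E hE1 (by linarith)
    (fun r => Set.ncard {v | G.dist o v ≤ r}) a ha
  refine ⟨n1 + n + L + 1, fun W _ G' o' m hG' hm hB => ?_⟩
  have hcc : ∀ k ≤ n1 + n + L + 1, cnt (sa G') o' k = cnt (sa G) o k := by
    intro k hk
    obtain ⟨φ, hφ⟩ := hB k hk
    exact (cnt_sa_eq_of_iso o o' k hG.lf hG'.lf φ hφ).symm
  by_cases huni : ∀ x y, (Pool.H98.C.orb G' x y).ncard = (Pool.H98.C.orb G' y x).ncard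
  · have hns := hn1 W G' o' hG' (fun R => exists_homog hG' o' huni R) fun n hn => hB n (by omega)
    have h7 := le_of_not_summable (fun k => Nat.cast_nonneg _) (Real.exp_pos _) hm hns
    rw [hexp, one_div_one_div] at h7
    linarith
  · obtain ⟨h, hh⟩ := hasHeight_of_not_uni hG' huni
    have heq' : ∀ v n, cnt (sa G') v n = cnt (sa G') o' n := fun v n => cnt_eq hG' v n
    obtain ⟨s, hs, hb⟩ := height_bound hG'.lf hG'.conn o' hm (h := h) hh δ hδ hδ1 L hL n
    have hm0 : 0 ≤ m := zero_le_one.trans (one_le_mu hG' o' hm)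
    have hballs : Set.ncard {v | G'.dist o' v ≤ L} = Set.ncard {v | G.dist o v ≤ L} := by
      obtain ⟨φ, hφ⟩ := hB L (by omega)
      rw [← Nat.card_coe_set_eq, ← Nat.card_coe_set_eq]
      exact (Nat.card_congr φ.toEquiv).symm
    refine key m hm0 ?_ s (by rw [← hballs]; exact hs) ?_
    · have h9 := mu_pow_le hG'.lf o' heq' hm 1 one_pos
      rw [Nat.cast_one, div_one, Real.rpow_one] at h9
      refine h9.trans ?_
      rw [hcc 1 (by omega), hE]
      exact le_max_right _ _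
    · refine le_trans ?_ hb
      rw [hcc n (by omega)]
      exact hpow n

end Pool.H61.ST

end S_H61_ST_Final

section S_H61_ST_Cont

set_option autoImplicit false

/-! Continuity of the connective constant in terms of one ball. -/

namespace Pool.H61.ST

open Finset Filter Topology Pool.Agent.H61.SW Pool.H98.C

/-- restriction of an isomorphism of balls to a smaller ball -/
theorem BI_mono {V W : Type} {G : SimpleGraph V} {H : SimpleGraph W} (hG : TG G) (hH : TG H)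
    {o : V} {p : W} {r n : ℕ} (hn : n ≤ r) (h : BI G o H p r) : BI G o H p n := by
  obtain ⟨φ, hφ⟩ := h
  obtain ⟨J⟩ := LI.of_iso p o r φ hφ
  have I : LI G o H p n := (J.mono hH hG hn).symm
  refine ⟨⟨⟨fun x => ⟨I.f x, I.mem x x.2⟩, fun y => ⟨I.f' y, I.mem' y y.2⟩,
    fun x => Subtype.ext (I.inv x x.2), fun y => Subtype.ext (I.inv' y y.2)⟩, ?_⟩, ?_⟩
  · intro x y
    constructor
    · intro h
      have h1 := I.adj' _ _ (I.mem x x.2) (I.mem y y.2) h
      rw [I.inv x x.2, I.inv y y.2] at h1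
      exact h1
    · intro h
      exact I.adj _ _ x.2 y.2 h
  · intro x hx
    show I.f x = p
    rw [hx, I.fo]

theorem ball_continuity {V : Type} [Infinite V] {G : SimpleGraph V} (hG : TG G) (o : V) {μ : ℝ}
    (hμ : Tendsto (fun n : ℕ => (cnt (sa G) o n : ℝ) ^ ((1 : ℝ) / n)) atTop (𝓝 μ))
    (ε : ℝ) (hε : 0 < ε) :
    ∃ r : ℕ, ∀ (W : Type) [Infinite W] (H : SimpleGraph W) (p : W) (m : ℝ), TG H →
      Tendsto (fun n : ℕ => (cnt (sa H) p n : ℝ) ^ ((1 : ℝ) / n)) atTop (𝓝 m) →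
      BI G o H p r → |m - μ| < ε := by
  have hμ1 : 1 ≤ μ := one_le_mu hG o hμ
  have heqG : ∀ v n, cnt (sa G) v n = cnt (sa G) o n := fun v n => cnt_eq hG v n
  -- upper bound
  obtain ⟨n, h1, h2⟩ := ((hμ.eventually (gt_mem_nhds (show μ < μ + ε by linarith))).and
    (eventually_gt_atTop 0)).exists
  -- lower bound
  have hlow : ∃ n0 : ℕ, ∀ (W : Type) [Infinite W] (H : SimpleGraph W) (p : W) (m : ℝ), TG H →
      Tendsto (fun n : ℕ => (cnt (sa H) p n : ℝ) ^ ((1 : ℝ) / n)) atTop (𝓝 m) →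
      (∀ n ≤ n0, BI G o H p n) → μ - ε < m := by
    by_cases hgr : ∃ c : ℝ, 0 < c ∧ ∀ r : ℕ, 1 ≤ r →
      c * (r : ℝ) ^ 5 ≤ ((Set.ncard {v : V | G.dist o v ≤ r} : ℕ) : ℝ)
    · obtain ⟨c, hc, hgrow⟩ := hgr
      have hpow : ∀ n, μ ^ n ≤ (cnt (sa G) o n : ℝ) := by
        intro n
        rcases Nat.eq_zero_or_pos n with rfl | hn
        · rw [pow_zero, sigma_zero]; norm_num
        have h4 := mu_pow_le hG.lf o heqG hμ n hn
        calc μ ^ n ≤ ((cnt (sa G) o n : ℝ) ^ ((1 : ℝ) / n)) ^ n :=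
              pow_le_pow_left₀ (by linarith) h4 n
          _ = (cnt (sa G) o n : ℝ) := by
            rw [← Real.rpow_natCast, ← Real.rpow_mul (Nat.cast_nonneg _)]
            have : (n : ℝ) ≠ 0 := by exact_mod_cast hn.ne'
            rw [one_div_mul_cancel this, Real.rpow_one]
      obtain ⟨n0, hn0⟩ := lower_bound μ c (max 1 (cnt (sa G) o 1 : ℝ)) hc (le_max_left _ _)
        (fun n => cnt (sa G) o n) (fun r => Set.ncard {v | G.dist o v ≤ r}) (le_max_right _ _)
        hpow hgrow (μ - ε) (by linarith) (by linarith)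
      refine ⟨n0, fun W _ H p m hH hm hB => hn0 W H p m hH hm (fun k hk => ?_) fun k hk => ?_⟩
      · obtain ⟨φ, hφ⟩ := hB k hk
        exact (cnt_sa_eq_of_iso o p k hG.lf hH.lf φ hφ).symm
      · obtain ⟨φ, hφ⟩ := hB k hk
        show Set.ncard {v | H.dist p v ≤ k} = Set.ncard {v | G.dist o v ≤ k}
        rw [← Nat.card_coe_set_eq, ← Nat.card_coe_set_eq]
        exact (Nat.card_congr φ.toEquiv).symm
    · have hpg : PG hG o 5 := by
        intro N
        by_contra hN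
        push Not at hN
        refine hgr ⟨1 / ((N : ℝ) + 1) ^ 5, by positivity, fun r hr => ?_⟩
        have h2 : ((Set.ncard {v : V | G.dist o v ≤ r} : ℕ) : ℝ) = ((bl hG o r).card : ℝ) := by
          rw [card_bl_ncard]
        have hr1 : (1 : ℝ) ≤ ((bl hG o r).card : ℝ) := by
          exact_mod_cast card_bl_pos hG o r
        rw [h2, one_div_mul_eq_div, div_le_iff₀ (by positivity)]
        by_cases h : N ≤ r
        · have h1 := hN r h
          have h3 : (1 : ℝ) ≤ ((N : ℝ) + 1) ^ 5 :=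
            one_le_pow₀ (by linarith [Nat.cast_nonneg (α := ℝ) N])
          nlinarith
        · have h4 : (r : ℝ) ≤ (N : ℝ) + 1 := by
            have : r ≤ N + 1 := by omega
            exact_mod_cast this
          have h5 : (r : ℝ) ^ 5 ≤ ((N : ℝ) + 1) ^ 5 := pow_le_pow_left₀ (Nat.cast_nonneg _) h4 5
          nlinarith [pow_nonneg (by positivity : (0 : ℝ) ≤ (N : ℝ) + 1) 5]
      obtain ⟨n0, hn0⟩ := pg_lower hG o 5 hpg hμ (μ - ε) (by linarith)
      exact ⟨n0, fun W _ H p m hH hm hB => hn0 W H p m hH hm hB⟩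
  obtain ⟨n0, hn0⟩ := hlow
  refine ⟨n0 + n, fun W _ H p m hH hm hB => ?_⟩
  have hup : m < μ + ε := by
    obtain ⟨φ, hφ⟩ := BI_mono hG hH (Nat.le_add_left n n0) hB
    have h3 := cnt_sa_eq_of_iso o p n hG.lf hH.lf φ hφ
    have h4 := mu_pow_le hH.lf p (fun v k => cnt_eq hH v k) hm n h2
    rw [← h3] at h4
    exact h4.trans_lt h1
  have hlo := hn0 W H p m hH hm fun k hk => BI_mono hG hH (by omega) hB
  rw [abs_lt]
  constructor <;> linarith

end Pool.H61.ST

end S_H61_ST_Cont
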